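import Pool.Agent.Lib.MP_dec75e_mp.Cvl

/-! Calculus of the amplitudes `amp`. -/

open MeasureTheory Complex Finset Filter Function
open scoped ComplexConjugate Real Topology

noncomputable section

namespace Pool.Agent.BoseTail

variable {N : ℕ} {L : ℝ} [Fact (0 < L)] {o j : Fin N} {φ ψ : Cf N L → ℂ}

omit [Fact (0 < L)] in
theorem continuous_sl (o j : Fin N) :
    Continuous fun p : Cf N L × T3 L => update p.1 o (p.1 j + p.2) := by
  exact continuous_fst.update o (((continuous_apply j).comp continuous_fst).add continuous_snd)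

omit [Fact (0 < L)] in
/-- The sheared function `x ↦ φ (update x o (x_j + z))` and its derivatives. -/
theorem hd_shear (hj : j ≠ o) (hφ : IsC1 φ) (l : Fin N) (c : Fin 3) (x : Cf N L) (z : T3 L) :
    HasDerivAt
      (fun s : ℝ => φ (update (x + dir l c s) o ((x + dir l c s : Cf N L) j + z)))
      (if l = o then 0
        else if l = j then dd (dir o c) φ (update x o (x j + z)) + dd (dir j c) φ (update x o (x j + z))
        else dd (dir l c) φ (update x o (x j + z))) 0 := by
  by_cases hlo : l = o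
  · subst hlo
    simp only [if_true, update_add_dir_self, add_dir_ne x hj]
    exact hasDerivAt_const _ _
  · by_cases hlj : l = j
    · subst hlj
      simp only [hlo, if_false, if_true]
      have h := D1.hd_add_dir (dir_dir o c) (dir_dir l c) (hφ.2 o c) (hφ.2 l c)
        (update x o (x l + z))
      refine h.congr_of_eventuallyEq (Eventually.of_forall fun s => ?_)
      simp only
      rw [update_add_dir_ne x hlo, add_dir_self, add_right_comm (x l), update_add_d1, add_assoc]
    · simp only [hlo, hlj, if_false]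
      have h := (hφ.2 l c).hd (update x o (x j + z))
      refine h.congr_of_eventuallyEq (Eventually.of_forall fun s => ?_)
      simp only
      rw [update_add_dir_ne x hlo, add_dir_ne x (Ne.symm hlj)]

omit [Fact (0 < L)] in
theorem cont_shear_amp (hφ : IsC1 φ) (o j l : Fin N) (c : Fin 3) :
    Continuous fun p : Cf N L × T3 L =>
      (if l = o then 0
        else if l = j then dd (dir o c) φ (update p.1 o (p.1 j + p.2)) +
          dd (dir j c) φ (update p.1 o (p.1 j + p.2))
        else dd (dir l c) φ (update p.1 o (p.1 j + p.2)) : ℂ) := by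
  by_cases hlo : l = o
  · simp only [hlo, if_true]; exact continuous_const
  · by_cases hlj : l = j
    · subst hlj
      simp only [hlo, if_false, if_true]
      exact ((hφ.2 o c).cdd.comp (continuous_sl o l)).add ((hφ.2 l c).cdd.comp (continuous_sl o l))
    · simp only [hlo, hlj, if_false]
      exact (hφ.2 l c).cdd.comp (continuous_sl o j)

omit [Fact (0 < L)] in
theorem IsC1.shear (hj : j ≠ o) (hφ : IsC1 φ) (z : T3 L) :
    IsC1 (fun x : Cf N L => φ (update x o (x j + z))) := by
  have hz : Continuous fun x : Cf N L => (x, z) := continuous_id.prodMk continuous_const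
  have hc : Continuous fun x : Cf N L => φ (update x o (x j + z)) :=
    (hφ.1.comp (continuous_sl o j)).comp hz
  exact ⟨hc, fun l c => D1.of_hd hc ((cont_shear_amp hφ o j l c).comp hz)
    fun x => hd_shear hj hφ l c x z⟩

theorem continuous_amp {U : T3 L → ℝ} (hU : BM U) (hφ : Continuous φ) (o j : Fin N) :
    Continuous (amp o j U φ) := by
  exact continuous_param (Φ := fun (x : Cf N L) (z : T3 L) => φ (update x o (x j + z)))
    hU.ofReal (hφ.comp (continuous_sl o j))

theorem amp_update (hj : j ≠ o) (U : T3 L → ℝ) (φ : Cf N L → ℂ) (x : Cf N L) (y : T3 L) :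
    amp o j U φ (update x o y) = amp o j U φ x := by
  simp only [amp, update_idem, update_of_ne hj]

theorem IsC1.amp (hj : j ≠ o) {U : T3 L → ℝ} (hU : BM U) (hφ : IsC1 φ) :
    IsC1 (amp o j U φ) := by
  refine ⟨continuous_amp hU hφ.1 o j, fun l c => ?_⟩
  exact D1.param (Φ := fun (x : Cf N L) (z : T3 L) => φ (update x o (x j + z)))
    (Φ' := fun (x : Cf N L) (z : T3 L) =>
      (if l = o then 0
        else if l = j then dd (dir o c) φ (update x o (x j + z)) +
          dd (dir j c) φ (update x o (x j + z))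
        else dd (dir l c) φ (update x o (x j + z)) : ℂ))
    (dir_dir l c) hU.ofReal (hφ.1.comp (continuous_sl o j)) (cont_shear_amp hφ o j l c)
    fun x z => hd_shear hj hφ l c x z

theorem dd_amp_self (hj : j ≠ o) (U : T3 L → ℝ) (φ : Cf N L → ℂ) (c : Fin 3) (x : Cf N L) :
    dd (dir o c) (amp o j U φ) x = 0 := by
  refine dd_of_indep (fun y s => ?_) x
  simp only [amp, update_add_dir_self, add_dir_ne y hj]

omit [Fact (0 < L)] in
/-- The slice of `φ` in the variable `x_o`, centred at `x_j`. -/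
theorem IsC1.cslice (hφ : IsC1 φ) (x : Cf N L) (o j : Fin N) :
    C1T (fun z => φ (update x o (x j + z))) := by
  intro c
  have h := (hφ.slice x o c).shift (x j)
  simpa only [add_comm (x j)] using h

omit [Fact (0 < L)] in
theorem gT_cslice (φ : Cf N L → ℂ) (x : Cf N L) (o j : Fin N) (z : T3 L) :
    gT (fun z => φ (update x o (x j + z))) z = gP o φ (update x o (x j + z)) := by
  simp only [gT, gP]
  refine Finset.sum_congr rfl fun c _ => ?_
  have h := dd_shift (e := d1 c) (φ := fun y => φ (update x o y)) (x j) z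
  rw [dd_slice] at h
  simp only [add_comm (x j)]
  rw [h]

theorem wsq_le_amp (hj : j ≠ o) {a : T3 L → ℝ} (ha : BM a) {K M s : ℝ} (hK : ∫ z, |a z| ≤ K)
    (hM : ∀ z, |a z| ≤ M * nb s z) (hφ : Continuous φ) {G : Cf N L → ℝ} (hG : BM G)
    (hG0 : ∀ x, 0 ≤ G x) (hGo : ∀ x y, G (update x o y) = G x) {A : Cf N L → ℝ} (hA : BM A)
    (hle : ∀ x, A x ≤ (∫ z, |a z|) * ∫ z, |a z| * ‖φ (update x o (x j + z))‖ ^ 2) :
    (L ^ 3)⁻¹ * ∫ x, G x * A x ≤ K * M * ∫ x, nb s (x o - x j) * G x * ‖φ x‖ ^ 2 := by
  have hL : 0 < L ^ 3 := pow_pos Lpos 3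
  have hK0 : 0 ≤ K := (integral_nonneg fun z => abs_nonneg _).trans hK
  have hφ2 : BM fun x => G x * ‖φ x‖ ^ 2 := hG.mul ((BM.of_cont hφ.norm).pow 2)
  have hc := cv' (BM_nb s) hφ2 hj
  have hsl : Measurable fun p : Cf N L × T3 L => update p.1 o (p.1 j + p.2) :=
    (measurable_update2 o).comp (measurable_fst.prodMk
      (((measurable_pi_apply j).comp measurable_fst).add measurable_snd))
  have hb : BM (uncurry fun (x : Cf N L) (z : T3 L) =>
      nb s z * (G (update x o (x j + z)) * ‖φ (update x o (x j + z))‖ ^ 2)) :=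
    ((BM_nb s).comp measurable_snd).mul (hφ2.comp hsl)
  have hpt : ∀ x, G x * A x ≤ K * M *
      ∫ z, nb s z * (G (update x o (x j + z)) * ‖φ (update x o (x j + z))‖ ^ 2) := by
    intro x
    have cs : Continuous fun z : T3 L => ‖φ (update x o (x j + z))‖ ^ 2 :=
      ((hφ.comp (continuous_const.update o (continuous_const.add continuous_id))).norm).pow 2
    have b1 : BM fun z : T3 L => |a z| * ‖φ (update x o (x j + z))‖ ^ 2 :=
      ha.abs.mul (BM.of_cont cs)
    have b2 : BM fun z : T3 L => nb s z * ‖φ (update x o (x j + z))‖ ^ 2 :=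
      (BM_nb s).mul (BM.of_cont cs)
    have h1 : ∫ z, |a z| * ‖φ (update x o (x j + z))‖ ^ 2 ≤
        M * ∫ z, nb s z * ‖φ (update x o (x j + z))‖ ^ 2 := by
      rw [← integral_const_mul]
      refine integral_mono b1.integrable (b2.integrable.const_mul M) fun z => ?_
      simp only [← mul_assoc]
      exact mul_le_mul_of_nonneg_right (hM z) (sq_nonneg _)
    have h0 : 0 ≤ ∫ z, |a z| * ‖φ (update x o (x j + z))‖ ^ 2 :=
      integral_nonneg fun z => mul_nonneg (abs_nonneg _) (sq_nonneg _)
    have h2 : A x ≤ K * (M * ∫ z, nb s z * ‖φ (update x o (x j + z))‖ ^ 2) :=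
      (hle x).trans (mul_le_mul hK h1 h0 hK0)
    have e : ∫ z, nb s z * (G (update x o (x j + z)) * ‖φ (update x o (x j + z))‖ ^ 2) =
        G x * ∫ z, nb s z * ‖φ (update x o (x j + z))‖ ^ 2 := by
      rw [← integral_const_mul]
      refine integral_congr_ae (Eventually.of_forall fun z => ?_)
      simp only [hGo]; ring
    rw [e]
    calc G x * A x ≤ G x * (K * (M * ∫ z, nb s z * ‖φ (update x o (x j + z))‖ ^ 2)) :=
          mul_le_mul_of_nonneg_left h2 (hG0 x)
      _ = _ := by ring
  have hint := integral_mono (μ := volume) (hG.mul hA).integrable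
    (hb.integral_right.integrable.const_mul (K * M)) hpt
  rw [integral_const_mul, hc] at hint
  rw [inv_mul_le_iff₀ hL]
  simp only [mul_assoc (nb s _)]
  refine hint.trans (le_of_eq ?_)
  simp only [RCLike.ofReal_real_eq_id, id]
  ring

/-- Weighted norm of an amplitude. -/
theorem amp_sq_le (hj : j ≠ o) {Λ s : ℝ} (hs : 0 < s) {U : T3 L → ℝ} (hU : Wt Λ s U)
    (hφ : Continuous φ) {G : Cf N L → ℝ} (hG : BM G) (hG0 : ∀ x, 0 ≤ G x)
    (hGo : ∀ x y, G (update x o y) = G x) :
    (L ^ 3)⁻¹ * ∫ x, G x * ‖amp o j U φ x‖ ^ 2 ≤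
      8 * Λ ^ 2 / s ^ 3 * ∫ x, nb s (x o - x j) * G x * ‖φ x‖ ^ 2 := by
  have hΛ : 0 ≤ Λ / s ^ 3 := (abs_nonneg _).trans (hU.le 0)
  have hK : ∫ z, |U z| ≤ 8 * Λ := by
    have h := integral_le_of_out hU.bm.abs hs.le hU.le hΛ fun z hz => by simp [hU.out z hz]
    have e : Λ / s ^ 3 * (2 * s) ^ 3 = 8 * Λ := by field_simp; ring
    linarith
  have hM : ∀ z, |U z| ≤ Λ / s ^ 3 * nb s z := by
    intro z
    by_cases hz : ‖z‖ ≤ s
    · simpa [nb, hz] using hU.le z
    · simp [nb, hz, hU.out z (not_le.1 hz)]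
  have h := wsq_le_amp hj hU.bm hK hM hφ hG hG0 hGo
    (A := fun x => ‖amp o j U φ x‖ ^ 2) ((BM.of_cont (continuous_amp hU.bm hφ o j).norm).pow 2)
    fun x => jensen_wt hU.bm (BM.of_cont
      (hφ.comp (continuous_const.update o (continuous_const.add continuous_id))))
  refine h.trans (le_of_eq ?_)
  ring

/-- The same for the amplitude of `‖φ‖` at contact. -/
theorem contact_sq_le (hj : j ≠ o) {P : Par} {w : T3 L → ℝ} (hw : Wp P w)
    (hφ : Continuous φ) {G : Cf N L → ℝ} (hG : BM G) (hG0 : ∀ x, 0 ≤ G x)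
    (hGo : ∀ x y, G (update x o y) = G x) :
    (L ^ 3)⁻¹ * ∫ x, G x * (∫ z, w z * ‖φ (update x o (x j + z))‖) ^ 2 ≤
      P.W * P.V * ∫ x, nb P.R0 (x o - x j) * G x * ‖φ x‖ ^ 2 := by
  have hK : ∫ z, |w z| ≤ P.W := by
    simpa only [abs_of_nonneg (hw.nonneg _)] using hw.integral_le
  have hM : ∀ z, |w z| ≤ P.V * nb P.R0 z := fun z => by
    rw [abs_of_nonneg (hw.nonneg z)]; exact hw.le_nb z
  have hb : BM (uncurry fun (x : Cf N L) (z : T3 L) => w z * ‖φ (update x o (x j + z))‖) :=
    BM.of_cont ((hw.cont.comp continuous_snd).mul (hφ.comp (continuous_sl o j)).norm)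
  refine wsq_le_amp hj hw.bm hK hM hφ hG hG0 hGo
    (A := fun x => (∫ z, w z * ‖φ (update x o (x j + z))‖) ^ 2) (hb.integral_right.pow 2)
    fun x => ?_
  have cs : Continuous fun z : T3 L => ‖φ (update x o (x j + z))‖ :=
    (hφ.comp (continuous_const.update o (continuous_const.add continuous_id))).norm
  have h := jensen_wt (μ := volume) hw.bm (BM.of_cont cs).ofReal
  simp only [← Complex.ofReal_mul, integral_complex_ofReal, Complex.norm_real, Real.norm_eq_abs,
    sq_abs, abs_norm] at h
  exact h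

end Pool.Agent.BoseTail
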