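import Pool.Agent.Lib.MP_dec75e_mp.Calc

/-! Bounded measurable functions. -/

open MeasureTheory Complex Finset Filter Function
open scoped ComplexConjugate Real Topology

noncomputable section

namespace Pool.Agent.BoseTail

section bm
variable {α : Type*} [MeasurableSpace α] {𝕜 : Type*} [RCLike 𝕜] [MeasurableSpace 𝕜]
  [BorelSpace 𝕜] {f g : α → 𝕜}

theorem BM.const (c : 𝕜) : BM (fun _ : α => c) := by
  exact ⟨measurable_const, ‖c‖, fun _ => le_rfl⟩
theorem BM.add (hf : BM f) (hg : BM g) : BM (fun x => f x + g x) := by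
  obtain ⟨hf, C, hC⟩ := hf
  obtain ⟨hg, D, hD⟩ := hg
  exact ⟨hf.add hg, C + D, fun x => (norm_add_le _ _).trans (add_le_add (hC x) (hD x))⟩
theorem BM.sub (hf : BM f) (hg : BM g) : BM (fun x => f x - g x) := by
  obtain ⟨hf, C, hC⟩ := hf
  obtain ⟨hg, D, hD⟩ := hg
  exact ⟨hf.sub hg, C + D, fun x => (norm_sub_le _ _).trans (add_le_add (hC x) (hD x))⟩
theorem BM.neg (hf : BM f) : BM (fun x => -f x) := by
  obtain ⟨hf, C, hC⟩ := hf
  exact ⟨hf.neg, C, fun x => by rw [norm_neg]; exact hC x⟩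
theorem BM.mul (hf : BM f) (hg : BM g) : BM (fun x => f x * g x) := by
  obtain ⟨hf, C, hC⟩ := hf
  obtain ⟨hg, D, hD⟩ := hg
  refine ⟨hf.mul hg, C * D, fun x => ?_⟩
  rw [norm_mul]
  exact mul_le_mul (hC x) (hD x) (norm_nonneg _) ((norm_nonneg _).trans (hC x))
theorem BM.pow (hf : BM f) (n : ℕ) : BM (fun x => f x ^ n) := by
  obtain ⟨hf, C, hC⟩ := hf
  refine ⟨hf.pow_const n, C ^ n, fun x => ?_⟩
  rw [norm_pow]
  exact pow_le_pow_left₀ (norm_nonneg _) (hC x) n
theorem BM.sum {ι : Type*} {s : Finset ι} {F : ι → α → 𝕜} (h : ∀ i ∈ s, BM (F i)) :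
    BM (fun x => ∑ i ∈ s, F i x) := by
  classical
  induction s using Finset.induction_on with
  | empty => simpa using BM.const (α := α) (0 : 𝕜)
  | insert a s ha ih =>
    simp only [Finset.sum_insert ha]
    exact (h a (Finset.mem_insert_self _ _)).add
      (ih fun i hi => h i (Finset.mem_insert_of_mem hi))
theorem BM.prod {ι : Type*} {s : Finset ι} {F : ι → α → 𝕜} (h : ∀ i ∈ s, BM (F i)) :
    BM (fun x => ∏ i ∈ s, F i x) := by
  classical
  induction s using Finset.induction_on with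
  | empty => simpa using BM.const (α := α) (1 : 𝕜)
  | insert a s ha ih =>
    simp only [Finset.prod_insert ha]
    exact (h a (Finset.mem_insert_self _ _)).mul
      (ih fun i hi => h i (Finset.mem_insert_of_mem hi))
theorem BM.norm (hf : BM f) : BM (fun x => ‖f x‖) := by
  obtain ⟨hf, C, hC⟩ := hf
  exact ⟨hf.norm, C, fun x => by rw [norm_norm]; exact hC x⟩
theorem BM.abs {u : α → ℝ} (hu : BM u) : BM (fun x => |u x|) := by
  exact hu.norm
theorem BM.ofReal {u : α → ℝ} (hu : BM u) : BM (fun x => (u x : ℂ)) := by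
  obtain ⟨hu, C, hC⟩ := hu
  exact ⟨Complex.measurable_ofReal.comp hu, C, fun x => by rw [Complex.norm_real]; exact hC x⟩
theorem BM.conj {u : α → ℂ} (hu : BM u) : BM (fun x => conj (u x)) := by
  obtain ⟨hu, C, hC⟩ := hu
  exact ⟨Complex.continuous_conj.measurable.comp hu, C,
    fun x => by rw [Complex.norm_conj]; exact hC x⟩
theorem BM.ip {u u' : α → ℂ} (hu : BM u) (hu' : BM u') : BM (fun x => ip (u x) (u' x)) := by
  obtain ⟨hm, C, hC⟩ := hu.conj.mul hu'
  exact ⟨Complex.measurable_re.comp hm, C, fun x => (Complex.abs_re_le_norm _).trans (hC x)⟩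
theorem BM.comp {β : Type*} [MeasurableSpace β] (hf : BM f) {T : β → α} (hT : Measurable T) :
    BM (fun y => f (T y)) := by
  obtain ⟨hf, C, hC⟩ := hf
  exact ⟨hf.comp hT, C, fun y => hC (T y)⟩
theorem BM.ite {p : α → Prop} [DecidablePred p] (hp : MeasurableSet {x | p x}) (hf : BM f)
    (hg : BM g) : BM (fun x => if p x then f x else g x) := by
  obtain ⟨hf, C, hC⟩ := hf
  obtain ⟨hg, D, hD⟩ := hg
  refine ⟨Measurable.ite hp hf hg, max C D, fun x => ?_⟩
  by_cases hx : p x
  · simp only [hx, if_true]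
    exact (hC x).trans (le_max_left _ _)
  · simp only [hx, if_false]
    exact (hD x).trans (le_max_right _ _)
theorem BM.integrable (hf : BM f) {μ : Measure α} [IsFiniteMeasure μ] : Integrable f μ := by
  obtain ⟨hf, C, hC⟩ := hf
  exact Integrable.of_bound hf.aestronglyMeasurable C (Eventually.of_forall hC)
theorem BM.of_cont {X : Type*} [TopologicalSpace X] [CompactSpace X] [MeasurableSpace X]
    [OpensMeasurableSpace X] {u : X → 𝕜} (hu : Continuous u) : BM u := by
  obtain ⟨C, hC⟩ := isCompact_univ.exists_bound_of_continuousOn hu.continuousOn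
  exact ⟨hu.measurable, C, fun x => hC x (Set.mem_univ x)⟩
/-- A parametric integral of a bounded measurable function is bounded measurable. -/
theorem BM.integral_right {β : Type*} [MeasurableSpace β] {μ : Measure β} [IsFiniteMeasure μ]
    {Φ : α → β → 𝕜} (h : BM (uncurry Φ)) : BM (fun x => ∫ y, Φ x y ∂μ) := by
  obtain ⟨hm, C, hC⟩ := h
  refine ⟨(hm.stronglyMeasurable.integral_prod_right (ν := μ)).measurable, C * μ.real Set.univ,
    fun x => ?_⟩
  exact norm_integral_le_of_norm_le_const (Eventually.of_forall fun y => hC (x, y))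
/-- Fubini. -/
theorem BM.swap {β : Type*} [MeasurableSpace β] {μ : Measure α} [IsFiniteMeasure μ]
    {ν : Measure β} [IsFiniteMeasure ν] {Φ : α → β → 𝕜} (h : BM (uncurry Φ)) :
    ∫ x, ∫ y, Φ x y ∂ν ∂μ = ∫ y, ∫ x, Φ x y ∂μ ∂ν := by
  exact integral_integral_swap h.integrable

end bm

end Pool.Agent.BoseTail
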