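import Pool.Agent.Lib.MP_dec75e_mp.Defs

/-! Internal definitions of the proof (no theorems). -/

open MeasureTheory Complex Finset
open scoped ComplexConjugate Real

noncomputable section

namespace Pool.Agent.BoseTail

section inst
variable {N : ℕ} {L : ℝ} [Fact (0 < L)]

instance borelT3 : BorelSpace (T3 L) := Pi.borelSpace
instance borelCf : BorelSpace (Cf N L) := Pi.borelSpace
instance haarT3 : (volume : Measure (T3 L)).IsAddHaarMeasure := by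
  rw [volume_pi]; infer_instance
instance negInvT3 : (volume : Measure (T3 L)).IsNegInvariant := inferInstance
instance rightInvCf : (volume : Measure (Cf N L)).IsAddRightInvariant := by
  rw [volume_pi]; infer_instance

end inst

/-- Real inner product of two complex numbers. -/
def ip (a b : ℂ) : ℝ := (conj a * b).re

/-- A continuous one-parameter group of shifts. -/
structure Dir {G : Type*} [Add G] [TopologicalSpace G] (e : ℝ → G) : Prop where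
  add : ∀ s t, e (s + t) = e s + e t
  cont : Continuous e

/-- Bounded measurable functions. -/
def BM {α F : Type*} [MeasurableSpace α] [NormedAddCommGroup F] [MeasurableSpace F]
    (φ : α → F) : Prop :=
  Measurable φ ∧ ∃ C : ℝ, ∀ x, ‖φ x‖ ≤ C

section one
variable {L : ℝ} {F : Type*} [NormedAddCommGroup F] [NormedSpace ℝ F]

/-- Indicator of the closed ball (a cube) of radius `s` around `0`. -/
def nb (s : ℝ) (z : T3 L) : ℝ := if ‖z‖ ≤ s then 1 else 0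

def C1T (u : T3 L → F) : Prop := ∀ c, D1 (d1 c) u

def C2T (u : T3 L → F) : Prop := ∀ c, D1 (d1 c) u ∧ D1 (d1 c) (dd (d1 c) u)

def lapT (u : T3 L → F) (z : T3 L) : F := ∑ c, dd (d1 c) (dd (d1 c) u) z

/-- `|∇u|²` on the one-body torus. -/
def gT (u : T3 L → F) (z : T3 L) : ℝ := ∑ c, ‖dd (d1 c) u z‖ ^ 2

/-- `ℓ¹` norm of the gradient on the one-body torus. -/
def g1T (u : T3 L → F) (z : T3 L) : ℝ := ∑ c, ‖dd (d1 c) u z‖

/-- A weight of total mass one, bounded by `Λ / s³`, living in the ball of radius `s`. -/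
structure Wt [Fact (0 < L)] (Λ s : ℝ) (U : T3 L → ℝ) : Prop where
  bm : BM U
  le : ∀ z, |U z| ≤ Λ / s ^ 3
  out : ∀ z, s < ‖z‖ → U z = 0
  int : ∫ z, U z = 1

/-- A bump: `1` on the ball of radius `s`, `0` outside the ball of radius `3 s`. -/
structure Bump (B s : ℝ) (b : T3 L → ℝ) : Prop where
  c1 : C1T b
  nonneg : ∀ z, 0 ≤ b z
  le : ∀ z, b z ≤ 1
  one : ∀ z, ‖z‖ ≤ s → b z = 1
  zero : ∀ z, 3 * s ≤ ‖z‖ → b z = 0
  grad : ∀ c z, |dd (d1 c) b z| ≤ B / s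

/-- A hole: `0` on the ball of radius `s`, `1` outside the ball of radius `3 s`. -/
structure Hole (B s : ℝ) (η : T3 L → ℝ) : Prop where
  c1 : C1T η
  nonneg : ∀ z, 0 ≤ η z
  le : ∀ z, η z ≤ 1
  zero : ∀ z, ‖z‖ ≤ s → η z = 0
  one : ∀ z, 3 * s ≤ ‖z‖ → η z = 1
  grad : ∀ c z, (dd (d1 c) η z) ^ 2 ≤ (B / s) ^ 2 * (1 - η z ^ 2)

/-- The smooth periodic substitute `(L/π)² sin²(π t / L)` of the squared distance to `0`. -/
def sig (L : ℝ) (t : AddCircle L) : ℝ := (L / π) ^ 2 * ((1 - (fourier 1 t).re) / 2)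

/-- Exponential weight at scale `r`. -/
def om (r : ℝ) (z : T3 L) : ℝ := ∏ c, Real.exp (-√(1 + sig L (z c) / r ^ 2))

/-- Approximate heat kernel at time `s`. -/
def th (s : ℝ) (z : T3 L) : ℝ := ∏ c, (√s)⁻¹ * Real.exp (-(sig L (z c) / s))

end one

/-- Constants describing the potential. -/
structure Par where
  R0 : ℝ
  V : ℝ
  a : ℝ
  Λ : ℝ
  hR0 : 1 ≤ R0
  hV : 0 < V
  ha : 0 < a
  hΛ : 1 ≤ Λ

/-- Upper bound for the integral of the potential. -/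
def Par.W (P : Par) : ℝ := 8 * P.V * P.R0 ^ 3

variable {N : ℕ} {L : ℝ} [Fact (0 < L)]

structure Wp (P : Par) (w : T3 L → ℝ) : Prop where
  cont : Continuous w
  nonneg : ∀ z, 0 ≤ w z
  le : ∀ z, w z ≤ P.V
  supp : ∀ z, P.R0 ≤ ‖z‖ → w z = 0
  even : ∀ z, w (-z) = w z

/-- Truncated scattering solution `J` at scale `R` with `Δ J = w J - a m`. -/
structure Sc (P : Par) (w : T3 L → ℝ) (R : ℝ) (J m : T3 L → ℝ) : Prop where
  J2 : C2T J
  J0 : ∀ z, 0 ≤ J z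
  J1 : ∀ z, J z ≤ 1
  Jout : ∀ z, 2 * R ≤ ‖z‖ → J z = 1
  mc : Continuous m
  mle : ∀ z, |m z| ≤ P.Λ / R ^ 3
  mout : ∀ z, 2 * R < ‖z‖ → m z = 0
  mJ : ∀ z, m z ≠ 0 → 1 - J z ≤ P.a / R
  mint : ∫ z, m z = 4 * π
  lap : ∀ z, lapT J z = w z * J z - P.a * m z

structure Pot (P : Par) (w : T3 L → ℝ) : Prop where
  wp : Wp P w
  scat : ∀ R, P.R0 ≤ R → 8 * R ≤ L → ∃ J m, Sc P w R J m

def nsq (φ : Cf N L → ℂ) : ℝ := ∫ x, ‖φ x‖ ^ 2

def rip (φ χ : Cf N L → ℂ) : ℝ := ∫ x, ip (φ x) (χ x)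

/-- Interaction inside the set `S` of particles. -/
def US (w : T3 L → ℝ) (S : Finset (Fin N)) (x : Cf N L) : ℝ :=
  (1 / 2) * ∑ i ∈ S, ∑ j ∈ S.erase i, w (x i - x j)

/-- Interaction of particle `i` with all others. -/
def Wi (w : T3 L → ℝ) (i : Fin N) (x : Cf N L) : ℝ := ∑ j ∈ univ.erase i, w (x i - x j)

/-- `|∇_i φ|²`. -/
def gP {F : Type*} [NormedAddCommGroup F] [NormedSpace ℝ F] (i : Fin N) (φ : Cf N L → F)
    (x : Cf N L) : ℝ :=
  ∑ c, ‖dd (dir i c) φ x‖ ^ 2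

/-- The kinetic bilinear form of particle `i`. -/
def rT (i : Fin N) (φ χ : Cf N L → ℂ) : ℝ :=
  (1 / 2) * ∑ c, ∫ x, ip (dd (dir i c) φ x) (dd (dir i c) χ x)

/-- Real bilinear energy form of the particles in `S`. -/
def rB (w : T3 L → ℝ) (S : Finset (Fin N)) (φ χ : Cf N L → ℂ) : ℝ :=
  (∑ i ∈ S, rT i φ χ) + ∫ x, US w S x * ip (φ x) (χ x)

/-- Energy of the particles in `S`. -/
def ES (w : T3 L → ℝ) (S : Finset (Fin N)) (φ : Cf N L → ℂ) : ℝ :=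
  (1 / 2) * (∑ i ∈ S, ∫ x, gP i φ x) + ∫ x, US w S x * ‖φ x‖ ^ 2

/-- Multiplication by a real function. -/
def mul (F : Cf N L → ℝ) (φ : Cf N L → ℂ) (x : Cf N L) : ℂ := (F x : ℂ) * φ x

structure GS (w : T3 L → ℝ) (ψ : Cf N L → ℂ) : Prop where
  c1 : IsC1 ψ
  nrm : nsq ψ = 1
  sym : ∀ (σ : Equiv.Perm (Fin N)) (x : Cf N L), ψ (x ∘ σ) = ψ x
  min : ∀ φ : Cf N L → ℂ, IsC1 φ → ES w univ ψ * nsq φ ≤ ES w univ φ

structure Setup (P : Par) (w : T3 L → ℝ) (ψ : Cf N L → ℂ) : Prop where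
  pot : Pot P w
  gs : GS w ψ
  hL : L ≤ N

/-- The density. -/
def rho (N : ℕ) (L : ℝ) : ℝ := N / L ^ 3

/-- The lower bound of the energy of the particles in `S` (ground state energy minus a crude
chemical potential for every removed particle). -/
def lam (P : Par) (w : T3 L → ℝ) (ψ : Cf N L → ℂ) (S : Finset (Fin N)) : ℝ :=
  ES w univ ψ - (Sᶜ.card : ℝ) * (rho N L * P.W)

/-- The nonnegative form of the particles in `S`, bilinear version. -/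
def rQ (P : Par) (w : T3 L → ℝ) (ψ : Cf N L → ℂ) (S : Finset (Fin N)) (φ χ : Cf N L → ℂ) : ℝ :=
  rB w S φ χ - lam P w ψ S * rip φ χ

/-- The nonnegative form of the particles in `S`. -/
def QS (P : Par) (w : T3 L → ℝ) (ψ : Cf N L → ℂ) (S : Finset (Fin N)) (φ : Cf N L → ℂ) : ℝ :=
  ES w S φ - lam P w ψ S * nsq φ

/-- Weighted number of particles near `y`. -/
def nom (r : ℝ) (y : T3 L) (x : Cf N L) : ℝ := ∑ i, om r (x i - y)

def D2 (ψ : Cf N L → ℂ) (o : Fin N) (s : ℝ) : ℝ :=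
  ∑ j ∈ univ.erase o, ∫ x, nb s (x o - x j) * ‖ψ x‖ ^ 2

def D3 (ψ : Cf N L → ℂ) (o : Fin N) (s₁ s₂ : ℝ) : ℝ :=
  ∑ j ∈ univ.erase o, ∑ l ∈ (univ.erase o).erase j,
    ∫ x, nb s₁ (x o - x j) * nb s₂ (x l - x j) * ‖ψ x‖ ^ 2

def K2 (ψ : Cf N L → ℂ) (o : Fin N) (s : ℝ) : ℝ :=
  ∑ j ∈ univ.erase o, ∫ x, nb s (x o - x j) * gP o ψ x

/-- Average of `φ` in the variable `x_o` around the position of particle `j`. -/
def amp (o j : Fin N) (U : T3 L → ℝ) (φ : Cf N L → ℂ) (x : Cf N L) : ℂ :=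
  ∫ z, (U z : ℂ) * φ (Function.update x o (x j + z))

/-- Convolution in the variable `x_o`. -/
def cvl (o : Fin N) (κ : T3 L → ℂ) (φ : Cf N L → ℂ) (x : Cf N L) : ℂ :=
  ∫ z, κ z * φ (Function.update x o (x o - z))

/-- Squared norm of a family of functions that do not depend on `x_o`. -/
def S2 (o : Fin N) (A : Fin N → Cf N L → ℂ) : ℝ :=
  (L ^ 3)⁻¹ * ∑ j ∈ univ.erase o, ∫ x, ‖A j x‖ ^ 2

/-- The normalised square of a bump. -/
def Ub (b : T3 L → ℝ) (z : T3 L) : ℝ := b z ^ 2 / ∫ y, b y ^ 2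

/-- Product of holes: all particles other than `o, j` are far from `x_o`. -/
def hol (o j : Fin N) (η : T3 L → ℝ) (x : Cf N L) : ℝ :=
  ∏ l ∈ (univ.erase o).erase j, η (x l - x o)

/-- The cut-off `G_j`. -/
def cut (o j : Fin N) (θ η : T3 L → ℝ) (x : Cf N L) : ℝ := θ (x o - x j) * hol o j η x

/-- The localised amplitude `Ψ̃_j`. -/
def psit (o j : Fin N) (θ η b : T3 L → ℝ) (ψ : Cf N L → ℂ) : Cf N L → ℂ :=
  mul (cut o j θ η) (amp o j (Ub b) ψ)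

/-- `∑_j κ(x_o - x_j) A_j(x)`. -/
def ksum (o : Fin N) (κ : T3 L → ℂ) (A : Fin N → Cf N L → ℂ) (x : Cf N L) : ℂ :=
  ∑ j ∈ univ.erase o, κ (x o - x j) * A j x

/-- The cut-offs used in the main step, at scale `1/δ`. -/
structure Cuts (B δ : ℝ) (θ η η' b : T3 L → ℝ) : Prop where
  hθ : Bump B (2 / δ) θ
  hη : Hole B (8 / δ) η
  hη' : Hole B (2 / δ) η'
  hb : Bump B (1 / δ) b

/-- A window: twice differentiable, of size `H δ³`, living in the ball of radius `1/δ`. -/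
structure Win (H δ : ℝ) (κ : T3 L → ℂ) : Prop where
  c2 : C2T κ
  out : ∀ z, 1 / δ < ‖z‖ → κ z = 0
  le : ∀ z, ‖κ z‖ ≤ H * δ ^ 3

/-- A window oscillating with momentum `k₀`, `|k₀| = k`. -/
structure Ker (H δ k : ℝ) (k₀ : Fin 3 → ℝ) (κ : T3 L → ℂ) : Prop where
  win : Win H δ κ
  hk : ∑ c, k₀ c ^ 2 = k ^ 2
  c3 : C1T (lapT κ)
  le1 : ∀ c z, ‖dd (d1 c) κ z‖ ≤ H * δ ^ 3 * k
  le2 : ∀ z, ‖lapT κ z‖ ≤ H * δ ^ 3 * k ^ 2
  le3 : ∀ c z, ‖dd (d1 c) (lapT κ) z‖ ≤ H * δ ^ 3 * k ^ 3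
  osc : ∀ c, ∃ κc : T3 L → ℂ, Win H δ κc ∧
    (∀ z, dd (d1 c) κ z - I * k₀ c * κ z = δ * κc z) ∧
    (∀ z, dd (d1 c) (lapT κ) z - I * k₀ c * lapT κ z = δ * lapT κc z)

end Pool.Agent.BoseTail
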