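import Pool.Agent.Lib.MP_dec75e_mp.Meas

/-! The function `sig`, bumps and holes. -/

open MeasureTheory Complex Finset Filter Function
open scoped ComplexConjugate Real Topology

noncomputable section

namespace Pool.Agent.BoseTail

variable {L : ℝ} [Fact (0 < L)]

/-- Derivative of `sig`: `(L/π) sin (2 π t / L)`. -/
def sig1 (L : ℝ) (t : AddCircle L) : ℝ := (L / π) * (fourier 1 t).im

/-- Second derivative of `sig`: `2 cos (2 π t / L)`. -/
def sig2 (L : ℝ) (t : AddCircle L) : ℝ := 2 * (fourier 1 t).re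

theorem continuous_sig : Continuous (sig L) := by
  have h : Continuous fun t : AddCircle L => (fourier 1 t).re :=
    Complex.continuous_re.comp (fourier 1).continuous
  exact continuous_const.mul ((continuous_const.sub h).div_const 2)

theorem continuous_sig1 : Continuous (sig1 L) :=
  continuous_const.mul (Complex.continuous_im.comp (fourier 1).continuous)

theorem continuous_sig2 : Continuous (sig2 L) :=
  continuous_const.mul (Complex.continuous_re.comp (fourier 1).continuous)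

omit [Fact (0 < L)] in
theorem hd_fourier_bump (t : AddCircle L) :
    HasDerivAt (fun s : ℝ => fourier 1 (t + (s : AddCircle L)))
      (((2 * π / L : ℝ) : ℂ) * (I * fourier 1 t)) 0 := by
  induction t using QuotientAddGroup.induction_on with
  | H x =>
    have h1 := hasDerivAt_fourier L 1 (x + 0)
    have h2 := h1.comp_const_add x 0
    simp only [AddCircle.coe_add, add_zero] at h2
    refine HasDerivAt.congr_deriv h2 ?_
    push_cast
    ring

theorem hd_sig (t : AddCircle L) :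
    HasDerivAt (fun s : ℝ => sig L (t + (s : AddCircle L))) (sig1 L t) 0 := by
  have hL : L ≠ 0 := Lpos.ne'
  have h1 := Complex.reCLM.hasFDerivAt.comp_hasDerivAt 0 (hd_fourier_bump t)
  have h2 := ((h1.const_sub 1).div_const 2).const_mul ((L / π) ^ 2)
  refine HasDerivAt.congr_deriv h2 ?_
  rw [sig1, Complex.reCLM_apply, Complex.re_ofReal_mul, Complex.I_mul_re]
  field_simp

theorem hd_sig1 (t : AddCircle L) :
    HasDerivAt (fun s : ℝ => sig1 L (t + (s : AddCircle L))) (sig2 L t) 0 := by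
  have hL : L ≠ 0 := Lpos.ne'
  have h1 := Complex.imCLM.hasFDerivAt.comp_hasDerivAt 0 (hd_fourier_bump t)
  have h2 := h1.const_mul (L / π)
  refine HasDerivAt.congr_deriv h2 ?_
  rw [sig2, Complex.imCLM_apply, Complex.im_ofReal_mul, Complex.I_mul_im]
  field_simp

omit [Fact (0 < L)] in
theorem fourier_sq_bump (t : AddCircle L) : (fourier 1 t).re ^ 2 + (fourier 1 t).im ^ 2 = 1 := by
  have h : ‖fourier 1 t‖ = 1 := Circle.norm_coe _
  have h2 := Complex.sq_norm (fourier 1 t)
  rw [h, Complex.normSq_apply] at h2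
  linarith

theorem exists_rep_bump (t : AddCircle L) :
    ∃ x : ℝ, (x : AddCircle L) = t ∧ |x| = ‖t‖ ∧ |x| ≤ L / 2 := by
  have hL : 0 < L := Lpos
  have h2 := AddCircle.norm_le_half_period L (x := t) hL.ne'
  rw [abs_of_pos hL] at h2
  induction t using QuotientAddGroup.induction_on with
  | H y =>
    have h1 : |y - round (L⁻¹ * y) * L| = ‖(y : AddCircle L)‖ := (AddCircle.norm_eq L).symm
    refine ⟨y - round (L⁻¹ * y) * L, ?_, h1, h1 ▸ h2⟩
    rw [AddCircle.coe_sub, ← zsmul_eq_mul, AddCircle.coe_zsmul, AddCircle.coe_period, smul_zero,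
      sub_zero]

omit [Fact (0 < L)] in
theorem sig_coe_bump (x : ℝ) :
    sig L (x : AddCircle L) = (L / π) ^ 2 * Real.sin (π * x / L) ^ 2 := by
  have h : (2 * π * I * (1 : ℤ) * x / L : ℂ) = ((2 * (π * x / L) : ℝ) : ℂ) * I := by
    push_cast
    ring
  rw [sig, fourier_coe_apply, h, Complex.exp_ofReal_mul_I_re, Real.cos_two_mul, Real.sin_sq]
  ring

theorem sig_nonneg (t : AddCircle L) : 0 ≤ sig L t := by
  obtain ⟨x, rfl, -, -⟩ := exists_rep_bump t
  rw [sig_coe_bump]
  positivity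

theorem sig_le (t : AddCircle L) : sig L t ≤ ‖t‖ ^ 2 := by
  have hL : L ≠ 0 := Lpos.ne'
  obtain ⟨x, rfl, h1, -⟩ := exists_rep_bump t
  rw [sig_coe_bump, ← h1, sq_abs]
  calc (L / π) ^ 2 * Real.sin (π * x / L) ^ 2 ≤ (L / π) ^ 2 * (π * x / L) ^ 2 :=
        mul_le_mul_of_nonneg_left Real.sin_sq_le_sq (by positivity)
    _ = x ^ 2 := by field_simp

theorem le_sig (t : AddCircle L) : 2 / 5 * ‖t‖ ^ 2 ≤ sig L t := by
  have hL : 0 < L := Lpos
  have hπ := Real.pi_pos
  obtain ⟨x, rfl, h1, h2⟩ := exists_rep_bump t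
  rw [sig_coe_bump, ← h1]
  have h3 : |π * x / L| = π * |x| / L := by
    rw [abs_div, abs_mul, abs_of_pos hπ, abs_of_pos hL]
  have h4 : |π * x / L| ≤ π / 2 := by
    rw [h3, div_le_iff₀ hL]
    nlinarith
  have h5 := Real.mul_abs_le_abs_sin h4
  have h6 : (2 / π * |π * x / L|) ^ 2 ≤ Real.sin (π * x / L) ^ 2 := by
    rw [← sq_abs (Real.sin _)]
    exact pow_le_pow_left₀ (by positivity) h5 2
  have h7 : π ^ 2 ≤ 10 := by
    have := Real.pi_lt_d2
    nlinarith
  calc 2 / 5 * |x| ^ 2 = 4 / 10 * |x| ^ 2 := by ring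
    _ ≤ 4 / π ^ 2 * |x| ^ 2 := by gcongr
    _ = (L / π) ^ 2 * (2 / π * |π * x / L|) ^ 2 := by
      rw [h3]
      field_simp
      ring
    _ ≤ _ := mul_le_mul_of_nonneg_left h6 (by positivity)

theorem sig1_sq (t : AddCircle L) :
    sig1 L t ^ 2 = 4 * sig L t * (1 - (π / L) ^ 2 * sig L t) := by
  have hL : L ≠ 0 := Lpos.ne'
  have h := fourier_sq_bump t
  have h2 : (fourier 1 t).im ^ 2 = 1 - (fourier 1 t).re ^ 2 := by linarith
  rw [sig1, sig, mul_pow, h2]
  field_simp
  ring

theorem sig1_sq_le (t : AddCircle L) : sig1 L t ^ 2 ≤ 4 * sig L t := by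
  rw [sig1_sq]
  have h := sig_nonneg t
  have h2 : 0 ≤ (π / L) ^ 2 * sig L t := by positivity
  nlinarith [mul_nonneg h h2]

theorem sig2_eq (t : AddCircle L) : sig2 L t = 2 - 4 * (π / L) ^ 2 * sig L t := by
  have hL : L ≠ 0 := Lpos.ne'
  rw [sig2, sig]
  field_simp
  ring

omit [Fact (0 < L)] in
/-- Derivative of a product of one-dimensional factors. -/
theorem hd_tensor {g g' : Fin 3 → AddCircle L → ℝ}
    (h : ∀ c t, HasDerivAt (fun s : ℝ => g c (t + (s : AddCircle L))) (g' c t) 0) (c : Fin 3)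
    (z : T3 L) :
    HasDerivAt (fun s : ℝ => ∏ c', g c' ((z + d1 c s : T3 L) c'))
      (g' c (z c) * ∏ c' ∈ univ.erase c, g c' (z c')) 0 := by
  have e : (fun s : ℝ => ∏ c', g c' ((z + d1 c s : T3 L) c')) =
      fun s : ℝ => g c (z c + (s : AddCircle L)) * ∏ c' ∈ univ.erase c, g c' (z c') := by
    funext s
    rw [← Finset.mul_prod_erase univ _ (mem_univ c)]
    congr 1
    · simp [d1]
    · refine Finset.prod_congr rfl fun c' hc' => ?_
      simp [d1, Pi.single_eq_of_ne (Finset.ne_of_mem_erase hc')]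
  rw [e]
  exact (h c (z c)).mul_const _

end Pool.Agent.BoseTail

namespace Pool.Agent.BoseTail

/-- The one-dimensional profile. -/
def prof_bump (u : ℝ) : ℝ := Real.smoothTransition ((18 / 5 - u) / (13 / 5))

theorem prof_contDiff_bump : ContDiff ℝ 1 prof_bump :=
  Real.smoothTransition.contDiff.comp ((contDiff_const.sub contDiff_id).div_const _)

theorem prof_one_bump {u : ℝ} (h : u ≤ 1) : prof_bump u = 1 :=
  Real.smoothTransition.one_of_one_le (by rw [le_div_iff₀ (by norm_num)]; linarith)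

theorem prof_zero_bump {u : ℝ} (h : 18 / 5 ≤ u) : prof_bump u = 0 :=
  Real.smoothTransition.zero_of_nonpos (div_nonpos_of_nonpos_of_nonneg (by linarith) (by norm_num))

theorem prof_hd_bump (u : ℝ) : HasDerivAt prof_bump (deriv prof_bump u) u :=
  (prof_contDiff_bump.differentiable one_ne_zero u).hasDerivAt

theorem prof_cderiv_bump : Continuous (deriv prof_bump) :=
  prof_contDiff_bump.continuous_deriv le_rfl

theorem prof_deriv_zero_bump {u : ℝ} (h : 4 < u) : deriv prof_bump u = 0 := by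
  have h1 : prof_bump =ᶠ[𝓝 u] fun _ => 0 := by
    filter_upwards [Ioi_mem_nhds h] with v hv
    exact prof_zero_bump (by have : (4 : ℝ) < v := hv; linarith)
  rw [h1.deriv_eq, deriv_const]

theorem exists_bump_bump : ∃ M : ℝ, 0 ≤ M ∧ ∀ (L : ℝ) [Fact (0 < L)] (s : ℝ), 0 < s →
    ∃ b : T3 L → ℝ, Bump M s b := by
  obtain ⟨M, hM⟩ := (isCompact_Icc (a := (0 : ℝ)) (b := 4)).exists_bound_of_continuousOn
    prof_cderiv_bump.continuousOn
  have hM0 : 0 ≤ M := (norm_nonneg _).trans (hM 0 ⟨le_rfl, by norm_num⟩)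
  refine ⟨4 * M, by positivity, fun L _ s hs => ?_⟩
  let g : AddCircle L → ℝ := fun t => prof_bump (sig L t / s ^ 2)
  let g' : AddCircle L → ℝ := fun t => deriv prof_bump (sig L t / s ^ 2) * (sig1 L t / s ^ 2)
  have hgc : Continuous g := prof_contDiff_bump.continuous.comp (continuous_sig.div_const _)
  have hgc' : Continuous g' :=
    (prof_cderiv_bump.comp (continuous_sig.div_const _)).mul (continuous_sig1.div_const _)
  have hg : ∀ t, HasDerivAt (fun r : ℝ => g (t + (r : AddCircle L))) (g' t) 0 := by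
    intro t
    have h1 := (hd_sig t).div_const (s ^ 2)
    have h0 : HasDerivAt prof_bump (deriv prof_bump (sig L t / s ^ 2))
        (sig L (t + ((0 : ℝ) : AddCircle L)) / s ^ 2) := by
      simpa using prof_hd_bump (sig L t / s ^ 2)
    exact HasDerivAt.comp (h₂ := prof_bump)
      (h := fun r : ℝ => sig L (t + (r : AddCircle L)) / s ^ 2) 0 h0 h1
  have hg0 : ∀ t, 0 ≤ g t := fun t => Real.smoothTransition.nonneg _
  have hg1 : ∀ t, g t ≤ 1 := fun t => Real.smoothTransition.le_one _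
  have hg' : ∀ t, |g' t| ≤ 4 * M / s := by
    intro t
    rcases le_or_gt (sig L t / s ^ 2) 4 with h4 | h4
    · have h1 : |deriv prof_bump (sig L t / s ^ 2)| ≤ M :=
        hM _ ⟨div_nonneg (sig_nonneg t) (by positivity), h4⟩
      have h2 : |sig1 L t| ≤ 4 * s := by
        rw [div_le_iff₀ (by positivity)] at h4
        refine abs_le_of_sq_le_sq' ?_ (by positivity) |> abs_le.mpr
        nlinarith [sig1_sq_le t]
      calc |g' t| = |deriv prof_bump (sig L t / s ^ 2)| * (|sig1 L t| / s ^ 2) := by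
            simp only [g', abs_mul, abs_div, abs_pow, abs_of_pos hs]
        _ ≤ M * (4 * s / s ^ 2) := by gcongr
        _ = 4 * M / s := by field_simp
    · simp only [g', prof_deriv_zero_bump h4, zero_mul, abs_zero]
      positivity
  have hb : ∀ (c : Fin 3) (z : T3 L),
      HasDerivAt (fun r : ℝ => ∏ c', g ((z + d1 c r : T3 L) c'))
        (g' (z c) * ∏ c' ∈ univ.erase c, g (z c')) 0 :=
    fun c z => hd_tensor (g := fun _ => g) (g' := fun _ => g') (fun _ => hg) c z
  refine ⟨fun z => ∏ c, g (z c), fun c => ?_, fun z => Finset.prod_nonneg fun c _ => hg0 _,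
    fun z => Finset.prod_le_one (fun c _ => hg0 _) fun c _ => hg1 _, fun z hz => ?_,
    fun z hz => ?_, fun c z => ?_⟩
  · exact D1.of_hd (continuous_finsetProd _ fun c' _ => hgc.comp (continuous_apply c'))
      ((hgc'.comp (continuous_apply c)).mul
        (continuous_finsetProd _ fun c' _ => hgc.comp (continuous_apply c'))) (hb c)
  · refine Finset.prod_eq_one fun c _ => prof_one_bump ?_
    rw [div_le_one (by positivity)]
    exact (sig_le _).trans (pow_le_pow_left₀ (norm_nonneg _) ((norm_le_pi_norm z c).trans hz) 2)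
  · obtain ⟨c, hc⟩ : ∃ c, 3 * s ≤ ‖z c‖ := by
      by_contra hne
      push Not at hne
      exact absurd ((pi_norm_lt_iff (by positivity)).mpr hne) (not_lt.mpr hz)
    refine Finset.prod_eq_zero (mem_univ c) (prof_zero_bump ?_)
    rw [le_div_iff₀ (by positivity)]
    have h1 := le_sig (z c)
    have h2 : (3 * s) ^ 2 ≤ ‖z c‖ ^ 2 := pow_le_pow_left₀ (by positivity) hc 2
    nlinarith
  · rw [dd_eq (φ := fun z : T3 L => ∏ c, g (z c)) (hb c z), abs_mul,
      abs_of_nonneg (Finset.prod_nonneg fun c _ => hg0 _)]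
    exact (mul_le_of_le_one_right (abs_nonneg _)
      (Finset.prod_le_one (fun c _ => hg0 _) fun c _ => hg1 _)).trans (hg' _)

theorem Bump.mono_bump {L B B' s : ℝ} {b : T3 L → ℝ} (h : Bump B s b) (hs : 0 < s)
    (hB : B ≤ B') : Bump B' s b :=
  ⟨h.c1, h.nonneg, h.le, h.one, h.zero, fun c z => (h.grad c z).trans (by gcongr)⟩

theorem Bump.hole_bump {L B s : ℝ} {b : T3 L → ℝ} (h : Bump B s b) :
    Hole (2 * B) s (fun z => Real.cos (π / 2 * b z)) := by
  have hπ := Real.pi_pos
  have hc : ∀ u : ℝ, HasDerivAt (fun u : ℝ => Real.cos (π / 2 * u))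
      (-Real.sin (π / 2 * u) * (π / 2)) u := fun u => by
    simpa using ((hasDerivAt_id u).const_mul (π / 2)).cos
  refine ⟨fun c => ?_, fun z => ?_, fun z => Real.cos_le_one _, fun z hz => ?_, fun z hz => ?_,
    fun c z => ?_⟩
  · refine D1.comp (g := fun u : ℝ => Real.cos (π / 2 * u))
      (g' := fun u => -Real.sin (π / 2 * u) * (π / 2)) (dir_d1 c) (h.c1 c) (fun x => hc _) ?_
    have := h.c1.cont
    fun_prop
  · refine Real.cos_nonneg_of_neg_pi_div_two_le_of_le ?_ ?_
    · have := h.nonneg z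
      have : 0 ≤ π / 2 * b z := by positivity
      linarith
    · have := h.le z
      nlinarith
  · simp [h.one z hz]
  · simp [h.zero z hz]
  · rw [dd_comp (g := fun u : ℝ => Real.cos (π / 2 * u))
      (g' := fun u => -Real.sin (π / 2 * u) * (π / 2)) (dir_d1 c) (h.c1 c) (fun x => hc _),
      ← Real.sin_sq]
    have h1 : dd (d1 c) b z ^ 2 ≤ (B / s) ^ 2 := by
      rw [← sq_abs]
      exact pow_le_pow_left₀ (abs_nonneg _) (h.grad c z) 2
    have h2 : (π / 2) ^ 2 ≤ 4 := by
      have := Real.pi_lt_four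
      nlinarith
    calc (-Real.sin (π / 2 * b z) * (π / 2) * dd (d1 c) b z) ^ 2
        = ((π / 2) ^ 2 * dd (d1 c) b z ^ 2) * Real.sin (π / 2 * b z) ^ 2 := by ring
      _ ≤ (4 * (B / s) ^ 2) * Real.sin (π / 2 * b z) ^ 2 := by gcongr
      _ = _ := by ring

/-- Bumps and holes exist at every scale, with an absolute constant. -/
theorem exists_bump : ∃ B : ℝ, 1 ≤ B ∧ ∀ (L : ℝ) [Fact (0 < L)] (s : ℝ), 0 < s →
    (∃ b : T3 L → ℝ, Bump B s b) ∧ ∃ η : T3 L → ℝ, Hole B s η := by
  obtain ⟨M, hM, h⟩ := exists_bump_bump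
  refine ⟨2 * (M + 1), by linarith, fun L _ s hs => ?_⟩
  obtain ⟨b, hb⟩ := h L s hs
  exact ⟨⟨b, hb.mono_bump hs (by linarith)⟩,
    _, (hb.mono_bump (B' := M + 1) hs (by linarith)).hole_bump⟩

variable {L : ℝ} [Fact (0 < L)]

theorem Bump.le_nb {B s : ℝ} {b : T3 L → ℝ} (h : Bump B s b) (z : T3 L) :
    b z ≤ nb (3 * s) z := by
  unfold nb
  split_ifs with hz
  · exact h.le z
  · exact (h.zero z (not_le.mp hz).le).le

theorem Bump.nb_le {B s : ℝ} {b : T3 L → ℝ} (h : Bump B s b) (z : T3 L) : nb s z ≤ b z := by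
  unfold nb
  split_ifs with hz
  · exact (h.one z hz).ge
  · exact h.nonneg z

theorem Bump.grad_le_nb {B s : ℝ} {b : T3 L → ℝ} (h : Bump B s b) (c : Fin 3) (z : T3 L) :
    |dd (d1 c) b z| ≤ B / s * nb (3 * s) z := by
  unfold nb
  split_ifs with hz
  · rw [mul_one]
    exact h.grad c z
  · rw [dd_d1_eq_zero_of_out (fun y hy => h.zero y hy.le) c (not_le.mp hz), abs_zero, mul_zero]

theorem Bump.integral_sq {B s : ℝ} {b : T3 L → ℝ} (h : Bump B s b) (hs : 0 < s)
    (hL : 2 * s ≤ L) : (2 * s) ^ 3 ≤ ∫ z, b z ^ 2 := by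
  rw [← integral_nb hs.le hL]
  refine integral_mono (BM_nb s).integrable (cont_integrable (h.c1.cont.pow 2)) fun z => ?_
  unfold nb
  split_ifs with hz
  · simp [h.one z hz]
  · positivity

/-- The normalised square of a bump is a nonnegative weight. -/
theorem Bump.wt {B s : ℝ} {b : T3 L → ℝ} (h : Bump B s b) (hs : 0 < s) (hL : 2 * s ≤ L) :
    Wt 4 (3 * s) (Ub b) ∧ (∀ z, 0 ≤ Ub b z) ∧ Continuous (Ub b) := by
  have h1 := h.integral_sq hs hL
  have h2 : 0 < ∫ z, b z ^ 2 := lt_of_lt_of_le (by positivity) h1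
  have hc : Continuous (Ub b) := (h.c1.cont.pow 2).div_const _
  have h0 : ∀ z, 0 ≤ Ub b z := fun z => div_nonneg (sq_nonneg _) h2.le
  refine ⟨⟨BM.of_cont hc, fun z => ?_, fun z hz => ?_, ?_⟩, h0, hc⟩
  · rw [abs_of_nonneg (h0 z)]
    have h3 : b z ^ 2 ≤ 1 := pow_le_one₀ (h.nonneg z) (h.le z)
    calc Ub b z ≤ 1 / (2 * s) ^ 3 := by
          unfold Ub
          gcongr
      _ ≤ 4 / (3 * s) ^ 3 := by
          rw [div_le_div_iff₀ (by positivity) (by positivity)]
          have : 0 < s ^ 3 := by positivity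
          nlinarith
  · simp [Ub, h.zero z hz.le]
  · unfold Ub
    rw [integral_div, div_self h2.ne']

end Pool.Agent.BoseTail
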