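import Pool.Agent.Lib.MP_dec75e_mp.Base

/-! Calculus along one-parameter groups of shifts. -/

open MeasureTheory Complex Finset Filter
open scoped ComplexConjugate Real Topology

noncomputable section

namespace Pool.Agent.BoseTail

section basic
variable {G : Type*} [NormedAddCommGroup G] {F : Type*} [NormedAddCommGroup F] [NormedSpace ℝ F]
  {e e' : ℝ → G} {φ χ φ' : G → F}

theorem Dir.zero (he : Dir e) : e 0 = 0 := by
  have := he.add 0 0
  simpa using this

theorem Dir.add' (he : Dir e) (he' : Dir e') : Dir (fun s => e s + e' s) :=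
  ⟨fun s t => by simp only [he.add, he'.add]; abel, he.cont.add he'.cont⟩

theorem D1.hd (h : D1 e φ) (x : G) : HasDerivAt (fun s : ℝ => φ (x + e s)) (dd e φ x) 0 :=
  (h.diff x).hasDerivAt

theorem dd_eq {x : G} {d : F} (h : HasDerivAt (fun s : ℝ => φ (x + e s)) d 0) : dd e φ x = d :=
  h.deriv

theorem D1.of_hd (hφ : Continuous φ) (hφ' : Continuous φ')
    (h : ∀ x, HasDerivAt (fun s : ℝ => φ (x + e s)) (φ' x) 0) : D1 e φ := by
  refine ⟨hφ, fun x => (h x).differentiableAt, ?_⟩
  have : dd e φ = φ' := funext fun x => dd_eq (h x)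
  rw [this]; exact hφ'

theorem D1.hasDerivAt (he : Dir e) (h : D1 e φ) (x : G) (s : ℝ) :
    HasDerivAt (fun t : ℝ => φ (x + e t)) (dd e φ (x + e s)) s := by
  have h1 := h.hd (x + e s)
  have h2 : HasDerivAt (fun t : ℝ => t - s) 1 s := (hasDerivAt_id s).sub_const s
  have h1' : HasDerivAt (fun t : ℝ => φ (x + e s + e t)) (dd e φ (x + e s)) (s - s) := by
    simpa using h1
  have h3 := HasDerivAt.scomp (h := fun t : ℝ => t - s) s h1' h2
  have : ((fun t : ℝ => φ (x + e s + e t)) ∘ fun t : ℝ => t - s) = fun t => φ (x + e t) := by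
    funext t
    simp only [Function.comp]
    rw [add_assoc, ← he.add]; congr 3; ring
  rw [this] at h3
  simpa using h3

theorem dd_const (c : F) (x : G) : dd e (fun _ => c) x = 0 := by simp [dd]

theorem D1.const (c : F) : D1 e (fun _ : G => c) :=
  D1.of_hd (φ' := fun _ => 0) continuous_const continuous_const fun _ => hasDerivAt_const _ _

theorem dd_add (h₁ : D1 e φ) (h₂ : D1 e χ) (x : G) :
    dd e (fun y => φ y + χ y) x = dd e φ x + dd e χ x :=
  dd_eq ((h₁.hd x).add (h₂.hd x))

theorem D1.add (h₁ : D1 e φ) (h₂ : D1 e χ) : D1 e (fun y => φ y + χ y) :=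
  D1.of_hd (h₁.cont.add h₂.cont) (h₁.cdd.add h₂.cdd) fun x => (h₁.hd x).add (h₂.hd x)

theorem dd_neg (h₁ : D1 e φ) (x : G) : dd e (fun y => -φ y) x = -dd e φ x :=
  dd_eq (h₁.hd x).neg

theorem D1.neg (h₁ : D1 e φ) : D1 e (fun y => -φ y) :=
  D1.of_hd h₁.cont.neg h₁.cdd.neg fun x => (h₁.hd x).neg

theorem dd_sub (h₁ : D1 e φ) (h₂ : D1 e χ) (x : G) :
    dd e (fun y => φ y - χ y) x = dd e φ x - dd e χ x :=
  dd_eq ((h₁.hd x).sub (h₂.hd x))

theorem D1.sub (h₁ : D1 e φ) (h₂ : D1 e χ) : D1 e (fun y => φ y - χ y) :=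
  D1.of_hd (h₁.cont.sub h₂.cont) (h₁.cdd.sub h₂.cdd) fun x => (h₁.hd x).sub (h₂.hd x)

theorem dd_sum {ι : Type*} {s : Finset ι} {f : ι → G → F} (h : ∀ i ∈ s, D1 e (f i)) (x : G) :
    dd e (fun y => ∑ i ∈ s, f i y) x = ∑ i ∈ s, dd e (f i) x :=
  dd_eq (HasDerivAt.fun_sum fun i hi => (h i hi).hd x)

theorem D1.sum {ι : Type*} {s : Finset ι} {f : ι → G → F} (h : ∀ i ∈ s, D1 e (f i)) :
    D1 e (fun y => ∑ i ∈ s, f i y) :=
  D1.of_hd (φ' := fun x => ∑ i ∈ s, dd e (f i) x)
    (continuous_finsetSum _ fun i hi => (h i hi).cont)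
    (continuous_finsetSum _ fun i hi => (h i hi).cdd)
    fun x => HasDerivAt.fun_sum fun i hi => (h i hi).hd x

/-- A function that is invariant under the shifts has derivative zero. -/
theorem dd_of_indep (h : ∀ x s, φ (x + e s) = φ x) (x : G) : dd e φ x = 0 := by
  simp [dd, h]

theorem D1.of_indep (hφ : Continuous φ) (h : ∀ x s, φ (x + e s) = φ x) : D1 e φ :=
  D1.of_hd (φ' := fun _ => 0) hφ continuous_const fun x => by
    simp only [h]; exact hasDerivAt_const _ _

/-- The derivative only depends on the germ. -/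
theorem dd_congr_nhds (he : Dir e) {x : G} (h : φ =ᶠ[𝓝 x] χ) : dd e φ x = dd e χ x := by
  have ht : Tendsto (fun s : ℝ => x + e s) (𝓝 0) (𝓝 x) := by
    have : Continuous (fun s : ℝ => x + e s) := continuous_const.add he.cont
    simpa [he.zero] using this.tendsto 0
  exact Filter.EventuallyEq.deriv_eq (ht.eventually h)

theorem dd_of_eventually_const (he : Dir e) {x : G} {c : F} (h : ∀ᶠ y in 𝓝 x, φ y = c) :
    dd e φ x = 0 := by
  rw [dd_congr_nhds (χ := fun _ => c) he h, dd_const]

theorem dd_clm {F' : Type*} [NormedAddCommGroup F'] [NormedSpace ℝ F'] (A : F →L[ℝ] F')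
    (h : D1 e φ) (x : G) : dd e (fun y => A (φ y)) x = A (dd e φ x) :=
  dd_eq (A.hasFDerivAt.comp_hasDerivAt 0 (h.hd x))

theorem D1.clm {F' : Type*} [NormedAddCommGroup F'] [NormedSpace ℝ F'] (A : F →L[ℝ] F')
    (h : D1 e φ) : D1 e (fun y => A (φ y)) :=
  D1.of_hd (A.continuous.comp h.cont) (A.continuous.comp h.cdd)
    fun x => A.hasFDerivAt.comp_hasDerivAt 0 (h.hd x)

/-- Translation. -/
theorem dd_shift (a x : G) : dd e (fun y => φ (y + a)) x = dd e φ (x + a) := by
  simp only [dd]; congr 1; funext s; congr 1; abel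

theorem D1.shift (h : D1 e φ) (a : G) : D1 e (fun y => φ (y + a)) :=
  D1.of_hd (φ' := fun x => dd e φ (x + a)) (h.cont.comp (continuous_id.add continuous_const))
    (h.cdd.comp (continuous_id.add continuous_const)) fun x => by
      have := h.hd (x + a)
      refine this.congr_of_eventuallyEq (Eventually.of_forall fun s => ?_)
      simp only; congr 1; abel

/-- Fundamental theorem of calculus along the shifts. -/
theorem D1.ftc [CompleteSpace F] (he : Dir e) (h : D1 e φ) (x : G) (s : ℝ) :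
    φ (x + e s) - φ x = ∫ t in (0 : ℝ)..s, dd e φ (x + e t) := by
  have hc : Continuous fun t : ℝ => dd e φ (x + e t) :=
    h.cdd.comp (continuous_const.add he.cont)
  have := intervalIntegral.integral_eq_sub_of_hasDerivAt (a := 0) (b := s)
    (fun t _ => h.hasDerivAt he x t) (hc.intervalIntegrable 0 s)
  rw [this]; simp [he.zero]

/-- Derivative along the sum of two directions. -/
theorem D1.hd_add_dir [CompleteSpace F] (he : Dir e) (he' : Dir e') (h : D1 e φ) (h' : D1 e' φ)
    (x : G) :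
    HasDerivAt (fun s : ℝ => φ (x + (e s + e' s))) (dd e φ x + dd e' φ x) 0 := by
  have h1 : HasStrictFDerivAt (Function.uncurry fun s t : ℝ => φ (x + (e s + e' t))) _
      ((0 : ℝ), (0 : ℝ)) :=
    hasStrictFDerivAt_uncurry_coprod (f := fun s t : ℝ => φ (x + (e s + e' t)))
      (f₁ := fun s t => ContinuousLinearMap.toSpanSingleton ℝ (dd e φ (x + e' t + e s)))
      (f₂ := fun s t => ContinuousLinearMap.toSpanSingleton ℝ (dd e' φ (x + e s + e' t)))
      (Eventually.of_forall fun v => by
        have := (h.hasDerivAt he (x + e' v.2) v.1).hasFDerivAt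
        simpa only [add_assoc, add_comm (e' v.2), Function.HasUncurry.uncurry, id] using this)
      (Eventually.of_forall fun v => by
        have := (h'.hasDerivAt he' (x + e v.1) v.2).hasFDerivAt
        simpa only [add_assoc, Function.HasUncurry.uncurry, id] using this)
      ((ContinuousLinearMap.toSpanSingletonCLE (𝕜 := ℝ) (E := F)).continuous.comp
        (h.cdd.comp ((continuous_const.add (he'.cont.comp continuous_snd)).add
          (he.cont.comp continuous_fst)))).continuousAt
      ((ContinuousLinearMap.toSpanSingletonCLE (𝕜 := ℝ) (E := F)).continuous.comp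
        (h'.cdd.comp ((continuous_const.add (he.cont.comp continuous_fst)).add
          (he'.cont.comp continuous_snd)))).continuousAt
  have h2 : HasDerivAt (fun s : ℝ => (s, s)) ((1 : ℝ), (1 : ℝ)) 0 :=
    (hasDerivAt_id 0).prodMk (hasDerivAt_id 0)
  have h3 := h1.hasFDerivAt.comp_hasDerivAt (f := fun s : ℝ => (s, s)) 0 h2
  simpa [Function.HasUncurry.uncurry, he.zero, he'.zero, Function.comp_def] using h3

end basic

section mul
variable {G : Type*} [NormedAddCommGroup G] {𝕜 : Type*} [RCLike 𝕜] {e : ℝ → G}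
  {φ χ : G → 𝕜}

theorem dd_mul (he : Dir e) (h₁ : D1 e φ) (h₂ : D1 e χ) (x : G) :
    dd e (fun y => φ y * χ y) x = dd e φ x * χ x + φ x * dd e χ x := by
  have := (h₁.hd x).mul (h₂.hd x)
  simp only [he.zero, add_zero] at this
  exact dd_eq this

theorem D1.mul (he : Dir e) (h₁ : D1 e φ) (h₂ : D1 e χ) : D1 e (fun y => φ y * χ y) :=
  D1.of_hd (φ' := fun x => dd e φ x * χ x + φ x * dd e χ x) (h₁.cont.mul h₂.cont)
    ((h₁.cdd.mul h₂.cont).add (h₁.cont.mul h₂.cdd)) fun x => by
      have := (h₁.hd x).mul (h₂.hd x)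
      simp only [he.zero, add_zero] at this
      exact this

theorem dd_const_mul (c : 𝕜) (h : D1 e φ) (x : G) :
    dd e (fun y => c * φ y) x = c * dd e φ x :=
  dd_eq ((h.hd x).const_mul c)

theorem D1.const_mul (c : 𝕜) (h : D1 e φ) : D1 e (fun y => c * φ y) :=
  D1.of_hd (φ' := fun x => c * dd e φ x) (continuous_const.mul h.cont)
    (continuous_const.mul h.cdd) fun x => (h.hd x).const_mul c

theorem D1.prod {ι : Type*} [DecidableEq ι] (he : Dir e) {s : Finset ι} {f : ι → G → 𝕜}
    (h : ∀ i ∈ s, D1 e (f i)) : D1 e (fun y => ∏ i ∈ s, f i y) := by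
  induction s using Finset.induction_on with
  | empty => simpa using D1.const (e := e) (1 : 𝕜)
  | insert a s ha ih =>
    simp only [Finset.prod_insert ha]
    exact (h a (Finset.mem_insert_self _ _)).mul he
      (ih fun i hi => h i (Finset.mem_insert_of_mem hi))

theorem dd_prod {ι : Type*} [DecidableEq ι] (he : Dir e) {s : Finset ι} {f : ι → G → 𝕜}
    (h : ∀ i ∈ s, D1 e (f i)) (x : G) :
    dd e (fun y => ∏ i ∈ s, f i y) x = ∑ i ∈ s, dd e (f i) x * ∏ j ∈ s.erase i, f j x := by
  have := HasDerivAt.fun_finsetProd (u := s) (f := fun i (t : ℝ) => f i (x + e t))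
    (f' := fun i => dd e (f i) x) (x := (0 : ℝ)) fun i hi => (h i hi).hd x
  simp only [he.zero, add_zero, smul_eq_mul] at this
  rw [dd_eq this]
  exact Finset.sum_congr rfl fun i _ => mul_comm _ _

theorem dd_ofReal {f : G → ℝ} (h : D1 e f) (x : G) :
    dd e (fun y => (f y : ℂ)) x = ((dd e f x : ℝ) : ℂ) :=
  dd_clm Complex.ofRealCLM h x

theorem D1.ofReal {f : G → ℝ} (h : D1 e f) : D1 e (fun y => (f y : ℂ)) :=
  h.clm Complex.ofRealCLM

theorem dd_conj {u : G → ℂ} (h : D1 e u) (x : G) :
    dd e (fun y => conj (u y)) x = conj (dd e u x) :=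
  dd_clm (Complex.conjCLE : ℂ →L[ℝ] ℂ) h x

theorem D1.conj {u : G → ℂ} (h : D1 e u) : D1 e (fun y => conj (u y)) :=
  h.clm (Complex.conjCLE : ℂ →L[ℝ] ℂ)

theorem dd_re {u : G → ℂ} (h : D1 e u) (x : G) : dd e (fun y => (u y).re) x = (dd e u x).re :=
  dd_clm Complex.reCLM h x

theorem D1.re {u : G → ℂ} (h : D1 e u) : D1 e (fun y => (u y).re) := h.clm Complex.reCLM

theorem dd_im {u : G → ℂ} (h : D1 e u) (x : G) : dd e (fun y => (u y).im) x = (dd e u x).im :=
  dd_clm Complex.imCLM h x

theorem D1.im {u : G → ℂ} (h : D1 e u) : D1 e (fun y => (u y).im) := h.clm Complex.imCLM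

theorem dd_ip (he : Dir e) {u u' : G → ℂ} (h : D1 e u) (h' : D1 e u') (x : G) :
    dd e (fun y => ip (u y) (u' y)) x = ip (dd e u x) (u' x) + ip (u x) (dd e u' x) := by
  simp only [ip]
  rw [dd_re (h.conj.mul he h'), dd_mul he h.conj h', dd_conj h]
  simp

theorem D1.ip (he : Dir e) {u u' : G → ℂ} (h : D1 e u) (h' : D1 e u') :
    D1 e (fun y => ip (u y) (u' y)) :=
  (h.conj.mul he h').re

theorem ip_self (a : ℂ) : ip a a = ‖a‖ ^ 2 := by
  simp only [ip]; rw [Complex.conj_mul']; norm_cast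

theorem ip_comm (a b : ℂ) : ip a b = ip b a := by simp [ip]; ring

theorem abs_ip_le (a b : ℂ) : |ip a b| ≤ ‖a‖ * ‖b‖ := by
  refine (Complex.abs_re_le_norm _).trans ?_
  simp

theorem ip_add_left (a b c : ℂ) : ip (a + b) c = ip a c + ip b c := by simp [ip]; ring
theorem ip_add_right (a b c : ℂ) : ip a (b + c) = ip a b + ip a c := by simp [ip]; ring
theorem ip_sub_left (a b c : ℂ) : ip (a - b) c = ip a c - ip b c := by simp [ip]; ring
theorem ip_sub_right (a b c : ℂ) : ip a (b - c) = ip a b - ip a c := by simp [ip]; ring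
theorem ip_ofReal_left (t : ℝ) (a b : ℂ) : ip (t * a) b = t * ip a b := by simp [ip]; ring
theorem ip_ofReal_right (t : ℝ) (a b : ℂ) : ip a (t * b) = t * ip a b := by simp [ip]; ring
theorem ip_mul_right (k a b : ℂ) : ip a (k * b) = ip (conj k * a) b := by simp [ip]; ring

theorem continuous_ip {X : Type*} [TopologicalSpace X] {u u' : X → ℂ} (h : Continuous u)
    (h' : Continuous u') : Continuous fun x => ip (u x) (u' x) :=
  Complex.continuous_re.comp ((Complex.continuous_conj.comp h).mul h')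

theorem dd_normSq (he : Dir e) {u : G → ℂ} (h : D1 e u) (x : G) :
    dd e (fun y => ‖u y‖ ^ 2) x = 2 * ip (u x) (dd e u x) := by
  have : (fun y => ‖u y‖ ^ 2) = fun y => ip (u y) (u y) := funext fun y => (ip_self _).symm
  rw [this, dd_ip he h h, ip_comm]; ring

theorem D1.normSq (he : Dir e) {u : G → ℂ} (h : D1 e u) : D1 e (fun y => ‖u y‖ ^ 2) := by
  have : (fun y => ‖u y‖ ^ 2) = fun y => BoseTail.ip (u y) (u y) :=
    funext fun y => (ip_self _).symm
  rw [this]; exact h.ip he h

/-- Chain rule with a real function that is differentiable on the range. -/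
theorem dd_comp (he : Dir e) {f : G → ℝ} {g g' : ℝ → ℝ} (h : D1 e f)
    (hg : ∀ x, HasDerivAt g (g' (f x)) (f x)) (x : G) :
    dd e (fun y => g (f y)) x = g' (f x) * dd e f x := by
  have h0 : HasDerivAt g (g' (f x)) (f (x + e 0)) := by simpa [he.zero] using hg x
  exact dd_eq (h0.comp 0 (h.hd x))

theorem D1.comp (he : Dir e) {f : G → ℝ} {g g' : ℝ → ℝ} (h : D1 e f)
    (hg : ∀ x, HasDerivAt g (g' (f x)) (f x)) (hg' : Continuous fun x => g' (f x)) :
    D1 e (fun y => g (f y)) :=
  D1.of_hd (φ' := fun x => g' (f x) * dd e f x)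
    (continuous_iff_continuousAt.2 fun x => (hg x).continuousAt.comp h.cont.continuousAt)
    (hg'.mul h.cdd) fun x => by
      have h0 : HasDerivAt g (g' (f x)) (f (x + e 0)) := by simpa [he.zero] using hg x
      exact h0.comp 0 (h.hd x)

end mul

section integral
variable {G : Type*} [NormedAddCommGroup G] [CompactSpace G] [MeasureSpace G] [BorelSpace G]
  [IsFiniteMeasure (volume : Measure G)] [(volume : Measure G).IsAddRightInvariant]
  {F : Type*} [NormedAddCommGroup F] [NormedSpace ℝ F] [CompleteSpace F] {e : ℝ → G}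

omit [(volume : Measure G).IsAddRightInvariant] [NormedSpace ℝ F] [CompleteSpace F] in
theorem cont_integrable {φ : G → F} (h : Continuous φ) : Integrable φ :=
  h.integrable_of_hasCompactSupport (HasCompactSupport.of_compactSpace φ)

omit [CompleteSpace F] in
/-- The integral of a derivative vanishes. -/
theorem integral_dd (he : Dir e) {φ : G → F} (h : D1 e φ) : ∫ x, dd e φ x = 0 := by
  obtain ⟨C, hC⟩ := (HasCompactSupport.of_compactSpace (dd e φ)).exists_bound_of_continuous h.cdd
  have hc : ∀ s : ℝ, Continuous fun x : G => x + e s := fun s => continuous_id.add continuous_const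
  have h1 := (hasDerivAt_integral_of_dominated_loc_of_deriv_le (μ := (volume : Measure G))
    (F := fun (s : ℝ) x => φ (x + e s)) (F' := fun (s : ℝ) x => dd e φ (x + e s)) (x₀ := 0)
    (bound := fun _ => C) univ_mem
    (Eventually.of_forall fun s => (cont_integrable (h.cont.comp (hc s))).aestronglyMeasurable)
    (cont_integrable (h.cont.comp (hc 0)))
    (cont_integrable (h.cdd.comp (hc 0))).aestronglyMeasurable
    (Eventually.of_forall fun x s _ => hC _) (integrable_const C)
    (Eventually.of_forall fun x s _ => h.hasDerivAt he x s)).2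
  simp only [integral_add_right_eq_self] at h1
  exact h1.unique (hasDerivAt_const _ _)

/-- Integration by parts. -/
theorem ibp {𝕜 : Type*} [RCLike 𝕜] (he : Dir e) {φ χ : G → 𝕜} (h₁ : D1 e φ) (h₂ : D1 e χ) :
    ∫ x, dd e φ x * χ x = -∫ x, φ x * dd e χ x := by
  have h := integral_dd he (h₁.mul he h₂)
  simp only [dd_mul he h₁ h₂] at h
  exact eq_neg_of_add_eq_zero_left ((integral_add (cont_integrable (h₁.cdd.mul h₂.cont))
    (cont_integrable (h₁.cont.mul h₂.cdd))).symm.trans h)

theorem ibp_ip (he : Dir e) {u u' : G → ℂ} (h : D1 e u) (h' : D1 e u') :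
    ∫ x, ip (dd e u x) (u' x) = -∫ x, ip (u x) (dd e u' x) := by
  have h0 := integral_dd he (h.ip he h')
  simp only [dd_ip he h h'] at h0
  rw [integral_add (cont_integrable (continuous_ip h.cdd h'.cont))
    (cont_integrable (continuous_ip h.cont h'.cdd))] at h0
  exact eq_neg_of_add_eq_zero_left h0

end integral

section param
variable {G : Type*} [NormedAddCommGroup G] [CompactSpace G]
  {H : Type*} [MetricSpace H] [CompactSpace H] [MeasureSpace H] [BorelSpace H]
  [IsFiniteMeasure (volume : Measure H)] {e : ℝ → G}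

omit [IsFiniteMeasure (volume : Measure H)] in
theorem bound_calc {κ : H → ℂ} (hκ : BM κ) {Φ : G → H → ℂ}
    (hΦ : Continuous (Function.uncurry Φ)) :
    (∀ x, AEStronglyMeasurable (fun z => κ z * Φ x z) volume) ∧
      ∃ C : ℝ, ∀ x z, ‖κ z * Φ x z‖ ≤ C := by
  obtain ⟨C, hC⟩ := (HasCompactSupport.of_compactSpace _).exists_bound_of_continuous hΦ
  obtain ⟨hm, K, hK⟩ := hκ
  refine ⟨fun x => (hm.mul (hΦ.uncurry_left x).measurable).aestronglyMeasurable, K * C,
    fun x z => ?_⟩
  rw [norm_mul]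
  exact mul_le_mul (hK z) (hC (x, z)) (norm_nonneg _) ((norm_nonneg _).trans (hK z))

/-- Continuity of a parametric integral with a bounded measurable weight. -/
theorem continuous_param {κ : H → ℂ} (hκ : BM κ) {Φ : G → H → ℂ}
    (hΦ : Continuous (Function.uncurry Φ)) : Continuous fun x => ∫ z, κ z * Φ x z := by
  obtain ⟨hm, C, hC⟩ := bound_calc hκ hΦ
  exact continuous_of_dominated (bound := fun _ => C) hm (fun x => Eventually.of_forall (hC x))
    (integrable_const C)
    (Eventually.of_forall fun z => continuous_const.mul (hΦ.uncurry_right z))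

/-- Differentiation under the integral sign. -/
theorem hd_param (he : Dir e) {κ : H → ℂ} (hκ : BM κ) {Φ Φ' : G → H → ℂ}
    (hΦ : Continuous (Function.uncurry Φ)) (hΦ' : Continuous (Function.uncurry Φ'))
    (h : ∀ x z, HasDerivAt (fun s : ℝ => Φ (x + e s) z) (Φ' x z) 0) (x : G) :
    HasDerivAt (fun s : ℝ => ∫ z, κ z * Φ (x + e s) z) (∫ z, κ z * Φ' x z) 0 := by
  obtain ⟨hm, C, hC⟩ := bound_calc hκ hΦ
  obtain ⟨hm', C', hC'⟩ := bound_calc hκ hΦ'
  have hd : ∀ z s, HasDerivAt (fun t : ℝ => Φ (x + e t) z) (Φ' (x + e s) z) s := fun z s => by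
    have h1 : D1 e fun y => Φ y z :=
      D1.of_hd (hΦ.uncurry_right z) (hΦ'.uncurry_right z) fun y => h y z
    have h2 := h1.hasDerivAt he x s
    rwa [dd_eq (φ := fun y => Φ y z) (h _ z)] at h2
  have h1 := (hasDerivAt_integral_of_dominated_loc_of_deriv_le (μ := (volume : Measure H))
    (F := fun (s : ℝ) z => κ z * Φ (x + e s) z) (F' := fun (s : ℝ) z => κ z * Φ' (x + e s) z)
    (x₀ := 0) (bound := fun _ => C') univ_mem (Eventually.of_forall fun s => hm _)
    ((integrable_const C).mono' (hm _) (Eventually.of_forall (hC _))) (hm' _)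
    (Eventually.of_forall fun z s _ => hC' _ z) (integrable_const C')
    (Eventually.of_forall fun z s _ => (hd z s).const_mul (κ z))).2
  simpa only [he.zero, add_zero] using h1

theorem D1.param (he : Dir e) {κ : H → ℂ} (hκ : BM κ) {Φ Φ' : G → H → ℂ}
    (hΦ : Continuous (Function.uncurry Φ)) (hΦ' : Continuous (Function.uncurry Φ'))
    (h : ∀ x z, HasDerivAt (fun s : ℝ => Φ (x + e s) z) (Φ' x z) 0) :
    D1 e (fun x => ∫ z, κ z * Φ x z) :=
  D1.of_hd (continuous_param hκ hΦ) (continuous_param hκ hΦ') (hd_param he hκ hΦ hΦ' h)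

end param

end Pool.Agent.BoseTail
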