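import Pool.Agent.Lib.MP_dec75e_mp.Meas

/-! Bilinear energy forms, localisation (IMS) formulas, Euler-Lagrange equation. -/

open MeasureTheory Complex Finset Filter Function
open scoped ComplexConjugate Real Topology

noncomputable section

namespace Pool.Agent.BoseTail

variable {N : ℕ} {L : ℝ} [Fact (0 < L)] {w : T3 L → ℝ} {S : Finset (Fin N)}
  {φ χ ζ ψ : Cf N L → ℂ}

omit [Fact (0 < L)] in
theorem continuous_US (hw : Continuous w) (S : Finset (Fin N)) : Continuous (US w S) :=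
  continuous_const.mul (continuous_finsetSum _ fun i _ => continuous_finsetSum _ fun j _ =>
    hw.comp ((continuous_apply i).sub (continuous_apply j)))
omit [Fact (0 < L)] in
theorem continuous_Wi (hw : Continuous w) (i : Fin N) : Continuous (Wi w i) :=
  continuous_finsetSum _ fun j _ => hw.comp ((continuous_apply i).sub (continuous_apply j))
omit [Fact (0 < L)] in
theorem US_nonneg (hw : ∀ z, 0 ≤ w z) (S : Finset (Fin N)) (x : Cf N L) : 0 ≤ US w S x :=
  mul_nonneg (by norm_num) (Finset.sum_nonneg fun _ _ => Finset.sum_nonneg fun _ _ => hw _)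
omit [Fact (0 < L)] in
theorem US_mono (hw : ∀ z, 0 ≤ w z) {S T : Finset (Fin N)} (h : S ⊆ T) (x : Cf N L) :
    US w S x ≤ US w T x := by
  refine mul_le_mul_of_nonneg_left ?_ (by norm_num)
  refine (Finset.sum_le_sum fun i _ => Finset.sum_le_sum_of_subset_of_nonneg
    (Finset.erase_subset_erase i h) fun _ _ _ => hw _).trans ?_
  exact Finset.sum_le_sum_of_subset_of_nonneg h fun _ _ _ => Finset.sum_nonneg fun _ _ => hw _
omit [Fact (0 < L)] in
theorem US_insert (hw : ∀ z, w (-z) = w z) {i : Fin N} (hi : i ∉ S) (x : Cf N L) :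
    US w (insert i S) x = US w S x + ∑ j ∈ S, w (x i - x j) := by
  unfold US
  have e : ∀ k ∈ S, ∑ j ∈ (insert i S).erase k, w (x k - x j) =
      w (x i - x k) + ∑ j ∈ S.erase k, w (x k - x j) := fun k hk => by
    have hik : i ≠ k := fun e => hi (e ▸ hk)
    rw [Finset.erase_insert_of_ne hik, Finset.sum_insert fun h => hi (Finset.mem_of_mem_erase h),
      ← hw (x i - x k), neg_sub]
  rw [Finset.sum_insert hi, Finset.erase_insert hi, Finset.sum_congr rfl e, Finset.sum_add_distrib]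
  ring
omit [Fact (0 < L)] in
theorem US_univ (x : Cf N L) : US w univ x = (1 / 2) * ∑ i, Wi w i x := rfl
omit [Fact (0 < L)] in
/-- The interaction of the particles in `S` with everybody. -/
theorem US_compl_add_le (hw : ∀ z, 0 ≤ w z) (hw' : ∀ z, w (-z) = w z) (S : Finset (Fin N))
    (x : Cf N L) : US w Sᶜ x + (1 / 2) * ∑ i ∈ S, Wi w i x ≤ US w univ x := by
  rw [US_univ, ← Finset.sum_add_sum_compl S, mul_add, add_comm]
  refine add_le_add le_rfl (mul_le_mul_of_nonneg_left (Finset.sum_le_sum fun i _ => ?_)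
    (by norm_num))
  exact Finset.sum_le_sum_of_subset_of_nonneg
    (Finset.erase_subset_erase i (Finset.subset_univ _)) fun _ _ _ => hw _
omit [Fact (0 < L)] in
theorem US_update {i : Fin N} (hi : i ∉ S) (x : Cf N L) (y : T3 L) :
    US w S (update x i y) = US w S x := by
  unfold US
  congr 1
  refine Finset.sum_congr rfl fun k hk => Finset.sum_congr rfl fun j hj => ?_
  have h1 : k ≠ i := fun e => hi (e ▸ hk)
  have h2 : j ≠ i := fun e => hi (e ▸ Finset.mem_of_mem_erase hj)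
  rw [update_of_ne h1, update_of_ne h2]

theorem ip_sum_form {ι : Type*} (s : Finset ι) (a : ℂ) (f : ι → ℂ) :
    ip a (∑ i ∈ s, f i) = ∑ i ∈ s, ip a (f i) := by
  simp only [ip, Finset.mul_sum, Complex.re_sum]

theorem int_form {G : Cf N L → ℝ} (hG : Continuous G) (hφ : Continuous φ) (hχ : Continuous χ) :
    Integrable fun x => G x * ip (φ x) (χ x) :=
  cont_integrable (hG.mul (continuous_ip hφ hχ))

theorem nsq_nonneg (φ : Cf N L → ℂ) : 0 ≤ nsq φ := integral_nonneg fun _ => sq_nonneg _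
theorem rip_self (φ : Cf N L → ℂ) : rip φ φ = nsq φ := by simp only [rip, nsq, ip_self]
theorem rip_comm (φ χ : Cf N L → ℂ) : rip φ χ = rip χ φ := by
  unfold rip
  exact integral_congr_ae (Eventually.of_forall fun x => ip_comm _ _)
theorem abs_rip_le (hφ : Continuous φ) (hχ : Continuous χ) :
    |rip φ χ| ≤ √(nsq φ) * √(nsq χ) := cs_ip (BM.of_cont hφ) (BM.of_cont hχ)
theorem rip_add_right (hφ : Continuous φ) (hχ : Continuous χ) (hζ : Continuous ζ) :
    rip ζ (fun x => φ x + χ x) = rip ζ φ + rip ζ χ := by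
  simp only [rip, ip_add_right]
  exact integral_add (cont_integrable (continuous_ip hζ hφ)) (cont_integrable (continuous_ip hζ hχ))
theorem rip_sub_right (hφ : Continuous φ) (hχ : Continuous χ) (hζ : Continuous ζ) :
    rip ζ (fun x => φ x - χ x) = rip ζ φ - rip ζ χ := by
  simp only [rip, ip_sub_right]
  exact integral_sub (cont_integrable (continuous_ip hζ hφ)) (cont_integrable (continuous_ip hζ hχ))
theorem rip_smul_right (t : ℝ) (ζ φ : Cf N L → ℂ) :
    rip ζ (fun x => (t : ℂ) * φ x) = t * rip ζ φ := by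
  simp only [rip, ip_ofReal_right, integral_const_mul]
theorem rip_sum_right {ι : Type*} {s : Finset ι} {f : ι → Cf N L → ℂ}
    (hf : ∀ a ∈ s, Continuous (f a)) (hζ : Continuous ζ) :
    rip ζ (fun x => ∑ a ∈ s, f a x) = ∑ a ∈ s, rip ζ (f a) := by
  simp only [rip, ip_sum_form]
  exact integral_finsetSum _ fun a ha => cont_integrable (continuous_ip hζ (hf a ha))

theorem rT_self (hφ : IsC1 φ) (i : Fin N) : rT i φ φ = (1 / 2) * ∫ x, gP i φ x := by
  simp only [rT, gP, ip_self]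
  congr 1
  exact (integral_finsetSum _ fun c _ => cont_integrable ((hφ.2 i c).cdd.norm.pow 2)).symm
theorem rT_comm (i : Fin N) (φ χ : Cf N L → ℂ) : rT i φ χ = rT i χ φ := by
  unfold rT
  congr 1
  exact Finset.sum_congr rfl fun c _ => rip_comm _ _
theorem rT_add_right (i : Fin N) (hφ : IsC1 φ) (hχ : IsC1 χ) (hζ : IsC1 ζ) :
    rT i ζ (fun x => φ x + χ x) = rT i ζ φ + rT i ζ χ := by
  unfold rT
  rw [← mul_add, ← Finset.sum_add_distrib]
  congr 1
  refine Finset.sum_congr rfl fun c _ => ?_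
  simp only [dd_add (hφ.2 i c) (hχ.2 i c)]
  exact rip_add_right (hφ.2 i c).cdd (hχ.2 i c).cdd (hζ.2 i c).cdd
theorem rT_sub_right (i : Fin N) (hφ : IsC1 φ) (hχ : IsC1 χ) (hζ : IsC1 ζ) :
    rT i ζ (fun x => φ x - χ x) = rT i ζ φ - rT i ζ χ := by
  unfold rT
  rw [← mul_sub, ← Finset.sum_sub_distrib]
  congr 1
  refine Finset.sum_congr rfl fun c _ => ?_
  simp only [dd_sub (hφ.2 i c) (hχ.2 i c)]
  exact rip_sub_right (hφ.2 i c).cdd (hχ.2 i c).cdd (hζ.2 i c).cdd
theorem rT_smul_right (i : Fin N) (t : ℝ) (hφ : IsC1 φ) (ζ : Cf N L → ℂ) :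
    rT i ζ (fun x => (t : ℂ) * φ x) = t * rT i ζ φ := by
  unfold rT
  rw [mul_left_comm, Finset.mul_sum _ _ t]
  congr 1
  refine Finset.sum_congr rfl fun c _ => ?_
  simp only [dd_const_mul (t : ℂ) (hφ.2 i c)]
  exact rip_smul_right t _ _
theorem rT_sum_right (i : Fin N) {ι : Type*} {s : Finset ι} {f : ι → Cf N L → ℂ}
    (hf : ∀ a ∈ s, IsC1 (f a)) (hζ : IsC1 ζ) :
    rT i ζ (fun x => ∑ a ∈ s, f a x) = ∑ a ∈ s, rT i ζ (f a) := by
  unfold rT
  rw [← Finset.mul_sum, Finset.sum_comm]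
  congr 1
  refine Finset.sum_congr rfl fun c _ => ?_
  simp only [dd_sum fun a ha => (hf a ha).2 i c]
  exact rip_sum_right (fun a ha => ((hf a ha).2 i c).cdd) (hζ.2 i c).cdd

theorem rB_self (hφ : IsC1 φ) : rB w S φ φ = ES w S φ := by
  simp only [rB, ES, ip_self, rT_self hφ, Finset.mul_sum]
theorem rB_comm (φ χ : Cf N L → ℂ) : rB w S φ χ = rB w S χ φ := by
  unfold rB
  congr 1
  · exact Finset.sum_congr rfl fun i _ => rT_comm i φ χ
  · exact integral_congr_ae (Eventually.of_forall fun x => congrArg _ (ip_comm _ _))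
theorem rB_add_right (hw : Continuous w) (hφ : IsC1 φ) (hχ : IsC1 χ) (hζ : IsC1 ζ) :
    rB w S ζ (fun x => φ x + χ x) = rB w S ζ φ + rB w S ζ χ := by
  simp only [rB, rT_add_right _ hφ hχ hζ, Finset.sum_add_distrib, ip_add_right, mul_add]
  rw [integral_add (int_form (continuous_US hw S) hζ.1 hφ.1)
    (int_form (continuous_US hw S) hζ.1 hχ.1)]
  ring
theorem rB_sub_right (hw : Continuous w) (hφ : IsC1 φ) (hχ : IsC1 χ) (hζ : IsC1 ζ) :
    rB w S ζ (fun x => φ x - χ x) = rB w S ζ φ - rB w S ζ χ := by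
  simp only [rB, rT_sub_right _ hφ hχ hζ, Finset.sum_sub_distrib, ip_sub_right, mul_sub]
  rw [integral_sub (int_form (continuous_US hw S) hζ.1 hφ.1)
    (int_form (continuous_US hw S) hζ.1 hχ.1)]
  ring
theorem rB_smul_right (t : ℝ) (hφ : IsC1 φ) (ζ : Cf N L → ℂ) :
    rB w S ζ (fun x => (t : ℂ) * φ x) = t * rB w S ζ φ := by
  simp only [rB, rT_smul_right _ t hφ, ip_ofReal_right, mul_left_comm _ t, integral_const_mul,
    ← Finset.mul_sum, mul_add]
theorem rB_sum_right (hw : Continuous w) {ι : Type*} {s : Finset ι} {f : ι → Cf N L → ℂ}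
    (hf : ∀ a ∈ s, IsC1 (f a)) (hζ : IsC1 ζ) :
    rB w S ζ (fun x => ∑ a ∈ s, f a x) = ∑ a ∈ s, rB w S ζ (f a) := by
  simp only [rB, rT_sum_right _ hf hζ, ip_sum_form, Finset.mul_sum, Finset.sum_add_distrib]
  rw [integral_finsetSum _ fun a ha => int_form (continuous_US hw S) hζ.1 (hf a ha).1,
    Finset.sum_comm]

theorem ES_nonneg (hw : ∀ z, 0 ≤ w z) (S : Finset (Fin N)) (φ : Cf N L → ℂ) :
    0 ≤ ES w S φ :=
  add_nonneg (mul_nonneg (by norm_num) (Finset.sum_nonneg fun _ _ => integral_nonneg fun _ =>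
    Finset.sum_nonneg fun _ _ => sq_nonneg _))
    (integral_nonneg fun x => mul_nonneg (US_nonneg hw S x) (sq_nonneg _))

/-- Expansion of the energy of a linear combination. -/
theorem ES_add_smul (hw : Continuous w) (hφ : IsC1 φ) (hχ : IsC1 χ) (t : ℝ) :
    ES w S (fun x => φ x + (t : ℂ) * χ x) =
      ES w S φ + 2 * t * rB w S φ χ + t ^ 2 * ES w S χ := by
  have ht := hχ.const_mul (t : ℂ)
  have hs := hφ.add ht
  rw [← rB_self hs, rB_add_right hw hφ ht hs, rB_smul_right t hχ, rB_comm _ φ, rB_comm _ χ,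
    rB_add_right hw hφ ht hφ, rB_add_right hw hφ ht hχ, rB_smul_right t hχ, rB_smul_right t hχ,
    rB_self hφ, rB_self hχ, rB_comm χ φ]
  ring

theorem nsq_add_smul (hφ : Continuous φ) (hχ : Continuous χ) (t : ℝ) :
    nsq (fun x => φ x + (t : ℂ) * χ x) = nsq φ + 2 * t * rip φ χ + t ^ 2 * nsq χ := by
  have ht : Continuous fun x => (t : ℂ) * χ x := continuous_const.mul hχ
  have hs : Continuous fun x => φ x + (t : ℂ) * χ x := hφ.add ht
  rw [← rip_self, rip_add_right hφ ht hs, rip_smul_right, rip_comm _ φ, rip_comm _ χ,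
    rip_add_right hφ ht hφ, rip_add_right hφ ht hχ, rip_smul_right, rip_smul_right,
    rip_self, rip_self, rip_comm χ φ]
  ring

/-- Splitting off one particle from the full form. -/
theorem rB_univ_split (hw : Continuous w) (hw' : ∀ z, w (-z) = w z) (o : Fin N)
    (hφ : Continuous φ) (hχ : Continuous χ) :
    rB w univ φ χ =
      rT o φ χ + rB w (univ.erase o) φ χ + ∫ x, Wi w o x * ip (φ x) (χ x) := by
  have e : ∀ x, US w univ x = US w (univ.erase o) x + Wi w o x := fun x => by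
    have := US_insert hw' (Finset.notMem_erase o univ) x
    rwa [Finset.insert_erase (Finset.mem_univ o)] at this
  simp only [rB, e, add_mul]
  rw [integral_add (int_form (continuous_US hw _) hφ hχ) (int_form (continuous_Wi hw o) hφ hχ),
    ← Finset.add_sum_erase _ _ (Finset.mem_univ o)]
  ring

/-- Splitting the energy along a set `S` and its complement. -/
theorem ES_compl_add_le (hw : Continuous w) (hw0 : ∀ z, 0 ≤ w z) (hw' : ∀ z, w (-z) = w z)
    (S : Finset (Fin N)) (hφ : IsC1 φ) :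
    ES w Sᶜ φ + (1 / 2) * ∑ i ∈ S, ((∫ x, gP i φ x) + ∫ x, Wi w i x * ‖φ x‖ ^ 2) ≤
      ES w univ φ := by
  have hn : Continuous fun x => ‖φ x‖ ^ 2 := hφ.1.norm.pow 2
  have hW : ∀ i, Integrable fun x => Wi w i x * ‖φ x‖ ^ 2 := fun i =>
    cont_integrable ((continuous_Wi hw i).mul hn)
  have hU : ∀ T, Integrable fun x => US w T x * ‖φ x‖ ^ 2 := fun T =>
    cont_integrable ((continuous_US hw T).mul hn)
  have h1 : (∫ x, US w Sᶜ x * ‖φ x‖ ^ 2) + 1 / 2 * ∑ i ∈ S, ∫ x, Wi w i x * ‖φ x‖ ^ 2 ≤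
      ∫ x, US w univ x * ‖φ x‖ ^ 2 := by
    have hs := (integrable_finsetSum S fun i _ => hW i).const_mul (1 / 2)
    rw [← integral_finsetSum _ fun i _ => hW i, ← integral_const_mul, ← integral_add (hU _) hs]
    refine integral_mono ((hU _).add hs) (hU _) fun x => ?_
    have := mul_le_mul_of_nonneg_right (US_compl_add_le hw0 hw' S x) (sq_nonneg ‖φ x‖)
    simp only [← Finset.sum_mul]
    linarith
  unfold ES
  rw [Finset.sum_add_distrib, ← Finset.sum_add_sum_compl S]
  linarith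

end Pool.Agent.BoseTail

namespace Pool.Agent.BoseTail

theorem Setup.basic {P : Par} {N : ℕ} {L : ℝ} [Fact (0 < L)] {w : T3 L → ℝ} {ψ : Cf N L → ℂ}
    (h : Setup P w ψ) : 0 < rho N L ∧ 1 ≤ rho N L * L ^ 2 ∧ 0 < N := by
  have hL : 0 < L := Lpos
  have hN : (0 : ℝ) < N := lt_of_lt_of_le hL h.hL
  refine ⟨div_pos hN (pow_pos hL 3), ?_, by exact_mod_cast hN⟩
  have e : rho N L * L ^ 2 = N / L := by
    unfold rho
    field_simp
  rw [e, le_div_iff₀ hL, one_mul]
  exact h.hL

theorem Setup.r_le {P : Par} {N : ℕ} {L : ℝ} [Fact (0 < L)] {w : T3 L → ℝ} {ψ : Cf N L → ℂ}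
    (h : Setup P w ψ) {s t : ℝ} (hs : 0 ≤ s) (ht : 0 < t) (hst : (t * s) ^ 2 * rho N L ≤ 1) :
    t * s ≤ L := by
  have hL : 0 < L := Lpos
  obtain ⟨h1, h2, -⟩ := h.basic
  refine (abs_le_of_sq_le_sq' (le_of_mul_le_mul_right ?_ h1) hL.le).2
  linarith

end Pool.Agent.BoseTail
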