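import Pool.Agent.Lib.MP_dec75e_mp.Om0

/-! The approximate heat kernel `th`. -/

open MeasureTheory Complex Finset Filter Function
open scoped ComplexConjugate Real Topology

noncomputable section

namespace Pool.Agent.BoseTail

variable {L : ℝ} [Fact (0 < L)]

theorem exp_cube_om : Real.exp 1 ^ 3 ≤ 21 := by
  have h := Real.exp_one_lt_d9
  have h1 : Real.exp 1 ^ 3 ≤ (2.7182818286 : ℝ) ^ 3 :=
    pow_le_pow_left₀ (Real.exp_pos 1).le h.le 3
  exact h1.trans (by norm_num)

theorem cont_th_om (s : ℝ) : Continuous (th (L := L) s) :=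
  continuous_finsetProd _ fun c _ => continuous_const.mul
    (Real.continuous_exp.comp (((continuous_sig.comp (continuous_apply c)).div_const s).neg))

theorem hd_x_om (s : ℝ) (c : Fin 3) (z : T3 L) :
    HasDerivAt (fun t : ℝ => th s (z + d1 c t)) (th s z * -(sig1 L (z c) / s)) 0 := by
  have h := hd_tensor (L := L) (g := fun _ t => (√s)⁻¹ * Real.exp (-(sig L t / s)))
    (g' := fun _ t => (√s)⁻¹ * (Real.exp (-(sig L t / s)) * -(sig1 L t / s))) (fun _ t => by
      have := (((hd_sig t).div_const s).fun_neg.exp).const_mul (√s)⁻¹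
      simpa only [AddCircle.coe_zero, add_zero] using this) c z
  refine HasDerivAt.congr_deriv h ?_
  unfold th
  rw [← Finset.mul_prod_erase _ _ (Finset.mem_univ c)]
  ring

theorem dd_x_om (s : ℝ) (c : Fin 3) :
    dd (d1 c) (th (L := L) s) = fun z => th s z * -(sig1 L (z c) / s) :=
  funext fun z => dd_eq (hd_x_om s c z)

theorem hd_xx_om (s : ℝ) (c : Fin 3) (z : T3 L) :
    HasDerivAt (fun t : ℝ => th s (z + d1 c t) * -(sig1 L ((z + d1 c t : T3 L) c) / s))
      (th s z * ((sig1 L (z c) / s) ^ 2 - sig2 L (z c) / s)) 0 := by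
  have e : ∀ t : ℝ, (z + d1 c t : T3 L) c = z c + (t : AddCircle L) := fun t => by simp [d1]
  have h := (hd_x_om s c z).fun_mul ((hd_sig1 (z c)).div_const s).fun_neg
  simp only [e]
  refine HasDerivAt.congr_deriv h ?_
  simp only [(dir_d1 c).zero, AddCircle.coe_zero, add_zero]
  ring

theorem th_pos {s : ℝ} (hs : 0 < s) (z : T3 L) : 0 < th s z :=
  Finset.prod_pos fun _ _ => mul_pos (inv_pos.2 (Real.sqrt_pos.2 hs)) (Real.exp_pos _)
theorem th_c2 {s : ℝ} (hs : 0 < s) : C2T (th (L := L) s) := by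
  intro c
  have h1 : Continuous fun z : T3 L => sig1 L (z c) := continuous_sig1.comp (continuous_apply c)
  have h2 : Continuous fun z : T3 L => sig2 L (z c) := continuous_sig2.comp (continuous_apply c)
  have h3 : Continuous fun z : T3 L => th s z * -(sig1 L (z c) / s) :=
    (cont_th_om s).mul (h1.div_const s).neg
  refine ⟨D1.of_hd (cont_th_om s) h3 (hd_x_om s c), ?_⟩
  rw [dd_x_om]
  exact D1.of_hd h3 ((cont_th_om s).mul (((h1.div_const s).pow 2).sub (h2.div_const s)))
    (hd_xx_om s c)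
/-- The indicator of a ball is dominated by the kernel at time `h²`. -/
theorem nb_le_th {h : ℝ} (hh : 0 < h) (z : T3 L) : nb h z ≤ 21 * h ^ 3 * th (h ^ 2) z := by
  have hp := th_pos (pow_pos hh 2) z
  unfold nb
  split_ifs with hz
  · have he := Real.exp_pos 1
    have h1 : ∏ _c : Fin 3, h⁻¹ * (Real.exp 1)⁻¹ ≤ th (h ^ 2) z := by
      refine Finset.prod_le_prod (fun _ _ => by positivity) fun c _ => ?_
      rw [Real.sqrt_sq hh.le, ← Real.exp_neg]
      refine mul_le_mul_of_nonneg_left (Real.exp_le_exp.2 (neg_le_neg ?_)) (by positivity)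
      rw [div_le_one (by positivity)]
      exact (sig_le _).trans (pow_le_pow_left₀ (norm_nonneg _) ((norm_le_pi_norm z c).trans hz) 2)
    rw [Finset.prod_const, Finset.card_univ, Fintype.card_fin] at h1
    refine le_trans ?_ (mul_le_mul_of_nonneg_left h1 (by positivity))
    have e : 21 * h ^ 3 * (h⁻¹ * (Real.exp 1)⁻¹) ^ 3 = 21 / Real.exp 1 ^ 3 := by field_simp
    rw [e, le_div_iff₀ (by positivity), one_mul]
    exact exp_cube_om
  · positivity
/-- At times between `r²` and `2 r²` the kernel is dominated by the weight. -/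
theorem th_le_om {r s : ℝ} (hr : 0 < r) (h₁ : r ^ 2 ≤ s) (h₂ : s ≤ 2 * r ^ 2) (z : T3 L) :
    th s z ≤ 21 / r ^ 3 * om r z := by
  have hs : 0 < s := lt_of_lt_of_le (by positivity) h₁
  have h1 : th s z ≤ ∏ c, (r⁻¹ * Real.exp 1) * Real.exp (-√(1 + sig L (z c) / r ^ 2)) := by
    refine Finset.prod_le_prod (fun _ _ => by positivity) fun c _ => ?_
    rw [mul_assoc, ← Real.exp_add]
    have hσ := sig_nonneg (z c)
    refine mul_le_mul (inv_anti₀ hr (Real.le_sqrt_of_sq_le h₁)) (Real.exp_le_exp.2 ?_)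
      (Real.exp_pos _).le (by positivity)
    have h3 : √(1 + sig L (z c) / r ^ 2) ≤ 1 + sig L (z c) / r ^ 2 / 2 :=
      Real.sqrt_le_iff.2 ⟨by positivity, by nlinarith [sq_nonneg (sig L (z c) / r ^ 2)]⟩
    have h4 : sig L (z c) / r ^ 2 / 2 ≤ sig L (z c) / s := by
      rw [div_div]
      exact div_le_div_of_nonneg_left hσ hs (by linarith)
    linarith
  rw [Finset.prod_mul_distrib, Finset.prod_const, Finset.card_univ, Fintype.card_fin] at h1
  refine h1.trans (mul_le_mul_of_nonneg_right ?_ (om_pos r z).le)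
  rw [mul_pow, inv_pow, mul_comm, ← div_eq_mul_inv]
  exact div_le_div_of_nonneg_right exp_cube_om (by positivity)

/-- Time derivative of the kernel. -/
def tht (s : ℝ) (z : T3 L) : ℝ := th s z * ∑ c, (sig L (z c) / s ^ 2 - 1 / (2 * s))

theorem hd_t_om {s : ℝ} (hs : 0 < s) (a : ℝ) :
    HasDerivAt (fun t : ℝ => (√t)⁻¹ * Real.exp (-(a / t)))
      ((√s)⁻¹ * Real.exp (-(a / s)) * (a / s ^ 2 - 1 / (2 * s))) s := by
  have hq : 0 < √s := Real.sqrt_pos.2 hs
  have h1 := (Real.hasDerivAt_sqrt hs.ne').fun_inv hq.ne'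
  have h2 := ((hasDerivAt_const s a).fun_div (hasDerivAt_id' s) hs.ne').fun_neg.exp
  refine HasDerivAt.congr_deriv (h1.fun_mul h2) ?_
  rw [Real.sq_sqrt hs.le]
  field_simp
  ring

theorem hd_th {s : ℝ} (hs : 0 < s) (z : T3 L) : HasDerivAt (fun t => th t z) (tht s z) s := by
  simp only [tht, th, Fin.prod_univ_three, Fin.sum_univ_three]
  refine HasDerivAt.congr_deriv (((hd_t_om hs (sig L (z 0))).fun_mul
    (hd_t_om hs (sig L (z 1)))).fun_mul (hd_t_om hs (sig L (z 2)))) ?_
  ring
theorem continuousOn_th :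
    ContinuousOn (fun p : ℝ × T3 L => th p.1 p.2) (Set.Ioi 0 ×ˢ Set.univ) := by
  refine continuousOn_finsetProd _ fun c _ => ContinuousOn.mul ?_ ?_
  · exact (Real.continuous_sqrt.comp continuous_fst).continuousOn.inv₀
      fun p hp => (Real.sqrt_pos.2 hp.1).ne'
  · exact Real.continuous_exp.comp_continuousOn (ContinuousOn.div
      (continuous_sig.comp ((continuous_apply c).comp continuous_snd)).continuousOn
      continuous_fst.continuousOn fun p hp => ne_of_gt hp.1).neg
theorem continuousOn_tht :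
    ContinuousOn (fun p : ℝ × T3 L => tht p.1 p.2) (Set.Ioi 0 ×ˢ Set.univ) := by
  refine continuousOn_th.mul (continuousOn_finsetSum _ fun c _ => ContinuousOn.sub ?_ ?_)
  · exact ContinuousOn.div
      (continuous_sig.comp ((continuous_apply c).comp continuous_snd)).continuousOn
      (continuous_fst.pow 2).continuousOn fun p hp => pow_ne_zero 2 (ne_of_gt hp.1)
  · exact ContinuousOn.div continuousOn_const (continuous_const.mul continuous_fst).continuousOn
      fun p hp => mul_ne_zero two_ne_zero (ne_of_gt hp.1)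
/-- The kernel is a supersolution of the heat equation up to a zero order term. -/
theorem th_super {s : ℝ} (hs : 0 < s) (z : T3 L) :
    1 / 4 * lapT (th s) z - 8 / L ^ 2 * th s z ≤ tht s z := by
  have hL : 0 < L := Lpos
  have e : lapT (th s) z = th s z * ∑ c, ((sig1 L (z c) / s) ^ 2 - sig2 L (z c) / s) := by
    rw [Finset.mul_sum]
    refine Finset.sum_congr rfl fun c _ => ?_
    rw [dd_x_om]
    exact dd_eq (hd_xx_om s c z)
  have h1 : ∀ c, 1 / 4 * ((sig1 L (z c) / s) ^ 2 - sig2 L (z c) / s) ≤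
      (sig L (z c) / s ^ 2 - 1 / (2 * s)) + (π / L) ^ 2 / 4 := fun c => by
    have e2 : 1 / 4 * ((sig1 L (z c) / s) ^ 2 - sig2 L (z c) / s) =
        (sig L (z c) / s ^ 2 - 1 / (2 * s)) + (π / L) ^ 2 / 4 -
          (π / L) ^ 2 * (sig L (z c) / s - 1 / 2) ^ 2 := by
      rw [div_pow, sig1_sq, sig2_eq]
      generalize (π / L) ^ 2 = p
      field_simp
      ring
    rw [e2]
    exact sub_le_self _ (by positivity)
  have h2 : 3 * ((π / L) ^ 2 / 4) ≤ 8 / L ^ 2 := by
    have : π ^ 2 ≤ 3.15 ^ 2 := pow_le_pow_left₀ Real.pi_pos.le Real.pi_lt_d2.le 2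
    rw [div_pow, le_div_iff₀ (by positivity)]
    have e3 : 3 * (π ^ 2 / L ^ 2 / 4) * L ^ 2 = 3 / 4 * π ^ 2 := by field_simp
    rw [e3]
    linarith
  have h3 : 1 / 4 * (∑ c, ((sig1 L (z c) / s) ^ 2 - sig2 L (z c) / s)) - 8 / L ^ 2 ≤
      ∑ c, (sig L (z c) / s ^ 2 - 1 / (2 * s)) := by
    simp only [Fin.sum_univ_three]
    linarith [h1 0, h1 1, h1 2]
  have h4 := mul_le_mul_of_nonneg_left h3 (th_pos hs z).le
  rw [e, tht]
  linarith

end Pool.Agent.BoseTail
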