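import Pool.Agent.Lib.MP_dec75e_mp.Loc
import Pool.Agent.Lib.MP_dec75e_mp.Om
import Pool.Agent.Lib.MP_dec75e_mp.Form

/-! Crowded particles have a large energy; uncrowded particles are few. -/

open MeasureTheory Complex Finset Filter Function
open scoped ComplexConjugate Real Topology

noncomputable section

namespace Pool.Agent.BoseTail

/-- Particle `i` has a neighbour within distance `ℓ`. -/
def crowd {N : ℕ} {L : ℝ} (ℓ : ℝ) (i : Fin N) (x : Cf N L) : ℝ :=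
  open Classical in if ∃ j, j ≠ i ∧ ‖x i - x j‖ ≤ ℓ then 1 else 0

section
variable {N : ℕ} {L : ℝ} [Fact (0 < L)]

theorem BM_crowd (ℓ : ℝ) (i : Fin N) : BM (crowd (L := L) ℓ i) := by
  classical
  have hp : MeasurableSet {x : Cf N L | ∃ j, j ≠ i ∧ ‖x i - x j‖ ≤ ℓ} := by
    rw [Set.setOf_exists]
    refine MeasurableSet.iUnion fun j => ?_
    rw [Set.setOf_and]
    refine (MeasurableSet.const _).inter (IsClosed.measurableSet ?_)
    exact isClosed_le ((continuous_apply i).sub (continuous_apply j)).norm continuous_const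
  have h := BM.ite hp (BM.const (1 : ℝ)) (BM.const (0 : ℝ))
  have e : crowd (L := L) ℓ i = fun x : Cf N L =>
      if ∃ j, j ≠ i ∧ ‖x i - x j‖ ≤ ℓ then (1 : ℝ) else 0 := by
    funext x
    unfold crowd
    congr
  rw [e]
  exact h

theorem bm_shift_crowd {u : T3 L → ℝ} (hu : BM u) (a : T3 L) : BM fun y => u (y - a) :=
  hu.comp (continuous_id.sub continuous_const).measurable

omit [Fact (0 < L)] in
theorem one_crowd {ι : Type*} (s : Finset ι) (p : ι → T3 L) {ℓ : ℝ}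
    (hs : ∀ a ∈ s, ∀ b ∈ s, a ≠ b → ℓ < ‖p a - p b‖) (y : T3 L) (c : ι → ℝ) {M : ℝ}
    (hM : 0 ≤ M) (hc : ∀ a ∈ s, ‖y - p a‖ ≤ ℓ / 2 → c a ≤ M) :
    ∑ a ∈ s, c a * nb (ℓ / 2) (y - p a) ≤ M := by
  by_cases h : ∃ a ∈ s, ‖y - p a‖ ≤ ℓ / 2
  · obtain ⟨a, ha, hy⟩ := h
    rw [Finset.sum_eq_single_of_mem a ha]
    · rw [nb, if_pos hy, mul_one]
      exact hc a ha hy
    · intro b hb hba
      rw [nb, if_neg, mul_zero]
      intro hb'
      have h1 := hs a ha b hb hba.symm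
      have h2 : p a - p b = (y - p b) - (y - p a) := by abel
      have h3 := norm_sub_le (y - p b) (y - p a)
      rw [← h2] at h3
      linarith
  · push Not at h
    rw [Finset.sum_eq_zero]
    · exact hM
    · intro a ha
      rw [nb, if_neg (not_le.2 (h a ha)), mul_zero]

theorem int_crowd {ι : Type*} (s : Finset ι) (p : ι → T3 L) {ℓ : ℝ} (hℓ : 0 < ℓ) (hL : ℓ ≤ L)
    (hs : ∀ a ∈ s, ∀ b ∈ s, a ≠ b → ℓ < ‖p a - p b‖) (c : ι → ℝ) {M : T3 L → ℝ} (hM : BM M)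
    (hM0 : ∀ y, 0 ≤ M y) (hc : ∀ y, ∀ a ∈ s, ‖y - p a‖ ≤ ℓ / 2 → c a ≤ M y) :
    (∑ a ∈ s, c a) * ℓ ^ 3 ≤ ∫ y, M y := by
  have hb : ∀ a, BM fun y => c a * nb (ℓ / 2) (y - p a) := fun a =>
    (BM.const _).mul (bm_shift_crowd (BM_nb _) _)
  have h1 : ∫ y, ∑ a ∈ s, c a * nb (ℓ / 2) (y - p a) = (∑ a ∈ s, c a) * ℓ ^ 3 := by
    rw [integral_finset_sum _ fun a _ => (hb a).integrable, Finset.sum_mul]
    refine Finset.sum_congr rfl fun a _ => ?_
    rw [integral_const_mul, integral_sub_right_eq_self (nb (ℓ / 2)) (p a),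
      integral_nb (by linarith) (by linarith)]
    ring
  rw [← h1]
  exact integral_mono (BM.sum fun a _ => hb a).integrable hM.integrable fun y =>
    one_crowd s p hs y c (hM0 y) (hc y)

/-- Separated points: at most `13³` of them in a ball of radius `6 ℓ`. -/
theorem card_sep_le {ι : Type*} (s : Finset ι) (p : ι → T3 L) {ℓ : ℝ} (hℓ : 0 < ℓ) (hL : ℓ ≤ L)
    (hs : ∀ a ∈ s, ∀ b ∈ s, a ≠ b → ℓ < ‖p a - p b‖) (z : T3 L) :
    ∑ a ∈ s, nb (6 * ℓ) (z - p a) ≤ 13 ^ 3 := by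
  have h1 := int_crowd s p hℓ hL hs (fun a => nb (6 * ℓ) (z - p a))
    (M := fun y => nb (13 * ℓ / 2) (y - z)) (bm_shift_crowd (BM_nb _) _)
    (fun y => nb_nonneg _ _) (by
      intro y a _ hy
      by_cases h : ‖z - p a‖ ≤ 6 * ℓ
      · have h2 : y - z = (y - p a) - (z - p a) := by abel
        have h3 := norm_sub_le (y - p a) (z - p a)
        rw [← h2] at h3
        have h4 : ‖y - z‖ ≤ 13 * ℓ / 2 := by linarith
        simp only [nb, if_pos h, if_pos h4, le_refl]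
      · have h4 := nb_nonneg (13 * ℓ / 2) (y - z)
        rw [nb, if_neg h]
        exact h4)
  rw [integral_sub_right_eq_self (nb (13 * ℓ / 2)) z] at h1
  have h2 := integral_nb_le (L := L) (s := 13 * ℓ / 2) (by positivity)
  have h3 : (2 * (13 * ℓ / 2)) ^ 3 = 13 ^ 3 * ℓ ^ 3 := by ring
  exact le_of_mul_le_mul_right (h1.trans (h2.trans h3.le)) (by positivity)

/-- A maximal separated subfamily. -/
theorem exists_sep {ι : Type*} (s : Finset ι) (p : ι → T3 L) {ℓ : ℝ} (hℓ : 0 < ℓ) :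
    ∃ t ⊆ s, (∀ a ∈ t, ∀ b ∈ t, a ≠ b → ℓ < ‖p a - p b‖) ∧
      ∀ a ∈ s, ∃ b ∈ t, ‖p a - p b‖ ≤ ℓ := by
  classical
  induction s using Finset.induction_on with
  | empty => exact ⟨∅, Finset.Subset.refl _, by simp, by simp⟩
  | insert a s _ ih =>
    obtain ⟨t, hts, h1, h2⟩ := ih
    by_cases h : ∃ b ∈ t, ‖p a - p b‖ ≤ ℓ
    · refine ⟨t, hts.trans (Finset.subset_insert _ _), h1, fun c hc => ?_⟩
      rcases Finset.mem_insert.1 hc with rfl | hc
      · exact h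
      · exact h2 c hc
    · push Not at h
      refine ⟨insert a t, Finset.insert_subset_insert _ hts, fun b hb c hc hbc => ?_,
        fun c hc => ?_⟩
      · rcases Finset.mem_insert.1 hb with rfl | hb' <;>
          rcases Finset.mem_insert.1 hc with rfl | hc'
        · exact absurd rfl hbc
        · exact h c hc'
        · rw [norm_sub_rev]
          exact h b hb'
        · exact h1 b hb' c hc' hbc
      · rcases Finset.mem_insert.1 hc with rfl | hc'
        · exact ⟨c, Finset.mem_insert_self _ _, by simpa using hℓ.le⟩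
        · obtain ⟨b, hb, hcb⟩ := h2 c hc'
          exact ⟨b, Finset.mem_insert_of_mem hb, hcb⟩

/-- Uncrowded particles are separated, so their weighted number is small. -/
theorem uncrowded_le {r ℓ : ℝ} (hℓ : 0 < ℓ) (hr : ℓ ≤ r) (hL : ℓ ≤ L) (y : T3 L) (x : Cf N L) :
    ∑ i, (1 - crowd ℓ i x) * om r (x i - y) ≤ 21 * 64 * r ^ 3 / ℓ ^ 3 := by
  classical
  have hr0 : 0 < r := by linarith
  have e : ∑ i, (1 - crowd ℓ i x) * om r (x i - y) =
      ∑ i ∈ univ.filter fun i => ¬∃ j, j ≠ i ∧ ‖x i - x j‖ ≤ ℓ, om r (x i - y) := by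
    rw [Finset.sum_filter]
    refine Finset.sum_congr rfl fun i _ => ?_
    by_cases h : ∃ j, j ≠ i ∧ ‖x i - x j‖ ≤ ℓ
    · rw [crowd, if_pos h, if_neg (not_not.2 h), sub_self, zero_mul]
    · rw [crowd, if_neg h, if_pos h, sub_zero, one_mul]
  have h1 := int_crowd (univ.filter fun i => ¬∃ j, j ≠ i ∧ ‖x i - x j‖ ≤ ℓ) x hℓ hL
    (fun a ha b _ hab => not_le.1 fun h => (Finset.mem_filter.1 ha).2 ⟨b, hab.symm, h⟩)
    (fun i => om r (x i - y)) (M := fun t => 21 * om r (t - y))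
    ((BM.const _).mul (bm_shift_crowd (BM.of_cont (om_c1 hr0).cont) _))
    (fun t => mul_nonneg (by norm_num) (om_pos _ _).le) (by
      intro t a _ ht
      refine om_le_mul hr0 ?_
      rw [sub_sub_sub_cancel_right, norm_sub_rev]
      linarith)
  rw [integral_const_mul, integral_sub_right_eq_self (om r) y] at h1
  have h2 := integral_om_le (L := L) hr0
  rw [e, le_div_iff₀ (by positivity)]
  linarith

theorem le_sum_crowd {ℓ : ℝ} (hℓ : 0 < ℓ) (i : Fin N) (x : Cf N L) {t : Finset (Fin N)}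
    (ht : ∀ a ∈ univ.erase i, ∃ b ∈ t, ‖x a - x b‖ ≤ ℓ) (y : T3 L) :
    crowd ℓ i (update x i y) ≤ ∑ b ∈ t, nb (2 * ℓ) (y - x b) := by
  by_cases h : ∃ j, j ≠ i ∧ ‖update x i y i - update x i y j‖ ≤ ℓ
  · rw [crowd, if_pos h]
    obtain ⟨j, hj, h⟩ := h
    rw [update_self, update_of_ne hj] at h
    obtain ⟨b, hb, hjb⟩ := ht j (Finset.mem_erase.2 ⟨hj, Finset.mem_univ _⟩)
    have h2 : y - x b = (y - x j) + (x j - x b) := by abel
    have h3 := norm_add_le (y - x j) (x j - x b)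
    rw [← h2] at h3
    have h4 : nb (2 * ℓ) (y - x b) = 1 := by
      rw [nb, if_pos (by linarith)]
    rw [← h4]
    exact Finset.single_le_sum (f := fun b => nb (2 * ℓ) (y - x b)) (fun b _ => nb_nonneg _ _) hb
  · rw [crowd, if_neg h]
    exact Finset.sum_nonneg fun b _ => nb_nonneg _ _

theorem slice_crowd {P : Par} {w : T3 L → ℝ} (hw : Wp P w) {C ℓ : ℝ} (hC : 0 ≤ C) (hℓ : 0 < ℓ)
    (hL : ℓ ≤ L)
    (H : ∀ u : T3 L → ℂ, C1T u → ∫ z, nb (2 * ℓ) z * ‖u z‖ ^ 2 ≤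
      C * ℓ ^ 3 * ((∫ z, nb (6 * ℓ) z * gT u z) + ∫ z, w z * ‖u z‖ ^ 2))
    (i : Fin N) (x : Cf N L) {u : T3 L → ℂ} (hu : C1T u) :
    ∫ y, crowd ℓ i (update x i y) * ‖u y‖ ^ 2 ≤
      C * 13 ^ 3 * ℓ ^ 3 * ((∫ y, gT u y) + ∫ y, Wi w i (update x i y) * ‖u y‖ ^ 2) := by
  obtain ⟨t, hts, h1, h2⟩ := exists_sep (univ.erase i) x hℓ
  have bu : BM fun y => ‖u y‖ ^ 2 := BM.of_cont (hu.cont.norm.pow 2)
  have bg : BM (gT u) := BM.of_cont hu.cont_gT
  have hg0 : ∀ y, 0 ≤ gT u y := fun y => Finset.sum_nonneg fun c _ => by positivity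
  have b1 : ∀ b, BM fun y => nb (2 * ℓ) (y - x b) * ‖u y‖ ^ 2 := fun b =>
    (bm_shift_crowd (BM_nb _) _).mul bu
  have b2 : ∀ b, BM fun y => nb (6 * ℓ) (y - x b) * gT u y := fun b =>
    (bm_shift_crowd (BM_nb _) _).mul bg
  have b3 : ∀ b, BM fun y => w (y - x b) * ‖u y‖ ^ 2 := fun b =>
    (bm_shift_crowd hw.bm _).mul bu
  have hup : Measurable fun y : T3 L => update x i y := measurable_update x
  have k1 : ∀ b, ∫ y, nb (2 * ℓ) (y - x b) * ‖u y‖ ^ 2 ≤ C * ℓ ^ 3 *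
      ((∫ y, nb (6 * ℓ) (y - x b) * gT u y) + ∫ y, w (y - x b) * ‖u y‖ ^ 2) := by
    intro b
    have h := H (fun z => u (z + x b)) fun c => (hu c).shift _
    have e : ∀ z, gT (fun z => u (z + x b)) z = gT u (z + x b) := fun z => by
      simp only [gT, dd_shift]
    rw [← integral_add_right_eq_self _ (x b),
      ← integral_add_right_eq_self (fun y => nb (6 * ℓ) (y - x b) * gT u y) (x b),
      ← integral_add_right_eq_self (fun y => w (y - x b) * ‖u y‖ ^ 2) (x b)]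
    simpa only [add_sub_cancel_right, e] using h
  have k2 : ∫ y, crowd ℓ i (update x i y) * ‖u y‖ ^ 2 ≤
      ∑ b ∈ t, ∫ y, nb (2 * ℓ) (y - x b) * ‖u y‖ ^ 2 := by
    rw [← integral_finset_sum _ fun b _ => (b1 b).integrable]
    refine integral_mono (((BM_crowd ℓ i).comp hup).mul bu).integrable
      (BM.sum fun b _ => b1 b).integrable fun y => ?_
    simp only [← Finset.sum_mul]
    exact mul_le_mul_of_nonneg_right (le_sum_crowd hℓ i x h2 y) (by positivity)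
  have k3 : ∑ b ∈ t, ∫ y, nb (6 * ℓ) (y - x b) * gT u y ≤ 13 ^ 3 * ∫ y, gT u y := by
    rw [← integral_finset_sum _ fun b _ => (b2 b).integrable, ← integral_const_mul]
    refine integral_mono (BM.sum fun b _ => b2 b).integrable ((BM.const _).mul bg).integrable
      fun y => ?_
    simp only [← Finset.sum_mul]
    exact mul_le_mul_of_nonneg_right (card_sep_le t x hℓ hL h1 y) (hg0 y)
  have k4 : ∑ b ∈ t, ∫ y, w (y - x b) * ‖u y‖ ^ 2 ≤
      ∫ y, Wi w i (update x i y) * ‖u y‖ ^ 2 := by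
    rw [← integral_finset_sum _ fun b _ => (b3 b).integrable]
    refine integral_mono (BM.sum fun b _ => b3 b).integrable
      (((BM.of_cont (continuous_Wi hw.cont i)).comp hup).mul bu).integrable fun y => ?_
    simp only [← Finset.sum_mul]
    refine mul_le_mul_of_nonneg_right ?_ (by positivity)
    have e : Wi w i (update x i y) = ∑ j ∈ univ.erase i, w (y - x j) := by
      refine Finset.sum_congr rfl fun j hj => ?_
      rw [update_self, update_of_ne (Finset.mem_erase.1 hj).1]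
    rw [e]
    exact Finset.sum_le_sum_of_subset_of_nonneg hts fun j _ _ => hw.nonneg _
  have k5 : 0 ≤ ∫ y, Wi w i (update x i y) * ‖u y‖ ^ 2 :=
    integral_nonneg fun y =>
      mul_nonneg (Finset.sum_nonneg fun j _ => hw.nonneg _) (by positivity)
  have k6 := Finset.sum_le_sum (s := t) fun b _ => k1 b
  rw [← Finset.mul_sum, Finset.sum_add_distrib] at k6
  have k7 : (∑ b ∈ t, ∫ y, nb (6 * ℓ) (y - x b) * gT u y) +
      ∑ b ∈ t, ∫ y, w (y - x b) * ‖u y‖ ^ 2 ≤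
      13 ^ 3 * ((∫ y, gT u y) + ∫ y, Wi w i (update x i y) * ‖u y‖ ^ 2) := by linarith
  have k8 := mul_le_mul_of_nonneg_left k7 (show 0 ≤ C * ℓ ^ 3 by positivity)
  linarith

end

/-- Crude Dyson lemma for one particle among fixed scatterers. -/
theorem dyson_crowd (P : Par) : ∃ C ℓ₀ : ℝ, 1 ≤ C ∧ 1 ≤ ℓ₀ ∧ ∀ (N : ℕ) (L : ℝ) [Fact (0 < L)]
    (w : T3 L → ℝ), Pot P w → ∀ ℓ, ℓ₀ ≤ ℓ → 8 * ℓ ≤ L → ∀ (i : Fin N) (φ : Cf N L → ℂ), IsC1 φ →
      ∫ x, crowd ℓ i x * ‖φ x‖ ^ 2 ≤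
        C * ℓ ^ 3 * ((∫ x, gP i φ x) + ∫ x, Wi w i x * ‖φ x‖ ^ 2) := by
  obtain ⟨C, ℓ₀, hC, hℓ₀, H⟩ := dyson_one P
  refine ⟨C * 13 ^ 3, ℓ₀, by linarith, hℓ₀, fun N L _ w hw ℓ h1 h2 i φ hφ => ?_⟩
  have hℓ : 0 < ℓ := by linarith
  have hL : 0 < L := Lpos
  have bφ : BM fun x => ‖φ x‖ ^ 2 := BM.of_cont (hφ.1.norm.pow 2)
  have b1 : BM fun x => crowd ℓ i x * ‖φ x‖ ^ 2 := (BM_crowd ℓ i).mul bφ
  have b2 : BM (gP i φ) := BM.of_cont (hφ.cont_gP i)
  have b3 : BM fun x => Wi w i x * ‖φ x‖ ^ 2 :=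
    (BM.of_cont (continuous_Wi hw.wp.cont i)).mul bφ
  have hin : ∀ {G : Cf N L → ℝ}, BM G → BM fun x : Cf N L => ∫ y, G (update x i y) :=
    fun hG => BM.integral_right (hG.comp (measurable_update2 i))
  have a1 := av b1 i
  have a2 := av b2 i
  have a3 := av b3 i
  have k : ∫ x : Cf N L, ∫ y, crowd ℓ i (update x i y) * ‖φ (update x i y)‖ ^ 2 ≤
      ∫ x : Cf N L, C * 13 ^ 3 * ℓ ^ 3 * ((∫ y, gP i φ (update x i y)) +
        ∫ y, Wi w i (update x i y) * ‖φ (update x i y)‖ ^ 2) := by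
    refine integral_mono (hin b1).integrable
      ((BM.const _).mul ((hin b2).add (hin b3))).integrable fun x => ?_
    have h := slice_crowd hw.wp (by linarith) hℓ (by linarith) (H L w hw ℓ h1 h2) i x
      (hφ.slice x i)
    simpa only [gT_slice] using h
  rw [integral_const_mul, integral_add (hin b2).integrable (hin b3).integrable, a1, a2, a3] at k
  simp only [RCLike.ofReal_real_eq_id, id] at k
  refine le_of_mul_le_mul_left (k.trans (le_of_eq ?_)) (show 0 < L ^ 3 by positivity)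
  ring

end Pool.Agent.BoseTail
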