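import Pool.Agent.Lib.MP_dec75e_mp.Form

/-! Calculus of the convolution `cvl`. -/

open MeasureTheory Complex Finset Filter Function
open scoped ComplexConjugate Real Topology

noncomputable section

namespace Pool.Agent.BoseTail

variable {N : ℕ} {L : ℝ} [Fact (0 < L)] {o j : Fin N} {φ ψ : Cf N L → ℂ}

section cvl
variable {κ : T3 L → ℂ}

omit [Fact (0 < L)] in
theorem upd_cvl (x : Cf N L) (o : Fin N) (z : T3 L) :
    update x o (x o - z) = x - Pi.single o z := by
  funext l
  by_cases h : l = o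
  · subst h; simp
  · simp [h]

theorem cont_shift_cvl (hφ : Continuous φ) (o : Fin N) :
    Continuous (uncurry fun (x : Cf N L) (z : T3 L) => φ (update x o (x o - z))) :=
  hφ.comp ((continuous_update2 o).comp
    (continuous_fst.prodMk (((continuous_apply o).comp continuous_fst).sub continuous_snd)))

theorem bm_shift_cvl (hκ : BM κ) (hφ : Continuous φ) (o : Fin N) :
    BM (uncurry fun (x : Cf N L) (z : T3 L) => κ z * φ (update x o (x o - z))) :=
  (hκ.comp measurable_snd).mul (BM.of_cont (cont_shift_cvl hφ o))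

theorem bm_slice_cvl (hφ : Continuous φ) (o : Fin N) (x : Cf N L) :
    BM (fun z : T3 L => φ (update x o (x o - z))) :=
  BM.of_cont ((cont_shift_cvl hφ o).comp (Continuous.prodMk_right x))

theorem continuous_cvl (hκ : BM κ) (hφ : Continuous φ) (o : Fin N) :
    Continuous (cvl o κ φ) :=
  continuous_param hκ (cont_shift_cvl hφ o)

theorem cvl_eq (κ : T3 L → ℂ) (φ : Cf N L → ℂ) (o : Fin N) (x : Cf N L) :
    cvl o κ φ x = ∫ y, κ (x o - y) * φ (update x o y) := by
  rw [← integral_sub_left_eq_self (fun y => κ (x o - y) * φ (update x o y)) volume (x o)]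
  simp only [sub_sub_cancel, cvl]

/-- Derivatives fall on the function. -/
theorem dd_cvl (hκ : BM κ) {i : Fin N} {c : Fin 3} (hφ : D1 (dir i c) φ) (o : Fin N) :
    D1 (dir i c) (cvl o κ φ) ∧ dd (dir i c) (cvl o κ φ) = cvl o κ (dd (dir i c) φ) := by
  have h : ∀ (x : Cf N L) (z : T3 L), HasDerivAt (fun s : ℝ =>
      φ (update (x + dir i c s) o ((x + dir i c s : Cf N L) o - z)))
      (dd (dir i c) φ (update x o (x o - z))) 0 := fun x z => by
    simp only [upd_cvl, add_sub_right_comm]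
    exact hφ.hd _
  refine ⟨D1.param (dir_dir i c) hκ (cont_shift_cvl hφ.cont o) (cont_shift_cvl hφ.cdd o) h,
    funext fun x => dd_eq ?_⟩
  exact hd_param (dir_dir i c) hκ (cont_shift_cvl hφ.cont o) (cont_shift_cvl hφ.cdd o) h x

theorem IsC1.cvl (hκ : BM κ) (hφ : IsC1 φ) (o : Fin N) : IsC1 (cvl o κ φ) :=
  ⟨continuous_cvl hκ hφ.1 o, fun i c => (dd_cvl hκ (hφ.2 i c) o).1⟩

/-- Derivatives in `x_o` fall on the kernel. -/
theorem dd_cvl_ker {c : Fin 3} (hκ : D1 (d1 c) κ) (hφ : Continuous φ) (o : Fin N) :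
    D1 (dir o c) (cvl o κ φ) ∧ dd (dir o c) (cvl o κ φ) = cvl o (dd (d1 c) κ) φ := by
  have e : ∀ k : T3 L → ℂ, cvl o k φ = fun x => ∫ y, (fun _ => (1 : ℂ)) y *
      (k (x o - y) * φ (update x o y)) := fun k => funext fun x => by
    simp only [cvl_eq, one_mul]
  have hc : ∀ k : T3 L → ℂ, Continuous k → Continuous (uncurry fun (x : Cf N L) (y : T3 L) =>
      k (x o - y) * φ (update x o y)) := fun k hk =>
    (hk.comp (((continuous_apply o).comp continuous_fst).sub continuous_snd)).mul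
      (hφ.comp (continuous_update2 o))
  have h : ∀ (x : Cf N L) (y : T3 L), HasDerivAt (fun s : ℝ =>
      κ ((x + dir o c s : Cf N L) o - y) * φ (update (x + dir o c s) o y))
      (dd (d1 c) κ (x o - y) * φ (update x o y)) 0 := fun x y => by
    simp only [add_dir_self, update_add_dir_self, add_sub_right_comm]
    exact (hκ.hd _).mul_const _
  rw [e κ, e (dd (d1 c) κ)]
  refine ⟨D1.param (dir_dir o c) (BM.const 1) (hc _ hκ.cont) (hc _ hκ.cdd) h,
    funext fun x => dd_eq ?_⟩
  exact hd_param (dir_dir o c) (BM.const 1) (hc _ hκ.cont) (hc _ hκ.cdd) h x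

theorem rip_swap_cvl (hκ : BM κ) (hφ : Continuous φ) (hψ : Continuous ψ) (o : Fin N) :
    rip φ (cvl o κ ψ) = ∫ z, ∫ x, ip (φ x) (κ z * ψ (x - Pi.single o z)) := by
  have h1 : ∀ x, ip (φ x) (cvl o κ ψ x) = ∫ z, ip (φ x) (κ z * ψ (update x o (x o - z))) :=
    fun x => (integral_ip_right (hκ.mul (bm_slice_cvl hψ o x))).symm
  have h2 := BM.swap (μ := volume) (ν := volume)
    (Φ := fun (x : Cf N L) (z : T3 L) => ip (φ x) (κ z * ψ (update x o (x o - z))))
    (BM.ip ((BM.of_cont hφ).comp measurable_fst) (bm_shift_cvl hκ hψ o))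
  rw [rip]
  simp only [h1]
  rw [h2]
  simp only [upd_cvl]

/-- The adjoint of a convolution. -/
theorem rip_cvl (hκ : BM κ) (hφ : Continuous φ) (hψ : Continuous ψ) (o : Fin N) :
    rip φ (cvl o κ ψ) = rip (cvl o (fun z => conj (κ (-z))) φ) ψ := by
  have e : rip (cvl o (fun z => conj (κ (-z))) φ) ψ = rip ψ (cvl o (fun z => conj (κ (-z))) φ) := by
    simp only [rip, ip_comm]
  rw [e, rip_swap_cvl hκ hφ hψ, rip_swap_cvl (hκ.comp measurable_neg).conj hψ hφ,
    ← integral_neg_eq_self]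
  refine integral_congr_ae (Eventually.of_forall fun z => ?_)
  beta_reduce
  rw [← integral_sub_right_eq_self _ (Pi.single o z : Cf N L)]
  refine integral_congr_ae (Eventually.of_forall fun x => ?_)
  beta_reduce
  rw [Pi.single_neg, sub_neg_eq_add, sub_add_cancel, ip_mul_right, ip_comm]

/-- Functions that do not depend on `x_o` commute with the convolution. -/
theorem cvl_mul {G : Cf N L → ℝ} (hGo : ∀ x y, G (update x o y) = G x) (κ : T3 L → ℂ)
    (φ : Cf N L → ℂ) : cvl o κ (mul G φ) = mul G (cvl o κ φ) := by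
  funext x
  simp only [cvl, mul, hGo]
  rw [← integral_const_mul]
  simp only [mul_left_comm]

/-- Young's inequality. -/
theorem nsq_cvl_le (hκ : BM κ) (hφ : Continuous φ) (o : Fin N) :
    nsq (cvl o κ φ) ≤ (∫ z, ‖κ z‖) ^ 2 * nsq φ := by
  have hb : BM (uncurry fun (x : Cf N L) (z : T3 L) =>
      ‖κ z‖ * ‖φ (update x o (x o - z))‖ ^ 2) :=
    (hκ.comp measurable_snd).norm.mul ((BM.of_cont (cont_shift_cvl hφ o)).norm.pow 2)
  have h1 : nsq (cvl o κ φ) ≤
      ∫ x, (∫ z, ‖κ z‖) * ∫ z, ‖κ z‖ * ‖φ (update x o (x o - z))‖ ^ 2 :=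
    integral_mono (cont_integrable ((continuous_cvl hκ hφ o).norm.pow 2))
      (hb.integral_right.integrable.const_mul _) fun x => jensen_wt' hκ (bm_slice_cvl hφ o x)
  refine h1.trans_eq ?_
  rw [integral_const_mul, hb.swap, sq, mul_assoc]
  congr 1
  rw [← integral_mul_const]
  refine integral_congr_ae (Eventually.of_forall fun z => ?_)
  beta_reduce
  rw [integral_const_mul, nsq]
  simp only [upd_cvl]
  rw [integral_sub_right_eq_self (fun x => ‖φ x‖ ^ 2)]

theorem cvl_add_ker {κ' : T3 L → ℂ} (hκ : BM κ) (hκ' : BM κ') (hφ : Continuous φ) (o : Fin N)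
    (a b : ℂ) (x : Cf N L) :
    cvl o (fun z => a * κ z + b * κ' z) φ x = a * cvl o κ φ x + b * cvl o κ' φ x := by
  simp only [cvl, add_mul, mul_assoc]
  rw [integral_add ((hκ.mul (bm_slice_cvl hφ o x)).integrable.const_mul a)
    ((hκ'.mul (bm_slice_cvl hφ o x)).integrable.const_mul b), integral_const_mul,
    integral_const_mul]

theorem cvl_lap (hκ : C2T κ) (hφ : Continuous φ) (o : Fin N) (x : Cf N L) :
    cvl o (lapT κ) φ x = ∑ c, cvl o (dd (d1 c) (dd (d1 c) κ)) φ x := by
  simp only [cvl, lapT, Finset.sum_mul]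
  exact integral_finsetSum _ fun c _ =>
    ((BM.of_cont (hκ c).2.cdd).mul (bm_slice_cvl hφ o x)).integrable

end cvl

end Pool.Agent.BoseTail
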