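import Mathlib

/-! Definitions used in the statement: N bosons on the three-dimensional torus of side L. -/

open MeasureTheory Complex
open scoped ComplexConjugate Real

noncomputable section

namespace Pool.Agent.BoseTail

/-- Euclidean three-space. -/
abbrev E3 : Type := EuclideanSpace ℝ (Fin 3)

/-- The periodic box of side `L`. -/
abbrev T3 (L : ℝ) : Type := Fin 3 → AddCircle L

/-- Configurations of `N` particles in the periodic box. -/
abbrev Cf (N : ℕ) (L : ℝ) : Type := Fin N → T3 L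

/-- Derivative at `x` along the one-parameter family of shifts `e`. -/
def dd {G F : Type*} [Add G] [NormedAddCommGroup F] [NormedSpace ℝ F]
    (e : ℝ → G) (φ : G → F) (x : G) : F :=
  deriv (fun s : ℝ => φ (x + e s)) 0

/-- `φ` is continuous and has a continuous derivative along the shifts `e`. -/
structure D1 {G F : Type*} [Add G] [TopologicalSpace G] [NormedAddCommGroup F] [NormedSpace ℝ F]
    (e : ℝ → G) (φ : G → F) : Prop where
  cont : Continuous φ
  diff : ∀ x, DifferentiableAt ℝ (fun s : ℝ => φ (x + e s)) 0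
  cdd : Continuous (dd e φ)

/-- Shift by `s` in the coordinate direction `c` of the box. -/
def d1 {L : ℝ} (c : Fin 3) (s : ℝ) : T3 L := Pi.single c (s : AddCircle L)

/-- Shift of particle `i` by `s` in the coordinate direction `c`. -/
def dir {N : ℕ} {L : ℝ} (i : Fin N) (c : Fin 3) (s : ℝ) : Cf N L := Pi.single i (d1 c s)

/-- Continuous with continuous first-order derivatives in all `3N` coordinates. -/
def IsC1 {N : ℕ} {L : ℝ} {F : Type*} [NormedAddCommGroup F] [NormedSpace ℝ F]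
    (φ : Cf N L → F) : Prop :=
  Continuous φ ∧ ∀ i c, D1 (dir i c) φ

variable {N : ℕ} {L : ℝ} [Fact (0 < L)]

/-- The representative in `[-L/2, L/2)^3` of a point of the periodic box. -/
def rep (x : T3 L) : E3 :=
  WithLp.toLp 2 fun c => (AddCircle.equivIco L (-(L / 2)) (x c) : ℝ)

/-- The periodised potential. -/
def vper (v : E3 → ℝ) (x : T3 L) : ℝ :=
  ∑' n : Fin 3 → ℤ, v (rep x + WithLp.toLp 2 fun c => L * (n c : ℝ))

/-- The energy `⟨φ, H_N φ⟩` as a quadratic form. -/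
def energy (v : E3 → ℝ) (φ : Cf N L → ℂ) : ℝ :=
  (1 / 2) * (∑ i, ∑ c, ∫ x, ‖dd (dir i c) φ x‖ ^ 2) +
    ∫ x, (∑ i, ∑ j, if i < j then vper v (x i - x j) else 0) * ‖φ x‖ ^ 2

/-- Normalised, symmetric, continuously differentiable wave functions. -/
def Adm (φ : Cf N L → ℂ) : Prop :=
  IsC1 φ ∧ (∀ (σ : Equiv.Perm (Fin N)) (x : Cf N L), φ (x ∘ σ) = φ x) ∧ ∫ x, ‖φ x‖ ^ 2 = 1

/-- A ground state: an admissible wave function of least energy. -/
def IsGround (v : E3 → ℝ) (ψ : Cf N L → ℂ) : Prop :=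
  Adm ψ ∧ ∀ φ : Cf N L → ℂ, Adm φ → energy v ψ ≤ energy v φ

/-- The momentum `k = 2 π n / L`. -/
def kvec (L : ℝ) (n : Fin 3 → ℤ) : E3 := WithLp.toLp 2 fun c => 2 * π * (n c : ℝ) / L

/-- The plane wave `exp (i k ⬝ y)` with `k = 2 π n / L`. -/
def wave (n : Fin 3 → ℤ) (y : T3 L) : ℂ := ∏ c, fourier (n c) (y c)

/-- The operator `K_i(k)`. -/
def Kop (i : Fin N) (n : Fin 3 → ℤ) (ψ : Cf N L → ℂ) (x : Cf N L) : ℂ :=
  wave n (x i) * ∫ y, conj (wave n y) * ψ (Function.update x i y)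

/-- The finite-volume momentum distribution `(1/N) ∑_i ⟨ψ, K_i(k) ψ⟩`. -/
def Mom (ψ : Cf N L → ℂ) (n : Fin 3 → ℤ) : ℝ :=
  (1 / (N : ℝ)) * ∑ i, (∫ x, conj (ψ x) * Kop i n ψ x).re

/-- Bogolyubov's function `g`. -/
def gB (t : ℝ) : ℝ := (1 + t ^ 2) / (t * √(t ^ 2 + 2)) - 1

/-- The window `|ĥ((k - k₀)/δ)|²` in momentum space. -/
def wt (h : E3 → ℝ) (k₀ : E3) (δ : ℝ) (k : E3) : ℝ :=
  ‖∫ z : E3, (h z : ℂ) * cexp (-I * (inner ℝ (δ⁻¹ • (k - k₀)) z : ℝ))‖ ^ 2

end Pool.Agent.BoseTail
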