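import Pool.Agent.Lib.MP_dec75e_mp.Stab

/-! Exponential moments of the local particle number. -/

open MeasureTheory Complex Finset Filter Function
open scoped ComplexConjugate Real Topology

noncomputable section

namespace Pool.Agent.BoseTail

section aux
variable {N : ℕ} {L : ℝ} [Fact (0 < L)]

theorem nom_nonneg_mom (r : ℝ) (y : T3 L) (x : Cf N L) : 0 ≤ nom r y x :=
  Finset.sum_nonneg fun _ _ => (om_pos r _).le

theorem nom_c1_mom {r : ℝ} (hr : 0 < r) (y : T3 L) : IsC1 (nom (N := N) r y) :=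
  IsC1.sum (s := univ) (f := fun (i : Fin N) (x : Cf N L) => om r (x i - y))
    fun i _ => (om_c1 hr).one i y

theorem dd_nom_mom {r : ℝ} (hr : 0 < r) (y : T3 L) (i : Fin N) (c : Fin 3) (x : Cf N L) :
    dd (dir i c) (nom r y) x = dd (d1 c) (om r) (x i - y) := by
  have h := dd_sum (e := dir i c) (s := univ)
    (f := fun (l : Fin N) (x : Cf N L) => om r (x l - y))
    (fun l _ => ((om_c1 hr).one l y).2 i c) x
  have h2 : ∀ l : Fin N, dd (dir i c) (fun x : Cf N L => om r (x l - y)) x =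
      if i = l then dd (d1 c) (om r) (x l - y) else 0 := fun l => dd_one l i y c x
  simp only [h2, Finset.sum_ite_eq, Finset.mem_univ, if_true] at h
  exact h

theorem hd_exp_mom (r t : ℝ) :
    HasDerivAt (fun u : ℝ => Real.exp (u / (2 * r))) (Real.exp (t / (2 * r)) * (1 / (2 * r))) t :=
  ((hasDerivAt_id t).div_const (2 * r)).exp

theorem expF_c1_mom {r : ℝ} (hr : 0 < r) (y : T3 L) :
    IsC1 (fun x : Cf N L => Real.exp (nom r y x / (2 * r))) := by
  have hc : Continuous (nom (N := N) r y) := (nom_c1_mom hr y).1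
  refine ⟨by fun_prop, fun i c => ?_⟩
  exact D1.comp (dir_dir i c) (g := fun u : ℝ => Real.exp (u / (2 * r)))
    (g' := fun t => Real.exp (t / (2 * r)) * (1 / (2 * r))) ((nom_c1_mom hr y).2 i c)
    (fun x => hd_exp_mom r _) (by fun_prop)

theorem expF_sq_mom (r u : ℝ) : Real.exp (u / (2 * r)) ^ 2 = Real.exp (u / r) := by
  rw [sq, ← Real.exp_add]
  congr 1
  ring

theorem gP_expF_mom {r ρ : ℝ} (hr : 0 < r) (hρ : r ^ 2 * ρ = 1) (hρ1 : ρ ≤ 1) (y : T3 L)
    (i : Fin N) (x : Cf N L) :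
    gP i (fun x : Cf N L => Real.exp (nom r y x / (2 * r))) x ≤
      3 / 4 * ρ * om r (x i - y) * Real.exp (nom r y x / r) := by
  have hρ0 : 0 < ρ := by
    by_contra h
    have : r ^ 2 * ρ ≤ 0 := mul_nonpos_of_nonneg_of_nonpos (sq_nonneg r) (not_lt.1 h)
    linarith
  have hρe : ρ = 1 / r ^ 2 := by
    field_simp
    linarith
  have h1 : ∀ c : Fin 3,
      ‖dd (dir i c) (fun x : Cf N L => Real.exp (nom r y x / (2 * r))) x‖ ^ 2 ≤
        1 / 4 * ρ * om r (x i - y) * Real.exp (nom r y x / r) := by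
    intro c
    have hd := dd_comp (dir_dir i c) (g := fun u : ℝ => Real.exp (u / (2 * r)))
      (g' := fun t => Real.exp (t / (2 * r)) * (1 / (2 * r))) ((nom_c1_mom hr y).2 i c)
      (fun x => hd_exp_mom r _) x
    rw [hd, dd_nom_mom hr, Real.norm_eq_abs, sq_abs, mul_pow, mul_pow, expF_sq_mom]
    have hg := om_grad hr c (x i - y)
    have ho := om_pos r (x i - y)
    have ho1 := om_le_one r (x i - y)
    have hg2 : dd (d1 c) (om r) (x i - y) ^ 2 ≤ (om r (x i - y) / r) ^ 2 := by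
      rw [← sq_abs]
      exact pow_le_pow_left₀ (abs_nonneg _) hg 2
    have hE := Real.exp_pos (nom r y x / r)
    have h3 : (1 / (2 * r)) ^ 2 * (om r (x i - y) / r) ^ 2 =
        1 / 4 * (ρ * ρ) * (om r (x i - y) * om r (x i - y)) := by
      rw [hρe]
      field_simp
      ring
    have h4 : ρ * ρ ≤ ρ := by nlinarith
    have h5 : om r (x i - y) * om r (x i - y) ≤ om r (x i - y) := by nlinarith
    have h6 : (ρ * ρ) * (om r (x i - y) * om r (x i - y)) ≤ ρ * om r (x i - y) :=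
      mul_le_mul h4 h5 (by positivity) hρ0.le
    calc Real.exp (nom r y x / r) * (1 / (2 * r)) ^ 2 * dd (d1 c) (om r) (x i - y) ^ 2
        ≤ Real.exp (nom r y x / r) * (1 / (2 * r)) ^ 2 * (om r (x i - y) / r) ^ 2 :=
          mul_le_mul_of_nonneg_left hg2 (by positivity)
      _ = Real.exp (nom r y x / r) *
            (1 / 4 * ((ρ * ρ) * (om r (x i - y) * om r (x i - y)))) := by
          rw [mul_assoc, h3]; ring
      _ ≤ Real.exp (nom r y x / r) * (1 / 4 * (ρ * om r (x i - y))) := by gcongr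
      _ = _ := by ring
  unfold gP
  calc _ ≤ ∑ _c : Fin 3, 1 / 4 * ρ * om r (x i - y) * Real.exp (nom r y x / r) :=
        Finset.sum_le_sum fun c _ => h1 c
    _ = _ := by simp; ring

theorem exp_pt_mom {C u : ℝ} (hC : 1 ≤ C) (hu : 0 ≤ u) :
    Real.exp u ≤ (3 * u - C) * Real.exp u + (1 + C) * Real.exp ((C + 1) / 3) := by
  have hE := Real.exp_pos u
  have hK := Real.exp_pos ((C + 1) / 3)
  by_cases h : 1 ≤ 3 * u - C
  · nlinarith
  · have h1 : Real.exp u ≤ Real.exp ((C + 1) / 3) := Real.exp_le_exp.2 (by linarith)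
    nlinarith

end aux

theorem exp_moment (P : Par) : ∃ C ρ₀ : ℝ, 1 ≤ C ∧ 0 < ρ₀ ∧ ρ₀ ≤ 1 ∧ ∀ (N : ℕ) (L : ℝ)
    [Fact (0 < L)] (w : T3 L → ℝ) (ψ : Cf N L → ℂ), Setup P w ψ → rho N L ≤ ρ₀ → ∀ r, 0 < r →
      r ^ 2 * rho N L = 1 → ∀ y : T3 L,
        ∫ x, Real.exp (nom r y x / r) * ‖ψ x‖ ^ 2 ≤ C := by
  obtain ⟨C, ρ₀, hC, hρ₀, H⟩ := superstable P
  have hK : 1 ≤ Real.exp ((C + 1) / 3) := Real.one_le_exp (by linarith)
  refine ⟨(1 + C) * Real.exp ((C + 1) / 3), min ρ₀ 1, by nlinarith, lt_min hρ₀ one_pos,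
    min_le_right _ _, ?_⟩
  intro N L _ w ψ hS hρ r hr hrρ y
  have hρ0 : 0 < rho N L := hS.basic.1
  have hρ1 : rho N L ≤ 1 := hρ.trans (min_le_right _ _)
  have hF := expF_c1_mom (N := N) hr y
  have hψ : Continuous ψ := hS.gs.c1.1
  have hn : Continuous (nom (N := N) r y) := (nom_c1_mom hr y).1
  have hom : Continuous (om (L := L) r) := (om_c1 hr).cont
  have h1 := H N L w ψ hS (hρ.trans (min_le_left _ _)) r hr hrρ y _ (hF.mul hS.gs.c1)
  rw [GS.ims hS.pot.wp.cont hS.gs hF] at h1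
  have hm : ∀ x : Cf N L,
      ‖mul (fun x : Cf N L => Real.exp (nom r y x / (2 * r))) ψ x‖ ^ 2 =
        Real.exp (nom r y x / r) * ‖ψ x‖ ^ 2 := by
    intro x
    simp only [mul, norm_mul, mul_pow, Complex.norm_real, Real.norm_eq_abs, sq_abs, expF_sq_mom]
  simp only [hm] at h1
  have h2 : ∑ i, ∫ x, gP i (fun x : Cf N L => Real.exp (nom r y x / (2 * r))) x * ‖ψ x‖ ^ 2 ≤
      ∫ x, 3 / 4 * rho N L * nom r y x * (Real.exp (nom r y x / r) * ‖ψ x‖ ^ 2) := by
    have hc : ∀ i : Fin N, Continuous fun x : Cf N L =>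
        gP i (fun x : Cf N L => Real.exp (nom r y x / (2 * r))) x * ‖ψ x‖ ^ 2 := fun i =>
      (hF.cont_gP i).mul (by fun_prop)
    rw [← integral_finsetSum _ fun i _ => cont_integrable (hc i)]
    refine integral_mono (cont_integrable (continuous_finsetSum _ fun i _ => hc i))
      (cont_integrable (by fun_prop)) fun x => ?_
    calc ∑ i, gP i (fun x : Cf N L => Real.exp (nom r y x / (2 * r))) x * ‖ψ x‖ ^ 2
        ≤ ∑ i, 3 / 4 * rho N L * om r (x i - y) * Real.exp (nom r y x / r) * ‖ψ x‖ ^ 2 :=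
          Finset.sum_le_sum fun i _ =>
            mul_le_mul_of_nonneg_right (gP_expF_mom hr hrρ hρ1 y i x) (by positivity)
      _ = 3 / 4 * rho N L * nom r y x * (Real.exp (nom r y x / r) * ‖ψ x‖ ^ 2) := by
          rw [← Finset.sum_mul, ← Finset.sum_mul, ← Finset.mul_sum, mul_assoc]
          rfl
  have h3 : ∫ x, rho N L * r * ((3 * (nom r y x / r) - C) *
      (Real.exp (nom r y x / r) * ‖ψ x‖ ^ 2)) ≤ 0 := by
    have h4 : ∫ x, rho N L * r * ((3 * (nom r y x / r) - C) *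
        (Real.exp (nom r y x / r) * ‖ψ x‖ ^ 2)) ≤
        ∫ x, ((4 * rho N L * nom r y x - C * rho N L ^ 2 * r ^ 3) *
          (Real.exp (nom r y x / r) * ‖ψ x‖ ^ 2) -
          1 / 2 * (3 / 4 * rho N L * nom r y x * (Real.exp (nom r y x / r) * ‖ψ x‖ ^ 2))) := by
      refine integral_mono (cont_integrable (by fun_prop)) (cont_integrable (by fun_prop))
        fun x => ?_
      have hx := nom_nonneg_mom r y x
      have hG : 0 ≤ Real.exp (nom r y x / r) * ‖ψ x‖ ^ 2 := by positivity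
      have e1 : rho N L ^ 2 * r ^ 3 = rho N L * r := by
        calc rho N L ^ 2 * r ^ 3 = (r ^ 2 * rho N L) * (rho N L * r) := by ring
          _ = _ := by rw [hrρ, one_mul]
      have e2 : rho N L * r * (3 * (nom r y x / r) - C) =
          3 * rho N L * nom r y x - C * (rho N L * r) := by
        field_simp
      have e3 : 0 ≤ rho N L * nom r y x * (Real.exp (nom r y x / r) * ‖ψ x‖ ^ 2) := by positivity
      simp only
      rw [← mul_assoc, e2, mul_assoc C, e1]
      nlinarith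
    rw [integral_sub (cont_integrable (by fun_prop)) (cont_integrable (by fun_prop)),
      integral_const_mul (1 / 2 : ℝ)] at h4
    linarith
  rw [integral_const_mul] at h3
  have h5 : ∫ x, (3 * (nom r y x / r) - C) * (Real.exp (nom r y x / r) * ‖ψ x‖ ^ 2) ≤ 0 := by
    by_contra h
    have := mul_pos (mul_pos hρ0 hr) (not_le.1 h)
    linarith
  have h6 : ∫ x, Real.exp (nom r y x / r) * ‖ψ x‖ ^ 2 ≤
      ∫ x, ((3 * (nom r y x / r) - C) * (Real.exp (nom r y x / r) * ‖ψ x‖ ^ 2) +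
        (1 + C) * Real.exp ((C + 1) / 3) * ‖ψ x‖ ^ 2) := by
    refine integral_mono (cont_integrable (by fun_prop)) (cont_integrable (by fun_prop))
      fun x => ?_
    have hp := exp_pt_mom hC (div_nonneg (nom_nonneg_mom r y x) hr.le)
    have := mul_le_mul_of_nonneg_right hp (sq_nonneg ‖ψ x‖)
    simp only
    linarith
  rw [integral_add (cont_integrable (by fun_prop)) (cont_integrable (by fun_prop)),
    integral_const_mul ((1 + C) * Real.exp ((C + 1) / 3))] at h6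
  have h7 : ∫ x, ‖ψ x‖ ^ 2 = 1 := hS.gs.nrm
  rw [h7] at h6
  linarith

/-- Second and third mixed moments; note `ρ r³ = r`. -/
theorem moments (P : Par) : ∃ C ρ₀ : ℝ, 1 ≤ C ∧ 0 < ρ₀ ∧ ρ₀ ≤ 1 ∧ ∀ (N : ℕ) (L : ℝ)
    [Fact (0 < L)] (w : T3 L → ℝ) (ψ : Cf N L → ℂ), Setup P w ψ → rho N L ≤ ρ₀ → ∀ r, 0 < r →
      r ^ 2 * rho N L = 1 → ∀ y : T3 L,
        ∫ x, nom r y x ^ 2 * ‖ψ x‖ ^ 2 ≤ C * r ^ 2 ∧
        ∫ x, nom r y x ^ 3 * ‖ψ x‖ ^ 2 ≤ C * r ^ 3 := by
  obtain ⟨C, ρ₀, hC, hρ₀, hρ₁, H⟩ := exp_moment P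
  refine ⟨6 * C, ρ₀, by linarith, hρ₀, hρ₁, ?_⟩
  intro N L _ w ψ hS hρ r hr hrρ y
  have h1 := H N L w ψ hS hρ r hr hrρ y
  have hψ : Continuous ψ := hS.gs.c1.1
  have hn : Continuous (nom (N := N) r y) := (nom_c1_mom hr y).1
  have key : ∀ k : ℕ, (k.factorial : ℝ) ≤ 6 →
      ∫ x, nom r y x ^ k * ‖ψ x‖ ^ 2 ≤ 6 * C * r ^ k := by
    intro k hk
    have h2 : ∫ x, nom r y x ^ k * ‖ψ x‖ ^ 2 ≤
        ∫ x, 6 * r ^ k * (Real.exp (nom r y x / r) * ‖ψ x‖ ^ 2) := by
      refine integral_mono (cont_integrable (by fun_prop)) (cont_integrable (by fun_prop))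
        fun x => ?_
      have hu : 0 ≤ nom r y x / r := div_nonneg (nom_nonneg_mom r y x) hr.le
      have h3 := Real.pow_div_factorial_le_exp _ hu k
      have hf : (0 : ℝ) < k.factorial := by exact_mod_cast k.factorial_pos
      rw [div_le_iff₀ hf, div_pow, div_le_iff₀ (pow_pos hr k)] at h3
      have hE := Real.exp_pos (nom r y x / r)
      have h4 : Real.exp (nom r y x / r) * k.factorial * r ^ k ≤
          Real.exp (nom r y x / r) * 6 * r ^ k := by gcongr
      have h5 := mul_le_mul_of_nonneg_right (h3.trans h4) (sq_nonneg ‖ψ x‖)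
      simp only
      linarith
    rw [integral_const_mul] at h2
    have h6 : 6 * r ^ k * ∫ x, Real.exp (nom r y x / r) * ‖ψ x‖ ^ 2 ≤ 6 * r ^ k * C :=
      mul_le_mul_of_nonneg_left h1 (by positivity)
    linarith
  exact ⟨key 2 (by norm_num [Nat.factorial]), key 3 (by norm_num [Nat.factorial])⟩

end Pool.Agent.BoseTail
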