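import Pool.Agent.Lib.MP_dec75e_mp.Gsy

/-! Symmetry: the symmetric minimiser minimises among all functions; one-particle identities. -/

open MeasureTheory Complex Finset Filter Function
open scoped ComplexConjugate Real Topology

noncomputable section

namespace Pool.Agent.BoseTail

variable {N : ℕ} {L : ℝ} [Fact (0 < L)] {P : Par} {w : T3 L → ℝ} {ψ : Cf N L → ℂ}

theorem sum_erase_perm_sym {M : Type*} [AddCommMonoid M] (σ : Equiv.Perm (Fin N)) (o : Fin N)
    (f : Fin N → M) : ∑ j ∈ univ.erase o, f (σ j) = ∑ j ∈ univ.erase (σ o), f j := by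
  have h : (univ.erase o).map σ.toEmbedding = univ.erase (σ o) := by
    rw [Finset.map_erase, Finset.map_univ_equiv]; rfl
  rw [← h, Finset.sum_map]; rfl

theorem sum_erase2_perm_sym {M : Type*} [AddCommMonoid M] (σ : Equiv.Perm (Fin N)) (o j : Fin N)
    (f : Fin N → M) :
    ∑ l ∈ (univ.erase o).erase j, f (σ l) = ∑ l ∈ (univ.erase (σ o)).erase (σ j), f l := by
  have h : ((univ.erase o).erase j).map σ.toEmbedding = (univ.erase (σ o)).erase (σ j) := by
    rw [Finset.map_erase, Finset.map_erase, Finset.map_univ_equiv]; rfl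
  rw [← h, Finset.sum_map]; rfl

/-- Expectations are invariant under permutations. -/
theorem GS.perm (h : GS w ψ) (G : Cf N L → ℝ) (σ : Equiv.Perm (Fin N)) :
    ∫ x, G (x ∘ σ) * ‖ψ x‖ ^ 2 = ∫ x, G x * ‖ψ x‖ ^ 2 := by
  rw [← integral_perm (𝕜 := ℝ) (fun x => G x * ‖ψ x‖ ^ 2) σ]
  simp only [h.sym]

theorem GS.gP_perm (h : GS w ψ) (σ : Equiv.Perm (Fin N)) (i : Fin N) (x : Cf N L) :
    gP i ψ (x ∘ σ) = gP (σ i) ψ x := by
  unfold gP
  refine Finset.sum_congr rfl fun c _ => ?_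
  have h1 := dd_perm ψ σ (σ i) c x
  have h2 : (fun x : Cf N L => ψ (x ∘ σ)) = ψ := funext fun x => h.sym σ x
  rw [h2, Equiv.symm_apply_apply] at h1
  rw [h1]

/-- The energy per particle. -/
theorem GS.energy_one (hw : Wp P w) (h : GS w ψ) (o : Fin N) :
    2 * ES w univ ψ = N * ((∫ x, gP o ψ x) + ∫ x, Wi w o x * ‖ψ x‖ ^ 2) := by
  have hk : ∀ i, ∫ x, gP i ψ x = ∫ x, gP o ψ x := fun i => by
    rw [← integral_perm (𝕜 := ℝ) (fun x => gP o ψ x) (Equiv.swap o i)]
    simp only [h.gP_perm, Equiv.swap_apply_left]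
  have hp : ∀ i, ∫ x, Wi w i x * ‖ψ x‖ ^ 2 = ∫ x, Wi w o x * ‖ψ x‖ ^ 2 := fun i => by
    rw [← h.perm (Wi w o) (Equiv.swap o i)]
    congr 1
    funext x
    congr 1
    unfold Wi
    have := sum_erase_perm_sym (Equiv.swap o i) o fun j => w (x i - x j)
    simp only [Equiv.swap_apply_left] at this
    simp only [Function.comp_apply, Equiv.swap_apply_left]
    exact this.symm
  have hU : ∫ x, US w univ x * ‖ψ x‖ ^ 2 = (1 / 2) * ∑ i, ∫ x, Wi w i x * ‖ψ x‖ ^ 2 := by
    have hc : ∀ i, Continuous fun x => Wi w i x * ‖ψ x‖ ^ 2 := fun i =>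
      (continuous_Wi hw.cont i).mul (h.c1.1.norm.pow 2)
    rw [← integral_finsetSum _ fun i _ => cont_integrable (hc i), ← integral_const_mul]
    congr 1
    funext x
    rw [US_univ, mul_assoc, Finset.sum_mul]
  unfold ES
  rw [hU, Finset.sum_congr rfl fun i _ => hk i, Finset.sum_congr rfl fun i _ => hp i]
  simp only [Finset.sum_const, card_univ, Fintype.card_fin, nsmul_eq_mul]
  ring

/-- Crude bounds. -/
theorem GS.energy_le (hw : Wp P w) (h : GS w ψ) : ES w univ ψ ≤ N * (rho N L * P.W) := by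
  have hm := h.min (fun _ => 1) (IsC1.const 1)
  set V := (volume : Measure (Cf N L)).real Set.univ with hV
  have hV0 : 0 < V := vol_Cf_pos
  have hL : 0 < L ^ 3 := pow_pos Lpos 3
  have hn : nsq (fun _ : Cf N L => (1 : ℂ)) = V := by simp [nsq, hV]
  have hw0 : 0 ≤ ∫ z, w z := integral_nonneg hw.nonneg
  have hW : 0 ≤ P.W := hw0.trans hw.integral_le
  have hρ : rho N L = N * (L ^ 3)⁻¹ := div_eq_mul_inv _ _
  have hρ0 : 0 ≤ rho N L := by rw [hρ]; positivity
  have hpair : ∀ i, ∀ j ∈ univ.erase i, ∫ x : Cf N L, w (x i - x j) ≤ (L ^ 3)⁻¹ * P.W * V := by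
    intro i j hj
    have := av_pair (𝕜 := ℝ) hw.bm (BM.const (α := Cf N L) (1 : ℝ))
      (Finset.ne_of_mem_erase hj).symm (fun _ _ => rfl)
    simp only [mul_one, integral_const, smul_eq_mul] at this
    rw [this]
    have h2 := hw.integral_le
    show (L ^ 3)⁻¹ * (∫ z, w z) * V ≤ _
    gcongr
  have hc : ∀ i j : Fin N, Continuous fun x : Cf N L => w (x i - x j) := fun i j =>
    hw.cont.comp ((continuous_apply i).sub (continuous_apply j))
  have hWi : ∀ i, ∫ x : Cf N L, Wi w i x ≤ rho N L * P.W * V := by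
    intro i
    unfold Wi
    rw [integral_finsetSum _ fun j _ => cont_integrable (hc i j)]
    refine (Finset.sum_le_sum (hpair i)).trans ?_
    rw [Finset.sum_const, nsmul_eq_mul, hρ]
    have : ((univ.erase i).card : ℝ) ≤ N := by
      have := Finset.card_le_univ (univ.erase i)
      rw [Fintype.card_fin] at this
      exact_mod_cast this
    calc ((univ.erase i).card : ℝ) * ((L ^ 3)⁻¹ * P.W * V) ≤ N * ((L ^ 3)⁻¹ * P.W * V) := by
          gcongr
      _ = _ := by ring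
  have hE : ES w univ (fun _ : Cf N L => (1 : ℂ)) ≤ N * (rho N L * P.W) * V := by
    have h1 : ES w univ (fun _ : Cf N L => (1 : ℂ)) = (1 / 2) * ∑ i, ∫ x : Cf N L, Wi w i x := by
      rw [← integral_finsetSum _ fun i _ => cont_integrable (continuous_Wi hw.cont i),
        ← integral_const_mul]
      simp [ES, gP, dd_const, US_univ]
    rw [h1]
    have h2 := Finset.sum_le_sum fun i (_ : i ∈ (univ : Finset (Fin N))) => hWi i
    rw [Finset.sum_const, card_univ, Fintype.card_fin, nsmul_eq_mul] at h2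
    have h3 : 0 ≤ (N : ℝ) * (rho N L * P.W * V) := by positivity
    nlinarith
  rw [hn] at hm
  exact le_of_mul_le_mul_right (hm.trans hE) hV0

theorem GS.kin_le (hw : Wp P w) (h : GS w ψ) (o : Fin N) :
    ∫ x, gP o ψ x ≤ 2 * (rho N L * P.W) := by
  have h1 := h.energy_one hw o
  have h2 := h.energy_le hw
  have hN : (0 : ℝ) < N := by exact_mod_cast o.pos
  have h3 : 0 ≤ ∫ x, Wi w o x * ‖ψ x‖ ^ 2 := integral_nonneg fun x =>
    mul_nonneg (Finset.sum_nonneg fun _ _ => hw.nonneg _) (sq_nonneg _)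
  refine le_of_mul_le_mul_left ?_ hN
  nlinarith [mul_nonneg hN.le h3]

/-- Sums over ordered pairs. -/
theorem GS.pair_sum (h : GS w ψ) {u : T3 L → T3 L → ℝ} (hu : BM (uncurry u)) (o : Fin N) :
    (N : ℝ) * ∑ j ∈ univ.erase o, ∫ x, u (x o) (x j) * ‖ψ x‖ ^ 2 =
      ∑ i, ∑ j ∈ univ.erase i, ∫ x, u (x i) (x j) * ‖ψ x‖ ^ 2 := by
  have hi : ∀ i, ∑ j ∈ univ.erase i, ∫ x, u (x i) (x j) * ‖ψ x‖ ^ 2 =
      ∑ j ∈ univ.erase o, ∫ x, u (x o) (x j) * ‖ψ x‖ ^ 2 := fun i => by
    have := sum_erase_perm_sym (Equiv.swap o i) o fun j => ∫ x, u (x i) (x j) * ‖ψ x‖ ^ 2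
    rw [Equiv.swap_apply_left] at this
    rw [← this]
    refine Finset.sum_congr rfl fun j _ => ?_
    rw [← h.perm (fun x => u (x o) (x j)) (Equiv.swap o i)]
    simp only [Function.comp_apply, Equiv.swap_apply_left]
  rw [Finset.sum_congr rfl fun i _ => hi i, Finset.sum_const, card_univ, Fintype.card_fin,
    nsmul_eq_mul]

/-- Sums over ordered triples. -/
theorem GS.triple_sum (h : GS w ψ) (u : T3 L → T3 L → T3 L → ℝ) (o : Fin N) :
    (N : ℝ) * ∑ j ∈ univ.erase o, ∑ l ∈ (univ.erase o).erase j,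
        ∫ x, u (x o) (x j) (x l) * ‖ψ x‖ ^ 2 =
      ∑ i, ∑ j ∈ univ.erase i, ∑ l ∈ (univ.erase i).erase j,
        ∫ x, u (x i) (x j) (x l) * ‖ψ x‖ ^ 2 := by
  have hi : ∀ i, ∑ j ∈ univ.erase i, ∑ l ∈ (univ.erase i).erase j,
        ∫ x, u (x i) (x j) (x l) * ‖ψ x‖ ^ 2 =
      ∑ j ∈ univ.erase o, ∑ l ∈ (univ.erase o).erase j,
        ∫ x, u (x o) (x j) (x l) * ‖ψ x‖ ^ 2 := fun i => by
    have := sum_erase_perm_sym (Equiv.swap o i) o fun j => ∑ l ∈ (univ.erase i).erase j,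
        ∫ x, u (x i) (x j) (x l) * ‖ψ x‖ ^ 2
    rw [Equiv.swap_apply_left] at this
    rw [← this]
    refine Finset.sum_congr rfl fun j _ => ?_
    have h2 := sum_erase2_perm_sym (Equiv.swap o i) o j fun l =>
        ∫ x, u (x i) (x (Equiv.swap o i j)) (x l) * ‖ψ x‖ ^ 2
    rw [Equiv.swap_apply_left] at h2
    rw [← h2]
    refine Finset.sum_congr rfl fun l _ => ?_
    rw [← h.perm (fun x => u (x o) (x j) (x l)) (Equiv.swap o i)]
    simp only [Function.comp_apply, Equiv.swap_apply_left]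
  rw [Finset.sum_congr rfl fun i _ => hi i, Finset.sum_const, card_univ, Fintype.card_fin,
    nsmul_eq_mul]

end Pool.Agent.BoseTail
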