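import Pool.Agent.Lib.MP_dec75e_mp.Heat
import Pool.Agent.Lib.MP_dec75e_mp.Mom
import Pool.Agent.Lib.MP_dec75e_mp.Sym

/-! Uniform bounds for the two- and three-particle densities. -/

open MeasureTheory Complex Finset Filter Function
open scoped ComplexConjugate Real Topology

noncomputable section

namespace Pool.Agent.BoseTail

/-- The density bounds with constant `C`. -/
structure DB {N : ℕ} {L : ℝ} [Fact (0 < L)] (C : ℝ) (ψ : Cf N L → ℂ) : Prop where
  two : ∀ o s, 0 < s → (2 * s) ^ 2 * rho N L ≤ 1 → D2 ψ o s ≤ C * rho N L * s ^ 3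
  three : ∀ o s₁ s₂, 0 < s₁ → s₁ ≤ s₂ → (2 * s₂) ^ 2 * rho N L ≤ 1 →
    D3 ψ o s₁ s₂ ≤ C * rho N L ^ 2 * s₁ ^ 3 * s₂ ^ 3

section aux
variable {N : ℕ} {L : ℝ} [Fact (0 < L)] {P : Par} {w : T3 L → ℝ} {ψ : Cf N L → ℂ}

omit [Fact (0 < L)] in
theorem nb_nonneg_dens (s : ℝ) (z : T3 L) : 0 ≤ nb s z := by
  unfold nb; split_ifs <;> norm_num

omit [Fact (0 < L)] in
theorem nb_one_dens {s : ℝ} {z : T3 L} (h : ‖z‖ ≤ s) : nb s z = 1 := by
  unfold nb; rw [if_pos h]

omit [Fact (0 < L)] in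
theorem nb_zero_dens {s : ℝ} {z : T3 L} (h : ¬ ‖z‖ ≤ s) : nb s z = 0 := by
  unfold nb; rw [if_neg h]

theorem int_nb_dens {s : ℝ} (hs : 0 ≤ s) (h : 2 * s ≤ L) (a : T3 L) :
    ∫ y, nb s (a - y) = (2 * s) ^ 3 := by
  rw [integral_sub_left_eq_self (nb s) volume a]; exact integral_nb hs h

theorem BM_nb1_dens (s : ℝ) (a : T3 L) : BM (fun y : T3 L => nb s (a - y)) :=
  (BM_nb s).comp (Continuous.measurable (by fun_prop))

theorem BM_nb2_dens (s : ℝ) (i : Fin N) : BM (fun p : Cf N L × T3 L => nb s (p.1 i - p.2)) :=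
  (BM_nb s).comp (Continuous.measurable (by fun_prop))

theorem BM_nb3_dens (s : ℝ) (i j : Fin N) : BM (fun x : Cf N L => nb s (x i - x j)) :=
  (BM_nb s).comp (Continuous.measurable (by fun_prop))

theorem ball2_dens {s : ℝ} (hs : 0 ≤ s) (h : 2 * s ≤ L) (a b : T3 L) :
    (2 * s) ^ 3 * nb s (a - b) ≤ ∫ y, nb s (a - y) * nb (2 * s) (b - y) := by
  by_cases hab : ‖a - b‖ ≤ s
  · rw [nb_one_dens hab, mul_one, ← int_nb_dens hs h a]
    refine integral_mono (BM_nb1_dens s a).integrable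
      ((BM_nb1_dens s a).mul (BM_nb1_dens _ b)).integrable fun y => ?_
    by_cases hy : ‖a - y‖ ≤ s
    · have h2 : ‖b - y‖ ≤ 2 * s := by
        have e : b - y = (a - y) - (a - b) := by abel
        rw [e]
        exact (norm_sub_le _ _).trans (by linarith)
      simp only [nb_one_dens hy, nb_one_dens h2, mul_one, le_refl]
    · simp only [nb_zero_dens hy, zero_mul, le_refl]
  · rw [nb_zero_dens hab, mul_zero]
    exact integral_nonneg fun y => mul_nonneg (nb_nonneg_dens _ _) (nb_nonneg_dens _ _)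

theorem ball3_dens {s t : ℝ} (hs : 0 ≤ s) (h : 2 * s ≤ L) (a b c : T3 L) :
    (2 * s) ^ 3 * (nb s (a - b) * nb t (c - b)) ≤
      ∫ y, nb (2 * s) (a - y) * (nb s (b - y) * nb (s + t) (c - y)) := by
  have h0 : 0 ≤ ∫ y, nb (2 * s) (a - y) * (nb s (b - y) * nb (s + t) (c - y)) :=
    integral_nonneg fun y => mul_nonneg (nb_nonneg_dens _ _)
      (mul_nonneg (nb_nonneg_dens _ _) (nb_nonneg_dens _ _))
  by_cases hab : ‖a - b‖ ≤ s
  · by_cases hcb : ‖c - b‖ ≤ t
    · rw [nb_one_dens hab, nb_one_dens hcb, mul_one, mul_one, ← int_nb_dens hs h b]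
      refine integral_mono (BM_nb1_dens s b).integrable
        ((BM_nb1_dens _ a).mul ((BM_nb1_dens _ b).mul (BM_nb1_dens _ c))).integrable fun y => ?_
      by_cases hy : ‖b - y‖ ≤ s
      · have h2 : ‖a - y‖ ≤ 2 * s := by
          have e : a - y = (a - b) + (b - y) := by abel
          rw [e]
          exact (norm_add_le _ _).trans (by linarith)
        have h3 : ‖c - y‖ ≤ s + t := by
          have e : c - y = (c - b) + (b - y) := by abel
          rw [e]
          exact (norm_add_le _ _).trans (by linarith)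
        simp only [nb_one_dens hy, nb_one_dens h2, nb_one_dens h3, mul_one, le_refl]
      · simp only [nb_zero_dens hy, zero_mul, mul_zero, le_refl]
    · rw [nb_zero_dens hcb, mul_zero, mul_zero]; exact h0
  · rw [nb_zero_dens hab, zero_mul, mul_zero]; exact h0

theorem BM_sq_dens (hψ : Continuous ψ) : BM (fun x => ‖ψ x‖ ^ 2) := BM.of_cont (by fun_prop)

theorem avg_dens {f : Cf N L → ℝ} {g : Cf N L → T3 L → ℝ} (hψ : Continuous ψ) (hf : BM f)
    (hg : BM (uncurry g)) {c : ℝ} (h : ∀ x, c * f x ≤ ∫ y, g x y) :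
    c * ∫ x, f x * ‖ψ x‖ ^ 2 ≤ ∫ y, ∫ x, g x y * ‖ψ x‖ ^ 2 := by
  have hψ2 := BM_sq_dens hψ
  have hG : BM (uncurry fun x y => g x y * ‖ψ x‖ ^ 2) := hg.mul (hψ2.comp measurable_fst)
  rw [← BM.swap hG, ← integral_const_mul]
  refine integral_mono ((BM.const c).mul (hf.mul hψ2)).integrable
    hG.integral_right.integrable fun x => ?_
  simp only
  rw [integral_mul_const, ← mul_assoc]
  exact mul_le_mul_of_nonneg_right (h x) (by positivity)

/-- The parametric expectation of a bounded measurable function. -/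
theorem BM_exp_dens {g : Cf N L → T3 L → ℝ} (hψ : Continuous ψ) (hg : BM (uncurry g)) :
    BM (fun y => ∫ x, g x y * ‖ψ x‖ ^ 2) := by
  have hG : BM (uncurry fun (y : T3 L) (x : Cf N L) => g x y * ‖ψ x‖ ^ 2) :=
    (hg.comp measurable_swap).mul ((BM_sq_dens hψ).comp measurable_snd)
  exact hG.integral_right

theorem BM_om2_dens {r : ℝ} (hr : 0 < r) (i : Fin N) :
    BM (fun p : Cf N L × T3 L => om r (p.1 i - p.2)) :=
  (BM.of_cont (om_c1 hr).cont).comp (Continuous.measurable (by fun_prop))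

theorem BM_om1_dens {r : ℝ} (hr : 0 < r) (i : Fin N) (y : T3 L) :
    BM (fun x : Cf N L => om r (x i - y)) :=
  (BM.of_cont (om_c1 hr).cont).comp (Continuous.measurable (by fun_prop))

theorem pair_dens (h : Setup P w ψ) {r s : ℝ} (hr : 0 < r) (hρ : r ^ 2 * rho N L = 1)
    (hs : 0 < s) (hsr : 2 * s ≤ r) (hL : 2 * s ≤ L) {i j : Fin N} (hij : j ≠ i) :
    ∫ x, nb s (x i - x j) * ‖ψ x‖ ^ 2 ≤ (441 * Real.exp (P.W + 8) / r ^ 3) ^ 2 * s ^ 3 *
      ∫ y, ∫ x, om r (x i - y) * om r (x j - y) * ‖ψ x‖ ^ 2 := by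
  have hψ : Continuous ψ := h.gs.c1.1
  have hg : BM (uncurry fun (x : Cf N L) (y : T3 L) => nb s (x i - y) * nb (2 * s) (x j - y)) :=
    (BM_nb2_dens s i).mul (BM_nb2_dens _ j)
  have hg' : BM (uncurry fun (x : Cf N L) (y : T3 L) => om r (x i - y) * om r (x j - y)) :=
    (BM_om2_dens hr i).mul (BM_om2_dens hr j)
  have h1 := avg_dens hψ (BM_nb3_dens s i j) hg fun x => ball2_dens hs.le hL (x i) (x j)
  have h2 : ∫ y, ∫ x, nb s (x i - y) * nb (2 * s) (x j - y) * ‖ψ x‖ ^ 2 ≤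
      ∫ y, (441 * Real.exp (P.W + 8) / r ^ 3) ^ 2 * (s ^ 3 * (2 * s) ^ 3) *
        ∫ x, om r (x i - y) * om r (x j - y) * ‖ψ x‖ ^ 2 := by
    refine integral_mono (BM_exp_dens hψ hg).integrable
      ((BM.const _).mul (BM_exp_dens hψ hg')).integrable fun y => ?_
    have := balls_le h {i, j} hr hρ (s := fun k => if k = i then s else 2 * s)
      (fun k => by split_ifs <;> positivity) (fun k _ => by split_ifs <;> linarith) y
    simp only [prod_pair hij.symm, card_pair hij.symm, if_pos, if_neg hij] at this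
    exact this
  rw [integral_const_mul] at h2
  have h3 := h1.trans h2
  have h4 : (0 : ℝ) < (2 * s) ^ 3 := by positivity
  refine le_of_mul_le_mul_left (h3.trans_eq (by ring)) h4

theorem triple_dens (h : Setup P w ψ) {r s t : ℝ} (hr : 0 < r) (hρ : r ^ 2 * rho N L = 1)
    (hs : 0 < s) (hst : s ≤ t) (hsr : 2 * t ≤ r) (hL : 2 * s ≤ L) {i j l : Fin N} (hij : j ≠ i)
    (hli : l ≠ i) (hlj : l ≠ j) :
    ∫ x, nb s (x i - x j) * nb t (x l - x j) * ‖ψ x‖ ^ 2 ≤
      (441 * Real.exp (P.W + 8) / r ^ 3) ^ 3 * (s ^ 3 * (s + t) ^ 3) *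
      ∫ y, ∫ x, om r (x i - y) * (om r (x j - y) * om r (x l - y)) * ‖ψ x‖ ^ 2 := by
  have hψ : Continuous ψ := h.gs.c1.1
  have ht : 0 < t := hs.trans_le hst
  have hg : BM (uncurry fun (x : Cf N L) (y : T3 L) =>
      nb (2 * s) (x i - y) * (nb s (x j - y) * nb (s + t) (x l - y))) :=
    (BM_nb2_dens _ i).mul ((BM_nb2_dens _ j).mul (BM_nb2_dens _ l))
  have hg' : BM (uncurry fun (x : Cf N L) (y : T3 L) =>
      om r (x i - y) * (om r (x j - y) * om r (x l - y))) :=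
    (BM_om2_dens hr i).mul ((BM_om2_dens hr j).mul (BM_om2_dens hr l))
  have h1 := avg_dens hψ ((BM_nb3_dens s i j).mul (BM_nb3_dens t l j)) hg
    fun x => ball3_dens hs.le hL (x i) (x j) (x l)
  have h2 : ∫ y, ∫ x, nb (2 * s) (x i - y) * (nb s (x j - y) * nb (s + t) (x l - y)) * ‖ψ x‖ ^ 2 ≤
      ∫ y, (441 * Real.exp (P.W + 8) / r ^ 3) ^ 3 * ((2 * s) ^ 3 * (s ^ 3 * (s + t) ^ 3)) *
        ∫ x, om r (x i - y) * (om r (x j - y) * om r (x l - y)) * ‖ψ x‖ ^ 2 := by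
    refine integral_mono (BM_exp_dens hψ hg).integrable
      ((BM.const _).mul (BM_exp_dens hψ hg')).integrable fun y => ?_
    have := balls_le h {i, j, l} hr hρ
      (s := fun k => if k = i then 2 * s else if k = j then s else s + t)
      (fun k => by split_ifs <;> positivity) (fun k _ => by split_ifs <;> linarith) y
    have hi : i ∉ ({j, l} : Finset (Fin N)) := by simp [hij.symm, hli.symm]
    simp only [prod_insert hi, card_insert_of_notMem hi, prod_pair hlj.symm, card_pair hlj.symm,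
      if_pos, if_neg hij, if_neg hli, if_neg hlj] at this
    exact this
  rw [integral_const_mul] at h2
  have h3 := h1.trans h2
  have h4 : (0 : ℝ) < (2 * s) ^ 3 := by positivity
  refine le_of_mul_le_mul_left (h3.trans_eq (by ring)) h4

end aux

section sums
variable {N : ℕ} {α : Type*} [MeasurableSpace α] {μ : Measure α} [IsFiniteMeasure μ]

theorem sum2_dens {F : Fin N → Fin N → α → ℝ} (hF : ∀ i j, BM (F i j)) :
    ∑ i, ∑ j ∈ univ.erase i, ∫ a, F i j a ∂μ = ∫ a, ∑ i, ∑ j ∈ univ.erase i, F i j a ∂μ := by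
  rw [integral_finsetSum _ fun i _ => (BM.sum fun j _ => hF i j).integrable]
  exact sum_congr rfl fun i _ => (integral_finsetSum _ fun j _ => (hF i j).integrable).symm

theorem sum3_dens {F : Fin N → Fin N → Fin N → α → ℝ} (hF : ∀ i j l, BM (F i j l)) :
    ∑ i, ∑ j ∈ univ.erase i, ∑ l ∈ (univ.erase i).erase j, ∫ a, F i j l a ∂μ =
      ∫ a, ∑ i, ∑ j ∈ univ.erase i, ∑ l ∈ (univ.erase i).erase j, F i j l a ∂μ := by
  rw [← sum2_dens (F := fun i j a => ∑ l ∈ (univ.erase i).erase j, F i j l a)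
    fun i j => BM.sum fun l _ => hF i j l]
  exact sum_congr rfl fun i _ => sum_congr rfl fun j _ =>
    (integral_finsetSum _ fun l _ => (hF i j l).integrable).symm

theorem sq_sum_dens {a : Fin N → ℝ} (ha : ∀ i, 0 ≤ a i) :
    ∑ i, ∑ j ∈ univ.erase i, a i * a j ≤ (∑ i, a i) ^ 2 := by
  rw [sq, sum_mul_sum]
  exact sum_le_sum fun i _ => sum_le_sum_of_subset_of_nonneg (subset_univ _)
    fun j _ _ => mul_nonneg (ha i) (ha j)

theorem cube_sum_dens {a : Fin N → ℝ} (ha : ∀ i, 0 ≤ a i) :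
    ∑ i, ∑ j ∈ univ.erase i, ∑ l ∈ (univ.erase i).erase j, a i * (a j * a l) ≤ (∑ i, a i) ^ 3 := by
  have e : (∑ i, a i) ^ 3 = ∑ i, ∑ j, ∑ l, a i * (a j * a l) := by
    simp only [← mul_sum, ← sum_mul]; ring
  rw [e]
  refine sum_le_sum fun i _ => ?_
  refine (sum_le_sum fun j _ => sum_le_sum_of_subset_of_nonneg (subset_univ _)
    fun l _ _ => mul_nonneg (ha i) (mul_nonneg (ha j) (ha l))).trans ?_
  exact sum_le_sum_of_subset_of_nonneg (subset_univ _) fun j _ _ =>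
    sum_nonneg fun l _ => mul_nonneg (ha i) (mul_nonneg (ha j) (ha l))

end sums

section tot
variable {N : ℕ} {L : ℝ} [Fact (0 < L)] {ψ : Cf N L → ℂ}

theorem tot2_dens (hψ : Continuous ψ) {r M : ℝ} (hr : 0 < r)
    (hM : ∀ y : T3 L, ∫ x, nom r y x ^ 2 * ‖ψ x‖ ^ 2 ≤ M) :
    ∑ i, ∑ j ∈ univ.erase i, ∫ y, ∫ x, om r (x i - y) * om r (x j - y) * ‖ψ x‖ ^ 2 ≤ L ^ 3 * M := by
  have hB : ∀ i j : Fin N, BM (fun y : T3 L => ∫ x, om r (x i - y) * om r (x j - y) * ‖ψ x‖ ^ 2) :=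
    fun i j => BM_exp_dens (g := fun x y => om r (x i - y) * om r (x j - y)) hψ
      ((BM_om2_dens hr i).mul (BM_om2_dens hr j))
  rw [sum2_dens hB, ← integral_const_T3]
  refine integral_mono (BM.sum fun i _ => BM.sum fun j _ => hB i j).integrable
    (BM.const M).integrable fun y => ?_
  have hC : ∀ i j : Fin N, BM (fun x : Cf N L => om r (x i - y) * om r (x j - y) * ‖ψ x‖ ^ 2) :=
    fun i j => ((BM_om1_dens hr i y).mul (BM_om1_dens hr j y)).mul (BM_sq_dens hψ)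
  simp only
  rw [sum2_dens hC]
  refine le_trans (integral_mono (BM.sum fun i _ => BM.sum fun j _ => hC i j).integrable
    (((BM.sum fun i _ => BM_om1_dens hr i y).pow 2).mul (BM_sq_dens hψ)).integrable
    fun x => ?_) (hM y)
  simp only [← sum_mul]
  exact mul_le_mul_of_nonneg_right (sq_sum_dens fun i => (om_pos r (x i - y)).le) (by positivity)

theorem tot3_dens (hψ : Continuous ψ) {r M : ℝ} (hr : 0 < r)
    (hM : ∀ y : T3 L, ∫ x, nom r y x ^ 3 * ‖ψ x‖ ^ 2 ≤ M) :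
    ∑ i, ∑ j ∈ univ.erase i, ∑ l ∈ (univ.erase i).erase j,
      ∫ y, ∫ x, om r (x i - y) * (om r (x j - y) * om r (x l - y)) * ‖ψ x‖ ^ 2 ≤ L ^ 3 * M := by
  have hB : ∀ i j l : Fin N, BM (fun y : T3 L =>
      ∫ x, om r (x i - y) * (om r (x j - y) * om r (x l - y)) * ‖ψ x‖ ^ 2) :=
    fun i j l => BM_exp_dens (g := fun x y => om r (x i - y) * (om r (x j - y) * om r (x l - y))) hψ
      ((BM_om2_dens hr i).mul ((BM_om2_dens hr j).mul (BM_om2_dens hr l)))
  rw [sum3_dens hB, ← integral_const_T3]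
  refine integral_mono (BM.sum fun i _ => BM.sum fun j _ => BM.sum fun l _ => hB i j l).integrable
    (BM.const M).integrable fun y => ?_
  have hC : ∀ i j l : Fin N, BM (fun x : Cf N L =>
      om r (x i - y) * (om r (x j - y) * om r (x l - y)) * ‖ψ x‖ ^ 2) :=
    fun i j l => ((BM_om1_dens hr i y).mul ((BM_om1_dens hr j y).mul (BM_om1_dens hr l y))).mul
      (BM_sq_dens hψ)
  simp only
  rw [sum3_dens hC]
  refine le_trans (integral_mono
    (BM.sum fun i _ => BM.sum fun j _ => BM.sum fun l _ => hC i j l).integrable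
    (((BM.sum fun i _ => BM_om1_dens hr i y).pow 3).mul (BM_sq_dens hψ)).integrable
    fun x => ?_) (hM y)
  simp only [← sum_mul]
  exact mul_le_mul_of_nonneg_right (cube_sum_dens fun i => (om_pos r (x i - y)).le) (by positivity)

end tot

theorem dens (P : Par) : ∃ C ρ₀ : ℝ, 1 ≤ C ∧ 0 < ρ₀ ∧ ρ₀ ≤ 1 ∧ ∀ (N : ℕ) (L : ℝ) [Fact (0 < L)]
    (w : T3 L → ℝ) (ψ : Cf N L → ℂ), Setup P w ψ → rho N L ≤ ρ₀ → DB C ψ := by
  obtain ⟨C, ρ₀, hC, hρ₀, hρ₁, hm⟩ := moments P
  set K : ℝ := 441 * Real.exp (P.W + 8) with hK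
  have hW : 0 ≤ P.W := by
    have := P.hV; have := P.hR0; unfold Par.W; positivity
  have hK1 : 1 ≤ K := by
    have : 1 ≤ Real.exp (P.W + 8) := Real.one_le_exp (by linarith)
    linarith
  have hK3 : K ^ 2 ≤ 8 * K ^ 3 := by nlinarith [one_le_pow₀ (n := 2) hK1]
  have hK2 : 1 ≤ K ^ 2 := one_le_pow₀ hK1
  refine ⟨8 * K ^ 3 * C, ρ₀, by nlinarith, hρ₀, hρ₁, fun N L _ w ψ h hρ => ?_⟩
  obtain ⟨hρp, -, hN⟩ := h.basic
  have hL : 0 < L := Lpos
  have hψ : Continuous ψ := h.gs.c1.1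
  set ρ := rho N L with hρdef
  obtain ⟨r, hr, hrρ⟩ : ∃ r : ℝ, 0 < r ∧ r ^ 2 * ρ = 1 :=
    ⟨(√ρ)⁻¹, by positivity, by rw [inv_pow, Real.sq_sqrt hρp.le]; field_simp⟩
  have hNρ : (N : ℝ) = ρ * L ^ 3 := by rw [hρdef, rho]; field_simp
  have hNp : (0 : ℝ) < N := by exact_mod_cast hN
  have hle : ∀ s : ℝ, 0 < s → (2 * s) ^ 2 * ρ ≤ 1 → 2 * s ≤ r := fun s hs h1 => by
    have : (2 * s) ^ 2 ≤ r ^ 2 := le_of_mul_le_mul_right (h1.trans hrρ.ge) hρp
    exact (pow_le_pow_iff_left₀ (by positivity) hr.le two_ne_zero).1 this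
  have hρr : ρ = (r ^ 2)⁻¹ := by field_simp; linarith
  have hmm := hm N L w ψ h hρ r hr hrρ
  constructor
  · intro o s hs h1
    have hsL : 2 * s ≤ L := h.r_le hs.le two_pos h1
    have e := h.gs.pair_sum (u := fun a b => nb s (a - b))
      ((BM_nb s).comp (Continuous.measurable (by fun_prop))) o
    have h2 : (N : ℝ) * D2 ψ o s ≤ (K / r ^ 3) ^ 2 * s ^ 3 * (L ^ 3 * (C * r ^ 2)) := by
      unfold D2
      rw [e]
      refine le_trans (sum_le_sum fun i _ => sum_le_sum fun j hj =>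
        pair_dens h hr hrρ hs (hle s hs h1) hsL (ne_of_mem_erase hj)) ?_
      simp only [← mul_sum]
      exact mul_le_mul_of_nonneg_left (tot2_dens hψ hr fun y => (hmm y).1) (by positivity)
    have h3 : (K / r ^ 3) ^ 2 * s ^ 3 * (L ^ 3 * (C * r ^ 2)) = N * (K ^ 2 * C * ρ * s ^ 3) := by
      rw [hNρ, hρr]; field_simp
    rw [h3] at h2
    refine (le_of_mul_le_mul_left h2 hNp).trans ?_
    gcongr
  · intro o s t hs hst h1
    have ht : 0 < t := hs.trans_le hst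
    have hsL : 2 * s ≤ L := le_trans (by linarith) (h.r_le ht.le two_pos h1)
    have e := h.gs.triple_sum (fun a b c => nb s (a - b) * nb t (c - b)) o
    have h2 : (N : ℝ) * D3 ψ o s t ≤
        (K / r ^ 3) ^ 3 * (s ^ 3 * (s + t) ^ 3) * (L ^ 3 * (C * r ^ 3)) := by
      unfold D3
      rw [e]
      refine le_trans (sum_le_sum fun i _ => sum_le_sum fun j hj => sum_le_sum fun l hl =>
        triple_dens h hr hrρ hs hst (hle t ht h1) hsL (ne_of_mem_erase hj)
          (ne_of_mem_erase (mem_of_mem_erase hl)) (ne_of_mem_erase hl)) ?_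
      simp only [← mul_sum]
      exact mul_le_mul_of_nonneg_left (tot3_dens hψ hr fun y => (hmm y).2) (by positivity)
    have h3 : (K / r ^ 3) ^ 3 * (s ^ 3 * (s + t) ^ 3) * (L ^ 3 * (C * r ^ 3)) =
        N * (K ^ 3 * C * ρ ^ 2 * s ^ 3 * (s + t) ^ 3) := by
      rw [hNρ, hρr]; field_simp
    rw [h3] at h2
    refine (le_of_mul_le_mul_left h2 hNp).trans ?_
    have h4 : (s + t) ^ 3 ≤ (2 * t) ^ 3 := by gcongr; linarith
    calc K ^ 3 * C * ρ ^ 2 * s ^ 3 * (s + t) ^ 3 ≤ K ^ 3 * C * ρ ^ 2 * s ^ 3 * (2 * t) ^ 3 := by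
          gcongr
      _ = _ := by ring

end Pool.Agent.BoseTail
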