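import Pool.Agent.Lib.MP_dec75e_mp.Src

/-! The equation for the windowed wave function and the crude bound. -/

open MeasureTheory Complex Finset Filter Function
open scoped ComplexConjugate Real Topology

noncomputable section

namespace Pool.Agent.BoseTail

section
variable {N : ℕ} {L : ℝ} [Fact (0 < L)] {P : Par} {w : T3 L → ℝ} {ψ : Cf N L → ℂ}

omit [Fact (0 < L)] in
theorem card_compl_erase (o : Fin N) : ((univ.erase o)ᶜ : Finset (Fin N)).card = 1 := by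
  have : ((univ.erase o)ᶜ : Finset (Fin N)) = {o} := by ext i; simp
  rw [this]; simp

omit [Fact (0 < L)] in
theorem continuous_mul_eqn {G : Cf N L → ℝ} (hG : Continuous G) {φ : Cf N L → ℂ}
    (hφ : Continuous φ) : Continuous (mul G φ) :=
  (Complex.continuous_ofReal.comp hG).mul hφ

theorem rip_mul_eqn (G : Cf N L → ℝ) (φ χ : Cf N L → ℂ) :
    ∫ x, G x * ip (φ x) (χ x) = rip φ (mul G χ) := by
  simp only [rip, mul, ip_ofReal_right]

theorem rT_cvl_eqn {κ : T3 L → ℂ} (hκ : Continuous κ) {ζ : Cf N L → ℂ} (hζ : IsC1 ζ)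
    (hψ : IsC1 ψ) (o i : Fin N) :
    rT i (cvl o (fun z => conj (κ (-z))) ζ) ψ = rT i ζ (cvl o κ ψ) := by
  have hk : BM κ := BM.of_cont hκ
  have hk' : BM (fun z => conj (κ (-z))) :=
    BM.of_cont (Complex.continuous_conj.comp (hκ.comp continuous_neg))
  unfold rT
  congr 1
  refine Finset.sum_congr rfl fun c _ => ?_
  rw [(dd_cvl hk' (hζ.2 i c) o).2, (dd_cvl hk (hψ.2 i c) o).2]
  exact (rip_cvl hk (hζ.2 i c).cdd (hψ.2 i c).cdd o).symm

theorem cvl_equation (hw : Wp P w) (h : GS w ψ) (o : Fin N) {κ : T3 L → ℂ} (hκ : Continuous κ)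
    {ζ : Cf N L → ℂ} (hζ : IsC1 ζ) :
    rT o ζ (cvl o κ ψ) + rQ P w ψ (univ.erase o) ζ (cvl o κ ψ) =
      rho N L * P.W * rip ζ (cvl o κ ψ) - rip ζ (cvl o κ (mul (Wi w o) ψ)) := by
  have hk : BM κ := BM.of_cont hκ
  have hk' : BM (fun z => conj (κ (-z))) :=
    BM.of_cont (Complex.continuous_conj.comp (hκ.comp continuous_neg))
  have hη : IsC1 (cvl o (fun z => conj (κ (-z))) ζ) := hζ.cvl hk' o
  have hel := GS.el hw.cont h hη
  rw [rB_univ_split hw.cont hw.even o hη.1 h.c1.1, ← rip_cvl hk hζ.1 h.c1.1 o,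
    rT_cvl_eqn hκ hζ h.c1, rip_mul_eqn,
    ← rip_cvl hk hζ.1 (continuous_mul_eqn (continuous_Wi hw.cont o) h.c1.1) o] at hel
  have hB : rB w (univ.erase o) (cvl o (fun z => conj (κ (-z))) ζ) ψ =
      rB w (univ.erase o) ζ (cvl o κ ψ) := by
    unfold rB
    congr 1
    · exact Finset.sum_congr rfl fun i _ => rT_cvl_eqn hκ hζ h.c1 o i
    · rw [rip_mul_eqn, rip_mul_eqn,
        ← rip_cvl hk hζ.1 (continuous_mul_eqn (continuous_US hw.cont _) h.c1.1) o,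
        cvl_mul (fun x y => US_update (Finset.notMem_erase o univ) x y)]
  rw [hB] at hel
  unfold rQ lam
  rw [card_compl_erase]
  push_cast
  linarith

/-- Integration by parts in `x_o` with a weight that does not depend on `x_o`. -/
theorem cvl_ibp {κ : T3 L → ℂ} (hκ : C2T κ) {φ : Cf N L → ℂ} (hφ : Continuous φ) (o : Fin N)
    {G : Cf N L → ℝ} (hG : Continuous G) (hGo : ∀ x y, G (update x o y) = G x) :
    ∫ x, G x * ip (cvl o (lapT κ) φ x) (cvl o κ φ x) =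
      -∑ c, ∫ x, G x * ‖cvl o (dd (d1 c) κ) φ x‖ ^ 2 := by
  have hGφ : Continuous (mul G φ) := continuous_mul_eqn hG hφ
  have hk : BM κ := BM.of_cont hκ.c1.cont
  have hsum : cvl o (lapT κ) φ = fun x => ∑ c, cvl o (dd (d1 c) (dd (d1 c) κ)) φ x :=
    funext fun x => cvl_lap hκ hφ o x
  rw [rip_mul_eqn, rip_comm, hsum,
    rip_sum_right (fun c _ => continuous_cvl (BM.of_cont (hκ c).2.cdd) hφ o)
      (continuous_mul_eqn hG (continuous_cvl hk hφ o)), ← Finset.sum_neg_distrib]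
  refine Finset.sum_congr rfl fun c _ => ?_
  obtain ⟨hu, hu'⟩ := dd_cvl_ker (hκ c).2 hφ o
  obtain ⟨hv, hv'⟩ := dd_cvl_ker (hκ c).1 hGφ o
  have := ibp_ip (dir_dir o c) hu hv
  rw [hu', hv', cvl_mul hGo, cvl_mul hGo] at this
  rw [rip_comm]
  unfold rip
  rw [this]
  simp only [mul, ip_ofReal_right, ip_self]

theorem rT_lap_eqn (hψ : IsC1 ψ) {κ : T3 L → ℂ} (hκ : C2T κ) (o i : Fin N) :
    rT i (cvl o (lapT κ) ψ) (cvl o κ ψ) =
      -∑ c, rT i (cvl o (dd (d1 c) κ) ψ) (cvl o (dd (d1 c) κ) ψ) := by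
  have hk : BM κ := BM.of_cont hκ.c1.cont
  have hl : BM (lapT κ) := BM.of_cont hκ.cont_lap
  have key : ∀ c', ∫ x, ip (dd (dir i c') (cvl o (lapT κ) ψ) x) (dd (dir i c') (cvl o κ ψ) x) =
      -∑ c, ∫ x, ip (dd (dir i c') (cvl o (dd (d1 c) κ) ψ) x)
        (dd (dir i c') (cvl o (dd (d1 c) κ) ψ) x) := by
    intro c'
    have := cvl_ibp hκ (hψ.2 i c').cdd o (G := fun _ => 1) continuous_const (fun _ _ => rfl)
    simp only [one_mul] at this
    rw [(dd_cvl hl (hψ.2 i c') o).2, (dd_cvl hk (hψ.2 i c') o).2, this]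
    congr 1
    refine Finset.sum_congr rfl fun c _ => ?_
    rw [(dd_cvl (BM.of_cont (hκ c).1.cdd) (hψ.2 i c') o).2]
    simp only [ip_self]
  unfold rT
  rw [Finset.sum_congr rfl fun c' _ => key c', Finset.sum_neg_distrib, Finset.sum_comm,
    ← Finset.mul_sum]
  ring

theorem rQ_lap (hw : Wp P w) (hψ : IsC1 ψ) {κ : T3 L → ℂ} (hκ : C2T κ) (o : Fin N) :
    rQ P w ψ (univ.erase o) (cvl o (lapT κ) ψ) (cvl o κ ψ) =
      -∑ c, QS P w ψ (univ.erase o) (cvl o (dd (d1 c) κ) ψ) := by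
  have hu : ∀ c, IsC1 (cvl o (dd (d1 c) κ) ψ) := fun c =>
    hψ.cvl (BM.of_cont (hκ c).1.cdd) o
  rw [← Finset.sum_congr rfl fun c _ => rQ_self (P := P) (w := w) (ψ := ψ)
    (S := univ.erase o) (hu c)]
  have h1 := cvl_ibp hκ hψ.1 o (G := fun _ => 1) continuous_const (fun _ _ => rfl)
  simp only [one_mul] at h1
  have h2 := cvl_ibp hκ hψ.1 o (continuous_US hw.cont (univ.erase o))
    (fun x y => US_update (Finset.notMem_erase o univ) x y)
  unfold rQ rB rip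
  rw [h1, h2, Finset.sum_congr rfl fun i _ => rT_lap_eqn hψ hκ o i, Finset.sum_neg_distrib,
    Finset.sum_comm]
  simp only [ip_self, Finset.sum_sub_distrib, Finset.sum_add_distrib, ← Finset.mul_sum]
  ring

theorem rT_lap (hψ : IsC1 ψ) {κ : T3 L → ℂ} (hκ : C2T κ) (o : Fin N) :
    rT o (cvl o (lapT κ) ψ) (cvl o κ ψ) = -(1 / 2) * nsq (cvl o (lapT κ) ψ) := by
  have hζ : IsC1 (cvl o (lapT κ) ψ) := hψ.cvl (BM.of_cont hκ.cont_lap) o
  have key : ∀ c, ∫ x, ip (dd (dir o c) (cvl o (lapT κ) ψ) x) (dd (dir o c) (cvl o κ ψ) x) =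
      -rip (cvl o (lapT κ) ψ) (cvl o (dd (d1 c) (dd (d1 c) κ)) ψ) := by
    intro c
    obtain ⟨hu, hu'⟩ := dd_cvl_ker (hκ c).2 hψ.1 o
    rw [(dd_cvl_ker (hκ c).1 hψ.1 o).2, ibp_ip (dir_dir o c) (hζ.2 o c) hu, hu']
    rfl
  unfold rT
  rw [Finset.sum_congr rfl fun c _ => key c, Finset.sum_neg_distrib,
    ← rip_sum_right (fun c _ => continuous_cvl (BM.of_cont (hκ c).2.cdd) hψ.1 o) hζ.1,
    ← funext fun x => cvl_lap hκ hψ.1 o x, rip_self]
  ring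

end

theorem crude (P : Par) (C B : ℝ) : ∃ K : ℝ, 1 ≤ K ∧ ∀ (N : ℕ) (L : ℝ) [Fact (0 < L)]
    (w : T3 L → ℝ) (ψ : Cf N L → ℂ) (δ : ℝ) (θ η η' b : T3 L → ℝ), MS P C B w ψ δ θ η η' b →
      ∀ (o : Fin N) (H : ℝ) (κ : T3 L → ℂ), Win H δ κ →
        nsq (cvl o (lapT κ) ψ) ≤ K * H ^ 2 * (rho N L * δ ^ 3) := by
  obtain ⟨K, hK1, hK⟩ := src_crude P C B
  refine ⟨512 * P.W ^ 2 + 8 * K, by nlinarith [sq_nonneg P.W], ?_⟩
  intro N L _ w ψ δ θ η η' b h o H κ hκ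
  have hδ := h.δpos
  have hρ0 : 0 < rho N L := h.basic.1
  have hw := h.st.pot.wp
  have hgs := h.st.gs
  have hψ := hgs.c1
  have hκc : Continuous κ := hκ.c2.c1.cont
  have hk : BM κ := BM.of_cont hκc
  have hζ : IsC1 (cvl o (lapT κ) ψ) := hψ.cvl (BM.of_cont hκ.c2.cont_lap) o
  have hΦ : IsC1 (cvl o κ ψ) := hψ.cvl hk o
  have hM0 : 0 ≤ H * δ ^ 3 := (norm_nonneg _).trans (hκ.le 0)
  have hH : 0 ≤ H := nonneg_of_mul_nonneg_left hM0 (pow_pos hδ 3)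
  have hW : 0 ≤ P.W := by
    unfold Par.W
    have := P.hV
    have := P.hR0
    positivity
  have heq := cvl_equation hw hgs o hκc hζ
  rw [rT_lap hψ hκ.c2, rQ_lap hw hψ hκ.c2] at heq
  have hQ : 0 ≤ ∑ c, QS P w ψ (univ.erase o) (cvl o (dd (d1 c) κ) ψ) :=
    Finset.sum_nonneg fun c _ => QS_nonneg hw hgs _ (hψ.cvl (BM.of_cont (hκ.c2 c).1.cdd) o)
  have hsrc := hK N L w ψ δ θ η η' b h o κ (H * δ ^ 3) hκc hκ.out hκ.le
  have hsc : Continuous (cvl o κ (mul (Wi w o) ψ)) :=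
    continuous_cvl hk (continuous_mul_eqn (continuous_Wi hw.cont o) hψ.1) o
  have hint : ∫ z, ‖κ z‖ ≤ 8 * H := by
    have := integral_le_of_out hk.norm (s := 1 / δ) (by positivity) hκ.le hM0
      (fun z hz => by rw [hκ.out z hz, norm_zero])
    refine this.trans (le_of_eq ?_)
    field_simp
    ring
  have hint0 : 0 ≤ ∫ z, ‖κ z‖ := integral_nonneg fun z => norm_nonneg _
  have hΦn : nsq (cvl o κ ψ) ≤ (8 * H) ^ 2 := by
    have := nsq_cvl_le hk hψ.1 o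
    rw [hgs.nrm, mul_one] at this
    exact this.trans (pow_le_pow_left₀ hint0 hint 2)
  have hΦs : √(nsq (cvl o κ ψ)) ≤ 8 * H := Real.sqrt_le_iff.2 ⟨by positivity, hΦn⟩
  have h1 := abs_rip_le hζ.1 hΦ.1
  have h2 := abs_rip_le hζ.1 hsc
  set A := √(nsq (cvl o (lapT κ) ψ)) with hA
  set S := √(nsq (cvl o κ (mul (Wi w o) ψ))) with hS
  have hA0 : 0 ≤ A := Real.sqrt_nonneg _
  have hS0 : 0 ≤ S := Real.sqrt_nonneg _
  have hA2 : nsq (cvl o (lapT κ) ψ) = A ^ 2 := (Real.sq_sqrt (nsq_nonneg _)).symm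
  have hS2 : S ^ 2 ≤ K * H ^ 2 * (rho N L * δ ^ 3) := by
    rw [hS, Real.sq_sqrt (nsq_nonneg _)]
    refine hsrc.trans (le_of_eq ?_)
    field_simp
  have h3 : -rip (cvl o (lapT κ) ψ) (cvl o κ ψ) ≤ A * (8 * H) :=
    (neg_le_abs _).trans (h1.trans (mul_le_mul_of_nonneg_left hΦs hA0))
  have h4 : rip (cvl o (lapT κ) ψ) (cvl o κ (mul (Wi w o) ψ)) ≤ A * S := (le_abs_self _).trans h2
  have h5 : rho N L * P.W * -rip (cvl o (lapT κ) ψ) (cvl o κ ψ) ≤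
      rho N L * P.W * (A * (8 * H)) := mul_le_mul_of_nonneg_left h3 (by positivity)
  rw [hA2] at heq ⊢
  set T := rho N L * P.W * (8 * H) with hT
  have h6 : A ^ 2 ≤ 2 * A * (T + S) := by
    rw [hT]; nlinarith
  have h7 : A ^ 2 ≤ 8 * T ^ 2 + 8 * S ^ 2 := by
    nlinarith [sq_nonneg (A - 2 * (T + S)), sq_nonneg (T - S)]
  have h8 : T ^ 2 ≤ 64 * P.W ^ 2 * H ^ 2 * (rho N L * δ ^ 3) := by
    have : rho N L * rho N L ≤ rho N L * δ ^ 3 := mul_le_mul_of_nonneg_left h.hρ hρ0.le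
    have h9 : T ^ 2 = 64 * P.W ^ 2 * H ^ 2 * (rho N L * rho N L) := by rw [hT]; ring
    rw [h9]
    exact mul_le_mul_of_nonneg_left this (by positivity)
  nlinarith

end Pool.Agent.BoseTail
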