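import Pool.Agent.Lib.MP_dec75e_mp.Euc0

/-! Isometries, radial functions and the maximum principle. -/

open MeasureTheory Complex Finset Filter Function
open scoped ComplexConjugate Real Topology

noncomputable section

namespace Pool.Agent.BoseTail

variable {F : Type*} [NormedAddCommGroup F] [NormedSpace ℝ F]

theorem normsq_e3_euc (y : E3) (c : Fin 3) (s : ℝ) :
    ‖y + e3 c s‖ ^ 2 = ‖y‖ ^ 2 + 2 * (y c * s) + s ^ 2 := by
  rw [norm_add_sq_real, e3, EuclideanSpace.inner_single_right, PiLp.norm_single,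
    Real.norm_eq_abs, sq_abs]
  simp [mul_comm]

theorem e3_zero_euc (c : Fin 3) : e3 c 0 = 0 := (dir_e3 c).zero

theorem hd_normsq_euc (y : E3) (c : Fin 3) (t : ℝ) :
    HasDerivAt (fun s : ℝ => ‖y + e3 c s‖ ^ 2) (2 * y c + 2 * t) t := by
  simp only [normsq_e3_euc]
  have h1 := ((((hasDerivAt_id t).const_mul (y c)).const_mul 2).const_add (‖y‖ ^ 2)).add
    (hasDerivAt_pow 2 t)
  exact h1.congr_deriv (by simp)

theorem hd_norm_euc {y : E3} (hy : y ≠ 0) (c : Fin 3) :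
    HasDerivAt (fun s : ℝ => ‖y + e3 c s‖) (y c / ‖y‖) 0 := by
  have hn : ‖y‖ ≠ 0 := norm_ne_zero_iff.2 hy
  have h1 := (hd_normsq_euc y c 0).sqrt (by simp [e3_zero_euc, hn])
  simp only [Real.sqrt_sq (norm_nonneg _), e3_zero_euc, add_zero, mul_zero] at h1
  convert h1 using 1
  field_simp

theorem hd_coord_euc (y : E3) (c : Fin 3) :
    HasDerivAt (fun s : ℝ => (y + e3 c s) c) 1 0 := by
  have : (fun s : ℝ => (y + e3 c s) c) = fun s => y c + s := by
    funext s; simp [e3]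
  rw [this]
  exact (hasDerivAt_id (0 : ℝ)).const_add (y c)

theorem no_max_euc {φ φ' : ℝ → ℝ} {d : ℝ} (h : ∀ s, HasDerivAt φ (φ' s) s)
    (h' : HasDerivAt φ' d 0) (hd : 0 < d) (hm : IsLocalMax φ 0) : False := by
  have e : deriv φ = φ' := funext fun s => (h s).deriv
  have h2 : deriv (deriv φ) 0 = d := by rw [e]; exact h'.deriv
  have hmin : IsLocalMin φ 0 :=
    isLocalMin_of_deriv_deriv_pos (by rw [h2]; exact hd) hm.deriv_eq_zero (h 0).continuousAt
  have hc : φ =ᶠ[𝓝 0] fun _ => φ 0 := by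
    filter_upwards [hm, hmin] with s h1 h2 using le_antisymm h1 h2
  have h3 := hc.deriv.deriv_eq
  rw [h2] at h3
  simp at h3
  exact hd.ne' h3

/-- The Laplacian commutes with linear isometries. -/
theorem laplacian_comp_isometry {u : E3 → F} (hu : ContDiff ℝ 2 u) (R : E3 ≃ₗᵢ[ℝ] E3) (x : E3) :
    Laplacian.laplacian (fun y => u (R y)) x = Laplacian.laplacian u (R x) := by
  let b := EuclideanSpace.basisFun (Fin 3) ℝ
  rw [InnerProductSpace.laplacian_eq_iteratedFDeriv_orthonormalBasis _ b,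
    InnerProductSpace.laplacian_eq_iteratedFDeriv_orthonormalBasis _ (b.map R)]
  refine Finset.sum_congr rfl fun i _ => ?_
  have h := (R.toContinuousLinearEquiv : E3 →L[ℝ] E3).iteratedFDeriv_comp_right hu x (i := 2) le_rfl
  have e : (fun y => u (R y)) = u ∘ (R.toContinuousLinearEquiv : E3 →L[ℝ] E3) := rfl
  rw [e, h, ContinuousMultilinearMap.compContinuousLinearMap_apply]
  congr 1
  funext j
  fin_cases j <;> simp

/-- The Laplacian of a radial function. -/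
theorem lapE_radial {g g' : ℝ → ℝ} {g'' : ℝ} {x : E3} (hx : x ≠ 0)
    (hg : ∀ᶠ r in 𝓝 ‖x‖, HasDerivAt g (g' r) r) (hg' : HasDerivAt g' g'' ‖x‖) :
    lapE (fun y => g ‖y‖) x = g'' + 2 / ‖x‖ * g' ‖x‖ := by
  have hr : ‖x‖ ≠ 0 := norm_ne_zero_iff.2 hx
  have h1 : ∀ᶠ y in 𝓝 x, y ≠ 0 := continuousAt_id.eventually_ne hx
  have h2 : ∀ᶠ y : E3 in 𝓝 x, HasDerivAt g (g' ‖y‖) ‖y‖ :=
    (continuous_norm.tendsto x).eventually hg
  have key : ∀ c, dd (e3 c) (dd (e3 c) fun y => g ‖y‖) x =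
      g'' * (x c / ‖x‖) * (x c / ‖x‖) +
        g' ‖x‖ * ((1 * ‖x‖ - x c * (x c / ‖x‖)) / ‖x‖ ^ 2) := by
    intro c
    have h3 : dd (e3 c) (fun y => g ‖y‖) =ᶠ[𝓝 x] fun y => g' ‖y‖ * (y c / ‖y‖) := by
      filter_upwards [h1, h2] with y hy hgy
      refine dd_eq ?_
      have h0 : HasDerivAt g (g' ‖y‖) ‖y + e3 c 0‖ := by simpa [e3_zero_euc] using hgy
      exact h0.comp 0 (hd_norm_euc hy c)
    rw [dd_congr_nhds (dir_e3 c) h3]
    refine dd_eq ?_
    have h0 : HasDerivAt g' g'' ‖x + e3 c 0‖ := by simpa [e3_zero_euc] using hg'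
    have h4 := (h0.comp 0 (hd_norm_euc hx c)).mul
      ((hd_coord_euc x c).div (hd_norm_euc hx c) (by simpa [e3_zero_euc] using hx))
    simp only [e3_zero_euc, add_zero, Function.comp_apply, Pi.div_apply] at h4
    exact h4
  have hs : ‖x‖ ^ 2 = x 0 ^ 2 + x 1 ^ 2 + x 2 ^ 2 := by
    rw [EuclideanSpace.real_norm_sq_eq, Fin.sum_univ_three]
  unfold lapE
  rw [Fin.sum_univ_three, key, key, key]
  field_simp
  linear_combination (g' ‖x‖ - g'' * ‖x‖) * hs

/-- Weak maximum principle on the whole space. -/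
theorem max_principle {g : E3 → ℝ} (hg : ContDiff ℝ 2 g) (hΔ : ∀ x, 0 < g x → 0 ≤ lapE g x)
    (hlim : ∀ ε, 0 < ε → ∀ᶠ x in cocompact E3, g x ≤ ε) (x : E3) : g x ≤ 0 := by
  by_contra hpos
  push Not at hpos
  set M := g x with hM
  obtain ⟨K, hK, hKg⟩ := mem_cocompact.1 (hlim (M / 4) (by linarith))
  obtain ⟨ρ₀, hρ₀⟩ := hK.isBounded.subset_closedBall (0 : E3)
  set ρ := |ρ₀| + ‖x‖ + 1 with hρ
  have hρpos : 0 < ρ := by positivity
  set ε := M / (4 * ρ ^ 2) with hε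
  have hεpos : 0 < ε := by positivity
  have hερ : ε * ρ ^ 2 = M / 4 := by rw [hε]; field_simp
  have hGc : Continuous fun y : E3 => g y + ε * ‖y‖ ^ 2 := hg.continuous.add (by fun_prop)
  have hxb : x ∈ Metric.closedBall (0 : E3) ρ := by
    rw [mem_closedBall_zero_iff]; linarith [abs_nonneg ρ₀]
  obtain ⟨z, hz, hmax⟩ := (isCompact_closedBall (0 : E3) ρ).exists_isMaxOn ⟨x, hxb⟩
    hGc.continuousOn
  have h1 : g x + ε * ‖x‖ ^ 2 ≤ g z + ε * ‖z‖ ^ 2 := hmax hxb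
  have h2 : ε * ‖z‖ ^ 2 ≤ ε * ρ ^ 2 :=
    mul_le_mul_of_nonneg_left
      (pow_le_pow_left₀ (norm_nonneg _) (mem_closedBall_zero_iff.1 hz) 2) hεpos.le
  have h3 : 0 ≤ ε * ‖x‖ ^ 2 := by positivity
  have h4 : M / 4 < g z := by linarith
  have hzK : z ∈ K := by
    by_contra hn
    have : g z ≤ M / 4 := hKg hn
    linarith
  have hzρ : ‖z‖ < ρ := by
    have := mem_closedBall_zero_iff.1 (hρ₀ hzK)
    linarith [le_abs_self ρ₀, norm_nonneg x]
  have hloc : IsLocalMax (fun y : E3 => g y + ε * ‖y‖ ^ 2) z :=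
    hmax.isLocalMax (Metric.closedBall_mem_nhds_of_mem (mem_ball_zero_iff.2 hzρ))
  have hl := hΔ z (by linarith)
  obtain ⟨c, hc⟩ : ∃ c, 0 ≤ dd (e3 c) (dd (e3 c) g) z := by
    by_contra hn
    push Not at hn
    unfold lapE at hl
    rw [Fin.sum_univ_three] at hl
    linarith [hn 0, hn 1, hn 2]
  have d1 : D1 (e3 c) g := D1_of_contDiff (hg.of_le (by norm_num)) c
  have d2 : D1 (e3 c) (dd (e3 c) g) :=
    D1_of_contDiff (contDiff_dd (n := 1) (by exact_mod_cast hg) c) c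
  refine no_max_euc (φ := fun s => g (z + e3 c s) + ε * ‖z + e3 c s‖ ^ 2)
    (φ' := fun s => dd (e3 c) g (z + e3 c s) + ε * (2 * z c + 2 * s))
    (d := dd (e3 c) (dd (e3 c) g) z + ε * (2 * 1))
    (fun s => (d1.hasDerivAt (dir_e3 c) z s).add ((hd_normsq_euc z c s).const_mul ε))
    ((d2.hd z).add ((((hasDerivAt_id (0 : ℝ)).const_mul 2).const_add (2 * z c)).const_mul ε))
    (by linarith) ?_
  have h5 : IsLocalMax (fun y : E3 => g y + ε * ‖y‖ ^ 2) (z + e3 c 0) := by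
    rwa [e3_zero_euc, add_zero]
  exact h5.comp_continuous (g := fun s : ℝ => z + e3 c s)
    (continuous_const.add (dir_e3 c).cont).continuousAt

end Pool.Agent.BoseTail
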