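import Pool.Agent.Lib.MP_dec75e_mp.Calc

/-! Coordinate derivatives on Euclidean three-space. -/

open MeasureTheory Complex Finset Filter Function
open scoped ComplexConjugate Real Topology

noncomputable section

namespace Pool.Agent.BoseTail

/-- Shift by `s` in the coordinate direction `c` of Euclidean space. -/
def e3 (c : Fin 3) (s : ℝ) : E3 := EuclideanSpace.single c s

variable {F : Type*} [NormedAddCommGroup F] [NormedSpace ℝ F]

/-- The Laplacian as a sum of second coordinate derivatives. -/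
def lapE (u : E3 → F) (x : E3) : F := ∑ c, dd (e3 c) (dd (e3 c) u) x

theorem e3_smul_euc0 (c : Fin 3) (s : ℝ) : e3 c s = s • e3 c 1 := by
  ext i
  by_cases h : i = c <;> simp [e3, h]

theorem dir_e3 (c : Fin 3) : Dir (e3 c) := by
  refine ⟨fun s t => ?_, ?_⟩
  · rw [e3_smul_euc0 c (s + t), e3_smul_euc0 c s, e3_smul_euc0 c t, add_smul]
  · have : e3 c = fun s : ℝ => s • e3 c 1 := funext (e3_smul_euc0 c)
    rw [this]
    exact continuous_id.smul continuous_const

theorem hd_euc0 {u : E3 → F} {x : E3} (hu : DifferentiableAt ℝ u x) (c : Fin 3) :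
    HasDerivAt (fun s : ℝ => u (x + e3 c s)) (fderiv ℝ u x (e3 c 1)) 0 := by
  have h1 : HasDerivAt (fun s : ℝ => x + s • e3 c 1) (e3 c 1) 0 := by
    simpa using ((hasDerivAt_id (0 : ℝ)).smul_const (e3 c 1)).const_add x
  have h2 : HasFDerivAt u (fderiv ℝ u x) (x + (0 : ℝ) • e3 c 1) := by
    simpa using hu.hasFDerivAt
  have h3 := h2.comp_hasDerivAt (0 : ℝ) h1
  have e : (fun s : ℝ => u (x + e3 c s)) = u ∘ fun s : ℝ => x + s • e3 c 1 := by
    funext s
    rw [Function.comp_apply, ← e3_smul_euc0]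
  rw [e]
  exact h3

theorem dd_e3_eq {u : E3 → F} {x : E3} (hu : DifferentiableAt ℝ u x) (c : Fin 3) :
    dd (e3 c) u x = fderiv ℝ u x (e3 c 1) := (hd_euc0 hu c).deriv

theorem dd_fun_euc0 {u : E3 → F} (hu : Differentiable ℝ u) (c : Fin 3) :
    dd (e3 c) u = fun x => fderiv ℝ u x (e3 c 1) := funext fun x => dd_e3_eq (hu x) c

theorem D1_of_contDiff {u : E3 → F} (hu : ContDiff ℝ 1 u) (c : Fin 3) : D1 (e3 c) u := by
  have hd : Differentiable ℝ u := hu.differentiable one_ne_zero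
  refine ⟨hu.continuous, fun x => (hd_euc0 (hd x) c).differentiableAt, ?_⟩
  rw [dd_fun_euc0 hd]
  exact (hu.continuous_fderiv one_ne_zero).clm_apply continuous_const

theorem contDiff_dd {u : E3 → F} {n : ℕ} (hu : ContDiff ℝ (n + 1 : ℕ) u) (c : Fin 3) :
    ContDiff ℝ n (dd (e3 c) u) := by
  have hd : Differentiable ℝ u := hu.differentiable (by exact_mod_cast Nat.succ_ne_zero n)
  rw [dd_fun_euc0 hd]
  exact (hu.fderiv_right (m := n) (by push_cast; exact le_rfl)).clm_apply contDiff_const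

theorem dd_dd_euc0 {u : E3 → F} (hu : ContDiff ℝ 2 u) (c d : Fin 3) (x : E3) :
    dd (e3 c) (dd (e3 d) u) x = fderiv ℝ (fderiv ℝ u) x (e3 c 1) (e3 d 1) := by
  have hd : Differentiable ℝ u := hu.differentiable two_ne_zero
  have h1 : ContDiff ℝ 1 (fderiv ℝ u) := hu.fderiv_right (m := 1) (by norm_num)
  have h2 : DifferentiableAt ℝ (fderiv ℝ u) x := h1.differentiable one_ne_zero x
  rw [dd_fun_euc0 hd, dd_e3_eq (h2.clm_apply (differentiableAt_const _)),
    fderiv_clm_apply h2 (differentiableAt_const _)]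
  simp

theorem dd_comm [CompleteSpace F] {u : E3 → F} (hu : ContDiff ℝ 2 u) (c d : Fin 3) :
    dd (e3 c) (dd (e3 d) u) = dd (e3 d) (dd (e3 c) u) := by
  funext x
  rw [dd_dd_euc0 hu, dd_dd_euc0 hu]
  exact (hu.contDiffAt.isSymmSndFDerivAt (by simp)) _ _

theorem laplacian_eq_lapE {u : E3 → F} (hu : ContDiff ℝ 2 u) (x : E3) :
    Laplacian.laplacian u x = lapE u x := by
  rw [InnerProductSpace.laplacian_eq_iteratedFDeriv_orthonormalBasis u
    (EuclideanSpace.basisFun (Fin 3) ℝ), lapE]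
  refine sum_congr rfl fun c _ => ?_
  rw [iteratedFDeriv_two_apply, dd_dd_euc0 hu]
  simp [e3]

theorem lapE_congr {u u' : E3 → F} {x : E3} (h : u =ᶠ[𝓝 x] u') : lapE u x = lapE u' x := by
  refine sum_congr rfl fun c _ => dd_congr_nhds (dir_e3 c) ?_
  filter_upwards [eventually_eventually_nhds.2 h] with y hy
  exact dd_congr_nhds (dir_e3 c) hy

theorem dd_e3_out {u : E3 → F} {s : ℝ} (h : ∀ x, s < ‖x‖ → u x = 0) (c : Fin 3) (x : E3)
    (hx : s < ‖x‖) : dd (e3 c) u x = 0 := by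
  have h1 : ∀ᶠ y in 𝓝 x, s < ‖y‖ := (isOpen_lt continuous_const continuous_norm).mem_nhds hx
  rw [dd_congr_nhds (χ := fun _ => (0 : F)) (dir_e3 c) (h1.mono h), dd_const]

end Pool.Agent.BoseTail
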