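import Pool.Agent.Lib.MP_dec75e_mp.Poin

/-! One-body consequences of the scattering equation. -/

open MeasureTheory Complex Finset Filter Function
open scoped ComplexConjugate Real Topology

noncomputable section

namespace Pool.Agent.BoseTail

variable {L : ℝ} [Fact (0 < L)] {P : Par} {w J m : T3 L → ℝ} {R : ℝ}

/-- The normalised source. -/
def mU (m : T3 L → ℝ) (z : T3 L) : ℝ := m z / (4 * π)

theorem four_pi_pos_loc : (0 : ℝ) < 4 * π := by positivity

theorem Sc.cont_mU_loc (h : Sc P w R J m) : Continuous (mU m) := h.mc.div_const _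

theorem Sc.wt (h : Sc P w R J m) (hR : 0 < R) : Wt (8 * P.Λ) (2 * R) (mU m) := by
  refine ⟨BM.of_cont h.cont_mU_loc, fun z => ?_, fun z hz => ?_, ?_⟩
  · have h1 := h.mle z
    have h3 : (1 : ℝ) ≤ 4 * π := by linarith [Real.pi_gt_three]
    have e : 8 * P.Λ / (2 * R) ^ 3 = P.Λ / R ^ 3 := by field_simp; ring
    rw [e, mU, abs_div, abs_of_pos four_pi_pos_loc]
    exact (div_le_self (abs_nonneg _) h3).trans h1
  · simp [mU, h.mout z hz]
  · simp only [mU]
    rw [integral_div, h.mint, div_self four_pi_pos_loc.ne']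

theorem Sc.cont_J_loc (h : Sc P w R J m) : Continuous J := h.J2.c1.cont

theorem integral_lap_loc (hJ : C2T J) : ∫ z, lapT J z = 0 := by
  simp only [lapT]
  rw [integral_finsetSum _ fun c _ => cont_integrable (hJ c).2.cdd]
  exact Finset.sum_eq_zero fun c _ => integral_dd (dir_d1 c) (hJ c).2

theorem Sc.integral_wJ (hw : Wp P w) (h : Sc P w R J m) : ∫ z, w z * J z = 4 * π * P.a := by
  have h0 := integral_lap_loc h.J2
  simp only [h.lap] at h0
  have i1 : Integrable fun z => w z * J z := cont_integrable (hw.cont.mul h.cont_J_loc)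
  have i2 : Integrable fun z => P.a * m z := cont_integrable (continuous_const.mul h.mc)
  rw [integral_sub i1 i2, integral_const_mul, h.mint] at h0
  linarith

theorem integral_gT_loc (hJ : C2T J) : ∫ z, gT J z = -∫ z, J z * lapT J z := by
  have hc : ∀ c : Fin 3, ∫ z, ‖dd (d1 c) J z‖ ^ 2 = -∫ z, J z * dd (d1 c) (dd (d1 c) J) z := by
    intro c
    rw [← ibp (dir_d1 c) (hJ c).1 (hJ c).2]
    refine integral_congr_ae (Eventually.of_forall fun z => ?_)
    simp only [Real.norm_eq_abs, sq_abs]; ring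
  have i1 : ∀ c : Fin 3, Integrable fun z => ‖dd (d1 c) J z‖ ^ 2 := fun c =>
    cont_integrable ((hJ c).1.cdd.norm.pow 2)
  have i2 : ∀ c : Fin 3, Integrable fun z => J z * dd (d1 c) (dd (d1 c) J) z := fun c =>
    cont_integrable ((hJ c).1.cont.mul (hJ c).2.cdd)
  simp only [gT, lapT, Finset.mul_sum]
  rw [integral_finsetSum _ fun c _ => i1 c, integral_finsetSum _ fun c _ => i2 c,
    ← Finset.sum_neg_distrib]
  exact Finset.sum_congr rfl fun c _ => hc c

theorem Sc.defect_loc (h : Sc P w R J m) (hR : 0 < R) :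
    |∫ z, m z * (1 - J z)| ≤ 64 * P.Λ * P.a / R := by
  have hΛ : 0 ≤ P.Λ := by linarith [P.hΛ]
  have ha := P.ha
  have hc : Continuous fun z => m z * (1 - J z) := h.mc.mul (continuous_const.sub h.cont_J_loc)
  have h1 : |∫ z, m z * (1 - J z)| ≤ ∫ z, |m z * (1 - J z)| := abs_integral_le_integral_abs
  have h2 : ∫ z, |m z * (1 - J z)| ≤ (P.Λ / R ^ 3 * (P.a / R)) * (2 * (2 * R)) ^ 3 := by
    refine integral_le_of_out (BM.of_cont hc.abs) (by positivity) (fun z => ?_) (by positivity)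
      fun z hz => ?_
    · by_cases hm : m z = 0
      · simp only [hm, zero_mul, abs_zero]; positivity
      · rw [abs_mul, abs_of_nonneg (sub_nonneg.2 (h.J1 z))]
        exact mul_le_mul (h.mle z) (h.mJ z hm) (sub_nonneg.2 (h.J1 z)) (by positivity)
    · simp [h.mout z hz]
  have e : (P.Λ / R ^ 3 * (P.a / R)) * (2 * (2 * R)) ^ 3 = 64 * P.Λ * P.a / R := by
    field_simp; ring
  linarith

/-- The scattering energy. -/
theorem Sc.energy (hw : Wp P w) (h : Sc P w R J m) (hR : 0 < R) :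
    |(∫ z, gT J z + w z * J z ^ 2) - 4 * π * P.a| ≤ 64 * P.Λ * P.a ^ 2 / R := by
  have hJ := h.cont_J_loc
  have ha := P.ha
  have i1 : Integrable (gT J) := cont_integrable h.J2.c1.cont_gT
  have i2 : Integrable fun z => w z * J z ^ 2 := cont_integrable (hw.cont.mul (hJ.pow 2))
  have i3 : Integrable fun z => P.a * (m z * (1 - J z)) :=
    cont_integrable (continuous_const.mul (h.mc.mul (continuous_const.sub hJ)))
  have i4 : Integrable fun z => P.a * m z := cont_integrable (continuous_const.mul h.mc)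
  have e1 : ∫ z, J z * lapT J z =
      ∫ z, (w z * J z ^ 2 + P.a * (m z * (1 - J z))) - P.a * m z := by
    refine integral_congr_ae (Eventually.of_forall fun z => ?_)
    simp only [h.lap]; ring
  have i5 : Integrable fun z => w z * J z ^ 2 + P.a * (m z * (1 - J z)) := i2.add i3
  rw [integral_sub i5 i4, integral_add i2 i3, integral_const_mul, integral_const_mul,
    h.mint] at e1
  have e2 : (∫ z, gT J z + w z * J z ^ 2) - 4 * π * P.a = -(P.a * ∫ z, m z * (1 - J z)) := by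
    rw [integral_add i1 i2, integral_gT_loc h.J2, e1]; ring
  rw [e2, abs_neg, abs_mul, abs_of_pos ha]
  calc P.a * |∫ z, m z * (1 - J z)| ≤ P.a * (64 * P.Λ * P.a / R) :=
        mul_le_mul_of_nonneg_left (h.defect_loc hR) ha.le
    _ = 64 * P.Λ * P.a ^ 2 / R := by ring

theorem Sc.dd_out_loc (h : Sc P w R J m) (c : Fin 3) {z : T3 L} (hz : 2 * R < ‖z‖) :
    dd (d1 c) J z = 0 :=
  dd_d1_eq_zero_of_out (a := 1) (fun y hy => h.Jout y hy.le) c hz

theorem Sc.gT_out (h : Sc P w R J m) {z : T3 L} (hz : 2 * R < ‖z‖) : gT J z = 0 := by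
  simp [gT, h.dd_out_loc _ hz]

theorem Sc.integral_one_sub_sq (h : Sc P w R J m) (hR : 0 < R) :
    ∫ z, (1 - J z ^ 2) ≤ 64 * R ^ 3 := by
  have h2 : ∫ z, (1 - J z ^ 2) ≤ 1 * (2 * (2 * R)) ^ 3 := by
    have hc : Continuous fun z => 1 - J z ^ 2 := continuous_const.sub (h.cont_J_loc.pow 2)
    refine integral_le_of_out (BM.of_cont hc) (by positivity) (fun z => ?_) zero_le_one
      fun z hz => ?_
    · nlinarith [sq_nonneg (J z)]
    · simp [h.Jout z hz.le]
  linarith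

theorem normSq_sub_loc (a b : ℂ) : ‖a - b‖ ^ 2 = ‖a‖ ^ 2 - 2 * ip b a + ‖b‖ ^ 2 := by
  rw [← ip_self, ← ip_self, ← ip_self, ip_sub_left, ip_sub_right, ip_sub_right, ip_comm a b]
  ring

theorem normSq_mul_real_loc (A : ℂ) (t : ℝ) : ‖A * (t : ℂ)‖ ^ 2 = ‖A‖ ^ 2 * t ^ 2 := by
  rw [norm_mul, mul_pow, Complex.norm_real, Real.norm_eq_abs, sq_abs]

theorem ip_mul_real_loc (A b : ℂ) (t : ℝ) : ip (A * (t : ℂ)) b = t * ip A b := by
  rw [mul_comm, ip_ofReal_left]

/-- The weak form of the scattering equation. -/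
theorem Sc.weak_loc (hw : Wp P w) (h : Sc P w R J m) {u : T3 L → ℂ} (hu : C1T u) (A : ℂ) :
    (∫ z, ∑ c, dd (d1 c) J z * ip A (dd (d1 c) u z)) + ∫ z, w z * J z * ip A (u z) =
      4 * π * P.a * ip A (∫ z, (mU m z : ℂ) * u z) := by
  have hJ := h.cont_J_loc
  have huc := hu.cont
  have hA : ∀ c, D1 (d1 c) (fun z => ip A (u z)) := fun c =>
    (D1.const A).ip (dir_d1 c) (hu c)
  have hdA : ∀ c z, dd (d1 c) (fun z => ip A (u z)) z = ip A (dd (d1 c) u z) := by
    intro c z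
    rw [dd_ip (dir_d1 c) (D1.const A) (hu c), dd_const]
    simp [ip]
  have hc : ∀ c : Fin 3, ∫ z, dd (d1 c) J z * ip A (dd (d1 c) u z) =
      -∫ z, dd (d1 c) (dd (d1 c) J) z * ip A (u z) := by
    intro c
    rw [ibp (dir_d1 c) (h.J2 c).2 (hA c), neg_neg]
    simp only [hdA]
  have cA : Continuous fun z => ip A (u z) := (hA 0).cont
  have e1 : (∫ z, ∑ c, dd (d1 c) J z * ip A (dd (d1 c) u z)) = -∫ z, lapT J z * ip A (u z) := by
    have j1 : ∀ c : Fin 3, Integrable fun z => dd (d1 c) J z * ip A (dd (d1 c) u z) := fun c =>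
      cont_integrable ((h.J2 c).1.cdd.mul (continuous_ip continuous_const (hu c).cdd))
    have j2 : ∀ c : Fin 3, Integrable fun z => dd (d1 c) (dd (d1 c) J) z * ip A (u z) := fun c =>
      cont_integrable ((h.J2 c).2.cdd.mul cA)
    simp only [lapT, Finset.sum_mul]
    rw [integral_finsetSum _ fun c _ => j1 c, integral_finsetSum _ fun c _ => j2 c,
      ← Finset.sum_neg_distrib]
    exact Finset.sum_congr rfl fun c _ => hc c
  have i1 : Integrable fun z => w z * J z * ip A (u z) := cont_integrable ((hw.cont.mul hJ).mul cA)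
  have cm : Continuous fun z => (mU m z : ℂ) * u z :=
    (Complex.continuous_ofReal.comp h.cont_mU_loc).mul huc
  have i2 : Integrable fun z => 4 * π * P.a * ip A ((mU m z : ℂ) * u z) :=
    cont_integrable (continuous_const.mul (continuous_ip continuous_const cm))
  have e2 : ∫ z, lapT J z * ip A (u z) =
      ∫ z, w z * J z * ip A (u z) - 4 * π * P.a * ip A ((mU m z : ℂ) * u z) := by
    refine integral_congr_ae (Eventually.of_forall fun z => ?_)
    simp only [h.lap, ip_ofReal_right, mU]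
    have := four_pi_pos_loc.ne'
    field_simp
  rw [e1, e2, integral_sub i1 i2, integral_const_mul, integral_ip_right (BM.of_cont cm)]
  ring

/-- The local energy controls the amplitude and the error of the scattering approximation. -/
theorem Sc.local (hw : Wp P w) (h : Sc P w R J m) (hR : P.R0 ≤ R) {u : T3 L → ℂ} (hu : C1T u) :
    (4 * π * P.a - 64 * P.Λ * P.a ^ 2 / R) * ‖∫ z, (mU m z : ℂ) * u z‖ ^ 2 +
        P.W⁻¹ * ‖(∫ z, (w z : ℂ) * u z) - (4 * π * P.a : ℝ) * ∫ z, (mU m z : ℂ) * u z‖ ^ 2 ≤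
      (∫ z, nb (2 * R) z * gT u z) + ∫ z, w z * ‖u z‖ ^ 2 := by
  have hR0 : 0 < R := by linarith [P.hR0]
  have hJ := h.cont_J_loc
  have huc := hu.cont
  set A : ℂ := ∫ z, (mU m z : ℂ) * u z with hA
  have cJ : Continuous fun z => A * (J z : ℂ) :=
    continuous_const.mul (Complex.continuous_ofReal.comp hJ)
  have cr : Continuous fun z => u z - A * (J z : ℂ) := huc.sub cJ
  have cw : Continuous fun z => (w z : ℂ) := Complex.continuous_ofReal.comp hw.cont
  have cA : Continuous fun z => ip A (u z) := continuous_ip continuous_const huc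
  have cX : Continuous fun z => ∑ c, dd (d1 c) J z * ip A (dd (d1 c) u z) :=
    continuous_finsetSum _ fun c _ =>
      (h.J2 c).1.cdd.mul (continuous_ip continuous_const (hu c).cdd)
  have cG : Continuous (gT J) := h.J2.c1.cont_gT
  -- kinetic part
  have k1 : ∀ z, 2 * (∑ c, dd (d1 c) J z * ip A (dd (d1 c) u z)) - ‖A‖ ^ 2 * gT J z ≤
      nb (2 * R) z * gT u z := by
    intro z
    by_cases hz : ‖z‖ ≤ 2 * R
    · simp only [nb, hz, if_true, one_mul, gT, Finset.mul_sum, ← Finset.sum_sub_distrib]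
      refine Finset.sum_le_sum fun c _ => ?_
      have h1 := normSq_sub_loc (dd (d1 c) u z) (A * ((dd (d1 c) J z : ℝ) : ℂ))
      rw [normSq_mul_real_loc, ip_mul_real_loc] at h1
      rw [Real.norm_eq_abs, sq_abs]
      nlinarith [sq_nonneg ‖dd (d1 c) u z - A * ((dd (d1 c) J z : ℝ) : ℂ)‖]
    · have hz' : 2 * R < ‖z‖ := not_le.1 hz
      simp [nb, hz, h.gT_out hz', h.dd_out_loc _ hz']
  have k2 : 2 * (∫ z, ∑ c, dd (d1 c) J z * ip A (dd (d1 c) u z)) - ‖A‖ ^ 2 * ∫ z, gT J z ≤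
      ∫ z, nb (2 * R) z * gT u z := by
    have j1 : Integrable fun z => 2 * (∑ c, dd (d1 c) J z * ip A (dd (d1 c) u z)) :=
      cont_integrable (continuous_const.mul cX)
    have j2 : Integrable fun z => ‖A‖ ^ 2 * gT J z := cont_integrable (continuous_const.mul cG)
    rw [← integral_const_mul, ← integral_const_mul, ← integral_sub j1 j2]
    exact integral_mono (j1.sub j2) ((BM_nb _).mul (BM.of_cont hu.cont_gT)).integrable k1
  -- potential part
  have i1 : Integrable fun z => w z * ‖u z - A * (J z : ℂ)‖ ^ 2 :=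
    cont_integrable (hw.cont.mul (cr.norm.pow 2))
  have i2 : Integrable fun z => 2 * (w z * J z * ip A (u z)) :=
    cont_integrable (continuous_const.mul ((hw.cont.mul hJ).mul cA))
  have i3 : Integrable fun z => ‖A‖ ^ 2 * (w z * J z ^ 2) :=
    cont_integrable (continuous_const.mul (hw.cont.mul (hJ.pow 2)))
  have p1 : ∫ z, w z * ‖u z‖ ^ 2 = ∫ z, (w z * ‖u z - A * (J z : ℂ)‖ ^ 2 +
      2 * (w z * J z * ip A (u z))) - ‖A‖ ^ 2 * (w z * J z ^ 2) := by
    refine integral_congr_ae (Eventually.of_forall fun z => ?_)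
    simp only [normSq_sub_loc, normSq_mul_real_loc, ip_mul_real_loc]
    ring
  have i4 : Integrable fun z => w z * ‖u z - A * (J z : ℂ)‖ ^ 2 +
      2 * (w z * J z * ip A (u z)) := i1.add i2
  rw [integral_sub i4 i3, integral_add i1 i2, integral_const_mul, integral_const_mul] at p1
  have wk := h.weak_loc hw hu A
  rw [← hA, ip_self] at wk
  have en := (abs_le.1 (h.energy hw hR0)).2
  have i5 : Integrable fun z => w z * J z ^ 2 := cont_integrable (hw.cont.mul (hJ.pow 2))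
  rw [integral_add (cont_integrable cG) i5] at en
  -- the remainder
  have r1 : (∫ z, (w z : ℂ) * u z) - (4 * π * P.a : ℝ) * A =
      ∫ z, (w z : ℂ) * (u z - A * (J z : ℂ)) := by
    have e : ∀ z, (w z : ℂ) * (u z - A * (J z : ℂ)) =
        (w z : ℂ) * u z - A * ((w z * J z : ℝ) : ℂ) := by
      intro z; push_cast; ring
    simp only [e]
    have j1 : Integrable fun z => (w z : ℂ) * u z := cont_integrable (cw.mul huc)
    have j2 : Integrable fun z => A * ((w z * J z : ℝ) : ℂ) := cont_integrable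
      (continuous_const.mul (Complex.continuous_ofReal.comp (hw.cont.mul hJ)))
    rw [integral_sub j1 j2, integral_const_mul, integral_complex_ofReal, h.integral_wJ hw,
      mul_comm A]
  have hW : 0 < P.W := by
    have := P.hV
    have := P.hR0
    unfold Par.W; positivity
  have r2 := jensen_wt (μ := volume) hw.bm (BM.of_cont cr)
  simp only [abs_of_nonneg (hw.nonneg _)] at r2
  have r3 : 0 ≤ ∫ z, w z * ‖u z - A * (J z : ℂ)‖ ^ 2 :=
    integral_nonneg fun z => mul_nonneg (hw.nonneg z) (sq_nonneg _)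
  have r4 : P.W⁻¹ * ‖(∫ z, (w z : ℂ) * u z) - (4 * π * P.a : ℝ) * A‖ ^ 2 ≤
      ∫ z, w z * ‖u z - A * (J z : ℂ)‖ ^ 2 := by
    rw [r1, inv_mul_le_iff₀ hW]
    exact r2.trans (mul_le_mul_of_nonneg_right hw.integral_le r3)
  have hA0 : 0 ≤ ‖A‖ ^ 2 := sq_nonneg _
  have en2 := mul_le_mul_of_nonneg_left en hA0
  nlinarith

end Pool.Agent.BoseTail

namespace Pool.Agent.BoseTail

/-- Crude Dyson lemma around one scatterer at the origin. -/
theorem dyson_one (P : Par) : ∃ C ℓ₀ : ℝ, 1 ≤ C ∧ 1 ≤ ℓ₀ ∧ ∀ (L : ℝ) [Fact (0 < L)]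
    (w : T3 L → ℝ), Pot P w → ∀ ℓ, ℓ₀ ≤ ℓ → 8 * ℓ ≤ L → ∀ u : T3 L → ℂ, C1T u →
      ∫ z, nb (2 * ℓ) z * ‖u z‖ ^ 2 ≤
        C * ℓ ^ 3 * ((∫ z, nb (6 * ℓ) z * gT u z) + ∫ z, w z * ‖u z‖ ^ 2) := by
  have ha := P.ha
  have hΛ := P.hΛ
  have hR0 := P.hR0
  have hΛa : 0 ≤ 64 * P.Λ * P.a := by positivity
  refine ⟨1 + 128 / P.a + 3145728 * P.Λ ^ 2, P.R0 + 64 * P.Λ * P.a, ?_, by linarith, ?_⟩
  · have : 0 ≤ 128 / P.a + 3145728 * P.Λ ^ 2 := by positivity
    linarith
  intro L _ w hp ℓ hℓ hL u hu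
  have hw := hp.wp
  have hℓ1 : 1 ≤ ℓ := by linarith
  have hℓ0 : 0 < ℓ := by linarith
  obtain ⟨J, m, h⟩ := hp.scat ℓ (by linarith) hL
  have loc := h.local hw (by linarith) hu
  have po := poin_l2 hu (by positivity : 0 < 2 * ℓ) (h.wt hℓ0)
  set A : ℂ := ∫ z, (mU m z : ℂ) * u z with hA
  have e6 : 3 * (2 * ℓ) = 6 * ℓ := by ring
  rw [e6] at po
  have bg := BM.of_cont hu.cont_gT
  have g0 : ∀ z, 0 ≤ gT u z := fun z => Finset.sum_nonneg fun c _ => sq_nonneg _
  have m1 : ∫ z, nb (2 * ℓ) z * gT u z ≤ ∫ z, nb (6 * ℓ) z * gT u z :=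
    integral_mono ((BM_nb _).mul bg).integrable ((BM_nb _).mul bg).integrable fun z =>
      mul_le_mul_of_nonneg_right (nb_mono (by linarith) z) (g0 z)
  have K0 : 0 ≤ ∫ z, nb (6 * ℓ) z * gT u z :=
    integral_nonneg fun z => mul_nonneg (nb_nonneg _ z) (g0 z)
  have V0 : 0 ≤ ∫ z, w z * ‖u z‖ ^ 2 :=
    integral_nonneg fun z => mul_nonneg (hw.nonneg z) (sq_nonneg _)
  set K := ∫ z, nb (6 * ℓ) z * gT u z with hK
  set V := ∫ z, w z * ‖u z‖ ^ 2 with hV
  have hW : 0 < P.W := by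
    have := P.hV
    unfold Par.W; positivity
  have c1 : 64 * P.Λ * P.a ^ 2 / ℓ ≤ P.a := by
    rw [div_le_iff₀ hℓ0]; nlinarith
  have c2 : P.a ≤ 4 * π * P.a - 64 * P.Λ * P.a ^ 2 / ℓ := by nlinarith [Real.pi_gt_three]
  have hA1 : P.a * ‖A‖ ^ 2 ≤ K + V := by
    have h1 := mul_le_mul_of_nonneg_right c2 (sq_nonneg ‖A‖)
    have h2 : 0 ≤ P.W⁻¹ * ‖(∫ z, (w z : ℂ) * u z) - (4 * π * P.a : ℝ) * A‖ ^ 2 := by positivity
    linarith
  have hA2 : ‖A‖ ^ 2 ≤ (K + V) / P.a := by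
    rw [le_div_iff₀ ha]; linarith
  have cr : Continuous fun z => ‖u z - A‖ ^ 2 := (hu.cont.sub continuous_const).norm.pow 2
  have i1 : Integrable fun z : T3 L => 2 * ‖A‖ ^ 2 * nb (2 * ℓ) z :=
    (BM_nb _).integrable.const_mul _
  have i2 : Integrable fun z : T3 L => 2 * (nb (2 * ℓ) z * ‖u z - A‖ ^ 2) :=
    ((BM_nb _).mul (BM.of_cont cr)).integrable.const_mul _
  have s1 : ∫ z, nb (2 * ℓ) z * ‖u z‖ ^ 2 ≤
      ∫ z, 2 * ‖A‖ ^ 2 * nb (2 * ℓ) z + 2 * (nb (2 * ℓ) z * ‖u z - A‖ ^ 2) := by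
    refine integral_mono ((BM_nb _).mul (BM.of_cont (hu.cont.norm.pow 2))).integrable
      (i1.add i2) fun z => ?_
    have t1 : ‖u z‖ ≤ ‖A‖ + ‖u z - A‖ := by
      simpa using norm_add_le A (u z - A)
    have t2 : ‖u z‖ ^ 2 ≤ 2 * ‖A‖ ^ 2 + 2 * ‖u z - A‖ ^ 2 := by
      nlinarith [norm_nonneg (u z), norm_nonneg A, norm_nonneg (u z - A),
        sq_nonneg (‖A‖ - ‖u z - A‖)]
    have t3 := mul_le_mul_of_nonneg_left t2 (nb_nonneg (2 * ℓ) z)
    simp only
    linarith
  rw [integral_add i1 i2, integral_const_mul, integral_const_mul] at s1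
  have v1 := integral_nb_le (L := L) (s := 2 * ℓ) (by positivity)
  have v2 : 2 * ‖A‖ ^ 2 * ∫ z : T3 L, nb (2 * ℓ) z ≤ 2 * ((K + V) / P.a) * (2 * (2 * ℓ)) ^ 3 :=
    mul_le_mul (by linarith) v1 (integral_nonneg fun z => nb_nonneg _ z) (by positivity)
  have l23 : ℓ ^ 2 ≤ ℓ ^ 3 := pow_le_pow_right₀ hℓ1 (by norm_num)
  have v3 : 6144 * (8 * P.Λ) ^ 2 * (2 * ℓ) ^ 2 * K ≤ 1572864 * P.Λ ^ 2 * ℓ ^ 3 * (K + V) := by
    have : 6144 * (8 * P.Λ) ^ 2 * (2 * ℓ) ^ 2 * K = 1572864 * P.Λ ^ 2 * ℓ ^ 2 * K := by ring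
    rw [this]
    exact mul_le_mul (mul_le_mul_of_nonneg_left l23 (by positivity)) (by linarith) K0
      (by positivity)
  have v4 : 0 ≤ ℓ ^ 3 * (K + V) := by positivity
  have e : (1 + 128 / P.a + 3145728 * P.Λ ^ 2) * ℓ ^ 3 * (K + V) =
      ℓ ^ 3 * (K + V) + 2 * ((K + V) / P.a) * (2 * (2 * ℓ)) ^ 3 +
        2 * (1572864 * P.Λ ^ 2 * ℓ ^ 3 * (K + V)) := by ring
  rw [e]
  linarith

end Pool.Agent.BoseTail
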