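import Pool.Agent.Lib.MP_dec75e_mp.Jas0
import Pool.Agent.Lib.MP_dec75e_mp.Loc

/-! The Jastrow upper bound for the ground state energy. -/

open MeasureTheory Complex Finset Filter Function
open scoped ComplexConjugate Real Topology

noncomputable section

namespace Pool.Agent.BoseTail

/-- The `ℓ¹` norm of the gradient of the scattering solution in terms of its energy. -/
theorem g1T_sq_jas {L : ℝ} [Fact (0 < L)] {P : Par} {w J m : T3 L → ℝ} {R : ℝ} (hw : Wp P w)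
    (h : Sc P w R J m) (hR : 0 < R) :
    (∫ z, g1T J z) ^ 2 ≤ 192 * R ^ 3 * ∫ z, gT J z + w z * J z ^ 2 := by
  have hc1 : C1T J := h.J2.c1
  have hg1 : Continuous (g1T J) := hc1.cont_g1T
  have hg : Continuous (gT J) := hc1.cont_gT
  have hJ : Continuous J := hc1.cont
  have hwc : Continuous w := hw.cont
  have e1 : ∀ z, g1T J z = nb (2 * R) z * g1T J z := by
    intro z
    by_cases hz : ‖z‖ ≤ 2 * R
    · simp [nb, hz]
    · have h0 := h.gT_out (not_le.mp hz)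
      have h1 := g1T_sq_le J z
      rw [h0, mul_zero] at h1
      have h2 : g1T J z = 0 := by nlinarith [sq_nonneg (g1T J z)]
      simp [h2]
  have h1 : ∫ z, g1T J z ≤ √(∫ z : T3 L, nb (2 * R) z ^ 2) * √(∫ z, g1T J z ^ 2) := by
    have := cs_one (μ := (volume : Measure (T3 L))) (BM_nb (L := L) (2 * R)) (BM.of_cont hg1)
    refine le_trans (le_of_eq ?_) this
    exact integral_congr_ae (Eventually.of_forall e1)
  have h0 : 0 ≤ ∫ z, g1T J z :=
    integral_nonneg fun z => Finset.sum_nonneg fun c _ => norm_nonneg _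
  have h2 : ∫ z : T3 L, nb (2 * R) z ^ 2 ≤ (2 * (2 * R)) ^ 3 := by
    have : (fun z : T3 L => nb (2 * R) z ^ 2) = fun z => nb (2 * R) z :=
      funext fun z => by rw [sq, nb_mul_self]
    rw [this]
    exact integral_nb_le (by positivity)
  have h3 : ∫ z, g1T J z ^ 2 ≤ 3 * ∫ z, gT J z + w z * J z ^ 2 := by
    rw [← integral_const_mul]
    refine integral_mono (cont_integrable (hg1.pow 2))
      (cont_integrable (continuous_const.mul (hg.add (hwc.mul (hJ.pow 2))))) fun z => ?_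
    have a1 := g1T_sq_le J z
    have a2 : 0 ≤ w z * J z ^ 2 := mul_nonneg (hw.nonneg z) (sq_nonneg _)
    show g1T J z ^ 2 ≤ 3 * (gT J z + w z * J z ^ 2)
    linarith
  have h4 : 0 ≤ ∫ z : T3 L, nb (2 * R) z ^ 2 := integral_nonneg fun z => sq_nonneg _
  have h5 : 0 ≤ ∫ z, g1T J z ^ 2 := integral_nonneg fun z => sq_nonneg _
  calc (∫ z, g1T J z) ^ 2 ≤ (√(∫ z : T3 L, nb (2 * R) z ^ 2) * √(∫ z, g1T J z ^ 2)) ^ 2 :=
        pow_le_pow_left₀ h0 h1 2
    _ = (∫ z : T3 L, nb (2 * R) z ^ 2) * ∫ z, g1T J z ^ 2 := by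
        rw [mul_pow, Real.sq_sqrt h4, Real.sq_sqrt h5]
    _ ≤ (2 * (2 * R)) ^ 3 * (3 * ∫ z, gT J z + w z * J z ^ 2) :=
        mul_le_mul h2 h3 h5 (by positivity)
    _ = 192 * R ^ 3 * ∫ z, gT J z + w z * J z ^ 2 := by ring

theorem jastrow (P : Par) {η : ℝ} (hη : 0 < η) : ∃ ρ₀ : ℝ, 0 < ρ₀ ∧ ∀ (N : ℕ) (L : ℝ)
    [Fact (0 < L)] (w : T3 L → ℝ) (ψ : Cf N L → ℂ), Setup P w ψ → rho N L ≤ ρ₀ →
      ES w univ ψ ≤ N * (2 * π * P.a * rho N L * (1 + η)) := by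
  have ha := P.ha
  have hΛ := P.hΛ
  have hR0 := P.hR0
  have hπ := Real.pi_pos
  obtain ⟨θ, hθ0, hθ1, hθη⟩ : ∃ θ : ℝ, 0 < θ ∧ θ ≤ 1 / 8 ∧ 8 * θ ≤ η := by
    refine ⟨min η 1 / 8, by positivity, ?_, ?_⟩
    · have := min_le_right η 1; linarith
    · have := min_le_left η 1; linarith
  obtain ⟨R, hR1, hR2⟩ : ∃ R : ℝ, P.R0 ≤ R ∧ 64 * P.Λ * P.a ^ 2 / (4 * π * P.a * θ) ≤ R :=
    ⟨max _ _, le_max_left _ _, le_max_right _ _⟩
  have hR : 0 < R := by linarith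
  have hR3 : 64 * P.Λ * P.a ^ 2 / R ≤ 4 * π * P.a * θ := by
    rw [div_le_iff₀ (by positivity)] at hR2
    rw [div_le_iff₀ hR]
    linarith
  refine ⟨min (θ / (3072 * R ^ 3)) (1 / (8 * R) ^ 2), by positivity, ?_⟩
  intro N L _ w ψ hS hρ
  obtain ⟨hρ0, -, hN⟩ := hS.basic
  have hρ1 : rho N L * (3072 * R ^ 3) ≤ θ := by
    have := hρ.trans (min_le_left _ _)
    rwa [le_div_iff₀ (by positivity)] at this
  have hρ2 : (8 * R) ^ 2 * rho N L ≤ 1 := by
    have := hρ.trans (min_le_right _ _)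
    rw [le_div_iff₀ (by positivity)] at this
    linarith
  have hL : 8 * R ≤ L := hS.r_le hR.le (by norm_num) hρ2
  obtain ⟨J, m, hJ⟩ := hS.pot.scat R hR1 hL
  have hw := hS.pot.wp
  have hI := hJ.integral_one_sub_sq hR
  have hI2 : rho N L * (64 * R ^ 3) ≤ θ / 48 := by linarith
  have hI0 : 0 ≤ rho N L * (64 * R ^ 3) := by positivity
  obtain ⟨hc, hpos, hE⟩ := jas_energy (N := N) hw.cont hw.nonneg hw.even hJ.J2.c1 hJ.J0 hJ.J1 hI
    (by linarith)
  have hmin := hS.gs.min _ hc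
  have hen := (abs_le.mp (hJ.energy hw hR)).2
  have hG := g1T_sq_jas hw hJ hR
  set E := ∫ z, gT J z + w z * J z ^ 2 with hEdef
  set G := (∫ z, g1T J z) ^ 2 with hGdef
  set u := rho N L * (64 * R ^ 3) with hu
  set n := nsq (fun x : Cf N L => (jas J univ x : ℂ)) with hn
  set ρ := rho N L with hρdef
  have hE1 : E ≤ 4 * π * P.a * (1 + θ) := by linarith
  have hpa : 0 < π * P.a := by positivity
  have hE2 : E ≤ 8 * (π * P.a) := by nlinarith
  have hG1 : G ≤ 192 * R ^ 3 * (8 * (π * P.a)) :=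
    hG.trans (mul_le_mul_of_nonneg_left hE2 (by positivity))
  have hX : ρ / 2 * E + ρ ^ 2 * 4 * G ≤ 2 * π * P.a * ρ * (1 + 2 * θ) := by
    have a1 : ρ / 2 * E ≤ ρ / 2 * (4 * π * P.a * (1 + θ)) :=
      mul_le_mul_of_nonneg_left hE1 (by positivity)
    have a2 : ρ ^ 2 * 4 * G ≤ ρ ^ 2 * 4 * (192 * R ^ 3 * (8 * (π * P.a))) :=
      mul_le_mul_of_nonneg_left hG1 (by positivity)
    have a3 : 2 * (π * P.a) * ρ * (ρ * (3072 * R ^ 3)) ≤ 2 * (π * P.a) * ρ * θ :=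
      mul_le_mul_of_nonneg_left hρ1 (by positivity)
    nlinarith
  have hu3 : 1 - θ ≤ (1 - u) ^ 3 := by
    have := one_add_mul_le_pow (a := -u) (by linarith) 3
    have e : (1 + -u) = 1 - u := by ring
    rw [e] at this
    push_cast at this
    linarith
  have hu3' : 0 < (1 - u) ^ 3 := by linarith
  have h1 : (1 - u) ^ 3 * ES w univ ψ * n ≤ N * (2 * π * P.a * ρ * (1 + 2 * θ)) * n := by
    calc (1 - u) ^ 3 * ES w univ ψ * n = (1 - u) ^ 3 * (ES w univ ψ * n) := by ring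
      _ ≤ (1 - u) ^ 3 * ES w univ (fun x : Cf N L => (jas J univ x : ℂ)) :=
          mul_le_mul_of_nonneg_left hmin hu3'.le
      _ ≤ N * (ρ / 2 * E + ρ ^ 2 * 4 * G) * n := hE
      _ ≤ N * (2 * π * P.a * ρ * (1 + 2 * θ)) * n := by
          gcongr
  have h2 : (1 - u) ^ 3 * ES w univ ψ ≤ N * (2 * π * P.a * ρ * (1 + 2 * θ)) :=
    le_of_mul_le_mul_right h1 hpos
  have h3 : 1 + 2 * θ ≤ (1 - u) ^ 3 * (1 + η) := by
    have : (1 - θ) * (1 + η) ≤ (1 - u) ^ 3 * (1 + η) :=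
      mul_le_mul_of_nonneg_right hu3 (by linarith)
    nlinarith
  refine le_of_mul_le_mul_left ?_ hu3'
  calc (1 - u) ^ 3 * ES w univ ψ ≤ N * (2 * π * P.a * ρ * (1 + 2 * θ)) := h2
    _ ≤ N * (2 * π * P.a * ρ * ((1 - u) ^ 3 * (1 + η))) := by gcongr
    _ = (1 - u) ^ 3 * (N * (2 * π * P.a * ρ * (1 + η))) := by ring

end Pool.Agent.BoseTail
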