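import Pool.Agent.Lib.MP_dec75e_mp.Low
import Pool.Agent.Lib.MP_dec75e_mp.Jas

/-! The amplitude at the scattering scale and the excess energy. -/

open MeasureTheory Complex Finset Filter Function
open scoped ComplexConjugate Real Topology

noncomputable section

namespace Pool.Agent.BoseTail

section
variable {N : ℕ} {L : ℝ} [Fact (0 < L)] {P : Par} {w J m : T3 L → ℝ} {R : ℝ} {ψ : Cf N L → ℂ}

/-- Particle `j` is isolated from all particles other than `o`. -/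
def iso (o j : Fin N) (s : ℝ) (x : Cf N L) : ℝ :=
  ∏ l ∈ (univ.erase o).erase j, (1 - nb s (x l - x j))

theorem bm_cv_exc {U : T3 L → ℝ} (hU : BM U) {G : Cf N L → ℝ} (hG : BM G) (o j : Fin N) :
    BM fun x : Cf N L => ∫ z, U z * G (update x o (x j + z)) :=
  BM.integral_right (Φ := fun (x : Cf N L) z => U z * G (update x o (x j + z)))
    ((hU.comp measurable_snd).mul (hG.comp (continuous_sl o j).measurable))

theorem cv_exc {U : T3 L → ℝ} (hU : BM U) {G : Cf N L → ℝ} (hG : BM G) {o j : Fin N}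
    (hj : j ≠ o) : ∫ x, ∫ z, U z * G (update x o (x j + z)) =
      L ^ 3 * ∫ x, U (x o - x j) * G x :=
  cv' hU hG hj

theorem lin_exc {f g : Cf N L → ℝ} (hf : BM f) (hg : BM g) (a b : ℝ) :
    ∫ x, (a * f x + b * g x) = a * (∫ x, f x) + b * ∫ x, g x := by
  rw [integral_add ((BM.const _).mul hf).integrable ((BM.const _).mul hg).integrable,
    integral_const_mul, integral_const_mul]

omit [Fact (0 < L)] in
theorem bm_pair_exc {U : T3 L → ℝ} (hU : BM U) (i j : Fin N) :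
    BM fun x : Cf N L => U (x i - x j) :=
  hU.comp ((continuous_apply i).sub (continuous_apply j)).measurable

theorem bm_iso_exc (o j : Fin N) (s : ℝ) : BM (iso (L := L) o j s) :=
  BM.prod fun l _ => (BM.const 1).sub (bm_pair_exc (BM_nb s) l j)

omit [Fact (0 < L)] in
theorem iso_nonneg_exc (o j : Fin N) (s : ℝ) (x : Cf N L) : 0 ≤ iso o j s x :=
  Finset.prod_nonneg fun _ _ => sub_nonneg.2 (nb_le_one _ _)

omit [Fact (0 < L)] in
theorem iso_le_exc (o j : Fin N) (s : ℝ) (x : Cf N L) : iso o j s x ≤ 1 :=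
  Finset.prod_le_one (fun _ _ => sub_nonneg.2 (nb_le_one _ _))
    fun _ _ => sub_le_self _ (nb_nonneg _ _)

omit [Fact (0 < L)] in
theorem iso_update_exc {o j : Fin N} (hj : j ≠ o) (s : ℝ) (x : Cf N L) (y : T3 L) :
    iso o j s (update x o y) = iso o j s x :=
  Finset.prod_congr rfl fun l hl => by
    rw [update_of_ne hj, update_of_ne (ne_of_mem_erase (mem_of_mem_erase hl))]

theorem one_sub_prod_exc {ι : Type*} (T : Finset ι) (a : ι → ℝ) (h0 : ∀ l, 0 ≤ a l)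
    (h1 : ∀ l, a l ≤ 1) : 1 - ∏ l ∈ T, (1 - a l) ≤ ∑ l ∈ T, a l := by
  classical
  induction T using Finset.induction_on with
  | empty => simp
  | insert b T hb ih =>
    rw [prod_insert hb, sum_insert hb]
    have h2 : ∏ l ∈ T, (1 - a l) ≤ 1 :=
      Finset.prod_le_one (fun l _ => sub_nonneg.2 (h1 l)) fun l _ => sub_le_self _ (h0 l)
    nlinarith [h0 b]

omit [Fact (0 < L)] in
theorem sum_iso_exc (o : Fin N) (R : ℝ) (x : Cf N L) :
    ∑ j ∈ univ.erase o, nb (2 * R) (x o - x j) * iso o j (4 * R) x ≤ 1 := by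
  by_cases h : ∃ i ∈ univ.erase o, ‖x o - x i‖ ≤ 2 * R
  · obtain ⟨i, hi, h1⟩ := h
    rw [Finset.sum_eq_single_of_mem i hi]
    · exact mul_le_one₀ (nb_le_one _ _) (iso_nonneg_exc _ _ _ _) (iso_le_exc _ _ _ _)
    · intro j _ hji
      by_cases h2 : ‖x o - x j‖ ≤ 2 * R
      · have h3 : ‖x i - x j‖ ≤ 4 * R := by
          have := norm_sub_le (x o - x j) (x o - x i)
          rw [show x o - x j - (x o - x i) = x i - x j by abel] at this
          linarith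
        have h4 : iso o j (4 * R) x = 0 :=
          Finset.prod_eq_zero (mem_erase.2 ⟨hji.symm, hi⟩) (by simp [nb, h3])
        rw [h4, mul_zero]
      · simp [nb, h2]
  · refine le_of_eq_of_le (Finset.sum_eq_zero fun j hj => ?_) zero_le_one
    have h2 : ¬ ‖x o - x j‖ ≤ 2 * R := fun h3 => h ⟨j, hj, h3⟩
    simp [nb, h2]

theorem normSq_le_exc (a b : ℂ) {ε : ℝ} (hε : 0 < ε) :
    ‖a‖ ^ 2 ≤ (1 + ε) * ‖b‖ ^ 2 + (1 + ε⁻¹) * ‖a - b‖ ^ 2 := by
  have h1 : ‖a‖ ≤ ‖b‖ + ‖a - b‖ := by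
    have := norm_add_le b (a - b)
    rwa [add_sub_cancel] at this
  have h2 : ‖a‖ ^ 2 ≤ (‖b‖ + ‖a - b‖) ^ 2 := pow_le_pow_left₀ (norm_nonneg _) h1 2
  have h3 : 0 ≤ ε⁻¹ * (ε * ‖b‖ - ‖a - b‖) ^ 2 := by positivity
  have h4 : ε⁻¹ * (ε * ‖b‖ - ‖a - b‖) ^ 2 =
      ε * ‖b‖ ^ 2 - 2 * ‖b‖ * ‖a - b‖ + ε⁻¹ * ‖a - b‖ ^ 2 := by
    field_simp
    ring
  linarith

/-- The energy per particle controls the isolated amplitudes. -/
theorem energy_iso (hw : Wp P w) (h : GS w ψ) (hS : Sc P w R J m) (hR : P.R0 ≤ R) (o : Fin N) :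
    (N : ℝ) * ((L ^ 3)⁻¹ * ∑ j ∈ univ.erase o, ∫ x, iso o j (4 * R) x *
      ((4 * π * P.a - 64 * P.Λ * P.a ^ 2 / R) * ‖amp o j (mU m) ψ x‖ ^ 2 +
        P.W⁻¹ * ‖amp o j w ψ x - (4 * π * P.a : ℝ) * amp o j (mU m) ψ x‖ ^ 2)) ≤
      2 * ES w univ ψ := by
  have hR0 : 0 < R := by linarith [P.hR0]
  have hL3 : 0 < L ^ 3 := pow_pos Lpos 3
  have hψ := h.c1
  have hm := (hS.wt hR0).bm
  have hg : BM (gP o ψ) := BM.of_cont (hψ.cont_gP o)
  have hn : BM fun x => ‖ψ x‖ ^ 2 := BM.of_cont (hψ.1.norm.pow 2)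
  rw [h.energy_one hw o]
  refine mul_le_mul_of_nonneg_left ?_ (Nat.cast_nonneg N)
  rw [inv_mul_le_iff₀ hL3]
  have key : ∀ j ∈ univ.erase o, ∫ x, iso o j (4 * R) x *
      ((4 * π * P.a - 64 * P.Λ * P.a ^ 2 / R) * ‖amp o j (mU m) ψ x‖ ^ 2 +
        P.W⁻¹ * ‖amp o j w ψ x - (4 * π * P.a : ℝ) * amp o j (mU m) ψ x‖ ^ 2) ≤
      L ^ 3 * ((∫ x, nb (2 * R) (x o - x j) * (iso o j (4 * R) x * gP o ψ x)) +
        ∫ x, w (x o - x j) * ‖ψ x‖ ^ 2) := by
    intro j hj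
    have hjo := ne_of_mem_erase hj
    have hG := (bm_iso_exc (L := L) o j (4 * R)).mul hg
    have c1 := continuous_amp hm hψ.1 o j
    have c2 := continuous_amp hw.bm hψ.1 o j
    rw [mul_add, ← cv_exc (BM_nb _) hG hjo, ← cv_exc hw.bm hn hjo,
      ← integral_add (bm_cv_exc (BM_nb _) hG o j).integrable (bm_cv_exc hw.bm hn o j).integrable]
    refine integral_mono ((bm_iso_exc o j _).mul (BM.of_cont (by fun_prop))).integrable
      ((bm_cv_exc (BM_nb _) hG o j).add (bm_cv_exc hw.bm hn o j)).integrable fun x => ?_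
    have h1 := hS.local hw hR (hψ.cslice x o j)
    simp only [gT_cslice] at h1
    have h2 : 0 ≤ ∫ z, w z * ‖ψ (update x o (x j + z))‖ ^ 2 :=
      integral_nonneg fun z => mul_nonneg (hw.nonneg z) (sq_nonneg _)
    have h3 : ∫ z, nb (2 * R) z * (iso o j (4 * R) (update x o (x j + z)) *
        gP o ψ (update x o (x j + z))) =
        iso o j (4 * R) x * ∫ z, nb (2 * R) z * gP o ψ (update x o (x j + z)) := by
      rw [← integral_const_mul]
      refine integral_congr_ae (Eventually.of_forall fun z => ?_)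
      simp only [iso_update_exc hjo]
      ring
    have h4 := mul_le_mul_of_nonneg_left h1 (iso_nonneg_exc o j (4 * R) x)
    have h5 := mul_le_of_le_one_left h2 (iso_le_exc o j (4 * R) x)
    simp only [h3]
    refine le_trans h4 ?_
    rw [mul_add]
    linarith
  refine (Finset.sum_le_sum key).trans ?_
  rw [← Finset.mul_sum, Finset.sum_add_distrib]
  refine mul_le_mul_of_nonneg_left (add_le_add ?_ (le_of_eq ?_)) hL3.le
  · have hb : ∀ j ∈ univ.erase o, BM fun x : Cf N L =>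
        nb (2 * R) (x o - x j) * (iso o j (4 * R) x * gP o ψ x) := fun j _ =>
      (bm_pair_exc (BM_nb _) o j).mul ((bm_iso_exc o j _).mul hg)
    rw [← integral_finsetSum _ fun j hj => (hb j hj).integrable]
    refine integral_mono (BM.sum hb).integrable hg.integrable fun x => ?_
    simp only [← mul_assoc, ← Finset.sum_mul]
    exact mul_le_of_le_one_left (Finset.sum_nonneg fun c _ => sq_nonneg _) (sum_iso_exc o R x)
  · rw [← integral_finsetSum _ fun j _ => ((bm_pair_exc hw.bm o j).mul hn).integrable]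
    simp only [Wi, Finset.sum_mul]

/-- Non-isolated particles contribute little. -/
theorem noniso_le (hw : Wp P w) (hψ : Continuous ψ) (hS : Sc P w R J m) (hR : P.R0 ≤ R)
    (o : Fin N) :
    (L ^ 3)⁻¹ * ∑ j ∈ univ.erase o, ∫ x, (1 - iso o j (4 * R) x) * ‖amp o j (mU m) ψ x‖ ^ 2 ≤
        64 * P.Λ ^ 2 / R ^ 3 * D3 ψ o (2 * R) (4 * R) ∧
      (L ^ 3)⁻¹ * ∑ j ∈ univ.erase o, ∫ x, (1 - iso o j (4 * R) x) * ‖amp o j w ψ x‖ ^ 2 ≤
        P.W * P.V * D3 ψ o P.R0 (4 * R) := by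
  have hR0 : 0 < R := by linarith [P.hR0]
  have hL3 : 0 ≤ (L ^ 3)⁻¹ := (inv_pos.2 (pow_pos Lpos 3)).le
  have hn : BM fun x => ‖ψ x‖ ^ 2 := BM.of_cont (hψ.norm.pow 2)
  have hG : ∀ j, BM fun x : Cf N L => ∑ l ∈ (univ.erase o).erase j, nb (4 * R) (x l - x j) :=
    fun j => BM.sum fun l _ => bm_pair_exc (BM_nb _) l j
  have hG0 : ∀ j (x : Cf N L), 0 ≤ ∑ l ∈ (univ.erase o).erase j, nb (4 * R) (x l - x j) :=
    fun j x => Finset.sum_nonneg fun l _ => nb_nonneg _ _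
  have hGo : ∀ j, j ≠ o → ∀ (x : Cf N L) y,
      ∑ l ∈ (univ.erase o).erase j, nb (4 * R) (update x o y l - update x o y j) =
        ∑ l ∈ (univ.erase o).erase j, nb (4 * R) (x l - x j) := fun j hj x y =>
    Finset.sum_congr rfl fun l hl => by
      rw [update_of_ne hj, update_of_ne (ne_of_mem_erase (mem_of_mem_erase hl))]
  have hle : ∀ j (x : Cf N L), 1 - iso o j (4 * R) x ≤
      ∑ l ∈ (univ.erase o).erase j, nb (4 * R) (x l - x j) := fun j x =>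
    one_sub_prod_exc _ _ (fun l => nb_nonneg _ _) fun l => nb_le_one _ _
  have hD : ∀ s j, ∫ x, nb s (x o - x j) *
      (∑ l ∈ (univ.erase o).erase j, nb (4 * R) (x l - x j)) * ‖ψ x‖ ^ 2 =
      ∑ l ∈ (univ.erase o).erase j,
        ∫ x, nb s (x o - x j) * nb (4 * R) (x l - x j) * ‖ψ x‖ ^ 2 := fun s j => by
    rw [← integral_finsetSum _ fun l _ =>
      (((bm_pair_exc (BM_nb s) o j).mul (bm_pair_exc (BM_nb _) l j)).mul hn).integrable]
    simp only [Finset.mul_sum, Finset.sum_mul]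
  have hI : ∀ j, BM fun x : Cf N L => 1 - iso o j (4 * R) x := fun j =>
    (BM.const 1).sub (bm_iso_exc o j _)
  constructor
  · rw [D3, Finset.mul_sum, Finset.mul_sum]
    refine Finset.sum_le_sum fun j hj => ?_
    have hjo := ne_of_mem_erase hj
    have hA : BM fun x => ‖amp o j (mU m) ψ x‖ ^ 2 :=
      BM.of_cont ((continuous_amp (hS.wt hR0).bm hψ o j).norm.pow 2)
    have h1 := amp_sq_le hjo (by linarith) (hS.wt hR0) hψ (hG j) (hG0 j) (hGo j hjo)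
    rw [hD, show 8 * (8 * P.Λ) ^ 2 / (2 * R) ^ 3 = 64 * P.Λ ^ 2 / R ^ 3 by
      field_simp
      ring] at h1
    refine le_trans (mul_le_mul_of_nonneg_left ?_ hL3) h1
    exact integral_mono ((hI j).mul hA).integrable ((hG j).mul hA).integrable fun x =>
      mul_le_mul_of_nonneg_right (hle j x) (sq_nonneg _)
  · rw [D3, Finset.mul_sum, Finset.mul_sum]
    refine Finset.sum_le_sum fun j hj => ?_
    have hjo := ne_of_mem_erase hj
    have hA : BM fun x => ‖amp o j w ψ x‖ ^ 2 :=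
      BM.of_cont ((continuous_amp hw.bm hψ o j).norm.pow 2)
    have h1 := contact_sq_le hjo hw hψ (hG j) (hG0 j) (hGo j hjo)
    rw [hD] at h1
    refine le_trans (mul_le_mul_of_nonneg_left ?_ hL3) h1
    refine integral_mono ((hI j).mul hA).integrable ((hG j).mul
      ((bm_cv_exc hw.bm (BM.of_cont hψ.norm) o j).pow 2)).integrable fun x => ?_
    refine mul_le_mul (hle j x) (pow_le_pow_left₀ (norm_nonneg _) ?_ 2) (sq_nonneg _) (hG0 j x)
    refine (norm_integral_le_integral_norm _).trans (le_of_eq ?_)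
    refine integral_congr_ae (Eventually.of_forall fun z => ?_)
    simp only [norm_mul, Complex.norm_real, Real.norm_of_nonneg (hw.nonneg z)]

/-- The amplitude is bounded below by the pair density. -/
theorem amp_lower (hψ : IsC1 ψ) (hS : Sc P w R J m) (hR : 0 < R) (hL : 4 * R ≤ L) (o : Fin N)
    {ε : ℝ} (hε : 0 < ε) :
    ((4 * R) ^ 3)⁻¹ * D2 ψ o (2 * R) ≤
      (1 + ε) * S2 o (fun j => amp o j (mU m) ψ) +
        (1 + ε⁻¹) * (24576 * P.Λ ^ 2 / R) * K2 ψ o (6 * R) := by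
  have _ := hL
  have hL3 : 0 < L ^ 3 := pow_pos Lpos 3
  have hR3 : 0 < (4 * R) ^ 3 := by positivity
  have hg : BM (gP o ψ) := BM.of_cont (hψ.cont_gP o)
  have hn : BM fun x => ‖ψ x‖ ^ 2 := BM.of_cont (hψ.1.norm.pow 2)
  rw [D2, S2, K2]
  simp only [Finset.mul_sum, ← Finset.sum_add_distrib]
  refine Finset.sum_le_sum fun j hj => ?_
  have hjo := ne_of_mem_erase hj
  have hA : BM fun x => ‖amp o j (mU m) ψ x‖ ^ 2 :=
    BM.of_cont ((continuous_amp (hS.wt hR).bm hψ.1 o j).norm.pow 2)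
  have key : ∫ x, ∫ z, nb (2 * R) z * ‖ψ (update x o (x j + z))‖ ^ 2 ≤
      ∫ x, ((1 + ε) * (4 * R) ^ 3 * ‖amp o j (mU m) ψ x‖ ^ 2 +
        (1 + ε⁻¹) * (24576 * P.Λ ^ 2 / R) * (4 * R) ^ 3 *
          ∫ z, nb (6 * R) z * gP o ψ (update x o (x j + z))) := by
    refine integral_mono (bm_cv_exc (BM_nb _) hn o j).integrable (((BM.const _).mul hA).add
      ((BM.const _).mul (bm_cv_exc (BM_nb _) hg o j))).integrable fun x => ?_
    have hu := hψ.cslice x o j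
    have h1 := poin_l2 hu (by linarith) (hS.wt hR)
    simp only [gT_cslice] at h1
    rw [show 3 * (2 * R) = 6 * R by ring] at h1
    have hc := hu.cont
    have b1 : BM fun z => nb (2 * R) z * ‖ψ (update x o (x j + z)) - amp o j (mU m) ψ x‖ ^ 2 :=
      (BM_nb _).mul (BM.of_cont ((hc.sub continuous_const).norm.pow 2))
    have h2 : ∫ z, nb (2 * R) z * ‖ψ (update x o (x j + z))‖ ^ 2 ≤
        ∫ z, ((1 + ε) * ‖amp o j (mU m) ψ x‖ ^ 2 * nb (2 * R) z + (1 + ε⁻¹) *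
          (nb (2 * R) z * ‖ψ (update x o (x j + z)) - amp o j (mU m) ψ x‖ ^ 2)) := by
      refine integral_mono ((BM_nb _).mul (BM.of_cont (hc.norm.pow 2))).integrable
        (((BM.const _).mul (BM_nb _)).add ((BM.const _).mul b1)).integrable fun z => ?_
      have := mul_le_mul_of_nonneg_left
        (normSq_le_exc (ψ (update x o (x j + z))) (amp o j (mU m) ψ x) hε) (nb_nonneg (2 * R) z)
      refine this.trans (le_of_eq ?_)
      ring
    rw [integral_add ((BM.const _).mul (BM_nb _)).integrable ((BM.const _).mul b1).integrable,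
      integral_const_mul, integral_const_mul] at h2
    have h3 := mul_le_mul_of_nonneg_left (integral_nb_le (L := L) (s := 2 * R) (by linarith))
      (show 0 ≤ (1 + ε) * ‖amp o j (mU m) ψ x‖ ^ 2 by positivity)
    have h4 := mul_le_mul_of_nonneg_left h1 (show 0 ≤ 1 + ε⁻¹ by positivity)
    refine h2.trans ((add_le_add h3 h4).trans (le_of_eq ?_))
    field_simp
    ring
  rw [integral_add ((BM.const _).mul hA).integrable
    ((BM.const _).mul (bm_cv_exc (BM_nb _) hg o j)).integrable, integral_const_mul,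
    integral_const_mul, cv_exc (BM_nb _) hn hjo, cv_exc (BM_nb _) hg hjo] at key
  rw [inv_mul_le_iff₀ hR3]
  refine le_of_mul_le_mul_left (key.trans (le_of_eq ?_)) hL3
  generalize (∫ x, ‖amp o j (mU m) ψ x‖ ^ 2) = I₁
  generalize (∫ x : Cf N L, nb (6 * R) (x o - x j) * gP o ψ x) = I₂
  have := (Lpos (L := L)).ne'
  field_simp

end

theorem arith_exc {ρ e A W c Si Sn Ti Tn : ℝ} (hρ : 0 ≤ ρ) (he0 : 0 < e) (he : e ≤ 1 / 4)
    (hA : 0 < A) (hW : 0 < W) (hc : A * (1 - e) ≤ c) (h1 : c * Si + W⁻¹ * Ti ≤ A * ρ * (1 + e))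
    (hSi : 0 ≤ Si) (hTi : 0 ≤ Ti) (hSn0 : 0 ≤ Sn) (hSn : Sn ≤ e * ρ) (hTn : Tn ≤ e * ρ)
    (hlow : ρ * (1 - e) ≤ (1 + e) * (Si + Sn) + e * ρ) :
    |Si + Sn - ρ| ≤ 4 * e * ρ ∧ Ti + Tn ≤ (6 * A * W + 1) * e * ρ := by
  have h2 : 0 ≤ W⁻¹ * Ti := by positivity
  have h3 : A * (1 - e) * Si ≤ c * Si := mul_le_mul_of_nonneg_right hc hSi
  have heρ : 0 ≤ e * ρ := by positivity
  have heeρ : 0 ≤ e * (e * ρ) := by positivity
  have hee : e * (e * ρ) ≤ 1 / 4 * (e * ρ) := mul_le_mul_of_nonneg_right he heρ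
  have h4 : (1 - e) * Si ≤ ρ * (1 + e) := le_of_mul_le_mul_left (by linarith) hA
  have h5 : Si ≤ ρ * (1 + 3 * e) :=
    le_of_mul_le_mul_left (a := 1 - e) (by linarith) (by linarith)
  have h6 : ρ * (1 - 3 * e) ≤ Si + Sn :=
    le_of_mul_le_mul_left (a := 1 + e) (by linarith) (by linarith)
  refine ⟨abs_le.2 ⟨by linarith, by linarith⟩, ?_⟩
  have h7 : ρ * (1 - 4 * e) ≤ Si := by linarith
  have h7' := mul_le_mul_of_nonneg_left h7 (show 0 ≤ 1 - e by linarith)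
  have h8 : ρ * (1 - 5 * e) ≤ (1 - e) * Si := by linarith
  have h9 : A * (ρ * (1 - 5 * e)) ≤ A * ((1 - e) * Si) := mul_le_mul_of_nonneg_left h8 hA.le
  have h10 : W⁻¹ * Ti ≤ 6 * A * e * ρ := by linarith
  rw [inv_mul_le_iff₀ hW] at h10
  linarith

theorem S2_split_exc {N : ℕ} {L : ℝ} [Fact (0 < L)] (o : Fin N) (s : ℝ)
    {A : Fin N → Cf N L → ℂ} (hA : ∀ j, Continuous (A j)) :
    S2 o A = (L ^ 3)⁻¹ * (∑ j ∈ univ.erase o, ∫ x, iso o j s x * ‖A j x‖ ^ 2) +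
      (L ^ 3)⁻¹ * ∑ j ∈ univ.erase o, ∫ x, (1 - iso o j s x) * ‖A j x‖ ^ 2 := by
  rw [S2, ← mul_add, ← Finset.sum_add_distrib]
  congr 1
  refine Finset.sum_congr rfl fun j _ => ?_
  have hb : BM fun x => ‖A j x‖ ^ 2 := BM.of_cont ((hA j).norm.pow 2)
  rw [← integral_add ((bm_iso_exc o j s).mul hb).integrable
    (((BM.const 1).sub (bm_iso_exc o j s)).mul hb).integrable]
  refine integral_congr_ae (Eventually.of_forall fun x => ?_)
  ring

theorem excess (P : Par) {η : ℝ} (hη : 0 < η) : ∃ R₁ : ℝ, P.R0 ≤ R₁ ∧ ∀ R, R₁ ≤ R →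
    ∃ ρ₀ : ℝ, 0 < ρ₀ ∧ ∀ (N : ℕ) (L : ℝ) [Fact (0 < L)] (w : T3 L → ℝ) (ψ : Cf N L → ℂ),
      Setup P w ψ → rho N L ≤ ρ₀ → ∀ J m, Sc P w R J m → ∀ o,
        |S2 o (fun j => amp o j (mU m) ψ) - rho N L| ≤ η * rho N L ∧
        S2 o (fun j x => amp o j w ψ x - (4 * π * P.a : ℝ) * amp o j (mU m) ψ x) ≤
          η * rho N L := by
  have ha := P.ha
  have hΛ := P.hΛ
  have hR0 := P.hR0
  have hV := P.hV
  have hW : 0 < P.W := by
    unfold Par.W
    positivity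
  have hA : 0 < 4 * π * P.a := by positivity
  obtain ⟨e, he0, he, heη⟩ : ∃ e : ℝ, 0 < e ∧ e ≤ 1 / 4 ∧ (6 * (4 * π * P.a) * P.W + 4) * e ≤ η :=
    ⟨min (1 / 4) (η / (6 * (4 * π * P.a) * P.W + 4)), by positivity, min_le_left _ _, by
      rw [mul_comm, ← le_div_iff₀ (by positivity)]
      exact min_le_right _ _⟩
  obtain ⟨C, ρ1, hC, hρ1, -, hAP⟩ := apriori P
  obtain ⟨ρ2, hρ2, hJ⟩ := jastrow P he0
  obtain ⟨s₁, hs₁, hP⟩ := pair_lower P he0
  have hq1 : 0 ≤ 64 * P.Λ * P.a ^ 2 / (4 * π * P.a * e) := by positivity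
  have hq2 : 0 ≤ 2 * ((1 + e⁻¹) * (24576 * P.Λ ^ 2) * C) / e := by positivity
  refine ⟨P.R0 + s₁ + 64 * P.Λ * P.a ^ 2 / (4 * π * P.a * e) +
    2 * ((1 + e⁻¹) * (24576 * P.Λ ^ 2) * C) / e, by linarith, fun R hR => ?_⟩
  have hRR : P.R0 ≤ R := by linarith
  have hRp : 0 < R := by linarith
  have hc : 4 * π * P.a * (1 - e) ≤ 4 * π * P.a - 64 * P.Λ * P.a ^ 2 / R := by
    have h1 : 64 * P.Λ * P.a ^ 2 / (4 * π * P.a * e) ≤ R := by linarith
    rw [div_le_iff₀ (by positivity)] at h1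
    have h2 : 64 * P.Λ * P.a ^ 2 / R ≤ 4 * π * P.a * e := by
      rw [div_le_iff₀ hRp]
      linarith
    linarith
  have hk : (1 + e⁻¹) * (24576 * P.Λ ^ 2 / R) * (C * 2) ≤ e := by
    have h1 : 2 * ((1 + e⁻¹) * (24576 * P.Λ ^ 2) * C) / e ≤ R := by linarith
    rw [div_le_iff₀ he0] at h1
    rw [show (1 + e⁻¹) * (24576 * P.Λ ^ 2 / R) * (C * 2) =
      2 * ((1 + e⁻¹) * (24576 * P.Λ ^ 2) * C) / R by ring, div_le_iff₀ hRp]
    linarith
  obtain ⟨ρ3, hρ3, hP⟩ := hP (2 * R) (by linarith)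
  obtain ⟨K1, hK1⟩ : ∃ K1 : ℝ, K1 = 64 * P.Λ ^ 2 / R ^ 3 * (C * (2 * R) ^ 3 * (4 * R) ^ 3) :=
    ⟨_, rfl⟩
  obtain ⟨K3, hK3⟩ : ∃ K3 : ℝ, K3 = P.W * P.V * (C * P.R0 ^ 3 * (4 * R) ^ 3) := ⟨_, rfl⟩
  have hK10 : 0 ≤ K1 := by
    rw [hK1]
    positivity
  have hK30 : 0 ≤ K3 := by
    rw [hK3]
    positivity
  obtain ⟨M, hM⟩ : ∃ M : ℝ, M = (72 * R) ^ 2 + (6 * R) ^ 4 + K1 / e +
    (2 * K3 + 2 * (4 * π * P.a) ^ 2 * K1) / e := ⟨_, rfl⟩
  have hM0 : 0 < M := by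
    rw [hM]
    positivity
  refine ⟨min (min ρ1 ρ2) (min ρ3 M⁻¹), by positivity, fun N L _ w ψ hS hρ J m hSc o => ?_⟩
  simp only [le_min_iff] at hρ
  obtain ⟨⟨r1, r2⟩, r3, r4⟩ := hρ
  obtain ⟨hρ0, -, hN⟩ := hS.basic
  have hN' : (0 : ℝ) < N := Nat.cast_pos.2 hN
  have hw := hS.pot.wp
  have hψ := hS.gs.c1
  have hAP := hAP N L w ψ hS r1
  have hJ := hJ N L w ψ hS r2
  have hP := hP N L w ψ hS r3 o
  obtain ⟨ρ, hr⟩ : ∃ ρ, rho N L = ρ := ⟨_, rfl⟩
  rw [hr] at r4 hρ0 hJ hP ⊢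
  have hMρ : M * ρ ≤ 1 := by
    have := mul_le_mul_of_nonneg_left r4 hM0.le
    rwa [mul_inv_cancel₀ hM0.ne'] at this
  rw [hM, add_mul, add_mul, add_mul] at hMρ
  have p1 : 0 ≤ (72 * R) ^ 2 * ρ := by positivity
  have p2 : 0 ≤ (6 * R) ^ 4 * ρ := by positivity
  have p3 : 0 ≤ K1 / e * ρ := by positivity
  have p4 : 0 ≤ (2 * K3 + 2 * (4 * π * P.a) ^ 2 * K1) / e * ρ := by positivity
  have pR : 0 ≤ R ^ 2 * ρ := by positivity
  have q1 : (72 * R) ^ 2 * ρ ≤ 1 := by linarith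
  have q2 : (6 * R) ^ 4 * ρ ≤ 1 := by linarith
  have q3 : K1 * ρ ≤ e := by
    have : K1 / e * ρ ≤ 1 := by linarith
    rwa [div_mul_eq_mul_div, div_le_one he0] at this
  have q4 : (2 * K3 + 2 * (4 * π * P.a) ^ 2 * K1) * ρ ≤ e := by
    have : (2 * K3 + 2 * (4 * π * P.a) ^ 2 * K1) / e * ρ ≤ 1 := by linarith
    rwa [div_mul_eq_mul_div, div_le_one he0] at this
  have hL : 4 * R ≤ L := hS.r_le hRp.le (by norm_num) (by rw [hr]; linarith)
  have hL3 : 0 ≤ (L ^ 3)⁻¹ := (inv_pos.2 (pow_pos Lpos 3)).le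
  have d1 := hAP.db.three o (2 * R) (4 * R) (by linarith) (by linarith) (by rw [hr]; linarith)
  have d2 := hAP.db.three o P.R0 (4 * R) (by linarith) (by linarith) (by rw [hr]; linarith)
  have d3 := hAP.k2 o (6 * R) (by linarith) (by rw [hr]; linarith)
  rw [hr] at d1 d2 d3
  obtain ⟨n1, n2⟩ := noniso_le hw hψ.1 hSc hRR o
  have n3 := n1.trans (mul_le_mul_of_nonneg_left d1 (by positivity))
  have n4 := n2.trans (mul_le_mul_of_nonneg_left d2 (by positivity))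
  rw [show 64 * P.Λ ^ 2 / R ^ 3 * (C * ρ ^ 2 * (2 * R) ^ 3 * (4 * R) ^ 3) = K1 * ρ * ρ by
    rw [hK1]; ring] at n3
  rw [show P.W * P.V * (C * ρ ^ 2 * P.R0 ^ 3 * (4 * R) ^ 3) = K3 * ρ * ρ by rw [hK3]; ring] at n4
  have c1 : ∀ j, Continuous (amp o j (mU m) ψ) := fun j =>
    continuous_amp (hSc.wt hRp).bm hψ.1 o j
  have c2 : ∀ j, Continuous (amp o j w ψ) := fun j => continuous_amp hw.bm hψ.1 o j
  have c3 : ∀ j, Continuous fun x => amp o j w ψ x - (4 * π * P.a : ℝ) * amp o j (mU m) ψ x :=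
    fun j => (c2 j).sub (continuous_const.mul (c1 j))
  have b1 : ∀ j, BM fun x => ‖amp o j (mU m) ψ x‖ ^ 2 := fun j => BM.of_cont ((c1 j).norm.pow 2)
  have b2 : ∀ j, BM fun x => ‖amp o j w ψ x‖ ^ 2 := fun j => BM.of_cont ((c2 j).norm.pow 2)
  have b3 : ∀ j, BM fun x => ‖amp o j w ψ x - (4 * π * P.a : ℝ) * amp o j (mU m) ψ x‖ ^ 2 :=
    fun j => BM.of_cont ((c3 j).norm.pow 2)
  have bi : ∀ j, BM (iso (L := L) o j (4 * R)) := fun j => bm_iso_exc o j _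
  have bn : ∀ j, BM fun x : Cf N L => 1 - iso o j (4 * R) x := fun j => (BM.const 1).sub (bi j)
  have hE := energy_iso hw hS.gs hSc hRR o
  have hE2 : (L ^ 3)⁻¹ * ∑ j ∈ univ.erase o, ∫ x, iso o j (4 * R) x *
      ((4 * π * P.a - 64 * P.Λ * P.a ^ 2 / R) * ‖amp o j (mU m) ψ x‖ ^ 2 +
        P.W⁻¹ * ‖amp o j w ψ x - (4 * π * P.a : ℝ) * amp o j (mU m) ψ x‖ ^ 2) =
      (4 * π * P.a - 64 * P.Λ * P.a ^ 2 / R) * ((L ^ 3)⁻¹ *
        ∑ j ∈ univ.erase o, ∫ x, iso o j (4 * R) x * ‖amp o j (mU m) ψ x‖ ^ 2) +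
      P.W⁻¹ * ((L ^ 3)⁻¹ * ∑ j ∈ univ.erase o, ∫ x, iso o j (4 * R) x *
        ‖amp o j w ψ x - (4 * π * P.a : ℝ) * amp o j (mU m) ψ x‖ ^ 2) := by
    simp only [Finset.mul_sum, ← Finset.sum_add_distrib]
    refine Finset.sum_congr rfl fun j _ => ?_
    rw [mul_left_comm, mul_left_comm P.W⁻¹, ← mul_add,
      ← lin_exc ((bi j).mul (b1 j)) ((bi j).mul (b3 j))]
    congr 1
    refine integral_congr_ae (Eventually.of_forall fun x => ?_)
    ring
  rw [hE2] at hE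
  have hE3 := le_of_mul_le_mul_left (hE.trans (show 2 * ES w univ ψ ≤
    N * (4 * π * P.a * ρ * (1 + e)) by linarith)) hN'
  have hT : (L ^ 3)⁻¹ * ∑ j ∈ univ.erase o, ∫ x, (1 - iso o j (4 * R) x) *
      ‖amp o j w ψ x - (4 * π * P.a : ℝ) * amp o j (mU m) ψ x‖ ^ 2 ≤
      2 * ((L ^ 3)⁻¹ * ∑ j ∈ univ.erase o, ∫ x, (1 - iso o j (4 * R) x) * ‖amp o j w ψ x‖ ^ 2) +
      2 * (4 * π * P.a) ^ 2 * ((L ^ 3)⁻¹ *
        ∑ j ∈ univ.erase o, ∫ x, (1 - iso o j (4 * R) x) * ‖amp o j (mU m) ψ x‖ ^ 2) := by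
    simp only [Finset.mul_sum, ← Finset.sum_add_distrib]
    refine Finset.sum_le_sum fun j _ => ?_
    rw [mul_left_comm 2, mul_left_comm (2 * (4 * π * P.a) ^ 2), ← mul_add,
      ← lin_exc ((bn j).mul (b2 j)) ((bn j).mul (b1 j))]
    refine mul_le_mul_of_nonneg_left (integral_mono ((bn j).mul (b3 j)).integrable
      (((BM.const _).mul ((bn j).mul (b2 j))).add
        ((BM.const _).mul ((bn j).mul (b1 j)))).integrable fun x => ?_) hL3
    have h1 := norm_sub_le (amp o j w ψ x) ((4 * π * P.a : ℝ) * amp o j (mU m) ψ x)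
    rw [norm_mul, Complex.norm_real, Real.norm_of_nonneg hA.le] at h1
    have h2 := pow_le_pow_left₀ (norm_nonneg _) h1 2
    have h3 : ‖amp o j w ψ x - (4 * π * P.a : ℝ) * amp o j (mU m) ψ x‖ ^ 2 ≤
        2 * ‖amp o j w ψ x‖ ^ 2 + 2 * (4 * π * P.a) ^ 2 * ‖amp o j (mU m) ψ x‖ ^ 2 := by
      linarith only [h2, sq_nonneg (‖amp o j w ψ x‖ - 4 * π * P.a * ‖amp o j (mU m) ψ x‖)]
    refine (mul_le_mul_of_nonneg_left h3 (sub_nonneg.2 (iso_le_exc o j (4 * R) x))).trans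
      (le_of_eq ?_)
    ring
  have hlow := amp_lower hψ hSc hRp hL o he0
  rw [show 2 * (2 * R) = 4 * R by ring] at hP
  have hk2 : (1 + e⁻¹) * (24576 * P.Λ ^ 2 / R) * K2 ψ o (6 * R) ≤ e * ρ := by
    have h1 : C * (ρ + ρ ^ 2 * (6 * R) ^ 4) ≤ C * 2 * ρ := by
      rw [mul_assoc]
      have h2 := mul_le_mul_of_nonneg_left q2 hρ0.le
      exact mul_le_mul_of_nonneg_left (by linarith) (by linarith)
    refine (mul_le_mul_of_nonneg_left (d3.trans h1) (by positivity)).trans ?_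
    rw [← mul_assoc]
    exact mul_le_mul_of_nonneg_right hk hρ0.le
  rw [S2_split_exc o (4 * R) c1] at hlow ⊢
  rw [S2_split_exc o (4 * R) c3]
  have fin := arith_exc hρ0.le he0 he hA hW hc hE3
    (mul_nonneg hL3 (Finset.sum_nonneg fun j _ => integral_nonneg fun x =>
      mul_nonneg (iso_nonneg_exc _ _ _ _) (sq_nonneg _)))
    (mul_nonneg hL3 (Finset.sum_nonneg fun j _ => integral_nonneg fun x =>
      mul_nonneg (iso_nonneg_exc _ _ _ _) (sq_nonneg _)))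
    (mul_nonneg hL3 (Finset.sum_nonneg fun j _ => integral_nonneg fun x =>
      mul_nonneg (sub_nonneg.2 (iso_le_exc _ _ _ _)) (sq_nonneg _)))
    (n3.trans (mul_le_mul_of_nonneg_right q3 hρ0.le))
    (hT.trans (by
      have h1 := mul_le_mul_of_nonneg_left n3 (show 0 ≤ 2 * (4 * π * P.a) ^ 2 by positivity)
      have h2 := mul_le_mul_of_nonneg_right q4 hρ0.le
      linarith))
    (by linarith)
  have hAW : 0 ≤ 6 * (4 * π * P.a) * P.W * e := by positivity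
  exact ⟨fin.1.trans (mul_le_mul_of_nonneg_right (by linarith) hρ0.le),
    fin.2.trans (mul_le_mul_of_nonneg_right (by linarith) hρ0.le)⟩

end Pool.Agent.BoseTail
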