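import Pool.Agent.Lib.MP_dec75e_mp.Kern0

/-! The window satisfies the standing assumptions. -/

open MeasureTheory Complex Finset Filter Function
open scoped ComplexConjugate Real Topology

noncomputable section

namespace Pool.Agent.BoseTail

theorem hcs_kern {g : E3 → ℝ} (hg : ∀ z, 1 < ‖z‖ → g z = 0) : HasCompactSupport g :=
  HasCompactSupport.intro (isCompact_closedBall (0 : E3) 1) fun x hx =>
    hg x (by simpa using hx)

theorem integral_sq_pos {g : E3 → ℝ} (hc : Continuous g) (hg : ∀ z, 1 < ‖z‖ → g z = 0)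
    (h0 : g ≠ 0) : 0 < ∫ x, g x ^ 2 := by
  obtain ⟨x, hx⟩ := Function.ne_iff.1 h0
  exact (hc.pow 2).integral_pos_of_hasCompactSupport_nonneg_nonzero (x := x)
    (hcs_kern fun z hz => by simp [hg z hz]) (fun z => sq_nonneg _) (pow_ne_zero 2 hx)

theorem bound_kern {ι : Type*} [Fintype ι] {g : ι → E3 → ℝ} (hc : ∀ i, Continuous (g i))
    (hg : ∀ i z, 1 < ‖z‖ → g i z = 0) : ∃ B : ℝ, ∀ i z, |g i z| ≤ B := by
  choose B hB using fun i => (hcs_kern (hg i)).exists_bound_of_continuous (hc i)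
  refine ⟨∑ i, |B i|, fun i z => ((hB i z).trans (le_abs_self _)).trans ?_⟩
  exact Finset.single_le_sum (f := fun i => |B i|) (fun _ _ => abs_nonneg _) (Finset.mem_univ i)

theorem lapE_out_kern {u : E3 → ℂ} {s : ℝ} (h : ∀ x, s < ‖x‖ → u x = 0) (x : E3)
    (hx : s < ‖x‖) : lapE u x = 0 :=
  Finset.sum_eq_zero fun c _ => dd_e3_out (dd_e3_out h c) c x hx

theorem contDiff_lapE_kern {u : E3 → ℂ} (hu : ContDiff ℝ 3 u) : ContDiff ℝ 1 (lapE u) := by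
  have h2 : ∀ c, ContDiff ℝ 2 (dd (e3 c) u) := fun c => contDiff_dd (n := 2) hu c
  have h1 : ∀ c, ContDiff ℝ 1 (dd (e3 c) (dd (e3 c) u)) := fun c => contDiff_dd (n := 1) (h2 c) c
  exact ContDiff.sum fun c _ => h1 c

theorem norm_wk_le_kern {g : E3 → ℝ} {δ B : ℝ} {k₀ : E3} (hδ : 0 < δ) (hB : ∀ z, |g z| ≤ B)
    (x : E3) : ‖wk g δ k₀ x‖ ≤ B * δ ^ 3 := by
  rw [norm_wk hδ, mul_comm]
  exact mul_le_mul_of_nonneg_right (hB _) (by positivity)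

theorem norm_lapE_le_kern {g : E3 → ℝ} {δ B : ℝ} {k₀ : E3} (hg : ContDiff ℝ 2 g) (hδ : 0 < δ)
    (hk : δ ≤ ‖k₀‖) (h0 : ∀ z, |g z| ≤ B) (h1 : ∀ c z, |dd (e3 c) g z| ≤ B)
    (h2 : ∀ c z, |dd (e3 c) (dd (e3 c) g) z| ≤ B) (x : E3) :
    ‖lapE (wk g δ k₀) x‖ ≤ 12 * (B * δ ^ 3) * ‖k₀‖ ^ 2 := by
  have hB : 0 ≤ B * δ ^ 3 := (norm_nonneg _).trans (norm_wk_le_kern (k₀ := k₀) hδ h0 x)
  rw [lapE_wk hg]
  refine (norm_sum_le _ _).trans ?_
  have key : ∀ c : Fin 3, ‖δ ^ 2 * wk (dd (e3 c) (dd (e3 c) g)) δ k₀ x +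
      2 * I * δ * k₀ c * wk (dd (e3 c) g) δ k₀ x - k₀ c ^ 2 * wk g δ k₀ x‖ ≤
      4 * (B * δ ^ 3) * ‖k₀‖ ^ 2 := fun c => by
    have hc : |k₀ c| ≤ ‖k₀‖ := PiLp.norm_apply_le k₀ c
    have a1 : ‖(δ : ℂ) ^ 2 * wk (dd (e3 c) (dd (e3 c) g)) δ k₀ x‖ ≤ ‖k₀‖ ^ 2 * (B * δ ^ 3) := by
      rw [norm_mul, norm_pow, Complex.norm_real, Real.norm_eq_abs, abs_of_pos hδ]
      exact mul_le_mul (pow_le_pow_left₀ hδ.le hk 2) (norm_wk_le_kern hδ (h2 c) x) (norm_nonneg _)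
        (by positivity)
    have a2 : ‖2 * I * δ * k₀ c * wk (dd (e3 c) g) δ k₀ x‖ ≤
        2 * 1 * ‖k₀‖ * ‖k₀‖ * (B * δ ^ 3) := by
      simp only [norm_mul, Complex.norm_real, Real.norm_eq_abs, abs_of_pos hδ, Complex.norm_I,
        Complex.norm_ofNat]
      exact mul_le_mul (by gcongr) (norm_wk_le_kern hδ (h1 c) x) (norm_nonneg _) (by positivity)
    have a3 : ‖(k₀ c : ℂ) ^ 2 * wk g δ k₀ x‖ ≤ ‖k₀‖ ^ 2 * (B * δ ^ 3) := by
      rw [norm_mul, norm_pow, Complex.norm_real, Real.norm_eq_abs]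
      exact mul_le_mul (pow_le_pow_left₀ (abs_nonneg _) hc 2) (norm_wk_le_kern hδ h0 x)
        (norm_nonneg _) (by positivity)
    refine (norm_sub_le _ _).trans ?_
    linarith [norm_add_le ((δ : ℂ) ^ 2 * wk (dd (e3 c) (dd (e3 c) g)) δ k₀ x)
      (2 * I * δ * k₀ c * wk (dd (e3 c) g) δ k₀ x)]
  refine (Finset.sum_le_sum fun c _ => key c).trans (le_of_eq ?_)
  simp
  ring

theorem win_kern {g : E3 → ℝ} {δ H L : ℝ} [Fact (0 < L)] {k₀ : E3} (hg : ContDiff ℝ 2 g)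
    (hg1 : ∀ z, 1 < ‖z‖ → g z = 0) (hδ : 0 < δ) (hL : 2 * (1 / δ) < L) (h0 : ∀ z, |g z| ≤ H) :
    Win H δ (fun z : T3 L => wk g δ k₀ (rep z)) :=
  ⟨C2T_per (contDiff_wk (n := 2) hg) (wk_out hδ hg1) hL, per_out (wk_out hδ hg1),
    fun _ => norm_wk_le_kern hδ h0 _⟩

theorem exists_ker {h : E3 → ℝ} (hh : ContDiff ℝ 3 h) (hh1 : ∀ z, 1 < ‖z‖ → h z = 0) :
    ∃ H : ℝ, 1 ≤ H ∧ ∀ (L : ℝ) [Fact (0 < L)] (δ : ℝ) (k₀ : E3), 0 < δ → δ ≤ ‖k₀‖ → 2 / δ < L →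
      Ker H δ ‖k₀‖ (fun c => k₀ c) (fun z : T3 L => wk h δ k₀ (rep z)) := by
  have d1' : ∀ c, ContDiff ℝ 2 (dd (e3 c) h) := fun c => contDiff_dd (n := 2) hh c
  have d2' : ∀ c d, ContDiff ℝ 1 (dd (e3 d) (dd (e3 c) h)) := fun c d =>
    contDiff_dd (n := 1) (d1' c) d
  have d3' : ∀ c d, Continuous (dd (e3 d) (dd (e3 d) (dd (e3 c) h))) := fun c d =>
    (D1_of_contDiff (d2' c d) d).cdd
  have o1 : ∀ c z, 1 < ‖z‖ → dd (e3 c) h z = 0 := fun c => dd_e3_out hh1 c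
  have o2 : ∀ c d z, 1 < ‖z‖ → dd (e3 d) (dd (e3 c) h) z = 0 := fun c d => dd_e3_out (o1 c) d
  obtain ⟨B0, b0⟩ := bound_kern (g := fun _ : Unit => h) (fun _ => hh.continuous) fun _ => hh1
  obtain ⟨B1, b1⟩ := bound_kern (fun c => (d1' c).continuous) o1
  obtain ⟨B2, b2⟩ := bound_kern (g := fun p : Fin 3 × Fin 3 => dd (e3 p.2) (dd (e3 p.1) h))
    (fun p => (d2' p.1 p.2).continuous) fun p => o2 p.1 p.2
  obtain ⟨B3, b3⟩ := bound_kern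
    (g := fun p : Fin 3 × Fin 3 => dd (e3 p.2) (dd (e3 p.2) (dd (e3 p.1) h)))
    (fun p => d3' p.1 p.2) fun p => dd_e3_out (o2 p.1 p.2) p.2
  obtain ⟨B, hB1, e0, e1, e2, e3'⟩ : ∃ B : ℝ, 1 ≤ B ∧ B0 ≤ B ∧ B1 ≤ B ∧ B2 ≤ B ∧ B3 ≤ B :=
    ⟨max (max 1 B0) (max B1 (max B2 B3)), by simp, by simp, by simp, by simp, by simp⟩
  have c0 : ∀ z, |h z| ≤ B := fun z => (b0 () z).trans e0
  have c1 : ∀ c z, |dd (e3 c) h z| ≤ B := fun c z => (b1 c z).trans e1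
  have c2 : ∀ c d z, |dd (e3 d) (dd (e3 c) h) z| ≤ B := fun c d z => (b2 (c, d) z).trans e2
  have c3 : ∀ c d z, |dd (e3 d) (dd (e3 d) (dd (e3 c) h)) z| ≤ B := fun c d z =>
    (b3 (c, d) z).trans e3'
  have hh2 : ContDiff ℝ 2 h := hh.of_le (by norm_num)
  have hh1' : ContDiff ℝ 1 h := hh.of_le (by norm_num)
  refine ⟨24 * B, by linarith, fun L _ δ k₀ hδ hk hL => ?_⟩
  have hL' : 2 * (1 / δ) < L := by rwa [mul_one_div]
  have hk0 : 0 < ‖k₀‖ := hδ.trans_le hk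
  have hBδ : 0 ≤ B * δ ^ 3 := by positivity
  have hc : ∀ c, |k₀ c| ≤ ‖k₀‖ := fun c => PiLp.norm_apply_le k₀ c
  have out := wk_out (k₀ := k₀) hδ hh1
  have hlap : lapT (fun z : T3 L => wk h δ k₀ (rep z)) = fun z => lapE (wk h δ k₀) (rep z) :=
    funext (lapT_per out hL')
  have l2 := norm_lapE_le_kern hh2 hδ hk c0 c1 (fun c => c2 c c)
  refine ⟨win_kern hh2 hh1 hδ hL' fun z => (c0 z).trans (by linarith), ?_, fun c => ?_,
    fun c z => ?_, fun z => ?_, fun c z => ?_, fun c => ?_⟩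
  · rw [EuclideanSpace.real_norm_sq_eq]
  · rw [hlap]
    exact (D1_of_contDiff (contDiff_lapE_kern (contDiff_wk (n := 3) hh)) c).per
      (lapE_out_kern out) hL'
  · rw [dd_per out hL', dd_wk hh1']
    refine (norm_add_le _ _).trans ?_
    simp only [norm_mul, Complex.norm_real, Real.norm_eq_abs, abs_of_pos hδ, Complex.norm_I,
      one_mul]
    have a1 := mul_le_mul hk (norm_wk_le_kern (k₀ := k₀) hδ (c1 c) (rep z)) (norm_nonneg _) hk0.le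
    have a2 := mul_le_mul (hc c) (norm_wk_le_kern (k₀ := k₀) hδ c0 (rep z)) (norm_nonneg _) hk0.le
    linarith [mul_nonneg hk0.le hBδ]
  · rw [hlap]
    refine (l2 _).trans ?_
    linarith [mul_nonneg hBδ (sq_nonneg ‖k₀‖)]
  · rw [hlap, dd_per (lapE_out_kern out) hL', sub_eq_iff_eq_add.1 (dd_lapE_wk hh c _)]
    refine (norm_add_le _ _).trans ?_
    simp only [norm_mul, Complex.norm_real, Real.norm_eq_abs, abs_of_pos hδ, Complex.norm_I,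
      one_mul]
    have a1 := mul_le_mul hk (norm_lapE_le_kern (d1' c) hδ hk (c1 c) (c2 c) (c3 c) (rep z))
      (norm_nonneg _) hk0.le
    have a2 := mul_le_mul (hc c) (l2 (rep z)) (norm_nonneg _) hk0.le
    linarith
  · refine ⟨fun z => wk (dd (e3 c) h) δ k₀ (rep z),
      win_kern (d1' c) (o1 c) hδ hL' fun z => (c1 c z).trans (by linarith), fun z => ?_,
      fun z => ?_⟩
    · rw [dd_per out hL', dd_wk hh1']
      ring
    · rw [hlap, dd_per (lapE_out_kern out) hL', lapT_per (wk_out hδ (o1 c)) hL']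
      exact dd_lapE_wk hh c _

end Pool.Agent.BoseTail
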