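import Pool.Agent.Lib.MP_dec75e_mp.Fou
import Pool.Agent.Lib.MP_dec75e_mp.Cvl

/-! The momentum distribution and convolutions. -/

open MeasureTheory Complex Finset Filter Function
open scoped ComplexConjugate Real Topology

noncomputable section

namespace Pool.Agent.BoseTail

variable {N : ℕ} {L : ℝ} [Fact (0 < L)] {ψ : Cf N L → ℂ}

theorem continuous_hat_slice (hψ : Continuous ψ) (i : Fin N) (n : Fin 3 → ℤ) :
    Continuous fun x : Cf N L => hat (fun y => ψ (update x i y)) n := by
  have h1 : BM (fun y : T3 L => conj (wave n y)) :=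
    BM.of_cont (Complex.continuous_conj.comp (continuous_wave n))
  exact continuous_param (Φ := fun (x : Cf N L) (y : T3 L) => ψ (update x i y)) h1
    (hψ.comp (continuous_update2 i))

theorem Kop_expect (hψ : Continuous ψ) (i : Fin N) (n : Fin 3 → ℤ) :
    (∫ x, conj (ψ x) * Kop i n ψ x).re =
      (L ^ 3)⁻¹ * ∫ x, ‖hat (fun y => ψ (update x i y)) n‖ ^ 2 := by
  have hL : (0 : ℝ) < L ^ 3 := pow_pos Lpos 3
  have hc := continuous_hat_slice hψ i n
  have hG : Continuous fun x : Cf N L => conj (ψ x) * Kop i n ψ x :=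
    (Complex.continuous_conj.comp hψ).mul
      (((continuous_wave n).comp (continuous_apply i)).mul hc)
  have h1 := av (BM.of_cont hG) i
  have h2 : ∀ x : Cf N L, ∫ y, conj (ψ (update x i y)) * Kop i n ψ (update x i y) =
      ((‖hat (fun y => ψ (update x i y)) n‖ ^ 2 : ℝ) : ℂ) := by
    intro x
    have h3 : ∀ y, conj (ψ (update x i y)) * Kop i n ψ (update x i y) =
        conj (conj (wave n y) * ψ (update x i y)) * hat (fun y => ψ (update x i y)) n := by
      intro y
      simp only [Kop, update_self, update_idem, hat, map_mul, Complex.conj_conj]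
      ring
    simp only [h3]
    rw [integral_mul_const, integral_conj]
    change conj (hat (fun y => ψ (update x i y)) n) * _ = _
    rw [Complex.conj_mul']
    push_cast
    rfl
  simp only [h2] at h1
  rw [integral_complex_ofReal] at h1
  have h4 := congrArg Complex.re h1
  change (((∫ x, ‖hat (fun y => ψ (update x i y)) n‖ ^ 2 : ℝ)) : ℂ).re =
    (((L ^ 3 : ℝ) : ℂ) * _).re at h4
  rw [Complex.ofReal_re, Complex.re_ofReal_mul] at h4
  rw [h4, ← mul_assoc, inv_mul_cancel₀ hL.ne', one_mul]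

theorem Mom_eq (hψ : Continuous ψ) (hs : ∀ (σ : Equiv.Perm (Fin N)) (x : Cf N L), ψ (x ∘ σ) = ψ x)
    (o : Fin N) (n : Fin 3 → ℤ) :
    Mom ψ n = (L ^ 3)⁻¹ * ∫ x, ‖hat (fun y => ψ (update x o y)) n‖ ^ 2 := by
  have h1 : ∀ i : Fin N, ∫ x, ‖hat (fun y => ψ (update x i y)) n‖ ^ 2 =
      ∫ x, ‖hat (fun y => ψ (update x o y)) n‖ ^ 2 := by
    intro i
    rw [← integral_perm (fun x : Cf N L => ‖hat (fun y => ψ (update x o y)) n‖ ^ 2)
      (Equiv.swap o i)]
    congr 1
    funext x
    congr 3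
    funext y
    rw [← hs (Equiv.swap o i) (update x i y)]
    congr 1
    have h2 := Function.update_comp_eq_of_injective x (Equiv.swap o i).injective o y
    rw [Equiv.swap_apply_left] at h2
    exact h2
  have hN : (N : ℝ) ≠ 0 := Nat.cast_ne_zero.2 (Fin.pos o).ne'
  simp only [Mom, Kop_expect hψ, h1, sum_const, card_univ, Fintype.card_fin, nsmul_eq_mul]
  rw [← mul_assoc, one_div, inv_mul_cancel₀ hN, one_mul]

theorem Mom_nonneg (hψ : Continuous ψ) (n : Fin 3 → ℤ) : 0 ≤ Mom ψ n := by
  have hL : (0 : ℝ) < L ^ 3 := pow_pos Lpos 3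
  refine mul_nonneg (by positivity) (sum_nonneg fun i _ => ?_)
  rw [Kop_expect hψ]
  exact mul_nonneg (inv_nonneg.2 hL.le) (integral_nonneg fun x => by positivity)

theorem hasSum_Mom (hψ : Continuous ψ)
    (hs : ∀ (σ : Equiv.Perm (Fin N)) (x : Cf N L), ψ (x ∘ σ) = ψ x) (o : Fin N) {κ : T3 L → ℂ}
    (hκ : Continuous κ) :
    HasSum (fun n => ‖hat κ n‖ ^ 2 * Mom ψ n) (L ^ 3 * nsq (cvl o κ ψ)) := by
  have hL : (0 : ℝ) < L ^ 3 := pow_pos Lpos 3
  have hcv : Continuous (cvl o κ ψ) := continuous_cvl (BM.of_cont hκ) hψ o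
  have hup : ∀ x : Cf N L, Continuous fun y : T3 L => update x o y := fun x =>
    (continuous_update2 o).comp (continuous_const.prodMk continuous_id)
  set F : (Fin 3 → ℤ) → Cf N L → ℝ :=
    fun n x => ‖hat κ n‖ ^ 2 * ‖hat (fun y => ψ (update x o y)) n‖ ^ 2 with hF
  set T : Cf N L → ℝ := fun x => L ^ 3 * ∫ y, ‖cvl o κ ψ (update x o y)‖ ^ 2 with hT
  have hsum : ∀ x, HasSum (fun n => F n x) (T x) := by
    intro x
    have h1 := parseval (hcv.comp (hup x))
    have h2 : (cvl o κ ψ ∘ fun y : T3 L => update x o y) =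
        fun y => ∫ z, κ z * (fun y => ψ (update x o y)) (y - z) := by
      funext y
      simp only [comp_apply, cvl, update_self, update_idem]
    have h3 : ∀ n, ‖hat (cvl o κ ψ ∘ fun y : T3 L => update x o y) n‖ ^ 2 = F n x := by
      intro n
      rw [h2, hat_conv (u := fun y => ψ (update x o y)) hκ (hψ.comp (hup x)), norm_mul, mul_pow]
    simp only [h3] at h1
    exact h1
  have hFc : ∀ n, Continuous (F n) := fun n =>
    continuous_const.mul ((continuous_hat_slice hψ o n).norm.pow 2)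
  have hFi : ∀ n, Integrable (F n) := fun n => cont_integrable (hFc n)
  have hF0 : ∀ n x, 0 ≤ F n x := fun n x => by positivity
  have hG : BM fun x : Cf N L => ‖cvl o κ ψ x‖ ^ 2 := BM.of_cont (hcv.norm.pow 2)
  have hTb : BM T := (BM.const (L ^ 3)).mul (BM.integral_right
    (Φ := fun (x : Cf N L) (y : T3 L) => ‖cvl o κ ψ (update x o y)‖ ^ 2)
    (hG.comp (measurable_update2 o)))
  have hTi : Integrable T := hTb.integrable
  have hsm : Summable fun n => ∫ x, ‖F n x‖ := by
    refine summable_of_sum_le (c := ∫ x, T x) (fun n => integral_nonneg fun x => norm_nonneg _)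
      fun s => ?_
    simp only [Real.norm_of_nonneg (hF0 _ _)]
    rw [← integral_finsetSum s fun n _ => hFi n]
    refine integral_mono (integrable_finsetSum s fun n _ => hFi n) hTi fun x => ?_
    exact sum_le_hasSum s (fun n _ => hF0 n x) (hsum x)
  have h4 := hasSum_integral_of_summable_integral_norm hFi hsm
  have h5 : ∫ x, ∑' n, F n x = L ^ 3 * (L ^ 3 * nsq (cvl o κ ψ)) := by
    simp only [(hsum _).tsum_eq, hT]
    rw [integral_const_mul, av hG o]
    rfl
  rw [h5] at h4
  have h6 := h4.mul_left (L ^ 3)⁻¹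
  rw [← mul_assoc, inv_mul_cancel₀ hL.ne', one_mul] at h6
  have h7 : (fun n => ‖hat κ n‖ ^ 2 * Mom ψ n) = fun n => (L ^ 3)⁻¹ * ∫ x, F n x := by
    funext n
    rw [Mom_eq hψ hs o n, hF]
    simp only
    rw [integral_const_mul]
    ring
  rw [h7]
  exact h6

end Pool.Agent.BoseTail
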