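import Pool.Agent.Lib.MP_dec75e_mp.Base

/-! Bogolyubov's function and the final elementary comparison of series. -/

open MeasureTheory Complex Finset Filter Function
open scoped ComplexConjugate Real Topology

noncomputable section

namespace Pool.Agent.BoseTail

theorem le_of_sq_le_sq_rat {x y : ℝ} (h : x ^ 2 ≤ y ^ 2) (hy : 0 ≤ y) : x ≤ y :=
  le_trans (le_abs_self x) (abs_le_of_sq_le_sq' h hy |> fun h => abs_le.2 h)

theorem gB_eq_rat {t : ℝ} (ht : 0 < t) :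
    ∃ s : ℝ, 0 < s ∧ s ^ 2 = t ^ 4 + 2 * t ^ 2 ∧ gB t = (s * (1 + t ^ 2) + s ^ 2)⁻¹ := by
  have h1 : 0 < √(t ^ 2 + 2) := Real.sqrt_pos.2 (by positivity)
  have h2 : √(t ^ 2 + 2) ^ 2 = t ^ 2 + 2 := Real.sq_sqrt (by positivity)
  have hs : (t * √(t ^ 2 + 2)) ^ 2 = t ^ 4 + 2 * t ^ 2 := by rw [mul_pow, h2]; ring
  refine ⟨t * √(t ^ 2 + 2), by positivity, hs, ?_⟩
  unfold gB
  have hs0 : 0 < t * √(t ^ 2 + 2) := by positivity
  generalize t * √(t ^ 2 + 2) = s at hs hs0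
  refine eq_inv_of_mul_eq_one_left ?_
  have e : ((1 + t ^ 2) / s - 1) * (s * (1 + t ^ 2) + s ^ 2) = (1 + t ^ 2) ^ 2 - s ^ 2 := by
    field_simp
    ring
  rw [e, hs]
  ring

theorem gB_pos {t : ℝ} (ht : 0 < t) : 0 < gB t := by
  obtain ⟨s, hs0, -, hg⟩ := gB_eq_rat ht
  rw [hg]
  positivity

theorem inv_gB_bounds {t : ℝ} (ht : 0 < t) :
    2 * t ^ 4 ≤ (gB t)⁻¹ ∧ (gB t)⁻¹ ≤ 2 * t ^ 4 + 4 * t ^ 2 + 1 := by
  obtain ⟨s, hs0, hs, hg⟩ := gB_eq_rat ht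
  rw [hg, inv_inv]
  have ht2 : 0 < t ^ 2 := by positivity
  have h1 : t ^ 2 ≤ s := by
    refine le_of_sq_le_sq_rat ?_ hs0.le
    nlinarith
  have h2 : s ≤ 1 + t ^ 2 := by
    refine le_of_sq_le_sq_rat ?_ (by positivity)
    nlinarith
  constructor
  · nlinarith [mul_le_mul_of_nonneg_right h1 ht2.le]
  · nlinarith [mul_le_mul_of_nonneg_right h2 (show 0 ≤ 1 + t ^ 2 by positivity)]

theorem kvec_ne_zero {L : ℝ} (hL : 0 < L) {n : Fin 3 → ℤ} (hn : n ≠ 0) : 0 < ‖kvec L n‖ := by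
  rw [norm_pos_iff]
  intro h
  apply hn
  funext c
  have h1 : kvec L n c = 0 := by rw [h]; rfl
  have h2 : 2 * π * (n c : ℝ) / L = 0 := h1
  have h3 : (n c : ℝ) = 0 := by
    have hπ := Real.pi_pos
    rcases div_eq_zero_iff.1 h2 with h4 | h4
    · rcases mul_eq_zero.1 h4 with h5 | h5
      · exact absurd h5 (by positivity)
      · exact h5
    · exact absurd h4 hL.ne'
  exact_mod_cast h3

theorem kvec_zero (L : ℝ) : kvec L 0 = 0 := by
  ext c
  simp [kvec]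

theorem hasSum_ne_rat {ι : Type*} (z : ι) {f : ι → ℝ} {a : ℝ} (h : HasSum f a) :
    HasSum (fun n : {n // n ≠ z} => f n) (a - f z) := by
  classical
  have h1 := hasSum_ite_sub_hasSum h z
  have h2 : (fun n => ite (n = z) 0 (f n)) = Set.indicator {n | n ≠ z} f := by
    funext n
    by_cases hn : n = z <;> simp [Set.indicator, hn]
  rw [h2] at h1
  exact hasSum_subtype_iff_indicator.2 h1

/-- Comparison of series. Here `φ` is the window, `M` the momentum distribution, `q = |k|`. -/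
theorem ratio_bound {ι : Type*} (z : ι) {φ M q : ι → ℝ} {ρ a Φ T U η : ℝ} (hρ : 0 < ρ) (ha : 0 < a)
    (hη : 0 < η) (hη1 : η ≤ 1) (hφ : ∀ n, 0 ≤ φ n) (hM : ∀ n, 0 ≤ M n) (hq : ∀ n, n ≠ z → 0 < q n)
    (hz : q z = 0) (h₁ : HasSum φ Φ) (hΦ : 0 < Φ) (h₂ : HasSum (fun n => q n ^ 4 * φ n * M n) T)
    (h₃ : HasSum (fun n => φ n * M n) U) (hT : |T - (4 * π * a) ^ 2 * ρ * Φ| ≤
      η / 8 * ((4 * π * a) ^ 2 * ρ * Φ)) (hU : ρ * U ≤ η ^ 2 / 600 * Φ) (h0 : φ z ≤ η / 8 * Φ) :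
    (Summable fun n : {n // n ≠ z} => φ n) ∧ 0 < ∑' n : {n // n ≠ z}, φ n ∧
      (Summable fun n : {n // n ≠ z} => φ n * (2 * ρ * M n / gB (q n / √(8 * π * ρ * a)))) ∧
      |(∑' n : {n // n ≠ z}, φ n * (2 * ρ * M n / gB (q n / √(8 * π * ρ * a)))) -
          ∑' n : {n // n ≠ z}, φ n| ≤ η * ∑' n : {n // n ≠ z}, φ n := by
  have hπ := Real.pi_pos
  have g1 := hasSum_ne_rat z h₁
  have g2 := hasSum_ne_rat z h₂
  have g3 := hasSum_ne_rat z h₃
  simp only [hz] at g2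
  have g2' : HasSum (fun n : {n // n ≠ z} => q n ^ 4 * φ n * M n) T := by simpa using g2
  set A : ℝ := (4 * π * a) ^ 2 * ρ with hA
  have hA0 : 0 < A := by positivity
  have hr0 : 0 < √(8 * π * ρ * a) := Real.sqrt_pos.2 (by positivity)
  have hr4 : √(8 * π * ρ * a) ^ 4 = 4 * ρ * A := by
    have h2 : √(8 * π * ρ * a) ^ 2 = 8 * π * ρ * a := Real.sq_sqrt (by positivity)
    calc √(8 * π * ρ * a) ^ 4 = (√(8 * π * ρ * a) ^ 2) ^ 2 := by ring
      _ = 4 * ρ * A := by rw [h2, hA]; ring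
  have key : ∀ n : {n // n ≠ z},
      A⁻¹ * (q n ^ 4 * φ n * M n) ≤ φ n * (2 * ρ * M n / gB (q n / √(8 * π * ρ * a))) ∧
      φ n * (2 * ρ * M n / gB (q n / √(8 * π * ρ * a))) ≤
        (1 + η / 8) * A⁻¹ * (q n ^ 4 * φ n * M n) + 34 * ρ / η * (φ n * M n) := by
    intro n
    have ht : 0 < q n / √(8 * π * ρ * a) := div_pos (hq n n.2) hr0
    obtain ⟨b1, b2⟩ := inv_gB_bounds ht
    have ht4 : (q n / √(8 * π * ρ * a)) ^ 4 = q n ^ 4 / (4 * ρ * A) := by rw [div_pow, hr4]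
    generalize q n / √(8 * π * ρ * a) = t at ht b1 b2 ht4
    have hc : 0 ≤ 2 * ρ * (φ n * M n) := by have := hφ n; have := hM n; positivity
    have e0 : φ n * (2 * ρ * M n / gB t) = 2 * ρ * (φ n * M n) * (gB t)⁻¹ := by
      rw [div_eq_mul_inv]; ring
    have e1 : A⁻¹ * (q n ^ 4 * φ n * M n) = 2 * ρ * (φ n * M n) * (2 * t ^ 4) := by
      rw [ht4]; field_simp; ring
    have b3 : (gB t)⁻¹ ≤ (1 + η / 8) * (2 * t ^ 4) + 17 / η := by
      have e2 : 4 * t ^ 2 ≤ η / 4 * t ^ 4 + 16 / η := by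
        have : η / 4 * t ^ 4 + 16 / η - 4 * t ^ 2 = (η * t ^ 2 - 8) ^ 2 / (4 * η) := by
          field_simp; ring
        have h' : 0 ≤ (η * t ^ 2 - 8) ^ 2 / (4 * η) := by positivity
        linarith
      have e3 : 1 ≤ 1 / η := by rw [le_div_iff₀ hη]; linarith
      have e4 : 17 / η = 16 / η + 1 / η := by ring
      nlinarith
    rw [e0]
    constructor
    · rw [e1]; exact mul_le_mul_of_nonneg_left b1 hc
    · have e5 : (1 + η / 8) * A⁻¹ * (q n ^ 4 * φ n * M n) + 34 * ρ / η * (φ n * M n) =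
          2 * ρ * (φ n * M n) * ((1 + η / 8) * (2 * t ^ 4) + 17 / η) := by
        rw [mul_assoc (1 + η / 8), e1]; ring
      rw [e5]; exact mul_le_mul_of_nonneg_left b3 hc
  have lo := g2'.mul_left A⁻¹
  have hi := (g2'.mul_left ((1 + η / 8) * A⁻¹)).add (g3.mul_left (34 * ρ / η))
  have hnn : ∀ n : {n // n ≠ z}, 0 ≤ φ n * (2 * ρ * M n / gB (q n / √(8 * π * ρ * a))) := by
    intro n
    refine le_trans ?_ (key n).1
    have := hφ n; have := hM n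
    positivity
  have hsum : Summable fun n : {n // n ≠ z} =>
      φ n * (2 * ρ * M n / gB (q n / √(8 * π * ρ * a))) :=
    Summable.of_nonneg_of_le hnn (fun n => (key n).2) hi.summable
  have s1 := hasSum_le (fun n => (key n).1) lo hsum.hasSum
  have s2 := hasSum_le (fun n => (key n).2) hsum.hasSum hi
  rw [g1.tsum_eq]
  generalize (∑' n : {n // n ≠ z}, φ n * (2 * ρ * M n / gB (q n / √(8 * π * ρ * a)))) = S at s1 s2
  have hφz := hφ z
  have hηΦ : η * Φ ≤ Φ := by nlinarith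
  have hηΦ0 : 0 < η * Φ := by positivity
  refine ⟨g1.summable, by linarith, hsum, ?_⟩
  obtain ⟨t1, t2⟩ := abs_le.1 hT
  have u1 : (1 - η / 8) * Φ ≤ A⁻¹ * T := by
    rw [← div_eq_inv_mul, le_div_iff₀ hA0]; nlinarith
  have u2 : A⁻¹ * T ≤ (1 + η / 8) * Φ := by
    rw [← div_eq_inv_mul, div_le_iff₀ hA0]; nlinarith
  have u3 : 34 * ρ / η * (U - φ z * M z) ≤ 34 / 600 * (η * Φ) := by
    have e1 : 0 ≤ φ z * M z := mul_nonneg hφz (hM z)
    have e2 : 34 * ρ / η * (U - φ z * M z) ≤ 34 * ρ / η * U :=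
      mul_le_mul_of_nonneg_left (by linarith) (by positivity)
    have e3 : 34 * ρ / η * U = 34 / η * (ρ * U) := by ring
    have e4 : 34 / η * (ρ * U) ≤ 34 / η * (η ^ 2 / 600 * Φ) :=
      mul_le_mul_of_nonneg_left hU (by positivity)
    have e5 : 34 / η * (η ^ 2 / 600 * Φ) = 34 / 600 * (η * Φ) := by field_simp
    linarith
  have u4 : (1 + η / 8) * A⁻¹ * T ≤ (1 + η / 8) * ((1 + η / 8) * Φ) := by
    rw [mul_assoc]; exact mul_le_mul_of_nonneg_left u2 (by positivity)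
  have u5 : η * (η * Φ) ≤ η * Φ := mul_le_mul_of_nonneg_left hηΦ hη.le
  have u6 : η * φ z ≤ η * (η / 8 * Φ) := mul_le_mul_of_nonneg_left h0 hη.le
  have u7 : η * φ z ≤ φ z := by nlinarith
  rw [abs_le]
  constructor <;> nlinarith

end Pool.Agent.BoseTail
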