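import Pool.Agent.Lib.MP_dec75e_mp.Ims

/-! The symmetric minimiser minimises among all functions. -/

open MeasureTheory Complex Finset Filter Function
open scoped ComplexConjugate Real Topology

noncomputable section

namespace Pool.Agent.BoseTail

variable {N : ℕ} {L : ℝ} [Fact (0 < L)] {P : Par} {w : T3 L → ℝ} {ψ : Cf N L → ℂ}

omit [Fact (0 < L)] in
theorem US_perm (σ : Equiv.Perm (Fin N)) (x : Cf N L) : US w univ (x ∘ σ) = US w univ x := by
  unfold US
  congr 1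
  rw [← Equiv.sum_comp σ (fun i => ∑ j ∈ univ.erase i, w (x i - x j))]
  refine Finset.sum_congr rfl fun i _ => ?_
  refine Finset.sum_bij (fun j _ => σ j) (fun j hj => ?_) (fun a _ b _ h => σ.injective h)
    (fun b hb => ⟨σ.symm b, ?_, by simp⟩) (fun j _ => rfl)
  · simp only [Finset.mem_erase, Finset.mem_univ, and_true] at hj ⊢
    exact fun h => hj (σ.injective h)
  · simp only [Finset.mem_erase, Finset.mem_univ, and_true] at hb ⊢
    intro h
    exact hb (by rw [← h]; simp)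

theorem ES_perm_gsy (φ : Cf N L → ℂ) (σ : Equiv.Perm (Fin N)) :
    ES w univ (fun x : Cf N L => φ (x ∘ σ)) = ES w univ φ := by
  unfold ES
  congr 1
  · congr 1
    rw [← Equiv.sum_comp σ.symm (fun i => ∫ x, gP i φ x)]
    refine Finset.sum_congr rfl fun i _ => ?_
    rw [← integral_perm (gP (σ.symm i) φ) σ]
    refine integral_congr_ae (Eventually.of_forall fun x => ?_)
    simp only [gP, dd_perm]
  · rw [← integral_perm (fun x => US w univ x * ‖φ x‖ ^ 2) σ]
    refine integral_congr_ae (Eventually.of_forall fun x => ?_)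
    simp only [US_perm]

theorem scale_gsy (h : ∀ φ : Cf N L → ℂ, Adm φ → ES w univ ψ ≤ ES w univ φ) {φ : Cf N L → ℂ}
    (hφ : IsC1 φ) (hs : ∀ (σ : Equiv.Perm (Fin N)) (x : Cf N L), φ (x ∘ σ) = φ x)
    (hpos : 0 < nsq φ) : ES w univ ψ * nsq φ ≤ ES w univ φ := by
  set c : ℝ := (√(nsq φ))⁻¹ with hc
  have hc2 : c * c * nsq φ = 1 := by
    rw [hc, ← mul_inv, Real.mul_self_sqrt hpos.le, inv_mul_cancel₀ hpos.ne']
  have hφ' : IsC1 (fun x => (c : ℂ) * φ x) := hφ.const_mul (c : ℂ)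
  have hn : nsq (fun x => (c : ℂ) * φ x) = 1 := by
    rw [← rip_self, rip_smul_right, rip_comm, rip_smul_right, rip_self, ← mul_assoc, hc2]
  have he : ES w univ (fun x => (c : ℂ) * φ x) = c * c * ES w univ φ := by
    rw [← rB_self hφ', rB_smul_right c hφ, rB_comm, rB_smul_right c hφ, rB_self hφ, mul_assoc]
  have h1 := h _ ⟨hφ', fun σ x => by simp only [hs], hn⟩
  rw [he] at h1
  calc ES w univ ψ * nsq φ ≤ c * c * ES w univ φ * nsq φ :=
        mul_le_mul_of_nonneg_right h1 hpos.le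
    _ = c * c * nsq φ * ES w univ φ := by ring
    _ = ES w univ φ := by rw [hc2, one_mul]

omit [Fact (0 < L)] in
/-- The regularised root of a sum of squares. -/
theorem root_gsy {ι : Type*} (s : Finset ι) {f : ι → Cf N L → ℂ} (hf : ∀ a ∈ s, IsC1 (f a))
    {t : ℝ} (ht : 0 < t) :
    IsC1 (fun x => √(t + ∑ a ∈ s, ‖f a x‖ ^ 2)) ∧
      ∀ i x, gP i (fun x => ((√(t + ∑ a ∈ s, ‖f a x‖ ^ 2) : ℝ) : ℂ)) x ≤
        ∑ a ∈ s, gP i (f a) x := by
  have hQ0 : ∀ x, 0 ≤ ∑ a ∈ s, ‖f a x‖ ^ 2 := fun x => Finset.sum_nonneg fun a _ => by positivity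
  have hQp : ∀ x, 0 < t + ∑ a ∈ s, ‖f a x‖ ^ 2 := fun x => add_pos_of_pos_of_nonneg ht (hQ0 x)
  have hS : ∀ i c, D1 (dir i c) (fun x : Cf N L => ∑ a ∈ s, ‖f a x‖ ^ 2) := fun i c =>
    D1.sum fun a ha => D1.normSq (dir_dir i c) ((hf a ha).2 i c)
  have hQ : ∀ i c, D1 (dir i c) (fun x : Cf N L => t + ∑ a ∈ s, ‖f a x‖ ^ 2) := fun i c =>
    (D1.const t).add (hS i c)
  have hQc : Continuous (fun x : Cf N L => t + ∑ a ∈ s, ‖f a x‖ ^ 2) :=
    continuous_const.add (continuous_finsetSum _ fun a ha => ((hf a ha).1.norm).pow 2)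
  have hd : ∀ x : Cf N L, HasDerivAt (fun u : ℝ => √u)
      ((fun u : ℝ => 1 / (2 * √u)) (t + ∑ a ∈ s, ‖f a x‖ ^ 2)) (t + ∑ a ∈ s, ‖f a x‖ ^ 2) :=
    fun x => Real.hasDerivAt_sqrt (hQp x).ne'
  have hdc : Continuous fun x : Cf N L =>
      (fun u : ℝ => 1 / (2 * √u)) (t + ∑ a ∈ s, ‖f a x‖ ^ 2) :=
    continuous_const.div (continuous_const.mul hQc.sqrt) fun x =>
      (mul_pos two_pos (Real.sqrt_pos.2 (hQp x))).ne'
  have hG : ∀ i c, D1 (dir i c) (fun x : Cf N L => √(t + ∑ a ∈ s, ‖f a x‖ ^ 2)) := fun i c =>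
    D1.comp (g := fun u : ℝ => √u) (g' := fun u : ℝ => 1 / (2 * √u)) (dir_dir i c) (hQ i c) hd hdc
  refine ⟨⟨hQc.sqrt, hG⟩, fun i x => ?_⟩
  unfold gP
  rw [Finset.sum_comm]
  refine Finset.sum_le_sum fun c _ => ?_
  rw [dd_ofReal (hG i c), Complex.norm_real, Real.norm_eq_abs, sq_abs,
    dd_comp (g := fun u : ℝ => √u) (g' := fun u : ℝ => 1 / (2 * √u)) (dir_dir i c) (hQ i c) hd x,
    dd_add (D1.const t) (hS i c), dd_const, zero_add,
    dd_sum fun a ha => D1.normSq (dir_dir i c) ((hf a ha).2 i c)]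
  have e1 : ∑ a ∈ s, dd (dir i c) (fun y => ‖f a y‖ ^ 2) x =
      2 * ∑ a ∈ s, ip (f a x) (dd (dir i c) (f a) x) := by
    rw [Finset.mul_sum]
    exact Finset.sum_congr rfl fun a ha => dd_normSq (dir_dir i c) ((hf a ha).2 i c) x
  rw [e1]
  set A := ∑ a ∈ s, ip (f a x) (dd (dir i c) (f a) x) with hA
  set B := ∑ a ∈ s, ‖dd (dir i c) (f a) x‖ ^ 2 with hB
  set Q := ∑ a ∈ s, ‖f a x‖ ^ 2 with hQd
  have hB0 : 0 ≤ B := Finset.sum_nonneg fun a _ => by positivity
  have hA1 : |A| ≤ ∑ a ∈ s, ‖f a x‖ * ‖dd (dir i c) (f a) x‖ :=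
    (Finset.abs_sum_le_sum_abs _ _).trans (Finset.sum_le_sum fun a _ => abs_ip_le _ _)
  have hA2 : A ^ 2 ≤ Q * B := by
    rw [← sq_abs]
    exact (pow_le_pow_left₀ (abs_nonneg _) hA1 2).trans (Finset.sum_mul_sq_le_sq_mul_sq s _ _)
  have hp : 0 < t + Q := hQp x
  have hr : 0 < √(t + Q) := Real.sqrt_pos.2 hp
  have e2 : (1 / (2 * √(t + Q)) * (2 * A)) ^ 2 = A ^ 2 / (t + Q) := by
    have : (√(t + Q)) ^ 2 = t + Q := Real.sq_sqrt hp.le
    have e3 : 1 / (2 * √(t + Q)) * (2 * A) = A / √(t + Q) := by field_simp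
    rw [e3, div_pow, this]
  rw [e2, div_le_iff₀ hp]
  nlinarith [mul_nonneg hB0 ht.le]

/-- The bosonic ground state energy is the absolute ground state energy. -/
theorem gs_of_sym (hw : Wp P w) (hψ : Adm ψ)
    (h : ∀ φ : Cf N L → ℂ, Adm φ → ES w univ ψ ≤ ES w univ φ) : GS w ψ := by
  refine ⟨hψ.1, hψ.2.2, hψ.2.1, fun φ hφ => ?_⟩
  have hE : 0 ≤ ES w univ ψ := ES_nonneg hw.nonneg _ _
  have hU : Continuous (US (N := N) w univ) := continuous_US hw.cont _
  set C : ℝ := ∫ x : Cf N L, US w univ x with hC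
  have hC0 : 0 ≤ C := integral_nonneg fun x => US_nonneg hw.nonneg _ x
  set M : ℝ := (Fintype.card (Equiv.Perm (Fin N)) : ℝ) with hM
  have hM1 : 1 ≤ M := by
    rw [hM]
    exact_mod_cast Fintype.card_pos
  have hf : ∀ σ ∈ (univ : Finset (Equiv.Perm (Fin N))), IsC1 (fun x : Cf N L => φ (x ∘ σ)) :=
    fun σ _ => hφ.perm σ
  have key : ∀ t : ℝ, 0 < t → ES w univ ψ * (M * nsq φ) ≤ M * ES w univ φ + t * C := by
    intro t ht
    obtain ⟨hG, hg⟩ := root_gsy (univ : Finset (Equiv.Perm (Fin N))) hf ht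
    set G : Cf N L → ℂ :=
      fun x => ((√(t + ∑ σ : Equiv.Perm (Fin N), ‖φ (x ∘ σ)‖ ^ 2) : ℝ) : ℂ) with hGd
    have hG1 : IsC1 G := hG.ofReal
    have hsq : ∀ x, ‖G x‖ ^ 2 = t + ∑ σ : Equiv.Perm (Fin N), ‖φ (x ∘ σ)‖ ^ 2 := fun x => by
      rw [hGd]
      simp only [Complex.norm_real, Real.norm_eq_abs, sq_abs]
      exact Real.sq_sqrt (add_nonneg ht.le (Finset.sum_nonneg fun a _ => by positivity))
    have hsym : ∀ (τ : Equiv.Perm (Fin N)) (x : Cf N L), G (x ∘ τ) = G x := fun τ x => by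
      rw [hGd]
      simp only
      congr 3
      exact Equiv.sum_comp (Equiv.mulLeft τ) (fun σ => ‖φ (x ∘ σ)‖ ^ 2)
    have hi1 : ∀ σ : Equiv.Perm (Fin N), Integrable (fun x : Cf N L => ‖φ (x ∘ σ)‖ ^ 2) :=
      fun σ => cont_integrable (((hf σ (mem_univ _)).1.norm).pow 2)
    have hi2 : ∀ σ : Equiv.Perm (Fin N),
        Integrable (fun x : Cf N L => US w univ x * ‖φ (x ∘ σ)‖ ^ 2) :=
      fun σ => cont_integrable (hU.mul (((hf σ (mem_univ _)).1.norm).pow 2))
    have hi3 : ∀ (σ : Equiv.Perm (Fin N)) (i : Fin N),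
        Integrable (gP i (fun x : Cf N L => φ (x ∘ σ))) :=
      fun σ i => cont_integrable ((hf σ (mem_univ _)).cont_gP i)
    have hn : nsq G = (volume : Measure (Cf N L)).real Set.univ * t + M * nsq φ := by
      unfold nsq
      simp only [hsq]
      rw [integral_add (integrable_const t) (integrable_finsetSum _ fun σ _ => hi1 σ),
        integral_const, smul_eq_mul, integral_finsetSum _ fun σ _ => hi1 σ]
      congr 1
      rw [Finset.sum_congr rfl fun σ _ => integral_perm (fun x => ‖φ x‖ ^ 2) σ, Finset.sum_const,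
        Finset.card_univ, nsmul_eq_mul]
    have hv : 0 < (volume : Measure (Cf N L)).real Set.univ * t := mul_pos vol_Cf_pos ht
    have hn0 : 0 ≤ M * nsq φ := mul_nonneg (by linarith) (nsq_nonneg φ)
    have h1 := scale_gsy h hG1 hsym (by rw [hn]; linarith)
    have h2 : ES w univ G ≤ M * ES w univ φ + t * C := by
      have e1 : M * ES w univ φ =
          ∑ σ : Equiv.Perm (Fin N), ES w univ (fun x : Cf N L => φ (x ∘ σ)) := by
        rw [Finset.sum_congr rfl fun σ _ => ES_perm_gsy φ σ, Finset.sum_const, Finset.card_univ,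
          nsmul_eq_mul]
      have e2 : ∫ x, US w univ x * ‖G x‖ ^ 2 =
          t * C + ∑ σ : Equiv.Perm (Fin N), ∫ x : Cf N L, US w univ x * ‖φ (x ∘ σ)‖ ^ 2 := by
        simp only [hsq, mul_add, Finset.mul_sum]
        rw [integral_add ((cont_integrable hU).mul_const t)
          (integrable_finsetSum _ fun σ _ => hi2 σ), integral_mul_const,
          integral_finsetSum _ fun σ _ => hi2 σ, mul_comm]
      have e3 : ∑ i, ∫ x, gP i G x ≤
          ∑ σ : Equiv.Perm (Fin N), ∑ i, ∫ x, gP i (fun x : Cf N L => φ (x ∘ σ)) x := by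
        rw [Finset.sum_comm]
        refine Finset.sum_le_sum fun i _ => ?_
        rw [← integral_finsetSum _ fun σ _ => hi3 σ i]
        exact integral_mono (cont_integrable (hG1.cont_gP i))
          (integrable_finsetSum _ fun σ _ => hi3 σ i) (hg i)
      rw [e1]
      unfold ES
      rw [e2, Finset.sum_add_distrib, ← Finset.mul_sum]
      linarith
    rw [hn] at h1
    nlinarith [mul_nonneg hE hv.le]
  have h3 : ES w univ ψ * (M * nsq φ) ≤ M * ES w univ φ := by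
    refine le_of_forall_pos_le_add fun ε hε => ?_
    have h4 := key (ε / (C + 1)) (by positivity)
    have h5 : ε / (C + 1) * C ≤ ε := by
      rw [div_mul_eq_mul_div, div_le_iff₀ (by positivity)]
      nlinarith
    linarith
  have hM0 : 0 < M := by linarith
  refine le_of_mul_le_mul_left ?_ hM0
  linarith

end Pool.Agent.BoseTail
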