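import Pool.Agent.Lib.MP_dec75e_mp.Per0

/-! Integrals, plane waves and the periodised potential. -/

open MeasureTheory Complex Finset Filter Function
open scoped ComplexConjugate Real Topology

noncomputable section

namespace Pool.Agent.BoseTail

variable {L : ℝ} [Fact (0 < L)] {F : Type*} [NormedAddCommGroup F] [NormedSpace ℝ F]

theorem measurable_ico_per (a : ℝ) :
    Measurable fun t : AddCircle L => (AddCircle.equivIco L a t : ℝ) :=
  measurable_subtype_coe.comp (AddCircle.measurableEquivIco L a).measurable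

theorem mp_ico_per (a : ℝ) :
    MeasurePreserving (fun t : AddCircle L => (AddCircle.equivIco L a t : ℝ)) volume
      (volume.restrict (Set.Ico a (a + L))) := by
  refine ⟨measurable_ico_per a, ?_⟩
  have h1 := AddCircle.measurePreserving_mk L a
  rw [← h1.map_eq, Measure.map_map (measurable_ico_per a) h1.measurable,
    ← Measure.restrict_congr_set Ico_ae_eq_Ioc]
  have h2 : ((fun t : AddCircle L => (AddCircle.equivIco L a t : ℝ)) ∘
      ((↑) : ℝ → AddCircle L)) =ᵐ[volume.restrict (Set.Ico a (a + L))] id := by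
    filter_upwards [ae_restrict_mem measurableSet_Ico] with y hy
    exact AddCircle.equivIco_coe_of_mem hy
  rw [Measure.map_congr h2, Measure.map_id]

theorem integral_per {u : E3 → F} {s : ℝ} (h : ∀ x, s < ‖x‖ → u x = 0) (hL : 2 * s < L) :
    ∫ z : T3 L, u (rep z) = ∫ x, u x := by
  have h1 : MeasurePreserving
      (fun (z : T3 L) (c : Fin 3) => (AddCircle.equivIco L (-(L / 2)) (z c) : ℝ)) volume
      ((volume : Measure (Fin 3 → ℝ)).restrict
        (Set.univ.pi fun _ => Set.Ico (-(L / 2)) (-(L / 2) + L))) := by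
    rw [volume_pi, volume_pi, Measure.restrict_pi_pi]
    exact measurePreserving_pi _ _ fun _ => mp_ico_per (-(L / 2))
  have h2 : MeasurableEmbedding
      (fun (z : T3 L) (c : Fin 3) => (AddCircle.equivIco L (-(L / 2)) (z c) : ℝ)) := by
    refine h1.measurable.measurableEmbedding fun z z' hz => ?_
    funext c
    exact (AddCircle.equivIco L (-(L / 2))).injective (Subtype.ext (congrFun hz c))
  have h3 := h1.integral_comp h2 (fun y => u (WithLp.toLp 2 y))
  have h4 : ∫ y in Set.univ.pi fun _ : Fin 3 => Set.Ico (-(L / 2)) (-(L / 2) + L),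
      u (WithLp.toLp 2 y) = ∫ y : Fin 3 → ℝ, u (WithLp.toLp 2 y) := by
    refine setIntegral_eq_integral_of_forall_compl_eq_zero fun y hy => h _ ?_
    rw [Set.mem_univ_pi, not_forall] at hy
    obtain ⟨c, hc⟩ := hy
    have h5 : ‖(WithLp.toLp 2 y : E3) c‖ ≤ ‖(WithLp.toLp 2 y : E3)‖ := PiLp.norm_apply_le _ c
    have h6 : L / 2 ≤ |y c| := by
      rw [Set.mem_Ico, not_and_or, not_le, not_lt] at hc
      rcases hc with hc | hc
      · exact le_abs.mpr (Or.inr (by linarith))
      · exact le_abs.mpr (Or.inl (by linarith))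
    have h7 : ‖(WithLp.toLp 2 y : E3) c‖ = |y c| := Real.norm_eq_abs _
    linarith
  have h5 : ∫ y : Fin 3 → ℝ, u (WithLp.toLp 2 y) = ∫ x, u x :=
    (PiLp.volume_preserving_toLp (Fin 3)).integral_comp
      (MeasurableEquiv.toLp 2 (Fin 3 → ℝ)).measurableEmbedding u
  exact h3.trans (h4.trans h5)

theorem wave_eq (n : Fin 3 → ℤ) (z : T3 L) :
    wave n z = cexp (I * (inner ℝ (kvec L n) (rep z) : ℝ)) := by
  have h1 : ∀ c, fourier (n c) (z c) = cexp (2 * π * I * n c * (rep z c : ℝ) / L) := fun c => by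
    rw [← fourier_coe_apply, coe_rep]
  have h2 : (inner ℝ (kvec L n) (rep z) : ℝ) = ∑ c, 2 * π * (n c : ℝ) / L * rep z c := by
    rw [PiLp.inner_apply]
    refine Finset.sum_congr rfl fun c _ => ?_
    simp [kvec, mul_comm]
  rw [wave, h2]
  simp only [h1]
  rw [← Complex.exp_sum]
  congr 1
  push_cast
  rw [Finset.mul_sum]
  refine Finset.sum_congr rfl fun c _ => ?_
  ring

theorem vper_eq {v : E3 → ℝ} {s : ℝ} (h : ∀ x, s < ‖x‖ → v x = 0) (hL : 2 * s < L) (z : T3 L) :
    vper v z = v (rep z) := by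
  have hL0 : 0 < L := Fact.out
  rw [vper, tsum_eq_single 0]
  · congr 1
    ext c
    simp
  · intro n hn
    refine h _ ?_
    obtain ⟨c, hc⟩ : ∃ c, n c ≠ 0 := Function.ne_iff.mp hn
    have h5 := PiLp.norm_apply_le (rep z + (WithLp.toLp 2 fun c => L * (n c : ℝ) : E3)) c
    have h7 : ‖(rep z + (WithLp.toLp 2 fun c => L * (n c : ℝ) : E3)) c‖ =
        |rep z c + L * (n c : ℝ)| := Real.norm_eq_abs _
    obtain ⟨h8, h9⟩ := rep_mem z c
    have h6 : L / 2 ≤ |rep z c + L * (n c : ℝ)| := by
      rcases lt_or_gt_of_ne hc with hc | hc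
      · have : (n c : ℝ) ≤ -1 := by exact_mod_cast Int.le_sub_one_of_lt hc
        exact le_abs.mpr (Or.inr (by nlinarith))
      · have : (1 : ℝ) ≤ n c := by exact_mod_cast hc
        exact le_abs.mpr (Or.inl (by nlinarith))
    linarith

theorem sum_lt_per {N : ℕ} {g : Fin N → Fin N → ℝ} (hg : ∀ i j, g i j = g j i) :
    (∑ i, ∑ j, if i < j then g i j else 0) = (1 / 2) * ∑ i, ∑ j ∈ univ.erase i, g i j := by
  have h1 : ∀ i, ∑ j ∈ univ.erase i, g i j =
      (∑ j, if i < j then g i j else 0) + ∑ j, if j < i then g j i else 0 := by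
    intro i
    rw [← Finset.sum_add_distrib, ← Finset.filter_ne', Finset.sum_filter]
    refine Finset.sum_congr rfl fun j _ => ?_
    rcases lt_trichotomy i j with hij | hij | hij
    · simp [hij, hij.ne', hij.not_gt]
    · simp [hij]
    · simp [hij, hij.ne, hij.not_gt, hg i j]
  simp only [h1]
  rw [Finset.sum_add_distrib, Finset.sum_comm (f := fun i j => if j < i then g j i else 0)]
  ring

theorem energy_eq {N : ℕ} {v : E3 → ℝ} {w : T3 L → ℝ} (hv : ∀ z, vper v z = w z)
    (hw : ∀ z, w (-z) = w z) {φ : Cf N L → ℂ} (hφ : IsC1 φ) : energy v φ = ES w univ φ := by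
  have h1 : ∀ i, ∫ x, gP i φ x = ∑ c, ∫ x, ‖dd (dir i c) φ x‖ ^ 2 := fun i =>
    integral_finsetSum _ fun c _ => cont_integrable ((hφ.2 i c).cdd.norm.pow 2)
  have h2 : ∀ x : Cf N L, (∑ i, ∑ j, if i < j then vper v (x i - x j) else 0) = US w univ x := by
    intro x
    simp only [hv]
    exact sum_lt_per (g := fun i j => w (x i - x j)) fun i j => by rw [← hw, neg_sub]
  simp only [energy, ES, h1, h2]

end Pool.Agent.BoseTail
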