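import Pool.Agent.Lib.MP_dec75e_mp.Rad
import Pool.Agent.Lib.MP_dec75e_mp.Per
import Pool.Agent.Lib.MP_dec75e_mp.Gsy

/-! The periodised potential satisfies the standing assumptions. -/

open MeasureTheory Complex Finset Filter Function
open scoped ComplexConjugate Real Topology

noncomputable section

namespace Pool.Agent.BoseTail

theorem dd_one_sub_sca {L : ℝ} {u : T3 L → ℝ} (hu : C2T u) (c : Fin 3) :
    dd (d1 c) (fun z => 1 - u z) = fun z => -dd (d1 c) u z := by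
  funext z
  rw [dd_sub (D1.const 1) (hu c).1, dd_const, zero_sub]

theorem C2T_one_sub_sca {L : ℝ} {u : T3 L → ℝ} (hu : C2T u) : C2T (fun z => 1 - u z) := by
  intro c
  refine ⟨(D1.const 1).sub (hu c).1, ?_⟩
  rw [dd_one_sub_sca hu]
  exact (hu c).2.neg

theorem lapT_one_sub_sca {L : ℝ} {u : T3 L → ℝ} (hu : C2T u) (z : T3 L) :
    lapT (fun z => 1 - u z) z = -lapT u z := by
  simp only [lapT, ← Finset.sum_neg_distrib]
  refine Finset.sum_congr rfl fun c _ => ?_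
  rw [dd_one_sub_sca hu, dd_neg (hu c).2]

theorem Scat.exists_par {v f : E3 → ℝ} {a : ℝ} (h : Scat v f a) : ∃ P : Par, P.a = a ∧
    ∀ (L : ℝ) [Fact (0 < L)], 4 * P.R0 ≤ L →
      Pot P (fun z : T3 L => v (rep z)) ∧ ∀ z : T3 L, vper v z = v (rep z) := by
  obtain ⟨Rv, hRv, hout⟩ := h.cpt.exists_pos_le_norm
  obtain ⟨C, hC⟩ := h.cont.bounded_above_of_compact_support h.cpt
  obtain ⟨Λ, hΛ, htr⟩ := h.truncate
  have hout' : ∀ x, Rv < ‖x‖ → v x = 0 := fun x hx => hout x hx.le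
  refine ⟨⟨Rv + 1, |C| + 1, a, Λ, by linarith, by positivity, h.pos, hΛ⟩, rfl, ?_⟩
  intro L _ hL
  simp only at hL
  have hL2 : 2 * Rv < L := by linarith
  refine ⟨⟨⟨continuous_per h.cont hout' hL2, fun z => h.nonneg _, fun z => ?_, fun z hz => ?_,
    fun z => ?_⟩, ?_⟩, vper_eq hout' hL2⟩
  · have h1 := hC (rep z)
    have h2 := le_abs_self (v (rep z))
    have h3 := le_abs_self C
    rw [Real.norm_eq_abs] at h1
    simp only
    linarith
  · simp only at hz
    exact per_out hout' z (by linarith)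
  · by_cases hz : ‖z‖ < L / 2
    · rw [rep_neg hz]
      exact h.rad _ _ (norm_neg _)
    · have h1 : Rv < ‖z‖ := by linarith [not_lt.1 hz]
      rw [per_out hout' z h1, per_out hout' (-z) (by rwa [norm_neg])]
  · intro R hR h8
    simp only at hR
    obtain ⟨ω, m, hω2, hω01, hωo, hmc, hmle, hmo, hmω, hmi, hlap⟩ :=
      htr Rv R hRv (by linarith) hout'
    have hωo' : ∀ x, 2 * R < ‖x‖ → ω x = 0 := fun x hx => hωo x hx.le
    have hmo' : ∀ x, 2 * R < ‖x‖ → m x = 0 := fun x hx => hmo x hx.le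
    have h4 : 2 * (2 * R) < L := by linarith
    have hc2 : C2T (fun z : T3 L => ω (rep z)) := C2T_per hω2 hωo' h4
    refine ⟨fun z => 1 - ω (rep z), fun z => m (rep z), C2T_one_sub_sca hc2,
      fun z => sub_nonneg.2 (hω01 _).2, fun z => sub_le_self _ (hω01 _).1, fun z hz => ?_,
      continuous_per hmc hmo' h4, fun z => hmle _, fun z hz => per_out hmo' z hz,
      fun z hz => ?_, ?_, fun z => ?_⟩
    · rw [hωo _ (hz.trans (norm_le_rep z)), sub_zero]
    · rw [sub_sub_cancel]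
      exact hmω _ hz
    · rw [integral_per hmo' h4, hmi]
    · rw [lapT_one_sub_sca hc2, lapT_per hωo' h4, hlap]

theorem Scat.exists_setup {v f : E3 → ℝ} {a : ℝ} (h : Scat v f a) : ∃ P : Par, P.a = a ∧
    ∀ (N : ℕ) (L : ℝ) [Fact (0 < L)] (ψ : Cf N L → ℂ), 4 * P.R0 ≤ L → L ≤ N → IsGround v ψ →
      Setup P (fun z : T3 L => v (rep z)) ψ := by
  obtain ⟨P, hPa, hP⟩ := h.exists_par
  refine ⟨P, hPa, fun N L _ ψ hL hN hψ => ?_⟩
  obtain ⟨hpot, hv⟩ := hP L hL
  refine ⟨hpot, gs_of_sym hpot.wp hψ.1 fun φ hφ => ?_, hN⟩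
  rw [← energy_eq hv hpot.wp.even hψ.1.1, ← energy_eq hv hpot.wp.even hφ.1]
  exact hψ.2 φ hφ

end Pool.Agent.BoseTail
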