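import Pool.Agent.Lib.MP_dec75e_mp.Mb
import Pool.Agent.Lib.MP_dec75e_mp.Sca
import Pool.Agent.Lib.MP_dec75e_mp.Occ
import Pool.Agent.Lib.MP_dec75e_mp.Kern
import Pool.Agent.Lib.MP_dec75e_mp.Rat

/-! Final assembly. -/

open MeasureTheory Complex Finset Filter Function
open scoped ComplexConjugate Real Topology

noncomputable section

namespace Pool.Agent.BoseTail

theorem size_fin {A ρ L δ : ℝ} (hA : 1 ≤ A) (hL : 0 < L) (hδ : 0 < δ) (hδ1 : δ ≤ 1)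
    (h1 : 1 ≤ ρ * L ^ 2) (h2 : A ^ 3 * ρ ≤ δ ^ 3) : A ≤ L * δ := by
  have hA0 : 0 < A := by linarith
  have h3 : A ^ 3 ≤ δ ^ 3 * L ^ 2 := by
    calc A ^ 3 ≤ A ^ 3 * (ρ * L ^ 2) := le_mul_of_one_le_right (by positivity) h1
      _ = A ^ 3 * ρ * L ^ 2 := by ring
      _ ≤ δ ^ 3 * L ^ 2 := by gcongr
  have h4 : δ ^ 3 * L ^ 2 ≤ (L * δ) ^ 2 := by
    have : δ ^ 3 * L ^ 2 = δ * (L * δ) ^ 2 := by ring
    rw [this]; exact mul_le_of_le_one_left (by positivity) hδ1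
  have h5 : A ^ 2 ≤ A ^ 3 := pow_le_pow_right₀ hA (by norm_num)
  exact (pow_le_pow_iff_left₀ hA0.le (by positivity) two_ne_zero).1 (by linarith)

theorem tan_tail {v f h : E3 → ℝ} {a η : ℝ} (hs : Scat v f a) (hh : ContDiff ℝ 3 h)
    (hh1 : ∀ z, 1 < ‖z‖ → h z = 0) (hh0 : h ≠ 0) (hη : 0 < η) (hη1 : η ≤ 1) :
    ∃ A : ℝ, 0 < A ∧ ∀ (N : ℕ) (L : ℝ) [Fact (0 < L)] (ψ : Cf N L → ℂ) (k₀ : E3) (δ : ℝ),
      L ≤ N → 0 < δ → A ^ 3 * (N / L ^ 3) ≤ δ ^ 3 → A * δ ≤ ‖k₀‖ → A * ‖k₀‖ ≤ 1 → IsGround v ψ →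
      (Summable fun n : {n : Fin 3 → ℤ // n ≠ 0} => wt h k₀ δ (kvec L n)) ∧
      0 < ∑' n : {n : Fin 3 → ℤ // n ≠ 0}, wt h k₀ δ (kvec L n) ∧
      (Summable fun n : {n : Fin 3 → ℤ // n ≠ 0} => wt h k₀ δ (kvec L n) *
        (2 * (N / L ^ 3) * Mom ψ n / gB (‖kvec L n‖ / √(8 * π * (N / L ^ 3) * a)))) ∧
      |(∑' n : {n : Fin 3 → ℤ // n ≠ 0}, wt h k₀ δ (kvec L n) *
          (2 * (N / L ^ 3) * Mom ψ n / gB (‖kvec L n‖ / √(8 * π * (N / L ^ 3) * a)))) -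
          ∑' n : {n : Fin 3 → ℤ // n ≠ 0}, wt h k₀ δ (kvec L n)| ≤
        η * ∑' n : {n : Fin 3 → ℤ // n ≠ 0}, wt h k₀ δ (kvec L n) := by
  obtain ⟨P, hPa, hP⟩ := hs.exists_setup
  obtain ⟨H, hH, hker⟩ := exists_ker hh hh1
  have ha := hs.pos
  set I₂ : ℝ := ∫ x, h x ^ 2 with hI₂
  have hI : 0 < I₂ := integral_sq_pos hh.continuous hh1 hh0
  have hε : 0 < η / 8 * ((4 * π * a) ^ 2 * I₂) := by positivity
  obtain ⟨A₀, hA₀, hmain⟩ := main_bound P hH hε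
  have hR0 := P.hR0
  set A₁ : ℝ := 600 * 64 * H ^ 2 / (η ^ 2 * I₂) with hA₁
  have hA₁0 : 0 ≤ A₁ := by positivity
  refine ⟨A₀ + 4 * P.R0 + A₁, by positivity, ?_⟩
  set A := A₀ + 4 * P.R0 + A₁ with hA
  intro N L _ ψ k₀ δ hLN hδ hρδ hδk hk1 hψ
  have hL : 0 < L := Lpos
  have hA1 : 1 ≤ A := by linarith
  have hA4 : 4 ≤ A := by linarith
  have hN : (0 : ℝ) < N := hL.trans_le hLN
  have hρ : 0 < rho N L := by unfold rho; positivity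
  have hρL : 1 ≤ rho N L * L ^ 2 := by
    have : rho N L * L ^ 2 = N / L := by unfold rho; field_simp
    rw [this, le_div_iff₀ hL]; linarith
  change A ^ 3 * rho N L ≤ δ ^ 3 at hρδ
  have hk0 : 0 ≤ ‖k₀‖ := norm_nonneg _
  have hδk' : δ ≤ ‖k₀‖ := by nlinarith
  have hδ1 : δ ≤ 1 := by nlinarith
  have hLδ : A ≤ L * δ := size_fin hA1 hL hδ hδ1 hρL hρδ
  have hAL : A ≤ L := by nlinarith
  have h2 : 2 / δ < L := by rw [div_lt_iff₀ hδ]; linarith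
  have hst := hP N L ψ (by linarith) hLN hψ
  have hK := hker L δ k₀ hδ hδk' h2
  set κ : T3 L → ℂ := fun z => wk h δ k₀ (rep z) with hκ
  have hκc : Continuous κ := hK.win.c2.c1.cont
  have o : Fin N := ⟨0, by exact_mod_cast hN⟩
  have hA3 : A₀ ^ 3 ≤ A ^ 3 := by gcongr; linarith
  have hm := hmain N L _ ψ hst δ ‖k₀‖ (fun c => k₀ c) κ hδ (by nlinarith) (by nlinarith)
    (by nlinarith) hK o
  have hint : ∫ z, ‖κ z‖ ^ 2 = δ ^ 3 * I₂ := integral_wk_sq hδ hh1 h2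
  have hwt : ∀ n, ‖hat κ n‖ ^ 2 = wt h k₀ δ (kvec L n) := hat_wk hδ hh1 h2
  have hψc : Continuous ψ := hst.gs.c1.1
  have h₁ : HasSum (fun n => wt h k₀ δ (kvec L n)) (L ^ 3 * (δ ^ 3 * I₂)) := by
    simpa only [hwt, hint] using parseval hκc
  have h₂ : HasSum (fun n => ‖kvec L n‖ ^ 4 * wt h k₀ δ (kvec L n) * Mom ψ n)
      (L ^ 3 * nsq (cvl o (lapT κ) ψ)) := by
    have := hasSum_Mom hψc hst.gs.sym o hK.win.c2.cont_lap
    convert this using 2 with n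
    rw [hat_lap hK.win.c2, norm_mul, norm_neg, Complex.norm_real, mul_pow, hwt,
      Real.norm_of_nonneg (by positivity)]
    ring
  have h₃ : HasSum (fun n => wt h k₀ δ (kvec L n) * Mom ψ n) (L ^ 3 * nsq (cvl o κ ψ)) := by
    simpa only [hwt] using hasSum_Mom hψc hst.gs.sym o hκc
  have hκ1 : ∫ z, ‖κ z‖ ≤ 8 * H := hK.win.integral_norm_le hδ
  have hκ0 : 0 ≤ ∫ z, ‖κ z‖ := integral_nonneg fun _ => norm_nonneg _
  have hκ2 : (∫ z, ‖κ z‖) ^ 2 ≤ 64 * H ^ 2 := by nlinarith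
  have hA13 : A₁ ≤ A ^ 3 := by
    have : A ^ 1 ≤ A ^ 3 := pow_le_pow_right₀ hA1 (by norm_num)
    simp only [pow_one] at this; linarith
  have hH64 : 64 * H ^ 2 ≤ η ^ 2 / 600 * I₂ * A ^ 3 := by
    have : 64 * H ^ 2 = η ^ 2 / 600 * I₂ * A₁ := by rw [hA₁]; field_simp
    rw [this]; gcongr
  refine ratio_bound (0 : Fin 3 → ℤ) (φ := fun n => wt h k₀ δ (kvec L n)) (M := fun n => Mom ψ n)
    (q := fun n => ‖kvec L n‖) (ρ := rho N L) hρ ha hη hη1 (fun n => by rw [← hwt]; positivity)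
    (Mom_nonneg hψc) (fun n hn => kvec_ne_zero hL hn) (by simp [kvec_zero]) h₁ (by positivity)
    h₂ h₃ ?_ ?_ ?_
  · rw [hint, hPa] at hm
    have : L ^ 3 * nsq (cvl o (lapT κ) ψ) - (4 * π * a) ^ 2 * rho N L * (L ^ 3 * (δ ^ 3 * I₂)) =
        L ^ 3 * (nsq (cvl o (lapT κ) ψ) - (4 * π * a) ^ 2 * rho N L * (δ ^ 3 * I₂)) := by ring
    rw [this, abs_mul, abs_of_pos (by positivity : 0 < L ^ 3)]
    calc _ ≤ L ^ 3 * (η / 8 * ((4 * π * a) ^ 2 * I₂) * (rho N L * δ ^ 3)) := by gcongr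
      _ = _ := by ring
  · have h4 : nsq (cvl o κ ψ) ≤ 64 * H ^ 2 := by
      have := nsq_cvl_le (BM.of_cont hκc) hψc o
      rw [hst.gs.nrm] at this; linarith
    calc rho N L * (L ^ 3 * nsq (cvl o κ ψ)) ≤ rho N L * (L ^ 3 * (η ^ 2 / 600 * I₂ * A ^ 3)) := by
          gcongr; linarith
      _ = η ^ 2 / 600 * (L ^ 3 * (A ^ 3 * rho N L * I₂)) := by ring
      _ ≤ _ := by gcongr
  · have h4 : wt h k₀ δ (kvec L 0) ≤ 64 * H ^ 2 := by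
      rw [← hwt]
      exact (pow_le_pow_left₀ (norm_nonneg _) (norm_hat_le κ 0) 2).trans hκ2
    have h5 : A ^ 3 ≤ L ^ 3 * δ ^ 3 := by rw [← mul_pow]; gcongr
    have h6 : η ^ 2 / 600 ≤ η / 8 := by nlinarith
    calc wt h k₀ δ (kvec L 0) ≤ η ^ 2 / 600 * I₂ * A ^ 3 := h4.trans hH64
      _ ≤ η / 8 * I₂ * (L ^ 3 * δ ^ 3) := by gcongr
      _ = _ := by ring

end Pool.Agent.BoseTail
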