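import Pool.Agent.Lib.MP_dec75e_mp.Fou0

/-! Parseval identity on the torus of side `L`. -/

open MeasureTheory Complex Finset Filter Function
open scoped ComplexConjugate Real Topology

noncomputable section

namespace Pool.Agent.BoseTail

variable {L : ℝ} [Fact (0 < L)]

/-- The rescaling of the unit torus, as an additive equivalence. -/
def resc_fou (L : ℝ) [Fact (0 < L)] : (Fin 3 → AddCircle (1 : ℝ)) ≃+ T3 L :=
  AddEquiv.piCongrRight fun _ => AddCircle.equivAddCircle 1 L one_ne_zero Lpos.ne'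

/-- The rescaling of the unit torus, as a homeomorphism. -/
def rescH_fou (L : ℝ) [Fact (0 < L)] : (Fin 3 → AddCircle (1 : ℝ)) ≃ₜ T3 L :=
  Homeomorph.piCongrRight fun _ => AddCircle.homeomorphAddCircle 1 L one_ne_zero Lpos.ne'

/-- The Haar probability measure of the unit torus. -/
def unitM_fou : Measure (Fin 3 → AddCircle (1 : ℝ)) :=
  Measure.pi fun _ => AddCircle.haarAddCircle

theorem integral_resc_fou {E : Type*} [NormedAddCommGroup E] [NormedSpace ℝ E] (F : T3 L → E) :
    ∫ y, F y = L ^ 3 • ∫ t, F (rescH_fou L t) ∂unitM_fou := by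
  have i1 : unitM_fou.IsAddHaarMeasure := by
    unfold unitM_fou
    infer_instance
  have i2 : IsProbabilityMeasure unitM_fou := by
    unfold unitM_fou
    infer_instance
  have i3 : (unitM_fou.map (rescH_fou L)).IsAddHaarMeasure :=
    AddEquiv.isAddHaarMeasure_map unitM_fou (resc_fou L) (rescH_fou L).continuous
      (rescH_fou L).symm.continuous
  have i4 : IsProbabilityMeasure (unitM_fou.map (rescH_fou L)) :=
    Measure.isProbabilityMeasure_map (rescH_fou L).continuous.measurable.aemeasurable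
  have h := Measure.isAddLeftInvariant_eq_smul (volume : Measure (T3 L))
    (unitM_fou.map (rescH_fou L))
  set c := Measure.addHaarScalarFactor (volume : Measure (T3 L)) (unitM_fou.map (rescH_fou L))
  have hc : (c : ℝ) = L ^ 3 := by
    rw [← vol_T3, h]
    simp
  rw [h, integral_smul_nnreal_measure, (rescH_fou L).measurableEmbedding.integral_map, ← hc]
  rfl

theorem fourier_resc_fou (n : ℤ) (t : AddCircle (1 : ℝ)) :
    fourier n (AddCircle.homeomorphAddCircle 1 L one_ne_zero Lpos.ne' t) = fourier n t := by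
  have hL : (L : ℂ) ≠ 0 := Complex.ofReal_ne_zero.mpr Lpos.ne'
  induction t using QuotientAddGroup.induction_on with
  | H x =>
    rw [AddCircle.homeomorphAddCircle_apply_mk, fourier_coe_apply, fourier_coe_apply]
    congr 1
    push_cast
    field_simp

theorem wave_resc_fou (n : Fin 3 → ℤ) (t : Fin 3 → AddCircle (1 : ℝ)) :
    wave n (rescH_fou L t) = UnitAddTorus.mFourier n t :=
  Finset.prod_congr rfl fun c _ => fourier_resc_fou (n c) (t c)

theorem parseval_unit_fou (f : C(Fin 3 → AddCircle (1 : ℝ), ℂ)) :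
    HasSum (fun n => ‖∫ t, conj (UnitAddTorus.mFourier n t) * f t ∂unitM_fou‖ ^ 2)
      (∫ t, ‖f t‖ ^ 2 ∂unitM_fou) := by
  have i2 : IsProbabilityMeasure unitM_fou := by
    unfold unitM_fou
    infer_instance
  have h := UnitAddTorus.hasSum_sq_mFourierCoeff (d := Fin 3)
    (ContinuousMap.toLp 2 unitM_fou ℂ f)
  have h1 : ∀ n, UnitAddTorus.mFourierCoeff (ContinuousMap.toLp 2 unitM_fou ℂ f) n =
      ∫ t, conj (UnitAddTorus.mFourier n t) * f t ∂unitM_fou := by
    intro n
    refine integral_congr_ae (μ := unitM_fou) ?_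
    filter_upwards [ContinuousMap.coeFn_toLp (p := 2) (𝕜 := ℂ) unitM_fou f] with t ht
    rw [ht, UnitAddTorus.mFourier_neg, smul_eq_mul]
  have h2 : ∫ t, ‖(ContinuousMap.toLp 2 unitM_fou ℂ f) t‖ ^ 2 ∂unitM_fou =
      ∫ t, ‖f t‖ ^ 2 ∂unitM_fou := by
    refine integral_congr_ae ?_
    filter_upwards [ContinuousMap.coeFn_toLp (p := 2) (𝕜 := ℂ) unitM_fou f] with t ht
    rw [ht]
  rw [← h2]
  simp only [← h1]
  exact h

/-- Parseval's identity. -/
theorem parseval {u : T3 L → ℂ} (hu : Continuous u) :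
    HasSum (fun n => ‖hat u n‖ ^ 2) (L ^ 3 * ∫ y, ‖u y‖ ^ 2) := by
  have hL : 0 < L := Lpos
  have h := (parseval_unit_fou ⟨fun t => u (rescH_fou L t),
    hu.comp (rescH_fou L).continuous⟩).mul_left ((L ^ 3) ^ 2)
  rw [integral_resc_fou, smul_eq_mul, ← mul_assoc, ← sq]
  refine h.congr_fun fun n => ?_
  rw [hat, integral_resc_fou, norm_smul, mul_pow, Real.norm_eq_abs, sq_abs]
  simp only [wave_resc_fou, ContinuousMap.coe_mk]

end Pool.Agent.BoseTail
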