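import Pool.Agent.Lib.MP_dec75e_mp.Meas

/-! Fourier coefficients on the torus of side `L`. -/

open MeasureTheory Complex Finset Filter Function
open scoped ComplexConjugate Real Topology

noncomputable section

namespace Pool.Agent.BoseTail

variable {L : ℝ} [Fact (0 < L)]

/-- Unnormalised Fourier coefficient. -/
def hat (u : T3 L → ℂ) (n : Fin 3 → ℤ) : ℂ := ∫ y, conj (wave n y) * u y

omit [Fact (0 < L)] in
theorem continuous_wave (n : Fin 3 → ℤ) : Continuous (wave (L := L) n) :=
  continuous_finsetProd _ fun c _ => (fourier (n c)).continuous.comp (continuous_apply c)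

omit [Fact (0 < L)] in
theorem wave_add (n : Fin 3 → ℤ) (y z : T3 L) : wave n (y + z) = wave n y * wave n z := by
  simp only [wave, Pi.add_apply, fourier_apply, smul_add, AddCircle.toCircle_add, Circle.coe_mul,
    prod_mul_distrib]

omit [Fact (0 < L)] in
theorem norm_wave (n : Fin 3 → ℤ) (y : T3 L) : ‖wave n y‖ = 1 := by
  simp only [wave, norm_prod, fourier_apply, Circle.norm_coe, prod_const_one]

omit [Fact (0 < L)] in
theorem wave_d1_fou0 (n : Fin 3 → ℤ) (c : Fin 3) (s : ℝ) :
    wave n (d1 (L := L) c s) = fourier (n c) (s : AddCircle L) := by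
  rw [wave, prod_eq_single c (fun b _ hb => by simp [d1, Pi.single_eq_of_ne hb]) (by simp)]
  simp [d1]

omit [Fact (0 < L)] in
theorem wave_hd_fou0 (n : Fin 3 → ℤ) (c : Fin 3) (y : T3 L) :
    HasDerivAt (fun s : ℝ => wave n (y + d1 c s)) (I * (kvec L n c : ℝ) * wave n y) 0 := by
  simp only [wave_add, wave_d1_fou0]
  have h := (hasDerivAt_fourier L (n c) 0).const_mul (wave n y)
  refine h.congr_deriv ?_
  simp only [kvec, QuotientAddGroup.mk_zero, fourier_eval_zero]
  push_cast
  ring

omit [Fact (0 < L)] in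
theorem wave_c1 (n : Fin 3 → ℤ) (c : Fin 3) : D1 (d1 c) (wave (L := L) n) ∧
    ∀ y : T3 L, dd (d1 c) (wave n) y = I * (kvec L n c : ℝ) * wave n y :=
  ⟨D1.of_hd (continuous_wave n) (continuous_const.mul (continuous_wave n)) (wave_hd_fou0 n c),
    fun y => dd_eq (wave_hd_fou0 n c y)⟩

theorem norm_hat_le (u : T3 L → ℂ) (n : Fin 3 → ℤ) : ‖hat u n‖ ≤ ∫ y, ‖u y‖ := by
  refine (norm_integral_le_integral_norm _).trans_eq ?_
  simp only [norm_mul, RCLike.norm_conj, norm_wave, one_mul]

theorem hat_dd {u : T3 L → ℂ} {c : Fin 3} (hu : D1 (d1 c) u) (n : Fin 3 → ℤ) :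
    hat (dd (d1 c) u) n = I * (kvec L n c : ℝ) * hat u n := by
  have h := ibp (dir_d1 c) hu (wave_c1 n c).1.conj
  simp only [dd_conj (wave_c1 n c).1, (wave_c1 n c).2] at h
  unfold hat
  simp only [mul_comm (conj (wave n _))]
  rw [h, ← integral_neg, ← integral_const_mul]
  refine integral_congr_ae (Eventually.of_forall fun y => ?_)
  simp only [map_mul, conj_I, conj_ofReal]
  ring

theorem hat_lap {u : T3 L → ℂ} (hu : C2T u) (n : Fin 3 → ℤ) :
    hat (lapT u) n = -((‖kvec L n‖ ^ 2 : ℝ) : ℂ) * hat u n := by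
  have h1 : hat (lapT u) n = ∑ c, hat (dd (d1 c) (dd (d1 c) u)) n := by
    unfold hat lapT
    simp only [mul_sum]
    exact integral_finsetSum _ fun c _ =>
      (BM.of_cont ((Complex.continuous_conj.comp (continuous_wave n)).mul (hu c).2.cdd)).integrable
  rw [h1, EuclideanSpace.real_norm_sq_eq]
  push_cast
  rw [← sum_neg_distrib, sum_mul]
  refine sum_congr rfl fun c _ => ?_
  rw [hat_dd (hu c).2, hat_dd (hu c).1]
  linear_combination ((kvec L n c : ℝ) : ℂ) ^ 2 * hat u n * I_mul_I

theorem hat_conv {κ u : T3 L → ℂ} (hκ : Continuous κ) (hu : Continuous u) (n : Fin 3 → ℤ) :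
    hat (fun y => ∫ z, κ z * u (y - z)) n = hat κ n * hat u n := by
  have hw := continuous_wave (L := L) n
  have hB : BM (uncurry fun y z : T3 L => conj (wave n y) * (κ z * u (y - z))) :=
    BM.of_cont (X := T3 L × T3 L) ((Complex.continuous_conj.comp (hw.comp continuous_fst)).mul
      ((hκ.comp continuous_snd).mul (hu.comp (continuous_fst.sub continuous_snd))))
  unfold hat
  simp only [← integral_const_mul]
  rw [BM.swap hB, integral_const_mul, ← integral_mul_const]
  refine integral_congr_ae (Eventually.of_forall fun z => ?_)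
  simp only
  rw [← integral_add_right_eq_self _ z, ← integral_const_mul]
  refine integral_congr_ae (Eventually.of_forall fun y => ?_)
  simp only [add_sub_cancel_right, wave_add, map_mul]
  ring

end Pool.Agent.BoseTail
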