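import Pool.Agent.Lib.MP_dec75e_mp.Ims

/-! The reduced densities are subsolutions. -/

open MeasureTheory Complex Finset Filter Function
open scoped ComplexConjugate Real Topology

noncomputable section

namespace Pool.Agent.BoseTail

variable {N : ℕ} {L : ℝ} [Fact (0 < L)] {P : Par} {w : T3 L → ℝ} {ψ : Cf N L → ℂ}

omit [Fact (0 < L)] in
theorem d1_one_heat0 {v : T3 L → ℝ} {c : Fin 3} (h : D1 (d1 c) v) (i : Fin N) (y : T3 L) :
    D1 (dir i c) (fun x : Cf N L => v (x i - y)) := by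
  refine D1.of_hd (φ' := fun x : Cf N L => dd (d1 c) v (x i - y))
    (h.cont.comp ((continuous_apply i).sub continuous_const))
    (h.cdd.comp ((continuous_apply i).sub continuous_const)) fun x => ?_
  have := h.hd (x i - y)
  refine this.congr_of_eventuallyEq (Eventually.of_forall fun s => ?_)
  simp only [add_dir_self]
  congr 1; abel

omit [Fact (0 < L)] in
theorem indep_heat0 (u : Fin N → T3 L → ℝ) (y : T3 L) {T : Finset (Fin N)} {i : Fin N}
    (hi : i ∉ T) (c : Fin 3) (x : Cf N L) (s : ℝ) :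
    ∏ j ∈ T, u j ((x + dir i c s : Cf N L) j - y) = ∏ j ∈ T, u j (x j - y) := by
  refine Finset.prod_congr rfl fun j hj => ?_
  have hne : j ≠ i := fun e => hi (e ▸ hj)
  rw [add_dir_ne x hne]

omit [Fact (0 < L)] in
theorem cont_prod_heat0 {u : Fin N → T3 L → ℝ} (hu : ∀ i, C2T (u i)) (y : T3 L)
    (T : Finset (Fin N)) : Continuous fun x : Cf N L => ∏ j ∈ T, u j (x j - y) :=
  continuous_finsetProd _ fun j _ =>
    (hu j).c1.cont.comp ((continuous_apply j).sub continuous_const)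

omit [Fact (0 < L)] in
/-- Derivative of a one-body factor times a product that does not depend on the particle. -/
theorem dd_fac_heat0 {u : Fin N → T3 L → ℝ} (hu : ∀ i, C2T (u i)) (y : T3 L)
    {T : Finset (Fin N)} {i : Fin N} (hi : i ∉ T) {c : Fin 3} {v : T3 L → ℝ}
    (hv : D1 (d1 c) v) :
    D1 (dir i c) (fun x : Cf N L => v (x i - y) * ∏ j ∈ T, u j (x j - y)) ∧
      ∀ x : Cf N L, dd (dir i c) (fun x : Cf N L => v (x i - y) * ∏ j ∈ T, u j (x j - y)) x =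
        dd (d1 c) v (x i - y) * ∏ j ∈ T, u j (x j - y) := by
  have h1 := d1_one_heat0 hv i y
  have h2 : D1 (dir i c) (fun x : Cf N L => ∏ j ∈ T, u j (x j - y)) :=
    D1.of_indep (cont_prod_heat0 hu y T) (indep_heat0 u y hi c)
  refine ⟨h1.mul (dir_dir i c) h2, fun x => ?_⟩
  rw [dd_mul (dir_dir i c) h1 h2,
    dd_of_indep (φ := fun x : Cf N L => ∏ j ∈ T, u j (x j - y)) (indep_heat0 u y hi c),
    dd_one, if_pos rfl]
  ring

theorem normSq_heat0 (f d : ℝ) (a b : ℂ) :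
    d ^ 2 * ‖a‖ ^ 2 + (1 / 2) * ((2 * f * d) * (2 * ip a b)) ≤ ‖(d : ℂ) * a + (f : ℂ) * b‖ ^ 2 := by
  have h : ‖(d : ℂ) * a + (f : ℂ) * b‖ ^ 2 =
      d ^ 2 * ‖a‖ ^ 2 + 2 * f * d * ip a b + f ^ 2 * ‖b‖ ^ 2 := by
    rw [← ip_self, ← ip_self, ← ip_self]
    simp only [ip_add_left, ip_add_right, ip_ofReal_left, ip_ofReal_right, ip_comm b a]
    ring
  rw [h]
  have : 0 ≤ f ^ 2 * ‖b‖ ^ 2 := by positivity
  linarith

/-- The kinetic energy of the localised function, from below. -/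
theorem kin_heat0 {F : Cf N L → ℝ} (hF : IsC1 F) (hψ : IsC1 ψ) (i : Fin N)
    {G : Fin 3 → Cf N L → ℝ} (hG : ∀ c, D1 (dir i c) (G c))
    (hFG : ∀ c x, 2 * F x * dd (dir i c) F x = G c x) :
    (∫ x, gP i F x * ‖ψ x‖ ^ 2) - (1 / 2) * ∫ x, (∑ c, dd (dir i c) (G c) x) * ‖ψ x‖ ^ 2 ≤
      ∫ x, gP i (mul F ψ) x := by
  have cψ : Continuous fun x => ‖ψ x‖ ^ 2 := hψ.1.norm.pow 2
  have e1 : ∫ x, (∑ c, dd (dir i c) (G c) x) * ‖ψ x‖ ^ 2 =
      -∫ x, ∑ c, G c x * dd (dir i c) (fun y => ‖ψ y‖ ^ 2) x := by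
    have a1 : ∀ c, Continuous fun x => dd (dir i c) (G c) x * ‖ψ x‖ ^ 2 := fun c =>
      (hG c).cdd.mul cψ
    have a2 : ∀ c, Continuous fun x => G c x * dd (dir i c) (fun y => ‖ψ y‖ ^ 2) x := fun c =>
      (hG c).cont.mul ((hψ.2 i c).normSq (dir_dir i c)).cdd
    simp only [Finset.sum_mul]
    rw [integral_finsetSum _ fun c _ => cont_integrable (a1 c),
      integral_finsetSum _ fun c _ => cont_integrable (a2 c), ← Finset.sum_neg_distrib]
    exact Finset.sum_congr rfl fun c _ =>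
      ibp (dir_dir i c) (hG c) ((hψ.2 i c).normSq (dir_dir i c))
  have c2 : Continuous fun x => ∑ c, G c x * dd (dir i c) (fun y => ‖ψ y‖ ^ 2) x :=
    continuous_finsetSum _ fun c _ => (hG c).cont.mul ((hψ.2 i c).normSq (dir_dir i c)).cdd
  have c1 : Continuous fun x => gP i F x * ‖ψ x‖ ^ 2 := (hF.cont_gP i).mul cψ
  have c3 : Continuous fun x =>
      (1 / 2 : ℝ) * ∑ c, G c x * dd (dir i c) (fun y => ‖ψ y‖ ^ 2) x := continuous_const.mul c2
  rw [e1, mul_neg, sub_neg_eq_add, ← integral_const_mul,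
    ← integral_add (cont_integrable c1) (cont_integrable c3)]
  refine integral_mono (cont_integrable (c1.add c3))
    (cont_integrable ((hF.mul hψ).cont_gP i)) fun x => ?_
  simp only [gP, Finset.sum_mul, Finset.mul_sum, ← Finset.sum_add_distrib]
  refine Finset.sum_le_sum fun c _ => ?_
  rw [dd_mul_real hF hψ, dd_normSq (dir_dir i c) (hψ.2 i c), ← hFG, Real.norm_eq_abs, sq_abs]
  exact normSq_heat0 _ _ _ _

/-- Subsolution property for product test functions. -/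
theorem subsol (hw : Wp P w) (h : GS w ψ) (S : Finset (Fin N)) {u : Fin N → T3 L → ℝ}
    (hu : ∀ i, C2T (u i)) (hpos : ∀ i z, 0 < u i z) (y : T3 L) :
    -(1 / 4) * ∫ x, (∑ i ∈ S, lapT (u i) (x i - y) * ∏ j ∈ S.erase i, u j (x j - y)) * ‖ψ x‖ ^ 2 ≤
      (S.card : ℝ) * (rho N L * P.W) * ∫ x, (∏ i ∈ S, u i (x i - y)) * ‖ψ x‖ ^ 2 := by
  have hψ := h.c1
  have cψ : Continuous fun x => ‖ψ x‖ ^ 2 := hψ.1.norm.pow 2
  set Q : Cf N L → ℝ := fun x => ∏ i ∈ S, u i (x i - y) with hQ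
  have hQ1 : IsC1 Q := IsC1.prod fun i _ => (hu i).c1.one i y
  have hQ0 : ∀ x, 0 < Q x := fun x => Finset.prod_pos fun i _ => hpos i _
  have hsq : ∀ x, HasDerivAt (fun t : ℝ => √t) (1 / (2 * √(Q x))) (Q x) := fun x =>
    Real.hasDerivAt_sqrt (hQ0 x).ne'
  have hsq' : Continuous fun x => 1 / (2 * √(Q x)) :=
    continuous_const.div (continuous_const.mul hQ1.1.sqrt) fun x =>
      (mul_pos two_pos (Real.sqrt_pos.2 (hQ0 x))).ne'
  set F : Cf N L → ℝ := fun x => √(Q x) with hFdef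
  have hF : IsC1 F := ⟨hQ1.1.sqrt, fun i c =>
    D1.comp (g := fun t : ℝ => √t) (g' := fun t => 1 / (2 * √t)) (dir_dir i c) (hQ1.2 i c)
      hsq hsq'⟩
  have hdF : ∀ i c x, dd (dir i c) F x = 1 / (2 * √(Q x)) * dd (dir i c) Q x := fun i c x =>
    dd_comp (g := fun t : ℝ => √t) (g' := fun t => 1 / (2 * √t)) (dir_dir i c) (hQ1.2 i c) hsq x
  have hFQ : ∀ i c x, 2 * F x * dd (dir i c) F x = dd (dir i c) Q x := by
    intro i c x
    have : √(Q x) ≠ 0 := (Real.sqrt_pos.2 (hQ0 x)).ne'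
    rw [hdF]
    simp only [hFdef]
    field_simp
  have hoff : ∀ i, i ∉ S → ∀ x, gP i F x = 0 := by
    intro i hi x
    refine Finset.sum_eq_zero fun c _ => ?_
    rw [hdF, dd_of_indep (φ := Q) (indep_heat0 u y hi c)]
    simp
  have hle := h.local_energy (P := P) hw S hF
  have hq := QS_nonneg (P := P) hw h Sᶜ (hF.mul hψ)
  have hU : 0 ≤ ∫ x, (US w univ x - US w Sᶜ x) * ‖mul F ψ x‖ ^ 2 :=
    integral_nonneg fun x => mul_nonneg
      (sub_nonneg.2 (US_mono hw.nonneg (Finset.subset_univ _) x)) (by positivity)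
  have hn : nsq (mul F ψ) = ∫ x, Q x * ‖ψ x‖ ^ 2 := by
    unfold nsq
    congr 1
    funext x
    simp only [mul, norm_mul, mul_pow, Complex.norm_real, Real.norm_eq_abs, sq_abs, hFdef]
    rw [Real.sq_sqrt (hQ0 x).le]
  have hs : ∑ i, ∫ x, gP i F x * ‖ψ x‖ ^ 2 = ∑ i ∈ S, ∫ x, gP i F x * ‖ψ x‖ ^ 2 := by
    symm
    refine Finset.sum_subset (Finset.subset_univ _) fun i _ hi => ?_
    simp [hoff i hi]
  have hk : ∀ i ∈ S, (∫ x, gP i F x * ‖ψ x‖ ^ 2) - (1 / 2) *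
      ∫ x, (lapT (u i) (x i - y) * ∏ j ∈ S.erase i, u j (x j - y)) * ‖ψ x‖ ^ 2 ≤
        ∫ x, gP i (mul F ψ) x := by
    intro i hi
    have hni : i ∉ S.erase i := Finset.notMem_erase i S
    have hQe : Q = fun x : Cf N L => u i (x i - y) * ∏ j ∈ S.erase i, u j (x j - y) :=
      funext fun x => (Finset.mul_prod_erase S (fun j => u j (x j - y)) hi).symm
    have := kin_heat0 hF hψ i
      (G := fun c x => dd (d1 c) (u i) (x i - y) * ∏ j ∈ S.erase i, u j (x j - y))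
      (fun c => (dd_fac_heat0 hu y hni (hu i c).2).1) (fun c x => by
        rw [hFQ, hQe]
        exact (dd_fac_heat0 hu y hni (hu i c).1).2 x)
    have e : ∀ x : Cf N L, (∑ c, dd (dir i c) (fun x : Cf N L =>
        dd (d1 c) (u i) (x i - y) * ∏ j ∈ S.erase i, u j (x j - y)) x) =
          lapT (u i) (x i - y) * ∏ j ∈ S.erase i, u j (x j - y) := by
      intro x
      rw [lapT, Finset.sum_mul]
      exact Finset.sum_congr rfl fun c _ => (dd_fac_heat0 hu y hni (hu i c).2).2 x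
    simp only [e] at this
    exact this
  have hsum := Finset.sum_le_sum hk
  have e2 : ∫ x, (∑ i ∈ S, lapT (u i) (x i - y) * ∏ j ∈ S.erase i, u j (x j - y)) * ‖ψ x‖ ^ 2 =
      ∑ i ∈ S, ∫ x, (lapT (u i) (x i - y) * ∏ j ∈ S.erase i, u j (x j - y)) * ‖ψ x‖ ^ 2 := by
    simp only [Finset.sum_mul]
    exact integral_finsetSum _ fun i _ => cont_integrable
      ((((hu i).cont_lap.comp ((continuous_apply i).sub continuous_const)).mul
        (cont_prod_heat0 hu y _)).mul cψ)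
  rw [Finset.sum_sub_distrib, ← Finset.mul_sum, ← e2] at hsum
  rw [hn, hs] at hle
  linarith

end Pool.Agent.BoseTail
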