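import Pool.Agent.Lib.MP_dec75e_mp.Om
import Pool.Agent.Lib.MP_dec75e_mp.Heat0

/-! The reduced densities are subsolutions; smoothing by the approximate heat kernel. -/

open MeasureTheory Complex Finset Filter Function
open scoped ComplexConjugate Real Topology

noncomputable section

namespace Pool.Agent.BoseTail

variable {N : ℕ} {L : ℝ} [Fact (0 < L)] {P : Par} {w : T3 L → ℝ} {ψ : Cf N L → ℂ}

omit [Fact (0 < L)] in
theorem cont_slice_heat {U : Set ℝ} {F : ℝ → Cf N L → ℝ}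
    (hF : ContinuousOn (fun p : ℝ × Cf N L => F p.1 p.2) (U ×ˢ Set.univ)) {t : ℝ} (ht : t ∈ U) :
    Continuous (F t) := by
  have h1 : Continuous fun x : Cf N L => (t, x) := continuous_const.prodMk continuous_id
  exact hF.comp_continuous h1 fun x => ⟨ht, Set.mem_univ _⟩

/-- Differentiation of a parametric integral over the configuration space. -/
theorem hd_integral_heat {U : Set ℝ} (hU : IsOpen U) {F F' : ℝ → Cf N L → ℝ}
    (hF : ContinuousOn (fun p : ℝ × Cf N L => F p.1 p.2) (U ×ˢ Set.univ))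
    (hF' : ContinuousOn (fun p : ℝ × Cf N L => F' p.1 p.2) (U ×ˢ Set.univ))
    (hd : ∀ t ∈ U, ∀ x, HasDerivAt (fun t => F t x) (F' t x) t) {t : ℝ} (ht : t ∈ U) :
    HasDerivAt (fun t => ∫ x, F t x) (∫ x, F' t x) t := by
  obtain ⟨ε, hε, hsub⟩ := Metric.nhds_basis_closedBall.mem_iff.1 (hU.mem_nhds ht)
  have hK : IsCompact (Metric.closedBall t ε ×ˢ (Set.univ : Set (Cf N L))) :=
    (isCompact_closedBall t ε).prod isCompact_univ
  obtain ⟨C, hC⟩ := hK.exists_bound_of_continuousOn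
    (hF'.mono (Set.prod_mono hsub subset_rfl))
  refine (hasDerivAt_integral_of_dominated_loc_of_deriv_le (s := Metric.closedBall t ε)
    (bound := fun _ => C) (Metric.closedBall_mem_nhds t hε) ?_ ?_ ?_ ?_ ?_ ?_).2
  · filter_upwards [hU.mem_nhds ht] with t' ht'
    exact (cont_slice_heat hF ht').aestronglyMeasurable
  · exact cont_integrable (cont_slice_heat hF ht)
  · exact (cont_slice_heat hF' ht).aestronglyMeasurable
  · exact Eventually.of_forall fun x t' ht' => hC (t', x) ⟨ht', Set.mem_univ _⟩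
  · exact integrable_const C
  · exact Eventually.of_forall fun x t' ht' => hd t' (hsub ht') x

omit [Fact (0 < L)] in
theorem contOn_shift_heat {f : ℝ → T3 L → ℝ}
    (hf : ContinuousOn (fun p : ℝ × T3 L => f p.1 p.2) (Set.Ioi 0 ×ˢ Set.univ))
    (s : Fin N → ℝ) (y : T3 L) (i : Fin N) :
    ContinuousOn (fun p : ℝ × Cf N L => f (s i + p.1) (p.2 i - y))
      ({t | ∀ i, 0 < s i + t} ×ˢ Set.univ) := by
  have h1 : Continuous fun p : ℝ × Cf N L => (s i + p.1, p.2 i - y) :=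
    (continuous_const.add continuous_fst).prodMk
      (((continuous_apply i).comp continuous_snd).sub continuous_const)
  exact hf.comp h1.continuousOn fun p hp => ⟨hp.1 i, Set.mem_univ _⟩

/-- The derivative of the smoothed density along the flow. -/
theorem hd_flow_heat (hψ : Continuous ψ) (S : Finset (Fin N)) (s : Fin N → ℝ) (y : T3 L) {t : ℝ}
    (ht : ∀ i, 0 < s i + t) :
    HasDerivAt (fun t => ∫ x, (∏ i ∈ S, th (s i + t) (x i - y)) * ‖ψ x‖ ^ 2)
      (∫ x, (∑ i ∈ S, tht (s i + t) (x i - y) * ∏ j ∈ S.erase i, th (s j + t) (x j - y)) *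
        ‖ψ x‖ ^ 2) t := by
  have hU : IsOpen {t : ℝ | ∀ i, 0 < s i + t} := by
    have : {t : ℝ | ∀ i, 0 < s i + t} = ⋂ i, {t : ℝ | 0 < s i + t} := by
      ext t; simp
    rw [this]
    exact isOpen_iInter_of_finite fun i =>
      isOpen_lt continuous_const (continuous_const.add continuous_id)
  have hn : ContinuousOn (fun p : ℝ × Cf N L => ‖ψ p.2‖ ^ 2)
      ({t | ∀ i, 0 < s i + t} ×ˢ Set.univ) :=
    ((hψ.comp continuous_snd).norm.pow 2).continuousOn
  refine hd_integral_heat hU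
    (F := fun t x => (∏ i ∈ S, th (s i + t) (x i - y)) * ‖ψ x‖ ^ 2)
    (F' := fun t x =>
      (∑ i ∈ S, tht (s i + t) (x i - y) * ∏ j ∈ S.erase i, th (s j + t) (x j - y)) * ‖ψ x‖ ^ 2)
    ?_ ?_ ?_ ht
  · exact (continuousOn_finsetProd _ fun i _ => contOn_shift_heat continuousOn_th s y i).mul hn
  · exact (continuousOn_finsetSum _ fun i _ => (contOn_shift_heat continuousOn_tht s y i).mul
      (continuousOn_finsetProd _ fun j _ => contOn_shift_heat continuousOn_th s y j)).mul hn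
  · intro t ht x
    refine HasDerivAt.mul_const ?_ _
    have h1 : ∀ i ∈ S, HasDerivAt (fun t => th (s i + t) (x i - y)) (tht (s i + t) (x i - y)) t :=
      fun i _ => (hd_th (ht i) (x i - y)).comp_const_add (s i) t
    have h2 := HasDerivAt.fun_finsetProd h1
    simp only [smul_eq_mul] at h2
    convert h2 using 2 with i hi
    ring

/-- The differential inequality along the flow. -/
theorem flow_ineq_heat (hw : Wp P w) (h : GS w ψ) (S : Finset (Fin N)) {s : Fin N → ℝ}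
    (hs : ∀ i, 0 < s i) (y : T3 L) :
    0 ≤ (S.card : ℝ) * (rho N L * P.W + 8 / L ^ 2) *
        (∫ x, (∏ i ∈ S, th (s i) (x i - y)) * ‖ψ x‖ ^ 2) +
      ∫ x, (∑ i ∈ S, tht (s i) (x i - y) * ∏ j ∈ S.erase i, th (s j) (x j - y)) * ‖ψ x‖ ^ 2 := by
  have hsub := subsol hw h S (u := fun i => th (s i)) (fun i => th_c2 (hs i))
    (fun i z => th_pos (hs i) z) y
  have hψ : Continuous ψ := h.c1.1
  have hxi : ∀ i : Fin N, Continuous fun x : Cf N L => x i - y := fun i =>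
    (continuous_apply i).sub continuous_const
  have hth : ∀ i, Continuous fun x : Cf N L => th (s i) (x i - y) := fun i =>
    (th_c2 (hs i)).c1.cont.comp (hxi i)
  have hlap : ∀ i, Continuous fun x : Cf N L => lapT (th (s i)) (x i - y) := fun i =>
    (th_c2 (hs i)).cont_lap.comp (hxi i)
  have htht : ∀ i, Continuous fun x : Cf N L => tht (s i) (x i - y) := fun i => by
    have h1 : Continuous fun x : Cf N L => (s i, x i - y) := continuous_const.prodMk (hxi i)
    exact continuousOn_tht.comp_continuous h1 fun x => ⟨hs i, Set.mem_univ _⟩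
  have hn : Continuous fun x => ‖ψ x‖ ^ 2 := hψ.norm.pow 2
  have iA : Integrable fun x : Cf N L => (∏ i ∈ S, th (s i) (x i - y)) * ‖ψ x‖ ^ 2 :=
    cont_integrable ((continuous_finsetProd _ fun i _ => hth i).mul hn)
  have iB : Integrable fun x : Cf N L =>
      (∑ i ∈ S, lapT (th (s i)) (x i - y) * ∏ j ∈ S.erase i, th (s j) (x j - y)) * ‖ψ x‖ ^ 2 :=
    cont_integrable ((continuous_finsetSum _ fun i _ =>
      (hlap i).mul (continuous_finsetProd _ fun j _ => hth j)).mul hn)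
  have iC : Integrable fun x : Cf N L =>
      (∑ i ∈ S, tht (s i) (x i - y) * ∏ j ∈ S.erase i, th (s j) (x j - y)) * ‖ψ x‖ ^ 2 :=
    cont_integrable ((continuous_finsetSum _ fun i _ =>
      (htht i).mul (continuous_finsetProd _ fun j _ => hth j)).mul hn)
  have key : ∫ x : Cf N L, (1 / 4 * ((∑ i ∈ S, lapT (th (s i)) (x i - y) *
        ∏ j ∈ S.erase i, th (s j) (x j - y)) * ‖ψ x‖ ^ 2) -
      (S.card : ℝ) * (8 / L ^ 2) * ((∏ i ∈ S, th (s i) (x i - y)) * ‖ψ x‖ ^ 2)) ≤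
      ∫ x : Cf N L, (∑ i ∈ S, tht (s i) (x i - y) * ∏ j ∈ S.erase i, th (s j) (x j - y)) *
        ‖ψ x‖ ^ 2 := by
    refine integral_mono ((iB.const_mul _).sub (iA.const_mul _)) iC fun x => ?_
    have h1 : ∑ i ∈ S, (1 / 4 * lapT (th (s i)) (x i - y) - 8 / L ^ 2 * th (s i) (x i - y)) *
          ∏ j ∈ S.erase i, th (s j) (x j - y) ≤
        ∑ i ∈ S, tht (s i) (x i - y) * ∏ j ∈ S.erase i, th (s j) (x j - y) :=
      Finset.sum_le_sum fun i _ => mul_le_mul_of_nonneg_right (th_super (hs i) _)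
        (Finset.prod_nonneg fun j _ => (th_pos (hs j) _).le)
    have h2 : ∑ i ∈ S, (1 / 4 * lapT (th (s i)) (x i - y) - 8 / L ^ 2 * th (s i) (x i - y)) *
          ∏ j ∈ S.erase i, th (s j) (x j - y) =
        1 / 4 * (∑ i ∈ S, lapT (th (s i)) (x i - y) * ∏ j ∈ S.erase i, th (s j) (x j - y)) -
          (S.card : ℝ) * (8 / L ^ 2) * ∏ i ∈ S, th (s i) (x i - y) := by
      have h3 : ∀ i ∈ S, (1 / 4 * lapT (th (s i)) (x i - y) - 8 / L ^ 2 * th (s i) (x i - y)) *
          ∏ j ∈ S.erase i, th (s j) (x j - y) =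
          1 / 4 * (lapT (th (s i)) (x i - y) * ∏ j ∈ S.erase i, th (s j) (x j - y)) -
            8 / L ^ 2 * ∏ i ∈ S, th (s i) (x i - y) := fun i hi => by
        rw [← Finset.mul_prod_erase S (fun j => th (s j) (x j - y)) hi]; ring
      rw [Finset.sum_congr rfl h3, Finset.sum_sub_distrib, ← Finset.mul_sum, Finset.sum_const,
        nsmul_eq_mul]
      ring
    have h4 := mul_le_mul_of_nonneg_right (h2 ▸ h1) (sq_nonneg ‖ψ x‖)
    dsimp only
    linarith
  rw [integral_sub (iB.const_mul _) (iA.const_mul _), integral_const_mul, integral_const_mul]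
    at key
  linarith

/-- Gronwall along the heat flow. -/
theorem heat_flow (hw : Wp P w) (h : GS w ψ) (S : Finset (Fin N)) {s : Fin N → ℝ}
    (hs : ∀ i, 0 < s i) (y : T3 L) {τ : ℝ} (hτ : 0 ≤ τ) :
    ∫ x, (∏ i ∈ S, th (s i) (x i - y)) * ‖ψ x‖ ^ 2 ≤
      Real.exp ((S.card : ℝ) * (rho N L * P.W + 8 / L ^ 2) * τ) *
        ∫ x, (∏ i ∈ S, th (s i + τ) (x i - y)) * ‖ψ x‖ ^ 2 := by
  set c : ℝ := (S.card : ℝ) * (rho N L * P.W + 8 / L ^ 2) with hc
  set g : ℝ → ℝ := fun t => ∫ x, (∏ i ∈ S, th (s i + t) (x i - y)) * ‖ψ x‖ ^ 2 with hg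
  set g' : ℝ → ℝ := fun t => ∫ x, (∑ i ∈ S, tht (s i + t) (x i - y) *
    ∏ j ∈ S.erase i, th (s j + t) (x j - y)) * ‖ψ x‖ ^ 2 with hg'
  have hpos : ∀ t : ℝ, 0 ≤ t → ∀ i, 0 < s i + t := fun t ht i => by linarith [hs i]
  have hd : ∀ t : ℝ, 0 ≤ t → HasDerivAt (fun t => Real.exp (c * t) * g t)
      (Real.exp (c * t) * (c * g t + g' t)) t := fun t ht => by
    have h1 : HasDerivAt g (g' t) t := hd_flow_heat h.c1.1 S s y (hpos t ht)
    have h2 : HasDerivAt (fun t => Real.exp (c * t)) (Real.exp (c * t) * (c * 1)) t :=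
      ((hasDerivAt_id t).const_mul c).exp
    refine (h2.fun_mul h1).congr_deriv ?_
    ring
  have hmono : MonotoneOn (fun t => Real.exp (c * t) * g t) (Set.Ici 0) := by
    refine monotoneOn_of_deriv_nonneg (convex_Ici 0)
      (fun t ht => (hd t ht).continuousAt.continuousWithinAt)
      (fun t ht => (hd t (interior_subset ht)).differentiableAt.differentiableWithinAt)
      fun t ht => ?_
    have ht0 : 0 ≤ t := interior_subset ht
    rw [(hd t ht0).deriv]
    exact mul_nonneg (Real.exp_pos _).le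
      (flow_ineq_heat hw h S (s := fun i => s i + t) (hpos t ht0) y)
  have := hmono (Set.mem_Ici.2 le_rfl) (Set.mem_Ici.2 hτ) hτ
  simpa [hg] using this

/-- Probability of finding the particles of `S` in small balls around `y`. -/
theorem balls_le (h : Setup P w ψ) (S : Finset (Fin N)) {r : ℝ} (hr : 0 < r)
    (hρ : r ^ 2 * rho N L = 1) {s : Fin N → ℝ} (hs : ∀ i, 0 < s i) (hsr : ∀ i ∈ S, s i ≤ r)
    (y : T3 L) :
    ∫ x, (∏ i ∈ S, nb (s i) (x i - y)) * ‖ψ x‖ ^ 2 ≤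
      (441 * Real.exp (P.W + 8) / r ^ 3) ^ S.card * (∏ i ∈ S, s i ^ 3) *
        ∫ x, (∏ i ∈ S, om r (x i - y)) * ‖ψ x‖ ^ 2 := by
  have hψ : Continuous ψ := h.gs.c1.1
  have hL : 0 < L := Lpos
  obtain ⟨hρ0, hρL, -⟩ := h.basic
  have hs2 : ∀ i, 0 < s i ^ 2 := fun i => pow_pos (hs i) 2
  have hs3 : ∀ i, 0 < s i ^ 2 + r ^ 2 := fun i => add_pos (hs2 i) (pow_pos hr 2)
  have hxi : ∀ i : Fin N, Continuous fun x : Cf N L => x i - y := fun i =>
    (continuous_apply i).sub continuous_const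
  have hn : Continuous fun x => ‖ψ x‖ ^ 2 := hψ.norm.pow 2
  have iA : Integrable fun x : Cf N L => (∏ i ∈ S, th (s i ^ 2) (x i - y)) * ‖ψ x‖ ^ 2 :=
    cont_integrable ((continuous_finsetProd _ fun i _ =>
      (th_c2 (hs2 i)).c1.cont.comp (hxi i)).mul hn)
  have iB : Integrable fun x : Cf N L => (∏ i ∈ S, th (s i ^ 2 + r ^ 2) (x i - y)) * ‖ψ x‖ ^ 2 :=
    cont_integrable ((continuous_finsetProd _ fun i _ =>
      (th_c2 (hs3 i)).c1.cont.comp (hxi i)).mul hn)
  have iC : Integrable fun x : Cf N L => (∏ i ∈ S, om r (x i - y)) * ‖ψ x‖ ^ 2 :=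
    cont_integrable ((continuous_finsetProd _ fun i _ => (om_c1 hr).cont.comp (hxi i)).mul hn)
  have h1 : ∫ x, (∏ i ∈ S, nb (s i) (x i - y)) * ‖ψ x‖ ^ 2 ≤
      (21 ^ S.card * ∏ i ∈ S, s i ^ 3) *
        ∫ x, (∏ i ∈ S, th (s i ^ 2) (x i - y)) * ‖ψ x‖ ^ 2 := by
    rw [← integral_const_mul]
    refine integral_mono_of_nonneg (Eventually.of_forall fun x => ?_) (iA.const_mul _)
      (Eventually.of_forall fun x => ?_)
    · exact mul_nonneg (Finset.prod_nonneg fun i _ => nb_nonneg _ _) (sq_nonneg _)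
    · have h2 : ∏ i ∈ S, nb (s i) (x i - y) ≤ ∏ i ∈ S, 21 * s i ^ 3 * th (s i ^ 2) (x i - y) :=
        Finset.prod_le_prod (fun i _ => nb_nonneg _ _) fun i _ => nb_le_th (hs i) _
      rw [Finset.prod_mul_distrib, Finset.prod_mul_distrib, Finset.prod_const] at h2
      have h3 := mul_le_mul_of_nonneg_right h2 (sq_nonneg ‖ψ x‖)
      dsimp only
      linarith
  have h2 := heat_flow h.pot.wp h.gs S hs2 y (sq_nonneg r)
  have h3 : ∫ x, (∏ i ∈ S, th (s i ^ 2 + r ^ 2) (x i - y)) * ‖ψ x‖ ^ 2 ≤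
      (21 / r ^ 3) ^ S.card * ∫ x, (∏ i ∈ S, om r (x i - y)) * ‖ψ x‖ ^ 2 := by
    rw [← integral_const_mul]
    refine integral_mono iB (iC.const_mul _) fun x => ?_
    have h4 : ∏ i ∈ S, th (s i ^ 2 + r ^ 2) (x i - y) ≤ ∏ i ∈ S, 21 / r ^ 3 * om r (x i - y) :=
      Finset.prod_le_prod (fun i _ => (th_pos (hs3 i) _).le) fun i hi =>
        th_le_om hr (by linarith [hs2 i])
          (by nlinarith [hsr i hi, hs i]) _
    rw [Finset.prod_mul_distrib, Finset.prod_const] at h4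
    have h5 := mul_le_mul_of_nonneg_right h4 (sq_nonneg ‖ψ x‖)
    dsimp only
    linarith
  have h4 : (rho N L * P.W + 8 / L ^ 2) * r ^ 2 ≤ P.W + 8 := by
    have e1 : rho N L * P.W * r ^ 2 = P.W := by
      calc rho N L * P.W * r ^ 2 = (r ^ 2 * rho N L) * P.W := by ring
        _ = P.W := by rw [hρ, one_mul]
    have e2 : r ^ 2 ≤ L ^ 2 := by
      calc r ^ 2 = r ^ 2 * 1 := (mul_one _).symm
        _ ≤ r ^ 2 * (rho N L * L ^ 2) := mul_le_mul_of_nonneg_left hρL (sq_nonneg r)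
        _ = (r ^ 2 * rho N L) * L ^ 2 := by ring
        _ = L ^ 2 := by rw [hρ, one_mul]
    have e3 : 8 / L ^ 2 * r ^ 2 ≤ 8 := by
      rw [div_mul_eq_mul_div, div_le_iff₀ (pow_pos hL 2)]
      linarith
    linarith [add_mul (rho N L * P.W) (8 / L ^ 2) (r ^ 2)]
  have h5 : Real.exp ((S.card : ℝ) * (rho N L * P.W + 8 / L ^ 2) * r ^ 2) ≤
      Real.exp (P.W + 8) ^ S.card := by
    rw [← Real.exp_nat_mul, mul_assoc]
    exact Real.exp_le_exp.2 (mul_le_mul_of_nonneg_left h4 (Nat.cast_nonneg _))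
  have hC : 0 ≤ ∫ x, (∏ i ∈ S, om r (x i - y)) * ‖ψ x‖ ^ 2 :=
    integral_nonneg fun x =>
      mul_nonneg (Finset.prod_nonneg fun i _ => (om_pos _ _).le) (sq_nonneg _)
  have hK : 0 ≤ 21 ^ S.card * ∏ i ∈ S, s i ^ 3 :=
    mul_nonneg (by positivity) (Finset.prod_nonneg fun i _ => (pow_pos (hs i) 3).le)
  calc ∫ x, (∏ i ∈ S, nb (s i) (x i - y)) * ‖ψ x‖ ^ 2
      ≤ (21 ^ S.card * ∏ i ∈ S, s i ^ 3) *
        ∫ x, (∏ i ∈ S, th (s i ^ 2) (x i - y)) * ‖ψ x‖ ^ 2 := h1
    _ ≤ (21 ^ S.card * ∏ i ∈ S, s i ^ 3) * (Real.exp (P.W + 8) ^ S.card *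
        ((21 / r ^ 3) ^ S.card * ∫ x, (∏ i ∈ S, om r (x i - y)) * ‖ψ x‖ ^ 2)) := by
      refine mul_le_mul_of_nonneg_left (h2.trans ?_) hK
      refine (mul_le_mul_of_nonneg_left h3 (Real.exp_pos _).le).trans ?_
      exact mul_le_mul_of_nonneg_right h5 (mul_nonneg (by positivity) hC)
    _ = (441 * Real.exp (P.W + 8) / r ^ 3) ^ S.card * (∏ i ∈ S, s i ^ 3) *
        ∫ x, (∏ i ∈ S, om r (x i - y)) * ‖ψ x‖ ^ 2 := by
      have e : 441 * Real.exp (P.W + 8) / r ^ 3 = 21 * (Real.exp (P.W + 8) * (21 / r ^ 3)) := by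
        ring
      rw [e, mul_pow, mul_pow]
      ring

end Pool.Agent.BoseTail
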