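import Pool.Agent.Lib.MP_dec75e_mp.Hol0

/-! Disjoint supports and window sums. -/

open MeasureTheory Complex Finset Filter Function
open scoped ComplexConjugate Real Topology

noncomputable section

namespace Pool.Agent.BoseTail

variable {N : ℕ} {L : ℝ} [Fact (0 < L)] {o j : Fin N} {s : ℝ}

omit [Fact (0 < L)] in
/-- At most one index carries a nonzero term. -/
theorem uniq_hol {x : Cf N L} {p : Fin N → Prop}
    (h : ∀ j ∈ univ.erase o, p j →
      ‖x o - x j‖ ≤ s ∧ ∀ l ∈ (univ.erase o).erase j, s < ‖x l - x o‖)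
    {j l : Fin N} (hj : j ∈ univ.erase o) (hl : l ∈ univ.erase o) (hpj : p j) (hpl : p l) :
    l = j := by
  by_contra hne
  have h1 := (h j hj hpj).2 l (Finset.mem_erase.2 ⟨hne, hl⟩)
  have h2 := (h l hl hpl).1
  rw [norm_sub_rev] at h2
  exact absurd h1 (not_lt.2 h2)

omit [Fact (0 < L)] in
/-- Disjoint supports. -/
theorem normSq_sum_disj {A : Fin N → ℂ} {x : Cf N L}
    (h : ∀ j ∈ univ.erase o, A j ≠ 0 →
      ‖x o - x j‖ ≤ s ∧ ∀ l ∈ (univ.erase o).erase j, s < ‖x l - x o‖) :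
    ‖∑ j ∈ univ.erase o, A j‖ ^ 2 = ∑ j ∈ univ.erase o, ‖A j‖ ^ 2 := by
  by_cases hex : ∃ j ∈ univ.erase o, A j ≠ 0
  · obtain ⟨j, hj, hAj⟩ := hex
    have hz : ∀ l ∈ univ.erase o, l ≠ j → A l = 0 := fun l hl hne => by
      by_contra hAl
      exact hne (uniq_hol (p := fun j => A j ≠ 0) h hj hl hAj hAl)
    rw [Finset.sum_eq_single_of_mem j hj hz,
      Finset.sum_eq_single_of_mem j hj fun l hl hne => by rw [hz l hl hne]; simp]
  · have hz : ∀ l ∈ univ.erase o, A l = 0 := fun l hl => by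
      by_contra hAl
      exact hex ⟨l, hl, hAl⟩
    rw [Finset.sum_eq_zero hz, Finset.sum_eq_zero fun l hl => by rw [hz l hl]; simp]
    simp

omit [Fact (0 < L)] in
theorem sum_disj_le {A : Fin N → ℝ} {x : Cf N L} {M : ℝ} (hM : 0 ≤ M)
    (hA : ∀ j ∈ univ.erase o, A j ≤ M)
    (h : ∀ j ∈ univ.erase o, A j ≠ 0 →
      ‖x o - x j‖ ≤ s ∧ ∀ l ∈ (univ.erase o).erase j, s < ‖x l - x o‖) :
    ∑ j ∈ univ.erase o, A j ≤ M := by
  by_cases hex : ∃ j ∈ univ.erase o, A j ≠ 0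
  · obtain ⟨j, hj, hAj⟩ := hex
    have hz : ∀ l ∈ univ.erase o, l ≠ j → A l = 0 := fun l hl hne => by
      by_contra hAl
      exact hne (uniq_hol (p := fun j => A j ≠ 0) h hj hl hAj hAl)
    rw [Finset.sum_eq_single_of_mem j hj hz]
    exact hA j hj
  · have hz : ∀ l ∈ univ.erase o, A l = 0 := fun l hl => by
      by_contra hAl
      exact hex ⟨l, hl, hAl⟩
    rw [Finset.sum_eq_zero hz]
    exact hM

omit [Fact (0 < L)] in
theorem continuous_ksum {κ : T3 L → ℂ} (hκ : Continuous κ) {A : Fin N → Cf N L → ℂ}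
    (hA : ∀ j ∈ univ.erase o, Continuous (A j)) : Continuous (ksum o κ A) :=
  continuous_finsetSum _ fun j hj =>
    (hκ.comp ((continuous_apply o).sub (continuous_apply j))).mul (hA j hj)

omit [Fact (0 < L)] in
theorem ksum_c1 {κ : T3 L → ℂ} (hκ : C1T κ) {A : Fin N → Cf N L → ℂ}
    (hA : ∀ j ∈ univ.erase o, IsC1 (A j)) : IsC1 (ksum o κ A) :=
  IsC1.sum (f := fun j x => κ (x o - x j) * A j x) fun j hj =>
    (hκ.pair (Finset.ne_of_mem_erase hj).symm).mul' (hA j hj)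

theorem nsq_ksum {κ : T3 L → ℂ} (hκ : Continuous κ) (hout : ∀ z, s < ‖z‖ → κ z = 0)
    {A : Fin N → Cf N L → ℂ} (hA : ∀ j ∈ univ.erase o, Continuous (A j))
    (hs : ∀ j ∈ univ.erase o, ∀ l ∈ (univ.erase o).erase j, ∀ x : Cf N L,
      ‖x l - x o‖ ≤ s → A j x = 0) :
    nsq (ksum o κ A) = ∑ j ∈ univ.erase o, ∫ x, ‖κ (x o - x j)‖ ^ 2 * ‖A j x‖ ^ 2 := by
  have hpt : ∀ x : Cf N L, ‖ksum o κ A x‖ ^ 2 =
      ∑ j ∈ univ.erase o, ‖κ (x o - x j)‖ ^ 2 * ‖A j x‖ ^ 2 := fun x => by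
    unfold ksum
    rw [normSq_sum_disj (o := o) (s := s) (x := x) (A := fun j => κ (x o - x j) * A j x)]
    · exact Finset.sum_congr rfl fun j _ => by rw [norm_mul, mul_pow]
    · intro j hj hne
      refine ⟨?_, fun l hl => ?_⟩
      · by_contra hlt
        exact hne (by rw [hout _ (not_le.1 hlt), zero_mul])
      · by_contra hle
        exact hne (by rw [hs j hj l hl x (not_lt.1 hle), mul_zero])
  unfold nsq
  simp only [hpt]
  refine integral_finsetSum _ fun j hj => cont_integrable ?_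
  exact ((hκ.comp ((continuous_apply o).sub (continuous_apply j))).norm.pow 2).mul
    ((hA j hj).norm.pow 2)

theorem nsq_ksum_le {κ : T3 L → ℂ} (hκ : Continuous κ) (hout : ∀ z, s < ‖z‖ → κ z = 0) {M : ℝ}
    (hM : ∀ z, ‖κ z‖ ≤ M) {A : Fin N → Cf N L → ℂ} (hA : ∀ j ∈ univ.erase o, Continuous (A j))
    (hs : ∀ j ∈ univ.erase o, ∀ l ∈ (univ.erase o).erase j, ∀ x : Cf N L,
      ‖x l - x o‖ ≤ s → A j x = 0) :
    nsq (ksum o κ A) ≤ M ^ 2 * ∑ j ∈ univ.erase o, ∫ x, nb s (x o - x j) * ‖A j x‖ ^ 2 := by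
  rw [nsq_ksum hκ hout hA hs, Finset.mul_sum]
  refine Finset.sum_le_sum fun j hj => ?_
  rw [← integral_const_mul]
  have hm : Measurable fun x : Cf N L => x o - x j :=
    ((continuous_apply o).sub (continuous_apply j)).measurable
  have hb : BM fun x : Cf N L => nb s (x o - x j) * ‖A j x‖ ^ 2 :=
    ((BM_nb s).comp hm).mul (BM.of_cont ((hA j hj).norm.pow 2))
  refine integral_mono (cont_integrable ?_) (hb.integrable.const_mul _) fun x => ?_
  · exact ((hκ.comp ((continuous_apply o).sub (continuous_apply j))).norm.pow 2).mul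
      ((hA j hj).norm.pow 2)
  · simp only
    rw [← mul_assoc]
    refine mul_le_mul_of_nonneg_right ?_ (sq_nonneg _)
    unfold nb
    split_ifs with hle
    · rw [mul_one]
      exact pow_le_pow_left₀ (norm_nonneg _) (hM _) 2
    · rw [hout _ (not_le.1 hle)]
      simp

omit [Fact (0 < L)] in
theorem Win.dd_out {H δ : ℝ} {κ : T3 L → ℂ} (h : Win H δ κ) (c : Fin 3) (z : T3 L)
    (hz : 1 / δ < ‖z‖) : dd (d1 c) κ z = 0 :=
  dd_of_eventually_const (dir_d1 c) (c := 0)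
    ((continuous_norm.continuousAt.eventually (lt_mem_nhds hz)).mono fun y hy => h.out y hy)

omit [Fact (0 < L)] in
theorem Win.lap_out {H δ : ℝ} {κ : T3 L → ℂ} (h : Win H δ κ) (z : T3 L) (hz : 1 / δ < ‖z‖) :
    lapT κ z = 0 :=
  Finset.sum_eq_zero fun c _ => dd_of_eventually_const (dir_d1 c) (c := 0)
    ((continuous_norm.continuousAt.eventually (lt_mem_nhds hz)).mono fun y hy => h.dd_out c y hy)

end Pool.Agent.BoseTail
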