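import Pool.Agent.Lib.MP_dec75e_mp.Kin
import Pool.Agent.Lib.MP_dec75e_mp.Amp

/-! Products of holes, the cut-off and disjoint supports. -/

open MeasureTheory Complex Finset Filter Function
open scoped ComplexConjugate Real Topology

noncomputable section

namespace Pool.Agent.BoseTail

variable {N : ℕ} {L : ℝ} [Fact (0 < L)]

/-- Standing assumptions of the main step. -/
structure MS (P : Par) (C B : ℝ) (w : T3 L → ℝ) (ψ : Cf N L → ℂ) (δ : ℝ)
    (θ η η' b : T3 L → ℝ) : Prop where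
  st : Setup P w ψ
  ap : AP C ψ
  cuts : Cuts B δ θ η η' b
  δpos : 0 < δ
  hR : P.R0 * δ ≤ 1
  hρ : rho N L ≤ δ ^ 3
  h60 : (60 / δ) ^ 2 * rho N L ≤ 1

theorem MS.basic {P : Par} {C B : ℝ} {w : T3 L → ℝ} {ψ : Cf N L → ℂ} {δ : ℝ}
    {θ η η' b : T3 L → ℝ} (h : MS P C B w ψ δ θ η η' b) :
    0 < rho N L ∧ δ ≤ 1 ∧ P.R0 ≤ 1 / δ ∧ 60 / δ ≤ L ∧ Wt 4 (3 / δ) (Ub b) ∧
      (∀ z, 0 ≤ Ub b z) ∧ Continuous (Ub b) := by
  have hδ := h.δpos
  have hR0 := P.hR0
  have hR := h.hR
  have h60 : 60 / δ ≤ L := by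
    have := h.st.r_le (s := 1 / δ) (t := 60) (by positivity) (by norm_num)
      (by simpa only [mul_one_div] using h.h60)
    simpa only [mul_one_div] using this
  have h2 : 2 * (1 / δ) ≤ L := by
    have : 2 * (1 / δ) ≤ 60 / δ := by
      rw [mul_one_div]; exact div_le_div_of_nonneg_right (by norm_num) hδ.le
    linarith
  have hw := h.cuts.hb.wt (by positivity) h2
  rw [mul_one_div] at hw
  exact ⟨h.st.basic.1, by nlinarith, (le_div_iff₀ hδ).2 hR, h60, hw⟩

theorem sum_one_out_hol0 {ι : Type*} [DecidableEq ι] (T : Finset ι) {a : ι → ℝ}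
    (h0 : ∀ l, 0 ≤ a l) (h1 : ∀ l, a l ≤ 1) :
    ∑ l ∈ T, (1 - a l) * ∏ l' ∈ T.erase l, a l' ≤ 1 := by
  induction T using Finset.induction_on with
  | empty => simp
  | insert i T hi ih =>
    rw [Finset.sum_insert hi, Finset.erase_insert hi]
    have e : ∑ l ∈ T, (1 - a l) * ∏ l' ∈ (insert i T).erase l, a l' =
        a i * ∑ l ∈ T, (1 - a l) * ∏ l' ∈ T.erase l, a l' := by
      rw [Finset.mul_sum]
      refine Finset.sum_congr rfl fun l hl => ?_
      have hne : i ≠ l := fun e => hi (e ▸ hl)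
      rw [Finset.erase_insert_of_ne hne,
        Finset.prod_insert fun h => hi (Finset.mem_of_mem_erase h)]
      ring
    have hp : ∏ l' ∈ T, a l' ≤ 1 := Finset.prod_le_one (fun l _ => h0 l) fun l _ => h1 l
    have k1 := mul_le_mul_of_nonneg_left hp (sub_nonneg.2 (h1 i))
    have k2 := mul_le_mul_of_nonneg_left ih (h0 i)
    rw [e]
    linarith

theorem one_sub_prod_le_hol0 {ι : Type*} [DecidableEq ι] (T : Finset ι) {a : ι → ℝ}
    (h0 : ∀ l, 0 ≤ a l) (h1 : ∀ l, a l ≤ 1) : 1 - ∏ l ∈ T, a l ≤ ∑ l ∈ T, (1 - a l) := by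
  induction T using Finset.induction_on with
  | empty => simp
  | insert i T hi ih =>
    rw [Finset.sum_insert hi, Finset.prod_insert hi]
    have hp : ∏ l' ∈ T, a l' ≤ 1 := Finset.prod_le_one (fun l _ => h0 l) fun l _ => h1 l
    have k1 := mul_le_mul_of_nonneg_left hp (sub_nonneg.2 (h1 i))
    linarith

variable {o j : Fin N} {B s : ℝ} {η θ b : T3 L → ℝ}

/-- At most one particle is inside: the sum of the squared gradients is bounded. -/
theorem hole_sum (h : Hole B s η) (T : Finset (Fin N)) (p : Fin N → T3 L) (c : Fin 3) :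
    ∑ l ∈ T, (dd (d1 c) η (p l) * ∏ l' ∈ T.erase l, η (p l')) ^ 2 ≤ (B / s) ^ 2 := by
  have k := sum_one_out_hol0 T (a := fun l => η (p l) ^ 2) (fun l => sq_nonneg _)
    fun l => pow_le_one₀ (h.nonneg _) (h.le _)
  have k2 := mul_le_mul_of_nonneg_left k (sq_nonneg (B / s))
  rw [mul_one, Finset.mul_sum] at k2
  refine le_trans (Finset.sum_le_sum fun l _ => ?_) k2
  rw [mul_pow, ← Finset.prod_pow, ← mul_assoc]
  exact mul_le_mul_of_nonneg_right (h.grad c _) (Finset.prod_nonneg fun _ _ => sq_nonneg _)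

theorem hole_sum_sq (h : Hole B s η) (T : Finset (Fin N)) (p : Fin N → T3 L) (c : Fin 3) :
    (∑ l ∈ T, dd (d1 c) η (p l) * ∏ l' ∈ T.erase l, η (p l')) ^ 2 ≤
      (B / s) ^ 2 * ∑ l ∈ T, nb (3 * s) (p l) := by
  have e : ∀ z : T3 L, dd (d1 c) η z = dd (d1 c) η z * nb (3 * s) z := by
    intro z
    unfold nb
    split_ifs with hz
    · rw [mul_one]
    · have := h.grad c z
      rw [h.one z (not_le.1 hz).le] at this
      have h0 : dd (d1 c) η z ^ 2 = 0 := le_antisymm (by simpa using this) (sq_nonneg _)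
      rw [pow_eq_zero_iff (two_ne_zero)] at h0
      rw [h0, zero_mul]
  have e2 : ∑ l ∈ T, dd (d1 c) η (p l) * ∏ l' ∈ T.erase l, η (p l') =
      ∑ l ∈ T, (dd (d1 c) η (p l) * ∏ l' ∈ T.erase l, η (p l')) * nb (3 * s) (p l) :=
    Finset.sum_congr rfl fun l _ => by
      conv_lhs => rw [e (p l)]
      ring
  have cs := Finset.sum_mul_sq_le_sq_mul_sq T
    (fun l => dd (d1 c) η (p l) * ∏ l' ∈ T.erase l, η (p l')) (fun l => nb (3 * s) (p l))
  have e3 : ∑ l ∈ T, nb (3 * s) (p l) ^ 2 = ∑ l ∈ T, nb (3 * s) (p l) :=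
    Finset.sum_congr rfl fun l _ => by rw [sq, nb_mul_self]
  rw [e2]
  refine cs.trans ?_
  rw [e3]
  exact mul_le_mul_of_nonneg_right (hole_sum h T p c)
    (Finset.sum_nonneg fun _ _ => nb_nonneg _ _)

omit [Fact (0 < L)] in
theorem ne_o_hol0 {l : Fin N} (hl : l ∈ (univ.erase o).erase j) : l ≠ o :=
  Finset.ne_of_mem_erase (Finset.mem_of_mem_erase hl)

omit [Fact (0 < L)] in
theorem dd_hol_hol0 (h : Hole B s η) (o j i : Fin N) (c : Fin 3) (x : Cf N L) :
    dd (dir i c) (hol o j η) x = ∑ m ∈ (univ.erase o).erase j,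
      (if i = m then dd (d1 c) η (x m - x o) else if i = o then -dd (d1 c) η (x m - x o) else 0) *
        ∏ l' ∈ ((univ.erase o).erase j).erase m, η (x l' - x o) := by
  have := dd_prod (dir_dir i c) (s := (univ.erase o).erase j)
    (f := fun l (x : Cf N L) => η (x l - x o))
    (fun l hl => (h.c1 c).pair (ne_o_hol0 hl) i) x
  refine this.trans (Finset.sum_congr rfl fun m hm => ?_)
  rw [dd_pair (h.c1 c) (ne_o_hol0 hm)]

theorem hol_c1 (h : Hole B s η) (o j : Fin N) : IsC1 (hol o j η) :=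
  IsC1.prod (s := (univ.erase o).erase j) (f := fun l (x : Cf N L) => η (x l - x o))
    fun _ hl => h.c1.pair (ne_o_hol0 hl)
theorem hol_nonneg (h : Hole B s η) (o j : Fin N) (x : Cf N L) : 0 ≤ hol o j η x :=
  Finset.prod_nonneg fun _ _ => h.nonneg _
theorem hol_le_one (h : Hole B s η) (o j : Fin N) (x : Cf N L) : hol o j η x ≤ 1 :=
  Finset.prod_le_one (fun _ _ => h.nonneg _) fun _ _ => h.le _
theorem one_sub_hol_le (h : Hole B s η) (o j : Fin N) (x : Cf N L) :
    1 - hol o j η x ^ 2 ≤ ∑ l ∈ (univ.erase o).erase j, nb (3 * s) (x l - x o) := by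
  rw [hol, ← Finset.prod_pow]
  refine (one_sub_prod_le_hol0 _ (a := fun l => η (x l - x o) ^ 2) (fun l => sq_nonneg _)
    fun l => pow_le_one₀ (h.nonneg _) (h.le _)).trans (Finset.sum_le_sum fun l _ => ?_)
  unfold nb
  split_ifs with hz
  · linarith [sq_nonneg (η (x l - x o))]
  · rw [h.one _ (not_le.1 hz).le]; norm_num
theorem dd_hol_self (h : Hole B s η) (hj : j ≠ o) (c : Fin 3) (x : Cf N L) :
    dd (dir j c) (hol o j η) x = 0 := by
  have _ := h
  refine dd_of_indep (φ := hol o j η) (fun y t => ?_) x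
  refine Finset.prod_congr rfl fun l hl => ?_
  rw [add_dir_ne y (Finset.ne_of_mem_erase hl), add_dir_ne y hj.symm]
theorem sum_gP_hol (h : Hole B s η) (o j : Fin N) (x : Cf N L) :
    ∑ l ∈ (univ.erase o).erase j, gP l (hol o j η) x ≤ 3 * (B / s) ^ 2 := by
  have e : ∀ l ∈ (univ.erase o).erase j, gP l (hol o j η) x = ∑ c,
      (dd (d1 c) η (x l - x o) * ∏ l' ∈ ((univ.erase o).erase j).erase l, η (x l' - x o)) ^ 2 := by
    intro l hl
    refine Finset.sum_congr rfl fun c _ => ?_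
    rw [dd_hol_hol0 h, Finset.sum_eq_single_of_mem l hl, if_pos rfl, Real.norm_eq_abs, sq_abs]
    intro m _ hm
    rw [if_neg hm.symm, if_neg (ne_o_hol0 hl), zero_mul]
  rw [Finset.sum_congr rfl e, Finset.sum_comm]
  refine (Finset.sum_le_sum fun c _ => hole_sum h _ (fun l => x l - x o) c).trans (le_of_eq ?_)
  simp
theorem gP_hol_o (h : Hole B s η) (o j : Fin N) (x : Cf N L) :
    gP o (hol o j η) x ≤ 3 * (B / s) ^ 2 * ∑ l ∈ (univ.erase o).erase j, nb (3 * s) (x l - x o) := by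
  have e : ∀ c, ‖dd (dir o c) (hol o j η) x‖ ^ 2 = (∑ l ∈ (univ.erase o).erase j,
      dd (d1 c) η (x l - x o) * ∏ l' ∈ ((univ.erase o).erase j).erase l, η (x l' - x o)) ^ 2 := by
    intro c
    rw [dd_hol_hol0 h, Real.norm_eq_abs, sq_abs, ← neg_sq, ← Finset.sum_neg_distrib]
    congr 1
    refine Finset.sum_congr rfl fun m hm => ?_
    rw [if_neg (ne_o_hol0 hm).symm, if_pos rfl]
    ring
  simp only [gP, e]
  refine (Finset.sum_le_sum fun c _ => hole_sum_sq h _ (fun l => x l - x o) c).trans (le_of_eq ?_)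
  simp only [Finset.sum_const, Finset.card_univ, Fintype.card_fin, nsmul_eq_mul]
  push_cast
  ring
/-- Near a configuration with a particle strictly inside the hole the product vanishes. -/
theorem hol_eventually_zero (h : Hole B s η) {l : Fin N} (hl : l ∈ (univ.erase o).erase j)
    {x : Cf N L} (hx : ‖x l - x o‖ < s) : ∀ᶠ y in 𝓝 x, hol o j η y = 0 := by
  have hc : Continuous fun y : Cf N L => ‖y l - y o‖ := by fun_prop
  filter_upwards [(isOpen_lt hc continuous_const).mem_nhds hx] with y hy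
  exact Finset.prod_eq_zero hl (h.zero _ (le_of_lt hy))
/-- Near a configuration with all particles strictly outside the product is one. -/
theorem hol_eventually_one (h : Hole B s η) {x : Cf N L}
    (hx : ∀ l ∈ (univ.erase o).erase j, 3 * s < ‖x l - x o‖) : ∀ᶠ y in 𝓝 x, hol o j η y = 1 := by
  have : ∀ᶠ y in 𝓝 x, ∀ l ∈ (univ.erase o).erase j, 3 * s < ‖y l - y o‖ := by
    rw [Filter.eventually_all_finset]
    intro l hl
    have hc : Continuous fun y : Cf N L => ‖y l - y o‖ := by fun_prop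
    exact (isOpen_lt continuous_const hc).mem_nhds (hx l hl)
  filter_upwards [this] with y hy
  exact Finset.prod_eq_one fun l hl => h.one _ (hy l hl).le

theorem cut_c1 {s' : ℝ} (hθ : Bump B s' θ) (h : Hole B s η) (hj : j ≠ o) :
    IsC1 (cut o j θ η) :=
  (hθ.c1.pair hj.symm).mul' (hol_c1 h o j)
theorem cut_nonneg {s' : ℝ} (hθ : Bump B s' θ) (h : Hole B s η) (x : Cf N L) :
    0 ≤ cut o j θ η x :=
  mul_nonneg (hθ.nonneg _) (hol_nonneg h o j x)
theorem cut_le_one {s' : ℝ} (hθ : Bump B s' θ) (h : Hole B s η) (x : Cf N L) :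
    cut o j θ η x ≤ 1 :=
  mul_le_one₀ (hθ.le _) (hol_nonneg h o j x) (hol_le_one h o j x)

theorem psit_c1 {δ : ℝ} {η' : T3 L → ℝ} (h : Cuts B δ θ η η' b) (hU : BM (Ub b)) (hj : j ≠ o)
    {ψ : Cf N L → ℂ} (hψ : IsC1 ψ) : IsC1 (psit o j θ η b ψ) :=
  (cut_c1 h.hθ h.hη hj).mul (hψ.amp hj hU)

/-- Support of the localised amplitude and of its derivatives. -/
theorem psit_supp {δ : ℝ} {η' : T3 L → ℝ} (h : Cuts B δ θ η η' b) (ψ : Cf N L → ℂ) {l : Fin N}
    (hl : l ∈ (univ.erase o).erase j) {x : Cf N L} (hx : ‖x l - x o‖ < 8 / δ) :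
    psit o j θ η b ψ x = 0 ∧ ∀ i c, dd (dir i c) (psit o j θ η b ψ) x = 0 := by
  have hz : ∀ᶠ y in 𝓝 x, psit o j θ η b ψ y = 0 := by
    filter_upwards [hol_eventually_zero h.hη hl hx] with y hy
    simp only [psit, mul, cut, hy, mul_zero, Complex.ofReal_zero, zero_mul]
  exact ⟨hz.self_of_nhds, fun i c => dd_of_eventually_const (dir_dir i c) hz⟩

end Pool.Agent.BoseTail
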