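import Pool.Agent.Lib.MP_dec75e_mp.Ims0

/-! Removal of particles and the nonnegative forms. -/

open MeasureTheory Complex Finset Filter Function
open scoped ComplexConjugate Real Topology

noncomputable section

namespace Pool.Agent.BoseTail

variable {N : ℕ} {L : ℝ} [Fact (0 < L)] {P : Par} {w : T3 L → ℝ} {S : Finset (Fin N)}
  {φ χ ψ : Cf N L → ℂ}

omit [Fact (0 < L)] in
theorem dd_freeze_ne_ims (φ : Cf N L → ℂ) {i l : Fin N} (h : l ≠ i) (y : T3 L) (c : Fin 3)
    (x : Cf N L) :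
    dd (dir l c) (fun x : Cf N L => φ (update x i y)) x = dd (dir l c) φ (update x i y) := by
  simp only [dd, update_add_dir_ne x h]

omit [Fact (0 < L)] in
theorem dd_freeze_self_ims (φ : Cf N L → ℂ) (i : Fin N) (y : T3 L) (c : Fin 3) (x : Cf N L) :
    dd (dir i c) (fun x : Cf N L => φ (update x i y)) x = 0 :=
  dd_of_indep (fun x s => by simp only [update_add_dir_self]) x

theorem cont_freeze_ims (i : Fin N) (y : T3 L) : Continuous fun x : Cf N L => update x i y :=
  (continuous_update2 i).comp (continuous_id.prodMk continuous_const)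

theorem isC1_freeze_ims (hφ : IsC1 φ) (i : Fin N) (y : T3 L) :
    IsC1 (fun x : Cf N L => φ (update x i y)) := by
  have hc : Continuous fun x : Cf N L => φ (update x i y) := hφ.1.comp (cont_freeze_ims i y)
  refine ⟨hc, fun l c => ?_⟩
  by_cases h : l = i
  · subst h
    exact D1.of_indep hc fun x s => by simp only [update_add_dir_self]
  · refine D1.of_hd (φ' := fun x => dd (dir l c) φ (update x i y)) hc
      ((hφ.2 l c).cdd.comp (cont_freeze_ims i y)) fun x => ?_
    simp only [update_add_dir_ne x h]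
    exact (hφ.2 l c).hd _

theorem W_nonneg_ims (P : Par) : 0 ≤ P.W := by
  have h1 := P.hV
  have h2 := P.hR0
  unfold Par.W
  positivity

/-- Removing one particle costs at most `ρ W`. -/
theorem remove_one (hw : Wp P w) {i : Fin N} (hi : i ∉ S) {l : ℝ}
    (h : ∀ φ : Cf N L → ℂ, IsC1 φ → l * nsq φ ≤ ES w (insert i S) φ) (hφ : IsC1 φ) :
    (l - rho N L * P.W) * nsq φ ≤ ES w S φ := by
  have hL : 0 < L := Lpos
  have hL3 : 0 < L ^ 3 := by positivity
  have hne : ∀ j ∈ S, j ≠ i := fun j hj e => hi (e ▸ hj)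
  have hUS := continuous_US hw.cont S
  -- the splitting of the integral of the density
  have split : ∀ g : Cf N L → ℂ, IsC1 g →
      ∫ x, ((1 / 2) * (∑ j ∈ S, gP j g x) + US w S x * ‖g x‖ ^ 2 -
        (l - rho N L * P.W) * ‖g x‖ ^ 2) = ES w S g - (l - rho N L * P.W) * nsq g := by
    intro g hg
    have hg1 := hg.1
    have hgp : ∀ j, Continuous (gP j g) := hg.cont_gP
    rw [integral_sub (cont_integrable (by fun_prop)) (cont_integrable (by fun_prop)),
      integral_add (cont_integrable (by fun_prop)) (cont_integrable (by fun_prop)),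
      integral_const_mul, integral_const_mul,
      integral_finsetSum _ fun j _ => cont_integrable (hgp j)]
    rfl
  set d : Cf N L → ℝ := fun x => (1 / 2) * (∑ j ∈ S, gP j φ x) + US w S x * ‖φ x‖ ^ 2 -
    (l - rho N L * P.W) * ‖φ x‖ ^ 2 with hd
  have hφ1 := hφ.1
  have hgp : ∀ j, Continuous (gP j φ) := hφ.cont_gP
  have hdc : Continuous d := by rw [hd]; fun_prop
  have key : ∀ y : T3 L, 0 ≤ ∫ x : Cf N L, d (update x i y) := by
    intro y
    set f : Cf N L → ℂ := fun x => φ (update x i y) with hf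
    have hfc : IsC1 f := isC1_freeze_ims hφ i y
    have hf1 := hfc.1
    have e1 : ∫ x : Cf N L, d (update x i y) = ES w S f - (l - rho N L * P.W) * nsq f := by
      rw [← split f hfc]
      refine integral_congr_ae (Eventually.of_forall fun x => ?_)
      simp only [hd, hf, US_update hi]
      congr 3
      refine Finset.sum_congr rfl fun j hj => ?_
      simp only [gP, dd_freeze_ne_ims φ (hne j hj)]
    have e2 : ∀ j ∈ S, ∫ x : Cf N L, w (x i - x j) * ‖f x‖ ^ 2 ≤ (L ^ 3)⁻¹ * P.W * nsq f := by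
      intro j hj
      have := av_pair (𝕜 := ℝ) (u := w) hw.bm (G := fun x => ‖f x‖ ^ 2)
        (BM.of_cont (by fun_prop)) (hne j hj).symm (fun x y' => by simp only [hf, update_idem])
      rw [this]
      have h1 : (L ^ 3)⁻¹ * ∫ z, w z ≤ (L ^ 3)⁻¹ * P.W :=
        mul_le_mul_of_nonneg_left hw.integral_le (by positivity)
      exact mul_le_mul_of_nonneg_right h1 (nsq_nonneg f)
    have hwc := hw.cont
    have e3 : ES w (insert i S) f =
        ES w S f + ∑ j ∈ S, ∫ x : Cf N L, w (x i - x j) * ‖f x‖ ^ 2 := by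
      have hz : ∫ x, gP i f x = 0 := by
        simp only [gP, hf, dd_freeze_self_ims, norm_zero]
        simp
      simp only [ES, Finset.sum_insert hi, hz, zero_add, US_insert hw.even hi, add_mul,
        Finset.sum_mul]
      rw [integral_add (cont_integrable (by fun_prop)) (cont_integrable (by fun_prop)),
        integral_finsetSum _ fun j _ => cont_integrable (by fun_prop)]
      ring
    have e4 : ∑ j ∈ S, ∫ x : Cf N L, w (x i - x j) * ‖f x‖ ^ 2 ≤ rho N L * P.W * nsq f := by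
      refine (Finset.sum_le_sum e2).trans ?_
      rw [Finset.sum_const, nsmul_eq_mul]
      have hc : (S.card : ℝ) ≤ N := by
        have := S.card_le_univ
        rw [Fintype.card_fin] at this
        exact_mod_cast this
      have h0 : 0 ≤ (L ^ 3)⁻¹ * P.W * nsq f :=
        mul_nonneg (mul_nonneg (by positivity) (W_nonneg_ims P)) (nsq_nonneg f)
      refine (mul_le_mul_of_nonneg_right hc h0).trans (le_of_eq ?_)
      rw [rho, div_eq_mul_inv]; ring
    have := h f hfc
    rw [e1]; nlinarith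
  have hsw : ∫ x : Cf N L, ∫ y : T3 L, d (update x i y) =
      ∫ y : T3 L, ∫ x : Cf N L, d (update x i y) :=
    BM.swap (Φ := fun (x : Cf N L) (y : T3 L) => d (update x i y))
      ((BM.of_cont hdc).comp (measurable_update2 i))
  have hav := av (𝕜 := ℝ) (BM.of_cont hdc) i
  have h0 : 0 ≤ L ^ 3 * ∫ x, d x := by
    have : 0 ≤ ∫ y : T3 L, ∫ x : Cf N L, d (update x i y) := integral_nonneg key
    rw [← hsw, hav] at this
    exact this
  have h1 : 0 ≤ ∫ x, d x := nonneg_of_mul_nonneg_right h0 hL3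
  rw [hd, split φ hφ] at h1
  linarith

theorem QS_nonneg (hw : Wp P w) (h : GS w ψ) (S : Finset (Fin N)) (hφ : IsC1 φ) :
    0 ≤ QS P w ψ S φ := by
  have key : ∀ T : Finset (Fin N), ∀ φ : Cf N L → ℂ, IsC1 φ →
      (ES w univ ψ - (T.card : ℝ) * (rho N L * P.W)) * nsq φ ≤ ES w Tᶜ φ := by
    intro T
    induction T using Finset.induction_on with
    | empty => intro φ hφ; simpa using h.min φ hφ
    | insert i T hi ih =>
      intro φ hφ
      have hi' : i ∉ (insert i T)ᶜ := by simp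
      have he : insert i (insert i T)ᶜ = Tᶜ := by
        ext j
        by_cases hj : j = i
        · subst hj; simpa using hi
        · simp [hj]
      have := remove_one (S := (insert i T)ᶜ) hw hi'
        (l := ES w univ ψ - (T.card : ℝ) * (rho N L * P.W)) (by rw [he]; exact ih) hφ
      rw [Finset.card_insert_of_notMem hi]
      push_cast
      linarith
  have := key Sᶜ φ hφ
  rw [compl_compl] at this
  simp only [QS, lam]
  linarith

theorem rQ_self (hφ : IsC1 φ) : rQ P w ψ S φ φ = QS P w ψ S φ := by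
  rw [rQ, QS, rB_self hφ, rip_self]

theorem QS_add_smul_ims (hw : Wp P w) (S : Finset (Fin N)) (hφ : IsC1 φ) (hχ : IsC1 χ) (t : ℝ) :
    QS P w ψ S (fun x => φ x + (t : ℂ) * χ x) =
      QS P w ψ S φ + 2 * t * rQ P w ψ S φ χ + t ^ 2 * QS P w ψ S χ := by
  simp only [QS, rQ]
  rw [ES_add_smul hw.cont hφ hχ, nsq_add_smul hφ.1 hχ.1]
  ring

/-- Cauchy-Schwarz for the nonnegative form, in the arithmetic-geometric version. -/
theorem rQ_le (hw : Wp P w) (h : GS w ψ) (S : Finset (Fin N)) (hφ : IsC1 φ) (hχ : IsC1 χ) {t : ℝ}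
    (ht : 0 < t) :
    2 * rQ P w ψ S φ χ ≤ t * QS P w ψ S φ + t⁻¹ * QS P w ψ S χ := by
  have h0 := QS_nonneg hw h S (hφ.add (hχ.const_mul ((-t⁻¹ : ℝ) : ℂ)))
  rw [QS_add_smul_ims hw S hφ hχ] at h0
  have h1 := mul_nonneg ht.le h0
  have h2 : t * (QS P w ψ S φ + 2 * -t⁻¹ * rQ P w ψ S φ χ + (-t⁻¹) ^ 2 * QS P w ψ S χ) =
      t * QS P w ψ S φ + t⁻¹ * QS P w ψ S χ - 2 * rQ P w ψ S φ χ := by
    field_simp
    ring
  linarith

theorem QS_add_le (hw : Wp P w) (h : GS w ψ) (S : Finset (Fin N)) (hφ : IsC1 φ) (hχ : IsC1 χ) :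
    QS P w ψ S (fun x => φ x + χ x) ≤ 2 * QS P w ψ S φ + 2 * QS P w ψ S χ := by
  have h1 := QS_add_smul_ims (ψ := ψ) hw S hφ hχ 1
  have h2 := rQ_le hw h S hφ hχ one_pos
  simp only [Complex.ofReal_one, one_mul, inv_one] at h1 h2
  rw [h1]
  linarith

theorem QS_I_mul (hφ : IsC1 φ) : QS P w ψ S (fun x => I * φ x) = QS P w ψ S φ := by
  have h1 : ∀ i x, gP i (fun x => I * φ x) x = gP i φ x := by
    intro i x
    simp only [gP, dd_const_mul I (hφ.2 i _), norm_mul, Complex.norm_I, one_mul]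
  simp only [QS, ES, nsq, h1, norm_mul, Complex.norm_I, one_mul]

omit [Fact (0 < L)] in
theorem rest_ims {ι : Type*} (s : Finset ι) {F : ι → Cf N L → ℝ} (hF : ∀ a ∈ s, IsC1 (F a))
    (h1 : ∀ x, ∑ a ∈ s, F a x ^ 2 ≤ 1 / 2) :
    IsC1 (fun x => √(1 - ∑ a ∈ s, F a x ^ 2)) ∧
      ∀ i x, gP i (fun x => √(1 - ∑ a ∈ s, F a x ^ 2)) x ≤ ∑ a ∈ s, gP i (F a) x := by
  have hsq : ∀ a ∈ s, IsC1 (fun x => F a x ^ 2) := fun a ha => by
    simpa only [sq] using (hF a ha).mul' (hF a ha)
  have hu : IsC1 (fun x => 1 - ∑ a ∈ s, F a x ^ 2) := (IsC1.const 1).sub (IsC1.sum hsq)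
  have hpos : ∀ x, 0 < 1 - ∑ a ∈ s, F a x ^ 2 := fun x => by linarith [h1 x]
  have hg : ∀ x, HasDerivAt (fun t : ℝ => √t) (1 / (2 * √(1 - ∑ a ∈ s, F a x ^ 2)))
      (1 - ∑ a ∈ s, F a x ^ 2) := fun x => Real.hasDerivAt_sqrt (hpos x).ne'
  have hg' : Continuous fun x => 1 / (2 * √(1 - ∑ a ∈ s, F a x ^ 2)) :=
    continuous_const.div (continuous_const.mul hu.1.sqrt) fun x => by
      have := Real.sqrt_pos.2 (hpos x); positivity
  refine ⟨⟨hu.1.sqrt, fun i c => D1.comp (g := fun t => √t) (g' := fun t => 1 / (2 * √t))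
    (dir_dir i c) (hu.2 i c) hg hg'⟩, fun i x => ?_⟩
  simp only [gP]
  rw [Finset.sum_comm]
  refine Finset.sum_le_sum fun c _ => ?_
  have e1 := dd_comp (g := fun t => √t) (g' := fun t => 1 / (2 * √t)) (dir_dir i c) (hu.2 i c)
    hg x
  have e2 : dd (dir i c) (fun x => 1 - ∑ a ∈ s, F a x ^ 2) x =
      -(2 * ∑ a ∈ s, F a x * dd (dir i c) (F a) x) := by
    rw [dd_sub (D1.const 1) ((IsC1.sum hsq).2 i c), dd_const,
      dd_sum fun a ha => (hsq a ha).2 i c, Finset.mul_sum, zero_sub]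
    congr 1
    refine Finset.sum_congr rfl fun a ha => ?_
    have := dd_mul (dir_dir i c) ((hF a ha).2 i c) ((hF a ha).2 i c) x
    simp only [sq]
    rw [this]; ring
  rw [e1, e2]
  simp only [Real.norm_eq_abs, sq_abs]
  have cs := Finset.sum_mul_sq_le_sq_mul_sq s (fun a => F a x) (fun a => dd (dir i c) (F a) x)
  have hD : 0 ≤ ∑ a ∈ s, dd (dir i c) (F a) x ^ 2 := Finset.sum_nonneg fun _ _ => sq_nonneg _
  have hs := Real.sqrt_pos.2 (hpos x)
  have hs2 := Real.sq_sqrt (hpos x).le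
  have e3 : (1 / (2 * √(1 - ∑ a ∈ s, F a x ^ 2)) *
      -(2 * ∑ a ∈ s, F a x * dd (dir i c) (F a) x)) ^ 2 =
      (∑ a ∈ s, F a x * dd (dir i c) (F a) x) ^ 2 / √(1 - ∑ a ∈ s, F a x ^ 2) ^ 2 := by
    field_simp
  rw [e3, hs2, div_le_iff₀ (hpos x)]
  have := h1 x
  nlinarith

/-- Partition lemma: localised pieces are controlled by the whole form. -/
theorem QS_pieces (hw : Wp P w) (h : GS w ψ) (S : Finset (Fin N)) {ι : Type*} (s : Finset ι)
    {F : ι → Cf N L → ℝ} (hF : ∀ a ∈ s, IsC1 (F a)) (h1 : ∀ x, ∑ a ∈ s, F a x ^ 2 ≤ 1 / 2)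
    (hφ : IsC1 φ) :
    ∑ a ∈ s, QS P w ψ S (mul (F a) φ) ≤
      QS P w ψ S φ + ∑ i ∈ S, ∫ x, (∑ a ∈ s, gP i (F a) x) * ‖φ x‖ ^ 2 := by
  obtain ⟨h0, hle⟩ := rest_ims s hF h1
  set F0 : Cf N L → ℝ := fun x => √(1 - ∑ a ∈ s, F a x ^ 2) with hF0
  let G : Option ι → Cf N L → ℝ := fun o => o.elim F0 F
  have hG : ∀ o ∈ Finset.insertNone s, IsC1 (G o) := by
    intro o ho
    cases o with
    | none => exact h0
    | some a => exact hF a (Finset.some_mem_insertNone.1 ho)
  have hG1 : ∀ x, ∑ o ∈ Finset.insertNone s, G o x ^ 2 = 1 := by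
    intro x
    rw [Finset.sum_insertNone]
    have : F0 x ^ 2 = 1 - ∑ a ∈ s, F a x ^ 2 := Real.sq_sqrt (by linarith [h1 x])
    simp only [G, Option.elim]
    linarith
  have e1 := ims_family (S := S) hw.cont (Finset.insertNone s) hG hG1 hφ
  have e2 := nsq_family (Finset.insertNone s) (fun o ho => (hG o ho).1) hG1 hφ.1
  simp only [Finset.sum_insertNone, G, Option.elim] at e1 e2
  have e3 := QS_nonneg hw h S (h0.mul hφ)
  have hφ1 := hφ.1
  have e4 : ∀ i ∈ S, ∫ x, (gP i F0 x + ∑ a ∈ s, gP i (F a) x) * ‖φ x‖ ^ 2 ≤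
      2 * ∫ x, (∑ a ∈ s, gP i (F a) x) * ‖φ x‖ ^ 2 := by
    intro i _
    have c0 : Continuous (gP i F0) := h0.cont_gP i
    have c1 : Continuous fun x => ∑ a ∈ s, gP i (F a) x :=
      continuous_finsetSum _ fun a ha => (hF a ha).cont_gP i
    rw [← integral_const_mul]
    refine integral_mono (cont_integrable ((c0.add c1).mul (by fun_prop)))
      (cont_integrable (continuous_const.mul (c1.mul (by fun_prop)))) fun x => ?_
    have := mul_le_mul_of_nonneg_right (hle i x) (sq_nonneg ‖φ x‖)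
    simp only
    linarith
  have e5 := Finset.sum_le_sum e4
  rw [← Finset.mul_sum] at e5
  simp only [QS] at e3 ⊢
  rw [Finset.sum_sub_distrib, ← Finset.mul_sum, ← e2]
  linarith

/-- Local energy bound: the particles in `S` and the nonnegative form of the others. -/
theorem GS.local_energy (hw : Wp P w) (h : GS w ψ) (S : Finset (Fin N)) {F : Cf N L → ℝ}
    (hF : IsC1 F) :
    (1 / 2) * (∑ i ∈ S, ∫ x, gP i (mul F ψ) x) +
        (∫ x, (US w univ x - US w Sᶜ x) * ‖mul F ψ x‖ ^ 2) + QS P w ψ Sᶜ (mul F ψ) =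
      (S.card : ℝ) * (rho N L * P.W) * nsq (mul F ψ) +
        (1 / 2) * ∑ i, ∫ x, gP i F x * ‖ψ x‖ ^ 2 := by
  have e1 := h.ims hw.cont hF
  have hc := (hF.mul h.c1).1
  have c1 := continuous_US hw.cont (univ : Finset (Fin N))
  have c2 := continuous_US hw.cont Sᶜ
  have e2 : ∫ x, (US w univ x - US w Sᶜ x) * ‖mul F ψ x‖ ^ 2 =
      (∫ x, US w univ x * ‖mul F ψ x‖ ^ 2) - ∫ x, US w Sᶜ x * ‖mul F ψ x‖ ^ 2 := by
    rw [← integral_sub (cont_integrable (by fun_prop)) (cont_integrable (by fun_prop))]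
    simp only [sub_mul]
  have e3 := Finset.sum_add_sum_compl S fun i => ∫ x, gP i (mul F ψ) x
  rw [← e1, e2, QS, lam, compl_compl]
  generalize ES w univ ψ = E
  simp only [ES]
  rw [← e3]
  ring

end Pool.Agent.BoseTail
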