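import Pool.Agent.Lib.MP_dec75e_mp.Form

/-! Localisation formulas and the Euler-Lagrange equation. -/

open MeasureTheory Complex Finset Filter Function
open scoped ComplexConjugate Real Topology

noncomputable section

namespace Pool.Agent.BoseTail

variable {N : ℕ} {L : ℝ} [Fact (0 < L)] {P : Par} {w : T3 L → ℝ} {S : Finset (Fin N)}
  {φ χ ψ : Cf N L → ℂ}

omit [Fact (0 < L)] in
theorem sq_eq_ims0 (F : Cf N L → ℝ) : (fun x => F x ^ 2) = fun x => F x * F x :=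
  funext fun x => sq (F x)

theorem c1_sq_ims0 {F : Cf N L → ℝ} (hF : IsC1 F) : IsC1 (fun x => F x ^ 2) := by
  rw [sq_eq_ims0]; exact hF.mul' hF

theorem ip_alg_ims0 (a b : ℝ) (u v : ℂ) :
    ip (((a * b + b * a : ℝ) : ℂ) * u + ((b ^ 2 : ℝ) : ℂ) * v) v =
      ‖(a : ℂ) * u + (b : ℂ) * v‖ ^ 2 - ‖a‖ ^ 2 * ‖u‖ ^ 2 := by
  rw [← ip_self, ← ip_self u, Real.norm_eq_abs, sq_abs]
  simp only [ip_add_left, ip_add_right, ip_ofReal_left, ip_ofReal_right]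
  rw [ip_comm v u]
  ring

theorem ip_pot_ims0 (b : ℝ) (u : ℂ) :
    ip (((b ^ 2 : ℝ) : ℂ) * u) u = ‖(b : ℂ) * u‖ ^ 2 := by
  rw [← ip_self]
  simp only [ip_ofReal_left, ip_ofReal_right]
  ring

theorem pt_ims0 {F : Cf N L → ℝ} (hF : IsC1 F) (hφ : IsC1 φ) (i : Fin N) (c : Fin 3)
    (x : Cf N L) :
    ip (dd (dir i c) (mul (fun x => F x ^ 2) φ) x) (dd (dir i c) φ x) =
      ‖dd (dir i c) (mul F φ) x‖ ^ 2 - ‖dd (dir i c) F x‖ ^ 2 * ‖φ x‖ ^ 2 := by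
  rw [dd_mul_real (c1_sq_ims0 hF) hφ, dd_mul_real hF hφ]
  have h : dd (dir i c) (fun x => F x ^ 2) x =
      dd (dir i c) F x * F x + F x * dd (dir i c) F x := by
    rw [sq_eq_ims0]; exact dd_mul (dir_dir i c) (hF.2 i c) (hF.2 i c) x
  rw [h]
  exact ip_alg_ims0 _ _ _ _

theorem rT_ims0 {F : Cf N L → ℝ} (hF : IsC1 F) (hφ : IsC1 φ) (i : Fin N) :
    rT i (mul (fun x => F x ^ 2) φ) φ =
      (1 / 2) * (∫ x, gP i (mul F φ) x) - (1 / 2) * ∫ x, gP i F x * ‖φ x‖ ^ 2 := by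
  have hc1 : ∀ c, Continuous fun x => ‖dd (dir i c) (mul F φ) x‖ ^ 2 := fun c =>
    (((hF.mul hφ).2 i c).cdd.norm).pow 2
  have hc2 : ∀ c, Continuous fun x => ‖dd (dir i c) F x‖ ^ 2 * ‖φ x‖ ^ 2 := fun c =>
    (((hF.2 i c).cdd.norm).pow 2).mul (hφ.1.norm.pow 2)
  have h1 : ∫ x, gP i (mul F φ) x = ∑ c, ∫ x, ‖dd (dir i c) (mul F φ) x‖ ^ 2 := by
    unfold gP
    exact integral_finsetSum _ fun c _ => cont_integrable (hc1 c)
  have h2 : ∫ x, gP i F x * ‖φ x‖ ^ 2 = ∑ c, ∫ x, ‖dd (dir i c) F x‖ ^ 2 * ‖φ x‖ ^ 2 := by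
    unfold gP
    simp only [Finset.sum_mul]
    exact integral_finsetSum _ fun c _ => cont_integrable (hc2 c)
  rw [h1, h2, ← mul_sub, ← Finset.sum_sub_distrib]
  unfold rT
  congr 1
  refine Finset.sum_congr rfl fun c _ => ?_
  rw [← integral_sub (cont_integrable (hc1 c)) (cont_integrable (hc2 c))]
  exact integral_congr_ae (Eventually.of_forall fun x => pt_ims0 hF hφ i c x)

/-- One multiplier. -/
theorem ims_one {F : Cf N L → ℝ} (hF : IsC1 F) (hφ : IsC1 φ) :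
    rB w S (mul (fun x => F x ^ 2) φ) φ =
      ES w S (mul F φ) - (1 / 2) * ∑ i ∈ S, ∫ x, gP i F x * ‖φ x‖ ^ 2 := by
  have h1 : ∫ x, US w S x * ip (mul (fun x => F x ^ 2) φ x) (φ x) =
      ∫ x, US w S x * ‖mul F φ x‖ ^ 2 :=
    integral_congr_ae (Eventually.of_forall fun x => by
      simp only [mul]; rw [ip_pot_ims0])
  unfold rB ES
  rw [h1, Finset.sum_congr rfl fun i _ => rT_ims0 hF hφ i, Finset.sum_sub_distrib,
    ← Finset.mul_sum, ← Finset.mul_sum]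
  ring

omit [Fact (0 < L)] in
theorem sum_mul_ims0 {ι : Type*} (s : Finset ι) {F : ι → Cf N L → ℝ}
    (h1 : ∀ x, ∑ a ∈ s, F a x ^ 2 = 1) (φ : Cf N L → ℂ) :
    (fun x => ∑ a ∈ s, mul (fun x => F a x ^ 2) φ x) = φ := by
  funext x
  simp only [mul]
  rw [← Finset.sum_mul, ← Complex.ofReal_sum, h1 x]
  simp

/-- A quadratic partition of unity. -/
theorem ims_family (hw : Continuous w) {ι : Type*} (s : Finset ι) {F : ι → Cf N L → ℝ}
    (hF : ∀ a ∈ s, IsC1 (F a)) (h1 : ∀ x, ∑ a ∈ s, F a x ^ 2 = 1) (hφ : IsC1 φ) :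
    ∑ a ∈ s, ES w S (mul (F a) φ) =
      ES w S φ + (1 / 2) * ∑ i ∈ S, ∫ x, (∑ a ∈ s, gP i (F a) x) * ‖φ x‖ ^ 2 := by
  have h2 : ∑ a ∈ s, rB w S (mul (fun x => F a x ^ 2) φ) φ = ES w S φ := by
    rw [Finset.sum_congr rfl fun a _ => rB_comm (mul (fun x => F a x ^ 2) φ) φ,
      ← rB_sum_right hw (fun a ha => (c1_sq_ims0 (hF a ha)).mul hφ) hφ, sum_mul_ims0 s h1 φ,
      rB_self hφ]
  have h3 : ∀ i, ∫ x, (∑ a ∈ s, gP i (F a) x) * ‖φ x‖ ^ 2 =
      ∑ a ∈ s, ∫ x, gP i (F a) x * ‖φ x‖ ^ 2 := fun i => by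
    simp only [Finset.sum_mul]
    exact integral_finsetSum _ fun a ha =>
      cont_integrable (((hF a ha).cont_gP i).mul (hφ.1.norm.pow 2))
  rw [← h2, Finset.sum_congr rfl fun a ha => ims_one (w := w) (S := S) (hF a ha) hφ,
    Finset.sum_sub_distrib, ← Finset.mul_sum, Finset.sum_congr rfl fun i _ => h3 i,
    Finset.sum_comm (s := S) (t := s)]
  ring

theorem nsq_family {ι : Type*} (s : Finset ι) {F : ι → Cf N L → ℝ}
    (hF : ∀ a ∈ s, Continuous (F a)) (h1 : ∀ x, ∑ a ∈ s, F a x ^ 2 = 1) (hφ : Continuous φ) :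
    ∑ a ∈ s, nsq (mul (F a) φ) = nsq φ := by
  unfold nsq
  rw [← integral_finsetSum]
  · refine integral_congr_ae (Eventually.of_forall fun x => ?_)
    simp only [mul, norm_mul, mul_pow, Complex.norm_real, Real.norm_eq_abs, sq_abs]
    rw [← Finset.sum_mul, h1 x, one_mul]
  · intro a ha
    exact cont_integrable
      ((((Complex.continuous_ofReal.comp (hF a ha)).mul hφ).norm).pow 2)

theorem quad_ims0 {b c : ℝ} (h : ∀ t : ℝ, 0 ≤ 2 * t * b + t ^ 2 * c) : b = 0 := by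
  by_contra hb
  have hc : 0 < |c| + 1 := by positivity
  have h1 := h (-b / (|c| + 1))
  have h2 : 2 * (-b / (|c| + 1)) * b + (-b / (|c| + 1)) ^ 2 * c =
      b ^ 2 * (c - 2 * (|c| + 1)) / (|c| + 1) ^ 2 := by
    field_simp
    ring
  rw [h2] at h1
  have h3 : b ^ 2 * (c - 2 * (|c| + 1)) < 0 :=
    mul_neg_of_pos_of_neg (by positivity) (by linarith [le_abs_self c, abs_nonneg c])
  have h4 := div_neg_of_neg_of_pos h3 (pow_pos hc 2)
  linarith

/-- Euler-Lagrange equation. -/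
theorem GS.el (hw : Continuous w) (h : GS w ψ) (hφ : IsC1 φ) :
    rB w univ φ ψ = ES w univ ψ * rip φ ψ := by
  have key : rB w univ ψ φ - ES w univ ψ * rip ψ φ = 0 := by
    refine quad_ims0 (c := ES w univ φ - ES w univ ψ * nsq φ) fun t => ?_
    have h1 := h.min (fun x => ψ x + (t : ℂ) * φ x) (h.c1.add (hφ.const_mul (t : ℂ)))
    rw [ES_add_smul hw h.c1 hφ, nsq_add_smul h.c1.1 hφ.1, h.nrm] at h1
    nlinarith [h1]
  rw [rB_comm, rip_comm]
  linarith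

/-- Ground state localisation formula. -/
theorem GS.ims (hw : Continuous w) (h : GS w ψ) {F : Cf N L → ℝ} (hF : IsC1 F) :
    ES w univ (mul F ψ) - ES w univ ψ * nsq (mul F ψ) =
      (1 / 2) * ∑ i, ∫ x, gP i F x * ‖ψ x‖ ^ 2 := by
  have h1 := h.el hw ((c1_sq_ims0 hF).mul h.c1)
  have h2 : rip (mul (fun x => F x ^ 2) ψ) ψ = nsq (mul F ψ) :=
    integral_congr_ae (Eventually.of_forall fun x => by
      simp only [mul]; rw [ip_pot_ims0])
  rw [ims_one hF h.c1, h2] at h1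
  linarith

end Pool.Agent.BoseTail
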