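import Pool.Agent.Lib.MP_dec75e_mp.Form

/-! The Jastrow upper bound. -/

open MeasureTheory Complex Finset Filter Function
open scoped ComplexConjugate Real Topology

noncomputable section

namespace Pool.Agent.BoseTail

section
variable {N : ℕ} {L : ℝ} [Fact (0 < L)]

/-- Pairs `i < j` inside `S`. -/
def prs (S : Finset (Fin N)) : Finset (Fin N × Fin N) := (S ×ˢ S).filter fun p => p.1 < p.2

/-- The Jastrow product over the pairs inside `S`. -/
def jas (J : T3 L → ℝ) (S : Finset (Fin N)) (x : Cf N L) : ℝ := ∏ p ∈ prs S, J (x p.1 - x p.2)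

/-- The oriented difference of two positions. -/
def df_jas0 (i j : Fin N) (x : Cf N L) : T3 L := if i < j then x i - x j else x j - x i

omit [Fact (0 < L)] in
theorem cont_df_jas0 (i j : Fin N) : Continuous (df_jas0 (L := L) i j) := by
  unfold df_jas0
  split_ifs
  · exact (continuous_apply i).sub (continuous_apply j)
  · exact (continuous_apply j).sub (continuous_apply i)

omit [Fact (0 < L)] in
theorem df_comm_jas0 {i j : Fin N} (h : i ≠ j) (x : Cf N L) : df_jas0 i j x = df_jas0 j i x := by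
  unfold df_jas0
  rcases lt_or_gt_of_ne h with h1 | h1
  · rw [if_pos h1, if_neg (not_lt.2 h1.le)]
  · rw [if_neg (not_lt.2 h1.le), if_pos h1]

omit [Fact (0 < L)] in
theorem df_update_jas0 {i j l : Fin N} (hi : i ≠ l) (hj : j ≠ l) (x : Cf N L) (y : T3 L) :
    df_jas0 i j (update x l y) = df_jas0 i j x := by
  unfold df_jas0
  rw [update_of_ne hi, update_of_ne hj]

theorem av_df_jas0 {u : T3 L → ℝ} (hu : Continuous u) {G : Cf N L → ℝ} (hG : Continuous G)
    {i j : Fin N} (hij : i ≠ j) (hi : ∀ x y, G (update x i y) = G x) :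
    ∫ x, u (df_jas0 i j x) * G x = (L ^ 3)⁻¹ * (∫ z, u z) * ∫ x, G x := by
  by_cases h : i < j
  · have := av_pair (𝕜 := ℝ) (BM.of_cont hu) (BM.of_cont hG) hij hi
    simpa [df_jas0, h] using this
  · have hu' : Continuous fun z : T3 L => u (-z) := hu.comp continuous_neg
    have := av_pair (𝕜 := ℝ) (BM.of_cont hu') (BM.of_cont hG) hij hi
    rw [integral_neg_eq_self u] at this
    simpa [df_jas0, h] using this

omit [Fact (0 < L)] in
theorem cont_jas_jas0 {J : T3 L → ℝ} (hc : Continuous J) (S : Finset (Fin N)) :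
    Continuous (jas J S) :=
  continuous_finsetProd _ fun p _ => hc.comp ((continuous_apply p.1).sub (continuous_apply p.2))

omit [Fact (0 < L)] in
theorem jas_nonneg_jas0 {J : T3 L → ℝ} (h0 : ∀ z, 0 ≤ J z) (S : Finset (Fin N)) (x : Cf N L) :
    0 ≤ jas J S x := Finset.prod_nonneg fun _ _ => h0 _

omit [Fact (0 < L)] in
theorem jas_update_jas0 (J : T3 L → ℝ) {S : Finset (Fin N)} {i : Fin N} (hi : i ∉ S)
    (x : Cf N L) (y : T3 L) : jas J S (update x i y) = jas J S x := by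
  refine Finset.prod_congr rfl fun p hp => ?_
  simp only [prs, mem_filter, mem_product] at hp
  have h1 : p.1 ≠ i := fun h => hi (h ▸ hp.1.1)
  have h2 : p.2 ≠ i := fun h => hi (h ▸ hp.1.2)
  rw [update_of_ne h1, update_of_ne h2]

omit [Fact (0 < L)] in
theorem jas_insert_eq_jas0 (J : T3 L → ℝ) {S : Finset (Fin N)} {i : Fin N} (hi : i ∉ S)
    (x : Cf N L) : jas J (insert i S) x = jas J S x * ∏ j ∈ S, J (df_jas0 i j x) := by
  have hset : prs (insert i S) =
      prs S ∪ S.image (fun j => if i < j then (i, j) else (j, i)) := by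
    ext ⟨a, b⟩
    simp only [prs, mem_filter, mem_product, mem_insert, mem_union, mem_image]
    constructor
    · rintro ⟨⟨ha | ha, hb | hb⟩, hab⟩
      · subst ha; subst hb; exact absurd hab (lt_irrefl _)
      · subst ha; exact Or.inr ⟨b, hb, by rw [if_pos hab]⟩
      · subst hb; exact Or.inr ⟨a, ha, by rw [if_neg (not_lt.2 hab.le)]⟩
      · exact Or.inl ⟨⟨ha, hb⟩, hab⟩
    · rintro (⟨⟨ha, hb⟩, hab⟩ | ⟨j, hj, h⟩)
      · exact ⟨⟨Or.inr ha, Or.inr hb⟩, hab⟩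
      · have hne : j ≠ i := fun h' => hi (h' ▸ hj)
        split_ifs at h with hij
        · obtain ⟨rfl, rfl⟩ := Prod.mk.inj h
          exact ⟨⟨Or.inl rfl, Or.inr hj⟩, hij⟩
        · obtain ⟨rfl, rfl⟩ := Prod.mk.inj h
          exact ⟨⟨Or.inr hj, Or.inl rfl⟩, lt_of_le_of_ne (not_lt.1 hij) hne⟩
  have hdisj : Disjoint (prs S) (S.image (fun j => if i < j then (i, j) else (j, i))) := by
    rw [Finset.disjoint_right]
    intro p hp hp'
    simp only [prs, mem_filter, mem_product] at hp'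
    obtain ⟨j, -, rfl⟩ := mem_image.1 hp
    split_ifs at hp' with hij
    · exact hi hp'.1.1
    · exact hi hp'.1.2
  have hinj : Set.InjOn (fun j : Fin N => if i < j then (i, j) else (j, i)) S := by
    intro a ha b hb h
    have ha' : a ≠ i := fun h' => hi (h' ▸ ha)
    have hb' : b ≠ i := fun h' => hi (h' ▸ hb)
    simp only at h
    split_ifs at h
    · exact (Prod.mk.inj h).2
    · exact absurd (Prod.mk.inj h).2 ha'
    · exact absurd (Prod.mk.inj h).1 ha'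
    · exact (Prod.mk.inj h).1
  unfold jas
  rw [hset, Finset.prod_union hdisj, Finset.prod_image hinj]
  congr 1
  refine Finset.prod_congr rfl fun j _ => ?_
  unfold df_jas0
  split_ifs <;> rfl

theorem one_sub_sum_le_jas0 {ι : Type*} (s : Finset ι) (a : ι → ℝ) (h0 : ∀ i, 0 ≤ a i)
    (h1 : ∀ i, a i ≤ 1) : 1 - ∑ i ∈ s, (1 - a i) ≤ ∏ i ∈ s, a i := by
  classical
  induction s using Finset.induction_on with
  | empty => simp
  | insert b s hb ih =>
    rw [Finset.sum_insert hb, Finset.prod_insert hb]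
    have hs : 0 ≤ ∑ i ∈ s, (1 - a i) := Finset.sum_nonneg fun i _ => sub_nonneg.2 (h1 i)
    have := mul_le_mul_of_nonneg_left ih (h0 b)
    nlinarith [h0 b, h1 b]

theorem card_mul_le_jas0 (S : Finset (Fin N)) : (S.card : ℝ) * (L ^ 3)⁻¹ ≤ rho N L := by
  have hL : 0 < L ^ 3 := pow_pos Lpos 3
  have : (S.card : ℝ) ≤ N := by
    have := Finset.card_le_univ S
    rw [Fintype.card_fin] at this
    exact_mod_cast this
  unfold rho
  rw [div_eq_mul_inv]
  exact mul_le_mul_of_nonneg_right this (inv_nonneg.2 hL.le)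

theorem int_nonneg_jas0 {J : T3 L → ℝ} (h0 : ∀ z, 0 ≤ J z) (h1 : ∀ z, J z ≤ 1) :
    0 ≤ ∫ z, (1 - J z ^ 2) :=
  integral_nonneg fun z => sub_nonneg.2 (pow_le_one₀ (h0 z) (h1 z))

/-- Adding a particle decreases the norm by a controlled factor. -/
theorem jas_insert {J : T3 L → ℝ} (hc : Continuous J) (h0 : ∀ z, 0 ≤ J z) (h1 : ∀ z, J z ≤ 1)
    {I : ℝ} (hI : ∫ z, (1 - J z ^ 2) ≤ I) {S : Finset (Fin N)} {i : Fin N} (hi : i ∉ S) :
    (1 - rho N L * I) * ∫ x, jas J S x ^ 2 ≤ ∫ x, jas J (insert i S) x ^ 2 := by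
  have hj := cont_jas_jas0 (N := N) hc S
  have hj2 : Continuous fun x => jas J S x ^ 2 := hj.pow 2
  have hu : Continuous fun z => 1 - J z ^ 2 := continuous_const.sub (hc.pow 2)
  have hA : 0 ≤ ∫ x, jas J S x ^ 2 := integral_nonneg fun x => sq_nonneg _
  have hI0 := int_nonneg_jas0 h0 h1
  have hterm : ∀ j ∈ S, ∫ x, (1 - J (df_jas0 i j x) ^ 2) * jas J S x ^ 2 =
      (L ^ 3)⁻¹ * (∫ z, (1 - J z ^ 2)) * ∫ x, jas J S x ^ 2 := fun j hjS =>
    av_df_jas0 hu hj2 (fun h => hi (h ▸ hjS)) fun x y => by rw [jas_update_jas0 J hi]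
  have hcont : ∀ j, Continuous fun x => (1 - J (df_jas0 i j x) ^ 2) * jas J S x ^ 2 := fun j =>
    (hu.comp (cont_df_jas0 i j)).mul hj2
  have hpt : ∀ x, jas J S x ^ 2 - ∑ j ∈ S, (1 - J (df_jas0 i j x) ^ 2) * jas J S x ^ 2 ≤
      jas J (insert i S) x ^ 2 := fun x => by
    rw [jas_insert_eq_jas0 J hi, mul_pow, ← Finset.prod_pow, ← Finset.sum_mul]
    have := one_sub_sum_le_jas0 S (fun j => J (df_jas0 i j x) ^ 2) (fun j => sq_nonneg _)
      fun j => pow_le_one₀ (h0 _) (h1 _)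
    nlinarith [mul_le_mul_of_nonneg_left this (sq_nonneg (jas J S x))]
  have hsum : Continuous fun x => ∑ j ∈ S, (1 - J (df_jas0 i j x) ^ 2) * jas J S x ^ 2 :=
    continuous_finsetSum _ fun j _ => hcont j
  have hmono : ∫ x, (jas J S x ^ 2 - ∑ j ∈ S, (1 - J (df_jas0 i j x) ^ 2) * jas J S x ^ 2) ≤
      ∫ x, jas J (insert i S) x ^ 2 := integral_mono (cont_integrable (hj2.sub hsum))
    (cont_integrable ((cont_jas_jas0 hc (insert i S)).pow 2)) hpt
  rw [integral_sub (cont_integrable hj2) (cont_integrable hsum),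
    integral_finsetSum _ fun j _ => cont_integrable (hcont j), Finset.sum_congr rfl hterm,
    Finset.sum_const, nsmul_eq_mul] at hmono
  refine le_trans ?_ hmono
  have hc' := card_mul_le_jas0 (L := L) S
  have hρ0 : 0 ≤ rho N L := le_trans (by have := pow_pos (Lpos (L := L)) 3; positivity) hc'
  have h2 : (S.card : ℝ) * (L ^ 3)⁻¹ * (∫ z, (1 - J z ^ 2)) ≤ rho N L * I :=
    (mul_le_mul_of_nonneg_right hc' hI0).trans (mul_le_mul_of_nonneg_left hI hρ0)
  nlinarith [mul_le_mul_of_nonneg_right h2 hA]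

theorem jas_pos_jas0 {J : T3 L → ℝ} (hc : Continuous J) (h0 : ∀ z, 0 ≤ J z) (h1 : ∀ z, J z ≤ 1)
    {I : ℝ} (hI : ∫ z, (1 - J z ^ 2) ≤ I) (hρ : rho N L * I ≤ 1 / 2) (S : Finset (Fin N)) :
    0 < ∫ x, jas J S x ^ 2 := by
  induction S using Finset.induction_on with
  | empty =>
    have : ∀ x : Cf N L, jas J (∅ : Finset (Fin N)) x ^ 2 = 1 := fun x => by simp [jas, prs]
    simp only [this, integral_const, smul_eq_mul, mul_one]
    exact vol_Cf_pos
  | insert i S hi ih =>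
    exact lt_of_lt_of_le (mul_pos (by linarith) ih) (jas_insert hc h0 h1 hI hi)

theorem jas_erase_jas0 {J : T3 L → ℝ} (hc : Continuous J) (h0 : ∀ z, 0 ≤ J z) (h1 : ∀ z, J z ≤ 1)
    {I : ℝ} (hI : ∫ z, (1 - J z ^ 2) ≤ I) {S : Finset (Fin N)} {i : Fin N} (hi : i ∈ S) :
    (1 - rho N L * I) * ∫ x, jas J (S.erase i) x ^ 2 ≤ ∫ x, jas J S x ^ 2 := by
  have := jas_insert hc h0 h1 hI (Finset.notMem_erase i S)
  rwa [Finset.insert_erase hi] at this

omit [Fact (0 < L)] in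
theorem jas_anti_jas0 {J : T3 L → ℝ} (h0 : ∀ z, 0 ≤ J z) (h1 : ∀ z, J z ≤ 1)
    {S : Finset (Fin N)} {i : Fin N} (hi : i ∈ S) (x : Cf N L) :
    jas J S x ^ 2 ≤ jas J (S.erase i) x ^ 2 := by
  have h := jas_insert_eq_jas0 J (Finset.notMem_erase i S) x
  rw [Finset.insert_erase hi] at h
  refine pow_le_pow_left₀ (jas_nonneg_jas0 h0 S x) ?_ 2
  rw [h]
  exact mul_le_of_le_one_right (jas_nonneg_jas0 h0 _ x)
    (Finset.prod_le_one (fun _ _ => h0 _) fun _ _ => h1 _)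

omit [Fact (0 < L)] in
theorem c1_jas_jas0 {J : T3 L → ℝ} (hJ : C1T J) (S : Finset (Fin N)) : IsC1 (jas J S) := by
  refine IsC1.prod (s := prs S) (f := fun p (x : Cf N L) => J (x p.1 - x p.2)) fun p hp => ?_
  simp only [prs, mem_filter] at hp
  exact hJ.pair hp.2.ne

omit [Fact (0 < L)] in
theorem c1_df_jas0 {J : T3 L → ℝ} (hJ : C1T J) {i j : Fin N} (hij : i ≠ j) :
    IsC1 (fun x : Cf N L => J (df_jas0 i j x)) := by
  unfold df_jas0
  split_ifs
  · exact hJ.pair hij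
  · exact hJ.pair hij.symm

omit [Fact (0 < L)] in
theorem abs_dd_df_jas0 {J : T3 L → ℝ} (hJ : C1T J) {i j : Fin N} (hij : i ≠ j) (c : Fin 3)
    (x : Cf N L) : |dd (dir i c) (fun x : Cf N L => J (df_jas0 i j x)) x| =
      |dd (d1 c) J (df_jas0 i j x)| := by
  unfold df_jas0
  split_ifs
  · rw [dd_pair (hJ c) hij, if_pos rfl]
  · rw [dd_pair (hJ c) hij.symm, if_neg hij, if_pos rfl, abs_neg]

theorem sq_sum_le_jas0 {ι : Type*} [DecidableEq ι] (s : Finset ι) (t a : ι → ℝ)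
    (h : ∀ j ∈ s, |t j| ≤ a j) :
    (∑ j ∈ s, t j) ^ 2 ≤ ∑ j ∈ s, a j ^ 2 + ∑ j ∈ s, ∑ l ∈ s.erase j, a j * a l := by
  have h1 : |∑ j ∈ s, t j| ≤ ∑ j ∈ s, a j :=
    (Finset.abs_sum_le_sum_abs _ _).trans (Finset.sum_le_sum h)
  have h2 : (∑ j ∈ s, t j) ^ 2 ≤ (∑ j ∈ s, a j) ^ 2 := by
    rw [← sq_abs]
    exact pow_le_pow_left₀ (abs_nonneg _) h1 2
  refine h2.trans (le_of_eq ?_)
  rw [sq, Finset.sum_mul_sum, ← Finset.sum_add_distrib]
  refine Finset.sum_congr rfl fun j hj => ?_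
  rw [← Finset.add_sum_erase s _ hj, sq]

omit [Fact (0 < L)] in
theorem gP_jas_jas0 {J : T3 L → ℝ} (hJ : C1T J) (h0 : ∀ z, 0 ≤ J z) (h1 : ∀ z, J z ≤ 1)
    (i : Fin N) (x : Cf N L) :
    gP i (fun x : Cf N L => (jas J univ x : ℂ)) x ≤
      ∑ j ∈ univ.erase i, gT J (df_jas0 i j x) * jas J (univ.erase i) x ^ 2 +
      ∑ j ∈ univ.erase i, ∑ l ∈ (univ.erase i).erase j,
        g1T J (df_jas0 i j x) * (g1T J (df_jas0 i l x) * jas J (univ.erase i) x ^ 2) := by
  set T : Finset (Fin N) := univ.erase i with hT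
  have hiT : i ∉ T := Finset.notMem_erase i _
  have hne : ∀ j ∈ T, i ≠ j := fun j hj h => hiT (h ▸ hj)
  have hfun : jas J (univ : Finset (Fin N)) =
      fun x : Cf N L => jas J T x * ∏ j ∈ T, J (df_jas0 i j x) := by
    funext y
    rw [← jas_insert_eq_jas0 J hiT, Finset.insert_erase (mem_univ i)]
  have hP : IsC1 (fun x : Cf N L => ∏ j ∈ T, J (df_jas0 i j x)) :=
    IsC1.prod fun j hj => c1_df_jas0 hJ (hne j hj)
  have hc : ∀ c, ‖dd (dir i c) (fun x : Cf N L => (jas J univ x : ℂ)) x‖ ^ 2 ≤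
      (∑ j ∈ T, |dd (d1 c) J (df_jas0 i j x)| ^ 2 + ∑ j ∈ T, ∑ l ∈ T.erase j,
        |dd (d1 c) J (df_jas0 i j x)| * |dd (d1 c) J (df_jas0 i l x)|) * jas J T x ^ 2 := by
    intro c
    rw [dd_ofReal ((c1_jas_jas0 hJ univ).2 i c), Complex.norm_real, Real.norm_eq_abs, sq_abs, hfun,
      dd_mul (dir_dir i c) ((c1_jas_jas0 hJ T).2 i c) (hP.2 i c)]
    have hz : dd (dir i c) (jas J T) x = 0 := by
      refine dd_of_indep (fun y s => ?_) x
      rw [← jas_update_jas0 J hiT (y + dir i c s) (y i), update_add_dir_self,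
        Function.update_eq_self]
    rw [hz, zero_mul, zero_add, mul_pow, mul_comm,
      dd_prod (dir_dir i c) (fun j hj => (c1_df_jas0 hJ (hne j hj)).2 i c)]
    refine mul_le_mul_of_nonneg_right (sq_sum_le_jas0 T _ _ fun j hj => ?_) (sq_nonneg _)
    rw [abs_mul, abs_dd_df_jas0 hJ (hne j hj)]
    refine mul_le_of_le_one_right (abs_nonneg _) ?_
    rw [abs_of_nonneg (Finset.prod_nonneg fun _ _ => h0 _)]
    exact Finset.prod_le_one (fun _ _ => h0 _) fun _ _ => h1 _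
  unfold gP
  refine (Finset.sum_le_sum fun c _ => hc c).trans ?_
  rw [← Finset.sum_mul, Finset.sum_add_distrib, add_mul]
  refine add_le_add (le_of_eq ?_) ?_
  · rw [Finset.sum_comm, Finset.sum_mul]
    rfl
  · rw [Finset.sum_comm, Finset.sum_mul]
    refine Finset.sum_le_sum fun j _ => ?_
    rw [Finset.sum_comm, Finset.sum_mul]
    refine Finset.sum_le_sum fun l _ => ?_
    rw [← mul_assoc]
    refine mul_le_mul_of_nonneg_right ?_ (sq_nonneg _)
    unfold g1T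
    rw [Finset.sum_mul]
    refine Finset.sum_le_sum fun c _ => ?_
    refine mul_le_mul_of_nonneg_left ?_ (abs_nonneg _)
    exact Finset.single_le_sum (f := fun c => ‖dd (d1 c) J (df_jas0 i l x)‖)
      (fun _ _ => norm_nonneg _) (mem_univ c)

omit [Fact (0 < L)] in
theorem US_jas_jas0 {w J : T3 L → ℝ} (hw0 : ∀ z, 0 ≤ w z) (hw' : ∀ z, w (-z) = w z)
    (h0 : ∀ z, 0 ≤ J z) (h1 : ∀ z, J z ≤ 1) (x : Cf N L) :
    US w univ x * ‖(jas J univ x : ℂ)‖ ^ 2 ≤ (1 / 2) * ∑ i, ∑ j ∈ univ.erase i,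
      w (df_jas0 i j x) * J (df_jas0 i j x) ^ 2 * jas J (univ.erase i) x ^ 2 := by
  unfold US
  rw [Complex.norm_real, Real.norm_eq_abs, sq_abs, mul_assoc, Finset.sum_mul]
  refine mul_le_mul_of_nonneg_left (Finset.sum_le_sum fun i _ => ?_) (by norm_num)
  rw [Finset.sum_mul]
  refine Finset.sum_le_sum fun j hj => ?_
  have hwd : w (x i - x j) = w (df_jas0 i j x) := by
    unfold df_jas0
    split_ifs
    · rfl
    · rw [← hw', neg_sub]
  rw [hwd, mul_assoc]
  refine mul_le_mul_of_nonneg_left ?_ (hw0 _)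
  have h := jas_insert_eq_jas0 J (Finset.notMem_erase i univ) x
  rw [Finset.insert_erase (mem_univ i), ← Finset.mul_prod_erase _ _ hj] at h
  rw [← mul_pow]
  refine pow_le_pow_left₀ (jas_nonneg_jas0 h0 _ x) ?_ 2
  rw [h, mul_comm (J _) (jas J (univ.erase i) x)]
  refine mul_le_mul_of_nonneg_left ?_ (jas_nonneg_jas0 h0 _ x)
  exact mul_le_of_le_one_right (h0 _) (Finset.prod_le_one (fun _ _ => h0 _) fun _ _ => h1 _)

/-- One-body sums. -/
theorem diag_jas0 {u J : T3 L → ℝ} (hu : Continuous u) (hu0 : ∀ z, 0 ≤ u z) (hc : Continuous J)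
    (h0 : ∀ z, 0 ≤ J z) (h1 : ∀ z, J z ≤ 1) {I : ℝ} (hI : ∫ z, (1 - J z ^ 2) ≤ I)
    (hρ : rho N L * I ≤ 1 / 2) (i : Fin N) :
    (1 - rho N L * I) ^ 3 *
      ∫ x, ∑ j ∈ univ.erase i, u (df_jas0 i j x) * jas J (univ.erase i) x ^ 2 ≤
      rho N L * (∫ z, u z) * ∫ x, jas J (univ : Finset (Fin N)) x ^ 2 := by
  have hj2 : Continuous fun x => jas J (univ.erase i) x ^ 2 := (cont_jas_jas0 hc _).pow 2
  have hcont : ∀ j, Continuous fun x => u (df_jas0 i j x) * jas J (univ.erase i) x ^ 2 :=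
    fun j => (hu.comp (cont_df_jas0 i j)).mul hj2
  have hterm : ∀ j ∈ univ.erase i, ∫ x, u (df_jas0 i j x) * jas J (univ.erase i) x ^ 2 =
      (L ^ 3)⁻¹ * (∫ z, u z) * ∫ x, jas J (univ.erase i) x ^ 2 := fun j hj =>
    av_df_jas0 hu hj2 (Finset.ne_of_mem_erase hj).symm fun x y => by
      rw [jas_update_jas0 J (Finset.notMem_erase i _)]
  rw [integral_finsetSum _ fun j _ => cont_integrable (hcont j), Finset.sum_congr rfl hterm,
    Finset.sum_const, nsmul_eq_mul]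
  have hc' := card_mul_le_jas0 (L := L) (univ.erase i)
  have hL : 0 < L ^ 3 := pow_pos Lpos 3
  have hρ0 : 0 ≤ rho N L := le_trans (by positivity) hc'
  have hI0 : 0 ≤ I := (int_nonneg_jas0 h0 h1).trans hI
  have hU : 0 ≤ ∫ z, u z := integral_nonneg hu0
  have hA : 0 ≤ ∫ x, jas J (univ.erase i) x ^ 2 := integral_nonneg fun x => sq_nonneg _
  have he := jas_erase_jas0 hc h0 h1 hI (mem_univ i)
  set q := 1 - rho N L * I with hq
  have hq0 : 0 ≤ q := by linarith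
  have hq1 : q ≤ 1 := by have := mul_nonneg hρ0 hI0; linarith
  have hq3 : q ^ 3 ≤ q := by
    calc q ^ 3 = q * q ^ 2 := by ring
      _ ≤ q := mul_le_of_le_one_right hq0 (pow_le_one₀ hq0 hq1)
  set A := ∫ x, jas J (univ.erase i) x ^ 2
  calc q ^ 3 * (((univ.erase i).card : ℝ) * ((L ^ 3)⁻¹ * (∫ z, u z) * A))
      = (((univ.erase i).card : ℝ) * (L ^ 3)⁻¹) * (∫ z, u z) * (q ^ 3 * A) := by ring
    _ ≤ rho N L * (∫ z, u z) * ∫ x, jas J (univ : Finset (Fin N)) x ^ 2 :=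
      mul_le_mul (mul_le_mul_of_nonneg_right hc' hU)
        ((mul_le_mul_of_nonneg_right hq3 hA).trans he) (by positivity) (by positivity)

/-- Two-body sums. -/
theorem off_jas0 {u J : T3 L → ℝ} (hu : Continuous u) (hu0 : ∀ z, 0 ≤ u z) (hc : Continuous J)
    (h0 : ∀ z, 0 ≤ J z) (h1 : ∀ z, J z ≤ 1) {I : ℝ} (hI : ∫ z, (1 - J z ^ 2) ≤ I)
    (hρ : rho N L * I ≤ 1 / 2) (i : Fin N) :
    (1 - rho N L * I) ^ 3 *
      ∫ x, ∑ j ∈ univ.erase i, ∑ l ∈ (univ.erase i).erase j,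
        u (df_jas0 i j x) * (u (df_jas0 i l x) * jas J (univ.erase i) x ^ 2) ≤
      rho N L ^ 2 * (∫ z, u z) ^ 2 * ∫ x, jas J (univ : Finset (Fin N)) x ^ 2 := by
  have hcont : ∀ (S : Finset (Fin N)) j l,
      Continuous fun x => u (df_jas0 i j x) * (u (df_jas0 i l x) * jas J S x ^ 2) :=
    fun S j l => (hu.comp (cont_df_jas0 i j)).mul
      ((hu.comp (cont_df_jas0 i l)).mul ((cont_jas_jas0 hc _).pow 2))
  have hL : 0 < L ^ 3 := pow_pos Lpos 3
  have hc' := card_mul_le_jas0 (N := N) (L := L)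
  have hρ0 : 0 ≤ rho N L := le_trans (by positivity) (hc' ∅)
  have hU : 0 ≤ ∫ z, u z := integral_nonneg hu0
  set q := 1 - rho N L * I with hq
  have hq0 : 0 ≤ q := by linarith
  set B := ∫ x, jas J (univ : Finset (Fin N)) x ^ 2 with hB
  have hB0 : 0 ≤ B := integral_nonneg fun x => sq_nonneg _
  have hterm : ∀ j ∈ univ.erase i, ∀ l ∈ (univ.erase i).erase j,
      q ^ 3 * ∫ x, u (df_jas0 i j x) * (u (df_jas0 i l x) * jas J (univ.erase i) x ^ 2) ≤
        (L ^ 3)⁻¹ * ((L ^ 3)⁻¹ * ((∫ z, u z) ^ 2 * B)) := by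
    intro j hj l hl
    have hji : j ≠ i := Finset.ne_of_mem_erase hj
    have hlj : l ≠ j := Finset.ne_of_mem_erase hl
    have hli : l ≠ i := Finset.ne_of_mem_erase (Finset.mem_of_mem_erase hl)
    set T := ((univ.erase i).erase j).erase l with hT
    have hjT : j ∉ T := fun h => Finset.notMem_erase j _ (Finset.mem_of_mem_erase h)
    have hlT : l ∉ T := Finset.notMem_erase l _
    have hT2 : Continuous fun x => jas J T x ^ 2 := (cont_jas_jas0 hc _).pow 2
    have h1' : ∫ x, u (df_jas0 i j x) * (u (df_jas0 i l x) * jas J (univ.erase i) x ^ 2) ≤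
        ∫ x, u (df_jas0 i j x) * (u (df_jas0 i l x) * jas J T x ^ 2) :=
      integral_mono (cont_integrable (hcont _ j l)) (cont_integrable (hcont _ j l)) fun x =>
        mul_le_mul_of_nonneg_left (mul_le_mul_of_nonneg_left
          ((jas_anti_jas0 h0 h1 hj x).trans (jas_anti_jas0 h0 h1 hl x)) (hu0 _)) (hu0 _)
    have h2 : ∫ x, u (df_jas0 i l x) * jas J T x ^ 2 =
        (L ^ 3)⁻¹ * (∫ z, u z) * ∫ x, jas J T x ^ 2 := by
      simp only [df_comm_jas0 hli.symm]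
      exact av_df_jas0 hu hT2 hli fun x y => by rw [jas_update_jas0 J hlT]
    have h3 : ∫ x, u (df_jas0 i j x) * (u (df_jas0 i l x) * jas J T x ^ 2) =
        (L ^ 3)⁻¹ * (∫ z, u z) * ∫ x, u (df_jas0 i l x) * jas J T x ^ 2 := by
      simp only [df_comm_jas0 hji.symm]
      exact av_df_jas0 (G := fun x => u (df_jas0 i l x) * jas J T x ^ 2) hu
        ((hu.comp (cont_df_jas0 i l)).mul hT2) hji fun x y => by
        rw [jas_update_jas0 J hjT, df_update_jas0 hji.symm hlj]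
    have e1 := jas_erase_jas0 hc h0 h1 hI (mem_univ i)
    have e2 := jas_erase_jas0 hc h0 h1 hI hj
    have e3 := jas_erase_jas0 hc h0 h1 hI hl
    rw [← hq] at e1 e2 e3
    have e4 : q ^ 3 * ∫ x, jas J T x ^ 2 ≤ B := by
      calc q ^ 3 * ∫ x, jas J T x ^ 2 = q * (q * (q * ∫ x, jas J T x ^ 2)) := by ring
        _ ≤ B := (mul_le_mul_of_nonneg_left ((mul_le_mul_of_nonneg_left e3 hq0).trans e2)
            hq0).trans e1
    refine (mul_le_mul_of_nonneg_left h1' (pow_nonneg hq0 3)).trans ?_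
    rw [h3, h2]
    calc q ^ 3 * ((L ^ 3)⁻¹ * (∫ z, u z) * ((L ^ 3)⁻¹ * (∫ z, u z) * ∫ x, jas J T x ^ 2))
        = (L ^ 3)⁻¹ * ((L ^ 3)⁻¹ * ((∫ z, u z) ^ 2 * (q ^ 3 * ∫ x, jas J T x ^ 2))) := by ring
      _ ≤ _ := by gcongr
  rw [integral_finsetSum _ fun j _ =>
    cont_integrable (continuous_finsetSum _ fun l _ => hcont _ j l), Finset.mul_sum]
  have hj : ∀ j ∈ univ.erase i, q ^ 3 * ∫ x, ∑ l ∈ (univ.erase i).erase j,
      u (df_jas0 i j x) * (u (df_jas0 i l x) * jas J (univ.erase i) x ^ 2) ≤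
      (L ^ 3)⁻¹ * (rho N L * ((∫ z, u z) ^ 2 * B)) := by
    intro j hj
    rw [integral_finsetSum _ fun l _ => cont_integrable (hcont _ j l), Finset.mul_sum]
    refine (Finset.sum_le_sum (hterm j hj)).trans ?_
    rw [Finset.sum_const, nsmul_eq_mul]
    calc (((univ.erase i).erase j).card : ℝ) * ((L ^ 3)⁻¹ * ((L ^ 3)⁻¹ * ((∫ z, u z) ^ 2 * B)))
        = (L ^ 3)⁻¹ * (((((univ.erase i).erase j).card : ℝ) * (L ^ 3)⁻¹) *
            ((∫ z, u z) ^ 2 * B)) := by ring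
      _ ≤ _ := by gcongr; exact hc' _
  refine (Finset.sum_le_sum hj).trans ?_
  rw [Finset.sum_const, nsmul_eq_mul]
  calc ((univ.erase i).card : ℝ) * ((L ^ 3)⁻¹ * (rho N L * ((∫ z, u z) ^ 2 * B)))
      = (((univ.erase i).card : ℝ) * (L ^ 3)⁻¹) * (rho N L * ((∫ z, u z) ^ 2 * B)) := by ring
    _ ≤ rho N L * (rho N L * ((∫ z, u z) ^ 2 * B)) := by gcongr; exact hc' _
    _ = _ := by ring

/-- Energy of the Jastrow function in terms of one-body integrals. -/
theorem jas_energy {w J : T3 L → ℝ} (hw : Continuous w) (hw0 : ∀ z, 0 ≤ w z)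
    (hw' : ∀ z, w (-z) = w z) (hJ : C1T J) (h0 : ∀ z, 0 ≤ J z) (h1 : ∀ z, J z ≤ 1)
    {I : ℝ} (hI : ∫ z, (1 - J z ^ 2) ≤ I) (hρ : rho N L * I ≤ 1 / 2) :
    IsC1 (fun x : Cf N L => (jas J univ x : ℂ)) ∧ 0 < nsq (fun x : Cf N L => (jas J univ x : ℂ)) ∧
    (1 - rho N L * I) ^ 3 * ES w univ (fun x : Cf N L => (jas J univ x : ℂ)) ≤
      N * (rho N L / 2 * (∫ z, gT J z + w z * J z ^ 2) + rho N L ^ 2 * 4 * (∫ z, g1T J z) ^ 2) *
        nsq (fun x : Cf N L => (jas J univ x : ℂ)) := by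
  have hc := hJ.cont
  have hC1 : IsC1 (fun x : Cf N L => (jas J univ x : ℂ)) := (c1_jas_jas0 hJ univ).ofReal
  have hn : nsq (fun x : Cf N L => (jas J univ x : ℂ)) =
      ∫ x, jas J (univ : Finset (Fin N)) x ^ 2 := by
    simp only [nsq, Complex.norm_real, Real.norm_eq_abs, sq_abs]
  refine ⟨hC1, hn ▸ jas_pos_jas0 hc h0 h1 hI hρ univ, ?_⟩
  rw [hn]
  set B := ∫ x, jas J (univ : Finset (Fin N)) x ^ 2 with hB
  have hB0 : 0 ≤ B := integral_nonneg fun x => sq_nonneg _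
  have hq0 : 0 ≤ (1 - rho N L * I) ^ 3 := pow_nonneg (by linarith) 3
  have hg0 : ∀ z, 0 ≤ gT J z := fun z => Finset.sum_nonneg fun _ _ => sq_nonneg _
  have hg1 : ∀ z, 0 ≤ g1T J z := fun z => Finset.sum_nonneg fun _ _ => norm_nonneg _
  have hwJ : Continuous fun z => w z * J z ^ 2 := hw.mul (hc.pow 2)
  have hwJ0 : ∀ z, 0 ≤ w z * J z ^ 2 := fun z => mul_nonneg (hw0 z) (sq_nonneg _)
  have hcd : ∀ {u : T3 L → ℝ}, Continuous u → ∀ i : Fin N, Continuous fun x : Cf N L =>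
      ∑ j ∈ univ.erase i, u (df_jas0 i j x) * jas J (univ.erase i) x ^ 2 := fun hu i =>
    continuous_finsetSum _ fun j _ =>
      (hu.comp (cont_df_jas0 i j)).mul ((cont_jas_jas0 hc _).pow 2)
  have hco : ∀ i : Fin N, Continuous fun x : Cf N L =>
      ∑ j ∈ univ.erase i, ∑ l ∈ (univ.erase i).erase j,
        g1T J (df_jas0 i j x) * (g1T J (df_jas0 i l x) * jas J (univ.erase i) x ^ 2) := fun i =>
    continuous_finsetSum _ fun j _ => continuous_finsetSum _ fun l _ =>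
      (hJ.cont_g1T.comp (cont_df_jas0 i j)).mul
        ((hJ.cont_g1T.comp (cont_df_jas0 i l)).mul ((cont_jas_jas0 hc _).pow 2))
  have hkin : ∀ i : Fin N, (1 - rho N L * I) ^ 3 *
      ∫ x, gP i (fun x : Cf N L => (jas J univ x : ℂ)) x ≤
      rho N L * (∫ z, gT J z) * B + rho N L ^ 2 * (∫ z, g1T J z) ^ 2 * B := by
    intro i
    have h : ∫ x, gP i (fun x : Cf N L => (jas J univ x : ℂ)) x ≤
        ∫ x, (∑ j ∈ univ.erase i, gT J (df_jas0 i j x) * jas J (univ.erase i) x ^ 2 +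
          ∑ j ∈ univ.erase i, ∑ l ∈ (univ.erase i).erase j,
            g1T J (df_jas0 i j x) * (g1T J (df_jas0 i l x) * jas J (univ.erase i) x ^ 2)) :=
      integral_mono (cont_integrable (hC1.cont_gP i))
        (cont_integrable ((hcd hJ.cont_gT i).add (hco i))) (gP_jas_jas0 hJ h0 h1 i)
    rw [integral_add (cont_integrable (hcd hJ.cont_gT i)) (cont_integrable (hco i))] at h
    refine (mul_le_mul_of_nonneg_left h hq0).trans ?_
    rw [mul_add]
    exact add_le_add (diag_jas0 hJ.cont_gT hg0 hc h0 h1 hI hρ i)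
      (off_jas0 hJ.cont_g1T hg1 hc h0 h1 hI hρ i)
  have hpot : (1 - rho N L * I) ^ 3 * ∫ x : Cf N L, US w univ x * ‖(jas J univ x : ℂ)‖ ^ 2 ≤
      (1 / 2) * (N * (rho N L * (∫ z, w z * J z ^ 2) * B)) := by
    have h : ∫ x : Cf N L, US w univ x * ‖(jas J univ x : ℂ)‖ ^ 2 ≤
        ∫ x : Cf N L, (1 / 2) * ∑ i, ∑ j ∈ univ.erase i,
          w (df_jas0 i j x) * J (df_jas0 i j x) ^ 2 * jas J (univ.erase i) x ^ 2 :=
      integral_mono (cont_integrable ((continuous_US hw univ).mul (hC1.1.norm.pow 2)))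
        (cont_integrable (continuous_const.mul (continuous_finsetSum _ fun i _ => hcd hwJ i)))
        (US_jas_jas0 hw0 hw' h0 h1)
    rw [integral_const_mul, integral_finsetSum _ fun i _ => cont_integrable (hcd hwJ i)] at h
    refine (mul_le_mul_of_nonneg_left h hq0).trans ?_
    rw [mul_left_comm, Finset.mul_sum]
    refine mul_le_mul_of_nonneg_left ?_ (by norm_num)
    refine (Finset.sum_le_sum fun i _ => diag_jas0 hwJ hwJ0 hc h0 h1 hI hρ i).trans ?_
    rw [Finset.sum_const, card_univ, Fintype.card_fin, nsmul_eq_mul]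
  have hkin' : (1 - rho N L * I) ^ 3 *
      ∑ i, ∫ x, gP i (fun x : Cf N L => (jas J univ x : ℂ)) x ≤
      N * (rho N L * (∫ z, gT J z) * B + rho N L ^ 2 * (∫ z, g1T J z) ^ 2 * B) := by
    rw [Finset.mul_sum]
    refine (Finset.sum_le_sum fun i _ => hkin i).trans ?_
    rw [Finset.sum_const, card_univ, Fintype.card_fin, nsmul_eq_mul]
  rw [integral_add (cont_integrable hJ.cont_gT) (cont_integrable hwJ)]
  unfold ES
  have hx : 0 ≤ (N : ℝ) * (rho N L ^ 2 * (∫ z, g1T J z) ^ 2 * B) := by positivity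
  nlinarith

end

end Pool.Agent.BoseTail
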