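import Pool.Agent.Lib.MP_dec75e_mp.Form

/-! Jensen's inequality for a nonnegative quadratic form. -/

open MeasureTheory Complex Finset Filter Function
open scoped ComplexConjugate Real Topology

noncomputable section

namespace Pool.Agent.BoseTail

variable {N : ℕ} {L : ℝ} [Fact (0 < L)]

/-- A continuous family of `C¹` functions. -/
structure Fam (φ : T3 L → Cf N L → ℂ) : Prop where
  c1 : ∀ z, IsC1 (φ z)
  cont : Continuous (uncurry φ)
  cdd : ∀ i c, Continuous (uncurry fun z x => dd (dir i c) (φ z) x)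

theorem cparam_jen {Φ : T3 L → Cf N L → ℝ} (hΦ : Continuous (uncurry Φ)) :
    Continuous fun z => ∫ x, Φ z x := by
  have := continuous_parametric_integral_of_continuous (μ := (volume : Measure (Cf N L))) hΦ
    isCompact_univ
  simpa using this

omit [Fact (0 < L)] in
theorem cont_swap_jen {F : Type*} [TopologicalSpace F] {Φ : T3 L → Cf N L → F}
    (hΦ : Continuous (uncurry Φ)) : Continuous (uncurry fun x z => Φ z x) :=
  hΦ.comp continuous_swap

theorem bm_mul_jen {U g : T3 L → ℝ} (hU : BM U) (hg : Continuous g) :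
    Integrable (fun z => U z * g z) :=
  (hU.mul (BM.of_cont hg)).integrable

theorem cont_ip_jen {Φ : T3 L → Cf N L → ℂ} (hΦ : Continuous (uncurry Φ)) {g : Cf N L → ℂ}
    (hg : Continuous g) {r : Cf N L → ℝ} (hr : Continuous r) :
    Continuous fun z => ∫ x, r x * ip (g x) (Φ z x) :=
  cparam_jen (Φ := fun z x => r x * ip (g x) (Φ z x))
    ((hr.comp continuous_snd).mul (continuous_ip (hg.comp continuous_snd) hΦ))

theorem avg_ip_jen {Φ : T3 L → Cf N L → ℂ} (hΦ : Continuous (uncurry Φ)) {U : T3 L → ℝ}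
    (hU : BM U) {g : Cf N L → ℂ} (hg : Continuous g) {r : Cf N L → ℝ} (hr : Continuous r) :
    ∫ z, U z * ∫ x, r x * ip (g x) (Φ z x) =
      ∫ x, r x * ip (g x) (∫ z, (U z : ℂ) * Φ z x) := by
  have hb : BM (uncurry fun (z : T3 L) (x : Cf N L) => U z * (r x * ip (g x) (Φ z x))) := by
    have h1 : BM (fun p : T3 L × Cf N L => U p.1) := hU.comp measurable_fst
    have h2 : BM (fun p : T3 L × Cf N L => r p.2 * ip (g p.2) (Φ p.1 p.2)) :=
      BM.of_cont ((hr.comp continuous_snd).mul (continuous_ip (hg.comp continuous_snd) hΦ))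
    exact h1.mul h2
  calc ∫ z, U z * ∫ x, r x * ip (g x) (Φ z x)
      = ∫ z, ∫ x, U z * (r x * ip (g x) (Φ z x)) := by
        simp only [integral_const_mul]
    _ = ∫ x, ∫ z, U z * (r x * ip (g x) (Φ z x)) := hb.swap
    _ = ∫ x, r x * ip (g x) (∫ z, (U z : ℂ) * Φ z x) := by
        refine integral_congr_ae (Eventually.of_forall fun x => ?_)
        have hx : BM (fun z => (U z : ℂ) * Φ z x) :=
          hU.ofReal.mul (BM.of_cont (hΦ.comp (Continuous.prodMk_left x)))
        simp only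
        rw [← integral_ip_right hx, ← integral_const_mul]
        refine integral_congr_ae (Eventually.of_forall fun z => ?_)
        simp only
        rw [ip_ofReal_right]
        ring

omit [Fact (0 < L)] in
theorem cont_gP_jen {φ : T3 L → Cf N L → ℂ} (h : Fam φ) (i : Fin N) :
    Continuous (uncurry fun z x => gP i (φ z) x) :=
  continuous_finsetSum (f := fun c (p : T3 L × Cf N L) => ‖dd (dir i c) (φ p.1) p.2‖ ^ 2) univ
    fun c _ => (h.cdd i c).norm.pow 2

theorem Fam.avg_c1 {φ : T3 L → Cf N L → ℂ} (h : Fam φ) {U : T3 L → ℝ} (hU : BM U) :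
    IsC1 (fun x => ∫ z, (U z : ℂ) * φ z x) ∧
      ∀ i c x, dd (dir i c) (fun x => ∫ z, (U z : ℂ) * φ z x) x =
        ∫ z, (U z : ℂ) * dd (dir i c) (φ z) x := by
  have hκ : BM (fun z => (U z : ℂ)) := hU.ofReal
  have hΦ : Continuous (uncurry fun x z => φ z x) := cont_swap_jen h.cont
  refine ⟨⟨continuous_param hκ hΦ, fun i c => ?_⟩, fun i c x => ?_⟩
  · exact D1.param (dir_dir i c) hκ hΦ (cont_swap_jen (h.cdd i c))
      fun x z => ((h.c1 z).2 i c).hd x
  · exact dd_eq (hd_param (dir_dir i c) hκ hΦ (cont_swap_jen (h.cdd i c))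
      (fun x z => ((h.c1 z).2 i c).hd x) x)

theorem Fam.continuous_ES {φ : T3 L → Cf N L → ℂ} (h : Fam φ) {w : T3 L → ℝ}
    (hw : Continuous w) (S : Finset (Fin N)) :
    Continuous (fun z => ES w S (φ z)) ∧ Continuous (fun z => nsq (φ z)) ∧
      ∀ i, Continuous fun z => ∫ x, gP i (φ z) x := by
  have h3 : ∀ i, Continuous fun z => ∫ x, gP i (φ z) x := fun i =>
    cparam_jen (cont_gP_jen h i)
  refine ⟨?_, ?_, h3⟩
  · refine (continuous_const.mul (continuous_finsetSum _ fun i _ => h3 i)).add ?_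
    exact cparam_jen (Φ := fun z x => US w S x * ‖φ z x‖ ^ 2)
      (((continuous_US hw S).comp continuous_snd).mul (h.cont.norm.pow 2))
  · exact cparam_jen (Φ := fun z x => ‖φ z x‖ ^ 2) (h.cont.norm.pow 2)

theorem rip_avg_jen {φ : T3 L → Cf N L → ℂ} (h : Fam φ) {U : T3 L → ℝ} (hU : BM U)
    {g : Cf N L → ℂ} (hg : Continuous g) :
    Continuous (fun z => rip g (φ z)) ∧
      ∫ z, U z * rip g (φ z) = rip g (fun x => ∫ z, (U z : ℂ) * φ z x) := by
  constructor
  · simpa [rip] using cont_ip_jen h.cont hg (r := fun _ => 1) continuous_const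
  · simpa [rip] using avg_ip_jen h.cont hU hg (r := fun _ => 1) continuous_const

theorem rT_avg_jen {φ : T3 L → Cf N L → ℂ} (h : Fam φ) {U : T3 L → ℝ} (hU : BM U)
    {g : Cf N L → ℂ} (hg : IsC1 g) (i : Fin N) :
    Continuous (fun z => rT i g (φ z)) ∧
      ∫ z, U z * rT i g (φ z) = rT i g (fun x => ∫ z, (U z : ℂ) * φ z x) := by
  have hc : ∀ c, Continuous fun z => ∫ x, ip (dd (dir i c) g x) (dd (dir i c) (φ z) x) := by
    intro c
    simpa using cont_ip_jen (h.cdd i c) (hg.2 i c).cdd (r := fun _ => 1) continuous_const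
  have ha : ∀ c, ∫ z, U z * ∫ x, ip (dd (dir i c) g x) (dd (dir i c) (φ z) x) =
      ∫ x, ip (dd (dir i c) g x) (dd (dir i c) (fun x => ∫ z, (U z : ℂ) * φ z x) x) := by
    intro c
    have := avg_ip_jen (h.cdd i c) hU (hg.2 i c).cdd (r := fun _ => 1) continuous_const
    simp only [one_mul] at this
    simp only [(h.avg_c1 hU).2]
    exact this
  refine ⟨continuous_const.mul (continuous_finsetSum _ fun c _ => hc c), ?_⟩
  simp only [rT]
  rw [← Finset.sum_congr rfl fun c _ => ha c,
    ← integral_finsetSum _ fun c _ => bm_mul_jen hU (hc c), ← integral_const_mul]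
  refine integral_congr_ae (Eventually.of_forall fun z => ?_)
  simp only
  rw [← Finset.mul_sum]
  ring

theorem rB_avg_jen {φ : T3 L → Cf N L → ℂ} (h : Fam φ) {U : T3 L → ℝ} (hU : BM U)
    {w : T3 L → ℝ} (hw : Continuous w) (S : Finset (Fin N)) {g : Cf N L → ℂ} (hg : IsC1 g) :
    Continuous (fun z => rB w S g (φ z)) ∧
      ∫ z, U z * rB w S g (φ z) = rB w S g (fun x => ∫ z, (U z : ℂ) * φ z x) := by
  have hc := cont_ip_jen h.cont hg.1 (continuous_US hw S)
  have ha := avg_ip_jen h.cont hU hg.1 (continuous_US hw S)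
  have hs : Continuous fun z => ∑ i ∈ S, rT i g (φ z) :=
    continuous_finsetSum _ fun i _ => (rT_avg_jen h hU hg i).1
  refine ⟨hs.add hc, ?_⟩
  simp only [rB]
  rw [← ha, ← Finset.sum_congr rfl fun i _ => (rT_avg_jen h hU hg i).2,
    ← integral_finsetSum _ fun i _ => bm_mul_jen hU (rT_avg_jen h hU hg i).1,
    ← integral_add (integrable_finsetSum _ fun i _ => bm_mul_jen hU (rT_avg_jen h hU hg i).1)
      (bm_mul_jen hU hc)]
  refine integral_congr_ae (Eventually.of_forall fun z => ?_)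
  simp only
  rw [← Finset.mul_sum]
  ring

theorem jensen_Q {φ : T3 L → Cf N L → ℂ} (h : Fam φ) {U : T3 L → ℝ} (hU : BM U)
    (hU0 : ∀ z, 0 ≤ U z) (hU1 : ∫ z, U z = 1) {w : T3 L → ℝ} (hw : Continuous w)
    (S : Finset (Fin N)) {l : ℝ} (hl : ∀ χ : Cf N L → ℂ, IsC1 χ → l * nsq χ ≤ ES w S χ) :
    ES w S (fun x => ∫ z, (U z : ℂ) * φ z x) - l * nsq (fun x => ∫ z, (U z : ℂ) * φ z x) ≤
      ∫ z, U z * (ES w S (φ z) - l * nsq (φ z)) := by
  obtain ⟨hf, -⟩ := h.avg_c1 hU
  obtain ⟨hB, hB'⟩ := rB_avg_jen h hU hw S hf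
  obtain ⟨hI, hI'⟩ := rip_avg_jen h hU hf.1
  obtain ⟨hE, hn, -⟩ := h.continuous_ES hw S
  set f : Cf N L → ℂ := fun x => ∫ z, (U z : ℂ) * φ z x with hfdef
  rw [rB_self hf] at hB'
  rw [rip_self] at hI'
  have key : ∀ z, 2 * rB w S f (φ z) - 2 * l * rip f (φ z) - (ES w S f - l * nsq f) ≤
      ES w S (φ z) - l * nsq (φ z) := by
    intro z
    have h1 := hl _ (hf.add ((h.c1 z).const_mul ((-1 : ℝ) : ℂ)))
    rw [ES_add_smul hw hf (h.c1 z), nsq_add_smul hf.1 (h.c1 z).1] at h1
    nlinarith [h1]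
  have hi1 := bm_mul_jen hU hB
  have hi2 := bm_mul_jen hU hI
  have hi3 : Integrable U := hU.integrable
  calc ES w S f - l * nsq f
      = 2 * (∫ z, U z * rB w S f (φ z)) - 2 * l * (∫ z, U z * rip f (φ z)) -
          (ES w S f - l * nsq f) * ∫ z, U z := by rw [hB', hI', hU1]; ring
    _ = ∫ z, (2 * (U z * rB w S f (φ z)) - 2 * l * (U z * rip f (φ z)) -
          (ES w S f - l * nsq f) * U z) := by
        have hi4 : Integrable fun z =>
            2 * (U z * rB w S f (φ z)) - 2 * l * (U z * rip f (φ z)) :=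
          (hi1.const_mul _).sub (hi2.const_mul _)
        rw [integral_sub hi4 (hi3.const_mul _),
          integral_sub (hi1.const_mul _) (hi2.const_mul _), integral_const_mul,
          integral_const_mul, integral_const_mul]
    _ ≤ ∫ z, U z * (ES w S (φ z) - l * nsq (φ z)) := by
        refine integral_mono (((hi1.const_mul _).sub (hi2.const_mul _)).sub (hi3.const_mul _))
          (bm_mul_jen hU (hE.sub (continuous_const.mul hn))) fun z => ?_
        have := mul_le_mul_of_nonneg_left (key z) (hU0 z)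
        simp only
        linarith [this]

theorem jensen_gP {φ : T3 L → Cf N L → ℂ} (h : Fam φ) {U : T3 L → ℝ} (hU : BM U)
    (hU0 : ∀ z, 0 ≤ U z) (hU1 : ∫ z, U z = 1) (i : Fin N) :
    ∫ x, gP i (fun x => ∫ z, (U z : ℂ) * φ z x) x ≤ ∫ z, U z * ∫ x, gP i (φ z) x := by
  obtain ⟨hf, hd⟩ := h.avg_c1 hU
  have hg : Continuous (uncurry fun z x => gP i (φ z) x) := cont_gP_jen h i
  have hb : BM (uncurry fun (z : T3 L) (x : Cf N L) => U z * gP i (φ z) x) := by
    have h1 : BM (fun p : T3 L × Cf N L => U p.1) := hU.comp measurable_fst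
    exact h1.mul (BM.of_cont hg)
  have hb' : BM (uncurry fun (x : Cf N L) (z : T3 L) => U z * gP i (φ z) x) :=
    hb.comp measurable_swap
  have habs : ∀ z, |U z| = U z := fun z => abs_of_nonneg (hU0 z)
  calc ∫ x, gP i (fun x => ∫ z, (U z : ℂ) * φ z x) x
      ≤ ∫ x, ∫ z, U z * gP i (φ z) x := by
        refine integral_mono (cont_integrable (hf.cont_gP i)) hb'.integral_right.integrable
          fun x => ?_
        have hc : ∀ c, Continuous fun z => dd (dir i c) (φ z) x := fun c =>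
          (h.cdd i c).comp (Continuous.prodMk_left x)
        simp only [gP, hd, Finset.mul_sum]
        have hi : ∀ c, Integrable fun z => U z * ‖dd (dir i c) (φ z) x‖ ^ 2 := fun c =>
          bm_mul_jen hU ((hc c).norm.pow 2)
        rw [integral_finsetSum _ fun c _ => hi c]
        refine Finset.sum_le_sum fun c _ => ?_
        have := jensen_wt (μ := volume) hU (BM.of_cont (hc c))
        simpa only [habs, hU1, one_mul] using this
    _ = ∫ z, ∫ x, U z * gP i (φ z) x := hb.swap.symm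
    _ = ∫ z, U z * ∫ x, gP i (φ z) x := by simp only [integral_const_mul]

end Pool.Agent.BoseTail
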