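import Pool.Agent.Lib.MP_dec75e_mp.Per
import Pool.Agent.Lib.MP_dec75e_mp.Fou

/-! The oscillating window. -/

open MeasureTheory Complex Finset Filter Function
open scoped ComplexConjugate Real Topology

noncomputable section

namespace Pool.Agent.BoseTail

/-- The window on Euclidean space. -/
def wk (g : E3 → ℝ) (δ : ℝ) (k₀ : E3) (x : E3) : ℂ :=
  ((δ ^ 3 * g (δ • x) : ℝ) : ℂ) * cexp (I * (inner ℝ k₀ x : ℝ))

section
variable {g : E3 → ℝ} {δ : ℝ} {k₀ : E3}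

theorem norm_wk (hδ : 0 < δ) (x : E3) : ‖wk g δ k₀ x‖ = δ ^ 3 * |g (δ • x)| := by
  unfold wk
  rw [norm_mul, Complex.norm_real, mul_comm I, Complex.norm_exp_ofReal_mul_I, mul_one,
    Real.norm_eq_abs, abs_mul, abs_of_pos (pow_pos hδ 3)]

theorem wk_out (hδ : 0 < δ) (hg : ∀ z, 1 < ‖z‖ → g z = 0) (x : E3) (hx : 1 / δ < ‖x‖) :
    wk g δ k₀ x = 0 := by
  have h1 : 1 < ‖δ • x‖ := by
    rw [norm_smul, Real.norm_eq_abs, abs_of_pos hδ]
    rw [div_lt_iff₀ hδ] at hx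
    linarith
  simp [wk, hg _ h1]

theorem contDiff_wk {n : ℕ} (hg : ContDiff ℝ n g) : ContDiff ℝ n (wk g δ k₀) := by
  have h1 : ContDiff ℝ n fun x : E3 => δ ^ 3 * g (δ • x) :=
    contDiff_const.mul (hg.comp (contDiff_id.const_smul δ))
  have h2 : ContDiff ℝ n fun x : E3 => (inner ℝ k₀ x : ℝ) := contDiff_const.inner ℝ contDiff_id
  have h3 : ContDiff ℝ n fun x : E3 => ((δ ^ 3 * g (δ • x) : ℝ) : ℂ) :=
    Complex.ofRealCLM.contDiff.comp h1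
  have h4 : ContDiff ℝ n fun x : E3 => ((inner ℝ k₀ x : ℝ) : ℂ) :=
    Complex.ofRealCLM.contDiff.comp h2
  exact h3.mul (contDiff_const.mul h4).cexp

theorem smul_add_e3_kern0 (δ : ℝ) (x : E3) (c : Fin 3) (s : ℝ) :
    δ • (x + e3 c s) = δ • x + e3 c (δ * s) := by
  ext i
  by_cases h : i = c
  · subst h; simp [e3, mul_add]
  · simp [e3, h]

theorem inner_add_e3_kern0 (k x : E3) (c : Fin 3) (s : ℝ) :
    (inner ℝ k (x + e3 c s) : ℝ) = inner ℝ k x + k c * s := by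
  rw [inner_add_right, e3, EuclideanSpace.inner_single_right]
  simp [mul_comm]

theorem dd_wk (hg : ContDiff ℝ 1 g) (c : Fin 3) (x : E3) :
    dd (e3 c) (wk g δ k₀) x = δ * wk (dd (e3 c) g) δ k₀ x + I * k₀ c * wk g δ k₀ x := by
  have h0 : HasDerivAt (fun t : ℝ => g (δ • x + e3 c t)) (dd (e3 c) g (δ • x)) (δ * 0) := by
    rw [mul_zero]
    exact (D1_of_contDiff hg c).hd (δ • x)
  have h1 : HasDerivAt (fun s : ℝ => g (δ • x + e3 c (δ * s))) (dd (e3 c) g (δ • x) * (δ * 1)) 0 :=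
    h0.comp (0 : ℝ) ((hasDerivAt_id (0 : ℝ)).const_mul δ)
  have h2 := (h1.const_mul (δ ^ 3)).ofReal_comp
  have h3 : HasDerivAt (fun s : ℝ => (inner ℝ k₀ x : ℝ) + k₀ c * s) (k₀ c * 1) 0 :=
    ((hasDerivAt_id (0 : ℝ)).const_mul (k₀ c)).const_add _
  have h4 := (h3.ofReal_comp.const_mul I).cexp
  have h5 := h2.mul h4
  have h6 : (fun s : ℝ => wk g δ k₀ (x + e3 c s)) =
      (fun y : ℝ => ((δ ^ 3 * g (δ • x + e3 c (δ * y)) : ℝ) : ℂ)) *
        fun y : ℝ => cexp (I * ((inner ℝ k₀ x + k₀ c * y : ℝ) : ℂ)) := by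
    funext s
    simp only [wk, smul_add_e3_kern0, inner_add_e3_kern0, Pi.mul_apply]
  unfold dd
  rw [h6, h5.deriv]
  simp only [wk, mul_zero, add_zero, (dir_e3 c).zero, mul_one, dd]
  push_cast
  ring

theorem D1_wk_kern0 (hg : ContDiff ℝ 1 g) (c : Fin 3) : D1 (e3 c) (wk g δ k₀) :=
  D1_of_contDiff (contDiff_wk (n := 1) hg) c

theorem lapE_wk (hg : ContDiff ℝ 2 g) (x : E3) :
    lapE (wk g δ k₀) x = ∑ c, (δ ^ 2 * wk (dd (e3 c) (dd (e3 c) g)) δ k₀ x +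
      2 * I * δ * k₀ c * wk (dd (e3 c) g) δ k₀ x - k₀ c ^ 2 * wk g δ k₀ x) := by
  have hg1 : ContDiff ℝ 1 g := hg.of_le (by norm_num)
  refine Finset.sum_congr rfl fun c _ => ?_
  have hd : ContDiff ℝ 1 (dd (e3 c) g) := contDiff_dd (n := 1) hg c
  have e : dd (e3 c) (wk g δ k₀) =
      fun x => δ * wk (dd (e3 c) g) δ k₀ x + I * k₀ c * wk g δ k₀ x := funext (dd_wk hg1 c)
  rw [e, dd_add ((D1_wk_kern0 hd c).const_mul _) ((D1_wk_kern0 hg1 c).const_mul _),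
    dd_const_mul _ (D1_wk_kern0 hd c), dd_const_mul _ (D1_wk_kern0 hg1 c), dd_wk hd, dd_wk hg1]
  linear_combination ((k₀ c : ℂ) ^ 2 * wk g δ k₀ x) * I_mul_I

theorem dd_lapE_wk (hg : ContDiff ℝ 3 g) (c : Fin 3) (x : E3) :
    dd (e3 c) (lapE (wk g δ k₀)) x - I * k₀ c * lapE (wk g δ k₀) x =
      δ * lapE (wk (dd (e3 c) g) δ k₀) x := by
  have hg2 : ContDiff ℝ 2 g := hg.of_le (by norm_num)
  have hg1 : ContDiff ℝ 1 g := hg.of_le (by norm_num)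
  have hd2 : ∀ d, ContDiff ℝ 2 (dd (e3 d) g) := fun d => contDiff_dd (n := 2) hg d
  have hd1 : ∀ d, ContDiff ℝ 1 (dd (e3 d) g) := fun d => (hd2 d).of_le (by norm_num)
  have hdd : ∀ d, ContDiff ℝ 1 (dd (e3 d) (dd (e3 d) g)) := fun d => contDiff_dd (n := 1) (hd2 d) d
  have e : lapE (wk g δ k₀) = fun x => ∑ d, (δ ^ 2 * wk (dd (e3 d) (dd (e3 d) g)) δ k₀ x +
      2 * I * δ * k₀ d * wk (dd (e3 d) g) δ k₀ x - k₀ d ^ 2 * wk g δ k₀ x) :=
    funext (lapE_wk hg2)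
  rw [lapE_wk (hd2 c), lapE_wk hg2, e, dd_sum (fun d _ =>
    (((D1_wk_kern0 (hdd d) c).const_mul _).add ((D1_wk_kern0 (hd1 d) c).const_mul _)).sub
      ((D1_wk_kern0 hg1 c).const_mul _)), Finset.mul_sum, Finset.mul_sum, ← Finset.sum_sub_distrib]
  refine Finset.sum_congr rfl fun d _ => ?_
  rw [dd_sub (((D1_wk_kern0 (hdd d) c).const_mul _).add ((D1_wk_kern0 (hd1 d) c).const_mul _))
      ((D1_wk_kern0 hg1 c).const_mul _),
    dd_add ((D1_wk_kern0 (hdd d) c).const_mul _) ((D1_wk_kern0 (hd1 d) c).const_mul _),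
    dd_const_mul _ (D1_wk_kern0 (hdd d) c), dd_const_mul _ (D1_wk_kern0 (hd1 d) c),
    dd_const_mul _ (D1_wk_kern0 hg1 c), dd_wk (hdd d), dd_wk (hd1 d), dd_wk hg1,
    dd_comm (hd2 d) c d, dd_comm hg2 c d]
  ring

variable {L : ℝ} [Fact (0 < L)]

theorem hat_wk (hδ : 0 < δ) (hg : ∀ z, 1 < ‖z‖ → g z = 0) (hL : 2 / δ < L) (n : Fin 3 → ℤ) :
    ‖hat (fun z : T3 L => wk g δ k₀ (rep z)) n‖ ^ 2 = wt g k₀ δ (kvec L n) := by
  have hL' : 2 * (1 / δ) < L := by rw [mul_one_div]; exact hL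
  have h1 : hat (fun z : T3 L => wk g δ k₀ (rep z)) n =
      ∫ x : E3, conj (cexp (I * (inner ℝ (kvec L n) x : ℝ))) * wk g δ k₀ x := by
    rw [← integral_per (L := L) (s := 1 / δ)
      (u := fun x : E3 => conj (cexp (I * (inner ℝ (kvec L n) x : ℝ))) * wk g δ k₀ x)
      (fun x hx => by rw [wk_out hδ hg x hx, mul_zero]) hL']
    simp only [hat, wave_eq]
  have h2 : ∀ x : E3, conj (cexp (I * (inner ℝ (kvec L n) x : ℝ))) * wk g δ k₀ x =
      (δ ^ 3 : ℝ) • (fun z : E3 => (g z : ℂ) *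
        cexp (-I * (inner ℝ (δ⁻¹ • (kvec L n - k₀)) z : ℝ))) (δ • x) := by
    intro x
    have e1 : (inner ℝ (δ⁻¹ • (kvec L n - k₀)) (δ • x) : ℝ) =
        inner ℝ (kvec L n) x - inner ℝ k₀ x := by
      rw [real_inner_smul_left, real_inner_smul_right, inner_sub_left, ← mul_assoc,
        inv_mul_cancel₀ hδ.ne', one_mul]
    have e2 : cexp (-I * ((inner ℝ (kvec L n) x - inner ℝ k₀ x : ℝ) : ℂ)) =
        conj (cexp (I * (inner ℝ (kvec L n) x : ℝ))) * cexp (I * (inner ℝ k₀ x : ℝ)) := by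
      rw [← Complex.exp_conj, ← Complex.exp_add, map_mul, Complex.conj_I, Complex.conj_ofReal]
      congr 1
      push_cast
      ring
    simp only [wk, e1, e2, Complex.real_smul]
    push_cast
    ring
  rw [h1]
  simp only [h2]
  rw [integral_smul, Measure.integral_comp_smul volume (fun z : E3 => (g z : ℂ) *
        cexp (-I * (inner ℝ (δ⁻¹ • (kvec L n - k₀)) z : ℝ))) δ, finrank_euclideanSpace_fin,
    abs_of_pos (inv_pos.2 (pow_pos hδ 3)), smul_smul, mul_inv_cancel₀ (pow_pos hδ 3).ne', one_smul]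
  rfl

theorem integral_wk_sq (hδ : 0 < δ) (hg : ∀ z, 1 < ‖z‖ → g z = 0) (hL : 2 / δ < L) :
    ∫ z : T3 L, ‖wk g δ k₀ (rep z)‖ ^ 2 = δ ^ 3 * ∫ x, g x ^ 2 := by
  have hL' : 2 * (1 / δ) < L := by rw [mul_one_div]; exact hL
  rw [integral_per (L := L) (s := 1 / δ) (u := fun x : E3 => ‖wk g δ k₀ x‖ ^ 2)
      (fun x hx => by rw [wk_out hδ hg x hx]; simp) hL']
  have h2 : ∀ x : E3, ‖wk g δ k₀ x‖ ^ 2 = (δ ^ 3 * δ ^ 3) * (fun z : E3 => g z ^ 2) (δ • x) := by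
    intro x
    rw [norm_wk hδ, mul_pow, sq_abs]
    ring
  simp only [h2]
  rw [integral_const_mul, Measure.integral_comp_smul volume (fun z : E3 => g z ^ 2) δ,
    finrank_euclideanSpace_fin, abs_of_pos (inv_pos.2 (pow_pos hδ 3)), smul_eq_mul]
  field_simp

theorem Win.integral_norm_le {H : ℝ} {κ : T3 L → ℂ} (h : Win H δ κ) (hδ : 0 < δ) :
    ∫ z, ‖κ z‖ ≤ 8 * H := by
  have h0 : 0 ≤ H * δ ^ 3 := (norm_nonneg _).trans (h.le 0)
  have h1 := integral_le_of_out (u := fun z => ‖κ z‖) (BM.of_cont (h.c2 0).1.cont.norm)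
    (s := 1 / δ) (by positivity) h.le h0 (fun z hz => by rw [h.out z hz, norm_zero])
  refine h1.trans (le_of_eq ?_)
  field_simp
  ring

end

end Pool.Agent.BoseTail
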