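import Pool.Agent.Lib.MP_dec75e_mp.Dens
import Pool.Agent.Lib.MP_dec75e_mp.Bump

/-! Kinetic energy of a particle weighted by the number of its neighbours. -/

open MeasureTheory Complex Finset Filter Function
open scoped ComplexConjugate Real Topology

noncomputable section

namespace Pool.Agent.BoseTail

/-- The a priori bounds with constant `C`. -/
structure AP {N : ℕ} {L : ℝ} [Fact (0 < L)] (C : ℝ) (ψ : Cf N L → ℂ) : Prop where
  db : DB C ψ
  kin : ∀ o, ∫ x, gP o ψ x ≤ C * rho N L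
  k2 : ∀ o s, 0 < s → (12 * s) ^ 2 * rho N L ≤ 1 →
    K2 ψ o s ≤ C * (rho N L + rho N L ^ 2 * s ^ 4)
  /-- second moment of the number of neighbours -/
  n2 : ∀ o s, 0 < s → (4 * s) ^ 2 * rho N L ≤ 1 →
    ∫ x, (∑ j ∈ univ.erase o, nb s (x o - x j)) ^ 2 * ‖ψ x‖ ^ 2 ≤
      C * (rho N L * s ^ 3 + rho N L ^ 2 * s ^ 6)

section kinaux
variable {N : ℕ} {L : ℝ} [Fact (0 < L)] {P : Par} {w : T3 L → ℝ} {ψ : Cf N L → ℂ}

theorem BM_pair_kin (s : ℝ) (i j : Fin N) : BM (fun x : Cf N L => nb s (x i - x j)) :=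
  (BM_nb s).comp ((continuous_apply i).sub (continuous_apply j)).measurable

omit [Fact (0 < L)] in
theorem sq_sum_kin (T : Finset (Fin N)) (n : Fin N → ℝ) (h : ∀ j, n j * n j = n j) :
    (∑ j ∈ T, n j) ^ 2 = ∑ j ∈ T, n j + ∑ j ∈ T, ∑ l ∈ T.erase j, n j * n l := by
  rw [sq, Finset.sum_mul_sum, ← Finset.sum_add_distrib]
  refine Finset.sum_congr rfl fun j hj => ?_
  rw [← Finset.add_sum_erase T (fun l => n j * n l) hj, h j]

omit [Fact (0 < L)] in
theorem nb_tri_kin (s : ℝ) (a y z : T3 L) :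
    nb s (a - y) * nb s (a - z) ≤ nb s (a - y) * nb (2 * s) (z - y) := by
  have h := nb_mul_le s s (a - y) (z - a)
  rw [nb_sub_comm s z a, show a - y + (z - a) = z - y by abel, ← two_mul] at h
  exact h

theorem DB.mono_kin {C C' : ℝ} (h : DB C ψ) (hC : C ≤ C') (hρ : 0 ≤ rho N L) : DB C' ψ := by
  refine ⟨fun o s hs h1 => (h.two o s hs h1).trans ?_,
    fun o s₁ s₂ hs h12 h1 => (h.three o s₁ s₂ hs h12 h1).trans ?_⟩
  · gcongr
  · have : 0 < s₂ := hs.trans_le h12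
    gcongr

theorem n2_kin {C : ℝ} (hψ : Continuous ψ) (h : DB C ψ) (hρ : 0 ≤ rho N L) (o : Fin N) {s : ℝ}
    (hs : 0 < s) (h1 : (4 * s) ^ 2 * rho N L ≤ 1) :
    ∫ x, (∑ j ∈ univ.erase o, nb s (x o - x j)) ^ 2 * ‖ψ x‖ ^ 2 ≤
      C * rho N L * s ^ 3 + 8 * (C * rho N L ^ 2 * s ^ 6) := by
  have hn : BM (fun x => ‖ψ x‖ ^ 2) := BM.of_cont (by fun_prop)
  have h2 := h.two o s hs (le_trans (by nlinarith [sq_nonneg s]) h1)
  have h3 := h.three o s (2 * s) hs (by linarith) (by rw [show 2 * (2 * s) = 4 * s by ring]; exact h1)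
  have i1 : ∀ j, Integrable (fun x : Cf N L => nb s (x o - x j) * ‖ψ x‖ ^ 2) :=
    fun j => ((BM_pair_kin s o j).mul hn).integrable
  have i2 : ∀ j l, Integrable
      (fun x : Cf N L => nb s (x o - x j) * nb (2 * s) (x l - x j) * ‖ψ x‖ ^ 2) :=
    fun j l => (((BM_pair_kin s o j).mul (BM_pair_kin (2 * s) l j)).mul hn).integrable
  have i3 : ∀ j, Integrable (fun x : Cf N L => ∑ l ∈ (univ.erase o).erase j,
      nb s (x o - x j) * nb (2 * s) (x l - x j) * ‖ψ x‖ ^ 2) :=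
    fun j => integrable_finsetSum _ fun l _ => i2 j l
  have key : ∫ x, (∑ j ∈ univ.erase o, nb s (x o - x j)) ^ 2 * ‖ψ x‖ ^ 2 ≤
      D2 ψ o s + D3 ψ o s (2 * s) := by
    unfold D2 D3
    simp_rw [← integral_finsetSum _ fun l _ => i2 _ l]
    rw [← integral_finsetSum _ fun j _ => i1 j, ← integral_finsetSum _ fun j _ => i3 j,
      ← integral_add (integrable_finsetSum _ fun j _ => i1 j)
        (integrable_finsetSum _ fun j _ => i3 j)]
    refine integral_mono (((BM.sum fun j _ => BM_pair_kin s o j).pow 2).mul hn).integrable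
      ((integrable_finsetSum _ fun j _ => i1 j).add (integrable_finsetSum _ fun j _ => i3 j))
      fun x => ?_
    simp only
    rw [sq_sum_kin _ (fun j => nb s (x o - x j)) fun j => nb_mul_self _ _, add_mul,
      Finset.sum_mul, Finset.sum_mul]
    refine add_le_add le_rfl (Finset.sum_le_sum fun j _ => ?_)
    rw [Finset.sum_mul]
    exact Finset.sum_le_sum fun l _ =>
      mul_le_mul_of_nonneg_right (nb_tri_kin s _ _ _) (sq_nonneg _)
  refine key.trans (add_le_add h2 (h3.trans (le_of_eq ?_)))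
  ring

omit [Fact (0 < L)] in
theorem gP_nonneg_kin {F : Type*} [NormedAddCommGroup F] [NormedSpace ℝ F] (i : Fin N)
    (φ : Cf N L → F) (x : Cf N L) : 0 ≤ gP i φ x :=
  Finset.sum_nonneg fun _ _ => sq_nonneg _

omit [Fact (0 < L)] in
theorem sq_gP_le_kin {F : Cf N L → ℝ} (hF : IsC1 F) (hψ : IsC1 ψ) (i : Fin N) (x : Cf N L) :
    F x ^ 2 * gP i ψ x ≤ 2 * gP i (mul F ψ) x + 2 * (gP i F x * ‖ψ x‖ ^ 2) := by
  unfold gP
  rw [Finset.mul_sum, Finset.mul_sum, Finset.sum_mul, Finset.mul_sum, ← Finset.sum_add_distrib]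
  refine Finset.sum_le_sum fun c _ => ?_
  rw [dd_mul_real hF hψ]
  set a : ℂ := ((dd (dir i c) F x : ℝ) : ℂ) * ψ x with ha
  set d : ℂ := (F x : ℂ) * dd (dir i c) ψ x with hd
  have e1 : F x ^ 2 * ‖dd (dir i c) ψ x‖ ^ 2 = ‖d‖ ^ 2 := by
    rw [hd, norm_mul, mul_pow, Complex.norm_real, Real.norm_eq_abs, sq_abs]
  have e2 : ‖dd (dir i c) F x‖ ^ 2 * ‖ψ x‖ ^ 2 = ‖a‖ ^ 2 := by
    rw [ha, norm_mul, mul_pow, Complex.norm_real]
  rw [e1, e2]
  have h3 : ‖d‖ ≤ ‖a + d‖ + ‖a‖ := by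
    have := norm_sub_le (a + d) a
    simpa using this
  nlinarith [norm_nonneg d, norm_nonneg (a + d), norm_nonneg a, sq_nonneg (‖a + d‖ - ‖a‖)]

theorem dd_bump_kin {B s : ℝ} {b : T3 L → ℝ} (hb : Bump B s b) (hBs : 0 ≤ B / s) {o j : Fin N}
    (hj : o ≠ j) (i : Fin N) (c : Fin 3) (x : Cf N L) :
    |dd (dir i c) (fun x : Cf N L => b (x o - x j)) x| ≤ B / s * nb (3 * s) (x o - x j) ∧
      (i ≠ o → i ≠ j → dd (dir i c) (fun x : Cf N L => b (x o - x j)) x = 0) := by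
  rw [dd_pair (hb.c1 c) hj]
  refine ⟨?_, fun h1 h2 => by rw [if_neg h1, if_neg h2]⟩
  split_ifs
  · exact hb.grad_le_nb c _
  · rw [abs_neg]; exact hb.grad_le_nb c _
  · rw [abs_zero]; exact mul_nonneg hBs (nb_nonneg _ _)

theorem gP_two_kin {B s : ℝ} {b : T3 L → ℝ} (hb : Bump B s b) (hBs : 0 ≤ B / s) {o j l : Fin N}
    (hj : o ≠ j) (hl : o ≠ l) (i : Fin N) (x : Cf N L) :
    gP i (fun x : Cf N L => b (x o - x j) * b (x o - x l)) x ≤
      if i ∈ ({o, j, l} : Finset (Fin N)) then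
        12 * (B / s) ^ 2 * (nb (3 * s) (x o - x j) * nb (6 * s) (x l - x j)) else 0 := by
  have hd : ∀ c, dd (dir i c) (fun x : Cf N L => b (x o - x j) * b (x o - x l)) x =
      dd (dir i c) (fun x : Cf N L => b (x o - x j)) x * b (x o - x l) +
        b (x o - x j) * dd (dir i c) (fun x : Cf N L => b (x o - x l)) x := fun c =>
    dd_mul (dir_dir i c) ((hb.c1 c).pair hj i) ((hb.c1 c).pair hl i) x
  unfold gP
  split_ifs with hi
  · set m0 := nb (3 * s) (x o - x j) * nb (3 * s) (x o - x l) with hm0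
    have hm : m0 ≤ nb (3 * s) (x o - x j) * nb (6 * s) (x l - x j) := by
      have := nb_tri_kin (3 * s) (x o) (x j) (x l)
      rwa [show 2 * (3 * s) = 6 * s by ring] at this
    have hm2 : m0 ^ 2 = m0 := by
      rw [hm0, mul_pow, sq, sq, nb_mul_self, nb_mul_self]
    have hc : ∀ c, ‖dd (dir i c) (fun x : Cf N L => b (x o - x j) * b (x o - x l)) x‖ ^ 2 ≤
        4 * (B / s) ^ 2 * m0 := by
      intro c
      have h1 := (dd_bump_kin hb hBs hj i c x).1
      have h2 := (dd_bump_kin hb hBs hl i c x).1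
      have h3 : ‖dd (dir i c) (fun x : Cf N L => b (x o - x j) * b (x o - x l)) x‖ ≤
          2 * (B / s) * m0 := by
        rw [hd c, Real.norm_eq_abs]
        refine (abs_add_le _ _).trans ?_
        rw [abs_mul, abs_mul, abs_of_nonneg (hb.nonneg _), abs_of_nonneg (hb.nonneg _)]
        have h4 := mul_le_mul h1 (hb.le_nb (x o - x l)) (hb.nonneg _)
          (mul_nonneg hBs (nb_nonneg _ _))
        have h5 := mul_le_mul (hb.le_nb (x o - x j)) h2 (abs_nonneg _) (nb_nonneg _ _)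
        rw [hm0]
        linarith
      calc _ ≤ (2 * (B / s) * m0) ^ 2 := pow_le_pow_left₀ (norm_nonneg _) h3 2
        _ = 4 * (B / s) ^ 2 * m0 := by rw [mul_pow, hm2]; ring
    calc _ ≤ ∑ _c : Fin 3, 4 * (B / s) ^ 2 * m0 := Finset.sum_le_sum fun c _ => hc c
      _ = 12 * (B / s) ^ 2 * m0 := by simp; ring
      _ ≤ _ := by gcongr
  · simp only [Finset.mem_insert, Finset.mem_singleton, not_or] at hi
    refine le_of_eq (Finset.sum_eq_zero fun c _ => ?_)
    rw [hd c, (dd_bump_kin hb hBs hj i c x).2 hi.1 hi.2.1,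
      (dd_bump_kin hb hBs hl i c x).2 hi.1 hi.2.2]
    simp

theorem W_nonneg_kin (P : Par) : 0 ≤ P.W := by
  have := P.hV
  have := P.hR0
  unfold Par.W
  positivity

theorem pair_kin (hw : Wp P w) (h : GS w ψ) {B s : ℝ} {b : T3 L → ℝ} (hb : Bump B s b)
    (hB : 0 ≤ B) (hs : 0 < s) (hρ0 : 0 ≤ rho N L) (hρ : s ^ 2 * rho N L ≤ 1) {o j l : Fin N}
    (hj : o ≠ j) (hl : o ≠ l) :
    ∫ x, nb s (x o - x j) * nb s (x o - x l) * gP o ψ x ≤
      (12 * P.W + 96 * B ^ 2) / s ^ 2 *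
        ∫ x, nb (3 * s) (x o - x j) * nb (6 * s) (x l - x j) * ‖ψ x‖ ^ 2 := by
  have hBs : 0 ≤ B / s := div_nonneg hB hs.le
  have hW := W_nonneg_kin P
  set F : Cf N L → ℝ := fun x => b (x o - x j) * b (x o - x l) with hFdef
  have hF : IsC1 F := (hb.c1.pair hj).mul' (hb.c1.pair hl)
  set m : Cf N L → ℝ := fun x => nb (3 * s) (x o - x j) * nb (6 * s) (x l - x j) with hm
  have hmB : BM m := (BM_pair_kin _ o j).mul (BM_pair_kin _ l j)
  have hψc := h.c1.1
  have hn : BM (fun x => ‖ψ x‖ ^ 2) := BM.of_cont (by fun_prop)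
  have im : Integrable (fun x => m x * ‖ψ x‖ ^ 2) := (hmB.mul hn).integrable
  set M := ∫ x, m x * ‖ψ x‖ ^ 2 with hM
  have hM0 : 0 ≤ M := integral_nonneg fun x =>
    mul_nonneg (mul_nonneg (nb_nonneg _ _) (nb_nonneg _ _)) (sq_nonneg _)
  have hFψ : IsC1 (mul F ψ) := hF.mul h.c1
  set S : Finset (Fin N) := {o, j, l} with hS
  have hcard : (S.card : ℝ) ≤ 3 := by exact_mod_cast Finset.card_le_three
  have hoS : o ∈ S := by simp [hS]
  have iF : ∀ i, Integrable (fun x => gP i F x * ‖ψ x‖ ^ 2) := fun i =>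
    cont_integrable ((hF.cont_gP i).mul (by fun_prop))
  have hgi : ∀ i, ∫ x, gP i F x * ‖ψ x‖ ^ 2 ≤ if i ∈ S then 12 * (B / s) ^ 2 * M else 0 := by
    intro i
    have hp := gP_two_kin hb hBs hj hl i
    split_ifs with hi
    · rw [hM, ← integral_const_mul]
      refine integral_mono (iF i) (im.const_mul _) fun x => ?_
      have := hp x
      rw [if_pos hi] at this
      simp only
      rw [← mul_assoc]
      exact mul_le_mul_of_nonneg_right this (sq_nonneg _)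
    · refine integral_nonpos fun x => ?_
      have := hp x
      rw [if_neg hi] at this
      exact mul_nonpos_of_nonpos_of_nonneg this (sq_nonneg _)
  have hsum : ∑ i, ∫ x, gP i F x * ‖ψ x‖ ^ 2 ≤ 36 * (B / s) ^ 2 * M := by
    refine (Finset.sum_le_sum fun i _ => hgi i).trans ?_
    rw [Finset.sum_ite_mem, Finset.univ_inter, Finset.sum_const, nsmul_eq_mul]
    have : 0 ≤ 12 * (B / s) ^ 2 * M := by positivity
    nlinarith
  have ho : ∫ x, gP o F x * ‖ψ x‖ ^ 2 ≤ 12 * (B / s) ^ 2 * M := by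
    have := hgi o
    rwa [if_pos hoS] at this
  have hF0 : ∀ x, 0 ≤ F x := fun x => mul_nonneg (hb.nonneg _) (hb.nonneg _)
  have hFm : ∀ x, F x ^ 2 ≤ m x := by
    intro x
    have h1 : F x ≤ 1 := mul_le_one₀ (hb.le _) (hb.nonneg _) (hb.le _)
    have h2 : F x ≤ nb (3 * s) (x o - x j) * nb (3 * s) (x o - x l) :=
      mul_le_mul (hb.le_nb _) (hb.le_nb _) (hb.nonneg _) (nb_nonneg _ _)
    have h3 := nb_tri_kin (3 * s) (x o) (x j) (x l)
    rw [show 2 * (3 * s) = 6 * s by ring] at h3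
    have h4 : F x ^ 2 ≤ F x := by nlinarith [hF0 x]
    exact h4.trans (h2.trans h3)
  have hnsq : nsq (mul F ψ) ≤ M := by
    refine integral_mono (cont_integrable (hFψ.1.norm.pow 2)) im fun x => ?_
    simp only [mul]
    rw [norm_mul, mul_pow, Complex.norm_real, Real.norm_eq_abs, sq_abs]
    exact mul_le_mul_of_nonneg_right (hFm x) (sq_nonneg _)
  have hle := h.local_energy hw S hF
  have hQ := QS_nonneg hw h Sᶜ hFψ
  have hU : 0 ≤ ∫ x, (US w univ x - US w Sᶜ x) * ‖mul F ψ x‖ ^ 2 :=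
    integral_nonneg fun x => mul_nonneg
      (sub_nonneg.2 (US_mono hw.nonneg (Finset.subset_univ _) x)) (sq_nonneg _)
  have hone : ∫ x, gP o (mul F ψ) x ≤ ∑ i ∈ S, ∫ x, gP i (mul F ψ) x :=
    Finset.single_le_sum (f := fun i => ∫ x, gP i (mul F ψ) x)
      (fun i _ => integral_nonneg fun x => gP_nonneg_kin i _ x) hoS
  have hchem : (S.card : ℝ) * (rho N L * P.W) * nsq (mul F ψ) ≤ 3 * (rho N L * P.W) * M :=
    mul_le_mul (mul_le_mul_of_nonneg_right hcard (mul_nonneg hρ0 hW)) hnsq (nsq_nonneg _)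
      (by positivity)
  have hmain : ∫ x, nb s (x o - x j) * nb s (x o - x l) * gP o ψ x ≤
      2 * (∫ x, gP o (mul F ψ) x) + 2 * ∫ x, gP o F x * ‖ψ x‖ ^ 2 := by
    have i1 : Integrable (gP o (mul F ψ)) := cont_integrable (hFψ.cont_gP o)
    rw [← integral_const_mul, ← integral_const_mul,
      ← integral_add (i1.const_mul _) ((iF o).const_mul _)]
    refine integral_mono (((BM_pair_kin s o j).mul (BM_pair_kin s o l)).mul
      (BM.of_cont (h.c1.cont_gP o))).integrable ((i1.const_mul _).add ((iF o).const_mul _))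
      fun x => ?_
    refine le_trans (mul_le_mul_of_nonneg_right ?_ (gP_nonneg_kin o ψ x))
      (sq_gP_le_kin hF h.c1 o x)
    have h1 : nb s (x o - x j) * nb s (x o - x l) ≤ F x :=
      mul_le_mul (hb.nb_le _) (hb.nb_le _) (nb_nonneg _ _) (hb.nonneg _)
    have h2 : (nb s (x o - x j) * nb s (x o - x l)) ^ 2 = nb s (x o - x j) * nb s (x o - x l) := by
      rw [mul_pow, sq, sq, nb_mul_self, nb_mul_self]
    rw [← h2]
    exact pow_le_pow_left₀ (mul_nonneg (nb_nonneg _ _) (nb_nonneg _ _)) h1 2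
  have hρs : rho N L ≤ 1 / s ^ 2 := by
    rw [le_div_iff₀ (by positivity)]; linarith
  have hρW : rho N L * P.W * M ≤ 1 / s ^ 2 * P.W * M := by gcongr
  have e1 : (12 * P.W + 96 * B ^ 2) / s ^ 2 * M =
      12 * (1 / s ^ 2 * P.W * M) + 96 * ((B / s) ^ 2 * M) := by
    field_simp
  rw [e1]
  nlinarith

theorem k2_kin {C : ℝ} (hw : Wp P w) (h : GS w ψ) (hD : DB C ψ) {B s : ℝ} {b : T3 L → ℝ}
    (hb : Bump B s b) (hB : 0 ≤ B) (hs : 0 < s) (hρ0 : 0 ≤ rho N L)
    (hρ : (12 * s) ^ 2 * rho N L ≤ 1) (o : Fin N) :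
    K2 ψ o s ≤ 2 * (rho N L * P.W) +
      5832 * (12 * P.W + 96 * B ^ 2) * C * (rho N L ^ 2 * s ^ 4) := by
  have hW := W_nonneg_kin P
  have hg : BM (gP o ψ) := BM.of_cont (h.c1.cont_gP o)
  have i1 : ∀ j, Integrable (fun x : Cf N L => nb s (x o - x j) * gP o ψ x) :=
    fun j => ((BM_pair_kin s o j).mul hg).integrable
  have i2 : ∀ j l, Integrable
      (fun x : Cf N L => nb s (x o - x j) * nb s (x o - x l) * gP o ψ x) :=
    fun j l => (((BM_pair_kin s o j).mul (BM_pair_kin s o l)).mul hg).integrable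
  have i3 : ∀ j, Integrable (fun x : Cf N L => ∑ l ∈ (univ.erase o).erase j,
      nb s (x o - x j) * nb s (x o - x l) * gP o ψ x) :=
    fun j => integrable_finsetSum _ fun l _ => i2 j l
  have key : K2 ψ o s ≤ (∫ x, gP o ψ x) + ∑ j ∈ univ.erase o, ∑ l ∈ (univ.erase o).erase j,
      ∫ x, nb s (x o - x j) * nb s (x o - x l) * gP o ψ x := by
    unfold K2
    simp_rw [← integral_finsetSum _ fun l _ => i2 _ l]
    rw [← integral_finsetSum _ fun j _ => i1 j, ← integral_finsetSum _ fun j _ => i3 j,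
      ← integral_add hg.integrable (integrable_finsetSum _ fun j _ => i3 j)]
    refine integral_mono (integrable_finsetSum _ fun j _ => i1 j)
      (hg.integrable.add (integrable_finsetSum _ fun j _ => i3 j)) fun x => ?_
    simp only
    simp_rw [← Finset.sum_mul]
    have h1 := sq_sum_kin (univ.erase o) (fun j => nb s (x o - x j)) fun j => nb_mul_self _ _
    have h2 := gP_nonneg_kin o ψ x
    have h3 : ∑ j ∈ univ.erase o, nb s (x o - x j) ≤ 1 + ∑ j ∈ univ.erase o,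
        ∑ l ∈ (univ.erase o).erase j, nb s (x o - x j) * nb s (x o - x l) := by
      nlinarith [sq_nonneg (∑ j ∈ univ.erase o, nb s (x o - x j) - 1)]
    nlinarith [mul_le_mul_of_nonneg_right h3 h2]
  have hs2 : s ^ 2 * rho N L ≤ 1 := le_trans (by nlinarith [sq_nonneg s]) hρ
  have h3 := hD.three o (3 * s) (6 * s) (by linarith) (by linarith)
    (by rw [show 2 * (6 * s) = 12 * s by ring]; exact hρ)
  have hK : 0 ≤ (12 * P.W + 96 * B ^ 2) / s ^ 2 := by positivity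
  have h4 : ∑ j ∈ univ.erase o, ∑ l ∈ (univ.erase o).erase j,
      ∫ x, nb s (x o - x j) * nb s (x o - x l) * gP o ψ x ≤
        (12 * P.W + 96 * B ^ 2) / s ^ 2 * D3 ψ o (3 * s) (6 * s) := by
    unfold D3
    rw [Finset.mul_sum]
    refine Finset.sum_le_sum fun j hj => ?_
    rw [Finset.mul_sum]
    refine Finset.sum_le_sum fun l hl => ?_
    exact pair_kin hw h hb hB hs hρ0 hs2 (Finset.ne_of_mem_erase hj).symm
      (Finset.ne_of_mem_erase (Finset.mem_of_mem_erase hl)).symm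
  refine key.trans (add_le_add (h.kin_le hw o) (h4.trans
    ((mul_le_mul_of_nonneg_left h3 hK).trans (le_of_eq ?_))))
  field_simp
  ring

end kinaux

theorem apriori (P : Par) : ∃ C ρ₀ : ℝ, 1 ≤ C ∧ 0 < ρ₀ ∧ ρ₀ ≤ 1 ∧ ∀ (N : ℕ) (L : ℝ)
    [Fact (0 < L)] (w : T3 L → ℝ) (ψ : Cf N L → ℂ), Setup P w ψ → rho N L ≤ ρ₀ → AP C ψ := by
  obtain ⟨C, ρ₀, hC, hρ₀, hρ₁, hD⟩ := dens P
  obtain ⟨B, hB, hbump⟩ := exists_bump
  have hW := W_nonneg_kin P
  have hK : 0 ≤ 5832 * (12 * P.W + 96 * B ^ 2) * C := by positivity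
  refine ⟨8 * C + 5832 * (12 * P.W + 96 * B ^ 2) * C + 2 * P.W, ρ₀, by linarith, hρ₀, hρ₁,
    fun N L _ w ψ hS hρ => ?_⟩
  have hρ0 : 0 ≤ rho N L := hS.basic.1.le
  have hd := hD N L w ψ hS hρ
  refine ⟨hd.mono_kin (by linarith) hρ0, fun o => ?_, fun o s hs h1 => ?_, fun o s hs h1 => ?_⟩
  · refine (hS.gs.kin_le hS.pot.wp o).trans ?_
    nlinarith [mul_nonneg hK hρ0, mul_nonneg (by linarith : (0 : ℝ) ≤ C) hρ0]
  · obtain ⟨⟨b, hb⟩, -⟩ := hbump L s hs
    refine (k2_kin hS.pot.wp hS.gs hd hb (by linarith) hs hρ0 h1 o).trans ?_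
    have h2 : 0 ≤ rho N L ^ 2 * s ^ 4 := by positivity
    nlinarith [mul_nonneg hK hρ0, mul_nonneg (by linarith : (0 : ℝ) ≤ C) hρ0,
      mul_nonneg (by linarith : (0 : ℝ) ≤ C) h2, mul_nonneg hW h2]
  · refine (n2_kin hS.gs.c1.1 hd hρ0 o hs h1).trans ?_
    have h2 : 0 ≤ rho N L ^ 2 * s ^ 6 := by positivity
    have h3 : 0 ≤ rho N L * s ^ 3 := by positivity
    nlinarith [mul_nonneg hK h3, mul_nonneg (by linarith : (0 : ℝ) ≤ C) h3, mul_nonneg hK h2,
      mul_nonneg hW h2, mul_nonneg hW h3]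

end Pool.Agent.BoseTail
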