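import Pool.Agent.Lib.MP_dec75e_mp.BM

/-! Cauchy-Schwarz, Minkowski and Jensen inequalities for bounded measurable functions. -/

open MeasureTheory Complex Finset Filter Function
open scoped ComplexConjugate Real Topology

noncomputable section

namespace Pool.Agent.BoseTail

section l2
variable {α : Type*} [MeasurableSpace α] {μ : Measure α} [IsFiniteMeasure μ]

theorem disc_l2 {A B C : ℝ} (hA : 0 ≤ A) (_hC : 0 ≤ C)
    (h : ∀ t : ℝ, 0 ≤ A * (t * t) + (-2 * B) * t + C) : B ≤ √A * √C := by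
  have h1 := discrim_le_zero h
  rw [discrim] at h1
  have h2 : B ^ 2 ≤ A * C := by nlinarith
  rw [← Real.sqrt_mul hA]
  exact le_trans (le_abs_self B) (Real.abs_le_sqrt h2)

theorem abs_ip_le_l2 (a b : ℂ) : |ip a b| ≤ ‖a‖ * ‖b‖ := by
  unfold ip
  refine le_trans (Complex.abs_re_le_norm _) ?_
  rw [norm_mul, Complex.norm_conj]

theorem normSq_add_l2 (a b : ℂ) : ‖a + b‖ ^ 2 = ‖a‖ ^ 2 + 2 * ip a b + ‖b‖ ^ 2 := by
  unfold ip
  simp only [Complex.sq_norm, Complex.normSq_apply, Complex.add_re, Complex.add_im,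
    Complex.mul_re, Complex.conj_re, Complex.conj_im]
  ring

theorem BM.sqrt_l2 {u : α → ℝ} (hu : BM u) : BM (fun x => √(u x)) := by
  obtain ⟨hm, C, hC⟩ := hu
  refine ⟨hm.sqrt, √C, fun x => ?_⟩
  rw [Real.norm_eq_abs, abs_of_nonneg (Real.sqrt_nonneg _)]
  exact Real.sqrt_le_sqrt (le_trans (le_abs_self _) (hC x))

/-- Cauchy-Schwarz for families of real functions. -/
theorem cs_sum {ι : Type*} (s : Finset ι) {f g : ι → α → ℝ} (hf : ∀ i ∈ s, BM (f i))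
    (hg : ∀ i ∈ s, BM (g i)) :
    ∑ i ∈ s, ∫ x, f i x * g i x ∂μ ≤
      √(∑ i ∈ s, ∫ x, f i x ^ 2 ∂μ) * √(∑ i ∈ s, ∫ x, g i x ^ 2 ∂μ) := by
  refine disc_l2 (Finset.sum_nonneg fun i _ => integral_nonneg fun x => sq_nonneg _)
    (Finset.sum_nonneg fun i _ => integral_nonneg fun x => sq_nonneg _) fun t => ?_
  rw [Finset.sum_mul, Finset.mul_sum, Finset.sum_mul, ← Finset.sum_add_distrib,
    ← Finset.sum_add_distrib]
  refine Finset.sum_nonneg fun i hi => ?_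
  have h1 : Integrable (fun x => f i x ^ 2) μ := ((hf i hi).pow 2).integrable
  have h2 : Integrable (fun x => g i x ^ 2) μ := ((hg i hi).pow 2).integrable
  have h3 : Integrable (fun x => f i x * g i x) μ := ((hf i hi).mul (hg i hi)).integrable
  have e : (∫ x, f i x ^ 2 ∂μ) * (t * t) + -2 * (∫ x, f i x * g i x ∂μ) * t + ∫ x, g i x ^ 2 ∂μ
      = ∫ x, (t * f i x - g i x) ^ 2 ∂μ := by
    have : (fun x => (t * f i x - g i x) ^ 2)
        = fun x => (f i x ^ 2 * (t * t) + (-2 * t) * (f i x * g i x)) + g i x ^ 2 := by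
      funext x; ring
    have h4 : Integrable (fun x => f i x ^ 2 * (t * t) + (-2 * t) * (f i x * g i x)) μ :=
      (h1.mul_const _).add (h3.const_mul _)
    rw [this, integral_add h4 h2,
      integral_add (h1.mul_const _) (h3.const_mul _), integral_mul_const, integral_const_mul]
    ring
  rw [e]
  exact integral_nonneg fun x => sq_nonneg _

theorem cs_one {f g : α → ℝ} (hf : BM f) (hg : BM g) :
    ∫ x, f x * g x ∂μ ≤ √(∫ x, f x ^ 2 ∂μ) * √(∫ x, g x ^ 2 ∂μ) := by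
  have h := cs_sum (μ := μ) ({()} : Finset Unit) (f := fun _ => f) (g := fun _ => g)
    (fun _ _ => hf) (fun _ _ => hg)
  simpa only [Finset.sum_singleton] using h

/-- Cauchy-Schwarz for the real inner product, families. -/
theorem cs_ip_sum {ι : Type*} (s : Finset ι) {f g : ι → α → ℂ} (hf : ∀ i ∈ s, BM (f i))
    (hg : ∀ i ∈ s, BM (g i)) :
    |∑ i ∈ s, ∫ x, ip (f i x) (g i x) ∂μ| ≤
      √(∑ i ∈ s, ∫ x, ‖f i x‖ ^ 2 ∂μ) * √(∑ i ∈ s, ∫ x, ‖g i x‖ ^ 2 ∂μ) := by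
  have h := cs_sum (μ := μ) s (f := fun i x => ‖f i x‖) (g := fun i x => ‖g i x‖)
    (fun i hi => (hf i hi).norm) (fun i hi => (hg i hi).norm)
  refine le_trans ?_ h
  refine le_trans (Finset.abs_sum_le_sum_abs _ _) (Finset.sum_le_sum fun i hi => ?_)
  refine le_trans abs_integral_le_integral_abs ?_
  refine integral_mono ((hf i hi).ip (hg i hi)).abs.integrable
    ((hf i hi).norm.mul (hg i hi).norm).integrable fun x => ?_
  exact abs_ip_le_l2 _ _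

theorem cs_ip {f g : α → ℂ} (hf : BM f) (hg : BM g) :
    |∫ x, ip (f x) (g x) ∂μ| ≤ √(∫ x, ‖f x‖ ^ 2 ∂μ) * √(∫ x, ‖g x‖ ^ 2 ∂μ) := by
  have h := cs_ip_sum (μ := μ) ({()} : Finset Unit) (f := fun _ => f) (g := fun _ => g)
    (fun _ _ => hf) (fun _ _ => hg)
  simpa only [Finset.sum_singleton] using h

/-- Triangle inequality for families. -/
theorem mink_sum {ι : Type*} (s : Finset ι) {f g : ι → α → ℂ} (hf : ∀ i ∈ s, BM (f i))
    (hg : ∀ i ∈ s, BM (g i)) :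
    √(∑ i ∈ s, ∫ x, ‖f i x + g i x‖ ^ 2 ∂μ) ≤
      √(∑ i ∈ s, ∫ x, ‖f i x‖ ^ 2 ∂μ) + √(∑ i ∈ s, ∫ x, ‖g i x‖ ^ 2 ∂μ) := by
  have h := le_trans (le_abs_self _) (cs_ip_sum (μ := μ) s hf hg)
  have e : ∑ i ∈ s, ∫ x, ‖f i x + g i x‖ ^ 2 ∂μ
      = (∑ i ∈ s, ∫ x, ‖f i x‖ ^ 2 ∂μ) + 2 * (∑ i ∈ s, ∫ x, ip (f i x) (g i x) ∂μ)
        + ∑ i ∈ s, ∫ x, ‖g i x‖ ^ 2 ∂μ := by
    rw [Finset.mul_sum, ← Finset.sum_add_distrib, ← Finset.sum_add_distrib]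
    refine Finset.sum_congr rfl fun i hi => ?_
    have h1 : Integrable (fun x => ‖f i x‖ ^ 2) μ := ((hf i hi).norm.pow 2).integrable
    have h2 : Integrable (fun x => ‖g i x‖ ^ 2) μ := ((hg i hi).norm.pow 2).integrable
    have h3 : Integrable (fun x => ip (f i x) (g i x)) μ := ((hf i hi).ip (hg i hi)).integrable
    have h4 : Integrable (fun x => ‖f i x‖ ^ 2 + 2 * ip (f i x) (g i x)) μ :=
      h1.add (h3.const_mul _)
    simp only [normSq_add_l2]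
    rw [integral_add h4 h2, integral_add h1 (h3.const_mul _),
      integral_const_mul]
  have hA : 0 ≤ ∑ i ∈ s, ∫ x, ‖f i x‖ ^ 2 ∂μ :=
    Finset.sum_nonneg fun i _ => integral_nonneg fun x => sq_nonneg _
  have hB : 0 ≤ ∑ i ∈ s, ∫ x, ‖g i x‖ ^ 2 ∂μ :=
    Finset.sum_nonneg fun i _ => integral_nonneg fun x => sq_nonneg _
  rw [e]
  refine Real.sqrt_le_iff.2 ⟨add_nonneg (Real.sqrt_nonneg _) (Real.sqrt_nonneg _), ?_⟩
  rw [add_sq, Real.sq_sqrt hA, Real.sq_sqrt hB]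
  linarith

theorem mink {f g : α → ℂ} (hf : BM f) (hg : BM g) :
    √(∫ x, ‖f x + g x‖ ^ 2 ∂μ) ≤ √(∫ x, ‖f x‖ ^ 2 ∂μ) + √(∫ x, ‖g x‖ ^ 2 ∂μ) := by
  have h := mink_sum (μ := μ) ({()} : Finset Unit) (f := fun _ => f) (g := fun _ => g)
    (fun _ _ => hf) (fun _ _ => hg)
  simpa only [Finset.sum_singleton] using h

theorem jensen_l2 {k v : α → ℝ} (hk : BM k) (hv : BM v) (hk0 : ∀ z, 0 ≤ k z) :
    (∫ z, k z * v z ∂μ) ≤ √((∫ z, k z ∂μ) * ∫ z, k z * v z ^ 2 ∂μ) := by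
  have h := cs_one (μ := μ) hk.sqrt_l2 (hk.sqrt_l2.mul hv)
  have e1 : ∀ z, √(k z) * (√(k z) * v z) = k z * v z := fun z => by
    rw [← mul_assoc, Real.mul_self_sqrt (hk0 z)]
  have e2 : ∀ z, √(k z) ^ 2 = k z := fun z => Real.sq_sqrt (hk0 z)
  have e3 : ∀ z, (√(k z) * v z) ^ 2 = k z * v z ^ 2 := fun z => by rw [mul_pow, e2]
  simp only [e1, e2, e3] at h
  rwa [Real.sqrt_mul (integral_nonneg hk0)]

theorem jensen'_l2 {κ u : α → ℂ} (hκ : BM κ) (hu : BM u) :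
    ‖∫ z, κ z * u z ∂μ‖ ^ 2 ≤ (∫ z, ‖κ z‖ ∂μ) * ∫ z, ‖κ z‖ * ‖u z‖ ^ 2 ∂μ := by
  have h := jensen_l2 (μ := μ) hκ.norm hu.norm (fun z => norm_nonneg _)
  have h1 : ‖∫ z, κ z * u z ∂μ‖ ≤ ∫ z, ‖κ z‖ * ‖u z‖ ∂μ := by
    refine le_trans (norm_integral_le_integral_norm _) (le_of_eq ?_)
    simp only [norm_mul]
  have h0 : 0 ≤ (∫ z, ‖κ z‖ ∂μ) * ∫ z, ‖κ z‖ * ‖u z‖ ^ 2 ∂μ :=
    mul_nonneg (integral_nonneg fun z => norm_nonneg _)
      (integral_nonneg fun z => mul_nonneg (norm_nonneg _) (sq_nonneg _))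
  exact (Real.le_sqrt (norm_nonneg _) h0).1 (h1.trans h)

/-- Jensen: `‖∫ U u‖² ≤ (∫ |U|) ∫ |U| ‖u‖²`. -/
theorem jensen_wt {U : α → ℝ} {u : α → ℂ} (hU : BM U) (hu : BM u) :
    ‖∫ z, (U z : ℂ) * u z ∂μ‖ ^ 2 ≤ (∫ z, |U z| ∂μ) * ∫ z, |U z| * ‖u z‖ ^ 2 ∂μ := by
  have h := jensen'_l2 (μ := μ) hU.ofReal hu
  simpa only [Complex.norm_real, Real.norm_eq_abs] using h

theorem jensen_wt' {κ u : α → ℂ} (hκ : BM κ) (hu : BM u) :
    ‖∫ z, κ z * u z ∂μ‖ ^ 2 ≤ (∫ z, ‖κ z‖ ∂μ) * ∫ z, ‖κ z‖ * ‖u z‖ ^ 2 ∂μ :=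
  jensen'_l2 hκ hu

theorem integral_ip_right {a : ℂ} {u : α → ℂ} (hu : BM u) :
    ∫ z, ip a (u z) ∂μ = ip a (∫ z, u z ∂μ) := by
  unfold ip
  have h : Integrable (fun z => conj a * u z) μ := hu.integrable.const_mul _
  rw [← integral_const_mul]
  exact integral_re h

end l2

end Pool.Agent.BoseTail
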