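import Pool.Agent.Lib.MP_dec75e_mp.Rad0

/-! Truncation of the scattering solution. -/

open MeasureTheory Complex Finset Filter Function
open scoped ComplexConjugate Real Topology

noncomputable section

namespace Pool.Agent.BoseTail

variable {v f : E3 → ℝ} {a : ℝ}

theorem deriv_zero_rad {p : ℝ → ℝ} {U : Set ℝ} (hU : IsOpen U) {c : ℝ} (h : ∀ s ∈ U, p s = c) :
    ∀ s ∈ U, deriv p s = 0 := fun s hs => by
  have h1 : p =ᶠ[𝓝 s] fun _ => c := by
    filter_upwards [hU.mem_nhds hs] with t ht using h t ht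
  rw [h1.deriv_eq, deriv_const]

/-- The cut-off profile. -/
theorem exists_profile : ∃ (Λ : ℝ) (p p' p'' : ℝ → ℝ), 1 ≤ Λ ∧ ContDiff ℝ 2 p ∧
    (∀ s, HasDerivAt p (p' s) s) ∧ (∀ s, HasDerivAt p' (p'' s) s) ∧ Continuous p'' ∧
    (∀ s, 0 ≤ p s ∧ p s ≤ 1) ∧ (∀ s, s ≤ 1 → p s = 1 ∧ p' s = 0 ∧ p'' s = 0) ∧
    (∀ s, 2 ≤ s → p s = 0 ∧ p' s = 0 ∧ p'' s = 0) ∧ ∀ s, |p'' s| ≤ Λ := by
  set p : ℝ → ℝ := fun s => Real.smoothTransition (5 - 3 * s) with hp
  have hc : ContDiff ℝ 2 p :=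
    (Real.smoothTransition.contDiff (n := 2)).comp
      (contDiff_const.sub (contDiff_const.mul contDiff_id))
  have hc1 : ContDiff ℝ 1 (deriv p) := hc.deriv'
  have hc2 : Continuous (deriv (deriv p)) := hc1.continuous_deriv le_rfl
  have hl : ∀ s ∈ Set.Iio (4 / 3 : ℝ), p s = 1 := fun s hs =>
    Real.smoothTransition.one_of_one_le (by have := Set.mem_Iio.1 hs; linarith)
  have hr : ∀ s ∈ Set.Ioi (5 / 3 : ℝ), p s = 0 := fun s hs =>
    Real.smoothTransition.zero_of_nonpos (by have := Set.mem_Ioi.1 hs; linarith)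
  have hl1 := deriv_zero_rad isOpen_Iio hl
  have hl2 := deriv_zero_rad isOpen_Iio hl1
  have hr1 := deriv_zero_rad isOpen_Ioi hr
  have hr2 := deriv_zero_rad isOpen_Ioi hr1
  obtain ⟨C, hC⟩ := (isCompact_Icc (a := (1 : ℝ)) (b := 2)).exists_bound_of_continuousOn
    hc2.continuousOn
  refine ⟨max C 1, p, deriv p, deriv (deriv p), le_max_right _ _, hc,
    fun s => (hc.differentiable (by norm_num) s).hasDerivAt,
    fun s => (hc1.differentiable (by norm_num) s).hasDerivAt, hc2,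
    fun s => ⟨Real.smoothTransition.nonneg _, Real.smoothTransition.le_one _⟩,
    fun s hs => ?_, fun s hs => ?_, fun s => ?_⟩
  · have h : s ∈ Set.Iio (4 / 3 : ℝ) := Set.mem_Iio.2 (by linarith)
    exact ⟨hl s h, hl1 s h, hl2 s h⟩
  · have h : s ∈ Set.Ioi (5 / 3 : ℝ) := Set.mem_Ioi.2 (by linarith)
    exact ⟨hr s h, hr1 s h, hr2 s h⟩
  · rcases lt_or_ge s 1 with h | h
    · rw [hl2 s (Set.mem_Iio.2 (by linarith)), abs_zero]
      exact zero_le_one.trans (le_max_right _ _)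
    · rcases le_or_gt s 2 with h' | h'
      · exact (hC s ⟨h, h'⟩).trans (le_max_left _ _)
      · rw [hr2 s (Set.mem_Ioi.2 (by linarith)), abs_zero]
        exact zero_le_one.trans (le_max_right _ _)

theorem lapE_one_sub_rad (f : E3 → ℝ) (x : E3) : lapE (fun y => 1 - f y) x = -lapE f x := by
  have h1 : ∀ c, dd (e3 c) (fun y => 1 - f y) = fun y => -dd (e3 c) f y := fun c => by
    funext y
    simp only [dd]
    exact deriv_const_sub 1
  have h2 : ∀ (c : Fin 3) (g : E3 → ℝ), dd (e3 c) (fun y => -g y) x = -dd (e3 c) g x :=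
    fun c g => by
      simp only [dd]
      exact deriv.fun_neg
  simp only [lapE, h1, h2, Finset.sum_neg_distrib]

/-- The radial integral of the source. -/
theorem integral_source_rad {p p' p'' : ℝ → ℝ} (h1 : ∀ s, HasDerivAt p (p' s) s)
    (h2 : ∀ s, HasDerivAt p' (p'' s) s) (hc : Continuous p'')
    (hl : ∀ s, s ≤ 1 → p s = 1 ∧ p' s = 0 ∧ p'' s = 0)
    (hr : ∀ s, 2 ≤ s → p s = 0 ∧ p' s = 0 ∧ p'' s = 0) {R : ℝ} (hR : 0 < R) :
    ∫ x : E3, p'' (‖x‖ / R) / (R ^ 2 * max ‖x‖ R) = 4 * π := by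
  rw [integral_fun_norm_addHaar (volume : Measure E3) (fun r => p'' (r / R) / (R ^ 2 * max r R))]
  have e1 : ∫ y in Set.Ioi (0 : ℝ), y ^ (Module.finrank ℝ E3 - 1) •
      (p'' (y / R) / (R ^ 2 * max y R)) = ∫ y in Set.Ioi (0 : ℝ), y * p'' (y / R) / R ^ 2 := by
    refine setIntegral_congr_fun measurableSet_Ioi fun y hy => ?_
    have hy0 : 0 < y := hy
    simp only [finrank_euclideanSpace, Fintype.card_fin, smul_eq_mul]
    rcases le_total y R with h | h
    · rw [(hl (y / R) ((div_le_one hR).2 h)).2.2]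
      simp
    · rw [max_eq_left h]
      field_simp
  have hd : ∀ y : ℝ, HasDerivAt (fun y => y * p' (y / R) / R - p (y / R))
      (y * p'' (y / R) / R ^ 2) y := fun y => by
    have a1 : HasDerivAt (fun y : ℝ => y / R) (1 / R) y := (hasDerivAt_id' y).div_const R
    have a2 : HasDerivAt (fun y : ℝ => p (y / R)) (p' (y / R) * (1 / R)) y :=
      (h1 (y / R)).comp y a1
    have a3 : HasDerivAt (fun y : ℝ => p' (y / R)) (p'' (y / R) * (1 / R)) y :=
      (h2 (y / R)).comp y a1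
    refine ((((hasDerivAt_id' y).fun_mul a3).div_const R).fun_sub a2).congr_deriv ?_
    field_simp
    ring
  have hcont : Continuous fun y : ℝ => y * p'' (y / R) / R ^ 2 :=
    (continuous_id.mul (hc.comp (continuous_id.div_const R))).div_const _
  have hint : Integrable fun y : ℝ => y * p'' (y / R) / R ^ 2 := by
    refine hcont.integrable_of_hasCompactSupport
      (HasCompactSupport.intro (isCompact_Icc (a := R) (b := 2 * R)) fun y hy => ?_)
    rcases lt_or_ge y R with h | h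
    · rw [(hl (y / R) ((div_le_one hR).2 h.le)).2.2]; simp
    · have h' : 2 * R < y := by
        by_contra h''
        exact hy ⟨h, not_lt.1 h''⟩
      rw [(hr (y / R) ((le_div_iff₀ hR).2 h'.le)).2.2]; simp
  have hlim : Tendsto (fun y => y * p' (y / R) / R - p (y / R)) atTop (𝓝 0) := by
    refine tendsto_const_nhds.congr' ?_
    filter_upwards [eventually_ge_atTop (2 * R)] with y hy
    have := hr (y / R) ((le_div_iff₀ hR).2 hy)
    rw [this.1, this.2.1]; simp
  have e2 := integral_Ioi_of_hasDerivAt_of_tendsto' (a := 0) (fun y _ => hd y)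
    hint.integrableOn hlim
  rw [e1, e2, zero_div, (hl 0 zero_le_one).1]
  have e3 : (volume : Measure E3).real (Metric.ball 0 1) = π * 4 / 3 := by
    rw [Measure.real, EuclideanSpace.volume_ball_fin_three]
    simp only [ENNReal.ofReal_one, one_pow, one_mul]
    exact ENNReal.toReal_ofReal (by positivity)
  rw [e3]
  simp only [finrank_euclideanSpace, Fintype.card_fin, smul_eq_mul, nsmul_eq_mul]
  push_cast
  ring

/-- The Laplacian of the truncated Newton potential. -/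
theorem lapE_newton_rad {p p' p'' : ℝ → ℝ} (h1 : ∀ s, HasDerivAt p (p' s) s)
    (h2 : ∀ s, HasDerivAt p' (p'' s) s) (a : ℝ) {R : ℝ} (hR : 0 < R) {x : E3} (hx : x ≠ 0) :
    lapE (fun y => a / ‖y‖ * p (‖y‖ / R)) x = a * (p'' (‖x‖ / R) / (R ^ 2 * ‖x‖)) := by
  have hr : 0 < ‖x‖ := norm_pos_iff.2 hx
  have a1 : ∀ r : ℝ, HasDerivAt (fun y : ℝ => y / R) (1 / R) r := fun r =>
    (hasDerivAt_id' r).div_const R
  have a2 : ∀ r : ℝ, HasDerivAt (fun y : ℝ => p (y / R)) (p' (r / R) * (1 / R)) r := fun r =>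
    (h1 (r / R)).comp r (a1 r)
  have a3 : ∀ r : ℝ, HasDerivAt (fun y : ℝ => p' (y / R)) (p'' (r / R) * (1 / R)) r := fun r =>
    (h2 (r / R)).comp r (a1 r)
  have b1 : ∀ r : ℝ, r ≠ 0 → HasDerivAt (fun y : ℝ => y⁻¹) (-(r⁻¹ * r⁻¹)) r := fun r hr0 => by
    refine (hasDerivAt_inv hr0).congr_deriv ?_
    field_simp
  have hg : ∀ᶠ r in 𝓝 ‖x‖, HasDerivAt (fun r : ℝ => a / r * p (r / R))
      (a * (-(r⁻¹ * r⁻¹) * p (r / R) + r⁻¹ * (p' (r / R) * (1 / R)))) r := by
    filter_upwards [eventually_ne_nhds hr.ne'] with r hr0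
    have := ((b1 r hr0).fun_mul (a2 r)).const_mul a
    refine this.congr_of_eventuallyEq (Eventually.of_forall fun y => ?_)
    simp only [div_eq_mul_inv a, mul_assoc]
  have hg' := ((((b1 _ hr.ne').fun_mul (b1 _ hr.ne')).fun_neg.fun_mul (a2 ‖x‖)).fun_add
    ((b1 _ hr.ne').fun_mul ((a3 ‖x‖).mul_const (1 / R)))).const_mul a
  rw [lapE_radial (g := fun r : ℝ => a / r * p (r / R)) hx hg hg']
  field_simp
  ring

/-- Truncation of the scattering solution at scale `R`, on Euclidean space. -/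
theorem Scat.truncate (h : Scat v f a) : ∃ Λ : ℝ, 1 ≤ Λ ∧ ∀ Rv R : ℝ, 0 < Rv → Rv < R →
    (∀ x, Rv < ‖x‖ → v x = 0) → ∃ ω m : E3 → ℝ, ContDiff ℝ 2 ω ∧ (∀ x, 0 ≤ ω x ∧ ω x ≤ 1) ∧
      (∀ x, 2 * R ≤ ‖x‖ → ω x = 0) ∧ Continuous m ∧ (∀ x, |m x| ≤ Λ / R ^ 3) ∧
      (∀ x, 2 * R ≤ ‖x‖ → m x = 0) ∧ (∀ x, m x ≠ 0 → ω x ≤ a / R) ∧ (∫ x, m x = 4 * π) ∧
      ∀ x, -lapE ω x = v x * (1 - ω x) - a * m x := by
  obtain ⟨Λ, p, p', p'', hΛ, hp, h1, h2, hc, h01, hl, hr, hb⟩ := exists_profile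
  refine ⟨Λ, hΛ, fun Rv R hRv hRR hv => ?_⟩
  have hR : 0 < R := hRv.trans hRR
  have hin : ∀ x : E3, ‖x‖ < R → ∀ᶠ y in 𝓝 x, p (‖y‖ / R) = 1 := fun x hx => by
    filter_upwards [(isOpen_lt continuous_norm continuous_const).mem_nhds hx] with y hy
    exact (hl _ ((div_le_one hR).2 (le_of_lt hy))).1
  have hP : ContDiff ℝ 2 fun x : E3 => p (‖x‖ / R) := by
    rw [contDiff_iff_contDiffAt]
    intro x
    by_cases hx : x = 0
    · exact contDiffAt_const.congr_of_eventuallyEq (hin x (by simpa [hx] using hR))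
    · exact hp.contDiffAt.comp x ((contDiffAt_norm ℝ hx).div_const R)
  have hmax : ∀ x : E3, 0 < R ^ 2 * max ‖x‖ R := fun x =>
    mul_pos (pow_pos hR 2) (hR.trans_le (le_max_right _ _))
  refine ⟨fun x => (1 - f x) * p (‖x‖ / R), fun x => p'' (‖x‖ / R) / (R ^ 2 * max ‖x‖ R),
    (contDiff_const.sub h.c2).mul hP, fun x => ?_, fun x hx => ?_, ?_, fun x => ?_,
    fun x hx => ?_, fun x hx => ?_, integral_source_rad h1 h2 hc hl hr hR, fun x => ?_⟩
  · obtain ⟨a1, a2⟩ := h.bounds x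
    obtain ⟨b1, b2⟩ := h01 (‖x‖ / R)
    exact ⟨mul_nonneg (by linarith) b1, mul_le_one₀ (by linarith) b1 b2⟩
  · simp only [(hr _ ((le_div_iff₀ hR).2 hx)).1, mul_zero]
  · exact (hc.comp (continuous_norm.div_const R)).div
      (continuous_const.mul (continuous_norm.max continuous_const)) fun x => (hmax x).ne'
  · rw [abs_div, abs_of_pos (hmax x)]
    refine div_le_div₀ (by linarith) (hb _) (pow_pos hR 3) ?_
    rw [pow_succ R 2]
    exact mul_le_mul_of_nonneg_left (le_max_right _ _) (sq_nonneg R)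
  · simp only [(hr _ ((le_div_iff₀ hR).2 hx)).2.2, zero_div]
  · have hx' : R < ‖x‖ := by
      by_contra h'
      exact hx (by simp only [(hl _ ((div_le_one hR).2 (not_lt.1 h'))).2.2, zero_div])
    obtain ⟨b1, b2⟩ := h01 (‖x‖ / R)
    have e : 1 - f x = a / ‖x‖ := by rw [h.outside hRv hv (hRR.trans hx')]; ring
    have a1 : a / ‖x‖ ≤ a / R := div_le_div_of_nonneg_left h.pos.le hR hx'.le
    have a2 : 0 ≤ a / ‖x‖ := div_nonneg h.pos.le (norm_nonneg x)
    simp only [e]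
    nlinarith
  · rcases lt_or_ge ‖x‖ R with hx | hx
    · have e1 : (fun y : E3 => (1 - f y) * p (‖y‖ / R)) =ᶠ[𝓝 x] fun y => 1 - f y := by
        filter_upwards [hin x hx] with y hy
        rw [hy, mul_one]
      have e2 := hl _ ((div_le_one hR).2 hx.le)
      rw [lapE_congr e1, lapE_one_sub_rad, ← laplacian_eq_lapE h.c2, h.eqn]
      simp only [e2.1, e2.2.2]
      ring
    · have hx' : Rv < ‖x‖ := hRR.trans_le hx
      have e1 : (fun y : E3 => (1 - f y) * p (‖y‖ / R)) =ᶠ[𝓝 x]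
          fun y => a / ‖y‖ * p (‖y‖ / R) := by
        filter_upwards [(isOpen_lt continuous_const continuous_norm).mem_nhds hx'] with y hy
        rw [h.outside hRv hv hy]
        ring
      rw [lapE_congr e1, lapE_newton_rad h1 h2 a hR (norm_pos_iff.1 (hRv.trans hx')), hv x hx']
      simp only [max_eq_left hx]
      ring

end Pool.Agent.BoseTail
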