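import Pool.Agent.Lib.MP_dec75e_mp.BM

/-! Concrete facts on the torus: directions, slices, pair functions. -/

open MeasureTheory Complex Finset Filter Function
open scoped ComplexConjugate Real Topology

noncomputable section

namespace Pool.Agent.BoseTail

variable {N : ℕ} {L : ℝ} {F : Type*} [NormedAddCommGroup F] [NormedSpace ℝ F]

theorem d1_add_tor (c : Fin 3) (s t : ℝ) : d1 (L := L) c (s + t) = d1 c s + d1 c t := by
  simp only [d1, AddCircle.coe_add, Pi.single_add]

theorem d1_neg_tor (c : Fin 3) (s : ℝ) : d1 (L := L) c (-s) = -d1 c s := by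
  simp only [d1, AddCircle.coe_neg, Pi.single_neg]

theorem d1_cont_tor (c : Fin 3) : Continuous (d1 (L := L) c) := by
  have h : Continuous fun s : ℝ => (s : AddCircle L) := AddCircle.continuous_mk' L
  exact (continuous_single (A := fun _ : Fin 3 => AddCircle L) c).comp h

theorem dir_d1 (c : Fin 3) : Dir (d1 (L := L) c) := ⟨d1_add_tor c, d1_cont_tor c⟩

theorem dir_dir (i : Fin N) (c : Fin 3) : Dir (dir (L := L) i c) :=
  ⟨fun s t => by simp only [dir, d1_add_tor, Pi.single_add],
    (continuous_single (A := fun _ : Fin N => T3 L) i).comp (d1_cont_tor c)⟩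

theorem norm_d1_le (c : Fin 3) (s : ℝ) : ‖d1 (L := L) c s‖ ≤ |s| := by
  rw [d1, Pi.norm_single]
  exact QuotientAddGroup.norm_mk_le_norm

theorem add_dir_self (x : Cf N L) (i : Fin N) (c : Fin 3) (s : ℝ) :
    (x + dir i c s : Cf N L) i = x i + d1 c s := by
  simp [dir]

theorem add_dir_ne (x : Cf N L) {i j : Fin N} (h : j ≠ i) (c : Fin 3) (s : ℝ) :
    (x + dir i c s : Cf N L) j = x j := by
  simp [dir, Pi.single_eq_of_ne h]

theorem update_add_d1 (x : Cf N L) (i : Fin N) (y : T3 L) (c : Fin 3) (s : ℝ) :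
    update x i (y + d1 c s) = update x i y + dir i c s := by
  funext j
  by_cases h : j = i
  · subst h
    rw [add_dir_self, update_self, update_self]
  · rw [add_dir_ne _ h, update_of_ne h, update_of_ne h]

theorem update_add_dir_self (x : Cf N L) (i : Fin N) (y : T3 L) (c : Fin 3) (s : ℝ) :
    update (x + dir i c s) i y = update x i y := by
  funext j
  by_cases h : j = i
  · subst h
    rw [update_self, update_self]
  · rw [update_of_ne h, update_of_ne h, add_dir_ne _ h]

theorem update_add_dir_ne (x : Cf N L) {i l : Fin N} (h : l ≠ i) (y : T3 L) (c : Fin 3) (s : ℝ) :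
    update (x + dir l c s) i y = update x i y + dir l c s := by
  funext j
  by_cases hj : j = i
  · subst hj
    rw [update_self, add_dir_ne _ h.symm, update_self]
  · rw [update_of_ne hj]
    by_cases hl : j = l
    · subst hl
      rw [add_dir_self, add_dir_self, update_of_ne hj]
    · rw [add_dir_ne _ hl, add_dir_ne _ hl, update_of_ne hj]

/-- Slices. -/
theorem dd_slice (φ : Cf N L → F) (x : Cf N L) (i : Fin N) (c : Fin 3) (y : T3 L) :
    dd (d1 c) (fun y => φ (update x i y)) y = dd (dir i c) φ (update x i y) := by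
  simp only [dd, update_add_d1]

theorem IsC1.slice {φ : Cf N L → F} (h : IsC1 φ) (x : Cf N L) (i : Fin N) :
    C1T (fun y => φ (update x i y)) := by
  intro c
  have hu : Continuous fun y : T3 L => update x i y := continuous_const.update i continuous_id
  refine D1.of_hd (φ' := fun y => dd (dir i c) φ (update x i y)) (h.1.comp hu)
    ((h.2 i c).cdd.comp hu) fun y => ?_
  simp only [update_add_d1]
  exact (h.2 i c).hd _

theorem gT_slice (φ : Cf N L → F) (x : Cf N L) (i : Fin N) (y : T3 L) :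
    gT (fun y => φ (update x i y)) y = gP i φ (update x i y) := by
  simp only [gT, gP, dd_slice]

theorem C1T.cont {u : T3 L → F} (h : C1T u) : Continuous u := (h 0).cont

theorem C2T.c1 {u : T3 L → F} (h : C2T u) : C1T u := fun c => (h c).1

theorem C1T.cont_gT {u : T3 L → F} (h : C1T u) : Continuous (gT u) :=
  continuous_finsetSum _ fun c _ => (h c).cdd.norm.pow 2

theorem C1T.cont_g1T {u : T3 L → F} (h : C1T u) : Continuous (g1T u) :=
  continuous_finsetSum _ fun c _ => (h c).cdd.norm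

theorem g1T_sq_le (u : T3 L → F) (z : T3 L) : g1T u z ^ 2 ≤ 3 * gT u z := by
  simp only [g1T, gT, Fin.sum_univ_three]
  nlinarith [sq_nonneg (‖dd (d1 0) u z‖ - ‖dd (d1 1) u z‖),
    sq_nonneg (‖dd (d1 0) u z‖ - ‖dd (d1 2) u z‖), sq_nonneg (‖dd (d1 1) u z‖ - ‖dd (d1 2) u z‖)]

theorem C2T.cont_lap {u : T3 L → F} (h : C2T u) : Continuous (lapT u) :=
  continuous_finsetSum _ fun c _ => (h c).2.cdd

theorem IsC1.cont_gP {φ : Cf N L → F} (h : IsC1 φ) (i : Fin N) : Continuous (gP i φ) :=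
  continuous_finsetSum _ fun c _ => (h.2 i c).cdd.norm.pow 2

/-- One-body functions of `x_i - y`. -/
theorem dd_one {u : T3 L → F} (i l : Fin N) (y : T3 L) (c : Fin 3) (x : Cf N L) :
    dd (dir l c) (fun x : Cf N L => u (x i - y)) x =
      if l = i then dd (d1 c) u (x i - y) else 0 := by
  by_cases h : l = i
  · subst h
    rw [if_pos rfl]
    simp only [dd, add_dir_self, add_sub_right_comm]
  · rw [if_neg h]
    refine dd_of_indep (φ := fun x : Cf N L => u (x i - y)) (fun x s => ?_) x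
    simp only [add_dir_ne x (Ne.symm h)]

theorem C1T.one {u : T3 L → F} (h : C1T u) (i : Fin N) (y : T3 L) :
    IsC1 (fun x : Cf N L => u (x i - y)) := by
  have hc : Continuous fun x : Cf N L => x i - y := (continuous_apply i).sub continuous_const
  refine ⟨h.cont.comp hc, fun l c => ?_⟩
  by_cases hl : l = i
  · subst hl
    refine D1.of_hd (φ' := fun x => dd (d1 c) u (x l - y)) (h.cont.comp hc)
      ((h c).cdd.comp hc) fun x => ?_
    simp only [add_dir_self, add_sub_right_comm]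
    exact (h c).hd _
  · refine D1.of_indep (h.cont.comp hc) fun x s => ?_
    simp only [add_dir_ne x (Ne.symm hl)]

theorem D1.hd_neg_tor {u : T3 L → F} {c : Fin 3} (h : D1 (d1 c) u) (z : T3 L) :
    HasDerivAt (fun s : ℝ => u (z - d1 c s)) (-dd (d1 c) u z) 0 := by
  have h1 : HasDerivAt (fun s : ℝ => u (z + d1 c s)) (dd (d1 c) u z) (-0) := by
    rw [neg_zero]; exact h.hd z
  have h2 : HasDerivAt (fun s : ℝ => -s) (-1) 0 := hasDerivAt_neg' 0
  have h3 := HasDerivAt.scomp (h := fun s : ℝ => -s) (0 : ℝ) h1 h2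
  have h4 : ((fun s : ℝ => u (z + d1 c s)) ∘ fun s : ℝ => -s) = fun s => u (z - d1 c s) := by
    funext s
    simp only [Function.comp, d1_neg_tor, sub_eq_add_neg]
  rw [h4] at h3
  simpa using h3

/-- One-body functions of `y - x_i`. -/
theorem dd_one' {u : T3 L → F} (h : C1T u) (i l : Fin N) (y : T3 L) (c : Fin 3) (x : Cf N L) :
    dd (dir l c) (fun x : Cf N L => u (y - x i)) x =
      if l = i then -dd (d1 c) u (y - x i) else 0 := by
  by_cases hl : l = i
  · subst hl
    rw [if_pos rfl]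
    refine dd_eq ?_
    simp only [add_dir_self, sub_add_eq_sub_sub]
    exact (h c).hd_neg_tor _
  · rw [if_neg hl]
    refine dd_of_indep (φ := fun x : Cf N L => u (y - x i)) (fun x s => ?_) x
    simp only [add_dir_ne x (Ne.symm hl)]

theorem C1T.one' {u : T3 L → F} (h : C1T u) (i : Fin N) (y : T3 L) :
    IsC1 (fun x : Cf N L => u (y - x i)) := by
  have hc : Continuous fun x : Cf N L => y - x i := continuous_const.sub (continuous_apply i)
  refine ⟨h.cont.comp hc, fun l c => ?_⟩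
  by_cases hl : l = i
  · subst hl
    refine D1.of_hd (φ' := fun x => -dd (d1 c) u (y - x l)) (h.cont.comp hc)
      ((h c).cdd.comp hc).neg fun x => ?_
    simp only [add_dir_self, sub_add_eq_sub_sub]
    exact (h c).hd_neg_tor _
  · refine D1.of_indep (h.cont.comp hc) fun x s => ?_
    simp only [add_dir_ne x (Ne.symm hl)]

theorem hd_pair_tor {u : T3 L → F} {c : Fin 3} (h : D1 (d1 c) u) {i j : Fin N} (hij : i ≠ j)
    (l : Fin N) (x : Cf N L) :
    HasDerivAt (fun s : ℝ => u ((x + dir l c s : Cf N L) i - (x + dir l c s : Cf N L) j))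
      (if l = i then dd (d1 c) u (x i - x j)
        else if l = j then -dd (d1 c) u (x i - x j) else 0) 0 := by
  by_cases hi : l = i
  · subst hi
    rw [if_pos rfl]
    simp only [add_dir_self, add_dir_ne x hij.symm, add_sub_right_comm]
    exact h.hd _
  · rw [if_neg hi]
    by_cases hj : l = j
    · subst hj
      rw [if_pos rfl]
      simp only [add_dir_self, add_dir_ne x hij, sub_add_eq_sub_sub]
      exact h.hd_neg_tor _
    · rw [if_neg hj]
      simp only [add_dir_ne x (Ne.symm hi), add_dir_ne x (Ne.symm hj)]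
      exact hasDerivAt_const _ _

/-- Pair functions. -/
theorem dd_pair {u : T3 L → F} {c : Fin 3} (h : D1 (d1 c) u) {i j : Fin N} (hij : i ≠ j)
    (l : Fin N) (x : Cf N L) :
    dd (dir l c) (fun x : Cf N L => u (x i - x j)) x =
      if l = i then dd (d1 c) u (x i - x j)
      else if l = j then -dd (d1 c) u (x i - x j) else 0 :=
  dd_eq (hd_pair_tor h hij l x)

theorem D1.pair {u : T3 L → F} {c : Fin 3} (h : D1 (d1 c) u) {i j : Fin N} (hij : i ≠ j)
    (l : Fin N) : D1 (dir l c) (fun x : Cf N L => u (x i - x j)) := by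
  have hc : Continuous fun x : Cf N L => x i - x j :=
    (continuous_apply i).sub (continuous_apply j)
  refine D1.of_hd (φ' := fun x => if l = i then dd (d1 c) u (x i - x j)
    else if l = j then -dd (d1 c) u (x i - x j) else 0) (h.cont.comp hc) ?_
    (hd_pair_tor h hij l)
  by_cases hi : l = i
  · simp only [if_pos hi]
    exact h.cdd.comp hc
  · simp only [if_neg hi]
    by_cases hj : l = j
    · simp only [if_pos hj]
      exact (h.cdd.comp hc).neg
    · simp only [if_neg hj]
      exact continuous_const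

theorem C1T.pair {u : T3 L → F} (h : C1T u) {i j : Fin N} (hij : i ≠ j) :
    IsC1 (fun x : Cf N L => u (x i - x j)) :=
  ⟨h.cont.comp ((continuous_apply i).sub (continuous_apply j)), fun l c => (h c).pair hij l⟩

section c1
variable {𝕜 : Type*} [RCLike 𝕜]

theorem IsC1.const (a : F) : IsC1 (fun _ : Cf N L => a) :=
  ⟨continuous_const, fun _ _ => D1.const a⟩
theorem IsC1.add {φ χ : Cf N L → F} (h : IsC1 φ) (h' : IsC1 χ) : IsC1 (fun x => φ x + χ x) :=
  ⟨h.1.add h'.1, fun i c => (h.2 i c).add (h'.2 i c)⟩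
theorem IsC1.sub {φ χ : Cf N L → F} (h : IsC1 φ) (h' : IsC1 χ) : IsC1 (fun x => φ x - χ x) :=
  ⟨h.1.sub h'.1, fun i c => (h.2 i c).sub (h'.2 i c)⟩
theorem IsC1.neg {φ : Cf N L → F} (h : IsC1 φ) : IsC1 (fun x => -φ x) :=
  ⟨h.1.neg, fun i c => (h.2 i c).neg⟩
theorem IsC1.sum {ι : Type*} {s : Finset ι} {f : ι → Cf N L → F} (h : ∀ a ∈ s, IsC1 (f a)) :
    IsC1 (fun x => ∑ a ∈ s, f a x) :=
  ⟨continuous_finsetSum _ fun a ha => (h a ha).1, fun i c => D1.sum fun a ha => (h a ha).2 i c⟩
theorem IsC1.mul' {φ χ : Cf N L → 𝕜} (h : IsC1 φ) (h' : IsC1 χ) : IsC1 (fun x => φ x * χ x) :=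
  ⟨h.1.mul h'.1, fun i c => (h.2 i c).mul (dir_dir i c) (h'.2 i c)⟩
theorem IsC1.const_mul (a : 𝕜) {φ : Cf N L → 𝕜} (h : IsC1 φ) : IsC1 (fun x => a * φ x) :=
  ⟨continuous_const.mul h.1, fun i c => (h.2 i c).const_mul a⟩
theorem IsC1.prod {ι : Type*} [DecidableEq ι] {s : Finset ι} {f : ι → Cf N L → 𝕜}
    (h : ∀ a ∈ s, IsC1 (f a)) : IsC1 (fun x => ∏ a ∈ s, f a x) :=
  ⟨continuous_finsetProd _ fun a ha => (h a ha).1,
    fun i c => D1.prod (dir_dir i c) fun a ha => (h a ha).2 i c⟩
theorem IsC1.ofReal {f : Cf N L → ℝ} (h : IsC1 f) : IsC1 (fun x => (f x : ℂ)) :=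
  ⟨Complex.continuous_ofReal.comp h.1, fun i c => (h.2 i c).ofReal⟩
theorem IsC1.conj {φ : Cf N L → ℂ} (h : IsC1 φ) : IsC1 (fun x => conj (φ x)) :=
  ⟨Complex.continuous_conj.comp h.1, fun i c => (h.2 i c).conj⟩
theorem IsC1.re {φ : Cf N L → ℂ} (h : IsC1 φ) : IsC1 (fun x => (φ x).re) :=
  ⟨Complex.continuous_re.comp h.1, fun i c => (h.2 i c).re⟩
theorem IsC1.im {φ : Cf N L → ℂ} (h : IsC1 φ) : IsC1 (fun x => (φ x).im) :=
  ⟨Complex.continuous_im.comp h.1, fun i c => (h.2 i c).im⟩
theorem IsC1.mul {f : Cf N L → ℝ} {φ : Cf N L → ℂ} (hf : IsC1 f) (h : IsC1 φ) :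
    IsC1 (mul f φ) :=
  hf.ofReal.mul' h
theorem dd_mul_real {f : Cf N L → ℝ} {φ : Cf N L → ℂ} (hf : IsC1 f) (h : IsC1 φ) (i : Fin N)
    (c : Fin 3) (x : Cf N L) :
    dd (dir i c) (mul f φ) x =
      ((dd (dir i c) f x : ℝ) : ℂ) * φ x + (f x : ℂ) * dd (dir i c) φ x := by
  have := dd_mul (dir_dir i c) (hf.2 i c).ofReal (h.2 i c) x
  rw [dd_ofReal (hf.2 i c)] at this
  exact this

end c1

theorem add_dir_comp_tor (x : Cf N L) (σ : Equiv.Perm (Fin N)) (i : Fin N) (c : Fin 3) (s : ℝ) :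
    (x + dir i c s : Cf N L) ∘ σ = (x ∘ σ : Cf N L) + dir (σ.symm i) c s := by
  funext j
  by_cases h : j = σ.symm i
  · subst h
    rw [add_dir_self]
    simp only [Function.comp, Equiv.apply_symm_apply, add_dir_self]
  · rw [add_dir_ne _ h]
    have h' : σ j ≠ i := fun e => h (by rw [← e, Equiv.symm_apply_apply])
    simp only [Function.comp, add_dir_ne x h']

/-- Permutations of the particles. -/
theorem dd_perm (φ : Cf N L → F) (σ : Equiv.Perm (Fin N)) (i : Fin N) (c : Fin 3) (x : Cf N L) :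
    dd (dir i c) (fun x : Cf N L => φ (x ∘ σ)) x = dd (dir (σ.symm i) c) φ (x ∘ σ) := by
  simp only [dd, add_dir_comp_tor]

theorem IsC1.perm {φ : Cf N L → F} (h : IsC1 φ) (σ : Equiv.Perm (Fin N)) :
    IsC1 (fun x : Cf N L => φ (x ∘ σ)) := by
  have hc : Continuous fun x : Cf N L => (x ∘ σ : Cf N L) :=
    continuous_pi fun j => continuous_apply (σ j)
  refine ⟨h.1.comp hc, fun i c => ?_⟩
  refine D1.of_hd (φ' := fun x => dd (dir (σ.symm i) c) φ (x ∘ σ)) (h.1.comp hc)
    ((h.2 _ c).cdd.comp hc) fun x => ?_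
  simp only [add_dir_comp_tor]
  exact (h.2 _ c).hd _

theorem nb_nonneg (s : ℝ) (z : T3 L) : 0 ≤ nb s z := by
  unfold nb; split_ifs <;> norm_num
theorem nb_le_one (s : ℝ) (z : T3 L) : nb s z ≤ 1 := by
  unfold nb; split_ifs <;> norm_num
theorem nb_mono {s t : ℝ} (h : s ≤ t) (z : T3 L) : nb s z ≤ nb t z := by
  by_cases hs : ‖z‖ ≤ s
  · simp only [nb, if_pos hs, if_pos (hs.trans h), le_refl]
  · have := nb_nonneg t z
    simpa only [nb, if_neg hs] using this
theorem nb_neg (s : ℝ) (z : T3 L) : nb s (-z) = nb s z := by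
  simp only [nb, norm_neg]
theorem nb_sub_comm (s : ℝ) (y z : T3 L) : nb s (y - z) = nb s (z - y) := by
  rw [← nb_neg s (z - y), neg_sub]
theorem nb_mul_self (s : ℝ) (z : T3 L) : nb s z * nb s z = nb s z := by
  unfold nb; split_ifs <;> norm_num
/-- Triangle inequality for the indicators. -/
theorem nb_mul_le (s t : ℝ) (y z : T3 L) : nb s y * nb t z ≤ nb s y * nb (s + t) (y + z) := by
  by_cases hy : ‖y‖ ≤ s
  · by_cases hz : ‖z‖ ≤ t
    · have h : ‖y + z‖ ≤ s + t := (norm_add_le y z).trans (add_le_add hy hz)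
      simp only [nb, if_pos hy, if_pos hz, if_pos h, le_refl]
    · have h0 : nb t z = 0 := if_neg hz
      rw [h0, mul_zero]
      exact mul_nonneg (nb_nonneg _ _) (nb_nonneg _ _)
  · have h0 : nb s y = 0 := if_neg hy
    rw [h0, zero_mul, zero_mul]

/-- Outside an open region where a function vanishes or is constant, its derivative vanishes. -/
theorem dd_d1_eq_zero_of_out {u : T3 L → F} {s : ℝ} {a : F} (h : ∀ z, s < ‖z‖ → u z = a)
    (c : Fin 3) {z : T3 L} (hz : s < ‖z‖) : dd (d1 c) u z = 0 :=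
  dd_of_eventually_const (c := a) (dir_d1 c)
    (((isOpen_lt continuous_const continuous_norm).mem_nhds hz :
      {y : T3 L | s < ‖y‖} ∈ 𝓝 z) |> Filter.mem_of_superset <| fun y hy => h y hy)

theorem dd_d1_eq_zero_of_in {u : T3 L → F} {s : ℝ} {a : F} (h : ∀ z, ‖z‖ < s → u z = a)
    (c : Fin 3) {z : T3 L} (hz : ‖z‖ < s) : dd (d1 c) u z = 0 :=
  dd_of_eventually_const (c := a) (dir_d1 c)
    (((isOpen_lt continuous_norm continuous_const).mem_nhds hz :
      {y : T3 L | ‖y‖ < s} ∈ 𝓝 z) |> Filter.mem_of_superset <| fun y hy => h y hy)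

end Pool.Agent.BoseTail
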