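import Pool.Agent.Lib.MP_dec75e_mp.Hol
import Pool.Agent.Lib.MP_dec75e_mp.Jen

/-! Energy of the localised amplitude: change of variables. -/

open MeasureTheory Complex Finset Filter Function
open scoped ComplexConjugate Real Topology

noncomputable section

namespace Pool.Agent.BoseTail

variable {N : ℕ} {L : ℝ} [Fact (0 < L)]

/-- The sheared and localised wave function. -/
def phz (o j : Fin N) (θ η : T3 L → ℝ) (ψ : Cf N L → ℂ) (z : T3 L) : Cf N L → ℂ :=
  mul (cut o j θ η) (fun x => ψ (update x o (x j + z)))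

/-- The multiplier with the window centre `y` as a parameter. -/
def vth (o j : Fin N) (θ η b : T3 L → ℝ) (y : T3 L) (x : Cf N L) : ℝ :=
  b (x o - x j) * (θ (y - x j) * ∏ l ∈ (univ.erase o).erase j, η (x l - y))

/-- The energy density after the change of variables. -/
def edens (P : Par) (w : T3 L → ℝ) (ψ : Cf N L → ℂ) (o j : Fin N) (θ η b : T3 L → ℝ) (y : T3 L)
    (x : Cf N L) : ℝ :=
  (3 / 2) * (∑ c, ‖dd (dir o c) (mul (vth o j θ η b y) ψ) x +
      dd (dir j c) (mul (vth o j θ η b y) ψ) x‖ ^ 2) +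
    (1 / 2) * (∑ l ∈ (univ.erase o).erase j, gP l (mul (vth o j θ η b y) ψ) x) +
    (US w (univ.erase o) x - lam P w ψ (univ.erase o)) * ‖mul (vth o j θ η b y) ψ x‖ ^ 2

variable {P : Par} {w : T3 L → ℝ} {ψ : Cf N L → ℂ} {o j : Fin N} {B δ : ℝ}
  {θ η η' b : T3 L → ℝ}

theorem vth_c1 (h : Cuts B δ θ η η' b) (hj : j ≠ o) (y : T3 L) : IsC1 (vth o j θ η b y) :=
  (h.hb.c1.pair hj.symm).mul'
    ((h.hθ.c1.one' j y).mul' (IsC1.prod fun l _ => h.hη.c1.one l y))

omit [Fact (0 < L)] in
theorem cont_sl_lea (o j : Fin N) :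
    Continuous fun p : T3 L × Cf N L => update p.2 o (p.2 j + p.1) :=
  (continuous_sl o j).comp continuous_swap

theorem phz_fam (h : Cuts B δ θ η η' b) (hj : j ≠ o) (hψ : IsC1 ψ) : Fam (phz o j θ η ψ) := by
  have hc := cut_c1 h.hθ h.hη hj
  refine ⟨fun z => hc.mul (hψ.shear hj z), ?_, fun i c => ?_⟩
  · exact (Complex.continuous_ofReal.comp (hc.1.comp continuous_snd)).mul
      (hψ.1.comp (cont_sl_lea o j))
  · have e : (uncurry fun z x => dd (dir i c) (phz o j θ η ψ z) x) =
        fun p : T3 L × Cf N L =>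
          ((dd (dir i c) (cut o j θ η) p.2 : ℝ) : ℂ) * ψ (update p.2 o (p.2 j + p.1)) +
            (cut o j θ η p.2 : ℂ) * (if i = o then 0
              else if i = j then dd (dir o c) ψ (update p.2 o (p.2 j + p.1)) +
                dd (dir j c) ψ (update p.2 o (p.2 j + p.1))
              else dd (dir i c) ψ (update p.2 o (p.2 j + p.1))) := by
      funext p
      have h1 := dd_mul_real hc (hψ.shear hj p.1) i c p.2
      have h2 : dd (dir i c) (fun x : Cf N L => ψ (update x o (x j + p.1))) p.2 = _ :=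
        dd_eq (hd_shear hj hψ i c p.2 p.1)
      rw [h2] at h1
      exact h1
    rw [e]
    refine ((Complex.continuous_ofReal.comp ((hc.2 i c).cdd.comp continuous_snd)).mul
      (hψ.1.comp (cont_sl_lea o j))).add
      ((Complex.continuous_ofReal.comp (hc.1.comp continuous_snd)).mul ?_)
    split_ifs
    · exact continuous_const
    · exact ((hψ.2 o c).cdd.comp (cont_sl_lea o j)).add ((hψ.2 j c).cdd.comp (cont_sl_lea o j))
    · exact (hψ.2 i c).cdd.comp (cont_sl_lea o j)

theorem psit_eq (hψ : Continuous ψ) (hU : BM (Ub b)) :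
    psit o j θ η b ψ = fun x => ∫ z, (Ub b z : ℂ) * phz o j θ η ψ z x := by
  funext x
  simp only [psit, mul, amp, phz]
  rw [← integral_const_mul]
  congr 1
  funext z
  ring

theorem cont_vth_lea (h : Cuts B δ θ η η' b) (o j : Fin N) :
    Continuous fun p : T3 L × Cf N L => vth o j θ η b p.1 p.2 := by
  have h1 := h.hb.c1.cont
  have h2 := h.hθ.c1.cont
  have h3 := h.hη.c1.cont
  unfold vth
  fun_prop

theorem cont_dd_vth_lea (h : Cuts B δ θ η η' b) (hj : j ≠ o) (l : Fin N) (c : Fin 3) :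
    Continuous fun p : T3 L × Cf N L => dd (dir l c) (vth o j θ η b p.1) p.2 := by
  have h1 := h.hb.c1.cont
  have h2 := h.hθ.c1.cont
  have h3 := h.hη.c1.cont
  have h1' := ((h.hb.c1.pair hj.symm).2 l c).cdd
  have h2' := (h.hθ.c1 c).cdd
  have h3' := (h.hη.c1 c).cdd
  have e : (fun p : T3 L × Cf N L => dd (dir l c) (vth o j θ η b p.1) p.2) =
      fun p : T3 L × Cf N L =>
        dd (dir l c) (fun x : Cf N L => b (x o - x j)) p.2 *
            (θ (p.1 - p.2 j) * ∏ i ∈ (univ.erase o).erase j, η (p.2 i - p.1)) +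
          b (p.2 o - p.2 j) *
            ((if l = j then -dd (d1 c) θ (p.1 - p.2 j) else 0) *
                (∏ i ∈ (univ.erase o).erase j, η (p.2 i - p.1)) +
              θ (p.1 - p.2 j) * ∑ i ∈ (univ.erase o).erase j,
                (if l = i then dd (d1 c) η (p.2 i - p.1) else 0) *
                  ∏ i' ∈ ((univ.erase o).erase j).erase i, η (p.2 i' - p.1)) := by
    funext p
    have a1 := (h.hb.c1.pair hj.symm).2 l c
    have a2 := (h.hθ.c1.one' j p.1).2 l c
    have a3 : ∀ i ∈ (univ.erase o).erase j, D1 (dir l c) (fun x : Cf N L => η (x i - p.1)) :=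
      fun i _ => (h.hη.c1.one i p.1).2 l c
    have a4 := D1.prod (dir_dir l c) a3
    have b1 := dd_mul (dir_dir l c) a1 (a2.mul (dir_dir l c) a4) p.2
    rw [dd_mul (dir_dir l c) a2 a4, dd_prod (dir_dir l c) a3, dd_one' h.hθ.c1] at b1
    simp only [dd_one] at b1
    exact b1
  rw [e]
  refine ((h1'.comp continuous_snd).mul (by fun_prop)).add (Continuous.mul (by fun_prop)
    ((Continuous.mul ?_ (by fun_prop)).add (Continuous.mul (by fun_prop)
      (continuous_finsetSum _ fun i _ => Continuous.mul ?_ (by fun_prop)))))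
  · split_ifs
    · fun_prop
    · exact continuous_const
  · split_ifs
    · fun_prop
    · exact continuous_const

theorem cont_dd_mul_lea (h : Cuts B δ θ η η' b) (hj : j ≠ o) (hψ : IsC1 ψ) (l : Fin N)
    (c : Fin 3) :
    Continuous fun p : T3 L × Cf N L => dd (dir l c) (mul (vth o j θ η b p.1) ψ) p.2 := by
  have e : (fun p : T3 L × Cf N L => dd (dir l c) (mul (vth o j θ η b p.1) ψ) p.2) =
      fun p : T3 L × Cf N L => ((dd (dir l c) (vth o j θ η b p.1) p.2 : ℝ) : ℂ) * ψ p.2 +
        (vth o j θ η b p.1 p.2 : ℂ) * dd (dir l c) ψ p.2 :=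
    funext fun p => dd_mul_real (vth_c1 h hj p.1) hψ l c p.2
  rw [e]
  exact ((Complex.continuous_ofReal.comp (cont_dd_vth_lea h hj l c)).mul
    (hψ.1.comp continuous_snd)).add ((Complex.continuous_ofReal.comp (cont_vth_lea h o j)).mul
      ((hψ.2 l c).cdd.comp continuous_snd))

theorem continuous_edens (h : Cuts B δ θ η η' b) (hj : j ≠ o) (hw : Continuous w) (hψ : IsC1 ψ) :
    Continuous (uncurry (edens P w ψ o j θ η b)) := by
  have h1 := cont_dd_mul_lea h hj hψ
  have h2 : Continuous fun p : T3 L × Cf N L => mul (vth o j θ η b p.1) ψ p.2 :=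
    (Complex.continuous_ofReal.comp (cont_vth_lea h o j)).mul (hψ.1.comp continuous_snd)
  have h3 : Continuous fun p : T3 L × Cf N L => US w (univ.erase o) p.2 :=
    (continuous_US hw _).comp continuous_snd
  exact ((continuous_const.mul (continuous_finsetSum _ fun c _ =>
      ((h1 o c).add (h1 j c)).norm.pow 2)).add
    (continuous_const.mul (continuous_finsetSum _ fun l _ => continuous_finsetSum _ fun c _ =>
      (h1 l c).norm.pow 2))).add ((h3.sub continuous_const).mul (h2.norm.pow 2))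

theorem mul_vth_lea (hj : j ≠ o) (z : T3 L) (x : Cf N L) :
    mul (vth o j θ η b (x o)) ψ (update x o (x j + z)) = (b z : ℂ) * phz o j θ η ψ z x := by
  have e : ∏ l ∈ (univ.erase o).erase j, η (update x o (x j + z) l - x o) =
      ∏ l ∈ (univ.erase o).erase j, η (x l - x o) :=
    Finset.prod_congr rfl fun l hl => by
      rw [update_of_ne (Finset.ne_of_mem_erase (Finset.mem_of_mem_erase hl))]
  simp only [mul, vth, phz, cut, hol, update_self, update_of_ne hj, add_sub_cancel_left, e]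
  push_cast
  ring

theorem dd_phz_lea (h : Cuts B δ θ η η' b) (hj : j ≠ o) (hψ : IsC1 ψ) {l : Fin N} (hl : l ≠ o)
    (c : Fin 3) (z : T3 L) (x : Cf N L) :
    (b z : ℂ) * dd (dir l c) (phz o j θ η ψ z) x =
      if l = j then dd (dir o c) (mul (vth o j θ η b (x o)) ψ) (update x o (x j + z)) +
        dd (dir j c) (mul (vth o j θ η b (x o)) ψ) (update x o (x j + z))
      else dd (dir l c) (mul (vth o j θ η b (x o)) ψ) (update x o (x j + z)) := by
  have h1 := hd_shear hj ((vth_c1 h hj (x o)).mul hψ) l c x z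
  rw [if_neg hl] at h1
  have h2 := ((((phz_fam h hj hψ).c1 z).2 l c).hd x).const_mul (b z : ℂ)
  refine h2.unique (h1.congr_of_eventuallyEq (Eventually.of_forall fun s => ?_))
  have h3 := mul_vth_lea (θ := θ) (η := η) (b := b) (ψ := ψ) hj z (x + dir l c s)
  rw [add_dir_ne x hl.symm] at h3
  exact h3.symm

theorem edens_eq_lea (h : Cuts B δ θ η η' b) (hj : j ≠ o) (hψ : IsC1 ψ) (z : T3 L) (x : Cf N L) :
    edens P w ψ o j θ η b (x o) (update x o (x j + z)) =
      b z ^ 2 * ((1 / 2) * (∑ i ∈ univ.erase o, gP i (phz o j θ η ψ z) x) +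
        US w (univ.erase o) x * ‖phz o j θ η ψ z x‖ ^ 2 -
        lam P w ψ (univ.erase o) * ‖phz o j θ η ψ z x‖ ^ 2 + gP j (phz o j θ η ψ z) x) := by
  have hn : ∀ a : ℂ, ‖(b z : ℂ) * a‖ ^ 2 = b z ^ 2 * ‖a‖ ^ 2 := fun a => by
    rw [norm_mul, mul_pow, Complex.norm_real, Real.norm_eq_abs, sq_abs]
  have e1 : ∑ c, ‖dd (dir o c) (mul (vth o j θ η b (x o)) ψ) (update x o (x j + z)) +
      dd (dir j c) (mul (vth o j θ η b (x o)) ψ) (update x o (x j + z))‖ ^ 2 =
      b z ^ 2 * gP j (phz o j θ η ψ z) x := by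
    rw [gP, Finset.mul_sum]
    refine Finset.sum_congr rfl fun c _ => ?_
    have := dd_phz_lea h hj hψ hj c z x
    rw [if_pos rfl] at this
    rw [← this, hn]
  have e2 : ∑ l ∈ (univ.erase o).erase j,
      gP l (mul (vth o j θ η b (x o)) ψ) (update x o (x j + z)) =
      b z ^ 2 * ∑ l ∈ (univ.erase o).erase j, gP l (phz o j θ η ψ z) x := by
    rw [Finset.mul_sum]
    refine Finset.sum_congr rfl fun l hl => ?_
    rw [gP, gP, Finset.mul_sum]
    refine Finset.sum_congr rfl fun c _ => ?_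
    have := dd_phz_lea h hj hψ (Finset.ne_of_mem_erase (Finset.mem_of_mem_erase hl)) c z x
    rw [if_neg (Finset.ne_of_mem_erase hl)] at this
    rw [← this, hn]
  have e3 := Finset.add_sum_erase (univ.erase o) (fun i => gP i (phz o j θ η ψ z) x)
    (Finset.mem_erase.2 ⟨hj, Finset.mem_univ j⟩)
  rw [edens, e1, e2, mul_vth_lea hj, hn, US_update (Finset.notMem_erase o univ), ← e3]
  ring

theorem phz_energy (h : Cuts B δ θ η η' b) (hj : j ≠ o) (hw : Continuous w) (hψ : IsC1 ψ) :
    ∫ z, Ub b z * (QS P w ψ (univ.erase o) (phz o j θ η ψ z) + ∫ x, gP j (phz o j θ η ψ z) x) =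
      (∫ y, b y ^ 2)⁻¹ * ∫ y, ∫ x, edens P w ψ o j θ η b y x := by
  have key : ∀ z, Ub b z *
      (QS P w ψ (univ.erase o) (phz o j θ η ψ z) + ∫ x, gP j (phz o j θ η ψ z) x) =
      (∫ y, b y ^ 2)⁻¹ *
        ((1 : ℝ) * ∫ x, edens P w ψ o j θ η b (x o) (update x o (x j + z))) := by
    intro z
    have hc := (phz_fam h hj hψ).c1 z
    have i1 : ∀ i, Integrable (gP i (phz o j θ η ψ z)) := fun i =>
      cont_integrable (hc.cont_gP i)
    have i2 : Integrable fun x => (1 / 2 : ℝ) * ∑ i ∈ univ.erase o, gP i (phz o j θ η ψ z) x :=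
      (integrable_finsetSum _ fun i _ => i1 i).const_mul _
    have i3 : Integrable fun x => US w (univ.erase o) x * ‖phz o j θ η ψ z x‖ ^ 2 :=
      cont_integrable ((continuous_US hw _).mul (hc.1.norm.pow 2))
    have i4 : Integrable fun x => lam P w ψ (univ.erase o) * ‖phz o j θ η ψ z x‖ ^ 2 :=
      cont_integrable (continuous_const.mul (hc.1.norm.pow 2))
    have i5 : Integrable fun x =>
        (1 / 2 : ℝ) * (∑ i ∈ univ.erase o, gP i (phz o j θ η ψ z) x) +
          US w (univ.erase o) x * ‖phz o j θ η ψ z x‖ ^ 2 := i2.add i3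
    have i6 : Integrable fun x =>
        (1 / 2 : ℝ) * (∑ i ∈ univ.erase o, gP i (phz o j θ η ψ z) x) +
          US w (univ.erase o) x * ‖phz o j θ η ψ z x‖ ^ 2 -
          lam P w ψ (univ.erase o) * ‖phz o j θ η ψ z x‖ ^ 2 := i5.sub i4
    simp only [edens_eq_lea h hj hψ]
    rw [integral_const_mul, integral_add i6 (i1 j), integral_sub i5 i4,
      integral_add i2 i3, integral_const_mul, integral_const_mul,
      integral_finsetSum _ fun i _ => i1 i]
    simp only [QS, ES, nsq, Ub]
    ring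
  simp only [key]
  rw [integral_const_mul]
  congr 1
  have := cv (U := fun _ => (1 : ℝ)) (BM.const 1) (d := edens P w ψ o j θ η b)
    (BM.of_cont (continuous_edens h hj hw hψ)) hj
  simpa using this

end Pool.Agent.BoseTail
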