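import Pool.Agent.Lib.MP_dec75e_mp.LEa

/-! Energy of the localised amplitude: the bound. -/

open MeasureTheory Complex Finset Filter Function
open scoped ComplexConjugate Real Topology

noncomputable section

namespace Pool.Agent.BoseTail

theorem sq_le_leb {a M n₁ n₂ : ℝ} (h₁ : n₁ * n₁ = n₁) (h₂ : n₂ * n₂ = n₂)
    (h : |a| ≤ M * (n₁ * n₂)) : a ^ 2 ≤ M ^ 2 * (n₁ * n₂) := by
  have h3 := pow_le_pow_left₀ (abs_nonneg a) h 2
  rw [sq_abs] at h3
  calc a ^ 2 ≤ (M * (n₁ * n₂)) ^ 2 := h3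
    _ = M ^ 2 * ((n₁ * n₁) * (n₂ * n₂)) := by ring
    _ = _ := by rw [h₁, h₂]

section
variable {N : ℕ} {L : ℝ} [Fact (0 < L)] {P : Par} {w : T3 L → ℝ} {ψ : Cf N L → ℂ} {o j : Fin N}
  {B δ : ℝ} {θ η η' b : T3 L → ℝ}

omit [Fact (0 < L)] in
theorem sum_split_leb (hj : j ≠ o) (f : Fin N → ℝ) :
    ∑ i, f i = f o + f j + ∑ l ∈ (univ.erase o).erase j, f l := by
  rw [← Finset.add_sum_erase univ f (mem_univ o),
    ← Finset.add_sum_erase (univ.erase o) f (mem_erase.2 ⟨hj, mem_univ j⟩), add_assoc]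

omit [Fact (0 < L)] in
theorem dd_vth_leb (h : Cuts B δ θ η η' b) (hj : j ≠ o) (y : T3 L) (x : Cf N L) (i : Fin N)
    (c : Fin 3) :
    dd (dir i c) (vth o j θ η b y) x =
      (if i = o then dd (d1 c) b (x o - x j) else if i = j then -dd (d1 c) b (x o - x j) else 0)
          * (θ (y - x j) * ∏ l ∈ (univ.erase o).erase j, η (x l - y)) +
        b (x o - x j) * ((if i = j then -dd (d1 c) θ (y - x j) else 0)
            * ∏ l ∈ (univ.erase o).erase j, η (x l - y) +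
          θ (y - x j) * (if i ∈ (univ.erase o).erase j then dd (d1 c) η (x i - y) *
            ∏ l ∈ ((univ.erase o).erase j).erase i, η (x l - y) else 0)) := by
  have hb : D1 (dir i c) fun x : Cf N L => b (x o - x j) := (h.hb.c1 c).pair hj.symm i
  have hθ : D1 (dir i c) fun x : Cf N L => θ (y - x j) := (h.hθ.c1.one' j y).2 i c
  have hη : ∀ l ∈ (univ.erase o).erase j, D1 (dir i c) fun x : Cf N L => η (x l - y) :=
    fun l _ => (h.hη.c1.one l y).2 i c
  have hE := D1.prod (dir_dir i c) hη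
  have e1 := dd_mul (dir_dir i c) hb (hθ.mul (dir_dir i c) hE) x
  have e2 := dd_mul (dir_dir i c) hθ hE x
  have e3 := dd_prod (dir_dir i c) hη x
  simp only [dd_one, ite_mul, zero_mul, Finset.sum_ite_eq] at e3
  rw [e2, e3, dd_pair (h.hb.c1 c) hj.symm, dd_one' h.hθ.c1] at e1
  exact e1

theorem vth_grad (h : Cuts B δ θ η η' b) (hδ : 0 < δ) (hj : j ≠ o) (y : T3 L) (x : Cf N L) :
    vth o j θ η b y x ^ 2 ≤ nb (3 / δ) (x o - x j) * nb (6 / δ) (y - x j) ∧
      ∑ i, gP i (vth o j θ η b y) x ≤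
        12 * B ^ 2 * δ ^ 2 * (nb (3 / δ) (x o - x j) * nb (6 / δ) (y - x j)) := by
  have s1 : 3 * (1 / δ) = 3 / δ := by ring
  have s2 : 3 * (2 / δ) = 6 / δ := by ring
  have s3 : B / (1 / δ) = B * δ := by field_simp
  have s4 : B / (2 / δ) = B * δ / 2 := by field_simp
  have s5 : B / (8 / δ) = B * δ / 8 := by field_simp
  have hb1 := h.hb.le_nb (x o - x j)
  have hθ1 := h.hθ.le_nb (y - x j)
  have hb0 := h.hb.nonneg (x o - x j)
  have hθ0 := h.hθ.nonneg (y - x j)
  have hb2 := fun c => h.hb.grad_le_nb c (x o - x j)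
  have hθ2 := fun c => h.hθ.grad_le_nb c (y - x j)
  have hη2 := fun c => hole_sum h.hη ((univ.erase o).erase j) (fun l => x l - y) c
  have hM : 0 ≤ B * δ := s3 ▸ (abs_nonneg _).trans (h.hb.grad 0 0)
  rw [s1] at hb1
  rw [s2] at hθ1
  rw [s1, s3] at hb2
  rw [s2, s4] at hθ2
  rw [s5] at hη2
  have hn1 := nb_mul_self (3 / δ) (x o - x j)
  have hn2 := nb_mul_self (6 / δ) (y - x j)
  have hE0 : 0 ≤ ∏ l ∈ (univ.erase o).erase j, η (x l - y) :=
    Finset.prod_nonneg fun l _ => h.hη.nonneg _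
  have hE1 : ∏ l ∈ (univ.erase o).erase j, η (x l - y) ≤ 1 :=
    Finset.prod_le_one (fun l _ => h.hη.nonneg _) fun l _ => h.hη.le _
  have hdd := dd_vth_leb h hj y x
  unfold vth gP
  unfold vth at hdd
  simp only [hdd, Real.norm_eq_abs, sq_abs]
  clear hdd
  set n₁ := nb (3 / δ) (x o - x j)
  set n₂ := nb (6 / δ) (y - x j)
  set E := ∏ l ∈ (univ.erase o).erase j, η (x l - y)
  set β := b (x o - x j)
  set τ := θ (y - x j)
  have hn10 : 0 ≤ n₁ := hb0.trans hb1
  have hn20 : 0 ≤ n₂ := hθ0.trans hθ1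
  have hτE : τ * E ≤ n₂ := (mul_le_of_le_one_right hθ0 hE1).trans hθ1
  have hτE0 : 0 ≤ τ * E := mul_nonneg hθ0 hE0
  have hβτ : (β * τ) ^ 2 ≤ n₁ * n₂ := by
    have := sq_le_leb (a := β * τ) (M := 1) hn1 hn2 (by
      rw [abs_of_nonneg (mul_nonneg hb0 hθ0), one_mul]
      exact mul_le_mul hb1 hθ1 hθ0 hn10)
    simpa using this
  refine ⟨?_, ?_⟩
  · have := sq_le_leb (a := β * (τ * E)) (M := 1) hn1 hn2 (by
      rw [abs_of_nonneg (mul_nonneg hb0 hτE0), one_mul]
      exact mul_le_mul hb1 hτE hτE0 hn10)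
    simpa using this
  rw [Finset.sum_comm]
  have key : ∀ c : Fin 3, ∑ i : Fin N,
      ((if i = o then dd (d1 c) b (x o - x j) else if i = j then -dd (d1 c) b (x o - x j) else 0)
          * (τ * E) + β * ((if i = j then -dd (d1 c) θ (y - x j) else 0) * E +
          τ * (if i ∈ (univ.erase o).erase j then dd (d1 c) η (x i - y) *
            ∏ l ∈ ((univ.erase o).erase j).erase i, η (x l - y) else 0))) ^ 2
      ≤ 4 * (B * δ) ^ 2 * (n₁ * n₂) := by
    intro c
    have ho : o ∉ (univ.erase o).erase j := by simp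
    have hjT : j ∉ (univ.erase o).erase j := by simp
    have a1 : |dd (d1 c) b (x o - x j) * (τ * E)| ≤ B * δ * (n₁ * n₂) := by
      rw [abs_mul, abs_of_nonneg hτE0, ← mul_assoc (B * δ)]
      exact mul_le_mul (hb2 c) hτE hτE0 (mul_nonneg hM hn10)
    have a2 : |β * (dd (d1 c) θ (y - x j) * E)| ≤ B * δ / 2 * (n₁ * n₂) := by
      rw [abs_mul, abs_mul, abs_of_nonneg hb0, abs_of_nonneg hE0]
      have h1 : |dd (d1 c) θ (y - x j)| * E ≤ B * δ / 2 * n₂ :=
        (mul_le_of_le_one_right (abs_nonneg _) hE1).trans (hθ2 c)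
      calc _ ≤ n₁ * (B * δ / 2 * n₂) := mul_le_mul hb1 h1 (by positivity) hn10
        _ = _ := by ring
    have b1 := sq_le_leb hn1 hn2 a1
    have b2 : (-dd (d1 c) b (x o - x j) * (τ * E) + β * (-dd (d1 c) θ (y - x j) * E)) ^ 2
        ≤ (3 / 2 * (B * δ)) ^ 2 * (n₁ * n₂) := by
      refine sq_le_leb hn1 hn2 ?_
      have e : -dd (d1 c) b (x o - x j) * (τ * E) + β * (-dd (d1 c) θ (y - x j) * E)
          = -(dd (d1 c) b (x o - x j) * (τ * E) + β * (dd (d1 c) θ (y - x j) * E)) := by ring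
      rw [e, abs_neg]
      refine (abs_add_le _ _).trans ?_
      linarith
    have b3 : ∑ i ∈ (univ.erase o).erase j,
        ((if i = o then dd (d1 c) b (x o - x j) else if i = j then -dd (d1 c) b (x o - x j) else 0)
          * (τ * E) + β * ((if i = j then -dd (d1 c) θ (y - x j) else 0) * E +
          τ * (if i ∈ (univ.erase o).erase j then dd (d1 c) η (x i - y) *
            ∏ l ∈ ((univ.erase o).erase j).erase i, η (x l - y) else 0))) ^ 2
        ≤ (n₁ * n₂) * (B * δ / 8) ^ 2 := by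
      calc _ = ∑ i ∈ (univ.erase o).erase j, (β * τ) ^ 2 * (dd (d1 c) η (x i - y) *
            ∏ l ∈ ((univ.erase o).erase j).erase i, η (x l - y)) ^ 2 := by
            refine Finset.sum_congr rfl fun i hi => ?_
            have hij : i ≠ j := (mem_erase.1 hi).1
            have hio : i ≠ o := (mem_erase.1 (mem_erase.1 hi).2).1
            rw [if_neg hio, if_neg hij, if_neg hij, if_pos hi]
            ring
        _ ≤ _ := by
            rw [← Finset.mul_sum]
            exact mul_le_mul hβτ (hη2 c) (Finset.sum_nonneg fun _ _ => sq_nonneg _)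
              (mul_nonneg hn10 hn20)
    rw [sum_split_leb hj]
    simp only [if_true, if_neg hj, if_neg hj.symm, if_neg ho, if_neg hjT, mul_zero, zero_mul,
      add_zero] at b3 ⊢
    have : 0 ≤ (B * δ) ^ 2 * (n₁ * n₂) := mul_nonneg (sq_nonneg _) (mul_nonneg hn10 hn20)
    nlinarith
  refine (Finset.sum_le_sum fun c _ => key c).trans (le_of_eq ?_)
  simp only [Finset.sum_const, Finset.card_univ, Fintype.card_fin, nsmul_eq_mul]
  push_cast
  ring

omit [Fact (0 < L)] in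
theorem compl_pair_leb (o j : Fin N) :
    ({o, j} : Finset (Fin N))ᶜ = (univ.erase o).erase j := by
  ext l
  simp only [mem_compl, mem_insert, mem_singleton, mem_erase, mem_univ, and_true, not_or, ne_eq]
  exact and_comm

theorem rhoW_nonneg_leb (P : Par) : 0 ≤ rho N L * P.W := by
  have h1 : 0 < L := Lpos
  have h2 := P.hV
  have h3 : 0 < P.R0 := lt_of_lt_of_le one_pos P.hR0
  unfold rho Par.W
  positivity

theorem BM_nbnb_leb (hψ : Continuous ψ) (s t : ℝ) (o j : Fin N) :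
    BM (uncurry fun (y : T3 L) (x : Cf N L) =>
      nb s (x o - x j) * nb t (y - x j) * ‖ψ x‖ ^ 2) := by
  have h1 : BM fun p : T3 L × Cf N L => nb s (p.2 o - p.2 j) :=
    (BM_nb s).comp (by fun_prop)
  have h2 : BM fun p : T3 L × Cf N L => nb t (p.1 - p.2 j) :=
    (BM_nb t).comp (by fun_prop)
  have h3 : BM fun p : T3 L × Cf N L => ‖ψ p.2‖ ^ 2 :=
    ((BM.of_cont hψ).norm.pow 2).comp measurable_snd
  exact (h1.mul h2).mul h3

theorem edens_le (hw : Wp P w) (hψ : GS w ψ) (h : Cuts B δ θ η η' b) (hδ : 0 < δ) (hj : j ≠ o)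
    (y : T3 L) :
    ∫ x, edens P w ψ o j θ η b y x ≤ 6 * (2 * (rho N L * P.W) + 6 * B ^ 2 * δ ^ 2) *
      ∫ x, nb (3 / δ) (x o - x j) * nb (6 / δ) (y - x j) * ‖ψ x‖ ^ 2 := by
  have hF := vth_c1 h hj y
  have hφ : IsC1 (mul (vth o j θ η b y) ψ) := hF.mul hψ.c1
  have hle := hψ.local_energy hw {o, j} hF
  have hQ := QS_nonneg hw hψ ((univ.erase o).erase j) hφ
  have hρ := rhoW_nonneg_leb (N := N) (L := L) P
  have hcard : ({o, j} : Finset (Fin N)).card = 2 := card_pair hj.symm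
  have hlam : lam P w ψ ((univ.erase o).erase j) ≤ lam P w ψ (univ.erase o) := by
    unfold lam
    have h1 : ((univ.erase o)ᶜ : Finset (Fin N)).card ≤ (((univ.erase o).erase j)ᶜ).card :=
      card_le_card (compl_subset_compl.2 (erase_subset _ _))
    have h2 : (((univ.erase o)ᶜ : Finset (Fin N)).card : ℝ)
        ≤ (((univ.erase o).erase j)ᶜ).card := by exact_mod_cast h1
    have := mul_le_mul_of_nonneg_right h2 hρ
    linarith
  rw [compl_pair_leb, sum_pair hj.symm, hcard] at hle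
  have hg := vth_grad h hδ hj y
  have hnb : Integrable fun x : Cf N L =>
      nb (3 / δ) (x o - x j) * nb (6 / δ) (y - x j) * ‖ψ x‖ ^ 2 :=
    ((BM_nbnb_leb hψ.c1.1 (3 / δ) (6 / δ) o j).comp
      (T := fun x => (y, x)) (by fun_prop)).integrable
  have hn2 : Continuous fun x => ‖ψ x‖ ^ 2 := hψ.c1.1.norm.pow 2
  have r1 : nsq (mul (vth o j θ η b y) ψ)
      ≤ ∫ x, nb (3 / δ) (x o - x j) * nb (6 / δ) (y - x j) * ‖ψ x‖ ^ 2 := by
    refine integral_mono (cont_integrable (hφ.1.norm.pow 2)) hnb fun x => ?_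
    simp only [mul, norm_mul, Complex.norm_real, Real.norm_eq_abs, mul_pow, sq_abs]
    exact mul_le_mul_of_nonneg_right (hg x).1 (sq_nonneg _)
  have r2 : ∑ i, ∫ x, gP i (vth o j θ η b y) x * ‖ψ x‖ ^ 2
      ≤ 12 * B ^ 2 * δ ^ 2 *
        ∫ x, nb (3 / δ) (x o - x j) * nb (6 / δ) (y - x j) * ‖ψ x‖ ^ 2 := by
    have hi : ∀ i ∈ (univ : Finset (Fin N)),
        Integrable fun x => gP i (vth o j θ η b y) x * ‖ψ x‖ ^ 2 :=
      fun i _ => cont_integrable ((hF.cont_gP i).mul hn2)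
    rw [← integral_finsetSum _ hi, ← integral_const_mul]
    refine integral_mono (integrable_finsetSum _ hi) (hnb.const_mul _) fun x => ?_
    simp only
    rw [← Finset.sum_mul, ← mul_assoc]
    exact mul_le_mul_of_nonneg_right (hg x).2 (sq_nonneg _)
  generalize (∫ x, nb (3 / δ) (x o - x j) * nb (6 / δ) (y - x j) * ‖ψ x‖ ^ 2) = I at r1 r2 ⊢
  have hedens : edens P w ψ o j θ η b y = fun x =>
      (3 / 2) * (∑ c, ‖dd (dir o c) (mul (vth o j θ η b y) ψ) x +
        dd (dir j c) (mul (vth o j θ η b y) ψ) x‖ ^ 2) +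
      (1 / 2) * (∑ l ∈ (univ.erase o).erase j, gP l (mul (vth o j θ η b y) ψ) x) +
      (US w (univ.erase o) x - lam P w ψ (univ.erase o)) *
        ‖mul (vth o j θ η b y) ψ x‖ ^ 2 := rfl
  have hec : Continuous (edens P w ψ o j θ η b y) :=
    (continuous_edens h hj hw.cont hψ.c1).comp (f := fun x => (y, x)) (by fun_prop)
  generalize mul (vth o j θ η b y) ψ = φ at hedens hle hQ r1 hφ
  set T := (univ.erase o).erase j with hT
  have hφ2 : Continuous fun x => ‖φ x‖ ^ 2 := hφ.1.norm.pow 2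
  have i1 : ∀ i, Integrable (gP i φ) := fun i => cont_integrable (hφ.cont_gP i)
  have i2 : Integrable fun x => ∑ l ∈ T, gP l φ x := integrable_finsetSum _ fun l _ => i1 l
  have i3 : Integrable fun x => (US w univ x - US w T x) * ‖φ x‖ ^ 2 :=
    cont_integrable (((continuous_US hw.cont _).sub (continuous_US hw.cont _)).mul hφ2)
  have i4 : Integrable fun x => US w T x * ‖φ x‖ ^ 2 :=
    cont_integrable ((continuous_US hw.cont _).mul hφ2)
  have i5 : Integrable fun x => ‖φ x‖ ^ 2 := cont_integrable hφ2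
  have p3 : 0 ≤ ∫ x, (US w univ x - US w T x) * ‖φ x‖ ^ 2 :=
    integral_nonneg fun x =>
      mul_nonneg (sub_nonneg.2 (US_mono hw.nonneg (subset_univ _) x)) (sq_nonneg _)
  have j1 : Integrable fun x => 3 * gP o φ x + 3 * gP j φ x :=
    ((i1 o).const_mul 3).add ((i1 j).const_mul 3)
  have j2 : Integrable fun x => 3 * gP o φ x + 3 * gP j φ x
      + (US w univ x - US w T x) * ‖φ x‖ ^ 2 := j1.add i3
  have j3 : Integrable fun x => (1 / 2) * (∑ l ∈ T, gP l φ x) + US w T x * ‖φ x‖ ^ 2 :=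
    (i2.const_mul _).add i4
  have j4 : Integrable fun x => (1 / 2) * (∑ l ∈ T, gP l φ x) + US w T x * ‖φ x‖ ^ 2
      - lam P w ψ T * ‖φ x‖ ^ 2 := j3.sub (i5.const_mul _)
  have main : ∫ x, edens P w ψ o j θ η b y x ≤ 3 * (∫ x, gP o φ x) + 3 * (∫ x, gP j φ x)
      + (∫ x, (US w univ x - US w T x) * ‖φ x‖ ^ 2) + QS P w ψ T φ := by
    calc _ ≤ ∫ x, (3 * gP o φ x + 3 * gP j φ x + (US w univ x - US w T x) * ‖φ x‖ ^ 2
          + ((1 / 2) * (∑ l ∈ T, gP l φ x) + US w T x * ‖φ x‖ ^ 2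
            - lam P w ψ T * ‖φ x‖ ^ 2)) := by
          refine integral_mono (cont_integrable hec) (j2.add j4) fun x => ?_
          rw [hedens]
          simp only
          have q1 : ∑ c, ‖dd (dir o c) φ x + dd (dir j c) φ x‖ ^ 2
              ≤ 2 * gP o φ x + 2 * gP j φ x := by
            unfold gP
            rw [Finset.mul_sum, Finset.mul_sum, ← Finset.sum_add_distrib]
            refine Finset.sum_le_sum fun c _ => ?_
            have := pow_le_pow_left₀ (norm_nonneg _)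
              (norm_add_le (dd (dir o c) φ x) (dd (dir j c) φ x)) 2
            nlinarith [sq_nonneg (‖dd (dir o c) φ x‖ - ‖dd (dir j c) φ x‖)]
          have q2 : (US w (univ.erase o) x - lam P w ψ (univ.erase o)) * ‖φ x‖ ^ 2
              ≤ (US w univ x - lam P w ψ T) * ‖φ x‖ ^ 2 :=
            mul_le_mul_of_nonneg_right
              (sub_le_sub (US_mono hw.nonneg (subset_univ _) x) hlam) (sq_nonneg _)
          linarith
      _ = _ := by
          rw [integral_add j2 j4, integral_add j1 i3,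
            integral_add ((i1 o).const_mul 3) ((i1 j).const_mul 3), integral_const_mul,
            integral_const_mul, integral_sub j3 (i5.const_mul _),
            integral_add (i2.const_mul _) i4, integral_const_mul, integral_const_mul,
            integral_finsetSum _ fun l _ => i1 l]
          rfl
  have r3 := mul_le_mul_of_nonneg_left r1 hρ
  push_cast at hle
  nlinarith

theorem pair_energy_leb {C : ℝ} (h : MS P C B w ψ δ θ η η' b) (hj : j ≠ o) :
    QS P w ψ (univ.erase o) (psit o j θ η b ψ) + ∫ x, gP j (psit o j θ η b ψ) x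
      ≤ 216 * (6 * (2 * P.W + 6 * B ^ 2)) * δ ^ 2 *
        ∫ x, nb (3 / δ) (x o - x j) * ‖ψ x‖ ^ 2 := by
  obtain ⟨hρ, hδ1, -, hL, hU, hU0, hUc⟩ := h.basic
  have hδ := h.δpos
  have hw := h.st.pot.wp
  have hψ := h.st.gs
  have hfam := phz_fam (o := o) h.cuts hj hψ.c1
  have hc := hfam.continuous_ES hw.cont (univ.erase o)
  have j1 := jensen_Q hfam hU.bm hU0 hU.int hw.cont (univ.erase o)
    (l := lam P w ψ (univ.erase o))
    fun χ hχ => sub_nonneg.1 (QS_nonneg (P := P) hw hψ (univ.erase o) hχ)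
  have j2 := jensen_gP hfam hU.bm hU0 hU.int j
  have j3 := phz_energy (P := P) h.cuts hj hw.cont hψ.c1
  rw [← psit_eq hψ.c1.1 hU.bm] at j1 j2
  have e1 : ∫ z, Ub b z * (QS P w ψ (univ.erase o) (phz o j θ η ψ z)
      + ∫ x, gP j (phz o j θ η ψ z) x)
      = (∫ z, Ub b z * (ES w (univ.erase o) (phz o j θ η ψ z)
          - lam P w ψ (univ.erase o) * nsq (phz o j θ η ψ z)))
        + ∫ z, Ub b z * ∫ x, gP j (phz o j θ η ψ z) x := by
    have u1 : Integrable fun z => Ub b z * (ES w (univ.erase o) (phz o j θ η ψ z)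
        - lam P w ψ (univ.erase o) * nsq (phz o j θ η ψ z)) :=
      cont_integrable (hUc.mul (hc.1.sub (continuous_const.mul hc.2.1)))
    have u2 : Integrable fun z => Ub b z * ∫ x, gP j (phz o j θ η ψ z) x :=
      cont_integrable (hUc.mul (hc.2.2 j))
    rw [← integral_add u1 u2]
    congr 1
    funext z
    simp only [QS, mul_add]
  have hW : 0 ≤ P.W := by
    have h2 := P.hV
    have h3 : 0 < P.R0 := lt_of_lt_of_le one_pos P.hR0
    unfold Par.W
    positivity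
  have hI0 : 0 ≤ ∫ x, nb (3 / δ) (x o - x j) * ‖ψ x‖ ^ 2 :=
    integral_nonneg fun x => mul_nonneg (nb_nonneg _ _) (sq_nonneg _)
  have hbm := BM_nbnb_leb hψ.c1.1 (3 / δ) (6 / δ) o j
  have hbm1 : BM fun x : Cf N L => nb (3 / δ) (x o - x j) * ‖ψ x‖ ^ 2 :=
    ((BM_nb _).comp (by fun_prop)).mul ((BM.of_cont hψ.c1.1).norm.pow 2)
  have k1 : ∫ y, ∫ x, nb (3 / δ) (x o - x j) * nb (6 / δ) (y - x j) * ‖ψ x‖ ^ 2
      ≤ (2 * (6 / δ)) ^ 3 * ∫ x, nb (3 / δ) (x o - x j) * ‖ψ x‖ ^ 2 := by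
    rw [hbm.swap]
    have e : ∀ x : Cf N L, ∫ y, nb (3 / δ) (x o - x j) * nb (6 / δ) (y - x j) * ‖ψ x‖ ^ 2
        = (∫ z : T3 L, nb (6 / δ) z) * (nb (3 / δ) (x o - x j) * ‖ψ x‖ ^ 2) := by
      intro x
      rw [integral_mul_const, integral_const_mul,
        integral_sub_right_eq_self (fun z : T3 L => nb (6 / δ) z) (x j)]
      ring
    simp_rw [e]
    rw [integral_const_mul]
    exact mul_le_mul_of_nonneg_right (integral_nb_le (by positivity)) hI0
  have hc0 : 0 ≤ 6 * (2 * (rho N L * P.W) + 6 * B ^ 2 * δ ^ 2) := by positivity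
  have hc1 : 6 * (2 * (rho N L * P.W) + 6 * B ^ 2 * δ ^ 2)
      ≤ 6 * (2 * P.W + 6 * B ^ 2) * δ ^ 2 := by
    have h1 : rho N L ≤ δ ^ 2 := h.hρ.trans (pow_le_pow_of_le_one hδ.le hδ1 (by norm_num))
    have := mul_le_mul_of_nonneg_right h1 hW
    nlinarith
  have k2 : ∫ y, ∫ x, edens P w ψ o j θ η b y x
      ≤ 6 * (2 * P.W + 6 * B ^ 2) * δ ^ 2 *
        ((2 * (6 / δ)) ^ 3 * ∫ x, nb (3 / δ) (x o - x j) * ‖ψ x‖ ^ 2) := by
    calc _ ≤ ∫ y, 6 * (2 * (rho N L * P.W) + 6 * B ^ 2 * δ ^ 2) *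
          ∫ x, nb (3 / δ) (x o - x j) * nb (6 / δ) (y - x j) * ‖ψ x‖ ^ 2 :=
          integral_mono
            (BM.of_cont (continuous_edens h.cuts hj hw.cont hψ.c1)).integral_right.integrable
            (hbm.integral_right.integrable.const_mul _)
            fun y => edens_le hw hψ h.cuts hδ hj y
      _ ≤ _ := by
          rw [integral_const_mul]
          exact (mul_le_mul_of_nonneg_left k1 hc0).trans
            (mul_le_mul_of_nonneg_right hc1 (by positivity))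
  have hb := h.cuts.hb.integral_sq (by positivity) (by
    refine le_trans ?_ hL
    rw [mul_one_div]
    exact div_le_div_of_nonneg_right (by norm_num) hδ.le)
  have hb0 : 0 < (2 * (1 / δ)) ^ 3 := by positivity
  have hb1 : (∫ y, b y ^ 2)⁻¹ ≤ ((2 * (1 / δ)) ^ 3)⁻¹ := inv_anti₀ hb0 hb
  have hb2 : 0 ≤ (∫ y, b y ^ 2)⁻¹ := inv_nonneg.2 (hb0.le.trans hb)
  have k3 := (mul_le_mul_of_nonneg_left k2 hb2).trans
    (mul_le_mul_of_nonneg_right hb1 (by positivity))
  have e2 : ((2 * (1 / δ)) ^ 3)⁻¹ * (6 * (2 * P.W + 6 * B ^ 2) * δ ^ 2 *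
        ((2 * (6 / δ)) ^ 3 * ∫ x, nb (3 / δ) (x o - x j) * ‖ψ x‖ ^ 2))
      = 216 * (6 * (2 * P.W + 6 * B ^ 2)) * δ ^ 2 *
        ∫ x, nb (3 / δ) (x o - x j) * ‖ψ x‖ ^ 2 := by
    field_simp
    ring
  rw [e2, ← j3, e1] at k3
  unfold QS
  linarith

end

theorem psit_energy (P : Par) (C B : ℝ) : ∃ K : ℝ, 1 ≤ K ∧ ∀ (N : ℕ) (L : ℝ) [Fact (0 < L)]
    (w : T3 L → ℝ) (ψ : Cf N L → ℂ) (δ : ℝ) (θ η η' b : T3 L → ℝ), MS P C B w ψ δ θ η η' b →
      ∀ o, ∑ j ∈ univ.erase o, QS P w ψ (univ.erase o) (psit o j θ η b ψ) ≤ K * rho N L / δ ∧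
        ∑ j ∈ univ.erase o, ∫ x, gP j (psit o j θ η b ψ) x ≤ K * rho N L / δ := by
  have hW : 0 ≤ P.W := by
    have h2 := P.hV
    have h3 : 0 < P.R0 := lt_of_lt_of_le one_pos P.hR0
    unfold Par.W
    positivity
  refine ⟨1 + 216 * (6 * (2 * P.W + 6 * B ^ 2)) * (27 * |C|),
    le_add_of_nonneg_right (by positivity), fun N L _ w ψ δ θ η η' b h o => ?_⟩
  obtain ⟨hρ, -, -, -, hU, -, -⟩ := h.basic
  have hδ := h.δpos
  have hD := h.ap.db.two o (3 / δ) (by positivity) (by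
    refine le_trans (mul_le_mul_of_nonneg_right ?_ hρ.le) h.h60
    refine pow_le_pow_left₀ (by positivity) ?_ 2
    rw [← mul_div_assoc]
    exact div_le_div_of_nonneg_right (by norm_num) hδ.le)
  have hD' : D2 ψ o (3 / δ) ≤ |C| * rho N L * (3 / δ) ^ 3 :=
    hD.trans (mul_le_mul_of_nonneg_right
      (mul_le_mul_of_nonneg_right (le_abs_self C) hρ.le) (by positivity))
  have hsum : ∑ j ∈ univ.erase o, (QS P w ψ (univ.erase o) (psit o j θ η b ψ)
      + ∫ x, gP j (psit o j θ η b ψ) x)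
      ≤ (1 + 216 * (6 * (2 * P.W + 6 * B ^ 2)) * (27 * |C|)) * rho N L / δ := by
    calc _ ≤ ∑ j ∈ univ.erase o, 216 * (6 * (2 * P.W + 6 * B ^ 2)) * δ ^ 2 *
          ∫ x, nb (3 / δ) (x o - x j) * ‖ψ x‖ ^ 2 :=
          Finset.sum_le_sum fun j hj => pair_energy_leb h (mem_erase.1 hj).1
      _ = 216 * (6 * (2 * P.W + 6 * B ^ 2)) * δ ^ 2 * D2 ψ o (3 / δ) := by
          rw [← Finset.mul_sum]; rfl
      _ ≤ 216 * (6 * (2 * P.W + 6 * B ^ 2)) * δ ^ 2 * (|C| * rho N L * (3 / δ) ^ 3) :=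
          mul_le_mul_of_nonneg_left hD' (by positivity)
      _ = (216 * (6 * (2 * P.W + 6 * B ^ 2)) * (27 * |C|)) * rho N L / δ := by
          field_simp
          ring
      _ ≤ _ := by
          refine div_le_div_of_nonneg_right (mul_le_mul_of_nonneg_right ?_ hρ.le) hδ.le
          linarith
  have hQ : 0 ≤ ∑ j ∈ univ.erase o, QS P w ψ (univ.erase o) (psit o j θ η b ψ) :=
    Finset.sum_nonneg fun j hj => QS_nonneg h.st.pot.wp h.st.gs _
      (psit_c1 h.cuts hU.bm (mem_erase.1 hj).1 h.st.gs.c1)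
  have hG : 0 ≤ ∑ j ∈ univ.erase o, ∫ x, gP j (psit o j θ η b ψ) x :=
    Finset.sum_nonneg fun j _ => integral_nonneg fun x =>
      Finset.sum_nonneg fun c _ => sq_nonneg _
  rw [Finset.sum_add_distrib] at hsum
  constructor <;> linarith

end Pool.Agent.BoseTail
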