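import Pool.Agent.Lib.MP_dec75e_mp.Meas

/-! Poincare inequalities on balls of the torus. -/

open MeasureTheory Complex Finset Filter Function
open scoped ComplexConjugate Real Topology

noncomputable section

namespace Pool.Agent.BoseTail

variable {L : ℝ} [Fact (0 < L)]

omit [Fact (0 < L)] in
theorem rep_poin (a : AddCircle L) : ∃ t : ℝ, (t : AddCircle L) = a ∧ |t| = ‖a‖ := by
  induction a using QuotientAddGroup.induction_on with
  | H x =>
    refine ⟨x - round (L⁻¹ * x) * L, ?_, (AddCircle.norm_eq L).symm⟩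
    have h0 : (((round (L⁻¹ * x) : ℝ) * L : ℝ) : AddCircle L) = 0 :=
      (AddCircle.coe_eq_zero_iff L).2 ⟨round (L⁻¹ * x), by simp⟩
    rw [AddCircle.coe_sub, h0, sub_zero]

omit [Fact (0 < L)] in
/-- A shift is made of three coordinate shifts. -/
theorem dec_poin (y : T3 L) : ∃ (t : Fin 3 → ℝ) (a : Fin 3 → T3 L), (∀ c, |t c| ≤ ‖y‖) ∧
    (∀ c τ, τ ∈ Set.uIoc 0 (t c) → ‖a c + d1 c τ‖ ≤ ‖y‖) ∧
    ∀ (u : T3 L → ℂ) (z : T3 L),
      u (z + y) - u z = ∑ c, (u (z + a c + d1 c (t c)) - u (z + a c)) := by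
  choose t ht ht' using fun c => rep_poin (y c)
  have h1 : ∀ c, |t c| ≤ ‖y‖ := fun c => (ht' c).trans_le (norm_le_pi_norm y c)
  refine ⟨t, fun c c' => if c' < c then y c' else 0, h1, fun c τ hτ => ?_, fun u z => ?_⟩
  · have hτ' : |τ| ≤ |t c| := by
      have := Set.abs_sub_left_of_mem_uIcc (Set.uIoc_subset_uIcc hτ)
      simpa using this
    refine (pi_norm_le_iff_of_nonneg (norm_nonneg _)).2 fun c' => ?_
    by_cases h : c' = c
    · subst h
      have h2 := (norm_le_pi_norm (d1 (L := L) c' τ) c').trans (norm_d1_le c' τ)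
      simpa using h2.trans (hτ'.trans (h1 c'))
    · have h2 : d1 (L := L) c τ c' = 0 := Pi.single_eq_of_ne h _
      simp only [Pi.add_apply, h2, add_zero]
      split_ifs
      · exact norm_le_pi_norm y c'
      · simp
  · have e0 : (z + fun c' : Fin 3 => if c' < 0 then y c' else 0) = z := by
      funext c'
      simp
    have e1 : (z + fun c' : Fin 3 => if c' < 1 then y c' else 0) = z + d1 0 (t 0) := by
      funext c'
      fin_cases c' <;> simp [d1, ht]
    have e2 : (z + fun c' : Fin 3 => if c' < 2 then y c' else 0) =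
        z + d1 0 (t 0) + d1 1 (t 1) := by
      funext c'
      fin_cases c' <;> simp [d1, ht]
    have e3 : z + d1 0 (t 0) + d1 1 (t 1) + d1 2 (t 2) = z + y := by
      funext c'
      fin_cases c' <;> simp [d1, ht]
    rw [Fin.sum_univ_three, e0, e1, e2, e3]
    ring

omit [Fact (0 < L)] in
/-- Lipschitz bound from a bound on the coordinate derivatives. -/
theorem C1T.lip {u : T3 L → ℂ} (hu : C1T u) {M : ℝ} (hM : ∀ c z, ‖dd (d1 c) u z‖ ≤ M)
    (y z : T3 L) : ‖u (z + y) - u z‖ ≤ 3 * M * ‖y‖ := by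
  obtain ⟨t, a, h1, -, h3⟩ := dec_poin y
  have hM0 : 0 ≤ M := (norm_nonneg _).trans (hM 0 0)
  rw [h3 u z]
  refine (norm_sum_le _ _).trans ?_
  have h4 : ∀ c, ‖u (z + a c + d1 c (t c)) - u (z + a c)‖ ≤ M * ‖y‖ := fun c => by
    rw [(hu c).ftc (dir_d1 c)]
    refine (intervalIntegral.norm_integral_le_of_norm_le_const fun τ _ => hM c _).trans ?_
    rw [sub_zero]
    exact mul_le_mul_of_nonneg_left (h1 c) hM0
  refine (sum_le_sum fun c _ => h4 c).trans (le_of_eq ?_)
  simp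
  ring

theorem shift_poin {F : T3 L → ℝ} (hF : Continuous F) (h0 : ∀ z, 0 ≤ F z) {s : ℝ} {b : T3 L}
    (hb : ‖b‖ ≤ 2 * s) : ∫ z, nb s z * F (z + b) ≤ ∫ z, nb (3 * s) z * F z := by
  rw [← integral_add_right_eq_self (fun z => nb (3 * s) z * F z) b]
  refine integral_mono ((BM_nb s).mul (BM.of_cont (by fun_prop))).integrable
    (((BM_nb (3 * s)).comp (measurable_add_const b)).mul (BM.of_cont (by fun_prop))).integrable
    fun z => mul_le_mul_of_nonneg_right ?_ (h0 _)
  by_cases hz : ‖z‖ ≤ s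
  · have : ‖z + b‖ ≤ 3 * s := by linarith [norm_add_le z b]
    simp [nb, hz, this]
  · simp only [nb, if_neg hz]
    split_ifs <;> norm_num

instance fin_poin (t : ℝ) : IsFiniteMeasure (volume.restrict (Set.uIoc 0 t)) :=
  Real.isFiniteMeasure_restrict_Ioc _ _

theorem bm_poin {𝕜 : Type*} [RCLike 𝕜] [MeasurableSpace 𝕜] [BorelSpace 𝕜] {F : T3 L → 𝕜}
    (hF : Continuous F) (a : T3 L) (c : Fin 3) :
    BM (uncurry fun (z : T3 L) (τ : ℝ) => F (z + a + d1 c τ)) := by
  have h : Continuous fun p : T3 L × ℝ => p.1 + a + d1 c p.2 :=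
    (continuous_fst.add continuous_const).add ((dir_d1 c).cont.comp continuous_snd)
  exact (BM.of_cont hF).comp h.measurable

theorem step_poin {F : T3 L → ℝ} (hF : Continuous F) (h0 : ∀ z, 0 ≤ F z) {s t : ℝ} {a : T3 L}
    {c : Fin 3} (ht : |t| ≤ 2 * s) (ha : ∀ τ, τ ∈ Set.uIoc 0 t → ‖a + d1 c τ‖ ≤ 2 * s) :
    ∫ z, nb s z * ∫ τ in Set.uIoc 0 t, F (z + a + d1 c τ) ≤
      2 * s * ∫ z, nb (3 * s) z * F z := by
  simp only [← integral_const_mul]
  have hB : BM (uncurry fun (z : T3 L) (τ : ℝ) => nb s z * F (z + a + d1 c τ)) :=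
    ((BM_nb s).comp measurable_fst).mul (bm_poin hF a c)
  rw [BM.swap hB, integral_const_mul]
  have hI : 0 ≤ ∫ z, nb (3 * s) z * F z :=
    integral_nonneg fun z => mul_nonneg (nb_nonneg _ _) (h0 z)
  refine (Real.le_norm_self _).trans ((norm_setIntegral_le_of_norm_le_const
    (C := ∫ z, nb (3 * s) z * F z) (by simp) fun τ hτ => ?_).trans ?_)
  · rw [Real.norm_of_nonneg (integral_nonneg fun z => mul_nonneg (nb_nonneg _ _) (h0 _))]
    simp only [add_assoc]
    exact shift_poin hF h0 (ha τ hτ)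
  · rw [mul_comm]
    refine mul_le_mul_of_nonneg_right ?_ hI
    simpa [measureReal_def] using ht

theorem core_poin {F : Fin 3 → T3 L → ℝ} (hF : ∀ c, Continuous (F c)) (h0 : ∀ c z, 0 ≤ F c z)
    {s κ : ℝ} (hκ : 0 ≤ κ) {t : Fin 3 → ℝ} {a : Fin 3 → T3 L} (ht : ∀ c, |t c| ≤ 2 * s)
    (ha : ∀ c τ, τ ∈ Set.uIoc 0 (t c) → ‖a c + d1 c τ‖ ≤ 2 * s) {G : T3 L → ℝ}
    (hG : Continuous G)
    (h : ∀ z, G z ≤ κ * ∑ c, ∫ τ in Set.uIoc 0 (t c), F c (z + a c + d1 c τ)) :
    ∫ z, nb s z * G z ≤ κ * (2 * s) * ∫ z, nb (3 * s) z * ∑ c, F c z := by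
  have hb : ∀ c, BM fun z => nb s z * ∫ τ in Set.uIoc 0 (t c), F c (z + a c + d1 c τ) :=
    fun c => (BM_nb s).mul (bm_poin (hF c) (a c) c).integral_right
  calc ∫ z, nb s z * G z
      ≤ ∫ z, κ * ∑ c, nb s z * ∫ τ in Set.uIoc 0 (t c), F c (z + a c + d1 c τ) := by
        refine integral_mono ((BM_nb s).mul (BM.of_cont hG)).integrable
          ((BM.const κ).mul (BM.sum fun c _ => hb c)).integrable fun z => ?_
        simp only [← mul_sum]
        rw [mul_left_comm]
        exact mul_le_mul_of_nonneg_left (h z) (nb_nonneg _ _)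
    _ = κ * ∑ c, ∫ z, nb s z * ∫ τ in Set.uIoc 0 (t c), F c (z + a c + d1 c τ) := by
        rw [integral_const_mul, integral_finsetSum _ fun c _ => (hb c).integrable]
    _ ≤ κ * ∑ c, 2 * s * ∫ z, nb (3 * s) z * F c z :=
        mul_le_mul_of_nonneg_left
          (sum_le_sum fun c _ => step_poin (hF c) (h0 c) (ht c) (ha c)) hκ
    _ = κ * (2 * s) * ∫ z, nb (3 * s) z * ∑ c, F c z := by
        rw [← mul_sum, ← mul_assoc,
          ← integral_finsetSum _ fun c _ => ((BM_nb _).mul (BM.of_cont (hF c))).integrable]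
        simp only [mul_sum]

theorem shift_l1 {u : T3 L → ℂ} (hu : C1T u) {s : ℝ} (hs : 0 ≤ s) {y : T3 L} (hy : ‖y‖ ≤ 2 * s) :
    ∫ z, nb s z * ‖u (z + y) - u z‖ ≤ 2 * s * ∫ z, nb (3 * s) z * g1T u z := by
  obtain ⟨t, a, h1, h2, h3⟩ := dec_poin y
  have hc := hu.cont
  have := core_poin (F := fun c z => ‖dd (d1 c) u z‖) (fun c => (hu c).cdd.norm)
    (fun _ _ => norm_nonneg _) zero_le_one (fun c => (h1 c).trans hy)
    (fun c τ hτ => (h2 c τ hτ).trans hy) (G := fun z => ‖u (z + y) - u z‖) (by fun_prop)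
    fun z => by
      rw [one_mul, h3 u z]
      refine (norm_sum_le _ _).trans (sum_le_sum fun c _ => ?_)
      rw [(hu c).ftc (dir_d1 c)]
      exact intervalIntegral.norm_integral_le_integral_norm_uIoc
  rwa [one_mul] at this

theorem shift_l2 {u : T3 L → ℂ} (hu : C1T u) {s : ℝ} (hs : 0 ≤ s) {y : T3 L} (hy : ‖y‖ ≤ 2 * s) :
    ∫ z, nb s z * ‖u (z + y) - u z‖ ^ 2 ≤ 12 * s ^ 2 * ∫ z, nb (3 * s) z * gT u z := by
  obtain ⟨t, a, h1, h2, h3⟩ := dec_poin y
  have hc := hu.cont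
  have := core_poin (F := fun c z => ‖dd (d1 c) u z‖ ^ 2) (fun c => (hu c).cdd.norm.pow 2)
    (fun _ _ => sq_nonneg _) (κ := 3 * (2 * s)) (by positivity) (fun c => (h1 c).trans hy)
    (fun c τ hτ => (h2 c τ hτ).trans hy) (G := fun z => ‖u (z + y) - u z‖ ^ 2) (by fun_prop)
    fun z => by
      have h4 : ∀ c, ‖u (z + a c + d1 c (t c)) - u (z + a c)‖ ^ 2 ≤
          2 * s * ∫ τ in Set.uIoc 0 (t c), ‖dd (d1 c) u (z + a c + d1 c τ)‖ ^ 2 := fun c => by
        rw [(hu c).ftc (dir_d1 c), intervalIntegral.norm_integral_eq_norm_integral_uIoc]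
        have h5 := jensen_wt (μ := volume.restrict (Set.uIoc 0 (t c))) (U := fun _ => 1)
          (u := fun τ => dd (d1 c) u (z + a c + d1 c τ)) (BM.const 1)
          ((bm_poin (hu c).cdd (a c) c).comp (measurable_prodMk_left (x := z)))
        simp only [ofReal_one, one_mul, abs_one] at h5
        refine h5.trans (mul_le_mul_of_nonneg_right ?_ (integral_nonneg fun _ => sq_nonneg _))
        simpa [measureReal_def] using (h1 c).trans hy
      rw [h3 u z, mul_assoc, mul_sum]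
      refine le_trans ?_ (mul_le_mul_of_nonneg_left (sum_le_sum fun c _ => h4 c) (by norm_num))
      refine (pow_le_pow_left₀ (norm_nonneg _) (norm_sum_le _ _) 2).trans ?_
      simpa using sq_sum_le_card_mul_sum_sq (s := (univ : Finset (Fin 3)))
        (f := fun c => ‖u (z + a c + d1 c (t c)) - u (z + a c)‖)
  refine this.trans (le_of_eq ?_)
  simp only [gT]
  ring

theorem Wt.nonneg_poin {Λ s : ℝ} {U : T3 L → ℝ} (h : Wt Λ s U) (hs : 0 < s) : 0 ≤ Λ := by
  have h1 : 0 ≤ Λ / s ^ 3 := (abs_nonneg _).trans (h.le 0)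
  simpa using (le_div_iff₀ (pow_pos hs 3)).1 h1

theorem Wt.mono {Λ Λ' s : ℝ} {U : T3 L → ℝ} (h : Wt Λ s U) (hs : 0 < s) (hΛ : Λ ≤ Λ') :
    Wt Λ' s U :=
  ⟨h.bm, fun z => (h.le z).trans (by gcongr), h.out, h.int⟩

theorem Wt.integral_abs_le {Λ s : ℝ} {U : T3 L → ℝ} (h : Wt Λ s U) (hs : 0 < s) :
    ∫ z, |U z| ≤ 8 * Λ := by
  refine (integral_le_of_out h.bm.abs hs.le h.le ((abs_nonneg _).trans (h.le 0))
    fun z hz => by rw [h.out z hz, abs_zero]).trans (le_of_eq ?_)
  field_simp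
  ring

theorem Wt.le_nb_poin {Λ s : ℝ} {U : T3 L → ℝ} (h : Wt Λ s U) (z : T3 L) :
    |U z| ≤ Λ / s ^ 3 * nb s z := by
  by_cases hz : ‖z‖ ≤ s
  · simpa [nb, hz] using h.le z
  · simp [nb, hz, h.out z (not_le.1 hz)]

theorem Wt.sub_poin {Λ s : ℝ} {U : T3 L → ℝ} (h : Wt Λ s U) {u : T3 L → ℂ} (hu : Continuous u)
    (A : ℂ) : (∫ z, (U z : ℂ) * u z) - A = ∫ z, (U z : ℂ) * (u z - A) := by
  simp only [mul_sub]
  rw [integral_sub (h.bm.ofReal.mul (BM.of_cont hu)).integrable
    (h.bm.ofReal.mul (BM.const A)).integrable, integral_mul_const, integral_complex_ofReal, h.int]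
  simp

/-- Averaging a shift estimate against a weight. -/
theorem dbl_poin {Λ s B : ℝ} (hs : 0 < s) {U : T3 L → ℝ} (hU : Wt Λ s U) {H : T3 L → T3 L → ℝ}
    (hH : Continuous (uncurry H)) (h0 : ∀ z y, 0 ≤ H z y) (hB0 : 0 ≤ B)
    (hB : ∀ y, ‖y‖ ≤ 2 * s → ∫ z, nb s z * H z (z + y) ≤ B) :
    ∫ z, nb s z * ∫ y, |U y| * H z y ≤ 64 * Λ * B := by
  have hΛ := hU.nonneg_poin hs
  have hH' : Continuous fun p : T3 L × T3 L => H p.1 (p.1 + p.2) :=
    hH.comp (continuous_fst.prodMk (continuous_fst.add continuous_snd))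
  have b1 : BM (uncurry fun z y : T3 L => nb (2 * s) y * (nb s z * H z (z + y))) :=
    ((BM_nb _).comp measurable_snd).mul (((BM_nb _).comp measurable_fst).mul (BM.of_cont hH'))
  have b2 : BM (uncurry fun z y : T3 L => |U y| * H z y) :=
    (hU.bm.abs.comp measurable_snd).mul (BM.of_cont hH)
  calc ∫ z, nb s z * ∫ y, |U y| * H z y
      ≤ ∫ z, Λ / s ^ 3 * ∫ y, nb (2 * s) y * (nb s z * H z (z + y)) := by
        refine integral_mono ((BM_nb s).mul b2.integral_right).integrable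
          ((BM.const _).mul b1.integral_right).integrable fun z => ?_
        simp only
        rw [← integral_add_left_eq_self (fun y => |U y| * H z y) z, ← integral_const_mul,
          ← integral_const_mul]
        refine integral_mono ((BM.const _).mul ((b2.comp
          (measurable_prodMk_left (x := z))).comp (measurable_const_add z))).integrable
          ((BM.const _).mul (b1.comp (measurable_prodMk_left (x := z)))).integrable fun y => ?_
        simp only
        by_cases hz : ‖z‖ ≤ s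
        · have h1 : nb s (z + y) ≤ nb (2 * s) y := by
            by_cases hy : ‖z + y‖ ≤ s
            · have h2 : ‖y‖ ≤ 2 * s := by
                have := norm_sub_le (z + y) z
                rw [add_sub_cancel_left] at this
                linarith
              simp [nb, hy, h2]
            · simpa [nb, hy] using nb_nonneg (2 * s) y
          have h3 : nb s z = 1 := by simp [nb, hz]
          rw [h3, one_mul, one_mul, ← mul_assoc]
          exact mul_le_mul_of_nonneg_right ((hU.le_nb_poin _).trans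
            (mul_le_mul_of_nonneg_left h1 (by positivity))) (h0 _ _)
        · simp [nb, hz]
    _ = Λ / s ^ 3 * ∫ y, nb (2 * s) y * ∫ z, nb s z * H z (z + y) := by
        rw [integral_const_mul, BM.swap b1]
        simp only [integral_const_mul]
    _ ≤ Λ / s ^ 3 * (B * (2 * (2 * s)) ^ 3) := by
        refine mul_le_mul_of_nonneg_left (integral_le_of_out ?_ (by positivity) (fun y => ?_) hB0
          fun y hy => by simp [nb, not_le.2 hy]) (by positivity)
        · have b3 : BM (uncurry fun y z : T3 L => nb s z * H z (z + y)) :=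
            ((BM_nb _).comp measurable_snd).mul ((BM.of_cont hH').comp measurable_swap)
          exact (BM_nb _).mul b3.integral_right
        · by_cases hy : ‖y‖ ≤ 2 * s
          · simpa [nb, hy] using hB y hy
          · simpa [nb, hy] using hB0
    _ = 64 * Λ * B := by
        field_simp
        ring

/-- Two averages at the same scale. -/
theorem poin_l1 {u : T3 L → ℂ} (hu : C1T u) {Λ s : ℝ} (hs : 0 < s) {U U' : T3 L → ℝ}
    (hU : Wt Λ s U) (hU' : Wt Λ s U') :
    ‖(∫ z, (U z : ℂ) * u z) - ∫ z, (U' z : ℂ) * u z‖ ≤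
      128 * Λ ^ 2 / s ^ 2 * ∫ z, nb (3 * s) z * g1T u z := by
  have hc := hu.cont
  have hΛ := hU.nonneg_poin hs
  have hX : 0 ≤ ∫ z, nb (3 * s) z * g1T u z :=
    integral_nonneg fun z => mul_nonneg (nb_nonneg _ _) (sum_nonneg fun _ _ => norm_nonneg _)
  have hH : Continuous (uncurry fun z y : T3 L => ‖u y - u z‖) := by
    change Continuous fun p : T3 L × T3 L => ‖u p.2 - u p.1‖
    fun_prop
  have h1 := dbl_poin hs hU' hH (fun _ _ => norm_nonneg _) (by positivity)
    fun y hy => shift_l1 hu hs.le hy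
  have b2 : BM (uncurry fun z y : T3 L => |U' y| * ‖u y - u z‖) :=
    (hU'.bm.abs.comp measurable_snd).mul (BM.of_cont hH)
  rw [hU.sub_poin hc]
  calc _ ≤ ∫ z, Λ / s ^ 3 * (nb s z * ∫ y, |U' y| * ‖u y - u z‖) := by
        refine norm_integral_le_of_norm_le
          ((BM.const _).mul ((BM_nb s).mul b2.integral_right)).integrable
          (Eventually.of_forall fun z => ?_)
        rw [norm_mul, norm_real, Real.norm_eq_abs, ← mul_assoc, norm_sub_rev, hU'.sub_poin hc]
        refine mul_le_mul (hU.le_nb_poin z) ((norm_integral_le_integral_norm _).trans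
          (le_of_eq ?_)) (norm_nonneg _) (mul_nonneg (by positivity) (nb_nonneg _ _))
        simp only [norm_mul, norm_real, Real.norm_eq_abs]
    _ ≤ Λ / s ^ 3 * (64 * Λ * (2 * s * ∫ z, nb (3 * s) z * g1T u z)) := by
        rw [integral_const_mul]
        exact mul_le_mul_of_nonneg_left h1 (by positivity)
    _ = _ := by
        field_simp
        ring

/-- The same with the `L²` norm of the gradient. -/
theorem poin_l1' {u : T3 L → ℂ} (hu : C1T u) {Λ s : ℝ} (hs : 0 < s) {U U' : T3 L → ℝ}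
    (hU : Wt Λ s U) (hU' : Wt Λ s U') :
    ‖(∫ z, (U z : ℂ) * u z) - ∫ z, (U' z : ℂ) * u z‖ ^ 2 ≤
      2 ^ 24 * Λ ^ 4 / s * ∫ z, nb (3 * s) z * gT u z := by
  have hX : 0 ≤ ∫ z, nb (3 * s) z * g1T u z :=
    integral_nonneg fun z => mul_nonneg (nb_nonneg _ _) (sum_nonneg fun _ _ => norm_nonneg _)
  have hY : 0 ≤ ∫ z, nb (3 * s) z * gT u z :=
    integral_nonneg fun z => mul_nonneg (nb_nonneg _ _) (sum_nonneg fun _ _ => sq_nonneg _)
  have b1 : BM fun z => nb (3 * s) z * g1T u z := (BM_nb _).mul (BM.of_cont hu.cont_g1T)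
  have h1 := cs_one (μ := volume) (BM_nb (L := L) (3 * s)) b1
  simp only [← mul_assoc, nb_mul_self] at h1
  have h2 : ∫ z : T3 L, nb (3 * s) z ^ 2 ≤ (2 * (3 * s)) ^ 3 := by
    simp only [sq, nb_mul_self]
    exact integral_nb_le (by positivity)
  have h3 : ∫ z, (nb (3 * s) z * g1T u z) ^ 2 ≤ 3 * ∫ z, nb (3 * s) z * gT u z := by
    rw [← integral_const_mul]
    refine integral_mono (b1.pow 2).integrable
      ((BM.const _).mul ((BM_nb _).mul (BM.of_cont hu.cont_gT))).integrable fun z => ?_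
    simp only
    rw [mul_pow, sq (nb _ _), nb_mul_self, mul_left_comm]
    exact mul_le_mul_of_nonneg_left (g1T_sq_le u z) (nb_nonneg _ _)
  have h4 : (∫ z, nb (3 * s) z * g1T u z) ^ 2 ≤
      (2 * (3 * s)) ^ 3 * (3 * ∫ z, nb (3 * s) z * gT u z) := by
    refine (pow_le_pow_left₀ hX h1 2).trans ?_
    rw [mul_pow, Real.sq_sqrt (integral_nonneg fun _ => sq_nonneg _),
      Real.sq_sqrt (integral_nonneg fun _ => sq_nonneg _)]
    exact mul_le_mul h2 h3 (integral_nonneg fun _ => sq_nonneg _) (by positivity)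
  calc _ ≤ (128 * Λ ^ 2 / s ^ 2 * ∫ z, nb (3 * s) z * g1T u z) ^ 2 :=
        pow_le_pow_left₀ (norm_nonneg _) (poin_l1 hu hs hU hU') 2
    _ ≤ (128 * Λ ^ 2 / s ^ 2) ^ 2 * ((2 * (3 * s)) ^ 3 * (3 * ∫ z, nb (3 * s) z * gT u z)) := by
        rw [mul_pow]
        exact mul_le_mul_of_nonneg_left h4 (sq_nonneg _)
    _ = 10616832 * (Λ ^ 4 / s * ∫ z, nb (3 * s) z * gT u z) := by
        field_simp
        ring
    _ ≤ 2 ^ 24 * (Λ ^ 4 / s * ∫ z, nb (3 * s) z * gT u z) :=
        mul_le_mul_of_nonneg_right (by norm_num) (by positivity)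
    _ = _ := by ring

/-- Averages of `|u|²`. -/
theorem poin_sq {u : T3 L → ℂ} (hu : C1T u) {Λ s : ℝ} (hs : 0 < s) {U U' : T3 L → ℝ}
    (hU : Wt Λ s U) (hU' : Wt Λ s U') :
    |(∫ z, U z * ‖u z‖ ^ 2) - ∫ z, U' z * ‖u z‖ ^ 2| ≤
      256 * Λ ^ 2 / s ^ 2 * ∫ z, nb (3 * s) z * (‖u z‖ * g1T u z) := by
  have hv : C1T fun z => ((‖u z‖ ^ 2 : ℝ) : ℂ) := fun c => ((hu c).normSq (dir_d1 c)).ofReal
  have h1 := poin_l1 hv hs hU hU'
  simp only [← ofReal_mul, integral_complex_ofReal, ← ofReal_sub, norm_real,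
    Real.norm_eq_abs] at h1
  have h2 : ∫ z, nb (3 * s) z * g1T (fun z => ((‖u z‖ ^ 2 : ℝ) : ℂ)) z ≤
      2 * ∫ z, nb (3 * s) z * (‖u z‖ * g1T u z) := by
    rw [← integral_const_mul]
    refine integral_mono ((BM_nb _).mul (BM.of_cont hv.cont_g1T)).integrable
      ((BM.const _).mul ((BM_nb _).mul
        (BM.of_cont (hu.cont.norm.mul hu.cont_g1T)))).integrable fun z => ?_
    simp only
    rw [mul_left_comm]
    refine mul_le_mul_of_nonneg_left ?_ (nb_nonneg _ _)
    simp only [g1T, mul_sum]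
    refine sum_le_sum fun c _ => ?_
    rw [dd_ofReal ((hu c).normSq (dir_d1 c)), dd_normSq (dir_d1 c) (hu c), norm_real,
      Real.norm_eq_abs, abs_mul, abs_two]
    exact mul_le_mul_of_nonneg_left (abs_ip_le _ _) (by norm_num)
  refine h1.trans ((mul_le_mul_of_nonneg_left h2 (by positivity)).trans (le_of_eq ?_))
  ring

/-- Distance to an average. -/
theorem poin_l2 {u : T3 L → ℂ} (hu : C1T u) {Λ s : ℝ} (hs : 0 < s) {U : T3 L → ℝ}
    (hU : Wt Λ s U) :
    ∫ z, nb s z * ‖u z - ∫ y, (U y : ℂ) * u y‖ ^ 2 ≤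
      6144 * Λ ^ 2 * s ^ 2 * ∫ z, nb (3 * s) z * gT u z := by
  have hc := hu.cont
  have hΛ := hU.nonneg_poin hs
  have hY : 0 ≤ ∫ z, nb (3 * s) z * gT u z :=
    integral_nonneg fun z => mul_nonneg (nb_nonneg _ _) (sum_nonneg fun _ _ => sq_nonneg _)
  have hH : Continuous (uncurry fun z y : T3 L => ‖u y - u z‖ ^ 2) := by
    change Continuous fun p : T3 L × T3 L => ‖u p.2 - u p.1‖ ^ 2
    fun_prop
  have h1 := dbl_poin hs hU hH (fun _ _ => sq_nonneg _) (by positivity)
    fun y hy => shift_l2 hu hs.le hy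
  have b2 : BM (uncurry fun z y : T3 L => |U y| * ‖u y - u z‖ ^ 2) :=
    (hU.bm.abs.comp measurable_snd).mul (BM.of_cont hH)
  calc _ ≤ ∫ z, 8 * Λ * (nb s z * ∫ y, |U y| * ‖u y - u z‖ ^ 2) := by
        refine integral_mono ((BM_nb s).mul (BM.of_cont (by fun_prop))).integrable
          ((BM.const _).mul ((BM_nb s).mul b2.integral_right)).integrable fun z => ?_
        simp only
        rw [mul_left_comm, norm_sub_rev, hU.sub_poin hc]
        refine mul_le_mul_of_nonneg_left ((jensen_wt hU.bm (BM.of_cont (by fun_prop))).trans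
          (mul_le_mul_of_nonneg_right (hU.integral_abs_le hs) (integral_nonneg fun y => ?_)))
          (nb_nonneg _ _)
        positivity
    _ ≤ 8 * Λ * (64 * Λ * (12 * s ^ 2 * ∫ z, nb (3 * s) z * gT u z)) := by
        rw [integral_const_mul]
        exact mul_le_mul_of_nonneg_left h1 (by positivity)
    _ = _ := by ring

end Pool.Agent.BoseTail
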