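import Pool.Agent.Lib.MP_dec75e_mp.Kin
import Pool.Agent.Lib.MP_dec75e_mp.Amp
import Pool.Agent.Lib.MP_dec75e_mp.Poin

/-! Lower bound for the pair density at short distance. -/

open MeasureTheory Complex Finset Filter Function
open scoped ComplexConjugate Real Topology

noncomputable section

namespace Pool.Agent.BoseTail

section
variable {N : ℕ} {L : ℝ} [Fact (0 < L)] {w : T3 L → ℝ} {ψ : Cf N L → ℂ}

/-- Pair density tested with a weight. -/
def DU (ψ : Cf N L → ℂ) (o : Fin N) (U : T3 L → ℝ) : ℝ :=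
  ∑ j ∈ univ.erase o, ∫ x, U (x o - x j) * ‖ψ x‖ ^ 2

omit [Fact (0 < L)] in
theorem g1T_cslice_low (φ : Cf N L → ℂ) (x : Cf N L) (o j : Fin N) (z : T3 L) :
    g1T (fun z => φ (update x o (x j + z))) z =
      ∑ c, ‖dd (dir o c) φ (update x o (x j + z))‖ := by
  refine Finset.sum_congr rfl fun c _ => ?_
  have : (fun s : ℝ => φ (update x o (x j + (z + d1 c s)))) =
      fun s : ℝ => φ (update x o (x j + z) + dir o c s) := by
    funext s
    rw [← add_assoc, update_add_d1]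
  simp only [dd, this]

theorem meas_sl_low (o j : Fin N) :
    Measurable fun p : Cf N L × T3 L => update p.1 o (p.1 j + p.2) :=
  (continuous_sl o j).measurable

theorem meas_pair_low (o j : Fin N) : Measurable fun x : Cf N L => x o - x j :=
  ((continuous_apply o).sub (continuous_apply j)).measurable

theorem one_low (hψ : IsC1 ψ) {o j : Fin N} (hj : j ≠ o) {s : ℝ} (hs : 0 < s)
    {U U' : T3 L → ℝ} (hU : Wt 1 s U) (hU' : Wt 1 s U') :
    |(∫ x, U (x o - x j) * ‖ψ x‖ ^ 2) - ∫ x, U' (x o - x j) * ‖ψ x‖ ^ 2| ≤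
      256 / s ^ 2 * ∫ x, nb (3 * s) (x o - x j) * (‖ψ x‖ * ∑ c, ‖dd (dir o c) ψ x‖) := by
  have hL : (0 : ℝ) < L ^ 3 := pow_pos Lpos 3
  have hG : BM fun x : Cf N L => ‖ψ x‖ ^ 2 := BM.of_cont (hψ.1.norm.pow 2)
  have hH : BM fun x : Cf N L => ‖ψ x‖ * ∑ c, ‖dd (dir o c) ψ x‖ :=
    BM.of_cont (hψ.1.norm.mul (continuous_finsetSum _ fun c _ => (hψ.2 o c).cdd.norm))
  have key : ∀ {V : T3 L → ℝ} {G : Cf N L → ℝ}, BM V → BM G →
      Integrable fun x : Cf N L => ∫ z, V z * G (update x o (x j + z)) := fun {V G} hV hG =>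
    (BM.integral_right (Φ := fun (x : Cf N L) (z : T3 L) => V z * G (update x o (x j + z)))
      ((hV.comp measurable_snd).mul (hG.comp (meas_sl_low o j)))).integrable
  have e1 := cv' hU.bm hG hj
  have e2 := cv' hU'.bm hG hj
  have e3 := cv' (BM_nb (3 * s)) hH hj
  simp only [RCLike.ofReal_real_eq_id, id] at e1 e2 e3
  refine le_of_mul_le_mul_left ?_ hL
  rw [mul_left_comm, ← e3, ← abs_of_pos hL, ← abs_mul, mul_sub, ← e1, ← e2,
    ← integral_sub (key hU.bm hG) (key hU'.bm hG), ← integral_const_mul]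
  refine abs_integral_le_integral_abs.trans (integral_mono
    ((key hU.bm hG).sub (key hU'.bm hG)).abs ((key (BM_nb _) hH).const_mul _) fun x => ?_)
  have := poin_sq (hψ.cslice x o j) hs hU hU'
  simp only [g1T_cslice_low, one_pow, mul_one] at this
  exact this

theorem num_low {C ρ s X Y : ℝ} (hC : 1 ≤ C) (hρ : 0 < ρ) (hs : 0 < s) (hX0 : 0 ≤ X)
    (hX : X ≤ C * (ρ * (3 * s) ^ 3 + ρ ^ 2 * (3 * s) ^ 6)) (hY0 : 0 ≤ Y) (hY : Y ≤ 3 * (C * ρ)) :
    256 / s ^ 2 * (√X * √Y) ≤ 2 ^ 17 * C * ρ * ((√s)⁻¹ + √ρ * s) := by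
  obtain ⟨a, ha, rfl⟩ : ∃ a, 0 < a ∧ s = a ^ 2 :=
    ⟨√s, Real.sqrt_pos.2 hs, (Real.sq_sqrt hs.le).symm⟩
  obtain ⟨r, hr, rfl⟩ : ∃ r, 0 < r ∧ ρ = r ^ 2 :=
    ⟨√ρ, Real.sqrt_pos.2 hρ, (Real.sq_sqrt hρ.le).symm⟩
  rw [Real.sqrt_sq ha.le, Real.sqrt_sq hr.le, ← Real.sqrt_mul hX0]
  have hC0 : 0 < C := by linarith
  have h1 : √(X * Y) ≤ 54 * C * r ^ 2 * (a ^ 3 + r * a ^ 6) := by
    refine Real.sqrt_le_iff.2 ⟨by positivity, (mul_le_mul hX hY hY0 (by positivity)).trans ?_⟩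
    have h2 : 0 ≤ (C * r ^ 2) ^ 2 * a ^ 6 := by positivity
    have h3 : 0 ≤ (C * r ^ 2) ^ 2 * (r * a ^ 9) := by positivity
    have h4 : 0 ≤ (C * r ^ 2) ^ 2 * (r ^ 2 * a ^ 12) := by positivity
    nlinarith
  refine (mul_le_mul_of_nonneg_left h1 (by positivity)).trans ?_
  have e : 256 / (a ^ 2) ^ 2 * (54 * C * r ^ 2 * (a ^ 3 + r * a ^ 6)) =
      13824 * (C * r ^ 2 * (a⁻¹ + r * a ^ 2)) := by
    field_simp
    ring
  have h5 : 0 ≤ C * r ^ 2 * (a⁻¹ + r * a ^ 2) := by positivity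
  rw [e]
  nlinarith

/-- Comparison of two weights at the same scale. -/
theorem DU_sub_le {C : ℝ} (hψ : IsC1 ψ) (hA : AP C ψ) (hC : 1 ≤ C) (hρ : 0 < rho N L) (o : Fin N)
    {s : ℝ} (hs : 0 < s)
    (hsr : (12 * s) ^ 2 * rho N L ≤ 1) {U U' : T3 L → ℝ} (hU : Wt 1 s U) (hU' : Wt 1 s U') :
    |DU ψ o U - DU ψ o U'| ≤
      2 ^ 17 * C * rho N L * ((√s)⁻¹ + √(rho N L) * s) := by
  have hn : ∀ j, BM fun x : Cf N L => nb (3 * s) (x o - x j) := fun j =>
    (BM_nb (3 * s)).comp (meas_pair_low o j)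
  have hp : BM fun x : Cf N L => ‖ψ x‖ := BM.of_cont hψ.1.norm
  have hg : BM fun x : Cf N L => ∑ c, ‖dd (dir o c) ψ x‖ :=
    BM.of_cont (continuous_finsetSum _ fun c _ => (hψ.2 o c).cdd.norm)
  have hf : BM fun x : Cf N L => (∑ j ∈ univ.erase o, nb (3 * s) (x o - x j)) * ‖ψ x‖ :=
    (BM.sum fun j _ => hn j).mul hp
  have h1 : |DU ψ o U - DU ψ o U'| ≤ 256 / s ^ 2 *
      ∫ x, ((∑ j ∈ univ.erase o, nb (3 * s) (x o - x j)) * ‖ψ x‖) * ∑ c, ‖dd (dir o c) ψ x‖ := by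
    unfold DU
    rw [← Finset.sum_sub_distrib]
    refine (Finset.abs_sum_le_sum_abs _ _).trans ((Finset.sum_le_sum fun j hj =>
      one_low hψ (Finset.ne_of_mem_erase hj) hs hU hU').trans (le_of_eq ?_))
    rw [← Finset.mul_sum, ← integral_finsetSum _ fun j _ => ((hn j).mul (hp.mul hg)).integrable]
    congr 1
    refine integral_congr_ae (Eventually.of_forall fun x => ?_)
    simp only [mul_assoc, Finset.sum_mul]
  refine h1.trans ((mul_le_mul_of_nonneg_left (cs_one hf hg) (by positivity)).trans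
    (num_low hC hρ hs (integral_nonneg fun x => sq_nonneg _) ?_
      (integral_nonneg fun x => sq_nonneg _) ?_))
  · simp only [mul_pow]
    have := hA.n2 o (3 * s) (by positivity) (by rwa [show 4 * (3 * s) = 12 * s by ring])
    simpa only [mul_pow] using this
  · refine le_trans ?_ (mul_le_mul_of_nonneg_left (hA.kin o) (by norm_num))
    rw [← integral_const_mul]
    refine integral_mono (hg.pow 2).integrable
      ((BM.of_cont (hψ.cont_gP o)).integrable.const_mul 3) fun x => ?_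
    simp only [gP, Fin.sum_univ_three]
    nlinarith [sq_nonneg (‖dd (dir o 0) ψ x‖ - ‖dd (dir o 1) ψ x‖),
      sq_nonneg (‖dd (dir o 0) ψ x‖ - ‖dd (dir o 2) ψ x‖),
      sq_nonneg (‖dd (dir o 1) ψ x‖ - ‖dd (dir o 2) ψ x‖)]

/-- The positive definite weight. -/
def Upd (t : ℝ) (z : T3 L) : ℝ := ((2 * t) ^ 6)⁻¹ * ∫ y, nb t y * nb t (z - y)

theorem wt_Upd {t : ℝ} (ht : 0 < t) (hL : 2 * t ≤ L) : Wt 1 (2 * t) (Upd (L := L) t) := by
  have hb : BM (uncurry fun z y : T3 L => nb t y * nb t (z - y)) :=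
    ((BM_nb t).comp measurable_snd).mul
      ((BM_nb t).comp (continuous_fst.sub continuous_snd).measurable)
  have h2 : (0 : ℝ) < 2 * t := by positivity
  refine ⟨(BM.const _).mul (BM.integral_right hb), fun z => ?_, fun z hz => ?_, ?_⟩
  · have h0 : 0 ≤ ∫ y, nb t y * nb t (z - y) :=
      integral_nonneg fun y => mul_nonneg (nb_nonneg _ _) (nb_nonneg _ _)
    have h1 : ∫ y, nb t y * nb t (z - y) ≤ (2 * t) ^ 3 := by
      refine le_trans (integral_mono ((BM_nb t).mul ((BM_nb t).comp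
        (continuous_const.sub continuous_id).measurable)).integrable (BM_nb t).integrable
        fun y => ?_) (integral_nb_le ht.le)
      exact mul_le_of_le_one_right (nb_nonneg _ _) (nb_le_one _ _)
    unfold Upd
    rw [abs_of_nonneg (by positivity)]
    refine (mul_le_mul_of_nonneg_left h1 (by positivity)).trans (le_of_eq ?_)
    field_simp
  · have : ∀ y : T3 L, nb t y * nb t (z - y) = 0 := fun y => by
      refine le_antisymm ((nb_mul_le t t y (z - y)).trans (le_of_eq ?_))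
        (mul_nonneg (nb_nonneg _ _) (nb_nonneg _ _))
      rw [add_sub_cancel, nb, nb, if_neg (show ¬‖z‖ ≤ t + t by linarith), mul_zero]
    simp only [Upd, this, integral_zero, mul_zero]
  · unfold Upd
    rw [integral_const_mul, BM.swap hb]
    have : ∀ y : T3 L, ∫ z, nb t y * nb t (z - y) = nb t y * (2 * t) ^ 3 := fun y => by
      rw [integral_const_mul, integral_sub_right_eq_self (nb t) y, integral_nb ht.le hL]
    simp only [this]
    rw [integral_mul_const, integral_nb ht.le hL]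
    field_simp

theorem Upd_eq_low (t : ℝ) (a b : T3 L) :
    Upd t (a - b) = ((2 * t) ^ 6)⁻¹ * ∫ y, nb t (a - y) * nb t (b - y) := by
  unfold Upd
  rw [← integral_sub_left_eq_self (fun y => nb t y * nb t (a - b - y)) volume a]
  congr 1
  refine integral_congr_ae (Eventually.of_forall fun y => ?_)
  simp only []
  rw [show a - b - (a - y) = y - b by abel, nb_sub_comm t y b]

theorem sum_Upd_low {t : ℝ} (ht : 0 < t) (hL : 2 * t ≤ L) (x : Cf N L) :
    (N : ℝ) * rho N L ≤ ∑ i, ∑ j, Upd t (x i - x j) := by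
  have hL3 : (0 : ℝ) < L ^ 3 := pow_pos Lpos 3
  have h2 : (0 : ℝ) < 2 * t := by positivity
  have hb : ∀ i, BM fun y : T3 L => nb t (x i - y) := fun i =>
    (BM_nb t).comp (continuous_const.sub continuous_id).measurable
  have hn : BM fun y : T3 L => ∑ i, nb t (x i - y) := BM.sum fun i _ => hb i
  have e1 : ∑ i, ∑ j, Upd t (x i - x j) =
      ((2 * t) ^ 6)⁻¹ * ∫ y, (∑ i, nb t (x i - y)) ^ 2 := by
    simp only [Upd_eq_low, ← Finset.mul_sum]
    congr 1
    simp only [sq, Finset.sum_mul_sum]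
    rw [integral_finsetSum _ fun i _ => (BM.sum fun j _ => (hb i).mul (hb j)).integrable]
    exact Finset.sum_congr rfl fun i _ =>
      (integral_finsetSum _ fun j _ => ((hb i).mul (hb j)).integrable).symm
  have e2 : ∫ y, (∑ i, nb t (x i - y)) * 1 = N * (2 * t) ^ 3 := by
    simp only [mul_one]
    rw [integral_finsetSum _ fun i _ => (hb i).integrable]
    simp only [integral_sub_left_eq_self (nb t) volume, integral_nb ht.le hL, Finset.sum_const,
      Finset.card_univ, Fintype.card_fin, nsmul_eq_mul]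
  have h3 := cs_one (μ := volume) hn (BM.const (1 : ℝ))
  have hI : 0 ≤ ∫ y, (∑ i, nb t (x i - y)) ^ 2 := integral_nonneg fun y => sq_nonneg _
  rw [e2, one_pow, integral_const_T3, mul_one, ← Real.sqrt_mul hI] at h3
  have h4 := (Real.le_sqrt (by positivity) (by positivity)).1 h3
  rw [e1, rho, ← div_eq_inv_mul, ← mul_div_assoc, div_le_div_iff₀ hL3 (by positivity)]
  calc (N : ℝ) * N * (2 * t) ^ 6 = (N * (2 * t) ^ 3) ^ 2 := by ring
    _ ≤ _ := h4

theorem DU_Upd (h : GS w ψ) (o : Fin N) {t : ℝ} (ht : 0 < t) (hL : 2 * t ≤ L) :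
    rho N L - ((2 * t) ^ 3)⁻¹ ≤ DU ψ o (Upd t) := by
  have hW := wt_Upd (L := L) ht hL
  have hN : (0 : ℝ) < N := by exact_mod_cast Fin.pos o
  have hG : BM fun x : Cf N L => ‖ψ x‖ ^ 2 := BM.of_cont (h.c1.1.norm.pow 2)
  have hu : ∀ i j, BM fun x : Cf N L => Upd t (x i - x j) := fun i j =>
    hW.bm.comp (meas_pair_low i j)
  have h1 := h.pair_sum (u := fun a b => Upd t (a - b))
    (hW.bm.comp (continuous_fst.sub continuous_snd).measurable) o
  refine le_of_mul_le_mul_left ?_ hN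
  unfold DU
  rw [h1]
  have e : ∑ i, ∑ j ∈ univ.erase i, ∫ x, Upd t (x i - x j) * ‖ψ x‖ ^ 2 =
      ∫ x, (∑ i, ∑ j ∈ univ.erase i, Upd t (x i - x j)) * ‖ψ x‖ ^ 2 := by
    simp only [Finset.sum_mul]
    rw [integral_finsetSum _ fun i _ => (BM.sum fun j _ => (hu i j).mul hG).integrable]
    exact Finset.sum_congr rfl fun i _ =>
      (integral_finsetSum _ fun j _ => ((hu i j).mul hG).integrable).symm
  have hn : ∫ x, ‖ψ x‖ ^ 2 = 1 := h.nrm
  rw [e, ← mul_one (_ * (rho N L - _)), ← hn, ← integral_const_mul]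
  refine integral_mono (hG.integrable.const_mul _)
    ((BM.sum fun i _ => BM.sum fun j _ => hu i j).mul hG).integrable fun x =>
      mul_le_mul_of_nonneg_right ?_ (sq_nonneg _)
  have h2 := sum_Upd_low ht hL x
  have h3 : ∀ i, ∑ j, Upd t (x i - x j) ≤
      ((2 * t) ^ 3)⁻¹ + ∑ j ∈ univ.erase i, Upd t (x i - x j) := fun i => by
    rw [← Finset.add_sum_erase _ _ (Finset.mem_univ i)]
    have := (le_abs_self _).trans (hW.le (x i - x i))
    rw [one_div] at this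
    exact add_le_add this le_rfl
  have h4 := Finset.sum_le_sum fun i (_ : i ∈ univ) => h3 i
  rw [Finset.sum_add_distrib, Finset.sum_const, Finset.card_univ, Fintype.card_fin,
    nsmul_eq_mul] at h4
  linarith

theorem DU_ball_low (ψ : Cf N L → ℂ) (o : Fin N) (s : ℝ) :
    DU ψ o (fun z => ((2 * s) ^ 3)⁻¹ * nb s z) = ((2 * s) ^ 3)⁻¹ * D2 ψ o s := by
  unfold DU D2
  rw [Finset.mul_sum]
  refine Finset.sum_congr rfl fun j _ => ?_
  rw [← integral_const_mul]
  simp only [mul_assoc]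

theorem sqrt_two_low {s : ℝ} (hs : 0 < s) : 5 * (√(2 * s))⁻¹ ≤ 4 * (√s)⁻¹ := by
  have ha : 0 < √s := Real.sqrt_pos.2 hs
  have h1 : 5 / 4 * √s ≤ √(2 * s) := by
    refine Real.le_sqrt_of_sq_le ?_
    rw [mul_pow, Real.sq_sqrt hs.le]
    linarith
  have h2 : (√(2 * s))⁻¹ ≤ (5 / 4 * √s)⁻¹ := inv_anti₀ (by positivity) h1
  have e : (5 / 4 * √s)⁻¹ = 4 / 5 * (√s)⁻¹ := by field_simp
  linarith

theorem chain_low {P : Par} {C : ℝ} (h : Setup P w ψ) (hA : AP C ψ) (hC : 1 ≤ C) (o : Fin N)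
    {s : ℝ} (hs : 0 < s) (K : ℕ) (hK : (12 * (2 ^ K * s)) ^ 2 * rho N L ≤ 1) :
    ((2 * (2 ^ K * s)) ^ 3)⁻¹ * D2 ψ o (2 ^ K * s) - 2 ^ 17 * C * rho N L *
      (4 * (√s)⁻¹ - 4 * (√(2 ^ K * s))⁻¹ + 2 * (√(rho N L) * (2 ^ K * s))) ≤
      ((2 * s) ^ 3)⁻¹ * D2 ψ o s := by
  have hρ := h.basic.1
  have hM : 0 ≤ 2 ^ 17 * C * rho N L := by positivity
  induction K with
  | zero =>
    simp only [pow_zero, one_mul, sub_self, zero_add]
    exact sub_le_self _ (by positivity)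
  | succ K ih =>
    have ht : 0 < 2 ^ K * s := by positivity
    have e : 2 ^ (K + 1) * s = 2 * (2 ^ K * s) := by ring
    rw [e] at hK ⊢
    generalize 2 ^ K * s = t at ih hK ht ⊢
    have hK' : (12 * t) ^ 2 * rho N L ≤ 1 := by nlinarith [mul_pos (pow_pos ht 2) hρ]
    have hL := h.r_le (by positivity) (by norm_num) hK
    have h1 := DU_sub_le h.gs.c1 hA hC hρ o (by positivity) hK
      (wt_ball (s := 2 * t) (by positivity) (by linarith) le_rfl (by linarith))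
      (wt_ball (s := t) ht (by linarith) (by linarith) le_rfl)
    rw [DU_ball_low, DU_ball_low] at h1
    have h2 := (le_abs_self _).trans h1
    have h3 := ih hK'
    have h4 := mul_le_mul_of_nonneg_left (sqrt_two_low ht) hM
    nlinarith

end

theorem pair_lower (P : Par) {η : ℝ} (hη : 0 < η) : ∃ s₁ : ℝ, 0 < s₁ ∧ ∀ s, s₁ ≤ s →
    ∃ ρ₀ : ℝ, 0 < ρ₀ ∧ ∀ (N : ℕ) (L : ℝ) [Fact (0 < L)] (w : T3 L → ℝ) (ψ : Cf N L → ℂ),
      Setup P w ψ → rho N L ≤ ρ₀ → ∀ o,
        rho N L * (1 - η) ≤ ((2 * s) ^ 3)⁻¹ * D2 ψ o s := by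
  obtain ⟨C, ρ₁, hC, hρ₁, -, hap⟩ := apriori P
  have hM : 0 < 2 ^ 17 * C := by positivity
  generalize hMd : 2 ^ 17 * C = M at hM
  refine ⟨(12 * M / η) ^ 2, by positivity, fun s hs₁ => ?_⟩
  have hs : 0 < s := lt_of_lt_of_le (by positivity) hs₁
  obtain ⟨c, hc, hc1, hc2⟩ : ∃ c : ℝ, 0 < c ∧ c ≤ 1 / 12 ∧ c ≤ η / (9 * M) :=
    ⟨min (1 / 12) (η / (9 * M)), by positivity, min_le_left _ _, min_le_right _ _⟩
  refine ⟨min ρ₁ (min ((c / s) ^ 2) ((η * c ^ 3 / 24) ^ 2)), by positivity, ?_⟩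
  intro N L _ w ψ h hρ₀ o
  have hρ := h.basic.1
  have hA := hap N L w ψ h (hρ₀.trans (min_le_left _ _))
  have hr : 0 < √(rho N L) := Real.sqrt_pos.2 hρ
  have hr2 : √(rho N L) ^ 2 = rho N L := Real.sq_sqrt hρ.le
  have hr1 : √(rho N L) ≤ c / s :=
    Real.sqrt_le_iff.2 ⟨by positivity, hρ₀.trans ((min_le_right _ _).trans (min_le_left _ _))⟩
  have hr3 : √(rho N L) ≤ η * c ^ 3 / 24 :=
    Real.sqrt_le_iff.2 ⟨by positivity, hρ₀.trans ((min_le_right _ _).trans (min_le_right _ _))⟩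
  have hx : 1 ≤ c / (√(rho N L) * s) := by
    rw [le_div_iff₀ (by positivity), one_mul, ← le_div_iff₀ hs]
    exact hr1
  obtain ⟨K, hK1, hK2⟩ := exists_nat_pow_near hx (one_lt_two (α := ℝ))
  rw [le_div_iff₀ (by positivity)] at hK1
  rw [div_lt_iff₀ (by positivity)] at hK2
  have ht : 0 < 2 ^ K * s := by positivity
  have hK1' : √(rho N L) * (2 ^ K * s) ≤ c := by linarith
  have hK2' : c ≤ 2 * (√(rho N L) * (2 ^ K * s)) := by rw [pow_succ] at hK2; linarith
  have hK : (12 * (2 ^ K * s)) ^ 2 * rho N L ≤ 1 := by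
    have h1 : (12 * (√(rho N L) * (2 ^ K * s))) ^ 2 ≤ 1 :=
      pow_le_one₀ (by positivity) (by linarith)
    calc _ = (12 * (√(rho N L) * (2 ^ K * s))) ^ 2 := by rw [← hr2, Real.sqrt_sq hr.le]; ring
      _ ≤ 1 := h1
  have h1 := chain_low h hA hC o hs K hK
  generalize 2 ^ K * s = t at h1 ht hK hK1' hK2'
  have hL := h.r_le ht.le (by norm_num) hK
  have e : 2 * (t / 2) = t := by ring
  have hW := wt_Upd (L := L) (half_pos ht) (by linarith)
  have h2 := DU_Upd h.gs o (half_pos ht) (by linarith)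
  rw [e] at hW h2
  have h3 := DU_sub_le h.gs.c1 hA hC hρ o ht hK hW
    (wt_ball (s := t) ht (by linarith) le_rfl (by linarith))
  rw [DU_ball_low] at h3
  have h4 := (le_abs_self _).trans h3
  rw [hMd] at h1 h4
  have h5 : M * (√s)⁻¹ ≤ η / 12 := by
    have : 12 * M / η ≤ √s := Real.le_sqrt_of_sq_le hs₁
    rw [div_le_iff₀ hη] at this
    rw [← div_eq_mul_inv, div_le_div_iff₀ (Real.sqrt_pos.2 hs) (by norm_num)]
    linarith
  have h6 : M * (√(rho N L) * t) ≤ η / 9 := by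
    rw [le_div_iff₀ (by positivity)] at hc2
    nlinarith [mul_le_mul_of_nonneg_left hK1' hM.le]
  have h7 : (t ^ 3)⁻¹ ≤ rho N L * (η / 3) := by
    rw [inv_le_iff_one_le_mul₀ (by positivity)]
    have h8 : c ^ 3 ≤ (2 * (√(rho N L) * t)) ^ 3 := pow_le_pow_left₀ hc.le hK2' 3
    have h9 : √(rho N L) ≤ η * (2 * (√(rho N L) * t)) ^ 3 / 24 := by
      refine hr3.trans ?_
      gcongr
    refine le_of_mul_le_mul_left ?_ hr
    rw [mul_one]
    refine h9.trans (le_of_eq ?_)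
    rw [← hr2, Real.sqrt_sq hr.le]
    ring
  have h10 : 0 ≤ M * rho N L * (√t)⁻¹ := by positivity
  have h11 := mul_le_mul_of_nonneg_left h5 hρ.le
  have h12 := mul_le_mul_of_nonneg_left h6 hρ.le
  nlinarith

end Pool.Agent.BoseTail
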