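import Pool.Agent.Lib.MP_dec75e_mp.Ma0

/-! The bound for the form applied to the error. -/

open MeasureTheory Complex Finset Filter Function
open scoped ComplexConjugate Real Topology

noncomputable section

namespace Pool.Agent.BoseTail

theorem sqrt_le_ma {X K c Y : ℝ} (hK : 1 ≤ K) (hc : 0 ≤ c) (h : X ≤ K * c ^ 2 * Y) :
    √X ≤ K * c * √Y := by
  refine (Real.sqrt_le_sqrt h).trans ?_
  rw [Real.sqrt_mul (by positivity)]
  refine mul_le_mul_of_nonneg_right ?_ (Real.sqrt_nonneg _)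
  rw [Real.sqrt_le_left (by positivity)]
  nlinarith [mul_nonneg (mul_nonneg (by linarith : (0 : ℝ) ≤ K) (by linarith : (0 : ℝ) ≤ K - 1))
    (sq_nonneg c)]

section
variable {N : ℕ} {L : ℝ} [Fact (0 < L)]

theorem rip_le_ma {φ χ : Cf N L → ℂ} (hφ : Continuous φ) (hχ : Continuous χ) {K c Y Z : ℝ}
    (hK : 1 ≤ K) (hc : 0 ≤ c) (h : nsq χ ≤ K * c ^ 2 * Y) (hZ : nsq φ ≤ Z) :
    |rip φ χ| ≤ K * c * √Y * √Z := by
  refine (abs_rip_le hφ hχ).trans ?_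
  rw [mul_comm]
  exact mul_le_mul (sqrt_le_ma hK hc h) (Real.sqrt_le_sqrt hZ) (Real.sqrt_nonneg _)
    (by have : (0 : ℝ) ≤ K := by linarith
        positivity)

theorem rip_sum_le_ma {φ χ : Fin 3 → Cf N L → ℂ} (hφ : ∀ c, Continuous (φ c))
    (hχ : ∀ c, Continuous (χ c)) {K c Y Z : ℝ} (hK : 1 ≤ K) (hc : 0 ≤ c)
    (h : ∑ e, nsq (χ e) ≤ K * c ^ 2 * Y) (hZ : ∀ e, nsq (φ e) ≤ Z) :
    |∑ e, rip (φ e) (χ e)| ≤ 3 * (K * c * √Y * √Z) := by
  refine (Finset.abs_sum_le_sum_abs _ _).trans ?_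
  have : ∀ e ∈ (univ : Finset (Fin 3)), |rip (φ e) (χ e)| ≤ K * c * √Y * √Z := fun e _ =>
    rip_le_ma (hφ e) (hχ e) hK hc
      ((Finset.single_le_sum (f := fun e => nsq (χ e)) (fun e _ => nsq_nonneg _)
        (Finset.mem_univ e)).trans h) (hZ e)
  refine (Finset.sum_le_sum this).trans ?_
  simp

theorem nsq_dd_le_ma {ζ : Cf N L → ℂ} (hζ : IsC1 ζ) (o : Fin N) (c : Fin 3) :
    nsq (dd (dir o c) ζ) ≤ ∫ x, gP o ζ x :=
  integral_mono (cont_integrable ((hζ.2 o c).cdd.norm.pow 2)) (cont_integrable (hζ.cont_gP o))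
    fun x => Finset.single_le_sum (f := fun e => ‖dd (dir o e) ζ x‖ ^ 2)
      (fun e _ => by positivity) (Finset.mem_univ c)

/-- The term with the nonnegative form. -/
theorem rQ_sum_le_ma {P : Par} {w : T3 L → ℝ} {ψ : Cf N L → ℂ} (hw : Wp P w) (h : GS w ψ)
    (S T : Finset (Fin N)) {f p : Fin N → Cf N L → ℂ} (hf : ∀ j ∈ T, IsC1 (f j))
    (hp : ∀ j ∈ T, IsC1 (p j)) {t A D : ℝ} (ht : 0 < t)
    (hA : ∑ j ∈ T, QS P w ψ S (f j) ≤ A) (hD : ∑ j ∈ T, QS P w ψ S (p j) ≤ D) :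
    2 * ∑ j ∈ T, rQ P w ψ S (f j) (p j) ≤ t * A + t⁻¹ * D := by
  have h1 := Finset.sum_le_sum fun j hj => rQ_le (P := P) hw h S (hf j hj) (hp j hj) ht
  rw [← Finset.mul_sum, Finset.sum_add_distrib, ← Finset.mul_sum, ← Finset.mul_sum] at h1
  have h2 := mul_le_mul_of_nonneg_left hA ht.le
  have h3 := mul_le_mul_of_nonneg_left hD (inv_pos.2 ht).le
  linarith

end

theorem assemble_ma {T1 T2 T3 T4 T5 T6 α W K1 K2 K3 K5 ρ Q n u v1 v2 v3 d : ℝ}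
    (hα : 0 ≤ α) (hW : 0 ≤ W) (hK1 : 0 ≤ K1) (hK2 : 0 ≤ K2) (hK3 : 0 ≤ K3) (hK5 : 0 ≤ K5)
    (hρ : 0 ≤ ρ) (hρd : ρ ≤ d) (hu : 0 ≤ u) (h1 : 0 ≤ v1) (h2 : 0 ≤ v2) (h3 : 0 ≤ v3)
    (e1 : |T1| ≤ K1 * v1) (e2 : |T2| ≤ K2 * v2) (e3 : α * (2 * T3) ≤ Q + n + K3 * u)
    (e4 : |T4| ≤ 3 * (K5 * (d * v2))) (e5 : |T5| ≤ 3 * (K5 * (d * v2)))
    (e6 : |T6| ≤ 3 * (K5 * v3)) :
    T1 - ρ * W * T2 + 2 * α * (T3 + T4 - (1 / 2) * T5 + (1 / 2) * T6) ≤
      Q + n + (K1 + W * K2 + K3 + 9 * α * K5) * u +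
        (K1 + W * K2 + K3 + 9 * α * K5) * (v1 + d * v2 + v3) := by
  have hd : 0 ≤ d := hρ.trans hρd
  have a1 := (abs_le.1 e1).2
  have a2 : -(ρ * W * T2) ≤ W * K2 * (d * v2) := by
    have b1 : ρ * W * (-T2) ≤ ρ * W * (K2 * v2) :=
      mul_le_mul_of_nonneg_left (by linarith [(abs_le.1 e2).1]) (mul_nonneg hρ hW)
    have b2 : ρ * (W * K2 * v2) ≤ d * (W * K2 * v2) :=
      mul_le_mul_of_nonneg_right hρd (by positivity)
    linarith
  have a4 : α * T4 ≤ α * (3 * (K5 * (d * v2))) := mul_le_mul_of_nonneg_left (abs_le.1 e4).2 hα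
  have a5 : α * (-T5) ≤ α * (3 * (K5 * (d * v2))) :=
    mul_le_mul_of_nonneg_left (by linarith [(abs_le.1 e5).1]) hα
  have a6 : α * T6 ≤ α * (3 * (K5 * v3)) := mul_le_mul_of_nonneg_left (abs_le.1 e6).2 hα
  have p1 : 0 ≤ (K1 + W * K2 + 9 * α * K5) * u := by positivity
  have p2 : 0 ≤ (W * K2 + K3 + 9 * α * K5) * v1 := by positivity
  have p3 : 0 ≤ (K1 + K3) * (d * v2) := by positivity
  have p4 : 0 ≤ (K1 + W * K2 + K3 + 6 * α * K5) * v3 := by positivity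
  nlinarith

theorem chi_form (P : Par) (C B : ℝ) : ∃ K : ℝ, 1 ≤ K ∧ ∀ (N : ℕ) (L : ℝ) [Fact (0 < L)]
    (w : T3 L → ℝ) (ψ : Cf N L → ℂ) (δ : ℝ) (θ η η' b : T3 L → ℝ), MS P C B w ψ δ θ η η' b →
      ∀ (o : Fin N) (H k : ℝ) (k₀ : Fin 3 → ℝ) (κ : T3 L → ℂ), 1 ≤ H → δ ≤ k → Ker H δ k k₀ κ →
        ∀ ζ : Cf N L → ℂ, IsC1 ζ →
        rT o ζ (chi P o κ θ η b ψ) + rQ P w ψ (univ.erase o) ζ (chi P o κ θ η b ψ) ≤
          QS P w ψ (univ.erase o) ζ + δ * k * nsq ζ + K * H ^ 2 * δ * k * (rho N L * δ ^ 3) +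
            K * H * (k ^ 2 * (√(δ ^ 3 * (rho N L * k ^ 2 + rho N L ^ 2 / δ ^ 3 + Sdef P w o b ψ)) +
                δ / k * √(rho N L * δ ^ 3)) * √(nsq ζ) +
              δ * √(rho N L * δ ^ 3) * √(∫ x, gP o ζ x)) := by
  obtain ⟨K1, hK1, H1⟩ := src_sub P C B
  obtain ⟨K2, hK2, H2⟩ := crude P C B
  obtain ⟨K3, hK3, H3⟩ := window_pieces B
  obtain ⟨K4, hK4, H4⟩ := psit_energy P C B
  obtain ⟨K5, hK5, H5⟩ := ksum_grad P C B
  have ha := P.ha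
  have hα : 0 < 2 * π * P.a := by positivity
  have hW : 0 ≤ P.W := by
    have h1 := P.hV
    have h2 := P.hR0
    unfold Par.W
    positivity
  have hK34 : 0 ≤ (2 * π * P.a) ^ 2 * K3 * K4 := by positivity
  refine ⟨K1 + P.W * K2 + (2 * π * P.a) ^ 2 * K3 * K4 + 9 * (2 * π * P.a) * K5, ?_,
    fun N L _ w ψ δ θ η η' b h o H k k₀ κ hH hδk hκ ζ hζ => ?_⟩
  · have : 0 ≤ P.W * K2 := by positivity
    have : 0 ≤ 9 * (2 * π * P.a) * K5 := by positivity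
    linarith
  have hδ := h.δpos
  have hk : 0 < k := by linarith
  have hH0 : 0 < H := by linarith
  obtain ⟨hρ, hδ1, -, -, -, -, hUb⟩ := h.basic
  have hw := h.st.pot.wp
  have hg := h.st.gs
  have hψ := hg.c1
  have hc2 := hκ.win.c2
  have hp : ∀ j ∈ univ.erase o, IsC1 (psit o j θ η b ψ) := fun j hj =>
    psit_c1 h.cuts (BM.of_cont hUb) (Finset.ne_of_mem_erase hj) hψ
  have hlap : Continuous (lapT κ) := hc2.cont_lap
  have hρd : rho N L ≤ δ * k := by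
    have h1 := h.hρ
    have h2 : δ ^ 3 ≤ δ * δ := by nlinarith [mul_pos hδ hδ]
    have h3 : δ * δ ≤ δ * k := mul_le_mul_of_nonneg_left hδk hδ.le
    linarith
  -- term 1
  have c1 : Continuous fun x => cvl o (lapT κ) (mul (Wi w o) ψ) x -
      (4 * π * P.a : ℝ) * ksum o (lapT κ) (fun j => psit o j θ η b ψ) x := by
    refine (continuous_cvl (BM.of_cont hlap) ?_ o).sub
      (continuous_const.mul (continuous_ksum hlap fun j hj => (hp j hj).1))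
    exact (Complex.continuous_ofReal.comp (continuous_Wi hw.cont o)).mul hψ.1
  have e1 := rip_le_ma hζ.1 c1 hK1 (c := H * k ^ 2)
    (Y := δ ^ 3 * (rho N L * k ^ 2 + rho N L ^ 2 / δ ^ 3 + Sdef P w o b ψ)) (by positivity)
    ((H1 N L w ψ δ θ η η' b h o (lapT κ) _ _ hκ.c3 hκ.win.lap_out hκ.le2 hκ.le3).trans
      (le_of_eq (by unfold Sdef; field_simp))) le_rfl
  -- term 2
  have e2 := rip_le_ma hζ.1 (continuous_cvl (BM.of_cont hlap) hψ.1 o) hK2 hH0.le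
    (H2 N L w ψ δ θ η η' b h o H κ hκ.win) le_rfl
  -- term 3
  have hQ := QS_nonneg (P := P) hw hg (univ.erase o) hζ
  have ht : 0 < (δ / k) / (2 * π * P.a * K3 * H ^ 2 * δ ^ 6) := by positivity
  have e3 := rQ_sum_le_ma hw hg (univ.erase o) (univ.erase o)
    (f := fun j => mul (hol o j η') fun x => conj (κ (x o - x j)) * ζ x)
    (fun j hj => (hol_c1 h.cuts.hη' o j).mul
      ((hc2.c1.pair (Finset.ne_of_mem_erase hj).symm).conj.mul' hζ)) hp ht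
    (H3 P N L w ψ hw hg δ η' hδ h.cuts.hη' o H k κ hH hδk hκ.win hκ.le1 ζ hζ)
    (H4 N L w ψ δ θ η η' b h o).1
  have e3' := mul_le_mul_of_nonneg_left e3 hα.le
  have e3'' : 2 * π * P.a * ((δ / k) / (2 * π * P.a * K3 * H ^ 2 * δ ^ 6) *
      (K3 * H ^ 2 * δ ^ 6 * (QS P w ψ (univ.erase o) ζ + k ^ 2 * nsq ζ)) +
      ((δ / k) / (2 * π * P.a * K3 * H ^ 2 * δ ^ 6))⁻¹ * (K4 * rho N L / δ)) =
      δ / k * QS P w ψ (univ.erase o) ζ + δ * k * nsq ζ +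
        (2 * π * P.a) ^ 2 * K3 * K4 * (H ^ 2 * δ * k * (rho N L * δ ^ 3)) := by
    field_simp
  have hdk : δ / k * QS P w ψ (univ.erase o) ζ ≤ QS P w ψ (univ.erase o) ζ :=
    mul_le_of_le_one_left hQ ((div_le_one hk).2 hδk)
  rw [e3''] at e3'
  -- terms 4, 5, 6
  obtain ⟨g4, g5⟩ := H5 N L w ψ δ θ η η' b h o (fun c => dd (d1 c) κ) _
    (fun c => (hc2 c).1.cdd) (fun c z hz => hκ.win.dd_out c z hz) hκ.le1
  obtain ⟨-, g6⟩ := H5 N L w ψ δ θ η η' b h o (fun _ => κ) _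
    (fun _ => hc2.c1.cont) (fun _ z hz => hκ.win.out z hz) (fun _ z => hκ.win.le z)
  have e4 := rip_sum_le_ma (φ := fun _ => ζ) (fun _ => hζ.1)
    (fun c => continuous_ksum (hc2 c).1.cdd fun j hj => ((hp j hj).2 j c).cdd) hK5
    (c := H * δ * k) (Y := rho N L * δ ^ 3) (by positivity)
    (g4.trans (le_of_eq (by field_simp))) fun _ => le_rfl
  have e5 := rip_sum_le_ma (φ := fun _ => ζ) (fun _ => hζ.1)
    (fun c => continuous_ksum (hc2 c).1.cdd fun j hj => ((hp j hj).2 o c).cdd) hK5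
    (c := H * δ * k) (Y := rho N L * δ ^ 3) (by positivity)
    (g5.trans (le_of_eq (by field_simp))) fun _ => le_rfl
  have e6 := rip_sum_le_ma (φ := fun c => dd (dir o c) ζ) (fun c => (hζ.2 o c).cdd)
    (fun c => continuous_ksum hc2.c1.cont fun j hj => ((hp j hj).2 o c).cdd) hK5
    (c := H * δ) (Y := rho N L * δ ^ 3) (by positivity)
    (g6.trans (le_of_eq (by field_simp))) fun c => nsq_dd_le_ma hζ o c
  rw [chi_identity h o hc2 hζ]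
  have key := assemble_ma (α := 2 * π * P.a) (W := P.W) (K1 := K1) (K2 := K2)
    (K3 := (2 * π * P.a) ^ 2 * K3 * K4) (K5 := K5) (ρ := rho N L) (d := δ * k)
    (Q := QS P w ψ (univ.erase o) ζ) (n := δ * k * nsq ζ)
    (u := H ^ 2 * δ * k * (rho N L * δ ^ 3))
    (v1 := H * k ^ 2 *
      √(δ ^ 3 * (rho N L * k ^ 2 + rho N L ^ 2 / δ ^ 3 + Sdef P w o b ψ)) * √(nsq ζ))
    (v2 := H * √(rho N L * δ ^ 3) * √(nsq ζ))
    (v3 := H * δ * √(rho N L * δ ^ 3) * √(∫ x, gP o ζ x))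
    hα.le hW (by linarith) (by linarith) hK34 (by linarith) hρ.le hρd (by positivity)
    (by positivity) (by positivity) (by positivity) (e1.trans (le_of_eq (by ring)))
    (e2.trans (le_of_eq (by ring))) (e3'.trans (by linarith [hdk])) (e4.trans (le_of_eq (by ring)))
    (e5.trans (le_of_eq (by ring))) (e6.trans (le_of_eq (by ring)))
  refine le_trans (le_of_eq ?_) (key.trans (le_of_eq ?_))
  · ring
  · field_simp

end Pool.Agent.BoseTail
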