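import Pool.Agent.Lib.MP_dec75e_mp.Hol

/-! Norm of the approximate solution and its derivative in `x_o`. -/

open MeasureTheory Complex Finset Filter Function
open scoped ComplexConjugate Real Topology

noncomputable section

namespace Pool.Agent.BoseTail

section aux
variable {N : ℕ} {L : ℝ} [Fact (0 < L)] {P : Par} {C B : ℝ} {w : T3 L → ℝ} {ψ : Cf N L → ℂ}
  {δ : ℝ} {θ η η' b : T3 L → ℝ}

theorem BM_nb_pair_yn (s : ℝ) (i j : Fin N) : BM (fun x : Cf N L => nb s (x i - x j)) :=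
  (BM_nb s).comp ((measurable_pi_apply i).sub (measurable_pi_apply j))

theorem amp_cont_yn (h : MS P C B w ψ δ θ η η' b) (o j : Fin N) :
    Continuous (amp o j (Ub b) ψ) :=
  continuous_amp h.basic.2.2.2.2.1.bm h.st.gs.c1.1 o j

theorem BM_amp_yn (h : MS P C B w ψ δ θ η η' b) (o j : Fin N) :
    BM (fun x => ‖amp o j (Ub b) ψ x‖ ^ 2) :=
  BM.of_cont ((amp_cont_yn h o j).norm.pow 2)

theorem win_yn (h : MS P C B w ψ δ θ η η' b) {o j : Fin N} (hj : j ≠ o) {G : Cf N L → ℝ}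
    (hG : BM G) (hG0 : ∀ x, 0 ≤ G x) (hGo : ∀ x y, G (update x o y) = G x) :
    ∫ x, nb (1 / δ) (x o - x j) * (G x * ‖amp o j (Ub b) ψ x‖ ^ 2) ≤
      38 * ∫ x, nb (3 / δ) (x o - x j) * G x * ‖ψ x‖ ^ 2 := by
  have hδ := h.δpos
  have hL : (0 : ℝ) < L := Lpos
  have h1 := av_pair (𝕜 := ℝ) (BM_nb (1 / δ)) (hG.mul (BM_amp_yn h o j)) hj.symm
    (fun x y => by rw [hGo, amp_update hj])
  have h2 := amp_sq_le hj (by positivity : (0 : ℝ) < 3 / δ) h.basic.2.2.2.2.1 h.st.gs.c1.1 hG hG0 hGo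
  have h3 : ∫ z : T3 L, nb (1 / δ) z ≤ (2 * (1 / δ)) ^ 3 := integral_nb_le (by positivity)
  have h4 : 0 ≤ (L ^ 3)⁻¹ * ∫ x, G x * ‖amp o j (Ub b) ψ x‖ ^ 2 :=
    mul_nonneg (by positivity) (integral_nonneg fun x => mul_nonneg (hG0 x) (sq_nonneg _))
  have h5 : 0 ≤ ∫ x, nb (3 / δ) (x o - x j) * G x * ‖ψ x‖ ^ 2 :=
    integral_nonneg fun x => mul_nonneg (mul_nonneg (nb_nonneg _ _) (hG0 x)) (sq_nonneg _)
  simp only [RCLike.ofReal_real_eq_id, id] at h1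
  rw [h1]
  calc (L ^ 3)⁻¹ * (∫ z : T3 L, nb (1 / δ) z) * ∫ x, G x * ‖amp o j (Ub b) ψ x‖ ^ 2
      = (∫ z : T3 L, nb (1 / δ) z) * ((L ^ 3)⁻¹ * ∫ x, G x * ‖amp o j (Ub b) ψ x‖ ^ 2) := by ring
    _ ≤ (2 * (1 / δ)) ^ 3 * ((L ^ 3)⁻¹ * ∫ x, G x * ‖amp o j (Ub b) ψ x‖ ^ 2) :=
        mul_le_mul_of_nonneg_right h3 h4
    _ ≤ (2 * (1 / δ)) ^ 3 *
          (8 * 4 ^ 2 / (3 / δ) ^ 3 * ∫ x, nb (3 / δ) (x o - x j) * G x * ‖ψ x‖ ^ 2) :=
        mul_le_mul_of_nonneg_left h2 (by positivity)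
    _ = 1024 / 27 * ∫ x, nb (3 / δ) (x o - x j) * G x * ‖ψ x‖ ^ 2 := by
        field_simp; ring
    _ ≤ _ := mul_le_mul_of_nonneg_right (by norm_num) h5

theorem sc_yn (h : MS P C B w ψ δ θ η η' b) {a : ℝ} (ha0 : 0 ≤ a) (ha : a ≤ 30) :
    (2 * (a / δ)) ^ 2 * rho N L ≤ 1 := by
  have hδ := h.δpos
  refine le_trans (mul_le_mul_of_nonneg_right ?_ h.basic.1.le) h.h60
  have : 2 * (a / δ) ≤ 60 / δ := by
    rw [← mul_div_assoc]; exact div_le_div_of_nonneg_right (by linarith) hδ.le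
  exact pow_le_pow_left₀ (by positivity) this 2

theorem two_yn (h : MS P C B w ψ δ θ η η' b) (o : Fin N) :
    ∑ j ∈ univ.erase o, ∫ x, nb (1 / δ) (x o - x j) * ‖amp o j (Ub b) ψ x‖ ^ 2 ≤
      38 * (C * rho N L * (3 / δ) ^ 3) := by
  have hδ := h.δpos
  have h2 := h.ap.db.two o (3 / δ) (by positivity) (sc_yn h (by norm_num) (by norm_num))
  refine le_trans ?_ (mul_le_mul_of_nonneg_left h2 (by norm_num))
  rw [D2, Finset.mul_sum]
  refine Finset.sum_le_sum fun j hj => ?_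
  have := win_yn h (Finset.ne_of_mem_erase hj) (G := fun _ => 1) (BM.const 1)
    (fun _ => zero_le_one) (fun _ _ => rfl)
  simpa using this

theorem three_yn (h : MS P C B w ψ δ θ η η' b) (o : Fin N) :
    ∑ j ∈ univ.erase o, ∫ x, nb (1 / δ) (x o - x j) *
        ((∑ l ∈ (univ.erase o).erase j, nb (3 * (8 / δ)) (x l - x o)) *
          ‖amp o j (Ub b) ψ x‖ ^ 2) ≤
      38 * (C * rho N L ^ 2 * (3 / δ) ^ 3 * (25 / δ) ^ 3) := by
  have hδ := h.δpos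
  have h3 := h.ap.db.three o (3 / δ) (25 / δ) (by positivity)
    (div_le_div_of_nonneg_right (by norm_num) hδ.le) (sc_yn h (by norm_num) (by norm_num))
  refine le_trans ?_ (mul_le_mul_of_nonneg_left h3 (by norm_num))
  rw [D3, Finset.mul_sum]
  refine Finset.sum_le_sum fun j hj => ?_
  have hjo := Finset.ne_of_mem_erase hj
  have e1 : ∫ x, nb (1 / δ) (x o - x j) *
        ((∑ l ∈ (univ.erase o).erase j, nb (3 * (8 / δ)) (x l - x o)) *
          ‖amp o j (Ub b) ψ x‖ ^ 2) =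
      ∑ l ∈ (univ.erase o).erase j, ∫ x, nb (1 / δ) (x o - x j) *
        (nb (3 * (8 / δ)) (x l - x o) * ‖amp o j (Ub b) ψ x‖ ^ 2) := by
    rw [← integral_finsetSum _ fun l _ =>
      ((BM_nb_pair_yn _ o j).mul ((BM_nb_pair_yn _ l o).mul (BM_amp_yn h o j))).integrable]
    congr 1; funext x
    rw [Finset.sum_mul, Finset.mul_sum]
  rw [e1, Finset.mul_sum]
  refine Finset.sum_le_sum fun l hl => ?_
  have hlo : l ≠ o := Finset.ne_of_mem_erase (Finset.mem_of_mem_erase hl)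
  have hw := win_yn h hjo (G := fun x => nb (25 / δ) (x l - x j)) (BM_nb_pair_yn _ l j)
    (fun _ => nb_nonneg _ _) (fun x y => by rw [update_of_ne hlo, update_of_ne hjo])
  refine le_trans ?_ hw
  refine integral_mono
    ((BM_nb_pair_yn _ o j).mul ((BM_nb_pair_yn _ l o).mul (BM_amp_yn h o j))).integrable
    ((BM_nb_pair_yn _ o j).mul ((BM_nb_pair_yn _ l j).mul (BM_amp_yn h o j))).integrable
    fun x => ?_
  have := nb_mul_le (1 / δ) (3 * (8 / δ)) (x o - x j) (x l - x o)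
  have e2 : x o - x j + (x l - x o) = x l - x j := by abel
  have e3 : 1 / δ + 3 * (8 / δ) = 25 / δ := by ring
  rw [e2, e3] at this
  have := mul_le_mul_of_nonneg_right this (sq_nonneg ‖amp o j (Ub b) ψ x‖)
  simpa only [mul_assoc] using this

theorem gP_psit_yn (h : MS P C B w ψ δ θ η η' b) {o j : Fin N} (hj : j ≠ o) (x : Cf N L) :
    gP o (psit o j θ η b ψ) x ≤
      (3 / 2 * B ^ 2 * δ ^ 2 + 3 / 32 * B ^ 2 * δ ^ 2 *
        ∑ l ∈ (univ.erase o).erase j, nb (3 * (8 / δ)) (x l - x o)) *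
        ‖amp o j (Ub b) ψ x‖ ^ 2 := by
  have hδ := h.δpos
  have hθ := h.cuts.hθ
  have hη := h.cuts.hη
  have hU := h.basic.2.2.2.2.1.bm
  have hA : IsC1 (amp o j (Ub b) ψ) := IsC1.amp hj hU h.st.gs.c1
  have hcut : IsC1 (cut o j θ η) := cut_c1 hθ hη hj
  have e1 : gP o (psit o j θ η b ψ) x = gP o (cut o j θ η) x * ‖amp o j (Ub b) ψ x‖ ^ 2 := by
    simp only [gP, psit]
    rw [Finset.sum_mul]
    refine Finset.sum_congr rfl fun c _ => ?_
    rw [dd_mul_real hcut hA, dd_amp_self hj, mul_zero, add_zero, norm_mul, mul_pow,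
      Complex.norm_real]
  rw [e1]
  refine mul_le_mul_of_nonneg_right ?_ (sq_nonneg _)
  have hg := gP_hol_o hη o j x
  have e2 : ∀ c, ‖dd (dir o c) (cut o j θ η) x‖ ^ 2 ≤
      2 * (B / (2 / δ)) ^ 2 + 2 * ‖dd (dir o c) (hol o j η) x‖ ^ 2 := by
    intro c
    have e3 : dd (dir o c) (cut o j θ η) x =
        dd (d1 c) θ (x o - x j) * hol o j η x + θ (x o - x j) * dd (dir o c) (hol o j η) x := by
      have := dd_mul (dir_dir o c) ((hθ.c1 c).pair hj.symm o) ((hol_c1 hη o j).2 o c) x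
      rw [dd_pair (hθ.c1 c) hj.symm, if_pos rfl] at this
      exact this
    rw [e3, Real.norm_eq_abs, Real.norm_eq_abs, sq_abs, sq_abs]
    have a1 := hθ.grad c (x o - x j)
    have a2 : dd (d1 c) θ (x o - x j) ^ 2 ≤ (B / (2 / δ)) ^ 2 := by
      rw [← sq_abs]; exact pow_le_pow_left₀ (abs_nonneg _) a1 2
    have a3 := hol_nonneg hη o j x
    have a4 := hol_le_one hη o j x
    have a5 := hθ.nonneg (x o - x j)
    have a6 := hθ.le (x o - x j)
    have a7 : (dd (d1 c) θ (x o - x j) * hol o j η x) ^ 2 ≤ (B / (2 / δ)) ^ 2 := by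
      rw [mul_pow]
      have : hol o j η x ^ 2 ≤ 1 := pow_le_one₀ a3 a4
      nlinarith [sq_nonneg (dd (d1 c) θ (x o - x j))]
    have a8 : (θ (x o - x j) * dd (dir o c) (hol o j η) x) ^ 2 ≤
        dd (dir o c) (hol o j η) x ^ 2 := by
      rw [mul_pow]
      have : θ (x o - x j) ^ 2 ≤ 1 := pow_le_one₀ a5 a6
      nlinarith [sq_nonneg (dd (dir o c) (hol o j η) x)]
    nlinarith [sq_nonneg (dd (d1 c) θ (x o - x j) * hol o j η x -
      θ (x o - x j) * dd (dir o c) (hol o j η) x)]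
  have e4 : gP o (cut o j θ η) x ≤ 6 * (B / (2 / δ)) ^ 2 + 2 * gP o (hol o j η) x := by
    simp only [gP]
    refine (Finset.sum_le_sum fun c _ => e2 c).trans (le_of_eq ?_)
    rw [Finset.sum_add_distrib, ← Finset.mul_sum, ← Finset.mul_sum]
    simp only [Finset.sum_const, Finset.card_univ, Fintype.card_fin, nsmul_eq_mul]
    push_cast; ring
  have e5 : (B / (2 / δ)) ^ 2 = B ^ 2 * δ ^ 2 / 4 := by field_simp; ring
  have e6 : (B / (8 / δ)) ^ 2 = B ^ 2 * δ ^ 2 / 64 := by field_simp; ring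
  rw [e5] at e4
  rw [e6] at hg
  linarith

end aux

theorem ksum_norm (C B : ℝ) : ∃ K : ℝ, 1 ≤ K ∧ ∀ (P : Par) (N : ℕ) (L : ℝ) [Fact (0 < L)]
    (w : T3 L → ℝ) (ψ : Cf N L → ℂ) (δ : ℝ) (θ η η' b : T3 L → ℝ), MS P C B w ψ δ θ η η' b →
      ∀ (o : Fin N) (κ : T3 L → ℂ) (M : ℝ), Continuous κ → (∀ z, 1 / δ < ‖z‖ → κ z = 0) →
        (∀ z, ‖κ z‖ ≤ M) →
        |nsq (ksum o κ fun j => psit o j θ η b ψ) -
            (∫ z, ‖κ z‖ ^ 2) * S2 o (fun j => amp o j (Ub b) ψ)| ≤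
          K * M ^ 2 * rho N L ^ 2 / δ ^ 6 := by
  refine ⟨1 + 38 * (3 ^ 3 * 25 ^ 3) * |C|, by linarith [abs_nonneg C], ?_⟩
  intro P N L _ w ψ δ θ η η' b h o κ M hκ hout hM
  have hδ := h.δpos
  have hθ := h.cuts.hθ
  have hη := h.cuts.hη
  have hU := h.basic.2.2.2.2.1.bm
  have hκ2 : BM (fun z => ‖κ z‖ ^ 2) := BM.of_cont (hκ.norm.pow 2)
  have hκp : ∀ j, BM (fun x : Cf N L => ‖κ (x o - x j)‖ ^ 2) := fun j =>
    hκ2.comp ((measurable_pi_apply o).sub (measurable_pi_apply j))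
  have hhol : ∀ j, BM (fun x : Cf N L => hol o j η x ^ 2) := fun j =>
    BM.of_cont ((hol_c1 hη o j).1.pow 2)
  have e1 := nsq_ksum (o := o) (s := 1 / δ) hκ hout (A := fun j => psit o j θ η b ψ)
    (fun j hj => (psit_c1 h.cuts hU (Finset.ne_of_mem_erase hj) h.st.gs.c1).1)
    (fun j _ l hl x hx => (psit_supp h.cuts ψ hl
      (lt_of_le_of_lt hx (div_lt_div_of_pos_right (by norm_num) hδ))).1)
  have e2 : (∫ z, ‖κ z‖ ^ 2) * S2 o (fun j => amp o j (Ub b) ψ) =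
      ∑ j ∈ univ.erase o, ∫ x, ‖κ (x o - x j)‖ ^ 2 * ‖amp o j (Ub b) ψ x‖ ^ 2 := by
    rw [S2, ← mul_assoc, Finset.mul_sum]
    refine Finset.sum_congr rfl fun j hj => ?_
    have hjo := Finset.ne_of_mem_erase hj
    have h1 := av_pair (𝕜 := ℝ) hκ2 (BM_amp_yn h o j) hjo.symm
      (fun x y => by rw [amp_update hjo])
    simp only [RCLike.ofReal_real_eq_id, id] at h1
    rw [h1]; ring
  have e3 : ∀ j (x : Cf N L), ‖κ (x o - x j)‖ ^ 2 * ‖psit o j θ η b ψ x‖ ^ 2 =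
      ‖κ (x o - x j)‖ ^ 2 * (hol o j η x ^ 2 * ‖amp o j (Ub b) ψ x‖ ^ 2) := by
    intro j x
    by_cases hx : 1 / δ < ‖x o - x j‖
    · simp [hout _ hx]
    · have h1 : θ (x o - x j) = 1 :=
        hθ.one _ ((not_lt.1 hx).trans (div_le_div_of_nonneg_right (by norm_num) hδ.le))
      simp only [psit, mul, cut, h1, one_mul, norm_mul, mul_pow, Complex.norm_real,
        Real.norm_eq_abs, sq_abs]
  have e4 : (∫ z, ‖κ z‖ ^ 2) * S2 o (fun j => amp o j (Ub b) ψ) -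
      nsq (ksum o κ fun j => psit o j θ η b ψ) =
      ∑ j ∈ univ.erase o, ∫ x, ‖κ (x o - x j)‖ ^ 2 *
        ((1 - hol o j η x ^ 2) * ‖amp o j (Ub b) ψ x‖ ^ 2) := by
    rw [e1, e2, ← Finset.sum_sub_distrib]
    refine Finset.sum_congr rfl fun j _ => ?_
    simp only [e3]
    rw [← integral_sub ((hκp j).mul (BM_amp_yn h o j)).integrable
      ((hκp j).mul ((hhol j).mul (BM_amp_yn h o j))).integrable]
    congr 1; funext x; ring
  have hh1 : ∀ j (x : Cf N L), 0 ≤ 1 - hol o j η x ^ 2 := fun j x =>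
    sub_nonneg.2 (pow_le_one₀ (hol_nonneg hη o j x) (hol_le_one hη o j x))
  rw [abs_sub_comm, e4, abs_of_nonneg (Finset.sum_nonneg fun j _ => integral_nonneg fun x =>
    mul_nonneg (sq_nonneg _) (mul_nonneg (hh1 j x) (sq_nonneg _)))]
  have e5 : ∑ j ∈ univ.erase o, ∫ x, ‖κ (x o - x j)‖ ^ 2 *
        ((1 - hol o j η x ^ 2) * ‖amp o j (Ub b) ψ x‖ ^ 2) ≤
      M ^ 2 * ∑ j ∈ univ.erase o, ∫ x, nb (1 / δ) (x o - x j) *
        ((∑ l ∈ (univ.erase o).erase j, nb (3 * (8 / δ)) (x l - x o)) *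
          ‖amp o j (Ub b) ψ x‖ ^ 2) := by
    rw [Finset.mul_sum]
    refine Finset.sum_le_sum fun j _ => ?_
    rw [← integral_const_mul]
    refine integral_mono
      ((hκp j).mul (((BM.const 1).sub (hhol j)).mul (BM_amp_yn h o j))).integrable
      ((BM.const _).mul ((BM_nb_pair_yn _ o j).mul
        ((BM.sum fun l _ => BM_nb_pair_yn _ l o).mul (BM_amp_yn h o j)))).integrable
      fun x => ?_
    have a1 : ‖κ (x o - x j)‖ ^ 2 ≤ M ^ 2 * nb (1 / δ) (x o - x j) := by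
      by_cases hx : 1 / δ < ‖x o - x j‖
      · rw [hout _ hx, norm_zero, zero_pow two_ne_zero]
        exact mul_nonneg (sq_nonneg _) (nb_nonneg _ _)
      · rw [nb, if_pos (not_lt.1 hx), mul_one]
        exact pow_le_pow_left₀ (norm_nonneg _) (hM _) 2
    have a2 := mul_le_mul_of_nonneg_right (one_sub_hol_le hη o j x)
      (sq_nonneg ‖amp o j (Ub b) ψ x‖)
    have := mul_le_mul a1 a2 (mul_nonneg (hh1 j x) (sq_nonneg _))
      (mul_nonneg (sq_nonneg _) (nb_nonneg _ _))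
    simpa only [mul_assoc] using this
  refine e5.trans ((mul_le_mul_of_nonneg_left (three_yn h o) (sq_nonneg M)).trans ?_)
  have e6 : M ^ 2 * (38 * (C * rho N L ^ 2 * (3 / δ) ^ 3 * (25 / δ) ^ 3)) =
      (38 * (3 ^ 3 * 25 ^ 3) * C) * (M ^ 2 * rho N L ^ 2 / δ ^ 6) := by
    field_simp
  rw [e6, mul_assoc (1 + _), mul_div_assoc (1 + _)]
  refine mul_le_mul_of_nonneg_right ?_ (by positivity)
  linarith [le_abs_self C]

theorem psit_grad_o (C B : ℝ) : ∃ K : ℝ, 1 ≤ K ∧ ∀ (P : Par) (N : ℕ) (L : ℝ) [Fact (0 < L)]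
    (w : T3 L → ℝ) (ψ : Cf N L → ℂ) (δ : ℝ) (θ η η' b : T3 L → ℝ), MS P C B w ψ δ θ η η' b →
      ∀ o : Fin N, ∑ j ∈ univ.erase o, ∫ x, nb (1 / δ) (x o - x j) * gP o (psit o j θ η b ψ) x ≤
        K * rho N L / δ := by
  refine ⟨1 + (3 / 2 * (38 * 3 ^ 3) + 3 / 32 * (38 * (3 ^ 3 * 25 ^ 3))) * (B ^ 2 * |C|),
    by nlinarith [mul_nonneg (sq_nonneg B) (abs_nonneg C)], ?_⟩
  intro P N L _ w ψ δ θ η η' b h o
  have hδ := h.δpos
  have hρ := h.basic.1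
  have hU := h.basic.2.2.2.2.1.bm
  have e1 : ∑ j ∈ univ.erase o, ∫ x, nb (1 / δ) (x o - x j) * gP o (psit o j θ η b ψ) x ≤
      3 / 2 * B ^ 2 * δ ^ 2 *
        (∑ j ∈ univ.erase o, ∫ x, nb (1 / δ) (x o - x j) * ‖amp o j (Ub b) ψ x‖ ^ 2) +
      3 / 32 * B ^ 2 * δ ^ 2 * ∑ j ∈ univ.erase o, ∫ x, nb (1 / δ) (x o - x j) *
        ((∑ l ∈ (univ.erase o).erase j, nb (3 * (8 / δ)) (x l - x o)) *
          ‖amp o j (Ub b) ψ x‖ ^ 2) := by
    rw [Finset.mul_sum, Finset.mul_sum, ← Finset.sum_add_distrib]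
    refine Finset.sum_le_sum fun j hj => ?_
    have hjo := Finset.ne_of_mem_erase hj
    have b1 := (BM.const (3 / 2 * B ^ 2 * δ ^ 2)).mul
      ((BM_nb_pair_yn (1 / δ) o j).mul (BM_amp_yn h o j))
    have b2 := (BM.const (3 / 32 * B ^ 2 * δ ^ 2)).mul ((BM_nb_pair_yn (1 / δ) o j).mul
      ((BM.sum (s := (univ.erase o).erase j) fun l _ => BM_nb_pair_yn (3 * (8 / δ)) l o).mul
        (BM_amp_yn h o j)))
    rw [← integral_const_mul, ← integral_const_mul, ← integral_add b1.integrable b2.integrable]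
    refine integral_mono ((BM_nb_pair_yn _ o j).mul
      (BM.of_cont ((psit_c1 h.cuts hU hjo h.st.gs.c1).cont_gP o))).integrable
      (b1.add b2).integrable fun x => ?_
    have := mul_le_mul_of_nonneg_left (gP_psit_yn h hjo x) (nb_nonneg (1 / δ) (x o - x j))
    refine this.trans (le_of_eq ?_)
    ring
  have hB1 : 0 ≤ 3 / 2 * B ^ 2 * δ ^ 2 := by positivity
  have hB2 : 0 ≤ 3 / 32 * B ^ 2 * δ ^ 2 := by positivity
  refine e1.trans ((add_le_add (mul_le_mul_of_nonneg_left (two_yn h o) hB1)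
    (mul_le_mul_of_nonneg_left (three_yn h o) hB2)).trans ?_)
  have e2 : 3 / 2 * B ^ 2 * δ ^ 2 * (38 * (C * rho N L * (3 / δ) ^ 3)) =
      3 / 2 * (38 * 3 ^ 3) * (B ^ 2 * C) * (rho N L / δ) := by
    field_simp
  have e3 : 3 / 32 * B ^ 2 * δ ^ 2 * (38 * (C * rho N L ^ 2 * (3 / δ) ^ 3 * (25 / δ) ^ 3)) =
      3 / 32 * (38 * (3 ^ 3 * 25 ^ 3)) * (B ^ 2 * (C * (rho N L / δ ^ 3))) * (rho N L / δ) := by
    field_simp
  have hr : rho N L / δ ^ 3 ≤ 1 := (div_le_one (by positivity)).2 h.hρ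
  have hr0 : 0 ≤ rho N L / δ ^ 3 := by positivity
  have e4 : B ^ 2 * C ≤ B ^ 2 * |C| := mul_le_mul_of_nonneg_left (le_abs_self C) (sq_nonneg B)
  have e5 : B ^ 2 * (C * (rho N L / δ ^ 3)) ≤ B ^ 2 * |C| := by
    refine mul_le_mul_of_nonneg_left ?_ (sq_nonneg B)
    calc C * (rho N L / δ ^ 3) ≤ |C| * (rho N L / δ ^ 3) :=
          mul_le_mul_of_nonneg_right (le_abs_self C) hr0
      _ ≤ |C| * 1 := mul_le_mul_of_nonneg_left hr (abs_nonneg C)
      _ = |C| := mul_one _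
  rw [e2, e3, ← add_mul, mul_div_assoc (1 + _)]
  refine mul_le_mul_of_nonneg_right ?_ (by positivity)
  linarith

end Pool.Agent.BoseTail
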