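import Pool.Agent.Lib.MP_dec75e_mp.Yq
import Pool.Agent.Lib.MP_dec75e_mp.Eqn
import Pool.Agent.Lib.MP_dec75e_mp.LEb
import Pool.Agent.Lib.MP_dec75e_mp.Yn

/-! The error `chi` of the approximate solution almost solves the homogeneous equation. -/

open MeasureTheory Complex Finset Filter Function
open scoped ComplexConjugate Real Topology

noncomputable section

namespace Pool.Agent.BoseTail

section
variable {N : ℕ} {L : ℝ} [Fact (0 < L)]

/-- The approximate solution. -/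
def Yap (P : Par) (o : Fin N) (κ : T3 L → ℂ) (θ η b : T3 L → ℝ) (ψ : Cf N L → ℂ) (x : Cf N L) :
    ℂ :=
  (4 * π * P.a : ℝ) * ksum o κ (fun j => psit o j θ η b ψ) x

/-- The error of the approximate solution. -/
def chi (P : Par) (o : Fin N) (κ : T3 L → ℂ) (θ η b : T3 L → ℝ) (ψ : Cf N L → ℂ) (x : Cf N L) :
    ℂ :=
  Yap P o κ θ η b ψ x - cvl o (lapT κ) ψ x

/-- The defect of the scattering approximation. -/
def Sdef (P : Par) (w : T3 L → ℝ) (o : Fin N) (b : T3 L → ℝ) (ψ : Cf N L → ℂ) : ℝ :=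
  S2 o (fun j x => amp o j w ψ x - (4 * π * P.a : ℝ) * amp o j (Ub b) ψ x)

variable {P : Par} {C B : ℝ} {w : T3 L → ℝ} {ψ : Cf N L → ℂ} {δ : ℝ} {θ η η' b : T3 L → ℝ}

theorem psit_c1_ma0 (h : MS P C B w ψ δ θ η η' b) {o j : Fin N} (hj : j ∈ univ.erase o) :
    IsC1 (psit o j θ η b ψ) :=
  psit_c1 h.cuts (BM.of_cont h.basic.2.2.2.2.2.2) (Finset.ne_of_mem_erase hj) h.st.gs.c1

theorem rip_ksum_ma0 {o : Fin N} {κ : T3 L → ℂ} (hκ : Continuous κ) {A : Fin N → Cf N L → ℂ}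
    (hA : ∀ j ∈ univ.erase o, Continuous (A j)) {ζ : Cf N L → ℂ} (hζ : Continuous ζ) :
    rip ζ (ksum o κ A) = ∑ j ∈ univ.erase o, rip ζ fun x => κ (x o - x j) * A j x :=
  rip_sum_right (f := fun j x => κ (x o - x j) * A j x)
    (fun j hj => (hκ.comp (by fun_prop)).mul (hA j hj)) hζ

theorem form_lin_ma0 (hw : Continuous w) (o : Fin N) (S : Finset (Fin N)) {ι : Type*}
    {s : Finset ι} {f : ι → Cf N L → ℂ} (hf : ∀ a ∈ s, IsC1 (f a)) {φ ζ : Cf N L → ℂ}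
    (hφ : IsC1 φ) (hζ : IsC1 ζ) (t : ℝ) :
    rT o ζ (fun x => (t : ℂ) * ∑ a ∈ s, f a x - φ x) +
        rQ P w ψ S ζ (fun x => (t : ℂ) * ∑ a ∈ s, f a x - φ x) =
      t * ∑ a ∈ s, (rT o ζ (f a) + rQ P w ψ S ζ (f a)) - (rT o ζ φ + rQ P w ψ S ζ φ) := by
  have h1 := IsC1.sum hf
  have h2 := h1.const_mul (t : ℂ)
  simp only [rQ]
  rw [rT_sub_right o h2 hφ hζ, rB_sub_right hw h2 hφ hζ, rip_sub_right h2.1 hφ.1 hζ.1,
    rT_smul_right o t h1, rB_smul_right t h1, rip_smul_right, rT_sum_right o hf hζ,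
    rB_sum_right hw hf hζ, rip_sum_right (fun a ha => (hf a ha).1) hζ.1, Finset.sum_add_distrib,
    Finset.sum_sub_distrib, ← Finset.mul_sum]
  ring

theorem Yap_c1 (h : MS P C B w ψ δ θ η η' b) (o : Fin N) {κ : T3 L → ℂ} (hκ : C1T κ) :
    IsC1 (Yap P o κ θ η b ψ) :=
  (ksum_c1 hκ fun _ hj => psit_c1_ma0 h hj).const_mul _

theorem chi_c1 (h : MS P C B w ψ δ θ η η' b) (o : Fin N) {κ : T3 L → ℂ} (hκ : C2T κ) :
    IsC1 (chi P o κ θ η b ψ) :=
  (Yap_c1 h o hκ.c1).sub (IsC1.cvl (BM.of_cont hκ.cont_lap) h.st.gs.c1 o)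

/-- The form applied to the error. -/
theorem chi_identity (h : MS P C B w ψ δ θ η η' b) (o : Fin N) {κ : T3 L → ℂ} (hκ : C2T κ)
    {ζ : Cf N L → ℂ} (hζ : IsC1 ζ) :
    rT o ζ (chi P o κ θ η b ψ) + rQ P w ψ (univ.erase o) ζ (chi P o κ θ η b ψ) =
      rip ζ (fun x => cvl o (lapT κ) (mul (Wi w o) ψ) x -
          (4 * π * P.a : ℝ) * ksum o (lapT κ) (fun j => psit o j θ η b ψ) x) -
        rho N L * P.W * rip ζ (cvl o (lapT κ) ψ) +
        4 * π * P.a * ((∑ j ∈ univ.erase o, rQ P w ψ (univ.erase o)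
            (mul (hol o j η') fun x => conj (κ (x o - x j)) * ζ x) (psit o j θ η b ψ)) +
          (∑ c, rip ζ (ksum o (dd (d1 c) κ) fun j => dd (dir j c) (psit o j θ η b ψ))) -
          (1 / 2) * (∑ c, rip ζ (ksum o (dd (d1 c) κ) fun j => dd (dir o c) (psit o j θ η b ψ))) +
          (1 / 2) * ∑ c, rip (dd (dir o c) ζ)
            (ksum o κ fun j => dd (dir o c) (psit o j θ η b ψ))) := by
  have hw := h.st.pot.wp
  have hψ := h.st.gs.c1
  have hA := fun j (hj : j ∈ univ.erase o) => psit_c1_ma0 h hj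
  have hf : ∀ j ∈ univ.erase o, IsC1 fun x : Cf N L => κ (x o - x j) * psit o j θ η b ψ x :=
    fun j hj => (hκ.c1.pair (Finset.ne_of_mem_erase hj).symm).mul' (hA j hj)
  have h1 := form_lin_ma0 (P := P) (ψ := ψ) hw.cont o (univ.erase o) hf
    (IsC1.cvl (BM.of_cont hκ.cont_lap) hψ o) hζ (4 * π * P.a)
  have h2 := Finset.sum_congr rfl fun j (hj : j ∈ univ.erase o) =>
    (form_window (P := P) (w := w) (ψ := ψ) (Finset.ne_of_mem_erase hj) hκ hζ (hA j hj)).trans (by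
      rw [rQ_insert_hole h.cuts h.δpos
        ((hκ.c1.pair (Finset.ne_of_mem_erase hj).symm).conj.mul' hζ)])
  rw [h2, cvl_equation hw h.st.gs o hκ.cont_lap hζ] at h1
  refine h1.trans ?_
  have h3 : Continuous (cvl o (lapT κ) (mul (Wi w o) ψ)) :=
    continuous_cvl (BM.of_cont hκ.cont_lap)
      ((Complex.continuous_ofReal.comp (continuous_Wi hw.cont o)).mul hψ.1) o
  have h4 := continuous_ksum hκ.cont_lap fun j hj => (hA j hj).1
  have h5 : ∀ c, rip ζ (ksum o (dd (d1 c) κ) fun j => dd (dir j c) (psit o j θ η b ψ)) = _ :=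
    fun c => rip_ksum_ma0 (hκ c).1.cdd (fun j hj => ((hA j hj).2 j c).cdd) hζ.1
  have h6 : ∀ c, rip ζ (ksum o (dd (d1 c) κ) fun j => dd (dir o c) (psit o j θ η b ψ)) = _ :=
    fun c => rip_ksum_ma0 (hκ c).1.cdd (fun j hj => ((hA j hj).2 o c).cdd) hζ.1
  have h7 : ∀ c, rip (dd (dir o c) ζ) (ksum o κ fun j => dd (dir o c) (psit o j θ η b ψ)) = _ :=
    fun c => rip_ksum_ma0 hκ.c1.cont (fun j hj => ((hA j hj).2 o c).cdd) (hζ.2 o c).cdd
  rw [rip_sub_right h3 (h4.const_mul _) hζ.1, rip_smul_right,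
    rip_ksum_ma0 hκ.cont_lap (fun j hj => (hA j hj).1) hζ.1]
  simp only [h5, h6, h7, Finset.sum_add_distrib, Finset.sum_sub_distrib, Finset.sum_neg_distrib,
    ← Finset.mul_sum, Finset.sum_comm (s := univ.erase o) (t := (univ : Finset (Fin 3)))]
  ring

theorem ksum_grad_ma0 (h : MS P C B w ψ δ θ η η' b) (o : Fin N) {κ : Fin 3 → T3 L → ℂ} {M : ℝ}
    (hκ : ∀ c, Continuous (κ c)) (hout : ∀ c z, 1 / δ < ‖z‖ → κ c z = 0)
    (hM : ∀ c z, ‖κ c z‖ ≤ M) (i : Fin N → Fin N) :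
    ∑ c, nsq (ksum o (κ c) fun j => dd (dir (i j) c) (psit o j θ η b ψ)) ≤
      M ^ 2 * ∑ j ∈ univ.erase o, ∫ x, nb (1 / δ) (x o - x j) * gP (i j) (psit o j θ η b ψ) x := by
  have hA := fun j (hj : j ∈ univ.erase o) c => ((psit_c1_ma0 h hj).2 (i j) c).cdd
  have hδ : 1 / δ < 8 / δ := div_lt_div_of_pos_right (by norm_num) h.δpos
  refine (Finset.sum_le_sum fun c _ => nsq_ksum_le (hκ c) (hout c) (hM c) (fun j hj => hA j hj c)
    fun j _ l hl x hx => (psit_supp h.cuts ψ hl (hx.trans_lt hδ)).2 _ _).trans (le_of_eq ?_)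
  rw [← Finset.mul_sum, Finset.sum_comm]
  refine congrArg _ (Finset.sum_congr rfl fun j hj => ?_)
  rw [← integral_finsetSum _ fun c _ => (((BM_nb (1 / δ)).comp (by fun_prop)).mul
    ((BM.of_cont (hA j hj c)).norm.pow 2)).integrable]
  simp only [gP, Finset.mul_sum]

end

/-- Window sums of derivatives of the localised amplitudes. -/
theorem ksum_grad (P : Par) (C B : ℝ) : ∃ K : ℝ, 1 ≤ K ∧ ∀ (N : ℕ) (L : ℝ) [Fact (0 < L)]
    (w : T3 L → ℝ) (ψ : Cf N L → ℂ) (δ : ℝ) (θ η η' b : T3 L → ℝ), MS P C B w ψ δ θ η η' b →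
      ∀ (o : Fin N) (κ : Fin 3 → T3 L → ℂ) (M : ℝ), (∀ c, Continuous (κ c)) →
        (∀ c z, 1 / δ < ‖z‖ → κ c z = 0) → (∀ c z, ‖κ c z‖ ≤ M) →
        ∑ c, nsq (ksum o (κ c) fun j => dd (dir j c) (psit o j θ η b ψ)) ≤
            K * M ^ 2 * rho N L / δ ∧
          ∑ c, nsq (ksum o (κ c) fun j => dd (dir o c) (psit o j θ η b ψ)) ≤
            K * M ^ 2 * rho N L / δ := by
  obtain ⟨K₁, hK₁, h₁⟩ := psit_energy P C B
  obtain ⟨K₂, hK₂, h₂⟩ := psit_grad_o C B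
  refine ⟨K₁ + K₂, by linarith, fun N L _ w ψ δ θ η η' b h o κ M hκ hout hM => ?_⟩
  have hρ := h.basic.1
  have hδ := h.δpos
  have e : ∀ K : ℝ, K ≤ K₁ + K₂ → M ^ 2 * (K * rho N L / δ) ≤ (K₁ + K₂) * M ^ 2 * rho N L / δ :=
    fun K hK => by
      calc _ = K * M ^ 2 * rho N L / δ := by ring
        _ ≤ _ := by gcongr
  refine ⟨(ksum_grad_ma0 h o hκ hout hM id).trans (le_trans (mul_le_mul_of_nonneg_left
      (le_trans (Finset.sum_le_sum fun j hj => ?_) (h₁ N L w ψ δ θ η η' b h o).2) (sq_nonneg M))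
      (e K₁ (by linarith))),
    (ksum_grad_ma0 h o hκ hout hM fun _ => o).trans (le_trans (mul_le_mul_of_nonneg_left
      (h₂ P N L w ψ δ θ η η' b h o) (sq_nonneg M)) (e K₂ (by linarith)))⟩
  have h0 : ∀ x, 0 ≤ gP j (psit o j θ η b ψ) x := fun x =>
    Finset.sum_nonneg fun c _ => sq_nonneg _
  exact integral_mono_of_nonneg
    (Eventually.of_forall fun x => mul_nonneg (nb_nonneg _ _) (h0 x))
    (cont_integrable ((psit_c1_ma0 h hj).cont_gP j))
    (Eventually.of_forall fun x => mul_le_of_le_one_left (h0 x) (nb_le_one _ _))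

end Pool.Agent.BoseTail
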