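import Pool.Agent.Lib.MP_dec75e_mp.Mb0

/-! The main bound. -/

open MeasureTheory Complex Finset Filter Function
open scoped ComplexConjugate Real Topology

noncomputable section

namespace Pool.Agent.BoseTail

theorem nsq_smul_mb {N : ℕ} {L : ℝ} [Fact (0 < L)] (t : ℝ) (φ : Cf N L → ℂ) :
    nsq (fun x => (t : ℂ) * φ x) = t ^ 2 * nsq φ := by
  unfold nsq
  rw [← integral_const_mul]
  refine integral_congr_ae (Eventually.of_forall fun x => ?_)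
  simp only [norm_mul, mul_pow, Complex.norm_real, Real.norm_eq_abs, sq_abs]

/-- The closing inequality. -/
theorem close_mb {Y χ r Z T M₁ M₂ τ σ ε : ℝ} (hT : 0 ≤ T) (hσ : 0 < σ) (hY0 : 0 ≤ Y)
    (hχ0 : 0 ≤ χ) (hr : |r| ≤ √Y * √χ) (hY : Y ≤ M₁ * T) (hYZ : |Y - Z| ≤ M₁ * τ * T)
    (hχ : χ ≤ M₂ * τ * T) (h1 : σ * M₁ ≤ ε / 2) (h2 : τ * (M₁ + M₂ / σ + M₂) ≤ ε / 2) :
    |Y + 2 * (-1) * r + (-1) ^ 2 * χ - Z| ≤ ε * T := by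
  have ha := Real.sq_sqrt hY0
  have hb := Real.sq_sqrt hχ0
  have h3 : 2 * (√Y * √χ) ≤ σ * Y + χ / σ := by
    have h4 : 0 ≤ (σ * √Y - √χ) ^ 2 / σ := by positivity
    have h5 : (σ * √Y - √χ) ^ 2 / σ = σ * √Y ^ 2 + √χ ^ 2 / σ - 2 * (√Y * √χ) := by
      field_simp
      ring
    rw [h5, ha, hb] at h4
    linarith
  have h6 : σ * Y ≤ ε / 2 * T :=
    (mul_le_mul_of_nonneg_left hY hσ.le).trans
      (by rw [← mul_assoc]; exact mul_le_mul_of_nonneg_right h1 hT)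
  have h7 : χ / σ ≤ M₂ / σ * τ * T := by
    refine (div_le_div_of_nonneg_right hχ hσ.le).trans (le_of_eq ?_)
    field_simp
  have h8 := mul_le_mul_of_nonneg_right h2 hT
  obtain ⟨hr1, hr2⟩ := abs_le.1 hr
  obtain ⟨hz1, hz2⟩ := abs_le.1 hYZ
  rw [abs_le]
  constructor <;> linarith

theorem scales_mb {A δ k : ℝ} (hA : 60 ≤ A) (hδ : 0 < δ) (hAδ : A * δ ≤ k) (hAk : A * k ≤ 1) :
    0 < k ∧ k ≤ 1 ∧ δ ≤ 1 ∧ δ ^ 3 ≤ δ ^ 2 ∧ 3600 ≤ A ^ 3 ∧ A ≤ A ^ 3 ∧ k ^ 2 ≤ k := by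
  have hk0 : 0 < k := lt_of_lt_of_le (by positivity) hAδ
  have hk1 : k ≤ 1 := by nlinarith
  have hδ1 : δ ≤ 1 := by nlinarith
  have hA2 : 3600 ≤ A ^ 2 := by nlinarith
  refine ⟨hk0, hk1, hδ1, ?_, ?_, ?_, ?_⟩
  · nlinarith [sq_nonneg δ]
  · nlinarith
  · nlinarith
  · nlinarith

theorem Win.integral_sq_le_mb {L : ℝ} [Fact (0 < L)] {H δ : ℝ} {κ : T3 L → ℂ} (h : Win H δ κ)
    (hδ : 0 < δ) : ∫ z, ‖κ z‖ ^ 2 ≤ 8 * H ^ 2 * δ ^ 3 := by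
  have hc : Continuous fun z => ‖κ z‖ ^ 2 := h.c2.c1.cont.norm.pow 2
  refine (integral_le_of_out (s := 1 / δ) (M := (H * δ ^ 3) ^ 2) (BM.of_cont hc) (by positivity)
    (fun z => pow_le_pow_left₀ (norm_nonneg _) (h.le z) 2) (by positivity)
    fun z hz => by rw [h.out z hz]; simp).trans (le_of_eq ?_)
  field_simp
  ring

theorem yap_mb {X S I Y g H K ρ δ τ : ℝ} (hK : 1 ≤ K) (hρ : 0 < ρ) (hδ : 0 < δ) (hτ0 : 0 < τ)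
    (hτ1 : τ ≤ 1) (hρδ : ρ ≤ τ * δ ^ 3) (hI0 : 0 ≤ I) (hI : I ≤ 8 * H ^ 2 * δ ^ 3)
    (hS : |S - ρ| ≤ τ * ρ) (hX : |X - I * S| ≤ K * (H * δ ^ 3) ^ 2 * ρ ^ 2 / δ ^ 6)
    (hY : Y = g ^ 2 * X) :
    Y ≤ g ^ 2 * H ^ 2 * (K + 16) * (ρ * δ ^ 3) ∧
      |Y - g ^ 2 * ρ * I| ≤ g ^ 2 * H ^ 2 * (K + 16) * τ * (ρ * δ ^ 3) := by
  have hXI : |X - ρ * I| ≤ H ^ 2 * (K + 8) * τ * (ρ * δ ^ 3) := by
    have h1 : K * (H * δ ^ 3) ^ 2 * ρ ^ 2 / δ ^ 6 = K * H ^ 2 * ρ * ρ := by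
      field_simp
    have h2 : K * H ^ 2 * ρ * ρ ≤ K * H ^ 2 * ρ * (τ * δ ^ 3) :=
      mul_le_mul_of_nonneg_left hρδ (by positivity)
    have h3 : |I * S - ρ * I| ≤ 8 * H ^ 2 * δ ^ 3 * (τ * ρ) := by
      rw [show I * S - ρ * I = I * (S - ρ) by ring, abs_mul, abs_of_nonneg hI0]
      exact mul_le_mul hI hS (abs_nonneg _) (by positivity)
    rw [h1] at hX
    calc |X - ρ * I| ≤ |X - I * S| + |I * S - ρ * I| := abs_sub_le _ _ _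
      _ ≤ K * H ^ 2 * ρ * (τ * δ ^ 3) + 8 * H ^ 2 * δ ^ 3 * (τ * ρ) := by linarith
      _ = _ := by ring
  have hYZ : |Y - g ^ 2 * ρ * I| ≤ g ^ 2 * (H ^ 2 * (K + 8) * τ * (ρ * δ ^ 3)) := by
    rw [hY, show g ^ 2 * X - g ^ 2 * ρ * I = g ^ 2 * (X - ρ * I) by ring, abs_mul,
      abs_of_nonneg (sq_nonneg g)]
    exact mul_le_mul_of_nonneg_left hXI (sq_nonneg g)
  constructor
  · have h1 := (abs_le.1 hYZ).2
    have h2 : g ^ 2 * ρ * I ≤ g ^ 2 * ρ * (8 * H ^ 2 * δ ^ 3) :=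
      mul_le_mul_of_nonneg_left hI (by positivity)
    have h3 : g ^ 2 * H ^ 2 * (ρ * δ ^ 3) * (K + 8) * τ ≤
        g ^ 2 * H ^ 2 * (ρ * δ ^ 3) * (K + 8) :=
      mul_le_of_le_one_right (by positivity) hτ1
    linarith
  · have h1 : 0 ≤ g ^ 2 * H ^ 2 * (ρ * δ ^ 3) * τ := by positivity
    linarith

/-- The main bound. -/
theorem main_bound (P : Par) {H ε : ℝ} (hH : 1 ≤ H) (hε : 0 < ε) : ∃ A : ℝ, 1 ≤ A ∧
    ∀ (N : ℕ) (L : ℝ) [Fact (0 < L)] (w : T3 L → ℝ) (ψ : Cf N L → ℂ), Setup P w ψ →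
      ∀ (δ k : ℝ) (k₀ : Fin 3 → ℝ) (κ : T3 L → ℂ), 0 < δ → A ^ 3 * rho N L ≤ δ ^ 3 → A * δ ≤ k →
        A * k ≤ 1 → Ker H δ k k₀ κ → ∀ o : Fin N,
        |nsq (cvl o (lapT κ) ψ) - (4 * π * P.a) ^ 2 * rho N L * ∫ z, ‖κ z‖ ^ 2| ≤
          ε * (rho N L * δ ^ 3) := by
  obtain ⟨B, -, hB⟩ := exists_bump
  obtain ⟨C, ρ₀, -, hρ₀, -, hC⟩ := apriori P
  obtain ⟨K₁, hK₁, hks⟩ := ksum_norm C B
  obtain ⟨K₂, hK₂, hcs⟩ := chi_small P C B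
  have ha := P.ha
  have hR0 := P.hR0
  obtain ⟨g, hg⟩ : ∃ g : ℝ, g = 4 * π * P.a := ⟨_, rfl⟩
  have hg0 : 0 < g := by rw [hg]; positivity
  obtain ⟨M₁, hM₁⟩ : ∃ M₁ : ℝ, M₁ = g ^ 2 * H ^ 2 * (K₁ + 16) := ⟨_, rfl⟩
  obtain ⟨M₂, hM₂⟩ : ∃ M₂ : ℝ, M₂ = 4 * K₂ * H ^ 2 := ⟨_, rfl⟩
  have hM₁0 : 0 < M₁ := by rw [hM₁]; positivity
  have hM₂0 : 0 < M₂ := by rw [hM₂]; positivity
  obtain ⟨σ, hσ⟩ : ∃ σ : ℝ, σ = ε / (2 * M₁) := ⟨_, rfl⟩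
  have hσ0 : 0 < σ := by rw [hσ]; positivity
  obtain ⟨τ, hτ⟩ : ∃ τ : ℝ, τ = min 1 (ε / (2 * (M₁ + M₂ / σ + M₂))) := ⟨_, rfl⟩
  have hτ0 : 0 < τ := by rw [hτ]; positivity
  have hτ1 : τ ≤ 1 := by rw [hτ]; exact min_le_left _ _
  have hσM : σ * M₁ ≤ ε / 2 := by
    rw [hσ]
    refine le_of_eq ?_
    field_simp
  have hτM : τ * (M₁ + M₂ / σ + M₂) ≤ ε / 2 := by
    have h1 : τ ≤ ε / (2 * (M₁ + M₂ / σ + M₂)) := by rw [hτ]; exact min_le_right _ _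
    rw [le_div_iff₀ (by positivity)] at h1
    linarith
  obtain ⟨A₁, hA₁, hamp⟩ := amplitude P hτ0
  have hi1 : 0 < 1 / τ := by positivity
  have hi2 : 0 < 1 / ρ₀ := by positivity
  refine ⟨1 / τ + 60 + A₁ + P.R0 + 1 / ρ₀, by linarith, ?_⟩
  intro N L _ w ψ hst δ k k₀ κ hδ hAρ hAδ hAk hκ o
  obtain ⟨A, hA⟩ : ∃ A : ℝ, A = 1 / τ + 60 + A₁ + P.R0 + 1 / ρ₀ := ⟨_, rfl⟩
  rw [← hA] at hAρ hAδ hAk
  rw [← hg]
  have hρ := hst.basic.1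
  obtain ⟨ρ, hρe⟩ : ∃ ρ : ℝ, ρ = rho N L := ⟨_, rfl⟩
  have hA60 : 60 ≤ A := by linarith
  have hA0 : 0 < A := by linarith
  obtain ⟨hk0, hk1, hδ1, hδ3, hA3, hA13, hk2⟩ := scales_mb hA60 hδ hAδ hAk
  have hAδ1 : A * δ ≤ 1 := hAδ.trans hk1
  have hδ31 : δ ^ 3 ≤ 1 := pow_le_one₀ hδ.le hδ1
  have hAτ : 1 ≤ τ * A := by
    have h1 : 1 / τ ≤ A := by linarith
    rw [div_le_iff₀ hτ0] at h1
    linarith
  have hAρ₀ : 1 ≤ ρ₀ * A := by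
    have h1 : 1 / ρ₀ ≤ A := by linarith
    rw [div_le_iff₀ hρ₀] at h1
    linarith
  have hAρ1 : A * rho N L ≤ δ ^ 3 := (mul_le_mul_of_nonneg_right hA13 hρ.le).trans hAρ
  have hρδ : rho N L ≤ τ * δ ^ 3 := by
    calc rho N L ≤ τ * A * rho N L := le_mul_of_one_le_left hρ.le hAτ
      _ = τ * (A * rho N L) := by ring
      _ ≤ τ * δ ^ 3 := mul_le_mul_of_nonneg_left hAρ1 hτ0.le
  have hap : AP C ψ := by
    refine hC N L w ψ hst ?_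
    calc rho N L ≤ ρ₀ * A * rho N L := le_mul_of_one_le_left hρ.le hAρ₀
      _ = ρ₀ * (A * rho N L) := by ring
      _ ≤ ρ₀ * 1 := mul_le_mul_of_nonneg_left (hAρ1.trans hδ31) hρ₀.le
      _ = ρ₀ := mul_one _
  obtain ⟨θ, hθ⟩ := (hB L (2 / δ) (by positivity)).1
  obtain ⟨η, hη⟩ := (hB L (8 / δ) (by positivity)).2
  obtain ⟨η', hη'⟩ := (hB L (2 / δ) (by positivity)).2
  obtain ⟨b, hb⟩ := (hB L (1 / δ) (by positivity)).1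
  have hMS : MS P C B w ψ δ θ η η' b := by
    refine ⟨hst, hap, ⟨hθ, hη, hη', hb⟩, hδ, ?_, ?_, ?_⟩
    · exact (mul_le_mul_of_nonneg_right (by linarith) hδ.le).trans hAδ1
    · exact (le_mul_of_one_le_left hρ.le (by linarith)).trans hAρ1
    · rw [div_pow, div_mul_eq_mul_div, div_le_one (by positivity)]
      exact (mul_le_mul_of_nonneg_right (by linarith) hρ.le).trans (hAρ.trans hδ3)
  obtain ⟨hS, hSd⟩ := hamp N L w ψ hst δ hδ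
    ((mul_le_mul_of_nonneg_right (by linarith) hδ.le).trans hAδ1)
    ((mul_le_mul_of_nonneg_right (pow_le_pow_left₀ (by linarith) (by linarith) 3) hρ.le).trans hAρ)
    B b hb o
  have hκc : Continuous κ := hκ.win.c2.c1.cont
  have hX := hks P N L w ψ δ θ η η' b hMS o κ (H * δ ^ 3) hκc hκ.win.out hκ.win.le
  have hI0 : 0 ≤ ∫ z, ‖κ z‖ ^ 2 := integral_nonneg fun z => by positivity
  have hI := hκ.win.integral_sq_le_mb hδ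
  have hS2 : S2 o (fun j => amp o j (Ub b) ψ) ≤ 2 * rho N L := by
    have h1 := (abs_le.1 hS).2
    have h2 : τ * rho N L ≤ rho N L := mul_le_of_le_one_left hρ.le hτ1
    linarith
  have hχ := hcs N L w ψ δ θ η η' b hMS o H k k₀ κ hH
    ((mul_le_mul_of_nonneg_right (by linarith) hδ.le).trans hAδ) hκ hS2
  have hYc := (Yap_c1 hMS o hκ.win.c2.c1).1
  have hχc := (chi_c1 hMS o hκ.win.c2).1
  have hβ : cvl o (lapT κ) ψ =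
      fun x => Yap P o κ θ η b ψ x + ((-1 : ℝ) : ℂ) * chi P o κ θ η b ψ x := by
    funext x
    simp only [chi, ofReal_neg, ofReal_one]
    ring
  have hY : nsq (Yap P o κ θ η b ψ) = g ^ 2 * nsq (ksum o κ fun j => psit o j θ η b ψ) := by
    rw [hg]
    exact nsq_smul_mb _ _
  have hSd' : Sdef P w o b ψ ≤ τ * rho N L := hSd
  rw [hβ, nsq_add_smul hYc hχc]
  obtain ⟨hY1, hY2⟩ := yap_mb hK₁ hρ hδ hτ0 hτ1 hρδ hI0 hI hS hX hY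
  rw [← hM₁] at hY1 hY2
  rw [← hρe] at hρ hρδ hSd' hχ hY1 hY2 ⊢
  have hT : 0 < ρ * δ ^ 3 := by positivity
  refine close_mb (M₁ := M₁) (M₂ := M₂) (τ := τ) hT.le hσ0 (nsq_nonneg _) (nsq_nonneg _)
    (abs_rip_le hYc hχc) hY1 hY2 (hχ.trans ?_) hσM hτM
  · have h1 : δ / k ≤ τ := by
      rw [div_le_iff₀ hk0]
      calc δ ≤ τ * A * δ := le_mul_of_one_le_left hδ.le hAτ
        _ = τ * (A * δ) := by ring
        _ ≤ τ * k := mul_le_mul_of_nonneg_left hAδ hτ0.le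
    have h2 : k ^ 2 ≤ τ := by
      calc k ^ 2 ≤ k := hk2
        _ ≤ τ * A * k := le_mul_of_one_le_left hk0.le hAτ
        _ = τ * (A * k) := by ring
        _ ≤ τ * 1 := mul_le_mul_of_nonneg_left hAk hτ0.le
        _ = τ := mul_one _
    have h3 : ρ / δ ^ 3 ≤ τ := by
      rw [div_le_iff₀ (by positivity)]
      exact hρδ
    have h4 : ρ * δ ^ 3 * (δ / k + k ^ 2 + ρ / δ ^ 3) ≤ ρ * δ ^ 3 * (3 * τ) :=
      mul_le_mul_of_nonneg_left (by linarith) hT.le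
    have h5 : δ ^ 3 * Sdef P w o b ψ ≤ δ ^ 3 * (τ * ρ) :=
      mul_le_mul_of_nonneg_left hSd' (by positivity)
    calc K₂ * H ^ 2 * (ρ * δ ^ 3 * (δ / k + k ^ 2 + ρ / δ ^ 3) + δ ^ 3 * Sdef P w o b ψ)
        ≤ K₂ * H ^ 2 * (ρ * δ ^ 3 * (3 * τ) + δ ^ 3 * (τ * ρ)) :=
          mul_le_mul_of_nonneg_left (add_le_add h4 h5) (by positivity)
      _ = M₂ * τ * (ρ * δ ^ 3) := by rw [hM₂]; ring

end Pool.Agent.BoseTail
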