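import Pool.Agent.Lib.MP_dec75e_mp.Exc

/-! Telescoping the amplitude from the scattering scale to the scale of the window. -/

open MeasureTheory Complex Finset Filter Function
open scoped ComplexConjugate Real Topology

noncomputable section

namespace Pool.Agent.BoseTail

section
variable {N : ℕ} {L : ℝ} [Fact (0 < L)] {ψ : Cf N L → ℂ}

/-- One step. -/
theorem S2_amp_sub (hψ : IsC1 ψ) (o : Fin N) {Λ s : ℝ} (hs : 0 < s) {U U' : T3 L → ℝ}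
    (hU : Wt Λ s U) (hU' : Wt Λ s U') :
    S2 o (fun j x => amp o j U ψ x - amp o j U' ψ x) ≤ 2 ^ 24 * Λ ^ 4 / s * K2 ψ o (3 * s) := by
  have hL : 0 < L := Lpos
  have hL3 : 0 < L ^ 3 := by positivity
  unfold S2 K2
  rw [Finset.mul_sum, Finset.mul_sum]
  refine Finset.sum_le_sum fun j hj => ?_
  have hjo : j ≠ o := (Finset.mem_erase.mp hj).1
  have hG : Continuous (gP o ψ) := hψ.cont_gP o
  have hcv := cv' (𝕜 := ℝ) (BM_nb (L := L) (3 * s)) (BM.of_cont hG) hjo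
  have hbm : BM (uncurry fun (x : Cf N L) (z : T3 L) =>
      nb (3 * s) z * gP o ψ (update x o (x j + z))) :=
    ((BM_nb (L := L) (3 * s)).comp measurable_snd).mul
      (BM.of_cont (hG.comp (continuous_sl o j)))
  have h1 : ∫ x, ‖amp o j U ψ x - amp o j U' ψ x‖ ^ 2 ≤
      ∫ x : Cf N L, 2 ^ 24 * Λ ^ 4 / s *
        ∫ z, nb (3 * s) z * gP o ψ (update x o (x j + z)) := by
    refine integral_mono ?_ ((BM.integral_right hbm).integrable.const_mul _) fun x => ?_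
    · exact cont_integrable
        (((continuous_amp hU.bm hψ.1 o j).sub (continuous_amp hU'.bm hψ.1 o j)).norm.pow 2)
    · have := poin_l1' (hψ.cslice x o j) hs hU hU'
      simp only [gT_cslice] at this
      exact this
  rw [integral_const_mul, hcv] at h1
  rw [inv_mul_le_iff₀ hL3]
  refine h1.trans (le_of_eq ?_)
  simp only [RCLike.ofReal_real_eq_id, id]
  ring

theorem sqrt_S2_add_le (o : Fin N) {A B : Fin N → Cf N L → ℂ} (hA : ∀ j, Continuous (A j))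
    (hB : ∀ j, Continuous (B j)) :
    √(S2 o (fun j x => A j x + B j x)) ≤ √(S2 o A) + √(S2 o B) := by
  have hL : 0 < L := Lpos
  have hL3 : 0 ≤ (L ^ 3)⁻¹ := by positivity
  unfold S2
  rw [Real.sqrt_mul hL3, Real.sqrt_mul hL3, Real.sqrt_mul hL3, ← mul_add]
  exact mul_le_mul_of_nonneg_left
    (mink_sum (univ.erase o) (fun j _ => BM.of_cont (hA j)) (fun j _ => BM.of_cont (hB j)))
    (Real.sqrt_nonneg _)

theorem S2_nonneg_tel (o : Fin N) (A : Fin N → Cf N L → ℂ) : 0 ≤ S2 o A := by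
  have hL : 0 < L := Lpos
  unfold S2
  exact mul_nonneg (by positivity)
    (Finset.sum_nonneg fun j _ => integral_nonneg fun x => by positivity)

theorem S2_sub_rev_tel (o : Fin N) (A B : Fin N → Cf N L → ℂ) :
    S2 o (fun j x => A j x - B j x) = S2 o (fun j x => B j x - A j x) := by
  unfold S2
  simp only [norm_sub_rev (A _ _)]

theorem S2_smul_tel (o : Fin N) (c : ℝ) (A : Fin N → Cf N L → ℂ) :
    S2 o (fun j x => (c : ℂ) * A j x) = c ^ 2 * S2 o A := by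
  unfold S2
  simp only [norm_mul, mul_pow, integral_const_mul, Complex.norm_real, Real.norm_eq_abs, sq_abs]
  rw [← Finset.mul_sum]
  ring

theorem tri_tel (hψ : IsC1 ψ) (o : Fin N) {U V W : T3 L → ℝ} (hU : BM U) (hV : BM V)
    (hW : BM W) :
    √(S2 o (fun j x => amp o j U ψ x - amp o j W ψ x)) ≤
      √(S2 o (fun j x => amp o j U ψ x - amp o j V ψ x)) +
        √(S2 o (fun j x => amp o j V ψ x - amp o j W ψ x)) := by
  have := sqrt_S2_add_le o (A := fun j x => amp o j U ψ x - amp o j V ψ x)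
    (B := fun j x => amp o j V ψ x - amp o j W ψ x)
    (fun j => (continuous_amp hU hψ.1 o j).sub (continuous_amp hV hψ.1 o j))
    (fun j => (continuous_amp hV hψ.1 o j).sub (continuous_amp hW hψ.1 o j))
  simpa only [sub_add_sub_cancel] using this

theorem step_tel {C : ℝ} (hψ : IsC1 ψ) (hA : AP C ψ) (hC : 1 ≤ C) (hρ : 0 < rho N L) (o : Fin N)
    {Λ s : ℝ} (hs : 0 < s) (ht : (36 * s) ^ 2 * rho N L ≤ 1)
    {U U' : T3 L → ℝ} (hU : Wt Λ s U) (hU' : Wt Λ s U') :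
    √(S2 o (fun j x => amp o j U ψ x - amp o j U' ψ x)) ≤
      2 ^ 12 * Λ ^ 2 * √C * √(rho N L) * ((√s)⁻¹ + 9 * √(rho N L * s ^ 3)) := by
  have h1 := S2_amp_sub hψ o hs hU hU'
  have h2 := hA.k2 o (3 * s) (by positivity) (by
    rw [show (12 * (3 * s)) = 36 * s by ring]; exact ht)
  have hC0 : 0 ≤ C := by linarith
  set ρ := rho N L with hρd
  have hu : 0 ≤ (√s)⁻¹ := by positivity
  have hv : 0 ≤ √(ρ * s ^ 3) := Real.sqrt_nonneg _
  refine Real.sqrt_le_iff.mpr ⟨by positivity, ?_⟩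
  have e1 : ((√s)⁻¹) ^ 2 = s⁻¹ := by rw [inv_pow, Real.sq_sqrt hs.le]
  have e2 : (√(ρ * s ^ 3)) ^ 2 = ρ * s ^ 3 := Real.sq_sqrt (by positivity)
  have h3 : s⁻¹ + 81 * (ρ * s ^ 3) ≤ ((√s)⁻¹ + 9 * √(ρ * s ^ 3)) ^ 2 := by
    nlinarith [mul_nonneg hu hv]
  calc _ ≤ 2 ^ 24 * Λ ^ 4 / s * K2 ψ o (3 * s) := h1
    _ ≤ 2 ^ 24 * Λ ^ 4 / s * (C * (ρ + ρ ^ 2 * (3 * s) ^ 4)) :=
        mul_le_mul_of_nonneg_left h2 (by positivity)
    _ = 2 ^ 24 * Λ ^ 4 * C * ρ * (s⁻¹ + 81 * (ρ * s ^ 3)) := by field_simp; ring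
    _ ≤ 2 ^ 24 * Λ ^ 4 * C * ρ * ((√s)⁻¹ + 9 * √(ρ * s ^ 3)) ^ 2 :=
        mul_le_mul_of_nonneg_left h3 (by positivity)
    _ = _ := by
        rw [mul_pow, mul_pow, mul_pow, mul_pow, Real.sq_sqrt hC0, Real.sq_sqrt hρ.le]; ring

theorem chain_tel {C : ℝ} (hψ : IsC1 ψ) (hA : AP C ψ) (hC : 1 ≤ C) (hρ : 0 < rho N L) (o : Fin N)
    {Λ t : ℝ} (hΛ : 1 ≤ Λ) (ht : (36 * t) ^ 2 * rho N L ≤ 1)
    (hL : 2 * t ≤ L) {U' : T3 L → ℝ} (hU' : Wt Λ t U') (n : ℕ) :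
    ∀ (s : ℝ) (U : T3 L → ℝ), 0 < s → s ≤ t → t ≤ 2 ^ n * s → Wt Λ s U →
      √(S2 o (fun j x => amp o j U ψ x - amp o j U' ψ x)) ≤
        2 ^ 12 * Λ ^ 2 * √C * √(rho N L) *
          (4 * (√s)⁻¹ + 23 * √(rho N L * t ^ 3) - 5 * √(rho N L * s ^ 3)) := by
  set ρ := rho N L with hρd
  have hM : 0 ≤ 2 ^ 12 * Λ ^ 2 * √C * √ρ := by positivity
  have hsm : ∀ s : ℝ, 0 < s → s ≤ t → (36 * s) ^ 2 * ρ ≤ 1 := fun s hs hst =>
    le_trans (by gcongr) ht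
  have base : ∀ (s : ℝ) (U : T3 L → ℝ), 0 < s → s ≤ t → t ≤ 2 * s → Wt Λ s U →
      √(S2 o (fun j x => amp o j U ψ x - amp o j U' ψ x)) ≤
        2 ^ 12 * Λ ^ 2 * √C * √ρ *
          (4 * (√s)⁻¹ + 23 * √(ρ * t ^ 3) - 5 * √(ρ * s ^ 3)) := by
    intro s U hs hst hts hU
    have ht0 : 0 < t := hs.trans_le hst
    have hb1 := (wt_ball (L := L) hs (by linarith) le_rfl (by linarith)).mono hs hΛ
    have hb2 := (wt_ball (L := L) hs (by linarith) hst hts).mono ht0 hΛ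
    have h1 := step_tel hψ hA hC hρ o hs (hsm s hs hst) hU hb1
    have h2 := step_tel hψ hA hC hρ o ht0 ht hb2 hU'
    refine (tri_tel hψ o hU.bm hb1.bm hU'.bm).trans ((add_le_add h1 h2).trans ?_)
    rw [← mul_add]
    refine mul_le_mul_of_nonneg_left ?_ hM
    have a1 : (√t)⁻¹ ≤ (√s)⁻¹ := inv_anti₀ (Real.sqrt_pos.mpr hs) (Real.sqrt_le_sqrt hst)
    have a2 : √(ρ * s ^ 3) ≤ √(ρ * t ^ 3) := Real.sqrt_le_sqrt (by gcongr)
    have a3 : 0 ≤ (√s)⁻¹ := by positivity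
    linarith
  induction n with
  | zero =>
    intro s U hs hst hts hU
    exact base s U hs hst (by rw [pow_zero] at hts; linarith) hU
  | succ n ih =>
    intro s U hs hst hts hU
    by_cases h2 : t ≤ 2 * s
    · exact base s U hs hst h2 hU
    rw [not_le] at h2
    have hb1 := (wt_ball (L := L) hs (by linarith) le_rfl (by linarith)).mono hs hΛ
    have hb2 := (wt_ball (L := L) hs (by linarith) (by linarith : s ≤ 2 * s) le_rfl).mono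
      (by positivity) hΛ
    have h1 := step_tel hψ hA hC hρ o hs (hsm s hs hst) hU hb1
    have h3 := ih (2 * s) _ (by positivity) h2.le (by rw [pow_succ] at hts; linarith) hb2
    refine (tri_tel hψ o hU.bm hb1.bm hU'.bm).trans ((add_le_add h1 h3).trans ?_)
    rw [← mul_add]
    refine mul_le_mul_of_nonneg_left ?_ hM
    have hs' : 0 < √s := Real.sqrt_pos.mpr hs
    have a1 : (√(2 * s))⁻¹ ≤ 3 / 4 * (√s)⁻¹ := by
      have : 4 / 3 * √s ≤ √(2 * s) := by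
        refine Real.le_sqrt_of_sq_le ?_
        rw [mul_pow, Real.sq_sqrt hs.le]; linarith
      calc (√(2 * s))⁻¹ ≤ (4 / 3 * √s)⁻¹ := inv_anti₀ (by positivity) this
        _ = 3 / 4 * (√s)⁻¹ := by field_simp
    have a2 : 14 / 5 * √(ρ * s ^ 3) ≤ √(ρ * (2 * s) ^ 3) := by
      refine Real.le_sqrt_of_sq_le ?_
      have : 0 ≤ ρ * s ^ 3 := by positivity
      rw [mul_pow, Real.sq_sqrt this]; nlinarith
    linarith

/-- All dyadic steps. -/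
theorem telescope {C : ℝ} (hψ : IsC1 ψ) (hA : AP C ψ) (hC : 1 ≤ C) (hρ : 0 < rho N L) (o : Fin N)
    {Λ s t : ℝ} (hΛ : 1 ≤ Λ) (hs : 0 < s) (hst : s ≤ t) (ht : (36 * t) ^ 2 * rho N L ≤ 1)
    (hL : 2 * t ≤ L) {U U' : T3 L → ℝ} (hU : Wt Λ s U) (hU' : Wt Λ t U') :
    √(S2 o (fun j x => amp o j U ψ x - amp o j U' ψ x)) ≤
      2 ^ 19 * Λ ^ 2 * √C * √(rho N L) * ((√s)⁻¹ + √(rho N L * t ^ 3)) := by
  obtain ⟨n, hn⟩ := pow_unbounded_of_one_lt (t / s) (by norm_num : (1 : ℝ) < 2)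
  rw [div_lt_iff₀ hs] at hn
  refine (chain_tel hψ hA hC hρ o hΛ ht hL hU' n s U hs hst hn.le hU).trans ?_
  have a1 : 0 ≤ (√s)⁻¹ := by positivity
  have a2 : 0 ≤ √(rho N L * t ^ 3) := Real.sqrt_nonneg _
  have a3 : 0 ≤ √(rho N L * s ^ 3) := Real.sqrt_nonneg _
  have hM : 0 ≤ 2 ^ 12 * Λ ^ 2 * √C * √(rho N L) := by positivity
  calc _ ≤ 2 ^ 12 * Λ ^ 2 * √C * √(rho N L) * (128 * ((√s)⁻¹ + √(rho N L * t ^ 3))) :=
        mul_le_mul_of_nonneg_left (by linarith) hM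
    _ = _ := by ring

end

theorem le_of_sq_le_sq_tel {Y r : ℝ} (hr : 0 < r) (h : Y ^ 2 ≤ (2 * r) ^ 2) : Y ≤ 2 * r :=
  (abs_le_of_sq_le_sq' h (by positivity)).2

theorem arX_tel {X Y E r θ e η ρ : ℝ} (hX0 : 0 ≤ X) (hY0 : 0 ≤ Y) (hr0 : 0 < r) (hr2 : r ^ 2 = ρ)
    (he0 : 0 < e) (he1 : e ≤ 1) (heη : e ≤ η) (hθ0 : 0 < θ) (hθe : θ ≤ e / 10)
    (hx1 : |Y ^ 2 - ρ| ≤ e / 4 * ρ) (hE : E ≤ θ * r) (t1 : Y ≤ X + E) (t2 : X ≤ Y + E) :
    |X ^ 2 - ρ| ≤ η * ρ := by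
  have hρ : 0 < ρ := by rw [← hr2]; positivity
  obtain ⟨hy1, hy2⟩ := abs_le.mp hx1
  have p6 : e * ρ ≤ 1 * ρ := mul_le_mul_of_nonneg_right he1 hρ.le
  have hY : Y ≤ 2 * r := by
    refine le_of_sq_le_sq_tel hr0 ?_
    rw [mul_pow, hr2]; linarith
  have hθr : θ * r ≤ 1 * r := mul_le_mul_of_nonneg_right (by linarith) hr0.le
  have hXY1 : X - Y ≤ θ * r := by linarith
  have hXY2 : Y - X ≤ θ * r := by linarith
  have hsum : X + Y ≤ 5 * r := by linarith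
  have hθr0 : 0 ≤ θ * r := by positivity
  have p1 : (X - Y) * (X + Y) ≤ θ * r * (5 * r) :=
    le_trans (mul_le_mul_of_nonneg_right hXY1 (by positivity))
      (mul_le_mul_of_nonneg_left hsum hθr0)
  have p2 : (Y - X) * (X + Y) ≤ θ * r * (5 * r) :=
    le_trans (mul_le_mul_of_nonneg_right hXY2 (by positivity))
      (mul_le_mul_of_nonneg_left hsum hθr0)
  have p3 : θ * r * (5 * r) ≤ e / 2 * ρ := by
    calc θ * r * (5 * r) = 5 * θ * r ^ 2 := by ring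
      _ = 5 * θ * ρ := by rw [hr2]
      _ ≤ e / 2 * ρ := mul_le_mul_of_nonneg_right (by linarith) hρ.le
  have p4 : e * ρ ≤ η * ρ := mul_le_mul_of_nonneg_right heη hρ.le
  have p5 : 0 ≤ e * ρ := by positivity
  have e1 : (X - Y) * (X + Y) = X ^ 2 - Y ^ 2 := by ring
  have e2 : (Y - X) * (X + Y) = Y ^ 2 - X ^ 2 := by ring
  rw [abs_le]
  constructor <;> linarith

theorem arZ_tel {Z W E r θ c e η ρ : ℝ} (hZ0 : 0 ≤ Z) (hr0 : 0 < r) (hr2 : r ^ 2 = ρ)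
    (he0 : 0 < e) (he1 : e ≤ 1) (heη : e ≤ η) (hc0 : 0 < c) (hcθ : c * θ ≤ e / 10)
    (hx2 : W ^ 2 ≤ e / 4 * ρ) (hE : E ≤ θ * r) (t1 : Z ≤ W + c * E) :
    Z ^ 2 ≤ η * ρ := by
  have hρ : 0 < ρ := by rw [← hr2]; positivity
  have q1 : Z ≤ W + e / 10 * r := by
    have := mul_le_mul_of_nonneg_left hE hc0.le
    have h2 : c * (θ * r) ≤ e / 10 * r := by
      rw [← mul_assoc]; exact mul_le_mul_of_nonneg_right hcθ hr0.le
    linarith
  have q2 : Z ^ 2 ≤ (W + e / 10 * r) ^ 2 := by gcongr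
  have q3 : (e / 10 * r) ^ 2 ≤ e / 100 * ρ := by
    rw [mul_pow, hr2]
    exact mul_le_mul_of_nonneg_right (by nlinarith) hρ.le
  have p4 : e * ρ ≤ η * ρ := mul_le_mul_of_nonneg_right heη hρ.le
  have p5 : 0 ≤ e * ρ := by positivity
  nlinarith [sq_nonneg (W - e / 10 * r)]

theorem arP_tel {A q t ρ δ : ℝ} (hA11 : 11 ≤ A) (hq0 : 0 < q) (hq : 27 * q ^ 2 ≤ A) (hρ : 0 < ρ)
    (hδ : 0 < δ) (hAδ : A * δ ≤ 1) (hρδ : A ^ 3 * ρ ≤ δ ^ 3) (htd : t = 3 * (1 / δ)) :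
    3 * A ≤ t ∧ ρ * A ≤ 1 ∧ (36 * t) ^ 2 * ρ ≤ 1 ∧ √(ρ * t ^ 3) ≤ q⁻¹ := by
  have hA0 : 0 < A := by linarith
  have ht0 : 0 < t := by rw [htd]; positivity
  have hAt : 3 * A ≤ t := by
    rw [htd, mul_one_div, le_div_iff₀ hδ]; linarith
  have hρt : ρ * t ^ 3 * A ^ 3 ≤ 27 := by
    have e1 : ρ * t ^ 3 * A ^ 3 = 27 * (A ^ 3 * ρ) / δ ^ 3 := by rw [htd]; field_simp; ring
    rw [e1, div_le_iff₀ (by positivity)]; linarith
  have hA3 : A ≤ A ^ 3 := by nlinarith [sq_nonneg A, mul_pos hA0 hA0]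
  have hρtA : ρ * t ^ 3 * A ≤ 27 :=
    le_trans (mul_le_mul_of_nonneg_left hA3 (by positivity)) hρt
  refine ⟨hAt, ?_, ?_, ?_⟩
  · have h1 : (27 : ℝ) ≤ t ^ 3 := by
      calc (27 : ℝ) = 3 ^ 3 := by norm_num
        _ ≤ t ^ 3 := by gcongr; linarith
    have h2 : 0 < ρ * A := by positivity
    nlinarith
  · have h1 : (11 : ℝ) ^ 3 ≤ A ^ 3 := by gcongr
    have h2 : 33 ≤ t := by linarith
    have h3 : 0 ≤ ρ * t ^ 2 := by positivity
    have h4 : ρ * t ^ 2 * (33 * 11 ^ 3) ≤ ρ * t ^ 3 * A ^ 3 := by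
      calc ρ * t ^ 2 * (33 * 11 ^ 3) ≤ ρ * t ^ 2 * (t * A ^ 3) := by gcongr
        _ = _ := by ring
    nlinarith
  · refine Real.sqrt_le_iff.mpr ⟨by positivity, ?_⟩
    rw [inv_pow, ← one_div, le_div_iff₀ (by positivity)]
    have h2 : 0 ≤ ρ * t ^ 3 := by positivity
    nlinarith [mul_le_mul_of_nonneg_left hq h2]

theorem arT_tel {e c θ : ℝ} (he0 : 0 < e) (hc0 : 0 < c) (hθ : θ = e / (10 * (1 + c))) :
    0 < θ ∧ θ ≤ e / 10 ∧ c * θ ≤ e / 10 := by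
  refine ⟨by rw [hθ]; positivity, ?_, ?_⟩
  · rw [hθ]
    exact div_le_div_of_nonneg_left he0.le (by norm_num) (by linarith)
  · rw [hθ, ← mul_div_assoc, div_le_div_iff₀ (by positivity) (by norm_num)]
    nlinarith

/-- The amplitude at the scale `1/δ` of the window. -/
theorem amplitude (P : Par) {η : ℝ} (hη : 0 < η) : ∃ A : ℝ, 1 ≤ A ∧ ∀ (N : ℕ) (L : ℝ)
    [Fact (0 < L)] (w : T3 L → ℝ) (ψ : Cf N L → ℂ), Setup P w ψ → ∀ δ, 0 < δ → A * δ ≤ 1 →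
      A ^ 3 * rho N L ≤ δ ^ 3 → ∀ (B : ℝ) (b : T3 L → ℝ), Bump B (1 / δ) b → ∀ o,
        |S2 o (fun j => amp o j (Ub b) ψ) - rho N L| ≤ η * rho N L ∧
        S2 o (fun j x => amp o j w ψ x - (4 * π * P.a : ℝ) * amp o j (Ub b) ψ x) ≤
          η * rho N L := by
  obtain ⟨C, ρ₁, hC, hρ₁, -, hAP⟩ := apriori P
  obtain ⟨e, he⟩ : ∃ e : ℝ, e = min η 1 := ⟨_, rfl⟩
  have he0 : 0 < e := he ▸ lt_min hη one_pos
  have he1 : e ≤ 1 := he ▸ min_le_right _ _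
  have heη : e ≤ η := he ▸ min_le_left _ _
  obtain ⟨R₁, hR₁, hex⟩ := excess P (η := e / 4) (by positivity)
  have ha := P.ha
  have hΛ := P.hΛ
  have hR0 := P.hR0
  obtain ⟨c, hc⟩ : ∃ c : ℝ, c = 4 * π * P.a := ⟨_, rfl⟩
  have hc0 : 0 < c := by rw [hc]; have := Real.pi_pos; positivity
  rw [← hc] at hex ⊢
  obtain ⟨θ, hθ⟩ : ∃ θ : ℝ, θ = e / (10 * (1 + c)) := ⟨_, rfl⟩
  obtain ⟨hθ0, hθe, hcθ⟩ := arT_tel he0 hc0 hθ
  obtain ⟨K, hK⟩ : ∃ K : ℝ, K = 2 ^ 19 * (8 * P.Λ) ^ 2 * √C := ⟨_, rfl⟩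
  have hK0 : 0 < K := by
    have : 0 < √C := Real.sqrt_pos.mpr (by linarith)
    rw [hK]; positivity
  obtain ⟨q, hq⟩ : ∃ q : ℝ, q = 2 * K / θ := ⟨_, rfl⟩
  have hq0 : 0 < q := by rw [hq]; positivity
  obtain ⟨R, hR⟩ : ∃ R : ℝ, R = R₁ + q ^ 2 := ⟨_, rfl⟩
  have hq2 : 0 < q ^ 2 := by positivity
  have hRR : R₁ ≤ R := by linarith
  have hRq : q ^ 2 ≤ R := by linarith
  have hR1 : 1 ≤ R := by linarith
  obtain ⟨ρ₀, hρ₀, hex⟩ := hex R hRR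
  have i0 : 0 < ρ₀⁻¹ := by positivity
  have i1 : 0 < ρ₁⁻¹ := by positivity
  obtain ⟨A, hAd⟩ : ∃ A : ℝ, A = 11 + R + ρ₀⁻¹ + ρ₁⁻¹ + 27 * q ^ 2 := ⟨_, rfl⟩
  have hA11 : 11 ≤ A := by linarith
  refine ⟨A, by linarith, ?_⟩
  intro N L _ w ψ hS δ hδ hAδ hρδ B b hb o
  obtain ⟨hρ, -, -⟩ := hS.basic
  have hA0 : 0 < A := by linarith
  obtain ⟨t, htd⟩ : ∃ t : ℝ, t = 3 * (1 / δ) := ⟨_, rfl⟩
  have ht0 : 0 < t := by rw [htd]; positivity
  obtain ⟨hAt, hρA, h36, a2⟩ := arP_tel hA11 hq0 (by linarith) hρ hδ hAδ hρδ htd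
  have hle : ∀ r : ℝ, 0 < r → r⁻¹ ≤ A → rho N L ≤ r := fun r hr h => by
    have h1 : rho N L * r⁻¹ ≤ 1 := le_trans (mul_le_mul_of_nonneg_left h hρ.le) hρA
    rwa [← div_eq_mul_inv, div_le_one hr] at h1
  have hLt : 36 * t ≤ L := hS.r_le ht0.le (by norm_num) h36
  have hap := hAP N L w ψ hS (hle ρ₁ hρ₁ (by linarith))
  obtain ⟨J, m, hSc⟩ := hS.pot.scat R (hR₁.trans hRR) (by linarith)
  obtain ⟨hx1, hx2⟩ := hex N L w ψ hS (hle ρ₀ hρ₀ (by linarith)) J m hSc o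
  have hψ := hS.gs.c1
  have hwm := hSc.wt (by linarith)
  have hδ1 : 0 < 1 / δ := by positivity
  have hwb := ((hb.wt hδ1 (by linarith)).1).mono (htd ▸ ht0) (by linarith : (4 : ℝ) ≤ 8 * P.Λ)
  rw [← htd] at hwb
  have hT := telescope hψ hap hC hρ o (by linarith : (1 : ℝ) ≤ 8 * P.Λ)
    (by linarith : 0 < 2 * R) (by linarith : 2 * R ≤ t) h36 (by linarith) hwm hwb
  rw [← hK] at hT
  have hr0 : 0 < √(rho N L) := Real.sqrt_pos.mpr hρ
  have hr2 : √(rho N L) ^ 2 = rho N L := Real.sq_sqrt hρ.le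
  have hE : √(S2 o (fun j x => amp o j (mU m) ψ x - amp o j (Ub b) ψ x)) ≤ θ * √(rho N L) := by
    have a1 : (√(2 * R))⁻¹ ≤ q⁻¹ := inv_anti₀ hq0 (Real.le_sqrt_of_sq_le (by linarith))
    calc _ ≤ K * √(rho N L) * ((√(2 * R))⁻¹ + √(rho N L * t ^ 3)) := hT
      _ ≤ K * √(rho N L) * (q⁻¹ + q⁻¹) :=
          mul_le_mul_of_nonneg_left (add_le_add a1 a2) (by positivity)
      _ = θ * √(rho N L) := by rw [hq]; field_simp; ring
  have cm : ∀ j, Continuous (amp o j (mU m) ψ) := fun j => continuous_amp hwm.bm hψ.1 o j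
  have cb : ∀ j, Continuous (amp o j (Ub b) ψ) := fun j => continuous_amp hwb.bm hψ.1 o j
  have cw : ∀ j, Continuous (amp o j w ψ) := fun j => continuous_amp hS.pot.wp.bm hψ.1 o j
  constructor
  · have t1 := sqrt_S2_add_le o (A := fun j => amp o j (Ub b) ψ)
      (B := fun j x => amp o j (mU m) ψ x - amp o j (Ub b) ψ x) cb
      (fun j => (cm j).sub (cb j))
    have t2 := sqrt_S2_add_le o (A := fun j => amp o j (mU m) ψ)
      (B := fun j x => amp o j (Ub b) ψ x - amp o j (mU m) ψ x) cm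
      (fun j => (cb j).sub (cm j))
    simp only [add_sub_cancel] at t1 t2
    rw [S2_sub_rev_tel o (fun j => amp o j (Ub b) ψ) (fun j => amp o j (mU m) ψ)] at t2
    have eX := Real.sq_sqrt (S2_nonneg_tel o (fun j => amp o j (Ub b) ψ))
    have eY := Real.sq_sqrt (S2_nonneg_tel o (fun j => amp o j (mU m) ψ))
    rw [← eX]
    rw [← eY] at hx1
    exact arX_tel (Real.sqrt_nonneg _) (Real.sqrt_nonneg _) hr0 hr2 he0 he1 heη hθ0 hθe hx1 hE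
      t1 t2
  · have t1 := sqrt_S2_add_le o
      (A := fun j x => amp o j w ψ x - (c : ℂ) * amp o j (mU m) ψ x)
      (B := fun j x => (c : ℂ) * (amp o j (mU m) ψ x - amp o j (Ub b) ψ x))
      (fun j => (cw j).sub (continuous_const.mul (cm j)))
      (fun j => continuous_const.mul ((cm j).sub (cb j)))
    have e1 : (fun j x => amp o j w ψ x - (c : ℂ) * amp o j (mU m) ψ x +
        (c : ℂ) * (amp o j (mU m) ψ x - amp o j (Ub b) ψ x)) =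
        fun j x => amp o j w ψ x - (c : ℂ) * amp o j (Ub b) ψ x := by
      funext j x; ring
    rw [e1, S2_smul_tel o c (fun j x => amp o j (mU m) ψ x - amp o j (Ub b) ψ x),
      Real.sqrt_mul (sq_nonneg c), Real.sqrt_sq hc0.le] at t1
    have eZ := Real.sq_sqrt
      (S2_nonneg_tel o (fun j x => amp o j w ψ x - (c : ℂ) * amp o j (Ub b) ψ x))
    have eW := Real.sq_sqrt
      (S2_nonneg_tel o (fun j x => amp o j w ψ x - (c : ℂ) * amp o j (mU m) ψ x))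
    rw [← eZ]
    rw [← eW] at hx2
    exact arZ_tel (Real.sqrt_nonneg _) hr0 hr2 he0 he1 heη hc0 hcθ hx2 hE t1

end Pool.Agent.BoseTail
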