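import Pool.Agent.Lib.MP_dec75e_mp.Ma
import Pool.Agent.Lib.MP_dec75e_mp.Tel

/-! The error is small; the norm of the windowed wave function. -/

open MeasureTheory Complex Finset Filter Function
open scoped ComplexConjugate Real Topology

noncomputable section

namespace Pool.Agent.BoseTail

section aux
variable {N : ℕ} {L : ℝ} [Fact (0 < L)] {P : Par} {C B : ℝ} {w : T3 L → ℝ} {ψ : Cf N L → ℂ}
  {δ : ℝ} {θ η η' b : T3 L → ℝ}

theorem psit_c1_mb0 (h : MS P C B w ψ δ θ η η' b) {o j : Fin N} (hj : j ∈ univ.erase o) :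
    IsC1 (psit o j θ η b ψ) :=
  psit_c1 h.cuts h.basic.2.2.2.2.1.bm (Finset.mem_erase.1 hj).1 h.st.gs.c1

omit [Fact (0 < L)] in
theorem dd_ksum_mb0 {o : Fin N} {κ : T3 L → ℂ} (hκ : C1T κ) {A : Fin N → Cf N L → ℂ}
    (hA : ∀ j ∈ univ.erase o, IsC1 (A j)) (c : Fin 3) (x : Cf N L) :
    dd (dir o c) (ksum o κ A) x =
      ksum o (dd (d1 c) κ) A x + ksum o κ (fun j => dd (dir o c) (A j)) x := by
  have h1 := dd_sum (e := dir o c) (s := univ.erase o)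
    (f := fun j (x : Cf N L) => κ (x o - x j) * A j x) (fun j hj =>
      ((hκ c).pair (Finset.mem_erase.1 hj).1.symm o).mul (dir_dir o c) ((hA j hj).2 o c)) x
  refine h1.trans ?_
  rw [ksum, ksum, ← Finset.sum_add_distrib]
  refine Finset.sum_congr rfl fun j hj => ?_
  have hjo := (Finset.mem_erase.1 hj).1
  rw [dd_mul (dir_dir o c) ((hκ c).pair hjo.symm o) ((hA j hj).2 o c), dd_pair (hκ c) hjo.symm,
    if_pos rfl]

theorem dd_chi_mb0 (h : MS P C B w ψ δ θ η η' b) (o : Fin N) {κ κc : T3 L → ℂ} (hκ : C2T κ)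
    (h3 : C1T (lapT κ)) (hκc : C2T κc) (c : Fin 3) (q : ℝ)
    (e1 : ∀ z, dd (d1 c) κ z - I * q * κ z = δ * κc z)
    (e2 : ∀ z, dd (d1 c) (lapT κ) z - I * q * lapT κ z = δ * lapT κc z) (x : Cf N L) :
    I * q * chi P o κ θ η b ψ x = dd (dir o c) (chi P o κ θ η b ψ) x +
      -((4 * π * P.a : ℝ) * δ * ksum o κc (fun j => psit o j θ η b ψ) x +
        (4 * π * P.a : ℝ) * ksum o κ (fun j => dd (dir o c) (psit o j θ η b ψ)) x -
        δ * cvl o (lapT κc) ψ x) := by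
  have hψ := h.st.gs.c1
  have hk := ksum_c1 (o := o) hκ.c1 fun j hj => psit_c1_mb0 h hj
  have hc := dd_cvl_ker (h3 c) hψ.1 o
  have a1 : dd (dir o c) (chi P o κ θ η b ψ) x =
      (4 * π * P.a : ℝ) * dd (dir o c) (ksum o κ fun j => psit o j θ η b ψ) x -
        cvl o (dd (d1 c) (lapT κ)) ψ x := by
    rw [← hc.2, ← dd_const_mul _ (hk.2 o c)]
    exact dd_sub ((hk.2 o c).const_mul _) hc.1 x
  have a2 : dd (d1 c) (lapT κ) = fun z => (I * q) * lapT κ z + δ * lapT κc z :=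
    funext fun z => by rw [← e2 z]; ring
  have a3 : cvl o (dd (d1 c) (lapT κ)) ψ x =
      (I * q) * cvl o (lapT κ) ψ x + δ * cvl o (lapT κc) ψ x := by
    rw [a2]
    exact cvl_add_ker (BM.of_cont hκ.cont_lap) (BM.of_cont hκc.cont_lap) hψ.1 o _ _ x
  have a4 : ksum o (dd (d1 c) κ) (fun j => psit o j θ η b ψ) x =
      (I * q) * ksum o κ (fun j => psit o j θ η b ψ) x +
        δ * ksum o κc (fun j => psit o j θ η b ψ) x := by
    simp only [ksum, Finset.mul_sum, ← Finset.sum_add_distrib]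
    refine Finset.sum_congr rfl fun j _ => ?_
    have := e1 (x o - x j)
    linear_combination (psit o j θ η b ψ x) * this
  rw [a1, a3, dd_ksum_mb0 hκ.c1 (fun j hj => psit_c1_mb0 h hj), a4, chi, Yap]
  ring

theorem normSq_three_mb0 (a b c : ℂ) : ‖-(a + b - c)‖ ^ 2 ≤ 3 * (‖a‖ ^ 2 + ‖b‖ ^ 2 + ‖c‖ ^ 2) := by
  have h : ‖-(a + b - c)‖ ≤ ‖a‖ + ‖b‖ + ‖c‖ := by
    rw [norm_neg]
    exact (norm_sub_le _ _).trans (add_le_add (norm_add_le _ _) le_rfl)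
  have h2 := pow_le_pow_left₀ (norm_nonneg _) h 2
  nlinarith [sq_nonneg (‖a‖ - ‖b‖), sq_nonneg (‖a‖ - ‖c‖), sq_nonneg (‖b‖ - ‖c‖)]

theorem nsq_three_mb0 {f g u : Cf N L → ℂ} (hf : Continuous f) (hg : Continuous g)
    (hu : Continuous u) (p q r : ℝ) :
    ∫ x, ‖-((p : ℂ) * f x + (q : ℂ) * g x - (r : ℂ) * u x)‖ ^ 2 ≤
      3 * (p ^ 2 * nsq f + q ^ 2 * nsq g + r ^ 2 * nsq u) := by
  have i1 : Integrable fun x => p ^ 2 * ‖f x‖ ^ 2 := cont_integrable (by fun_prop)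
  have i2 : Integrable fun x => q ^ 2 * ‖g x‖ ^ 2 := cont_integrable (by fun_prop)
  have i3 : Integrable fun x => r ^ 2 * ‖u x‖ ^ 2 := cont_integrable (by fun_prop)
  have i4 : Integrable fun x => p ^ 2 * ‖f x‖ ^ 2 + q ^ 2 * ‖g x‖ ^ 2 := i1.add i2
  rw [nsq, nsq, nsq, ← integral_const_mul, ← integral_const_mul, ← integral_const_mul,
    ← integral_add i1 i2, ← integral_add i4 i3, ← integral_const_mul]
  refine integral_mono (cont_integrable (by fun_prop)) (cont_integrable (by fun_prop)) fun x => ?_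
  have := normSq_three_mb0 ((p : ℂ) * f x) ((q : ℂ) * g x) ((r : ℂ) * u x)
  simpa only [norm_mul, mul_pow, Complex.norm_real, Real.norm_eq_abs, sq_abs] using this

theorem win_sq_mb0 {H : ℝ} {κ : T3 L → ℂ} (h : Win H δ κ) (hδ : 0 < δ) :
    ∫ z, ‖κ z‖ ^ 2 ≤ 8 * H ^ 2 * δ ^ 3 := by
  have h1 := integral_le_of_out (u := fun z => ‖κ z‖ ^ 2) (s := 1 / δ) (M := (H * δ ^ 3) ^ 2)
    (BM.of_cont (h.c2.c1.cont.norm.pow 2)) (by positivity)
    (fun z => pow_le_pow_left₀ (norm_nonneg _) (h.le z) 2) (sq_nonneg _)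
    (fun z hz => by rw [h.out z hz]; simp)
  refine h1.trans (le_of_eq ?_)
  field_simp
  ring

theorem S2_nonneg_mb0 (o : Fin N) (A : Fin N → Cf N L → ℂ) : 0 ≤ S2 o A := by
  have hL : 0 < L := Fact.out
  exact mul_nonneg (by positivity)
    (Finset.sum_nonneg fun j _ => integral_nonneg fun x => sq_nonneg _)

end aux

/-- The error oscillates with momentum `k₀`. -/
theorem chi_osc (P : Par) (C B : ℝ) : ∃ K : ℝ, 1 ≤ K ∧ ∀ (N : ℕ) (L : ℝ) [Fact (0 < L)]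
    (w : T3 L → ℝ) (ψ : Cf N L → ℂ) (δ : ℝ) (θ η η' b : T3 L → ℝ), MS P C B w ψ δ θ η η' b →
      ∀ (o : Fin N) (H k : ℝ) (k₀ : Fin 3 → ℝ) (κ : T3 L → ℂ), 1 ≤ H → 0 ≤ k → Ker H δ k k₀ κ →
        S2 o (fun j => amp o j (Ub b) ψ) ≤ 2 * rho N L →
        k * √(nsq (chi P o κ θ η b ψ)) ≤
          √(∫ x, gP o (chi P o κ θ η b ψ) x) + K * H * δ * √(rho N L * δ ^ 3) := by
  obtain ⟨K₁, hK₁, h₁⟩ := ksum_norm C B
  obtain ⟨K₂, hK₂, h₂⟩ := ksum_grad P C B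
  obtain ⟨K₃, hK₃, h₃⟩ := crude P C B
  obtain ⟨α, hα⟩ : ∃ α : ℝ, α = 4 * π * P.a := ⟨_, rfl⟩
  obtain ⟨K, hK⟩ : ∃ K : ℝ, K = 3 * (3 * α ^ 2 * (16 + K₁) + α ^ 2 * K₂ + 3 * K₃) := ⟨_, rfl⟩
  have hK1 : 1 ≤ K := by
    have : 0 ≤ 3 * α ^ 2 * (16 + K₁) + α ^ 2 * K₂ := by positivity
    rw [hK]
    linarith
  refine ⟨K, hK1, ?_⟩
  intro N L _ w ψ δ θ η η' b h o H k k₀ κ hH hk hκ hS
  have hδ := h.δpos
  have hρ := h.basic.1
  have hψ := h.st.gs.c1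
  have hχ := chi_c1 h o hκ.win.c2
  choose κc hκc e1 e2 using hκ.osc
  have cA : ∀ c, Continuous (ksum o (κc c) fun j => psit o j θ η b ψ) := fun c =>
    continuous_ksum (hκc c).c2.c1.cont fun j hj => (psit_c1_mb0 h hj).1
  have cB : ∀ c, Continuous (ksum o κ fun j => dd (dir o c) (psit o j θ η b ψ)) := fun c =>
    continuous_ksum hκ.win.c2.c1.cont fun j hj => ((psit_c1_mb0 h hj).2 o c).cdd
  have cC : ∀ c, Continuous (cvl o (lapT (κc c)) ψ) := fun c =>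
    continuous_cvl (BM.of_cont (hκc c).c2.cont_lap) hψ.1 o
  obtain ⟨R, hR⟩ : ∃ R : Fin 3 → Cf N L → ℂ, R = fun c x =>
      -(((α * δ : ℝ) : ℂ) * ksum o (κc c) (fun j => psit o j θ η b ψ) x +
        (α : ℂ) * ksum o κ (fun j => dd (dir o c) (psit o j θ η b ψ)) x -
        (δ : ℂ) * cvl o (lapT (κc c)) ψ x) := ⟨_, rfl⟩
  have cR : ∀ c, Continuous (R c) := fun c => by
    rw [hR]
    exact (((continuous_const.mul (cA c)).add (continuous_const.mul (cB c))).sub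
      (continuous_const.mul (cC c))).neg
  have hid : ∀ c x, dd (dir o c) (chi P o κ θ η b ψ) x + R c x =
      I * k₀ c * chi P o κ θ η b ψ x := fun c x => by
    rw [dd_chi_mb0 h o hκ.win.c2 hκ.c3 (hκc c).c2 c (k₀ c) (e1 c) (e2 c) x, hR, ← hα]
    push_cast
    ring
  have hm := mink_sum (μ := volume) (univ : Finset (Fin 3))
    (f := fun c => dd (dir o c) (chi P o κ θ η b ψ)) (g := R)
    (fun c _ => BM.of_cont (hχ.2 o c).cdd) fun c _ => BM.of_cont (cR c)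
  have hl : ∑ c, ∫ x, ‖dd (dir o c) (chi P o κ θ η b ψ) x + R c x‖ ^ 2 =
      k ^ 2 * nsq (chi P o κ θ η b ψ) := by
    rw [← hκ.hk, Finset.sum_mul]
    refine Finset.sum_congr rfl fun c _ => ?_
    rw [nsq, ← integral_const_mul]
    refine integral_congr_ae (Eventually.of_forall fun x => ?_)
    simp only [hid, norm_mul, Complex.norm_I, one_mul, mul_pow, Complex.norm_real,
      Real.norm_eq_abs, sq_abs]
  have hg : ∑ c, ∫ x, ‖dd (dir o c) (chi P o κ θ η b ψ) x‖ ^ 2 =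
      ∫ x, gP o (chi P o κ θ η b ψ) x :=
    (integral_finsetSum _ fun c _ => cont_integrable ((hχ.2 o c).cdd.norm.pow 2)).symm
  rw [hl, hg, Real.sqrt_mul (sq_nonneg k), Real.sqrt_sq hk] at hm
  refine hm.trans (add_le_add le_rfl ?_)
  obtain ⟨T, hT⟩ : ∃ T : ℝ, T = H ^ 2 * (rho N L * δ ^ 3) := ⟨_, rfl⟩
  have hT0 : 0 ≤ T := by rw [hT]; positivity
  have bA : ∀ c, nsq (ksum o (κc c) fun j => psit o j θ η b ψ) ≤ (16 + K₁) * T := by
    intro c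
    have a1 := (abs_le.1 (h₁ P N L w ψ δ θ η η' b h o (κc c) (H * δ ^ 3) (hκc c).c2.c1.cont
      (hκc c).out (hκc c).le)).2
    have a2 := win_sq_mb0 (hκc c) hδ
    have a3 : (∫ z, ‖κc c z‖ ^ 2) * S2 o (fun j => amp o j (Ub b) ψ) ≤
        8 * H ^ 2 * δ ^ 3 * (2 * rho N L) :=
      mul_le_mul a2 hS (S2_nonneg_mb0 _ _) (by positivity)
    have a4 : K₁ * (H * δ ^ 3) ^ 2 * rho N L ^ 2 / δ ^ 6 = K₁ * H ^ 2 * rho N L * rho N L := by
      field_simp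
    have a5 : K₁ * H ^ 2 * rho N L * rho N L ≤ K₁ * H ^ 2 * rho N L * δ ^ 3 :=
      mul_le_mul_of_nonneg_left h.hρ (by positivity)
    rw [hT]
    linarith
  have bB : ∑ c, nsq (ksum o κ fun j => dd (dir o c) (psit o j θ η b ψ)) ≤ K₂ * δ ^ 2 * T := by
    refine (h₂ N L w ψ δ θ η η' b h o (fun _ => κ) (H * δ ^ 3) (fun _ => hκ.win.c2.c1.cont)
      (fun _ => hκ.win.out) fun _ => hκ.win.le).2.trans (le_of_eq ?_)
    rw [hT]
    field_simp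
  have bC : ∀ c, nsq (cvl o (lapT (κc c)) ψ) ≤ K₃ * T := fun c => by
    rw [hT, ← mul_assoc]
    exact h₃ N L w ψ δ θ η η' b h o H (κc c) (hκc c)
  have bR : ∀ c, ∫ x, ‖R c x‖ ^ 2 ≤ 3 * ((α * δ) ^ 2 * ((16 + K₁) * T) +
      α ^ 2 * nsq (ksum o κ fun j => dd (dir o c) (psit o j θ η b ψ)) + δ ^ 2 * (K₃ * T)) := by
    intro c
    have a1 := nsq_three_mb0 (cA c) (cB c) (cC c) (α * δ) α δ
    have a2 := mul_le_mul_of_nonneg_left (bA c) (sq_nonneg (α * δ))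
    have a3 := mul_le_mul_of_nonneg_left (bC c) (sq_nonneg δ)
    rw [hR]
    linarith
  have bS : ∑ c, ∫ x, ‖R c x‖ ^ 2 ≤ K * (δ ^ 2 * T) := by
    have a1 := mul_le_mul_of_nonneg_left bB (sq_nonneg α)
    have a2 := bR 0
    have a3 := bR 1
    have a4 := bR 2
    rw [Fin.sum_univ_three] at a1 ⊢
    rw [hK]
    linarith
  refine Real.sqrt_le_iff.2 ⟨by positivity, bS.trans ?_⟩
  have a1 : (K * H * δ * √(rho N L * δ ^ 3)) ^ 2 = K ^ 2 * (δ ^ 2 * T) := by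
    rw [mul_pow, Real.sq_sqrt (by positivity), hT]
    ring
  rw [a1]
  exact mul_le_mul_of_nonneg_right (by nlinarith) (by positivity)

theorem close_aux_mb0 {K K' u M e X g : ℝ} (hK : 1 ≤ K) (hK' : 1 ≤ K') (hu : 0 < u)
    (hu' : 32 * u ≤ 1)
    (h₁ : 1 / 2 * g ^ 2 ≤ u * X ^ 2 + K * u * M ^ 2 + K * ((e + u * M) * X + u * M * g))
    (hX : 0 ≤ X) (h₂ : X ≤ g + K' * u * M) :
    X ^ 2 ≤ 300 * (K + K') ^ 2 * (u * M ^ 2 + e ^ 2) := by
  have a1 : K * (u * M * g) ≤ g ^ 2 / 4 + K ^ 2 * (u * M) ^ 2 := by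
    nlinarith [sq_nonneg (g / 2 - K * (u * M))]
  have a2 : X ^ 2 ≤ 2 * g ^ 2 + 2 * K' ^ 2 * (u * M) ^ 2 := by
    have := pow_le_pow_left₀ hX h₂ 2
    nlinarith [sq_nonneg (g - K' * u * M)]
  have a3 : 8 * (K * ((e + u * M) * X)) ≤ X ^ 2 / 4 + 64 * K ^ 2 * (e + u * M) ^ 2 := by
    nlinarith [sq_nonneg (X / 2 - 8 * K * (e + u * M))]
  have a4 : (e + u * M) ^ 2 ≤ 2 * e ^ 2 + 2 * (u * M) ^ 2 := by
    nlinarith [sq_nonneg (e - u * M)]
  have a5 : 8 * (u * X ^ 2) ≤ X ^ 2 / 4 := by nlinarith [sq_nonneg X]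
  have a6 : (u * M) ^ 2 ≤ u * M ^ 2 := by
    have : u * (u * M ^ 2) ≤ 1 * (u * M ^ 2) :=
      mul_le_mul_of_nonneg_right (by linarith) (by positivity)
    linarith
  have a7 := mul_le_mul_of_nonneg_left a4 (sq_nonneg K)
  have a8 := mul_le_mul_of_nonneg_left a6 (sq_nonneg K)
  have a9 := mul_le_mul_of_nonneg_left a6 (sq_nonneg K')
  have b0 : 0 ≤ u * M ^ 2 := by positivity
  have b1 : K * (u * M ^ 2) ≤ K ^ 2 * (u * M ^ 2) := mul_le_mul_of_nonneg_right (by nlinarith) b0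
  have b2 : 0 ≤ K * K' * (u * M ^ 2 + e ^ 2) := by positivity
  have b3 : 0 ≤ K' ^ 2 * e ^ 2 := by positivity
  have b4 : 0 ≤ K ^ 2 * e ^ 2 := by positivity
  have b5 : 0 ≤ K ^ 2 * (u * M ^ 2) := by positivity
  have b6 : 0 ≤ K' ^ 2 * (u * M ^ 2) := by positivity
  nlinarith

/-- Elementary closing argument. -/
theorem close_ineq {K K' H δ k Λ e X g : ℝ} (hK : 1 ≤ K) (hK' : 1 ≤ K') (hH : 1 ≤ H) (hδ : 0 < δ)
    (hk : 32 * δ ≤ k) (hΛ : 0 ≤ Λ) (he : 0 ≤ e) (hX : 0 ≤ X) (hg : 0 ≤ g)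
    (h₁ : 1 / 2 * g ^ 2 ≤ δ * k * X ^ 2 + K * H ^ 2 * δ * k * Λ ^ 2 +
      K * H * (k ^ 2 * (e + δ / k * Λ) * X + δ * Λ * g))
    (h₂ : k * X ≤ g + K' * H * δ * Λ) :
    X ^ 2 ≤ 300 * (K + K') ^ 2 * H ^ 2 * (δ / k * Λ ^ 2 + e ^ 2) := by
  have _ := hΛ
  have _ := he
  have _ := hg
  have hk0 : 0 < k := by linarith
  obtain ⟨u, rfl⟩ : ∃ u, δ = u * k := ⟨δ / k, by field_simp⟩
  obtain ⟨g', rfl⟩ : ∃ g', g = g' * k := ⟨g / k, by field_simp⟩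
  have hu : 0 < u := (mul_pos_iff_of_pos_right hk0).1 hδ
  have hu' : 32 * u ≤ 1 := le_of_mul_le_mul_right (by linarith) hk0
  have e1 : u * k / k = u := by field_simp
  rw [e1] at h₁ ⊢
  have h := close_aux_mb0 (M := H * Λ) (e := H * e) (X := X) (g := g') hK hK' hu hu'
    (le_of_mul_le_mul_right (by linarith) (pow_pos hk0 2)) hX
    (le_of_mul_le_mul_right (by linarith) hk0)
  linarith

theorem chi_small (P : Par) (C B : ℝ) : ∃ K : ℝ, 1 ≤ K ∧ ∀ (N : ℕ) (L : ℝ) [Fact (0 < L)]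
    (w : T3 L → ℝ) (ψ : Cf N L → ℂ) (δ : ℝ) (θ η η' b : T3 L → ℝ), MS P C B w ψ δ θ η η' b →
      ∀ (o : Fin N) (H k : ℝ) (k₀ : Fin 3 → ℝ) (κ : T3 L → ℂ), 1 ≤ H → 32 * δ ≤ k →
        Ker H δ k k₀ κ → S2 o (fun j => amp o j (Ub b) ψ) ≤ 2 * rho N L →
        nsq (chi P o κ θ η b ψ) ≤
          K * H ^ 2 * (rho N L * δ ^ 3 * (δ / k + k ^ 2 + rho N L / δ ^ 3) +
            δ ^ 3 * Sdef P w o b ψ) := by
  obtain ⟨K, hK, h₁⟩ := chi_form P C B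
  obtain ⟨K', hK', h₂⟩ := chi_osc P C B
  refine ⟨300 * (K + K') ^ 2, by nlinarith, ?_⟩
  intro N L _ w ψ δ θ η η' b h o H k k₀ κ hH hk hκ hS
  have hδ := h.δpos
  have hρ := h.basic.1
  have hk0 : 0 < k := by linarith
  have hχ := chi_c1 h o hκ.win.c2
  have a1 := h₁ N L w ψ δ θ η η' b h o H k k₀ κ hH (by linarith) hκ _ hχ
  have a2 := h₂ N L w ψ δ θ η η' b h o H k k₀ κ hH hk0.le hκ hS
  have hS0 : 0 ≤ Sdef P w o b ψ := S2_nonneg_mb0 _ _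
  have n0 := nsq_nonneg (chi P o κ θ η b ψ)
  have g0 : 0 ≤ ∫ x, gP o (chi P o κ θ η b ψ) x :=
    integral_nonneg fun x => Finset.sum_nonneg fun c _ => sq_nonneg _
  have l0 : 0 ≤ rho N L * δ ^ 3 := by positivity
  have e0 : 0 ≤ δ ^ 3 * (rho N L * k ^ 2 + rho N L ^ 2 / δ ^ 3 + Sdef P w o b ψ) := by positivity
  rw [rT_self hχ, rQ_self hχ] at a1
  have a3 := close_ineq hK hK' hH hδ hk (Real.sqrt_nonneg _) (Real.sqrt_nonneg
    (δ ^ 3 * (rho N L * k ^ 2 + rho N L ^ 2 / δ ^ 3 + Sdef P w o b ψ))) (Real.sqrt_nonneg _)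
    (Real.sqrt_nonneg _) (by
      rw [Real.sq_sqrt n0, Real.sq_sqrt g0, Real.sq_sqrt l0]
      linarith) a2
  rw [Real.sq_sqrt n0, Real.sq_sqrt l0, Real.sq_sqrt e0] at a3
  refine a3.trans (le_of_eq ?_)
  field_simp
  ring

end Pool.Agent.BoseTail
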