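import Pool.Agent.Lib.MP_dec75e_mp.Tor
import Pool.Agent.Lib.MP_dec75e_mp.L2

/-! Integration on the torus: averaging over one particle, permutations, balls, `L²` inequalities. -/

open MeasureTheory Complex Finset Filter Function
open scoped ComplexConjugate Real Topology

noncomputable section

namespace Pool.Agent.BoseTail

variable {N : ℕ} {L : ℝ} [Fact (0 < L)]

theorem Lpos : 0 < L := Fact.out

theorem vol_T3 : (volume : Measure (T3 L)).real Set.univ = L ^ 3 := by
  have hL : 0 < L := Lpos
  rw [Measure.real, volume_pi, Measure.pi_univ]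
  simp [AddCircle.measure_univ, ENNReal.toReal_ofReal hL.le]

theorem integral_const_T3 (a : ℝ) : ∫ _ : T3 L, a = L ^ 3 * a := by
  rw [integral_const, vol_T3, smul_eq_mul]

theorem vol_Cf_pos : 0 < (volume : Measure (Cf N L)).real Set.univ := by
  have hL : 0 < L := Lpos
  rw [Measure.real, volume_pi, Measure.pi_univ, ENNReal.toReal_prod]
  refine Finset.prod_pos fun i _ => ?_
  have := vol_T3 (L := L)
  rw [Measure.real] at this
  rw [this]
  positivity

theorem BM_nb (s : ℝ) : BM (nb (L := L) s) := by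
  have hp : MeasurableSet {z : T3 L | ‖z‖ ≤ s} :=
    (isClosed_le continuous_norm continuous_const).measurableSet
  exact BM.ite hp (BM.const (1 : ℝ)) (BM.const (0 : ℝ))

theorem integral_nb_meas {s : ℝ} (hs : 0 ≤ s) :
    ∫ z : T3 L, nb s z = (min L (2 * s)) ^ 3 := by
  have hL : 0 < L := Lpos
  have h1 : nb (L := L) s = (Metric.closedBall (0 : T3 L) s).indicator (fun _ => (1 : ℝ)) := by
    funext z
    simp only [nb, Set.indicator, mem_closedBall_zero_iff]
  have h2 : 0 ≤ min L (2 * s) := le_min hL.le (by positivity)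
  rw [h1, integral_indicator Metric.isClosed_closedBall.measurableSet, setIntegral_const,
    Measure.real, volume_pi_closedBall _ hs]
  simp only [AddCircle.volume_closedBall, ENNReal.toReal_pow, ENNReal.toReal_ofReal h2,
    Finset.prod_const, Finset.card_univ, Fintype.card_fin, smul_eq_mul, mul_one]

theorem integral_nb_le {s : ℝ} (hs : 0 ≤ s) : ∫ z : T3 L, nb s z ≤ (2 * s) ^ 3 := by
  have hL : 0 < L := Lpos
  rw [integral_nb_meas hs]
  exact pow_le_pow_left₀ (le_min hL.le (by positivity)) (min_le_right _ _) 3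

theorem integral_nb {s : ℝ} (hs : 0 ≤ s) (h : 2 * s ≤ L) : ∫ z : T3 L, nb s z = (2 * s) ^ 3 := by
  rw [integral_nb_meas hs, min_eq_right h]

/-- A function bounded by `M` that vanishes outside the ball of radius `s`. -/
theorem integral_le_of_out {u : T3 L → ℝ} (hu : BM u) {s M : ℝ} (hs : 0 ≤ s) (hM : ∀ z, u z ≤ M)
    (hM0 : 0 ≤ M) (hout : ∀ z, s < ‖z‖ → u z = 0) : ∫ z, u z ≤ M * (2 * s) ^ 3 := by
  have h1 : ∫ z, u z ≤ ∫ z : T3 L, M * nb s z := by
    refine integral_mono hu.integrable ((BM.const M).mul (BM_nb s)).integrable fun z => ?_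
    simp only [nb]
    split_ifs with hz
    · simpa using hM z
    · simp [hout z (not_le.1 hz)]
  rw [integral_const_mul] at h1
  exact h1.trans (mul_le_mul_of_nonneg_left (integral_nb_le hs) hM0)

theorem Wp.bm {P : Par} {w : T3 L → ℝ} (h : Wp P w) : BM w := BM.of_cont h.cont

theorem Wp.integral_le {P : Par} {w : T3 L → ℝ} (h : Wp P w) : ∫ z, w z ≤ P.W := by
  have hR := P.hR0
  have := integral_le_of_out h.bm (s := P.R0) (by linarith) h.le P.hV.le
    (fun z hz => h.supp z hz.le)
  refine this.trans (le_of_eq ?_)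
  unfold Par.W
  ring

theorem Wp.le_nb {P : Par} {w : T3 L → ℝ} (h : Wp P w) (z : T3 L) : w z ≤ P.V * nb P.R0 z := by
  simp only [nb]
  split_ifs with hz
  · simpa using h.le z
  · simp [h.supp z (not_le.1 hz).le]

/-- The normalised indicator of a ball is a weight. -/
theorem wt_ball {s t : ℝ} (hs : 0 < s) (h : 2 * s ≤ L) (hst : s ≤ t) (hts : t ≤ 2 * s) :
    Wt 1 t (fun z : T3 L => ((2 * s) ^ 3)⁻¹ * nb s z) := by
  have ht : 0 < t := hs.trans_le hst
  refine ⟨(BM.const _).mul (BM_nb s), fun z => ?_, fun z hz => ?_, ?_⟩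
  · have h0 := nb_nonneg s z
    have h1 := nb_le_one s z
    have h2 : ((2 * s) ^ 3)⁻¹ ≤ 1 / t ^ 3 := by
      rw [one_div]
      exact inv_anti₀ (by positivity) (pow_le_pow_left₀ ht.le hts 3)
    rw [abs_of_nonneg (by positivity)]
    exact (mul_le_of_le_one_right (by positivity) h1).trans h2
  · simp [nb, not_le.2 (hst.trans_lt hz)]
  · rw [integral_const_mul, integral_nb hs.le h]
    exact inv_mul_cancel₀ (by positivity)

section av
variable {𝕜 : Type*} [RCLike 𝕜] [MeasurableSpace 𝕜] [BorelSpace 𝕜]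

theorem measurable_update2 (i : Fin N) :
    Measurable fun p : Cf N L × T3 L => update p.1 i p.2 :=
  measurable_update'

theorem continuous_update2 (i : Fin N) :
    Continuous fun p : Cf N L × T3 L => update p.1 i p.2 :=
  continuous_fst.update i continuous_snd

theorem upd_meas {α : Type*} [MeasurableSpace α] {f : α → Cf N L} {g : α → T3 L}
    (hf : Measurable f) (hg : Measurable g) (i : Fin N) :
    Measurable fun a => update (f a) i (g a) :=
  (measurable_update2 i).comp (hf.prodMk hg)

omit [Fact (0 < L)] in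
theorem update_eq_add_meas (x : Cf N L) (i : Fin N) (z : T3 L) :
    update x i (z + x i) = x + Pi.single i z := by
  funext l
  by_cases hl : l = i
  · subst hl; simp [add_comm]
  · simp [hl]

/-- Averaging over the position of particle `i`. -/
theorem av {G : Cf N L → 𝕜} (hG : BM G) (i : Fin N) :
    ∫ x, ∫ y, G (update x i y) = ((L ^ 3 : ℝ) : 𝕜) * ∫ x, G x := by
  have h1 : ∀ x : Cf N L, ∫ y, G (update x i y) = ∫ z, G (update x i (z + x i)) := fun x =>
    (integral_add_right_eq_self (fun y => G (update x i y)) (x i)).symm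
  have h2 : BM (uncurry fun (x : Cf N L) (z : T3 L) => G (update x i (z + x i))) :=
    hG.comp (upd_meas measurable_fst
      (measurable_snd.add ((measurable_pi_apply i).comp measurable_fst)) i)
  simp only [h1]
  rw [BM.swap h2]
  simp only [update_eq_add_meas, integral_add_right_eq_self]
  rw [integral_const, vol_T3, RCLike.real_smul_eq_coe_mul]

omit [MeasurableSpace 𝕜] [BorelSpace 𝕜] in
theorem cube_ne_meas : ((L ^ 3 : ℝ) : 𝕜) ≠ 0 := by
  have hL : 0 < L := Lpos
  exact RCLike.ofReal_ne_zero.2 (by positivity)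

omit [Fact (0 < L)] in
theorem sub_meas (i j : Fin N) : Measurable fun x : Cf N L => x i - x j :=
  (measurable_pi_apply i).sub (measurable_pi_apply j)

/-- Integrating out a one-body factor against a function that does not depend on `x_i`. -/
theorem av_pair {u : T3 L → 𝕜} (hu : BM u) {G : Cf N L → 𝕜} (hG : BM G) {i j : Fin N}
    (hij : i ≠ j) (hi : ∀ x y, G (update x i y) = G x) :
    ∫ x, u (x i - x j) * G x = (((L ^ 3)⁻¹ : ℝ) : 𝕜) * (∫ z, u z) * ∫ x, G x := by
  have h := av ((hu.comp (sub_meas i j)).mul hG) i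
  simp only [update_self, update_of_ne hij.symm, hi, integral_mul_const,
    integral_sub_right_eq_self, integral_const_mul] at h
  rw [mul_assoc, h, ← mul_assoc, RCLike.ofReal_inv, inv_mul_cancel₀ cube_ne_meas, one_mul]

theorem cv_meas {U : T3 L → 𝕜} (hU : BM U) {G : Cf N L → 𝕜} (hG : BM G) {o j : Fin N}
    (hj : j ≠ o) :
    ∫ x, ∫ z, U z * G (update x o (x j + z)) =
      ((L ^ 3 : ℝ) : 𝕜) * ∫ x, U (x o - x j) * G x := by
  rw [← av ((hU.comp (sub_meas o j)).mul hG) o]
  refine integral_congr_ae (Eventually.of_forall fun x => ?_)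
  simp only [update_self, update_of_ne hj]
  rw [← integral_add_left_eq_self (fun y => U (y - x j) * G (update x o y)) (x j)]
  simp only [add_sub_cancel_left]

/-- The change of variables `(x, z) ↦ (x_o, update x o (x_j + z))`. -/
theorem cv {U : T3 L → 𝕜} (hU : BM U) {d : T3 L → Cf N L → 𝕜} (hd : BM (uncurry d))
    {o j : Fin N} (hj : j ≠ o) :
    ∫ z, U z * ∫ x, d (x o) (update x o (x j + z)) =
      ∫ y, ∫ x, U (x o - x j) * d y x := by
  have hdy : ∀ y, BM (d y) := fun y => hd.comp (T := fun x => (y, x)) measurable_prodMk_left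
  have hgen : ∀ {α : Type} [MeasurableSpace α] {fz fy : α → T3 L} {fx : α → Cf N L},
      Measurable fz → Measurable fy → Measurable fx →
        BM (fun a => U (fz a) * d (fy a) (update (fx a) o (fx a j + fz a))) := by
    intro α _ fz fy fx hz hy hx
    exact (hU.comp hz).mul (hd.comp (T := fun a => (fy a, update (fx a) o (fx a j + fz a)))
      (hy.prodMk (upd_meas hx (((measurable_pi_apply j).comp hx).add hz) o)))
  have hl : ∀ z : T3 L, ((L ^ 3 : ℝ) : 𝕜) * (U z * ∫ x, d (x o) (update x o (x j + z))) =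
      ∫ x : Cf N L, ∫ y, U z * d y (update x o (x j + z)) := by
    intro z
    have h := av (hgen (fz := fun _ : Cf N L => z) (fy := fun x => x o) (fx := fun x => x)
      measurable_const (measurable_pi_apply o) measurable_id) o
    simp only [update_self, update_of_ne hj, update_idem] at h
    rw [h, integral_const_mul]
  apply mul_left_cancel₀ (cube_ne_meas (L := L) (𝕜 := 𝕜))
  rw [← integral_const_mul, ← integral_const_mul]
  simp only [hl]
  rw [show (fun y => ((L ^ 3 : ℝ) : 𝕜) * ∫ x, U (x o - x j) * d y x) =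
    fun y => ∫ x : Cf N L, ∫ z, U z * d y (update x o (x j + z)) from
      funext fun y => (cv_meas hU (hdy y) hj).symm]
  have s1 : ∫ z : T3 L, ∫ x : Cf N L, ∫ y, U z * d y (update x o (x j + z)) =
      ∫ x : Cf N L, ∫ z : T3 L, ∫ y, U z * d y (update x o (x j + z)) :=
    BM.swap (BM.integral_right
      (Φ := fun (p : T3 L × Cf N L) (y : T3 L) => U p.1 * d y (update p.2 o (p.2 j + p.1)))
      (hgen (α := (T3 L × Cf N L) × T3 L) measurable_fst.fst measurable_snd measurable_fst.snd))
  have s2 : ∀ x : Cf N L, ∫ z : T3 L, ∫ y, U z * d y (update x o (x j + z)) =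
      ∫ y, ∫ z : T3 L, U z * d y (update x o (x j + z)) := fun x =>
    BM.swap (hgen (α := T3 L × T3 L) (fx := fun _ => x) measurable_fst measurable_snd
      measurable_const)
  have s3 : ∫ x : Cf N L, ∫ y, ∫ z : T3 L, U z * d y (update x o (x j + z)) =
      ∫ y, ∫ x : Cf N L, ∫ z : T3 L, U z * d y (update x o (x j + z)) :=
    BM.swap (BM.integral_right
      (Φ := fun (p : Cf N L × T3 L) (z : T3 L) => U z * d p.2 (update p.1 o (p.1 j + z)))
      (hgen (α := (Cf N L × T3 L) × T3 L) measurable_snd measurable_fst.snd measurable_fst.fst))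
  rw [s1, ← s3]
  simp only [s2]

/-- The special case without dependence on the old position. -/
theorem cv' {U : T3 L → 𝕜} (hU : BM U) {G : Cf N L → 𝕜} (hG : BM G) {o j : Fin N} (hj : j ≠ o) :
    ∫ x, ∫ z, U z * G (update x o (x j + z)) =
      ((L ^ 3 : ℝ) : 𝕜) * ∫ x, U (x o - x j) * G x :=
  cv_meas hU hG hj

omit [MeasurableSpace 𝕜] [BorelSpace 𝕜] in
theorem integral_perm (G : Cf N L → 𝕜) (σ : Equiv.Perm (Fin N)) :
    ∫ x : Cf N L, G (x ∘ σ) = ∫ x, G x := by
  have h := (volume_preserving_arrowCongr' σ.symm (MeasurableEquiv.refl (T3 L))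
    (MeasurePreserving.id _)).integral_comp' G
  exact h

end av

end Pool.Agent.BoseTail
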