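import Pool.Agent.Lib.MP_dec75e_mp.Bump

/-! The exponential weight `om`. -/

open MeasureTheory Complex Finset Filter Function
open scoped ComplexConjugate Real Topology

noncomputable section

namespace Pool.Agent.BoseTail

variable {L : ℝ} [Fact (0 < L)]

/-- The exponent of one factor of `om`. -/
def q_om0 (L r : ℝ) (t : AddCircle L) : ℝ := √(1 + sig L t / r ^ 2)

/-- The derivative of `q_om0`. -/
def q1_om0 (L r : ℝ) (t : AddCircle L) : ℝ := sig1 L t / r ^ 2 / (2 * q_om0 L r t)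

theorem arg_pos_om0 (r : ℝ) (t : AddCircle L) : 0 < 1 + sig L t / r ^ 2 := by
  have := sig_nonneg t
  positivity

theorem q_pos_om0 (r : ℝ) (t : AddCircle L) : 0 < q_om0 L r t :=
  Real.sqrt_pos.2 (arg_pos_om0 r t)

theorem q_sq_om0 (r : ℝ) (t : AddCircle L) : q_om0 L r t ^ 2 = 1 + sig L t / r ^ 2 :=
  Real.sq_sqrt (arg_pos_om0 r t).le

theorem cont_q_om0 (r : ℝ) : Continuous (q_om0 L r) :=
  (continuous_const.add (continuous_sig.div_const _)).sqrt

theorem cont_q1_om0 (r : ℝ) : Continuous (q1_om0 L r) :=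
  (continuous_sig1.div_const _).div (continuous_const.mul (cont_q_om0 r)) fun t => by
    have := q_pos_om0 r t
    positivity

theorem hd_q_om0 (r : ℝ) (t : AddCircle L) :
    HasDerivAt (fun s : ℝ => q_om0 L r (t + (s : AddCircle L))) (q1_om0 L r t) 0 := by
  have h1 := (((hd_sig t).div_const (r ^ 2)).const_add 1).sqrt (arg_pos_om0 r _).ne'
  simpa [q_om0, q1_om0] using h1

theorem abs_q1_om0 {r : ℝ} (hr : 0 < r) (t : AddCircle L) : |q1_om0 L r t| ≤ 1 / r := by
  have hq := q_pos_om0 r t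
  have h1 := q_sq_om0 r t
  have h2 := sig1_sq_le t
  have h3 := sig_nonneg t
  refine abs_le_of_sq_le_sq' ?_ (by positivity) |> abs_le.2
  have h4 : r ^ 2 * q_om0 L r t ^ 2 = r ^ 2 + sig L t := by
    rw [h1]
    field_simp
  have h5 : q1_om0 L r t ^ 2 = sig1 L t ^ 2 / (4 * r ^ 2 * (r ^ 2 * q_om0 L r t ^ 2)) := by
    rw [q1_om0]
    field_simp
    ring
  rw [h5, h4, div_pow, div_le_div_iff₀ (by positivity) (by positivity)]
  nlinarith [sq_nonneg r, mul_le_mul_of_nonneg_right h2 (sq_nonneg r), sq_nonneg (r ^ 2)]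

theorem hd_g_om0 (r : ℝ) (t : AddCircle L) :
    HasDerivAt (fun s : ℝ => Real.exp (-q_om0 L r (t + (s : AddCircle L))))
      (Real.exp (-q_om0 L r t) * -q1_om0 L r t) 0 := by
  simpa using (hd_q_om0 r t).neg.exp

theorem hd_om_om0 (r : ℝ) (c : Fin 3) (z : T3 L) :
    HasDerivAt (fun s : ℝ => om r (z + d1 c s)) (om r z * -q1_om0 L r (z c)) 0 := by
  have h := hd_tensor (g := fun _ t => Real.exp (-q_om0 L r t))
    (g' := fun _ t => Real.exp (-q_om0 L r t) * -q1_om0 L r t) (fun _ t => hd_g_om0 r t) c z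
  have e : om r z = Real.exp (-q_om0 L r (z c)) *
      ∏ c' ∈ univ.erase c, Real.exp (-q_om0 L r (z c')) :=
    (Finset.mul_prod_erase univ (fun c' => Real.exp (-q_om0 L r (z c'))) (mem_univ c)).symm
  rw [e, mul_right_comm]
  exact h

theorem cont_om_om0 (r : ℝ) : Continuous (om (L := L) r) :=
  continuous_finsetProd _ fun c _ => ((cont_q_om0 r).comp (continuous_apply c)).neg.rexp

theorem om_pos (r : ℝ) (z : T3 L) : 0 < om r z :=
  Finset.prod_pos fun _ _ => Real.exp_pos _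

theorem om_le_one (r : ℝ) (z : T3 L) : om r z ≤ 1 :=
  Finset.prod_le_one (fun _ _ => (Real.exp_pos _).le) fun _ _ =>
    Real.exp_le_one_iff.2 (neg_nonpos.2 (Real.sqrt_nonneg _))

theorem om_c1 {r : ℝ} (hr : 0 < r) : C1T (om (L := L) r) := fun c =>
  have _ := hr
  D1.of_hd (φ' := fun z => om r z * -q1_om0 L r (z c)) (cont_om_om0 r)
    ((cont_om_om0 r).mul ((cont_q1_om0 r).comp (continuous_apply c)).neg) (hd_om_om0 r c)

theorem om_grad {r : ℝ} (hr : 0 < r) (c : Fin 3) (z : T3 L) :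
    |dd (d1 c) (om r) z| ≤ om r z / r := by
  rw [dd_eq (hd_om_om0 r c z), abs_mul, abs_neg, abs_of_pos (om_pos r z), div_eq_mul_one_div]
  exact mul_le_mul_of_nonneg_left (abs_q1_om0 hr _) (om_pos r z).le

theorem q_lip_om0 {r : ℝ} (hr : 0 < r) (a b : AddCircle L) :
    |q_om0 L r a - q_om0 L r b| ≤ 1 / r * ‖a - b‖ := by
  obtain ⟨s, hs, hs'⟩ : ∃ s : ℝ, (s : AddCircle L) = a - b ∧ |s| = ‖a - b‖ := by
    obtain ⟨x, hx⟩ := QuotientAddGroup.mk_surjective (a - b)
    refine ⟨x - round (L⁻¹ * x) * L, ?_, by rw [← hx, AddCircle.norm_eq]⟩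
    rw [← hx, AddCircle.coe_sub, ← zsmul_eq_mul, AddCircle.coe_zsmul, AddCircle.coe_period,
      smul_zero, sub_zero]
  have he : Dir (fun s : ℝ => (s : AddCircle L)) :=
    ⟨fun s t => AddCircle.coe_add L s t, AddCircle.continuous_mk' L⟩
  have hD : D1 (fun s : ℝ => (s : AddCircle L)) (q_om0 L r) :=
    D1.of_hd (cont_q_om0 r) (cont_q1_om0 r) (hd_q_om0 r)
  have h1 := Convex.norm_image_sub_le_of_norm_hasDerivWithin_le (𝕜 := ℝ) (s := Set.univ)
    (f := fun t : ℝ => q_om0 L r (b + (t : AddCircle L)))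
    (f' := fun t : ℝ => dd (fun s : ℝ => (s : AddCircle L)) (q_om0 L r) (b + (t : AddCircle L)))
    (C := 1 / r) (x := 0) (y := s) (fun t _ => (hD.hasDerivAt he b t).hasDerivWithinAt)
    (fun t _ => by rw [dd_eq (hd_q_om0 r _)]; exact abs_q1_om0 hr _) convex_univ
    (Set.mem_univ _) (Set.mem_univ _)
  simpa [hs, hs'] using h1

/-- `om` changes by a bounded factor at scale `r`. -/
theorem om_le_mul {r : ℝ} (hr : 0 < r) {y z : T3 L} (h : ‖y - z‖ ≤ r) :
    om r y ≤ 21 * om r z := by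
  have h1 : ∀ c, Real.exp (-q_om0 L r (y c)) ≤ Real.exp 1 * Real.exp (-q_om0 L r (z c)) := by
    intro c
    rw [← Real.exp_add, Real.exp_le_exp]
    have h2 : ‖y c - z c‖ ≤ r := (norm_le_pi_norm (y - z) c).trans h
    have h3 := (abs_le.1 (q_lip_om0 hr (y c) (z c))).1
    have h4 : 1 / r * ‖y c - z c‖ ≤ 1 := by
      rw [one_div, inv_mul_le_iff₀ hr]
      linarith
    linarith
  have h2 : om r y ≤ ∏ c, Real.exp 1 * Real.exp (-q_om0 L r (z c)) :=
    Finset.prod_le_prod (fun _ _ => (Real.exp_pos _).le) fun c _ => h1 c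
  rw [Finset.prod_mul_distrib, Finset.prod_const, Finset.card_univ, Fintype.card_fin] at h2
  have h3 : Real.exp 1 ^ 3 ≤ 21 :=
    (pow_le_pow_left₀ (Real.exp_pos 1).le Real.exp_one_lt_d9.le 3).trans (by norm_num)
  exact h2.trans (mul_le_mul_of_nonneg_right h3 (om_pos r z).le)

theorem half_om0 {r : ℝ} (hr : 0 < r) (ε a b : ℝ) (hε : ε ≠ 0) :
    ∫ t in a..b, Real.exp (ε * t / (2 * r)) =
      2 * r / ε * Real.exp (ε * b / (2 * r)) - 2 * r / ε * Real.exp (ε * a / (2 * r)) := by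
  refine intervalIntegral.integral_eq_sub_of_hasDerivAt
    (f := fun t => 2 * r / ε * Real.exp (ε * t / (2 * r))) (fun t _ => ?_)
    (Continuous.intervalIntegrable (by fun_prop) _ _)
  have h := ((((hasDerivAt_id t).const_mul ε).div_const (2 * r)).exp).const_mul (2 * r / ε)
  refine h.congr_deriv ?_
  simp only [id]
  field_simp

theorem circle_om0 {r : ℝ} (hr : 0 < r) :
    ∫ t : AddCircle L, Real.exp (-q_om0 L r t) ≤ 4 * r := by
  have hL : 0 < L := Fact.out
  have hc : Continuous fun t : ℝ => Real.exp (-q_om0 L r (t : AddCircle L)) :=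
    ((cont_q_om0 r).comp (AddCircle.continuous_mk' L)).neg.rexp
  have hb : ∀ t : ℝ, |t| ≤ L / 2 →
      Real.exp (-q_om0 L r (t : AddCircle L)) ≤ Real.exp (-|t| / (2 * r)) := by
    intro t ht
    have h1 : ‖(t : AddCircle L)‖ = |t| :=
      (AddCircle.norm_coe_eq_abs_iff L hL.ne').2 (by rwa [abs_of_pos hL])
    have h2 := le_sig (t : AddCircle L)
    rw [h1] at h2
    rw [Real.exp_le_exp, neg_div, neg_le_neg_iff]
    refine Real.le_sqrt_of_sq_le ?_
    have h3 : (|t| / (2 * r)) ^ 2 = |t| ^ 2 / 4 / r ^ 2 := by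
      field_simp
      ring
    have h4 : |t| ^ 2 / 4 / r ^ 2 ≤ sig L t / r ^ 2 :=
      div_le_div_of_nonneg_right (by nlinarith [sq_nonneg |t|]) (sq_nonneg r)
    linarith
  rw [← AddCircle.intervalIntegral_preimage L (-(L / 2)), show -(L / 2) + L = L / 2 by ring,
    ← intervalIntegral.integral_add_adjacent_intervals (b := 0) (hc.intervalIntegrable _ _)
      (hc.intervalIntegrable _ _)]
  have h1 : ∫ t in (-(L / 2))..0, Real.exp (-q_om0 L r ((t : ℝ) : AddCircle L)) ≤
      ∫ t in (-(L / 2))..0, Real.exp (1 * t / (2 * r)) := by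
    refine intervalIntegral.integral_mono_on (by linarith) (hc.intervalIntegrable _ _)
      (Continuous.intervalIntegrable (by fun_prop) _ _) fun t ht => ?_
    have h2 := hb t (by rw [abs_of_nonpos ht.2]; linarith [ht.1])
    rw [abs_of_nonpos ht.2, neg_neg] at h2
    rwa [one_mul]
  have h2 : ∫ t in (0 : ℝ)..(L / 2), Real.exp (-q_om0 L r ((t : ℝ) : AddCircle L)) ≤
      ∫ t in (0 : ℝ)..(L / 2), Real.exp (-1 * t / (2 * r)) := by
    refine intervalIntegral.integral_mono_on (by linarith) (hc.intervalIntegrable _ _)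
      (Continuous.intervalIntegrable (by fun_prop) _ _) fun t ht => ?_
    have h2 := hb t (by rw [abs_of_nonneg ht.1]; exact ht.2)
    rwa [abs_of_nonneg ht.1, ← neg_one_mul t] at h2
  rw [half_om0 hr 1 _ _ one_ne_zero] at h1
  rw [half_om0 hr (-1) _ _ (by norm_num)] at h2
  simp only [mul_zero, zero_div, Real.exp_zero, mul_one, div_one, div_neg] at h1 h2
  have h3 := mul_pos hr (Real.exp_pos (1 * -(L / 2) / (2 * r)))
  have h4 := mul_pos hr (Real.exp_pos (-1 * (L / 2) / (2 * r)))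
  linarith

theorem integral_om_le {r : ℝ} (hr : 0 < r) : ∫ z : T3 L, om r z ≤ 64 * r ^ 3 := by
  have h := integral_fintype_prod_volume_eq_prod (𝕜 := ℝ) (E := fun _ : Fin 3 => AddCircle L)
    fun _ t => Real.exp (-q_om0 L r t)
  have h0 : 0 ≤ ∫ t : AddCircle L, Real.exp (-q_om0 L r t) :=
    integral_nonneg fun _ => (Real.exp_pos _).le
  rw [Finset.prod_const, Finset.card_univ, Fintype.card_fin] at h
  refine h.le.trans ((pow_le_pow_left₀ h0 (circle_om0 hr) 3).trans (le_of_eq ?_))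
  ring

end Pool.Agent.BoseTail
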