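import Pool.Agent.Lib.MP_dec75e_mp.Euc0
import Pool.Agent.Lib.MP_dec75e_mp.Form

/-! Transfer of compactly supported functions from Euclidean space to the torus. -/

open MeasureTheory Complex Finset Filter Function
open scoped ComplexConjugate Real Topology

noncomputable section

namespace Pool.Agent.BoseTail

variable {L : ℝ} [Fact (0 < L)] {F : Type*} [NormedAddCommGroup F] [NormedSpace ℝ F]

theorem coe_rep (z : T3 L) (c : Fin 3) : ((rep z c : ℝ) : AddCircle L) = z c :=
  AddCircle.coe_equivIco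

theorem rep_mem (z : T3 L) (c : Fin 3) : -(L / 2) ≤ rep z c ∧ rep z c < L / 2 := by
  have h := (AddCircle.equivIco L (-(L / 2)) (z c)).2
  refine ⟨h.1, h.2.trans_eq (by ring)⟩

theorem rep_eq_per0 (z : T3 L) (c : Fin 3) {t : ℝ} (ht : |t| < L / 2)
    (h : (t : AddCircle L) = z c) : rep z c = t := by
  have h1 := abs_lt.1 ht
  have h2 : t ∈ Set.Ico (-(L / 2)) (-(L / 2) + L) := ⟨h1.1.le, by linarith [h1.2]⟩
  have h3 := AddCircle.equivIco_coe_of_mem (p := L) (a := -(L / 2)) h2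
  rw [h] at h3
  exact h3

theorem abs_rep (z : T3 L) (c : Fin 3) : |rep z c| = ‖z c‖ := by
  have hL : 0 < L := Lpos
  have h := rep_mem z c
  rw [← coe_rep z c]
  refine ((AddCircle.norm_coe_eq_abs_iff L hL.ne').2 ?_).symm
  rw [abs_of_pos hL]
  exact abs_le.2 ⟨h.1, h.2.le⟩

theorem norm_le_rep (z : T3 L) : ‖z‖ ≤ ‖rep z‖ := by
  refine (pi_norm_le_iff_of_nonneg (norm_nonneg _)).2 fun c => ?_
  rw [← abs_rep, ← Real.norm_eq_abs]
  exact PiLp.norm_apply_le (rep z) c

theorem norm_le_half (z : T3 L) : ‖z‖ ≤ L / 2 := by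
  have hL : 0 < L := Lpos
  refine (pi_norm_le_iff_of_nonneg (by positivity)).2 fun c => ?_
  have := AddCircle.norm_le_half_period L (x := z c) hL.ne'
  rwa [abs_of_pos hL] at this

theorem abs_rep_lt_per0 {z : T3 L} (hz : ‖z‖ < L / 2) (c : Fin 3) : |rep z c| < L / 2 := by
  rw [abs_rep]
  exact (norm_le_pi_norm z c).trans_lt hz

theorem rep_neg {z : T3 L} (hz : ‖z‖ < L / 2) : rep (-z) = -rep z := by
  ext c
  refine rep_eq_per0 (-z) c ?_ ?_
  · rw [PiLp.neg_apply, abs_neg]
    exact abs_rep_lt_per0 hz c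
  · rw [PiLp.neg_apply, AddCircle.coe_neg, coe_rep, Pi.neg_apply]

theorem continuousAt_rep {z : T3 L} (hz : ‖z‖ < L / 2) : ContinuousAt (rep (L := L)) z := by
  have hL : 0 < L := Lpos
  refine (PiLp.continuous_toLp 2 (fun _ : Fin 3 => ℝ)).continuousAt.comp
    (continuousAt_pi.2 fun c => ?_)
  have hne : z c ≠ ((-(L / 2) : ℝ) : AddCircle L) := by
    intro h
    have h1 : ‖z c‖ < L / 2 := (norm_le_pi_norm z c).trans_lt hz
    have h2 : |(-(L / 2) : ℝ)| = L / 2 := by rw [abs_neg, abs_of_pos (by positivity)]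
    rw [h, (AddCircle.norm_coe_eq_abs_iff L hL.ne').2 (by rw [h2, abs_of_pos hL]), h2] at h1
    exact lt_irrefl _ h1
  exact continuousAt_subtype_val.comp
    ((AddCircle.continuousAt_equivIco L (-(L / 2)) hne).comp (f := fun y : T3 L => y c)
      (continuous_apply c).continuousAt)

theorem rep_add_d1 {z : T3 L} (hz : ‖z‖ < L / 2) (c : Fin 3) :
    ∀ᶠ s in 𝓝 (0 : ℝ), rep (z + d1 c s) = rep z + e3 c s := by
  have hc : Continuous fun s : ℝ => |rep z c + s| := by fun_prop
  have h0 : ∀ᶠ s in 𝓝 (0 : ℝ), |rep z c + s| < L / 2 :=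
    hc.continuousAt.eventually_lt continuousAt_const (by simpa using abs_rep_lt_per0 hz c)
  filter_upwards [h0] with s hs
  ext j
  by_cases hj : j = c
  · subst hj
    have e : (rep z + e3 j s) j = rep z j + s := by simp [e3]
    rw [e]
    refine rep_eq_per0 _ j hs ?_
    rw [AddCircle.coe_add, coe_rep]
    simp [d1]
  · have e : (rep z + e3 c s) j = rep z j := by simp [e3, hj]
    rw [e]
    refine rep_eq_per0 _ j (abs_rep_lt_per0 hz j) ?_
    rw [coe_rep]
    simp [d1, hj]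

omit [NormedSpace ℝ F] in
theorem per_out {u : E3 → F} {s : ℝ} (h : ∀ x, s < ‖x‖ → u x = 0) (z : T3 L) (hz : s < ‖z‖) :
    u (rep z) = 0 := h _ (hz.trans_le (norm_le_rep z))

omit [NormedSpace ℝ F] in
theorem per_ev_per0 {u : E3 → F} {s : ℝ} (h : ∀ x, s < ‖x‖ → u x = 0) {z : T3 L}
    (hz : s < ‖z‖) : ∀ᶠ y in 𝓝 z, u (rep y) = 0 := by
  have : ∀ᶠ y : T3 L in 𝓝 z, s < ‖y‖ :=
    continuousAt_const.eventually_lt continuous_norm.continuousAt hz
  exact this.mono fun y hy => per_out h y hy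

omit [NormedSpace ℝ F] in
theorem continuous_per {u : E3 → F} (hu : Continuous u) {s : ℝ} (h : ∀ x, s < ‖x‖ → u x = 0)
    (hL : 2 * s < L) : Continuous fun z : T3 L => u (rep z) := by
  refine continuous_iff_continuousAt.2 fun z => ?_
  rcases lt_or_ge ‖z‖ (L / 2) with hz | hz
  · exact hu.continuousAt.comp (continuousAt_rep hz)
  · exact (continuousAt_const (y := (0 : F))).congr
      (EventuallyEq.symm (per_ev_per0 h (by linarith)))

theorem dd_per {u : E3 → F} {s : ℝ} (h : ∀ x, s < ‖x‖ → u x = 0) (hL : 2 * s < L) (c : Fin 3)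
    (z : T3 L) : dd (d1 c) (fun z : T3 L => u (rep z)) z = dd (e3 c) u (rep z) := by
  rcases lt_or_ge ‖z‖ (L / 2) with hz | hz
  · exact Filter.EventuallyEq.deriv_eq ((rep_add_d1 hz c).mono fun t ht => congrArg u ht)
  · have hs : s < ‖z‖ := by linarith
    rw [dd_of_eventually_const (dir_d1 c) (per_ev_per0 h hs),
      dd_e3_out h c _ (hs.trans_le (norm_le_rep z))]

theorem D1.per {u : E3 → F} {c : Fin 3} (hu : D1 (e3 c) u) {s : ℝ} (h : ∀ x, s < ‖x‖ → u x = 0)
    (hL : 2 * s < L) : D1 (d1 c) (fun z : T3 L => u (rep z)) := by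
  refine ⟨continuous_per hu.cont h hL, fun z => ?_, ?_⟩
  · rcases lt_or_ge ‖z‖ (L / 2) with hz | hz
    · exact (hu.diff (rep z)).congr_of_eventuallyEq
        ((rep_add_d1 hz c).mono fun t ht => congrArg u ht)
    · have hs : s < ‖z‖ := by linarith
      have ht : Tendsto (fun t : ℝ => z + d1 c t) (𝓝 0) (𝓝 z) := by
        have : Continuous (fun t : ℝ => z + d1 c t) := continuous_const.add (dir_d1 c).cont
        simpa [(dir_d1 (L := L) c).zero] using this.tendsto 0
      exact (differentiableAt_const (0 : F)).congr_of_eventuallyEq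
        (ht.eventually (per_ev_per0 h hs))
  · rw [funext (dd_per h hL c)]
    exact continuous_per hu.cdd (dd_e3_out h c) hL

theorem lapT_per {u : E3 → F} {s : ℝ} (h : ∀ x, s < ‖x‖ → u x = 0) (hL : 2 * s < L) (z : T3 L) :
    lapT (fun z : T3 L => u (rep z)) z = lapE u (rep z) := by
  refine Finset.sum_congr rfl fun c _ => ?_
  rw [funext (dd_per h hL c)]
  exact dd_per (dd_e3_out h c) hL c z

theorem C2T_per {u : E3 → F} (hu : ContDiff ℝ 2 u) {s : ℝ} (h : ∀ x, s < ‖x‖ → u x = 0)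
    (hL : 2 * s < L) : C2T (fun z : T3 L => u (rep z)) := by
  intro c
  refine ⟨(D1_of_contDiff (hu.of_le (by norm_num)) c).per h hL, ?_⟩
  rw [funext (dd_per h hL c)]
  have h1 : ContDiff ℝ 1 (dd (e3 c) u) := by
    have := contDiff_dd (n := 1) (u := u) (by simpa using hu) c
    simpa using this
  exact (D1_of_contDiff h1 c).per (dd_e3_out h c) hL

end Pool.Agent.BoseTail
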