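import Pool.Agent.Lib.MP_dec75e_mp.Euc

/-! The zero-energy scattering solution of a radial potential with compact support. -/

open MeasureTheory Complex Finset Filter Function
open scoped ComplexConjugate Real Topology

noncomputable section

namespace Pool.Agent.BoseTail

/-- The hypotheses on the potential `v`, the scattering solution `f` and the length `a`. -/
structure Scat (v f : E3 → ℝ) (a : ℝ) : Prop where
  cont : Continuous v
  nonneg : ∀ x, 0 ≤ v x
  rad : ∀ x y, ‖x‖ = ‖y‖ → v x = v y
  cpt : HasCompactSupport v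
  c2 : ContDiff ℝ 2 f
  eqn : ∀ x, Laplacian.laplacian f x = v x * f x
  lim : Tendsto (fun x => ‖x‖ * (1 - f x)) (cocompact E3) (𝓝 a)
  pos : 0 < a

variable {v f : E3 → ℝ} {a : ℝ}

theorem Scat.tendsto_one (h : Scat v f a) : Tendsto f (cocompact E3) (𝓝 1) := by
  have hn : Tendsto (fun x : E3 => ‖x‖) (cocompact E3) atTop := tendsto_norm_cocompact_atTop
  have h1 := (h.lim.mul (tendsto_inv_atTop_zero.comp hn)).const_sub 1
  rw [mul_zero, sub_zero] at h1
  refine h1.congr' ?_
  filter_upwards [hn.eventually_gt_atTop 0] with x hx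
  simp only [Function.comp]
  field_simp
  ring

theorem max_principle_rad0 {g : E3 → ℝ} (hg : ContDiff ℝ 2 g)
    (hΔ : ∀ x, 0 < g x → 0 ≤ Laplacian.laplacian g x) {c : ℝ} (hc : c ≤ 0)
    (hlim : Tendsto g (cocompact E3) (𝓝 c)) (x : E3) : g x ≤ 0 :=
  max_principle hg (fun y hy => by rw [← laplacian_eq_lapE hg]; exact hΔ y hy)
    (fun _ hε => hlim.eventually (eventually_le_nhds (lt_of_le_of_lt hc hε))) x

theorem Scat.bounds (h : Scat v f a) (x : E3) : 0 ≤ f x ∧ f x ≤ 1 := by
  constructor
  · have := max_principle_rad0 (g := -f) h.c2.neg (fun y hy => ?_) (c := -1) (by norm_num)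
      h.tendsto_one.neg x
    · simpa using this
    · rw [InnerProductSpace.laplacian_neg, Pi.neg_apply, h.eqn]
      have := mul_nonneg (h.nonneg y) hy.le
      simpa using this
  · have := max_principle_rad0 (g := f - fun _ => 1) (h.c2.sub contDiff_const) (fun y hy => ?_)
      (c := 1 - 1) (by norm_num) (h.tendsto_one.sub_const 1) x
    · simpa using this
    · rw [h.c2.contDiffAt.laplacian_sub contDiffAt_const, InnerProductSpace.laplacian_const, h.eqn]
      have h1 : 0 < f y - 1 := hy
      have := mul_nonneg (h.nonneg y) (by linarith : 0 ≤ f y)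
      simpa using this

theorem Scat.le_rad0 (h : Scat v f a) {x y : E3} (hxy : ‖x‖ = ‖y‖) : f y ≤ f x := by
  set R : E3 ≃ₗᵢ[ℝ] E3 := Submodule.reflection (ℝ ∙ (x - y))ᗮ with hR
  have hRx : R x = y := Submodule.reflection_sub hxy
  have hc : ContDiff ℝ 2 fun z => f (R z) := h.c2.comp R.toContinuousLinearEquiv.contDiff
  have ht : Tendsto (fun z => f (R z)) (cocompact E3) (𝓝 1) :=
    h.tendsto_one.comp R.toHomeomorph.isClosedEmbedding.tendsto_cocompact
  have := max_principle_rad0 (g := (fun z => f (R z)) - f) (hc.sub h.c2) (fun z hz => ?_)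
    (c := 1 - 1) (by norm_num) (ht.sub h.tendsto_one) x
  · have h1 : f (R x) - f x ≤ 0 := this
    rw [hRx] at h1
    linarith
  · rw [hc.contDiffAt.laplacian_sub h.c2.contDiffAt, laplacian_comp_isometry h.c2, h.eqn, h.eqn,
      h.rad (R z) z (R.norm_map z), ← mul_sub]
    exact mul_nonneg (h.nonneg z) (le_of_lt hz)

theorem Scat.radial (h : Scat v f a) {x y : E3} (hxy : ‖x‖ = ‖y‖) : f x = f y :=
  le_antisymm (h.le_rad0 hxy.symm) (h.le_rad0 hxy)

theorem Scat.outside (h : Scat v f a) {R : ℝ} (hR : 0 < R) (hv : ∀ x, R < ‖x‖ → v x = 0) {x : E3}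
    (hx : R < ‖x‖) : f x = 1 - a / ‖x‖ := by
  set e : E3 := EuclideanSpace.single 0 1 with he
  have hne : ∀ r : ℝ, 0 ≤ r → ‖r • e‖ = r := fun r hr => by
    rw [norm_smul, he, PiLp.norm_single, norm_one, mul_one, Real.norm_of_nonneg hr]
  set G : ℝ → ℝ := fun r => f (r • e) with hG
  have hfG : f = fun y => G ‖y‖ := funext fun y => h.radial (hne _ (norm_nonneg y)).symm
  have hG2 : ContDiff ℝ 2 G := h.c2.comp (contDiff_id.smul contDiff_const)
  have hG1 : ContDiff ℝ 1 (deriv G) := ContDiff.deriv' (n := 1) hG2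
  have d1 : ∀ r, HasDerivAt G (deriv G r) r := fun r =>
    (hG2.differentiable (by norm_num) r).hasDerivAt
  have d2 : ∀ r, HasDerivAt (deriv G) (deriv (deriv G) r) r := fun r =>
    (hG1.differentiable (by norm_num) r).hasDerivAt
  have ode : ∀ r ∈ Set.Ioi R, deriv (deriv G) r + 2 / r * deriv G r = 0 := by
    intro r hr
    have hr0 : 0 < r := hR.trans hr
    have hn := hne r hr0.le
    have hx0 : r • e ≠ 0 := fun h0 => by rw [h0, norm_zero] at hn; linarith
    have k := lapE_radial (g := G) (g' := deriv G) hx0 (Eventually.of_forall d1) (d2 _)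
    rw [← hfG, ← laplacian_eq_lapE h.c2, h.eqn, hv _ (by rw [hn]; exact hr), hn, zero_mul] at k
    exact k.symm
  have k1 : ∀ r, HasDerivAt (fun r => G r + r * deriv G r)
      (deriv G r + (1 * deriv G r + r * deriv (deriv G) r)) r := fun r =>
    (d1 r).add ((hasDerivAt_id r).mul (d2 r))
  obtain ⟨α, hα⟩ := isOpen_Ioi.exists_is_const_of_deriv_eq_zero (s := Set.Ioi R)
    isPreconnected_Ioi (f := fun r => G r + r * deriv G r)
    (fun r _ => (k1 r).differentiableAt.differentiableWithinAt) (fun r hr => by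
      have hr0 : 0 < r := hR.trans hr
      have := ode r hr
      rw [(k1 r).deriv, Pi.zero_apply]
      field_simp at this
      linarith)
  have k2 : ∀ r, HasDerivAt (fun r => r * G r - α * r) (1 * G r + r * deriv G r - α * 1) r :=
    fun r => ((hasDerivAt_id r).mul (d1 r)).sub ((hasDerivAt_id r).const_mul α)
  obtain ⟨β, hβ⟩ := isOpen_Ioi.exists_is_const_of_deriv_eq_zero (s := Set.Ioi R)
    isPreconnected_Ioi (f := fun r => r * G r - α * r)
    (fun r _ => (k2 r).differentiableAt.differentiableWithinAt) (fun r hr => by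
      have := hα r hr
      rw [(k2 r).deriv, Pi.zero_apply]
      linarith)
  have hray : Tendsto (fun r : ℝ => r • e) atTop (cocompact E3) := by
    refine tendsto_cocompact_of_tendsto_dist_comp_atTop (0 : E3) ?_
    refine tendsto_id.congr' ?_
    filter_upwards [eventually_ge_atTop (0 : ℝ)] with r hr
    rw [dist_zero_right, hne r hr]; rfl
  have l1 : Tendsto (fun r : ℝ => (1 - α) * r - β) atTop (𝓝 a) := by
    refine (h.lim.comp hray).congr' ?_
    filter_upwards [eventually_gt_atTop R] with r hr
    have := hβ r hr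
    simp only [Function.comp, hne r (hR.trans hr).le]
    simp only [hG] at this
    linarith
  have hα1 : 1 - α = 0 := by
    have l2 := (l1.add_const β).mul tendsto_inv_atTop_zero
    rw [mul_zero] at l2
    refine tendsto_nhds_unique (tendsto_const_nhds (f := atTop (α := ℝ))) (l2.congr' ?_)
    filter_upwards [eventually_gt_atTop (0 : ℝ)] with r hr
    field_simp
    ring
  have hβ1 : -β = a := by
    simp only [hα1, zero_mul, zero_sub] at l1
    exact tendsto_nhds_unique tendsto_const_nhds l1
  have hx0 : 0 < ‖x‖ := hR.trans hx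
  have k3 := hβ ‖x‖ hx
  have k4 : f x = G ‖x‖ := congrFun hfG x
  have k5 : α = 1 := by linarith
  rw [k4, ← hβ1]
  rw [k5] at k3
  field_simp
  linarith

end Pool.Agent.BoseTail
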