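import Pool.Agent.Lib.MP_dec75e_mp.Src0

/-! The source term: substitution of the amplitudes. -/

open MeasureTheory Complex Finset Filter Function
open scoped ComplexConjugate Real Topology

noncomputable section

namespace Pool.Agent.BoseTail

section aux
variable {N : ℕ} {L : ℝ} [Fact (0 < L)]

/-- The contact amplitude of the modulus. -/
def ct_src (o j : Fin N) (w : T3 L → ℝ) (ψ : Cf N L → ℂ) (x : Cf N L) : ℝ :=
  ∫ z, w z * ‖ψ (update x o (x j + z))‖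

theorem ct_bm_src (o j : Fin N) {w : T3 L → ℝ} (hw : Continuous w) {ψ : Cf N L → ℂ}
    (hψ : Continuous ψ) : BM (ct_src o j w ψ) := by
  have h : Continuous (uncurry fun (x : Cf N L) (z : T3 L) =>
      w z * ‖ψ (update x o (x j + z))‖) :=
    (hw.comp continuous_snd).mul (hψ.comp (continuous_sl o j)).norm
  exact BM.integral_right (μ := volume) (BM.of_cont h)

theorem ct_update_src {o j : Fin N} (hj : j ≠ o) (w : T3 L → ℝ) (ψ : Cf N L → ℂ) (x : Cf N L)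
    (y : T3 L) : ct_src o j w ψ (update x o y) = ct_src o j w ψ x := by
  simp only [ct_src, update_idem, update_of_ne hj]

theorem ct_nonneg_src (o j : Fin N) {w : T3 L → ℝ} (hw : ∀ z, 0 ≤ w z) (ψ : Cf N L → ℂ)
    (x : Cf N L) : 0 ≤ ct_src o j w ψ x :=
  integral_nonneg fun z => mul_nonneg (hw z) (norm_nonneg _)

theorem bm_pair_src (s : ℝ) (i j : Fin N) : BM (fun x : Cf N L => nb s (x i - x j)) :=
  (BM_nb s).comp ((measurable_pi_apply i).sub (measurable_pi_apply j))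

/-- Integrating out the indicator. -/
theorem int_nb_src {o j : Fin N} (hj : j ≠ o) {s : ℝ} (hs : 0 ≤ s) {G : Cf N L → ℝ} (hG : BM G)
    (hG0 : ∀ x, 0 ≤ G x) (hGo : ∀ x y, G (update x o y) = G x) :
    ∫ x, nb s (x o - x j) * G x ≤ (2 * s) ^ 3 * ((L ^ 3)⁻¹ * ∫ x, G x) := by
  have h := av_pair (𝕜 := ℝ) (BM_nb s) hG hj.symm hGo
  simp only [RCLike.ofReal_real_eq_id, id] at h
  rw [h]
  have h1 : 0 ≤ ∫ x, G x := integral_nonneg hG0
  have h2 : 0 ≤ (L ^ 3)⁻¹ := inv_nonneg.2 (pow_nonneg (Lpos (L := L)).le 3)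
  have h3 := integral_nb_le (L := L) hs
  calc (L ^ 3)⁻¹ * (∫ z : T3 L, nb s z) * ∫ x, G x
      = (∫ z : T3 L, nb s z) * ((L ^ 3)⁻¹ * ∫ x, G x) := by ring
    _ ≤ _ := mul_le_mul_of_nonneg_right h3 (mul_nonneg h2 h1)

theorem int_ct_src {o j : Fin N} (hj : j ≠ o) {s : ℝ} (hs : 0 ≤ s) {P : Par} {w : T3 L → ℝ}
    (hw : Wp P w) {ψ : Cf N L → ℂ} (hψ : Continuous ψ) {G : Cf N L → ℝ} (hG : BM G)
    (hG0 : ∀ x, 0 ≤ G x) (hGo : ∀ x y, G (update x o y) = G x) :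
    ∫ x, nb s (x o - x j) * (G x * ct_src o j w ψ x ^ 2) ≤
      (2 * s) ^ 3 * (P.W * P.V * ∫ x, nb P.R0 (x o - x j) * G x * ‖ψ x‖ ^ 2) := by
  have h1 := int_nb_src (G := fun x => G x * ct_src o j w ψ x ^ 2) hj hs
    (hG.mul ((ct_bm_src o j hw.cont hψ).pow 2))
    (fun x => mul_nonneg (hG0 x) (sq_nonneg _))
    (fun x y => by rw [hGo, ct_update_src hj])
  have h2 := contact_sq_le hj hw hψ hG hG0 hGo
  exact h1.trans (mul_le_mul_of_nonneg_left h2 (pow_nonneg (by linarith) 3))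

omit [Fact (0 < L)] in
theorem nb_eq_zero_src {s : ℝ} {z : T3 L} (h : s < ‖z‖) : nb s z = 0 := by
  simp only [nb, if_neg (not_le.2 h)]

omit [Fact (0 < L)] in
theorem nb_eq_one_src {s : ℝ} {z : T3 L} (h : ‖z‖ ≤ s) : nb s z = 1 := by
  simp only [nb, if_pos h]

/-- Freezing the kernel at contact. -/
theorem srcj_sub_src {P : Par} {w : T3 L → ℝ} (hw : Wp P w) {κ : T3 L → ℂ} (hκ : C1T κ)
    {δ M₀ M₁ : ℝ} (hδ : 0 < δ) (hR : P.R0 ≤ 1 / δ) (hout : ∀ z, 1 / δ < ‖z‖ → κ z = 0)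
    (hM : ∀ z, ‖κ z‖ ≤ M₀) (hM1 : ∀ c z, ‖dd (d1 c) κ z‖ ≤ M₁)
    {ψ : Cf N L → ℂ} (hψ : Continuous ψ) (o j : Fin N) (x : Cf N L) :
    ‖srcj o j κ w ψ x - κ (x o - x j) * amp o j w ψ x‖ ≤
      3 * M₁ * P.R0 * nb (2 / δ) (x o - x j) * ct_src o j w ψ x := by
  have hM10 : 0 ≤ M₁ := (norm_nonneg _).trans (hM1 0 0)
  have hR0 : 0 ≤ P.R0 := zero_le_one.trans P.hR0
  by_cases hx : ‖x o - x j‖ ≤ 2 / δ
  · rw [nb_eq_one_src hx, mul_one]
    have hsl : Continuous fun z : T3 L => ψ (update x o (x j + z)) :=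
      hψ.comp (continuous_const.update o (continuous_const.add continuous_id))
    have hwc : Continuous fun z : T3 L => (w z : ℂ) := Complex.continuous_ofReal.comp hw.cont
    have hk : Continuous fun z : T3 L => κ (x o - x j - z) :=
      hκ.cont.comp (continuous_const.sub continuous_id)
    have i1 : Integrable (fun z : T3 L => (w z : ℂ) * (κ (x o - x j - z) *
        ψ (update x o (x j + z)))) := (BM.of_cont (hwc.mul (hk.mul hsl))).integrable
    have i2 : Integrable (fun z : T3 L => κ (x o - x j) * ((w z : ℂ) *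
        ψ (update x o (x j + z)))) := (BM.of_cont (continuous_const.mul (hwc.mul hsl))).integrable
    have i3 : Integrable (fun z : T3 L => 3 * M₁ * P.R0 * (w z * ‖ψ (update x o (x j + z))‖)) :=
      (BM.of_cont (continuous_const.mul (hw.cont.mul hsl.norm))).integrable
    unfold srcj amp ct_src
    rw [← integral_const_mul, ← integral_sub i1 i2, ← integral_const_mul]
    refine norm_integral_le_of_norm_le i3 (Eventually.of_forall fun z => ?_)
    have e : (w z : ℂ) * (κ (x o - x j - z) * ψ (update x o (x j + z))) -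
        κ (x o - x j) * ((w z : ℂ) * ψ (update x o (x j + z))) =
        (κ (x o - x j + -z) - κ (x o - x j)) * ((w z : ℂ) * ψ (update x o (x j + z))) := by
      rw [← sub_eq_add_neg]; ring
    rw [e, norm_mul, norm_mul, Complex.norm_real, Real.norm_of_nonneg (hw.nonneg z)]
    by_cases hz : P.R0 ≤ ‖z‖
    · rw [hw.supp z hz]; simp
    · have h1 := hκ.lip hM1 (-z) (x o - x j)
      rw [norm_neg] at h1
      have h2 : 3 * M₁ * ‖z‖ ≤ 3 * M₁ * P.R0 :=
        mul_le_mul_of_nonneg_left (not_le.1 hz).le (by positivity)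
      exact mul_le_mul_of_nonneg_right (h1.trans h2) (mul_nonneg (hw.nonneg z) (norm_nonneg _))
  · have hx' := not_le.1 hx
    have h1 := norm_srcj_le hw hκ.cont hR hout hM hψ o j x
    rw [nb_eq_zero_src hx'] at h1 ⊢
    have h12 : 1 / δ < 2 / δ := div_lt_div_of_pos_right (by norm_num) hδ
    rw [hout _ (h12.trans hx'), zero_mul, sub_zero]
    simpa using h1

omit [Fact (0 < L)] in
/-- The combinatorial inequality for the crowded part. -/
theorem crowd_src {ι : Type*} [DecidableEq ι] (T : Finset ι) (n h t : ι → ℝ) (m : ι → ℝ)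
    (hn : ∀ j, n j * n j = n j) (hn0 : ∀ j, 0 ≤ n j) (hn1 : ∀ j, n j ≤ 1) (hnm : ∀ j, n j ≤ m j)
    (h0 : ∀ j, 0 ≤ h j) (h1 : ∀ j, h j ≤ 1)
    (hh : ∀ j ∈ T, 1 - h j ^ 2 ≤ ∑ l ∈ T.erase j, m l) :
    (∑ j ∈ T, (1 - h j) * (n j * t j)) ^ 2 ≤
      2 * ∑ j ∈ T, ∑ l ∈ T.erase j, n j * m l * t j ^ 2 := by
  have e1 : ∑ j ∈ T, (1 - h j) * (n j * t j) = ∑ j ∈ T, n j * ((1 - h j) * (n j * t j)) := by
    refine sum_congr rfl fun j _ => ?_
    calc (1 - h j) * (n j * t j) = (1 - h j) * ((n j * n j) * t j) := by rw [hn]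
      _ = _ := by ring
  rw [e1]
  refine (sum_mul_sq_le_sq_mul_sq T _ _).trans ?_
  rw [mul_sum, mul_sum]
  refine sum_le_sum fun j hj => ?_
  have e2 : ∑ l ∈ T, n l ^ 2 ≤ 1 + ∑ l ∈ T.erase j, m l := by
    rw [← add_sum_erase T _ hj]
    refine add_le_add ?_ (sum_le_sum fun l _ => ?_)
    · rw [sq, hn]; exact hn1 j
    · rw [sq, hn]; exact hnm l
  have e3 : ∑ l ∈ T.erase j, n j * m l * t j ^ 2 = (∑ l ∈ T.erase j, m l) * (n j * t j ^ 2) := by
    rw [sum_mul]; exact sum_congr rfl fun l _ => by ring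
  have e4 : ((1 - h j) * (n j * t j)) ^ 2 = (1 - h j) ^ 2 * (n j * t j ^ 2) := by
    calc ((1 - h j) * (n j * t j)) ^ 2 = (1 - h j) ^ 2 * ((n j * n j) * t j ^ 2) := by ring
      _ = _ := by rw [hn]
  rw [e3, e4]
  have hm0 : 0 ≤ ∑ l ∈ T.erase j, m l := sum_nonneg fun l _ => (hn0 l).trans (hnm l)
  have a1 : (1 - h j) ^ 2 ≤ ∑ l ∈ T.erase j, m l := by
    have := hh j hj
    nlinarith [h0 j, h1 j]
  have a2 : (1 - h j) ^ 2 ≤ 1 := by nlinarith [h0 j, h1 j]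
  have a3 : 0 ≤ n j * t j ^ 2 := mul_nonneg (hn0 j) (sq_nonneg _)
  have a4 : (∑ l ∈ T, n l ^ 2) * (1 - h j) ^ 2 ≤ 2 * ∑ l ∈ T.erase j, m l := by
    calc (∑ l ∈ T, n l ^ 2) * (1 - h j) ^ 2
        ≤ (1 + ∑ l ∈ T.erase j, m l) * (1 - h j) ^ 2 :=
          mul_le_mul_of_nonneg_right e2 (sq_nonneg _)
      _ = (1 - h j) ^ 2 + (∑ l ∈ T.erase j, m l) * (1 - h j) ^ 2 := by ring
      _ ≤ (∑ l ∈ T.erase j, m l) + (∑ l ∈ T.erase j, m l) * 1 :=
          add_le_add a1 (mul_le_mul_of_nonneg_left a2 hm0)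
      _ = _ := by ring
  calc (∑ l ∈ T, n l ^ 2) * ((1 - h j) ^ 2 * (n j * t j ^ 2))
      = ((∑ l ∈ T, n l ^ 2) * (1 - h j) ^ 2) * (n j * t j ^ 2) := by ring
    _ ≤ (2 * ∑ l ∈ T.erase j, m l) * (n j * t j ^ 2) := mul_le_mul_of_nonneg_right a4 a3
    _ = _ := by ring

theorem norm_add_sq_src (a b : ℂ) : ‖a + b‖ ^ 2 ≤ 2 * ‖a‖ ^ 2 + 2 * ‖b‖ ^ 2 := by
  have h := norm_add_le a b
  have h2 : ‖a + b‖ ^ 2 ≤ (‖a‖ + ‖b‖) ^ 2 := pow_le_pow_left₀ (norm_nonneg _) h 2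
  nlinarith [sq_nonneg (‖a‖ - ‖b‖)]

/-- The pointwise bound. -/
theorem pw_src {P : Par} {B : ℝ} {w : T3 L → ℝ} (hw : Wp P w) {ψ : Cf N L → ℂ}
    (hψ : Continuous ψ) {δ : ℝ} {θ η η' b : T3 L → ℝ} (hc : Cuts B δ θ η η' b) (hδ : 0 < δ)
    (hR : P.R0 ≤ 1 / δ) (o : Fin N) {κ : T3 L → ℂ} {M₀ M₁ : ℝ} (hκ : C1T κ)
    (hout : ∀ z, 1 / δ < ‖z‖ → κ z = 0) (hM : ∀ z, ‖κ z‖ ≤ M₀)
    (hM1 : ∀ c z, ‖dd (d1 c) κ z‖ ≤ M₁) (α : ℂ) (x : Cf N L) :
    ‖cvl o κ (mul (Wi w o) ψ) x - α * ksum o κ (fun j => psit o j θ η b ψ) x‖ ^ 2 ≤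
      4 * M₀ ^ 2 * (∑ j ∈ univ.erase o, ∑ l ∈ (univ.erase o).erase j,
        nb (2 / δ) (x o - x j) * (nb (26 / δ) (x l - x j) * ct_src o j w ψ x ^ 2)) +
      (36 * M₁ ^ 2 * P.R0 ^ 2 *
        (∑ j ∈ univ.erase o, nb (2 / δ) (x o - x j) * (1 * ct_src o j w ψ x ^ 2)) +
      4 * M₀ ^ 2 * ∑ j ∈ univ.erase o, nb (2 / δ) (x o - x j) *
        ‖amp o j w ψ x - α * amp o j (Ub b) ψ x‖ ^ 2) := by
  have hM0 : 0 ≤ M₀ := (norm_nonneg _).trans (hM 0)
  have h12 : 1 / δ < 2 / δ := div_lt_div_of_pos_right (by norm_num) hδ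
  have h28 : 2 / δ < 8 / δ := div_lt_div_of_pos_right (by norm_num) hδ
  have hκn : ∀ z, ‖κ z‖ ≤ M₀ * nb (2 / δ) z := fun z => by
    by_cases hz : ‖z‖ ≤ 2 / δ
    · rw [nb_eq_one_src hz, mul_one]; exact hM z
    · rw [hout z (h12.trans (not_le.1 hz)), norm_zero]
      exact mul_nonneg hM0 (nb_nonneg _ _)
  have e : cvl o κ (mul (Wi w o) ψ) x - α * ksum o κ (fun j => psit o j θ η b ψ) x =
      (∑ j ∈ univ.erase o, ((1 - hol o j η x : ℝ) : ℂ) * srcj o j κ w ψ x) +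
      ∑ j ∈ univ.erase o, (hol o j η x : ℂ) *
        ((srcj o j κ w ψ x - κ (x o - x j) * amp o j w ψ x) +
          κ (x o - x j) * (amp o j w ψ x - α * amp o j (Ub b) ψ x)) := by
    rw [src_eq hκ.cont hw.cont hψ, ksum, mul_sum, ← sum_sub_distrib, ← sum_add_distrib]
    refine sum_congr rfl fun j _ => ?_
    have hθ : κ (x o - x j) * (θ (x o - x j) : ℂ) = κ (x o - x j) := by
      by_cases hz : ‖x o - x j‖ ≤ 2 / δ
      · rw [hc.hθ.one _ hz]; simp
      · rw [hout _ (h12.trans (not_le.1 hz))]; simp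
    simp only [psit, mul, cut]
    push_cast
    linear_combination (-(α * (hol o j η x : ℂ) * amp o j (Ub b) ψ x)) * hθ
  rw [e]
  refine (norm_add_sq_src _ _).trans (add_le_add ?_ ?_)
  · -- crowded part
    have b1 : ‖∑ j ∈ univ.erase o, ((1 - hol o j η x : ℝ) : ℂ) * srcj o j κ w ψ x‖ ≤
        M₀ * ∑ j ∈ univ.erase o, (1 - hol o j η x) *
          (nb (2 / δ) (x o - x j) * ct_src o j w ψ x) := by
      rw [mul_sum]
      refine norm_sum_le_of_le _ fun j _ => ?_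
      have hh : 0 ≤ 1 - hol o j η x := sub_nonneg.2 (hol_le_one hc.hη o j x)
      rw [norm_mul, Complex.norm_real, Real.norm_of_nonneg hh]
      have := mul_le_mul_of_nonneg_left (norm_srcj_le hw hκ.cont hR hout hM hψ o j x) hh
      refine this.trans (le_of_eq ?_)
      unfold ct_src; ring
    have b2 := crowd_src (univ.erase o) (fun j => nb (2 / δ) (x o - x j))
      (fun j => hol o j η x) (fun j => ct_src o j w ψ x) (fun l => nb (3 * (8 / δ)) (x l - x o))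
      (fun j => nb_mul_self _ _) (fun j => nb_nonneg _ _) (fun j => nb_le_one _ _)
      (fun j => by
        rw [nb_sub_comm]
        exact nb_mono (by linarith [div_pos (show (0 : ℝ) < 8 by norm_num) hδ]) _)
      (fun j => hol_nonneg hc.hη o j x) (fun j => hol_le_one hc.hη o j x)
      (fun j _ => one_sub_hol_le hc.hη o j x)
    have b3 : ∑ j ∈ univ.erase o, ∑ l ∈ (univ.erase o).erase j,
        nb (2 / δ) (x o - x j) * nb (3 * (8 / δ)) (x l - x o) * ct_src o j w ψ x ^ 2 ≤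
        ∑ j ∈ univ.erase o, ∑ l ∈ (univ.erase o).erase j,
        nb (2 / δ) (x o - x j) * (nb (26 / δ) (x l - x j) * ct_src o j w ψ x ^ 2) := by
      refine sum_le_sum fun j _ => sum_le_sum fun l _ => ?_
      have h := nb_mul_le (2 / δ) (3 * (8 / δ)) (x o - x j) (x l - x o)
      have e1 : 2 / δ + 3 * (8 / δ) = 26 / δ := by ring
      have e2 : x o - x j + (x l - x o) = x l - x j := by abel
      rw [e1, e2] at h
      rw [← mul_assoc]
      exact mul_le_mul_of_nonneg_right h (sq_nonneg _)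
    have b4 := pow_le_pow_left₀ (norm_nonneg _) b1 2
    rw [mul_pow] at b4
    have b5 := mul_le_mul_of_nonneg_left (b2.trans (mul_le_mul_of_nonneg_left b3 zero_le_two))
      (sq_nonneg M₀)
    linarith
  · -- separated part
    rw [normSq_sum_disj (s := 2 / δ) (x := x) (o := o)]
    · rw [mul_sum, mul_sum, mul_sum, ← sum_add_distrib]
      refine sum_le_sum fun j _ => ?_
      have hh0 := hol_nonneg hc.hη o j x
      have hh1 := hol_le_one hc.hη o j x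
      rw [norm_mul, Complex.norm_real, Real.norm_of_nonneg hh0, mul_pow]
      have c1 := pow_le_pow_left₀ (norm_nonneg _)
        (srcj_sub_src hw hκ hδ hR hout hM hM1 hψ o j x) 2
      have c2 : ‖κ (x o - x j) * (amp o j w ψ x - α * amp o j (Ub b) ψ x)‖ ^ 2 ≤
          (M₀ * nb (2 / δ) (x o - x j) * ‖amp o j w ψ x - α * amp o j (Ub b) ψ x‖) ^ 2 := by
        rw [norm_mul]
        exact pow_le_pow_left₀ (by positivity)
          (mul_le_mul_of_nonneg_right (hκn _) (norm_nonneg _)) 2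
      have c3 := norm_add_sq_src (srcj o j κ w ψ x - κ (x o - x j) * amp o j w ψ x)
        (κ (x o - x j) * (amp o j w ψ x - α * amp o j (Ub b) ψ x))
      have hn := nb_mul_self (2 / δ) (x o - x j)
      have c4 : (3 * M₁ * P.R0 * nb (2 / δ) (x o - x j) * ct_src o j w ψ x) ^ 2 =
          9 * M₁ ^ 2 * P.R0 ^ 2 * (nb (2 / δ) (x o - x j) * (1 * ct_src o j w ψ x ^ 2)) := by
        linear_combination (9 * M₁ ^ 2 * P.R0 ^ 2 * ct_src o j w ψ x ^ 2) * hn
      have c5 : (M₀ * nb (2 / δ) (x o - x j) * ‖amp o j w ψ x - α * amp o j (Ub b) ψ x‖) ^ 2 =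
          M₀ ^ 2 * (nb (2 / δ) (x o - x j) * ‖amp o j w ψ x - α * amp o j (Ub b) ψ x‖ ^ 2) := by
        linear_combination (M₀ ^ 2 * ‖amp o j w ψ x - α * amp o j (Ub b) ψ x‖ ^ 2) * hn
      rw [c4] at c1
      rw [c5] at c2
      have c6 : hol o j η x ^ 2 ≤ 1 := by nlinarith
      have c7 := mul_le_mul_of_nonneg_right c6 (sq_nonneg
        ‖(srcj o j κ w ψ x - κ (x o - x j) * amp o j w ψ x) +
          κ (x o - x j) * (amp o j w ψ x - α * amp o j (Ub b) ψ x)‖)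
      linarith
    · intro j _ hne
      constructor
      · by_contra hx
        have hx' := not_le.1 hx
        have h1 := srcj_sub_src hw hκ hδ hR hout hM hM1 hψ o j x
        rw [nb_eq_zero_src hx', mul_zero, zero_mul, norm_le_zero_iff] at h1
        rw [h1, hout _ (h12.trans hx')] at hne
        simp at hne
      · intro l hl
        by_contra hx
        have hx' : ‖x l - x o‖ ≤ 8 / δ := (not_lt.1 hx).trans h28.le
        have h0 : hol o j η x = 0 := prod_eq_zero hl (hc.hη.zero _ hx')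
        rw [h0] at hne
        simp at hne

end aux

/-- The source is close to the sum of the localised amplitudes. -/
theorem src_sub (P : Par) (C B : ℝ) : ∃ K : ℝ, 1 ≤ K ∧ ∀ (N : ℕ) (L : ℝ) [Fact (0 < L)]
    (w : T3 L → ℝ) (ψ : Cf N L → ℂ) (δ : ℝ) (θ η η' b : T3 L → ℝ), MS P C B w ψ δ θ η η' b →
      ∀ (o : Fin N) (κ : T3 L → ℂ) (M₀ M₁ : ℝ), C1T κ → (∀ z, 1 / δ < ‖z‖ → κ z = 0) →
        (∀ z, ‖κ z‖ ≤ M₀) → (∀ c z, ‖dd (d1 c) κ z‖ ≤ M₁) →
        nsq (fun x => cvl o κ (mul (Wi w o) ψ) x -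
            (4 * π * P.a : ℝ) * ksum o κ (fun j => psit o j θ η b ψ) x) ≤
          K * (M₁ ^ 2 * rho N L / δ ^ 3 + M₀ ^ 2 * rho N L ^ 2 / δ ^ 6 + M₀ ^ 2 / δ ^ 3 *
            S2 o (fun j x => amp o j w ψ x - (4 * π * P.a : ℝ) * amp o j (Ub b) ψ x)) := by
  have hR1 := P.hR0
  have hR0 : 0 < P.R0 := zero_lt_one.trans_le hR1
  have hV := P.hV
  have hW : 0 < P.W := by unfold Par.W; positivity
  set K1 : ℝ := 36 * P.R0 ^ 2 * 64 * (P.W * P.V * (|C| * P.R0 ^ 3)) with hK1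
  set K2 : ℝ := 4 * 64 * (P.W * P.V * (|C| * P.R0 ^ 3 * 26 ^ 3)) with hK2
  have hK10 : 0 ≤ K1 := by positivity
  have hK20 : 0 ≤ K2 := by positivity
  refine ⟨K1 + K2 + 256, by linarith, ?_⟩
  intro N L _ w ψ δ θ η η' b h o κ M₀ M₁ hκ hout hM hM1
  obtain ⟨hρ, -, hR, -, hU, -, hUc⟩ := h.basic
  have hδ := h.δpos
  have hw := h.st.pot.wp
  have hψ := h.st.gs.c1.1
  have hs : 0 ≤ 2 / δ := by positivity
  set α : ℂ := ((4 * π * P.a : ℝ) : ℂ) with hα
  have hD : ∀ j, Continuous fun x => amp o j w ψ x - α * amp o j (Ub b) ψ x := fun j =>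
    (continuous_amp hw.bm hψ o j).sub (continuous_const.mul (continuous_amp hU.bm hψ o j))
  have hct := fun j => (ct_bm_src o j hw.cont hψ).pow 2
  have i1 : ∀ j l : Fin N, Integrable (fun x : Cf N L =>
      nb (2 / δ) (x o - x j) * (nb (26 / δ) (x l - x j) * ct_src o j w ψ x ^ 2)) := fun j l =>
    ((bm_pair_src _ o j).mul ((bm_pair_src _ l j).mul (hct j))).integrable
  have i2 : ∀ j : Fin N, Integrable (fun x : Cf N L =>
      nb (2 / δ) (x o - x j) * (1 * ct_src o j w ψ x ^ 2)) := fun j =>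
    ((bm_pair_src _ o j).mul ((BM.const 1).mul (hct j))).integrable
  have i3 : ∀ j : Fin N, Integrable (fun x : Cf N L =>
      nb (2 / δ) (x o - x j) * ‖amp o j w ψ x - α * amp o j (Ub b) ψ x‖ ^ 2) := fun j =>
    ((bm_pair_src _ o j).mul (BM.of_cont ((hD j).norm.pow 2))).integrable
  have j1 : Integrable (fun x : Cf N L => ∑ j ∈ univ.erase o, ∑ l ∈ (univ.erase o).erase j,
      nb (2 / δ) (x o - x j) * (nb (26 / δ) (x l - x j) * ct_src o j w ψ x ^ 2)) :=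
    integrable_finsetSum _ fun j _ => integrable_finsetSum _ fun l _ => i1 j l
  have j2 : Integrable (fun x : Cf N L => ∑ j ∈ univ.erase o,
      nb (2 / δ) (x o - x j) * (1 * ct_src o j w ψ x ^ 2)) :=
    integrable_finsetSum _ fun j _ => i2 j
  have j3 : Integrable (fun x : Cf N L => ∑ j ∈ univ.erase o,
      nb (2 / δ) (x o - x j) * ‖amp o j w ψ x - α * amp o j (Ub b) ψ x‖ ^ 2) :=
    integrable_finsetSum _ fun j _ => i3 j
  have main := integral_mono_of_nonneg (μ := volume)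
    (Eventually.of_forall fun x => sq_nonneg _)
    ((j1.const_mul (4 * M₀ ^ 2)).add ((j2.const_mul (36 * M₁ ^ 2 * P.R0 ^ 2)).add
      (j3.const_mul (4 * M₀ ^ 2))))
    (Eventually.of_forall fun x => pw_src hw hψ h.cuts hδ hR o hκ hout hM hM1 α x)
  refine main.trans ?_
  rw [integral_add' (j1.const_mul _) ((j2.const_mul _).add (j3.const_mul _)),
    integral_add' (j2.const_mul _) (j3.const_mul _), integral_const_mul, integral_const_mul,
    integral_const_mul, integral_finsetSum _ fun j _ => i2 j,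
    integral_finsetSum _ fun j _ => i3 j,
    integral_finsetSum _ fun j _ => integrable_finsetSum _ fun l _ => i1 j l]
  have h60 := h.h60
  have hδ1 : 0 < 1 / δ := by positivity
  have e60 : 60 / δ = 60 * (1 / δ) := by ring
  have e26 : 26 / δ = 26 * (1 / δ) := by ring
  have e4 : (2 * (2 / δ)) ^ 3 = 64 / δ ^ 3 := by ring
  have hsm : ∀ s, 0 ≤ s → s ≤ 60 / δ → s ^ 2 * rho N L ≤ 1 := fun s h0 h1 =>
    (mul_le_mul_of_nonneg_right (pow_le_pow_left₀ h0 h1 2) hρ.le).trans h60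
  have d2 := h.ap.db.two o P.R0 hR0 (hsm _ (by linarith) (by linarith))
  have d3 := h.ap.db.three o P.R0 (26 / δ) hR0 (by linarith)
    (hsm _ (by linarith) (by linarith))
  have hC := le_abs_self C
  -- the three terms
  have t1 : ∑ j ∈ univ.erase o, ∫ x : Cf N L, ∑ l ∈ (univ.erase o).erase j,
      nb (2 / δ) (x o - x j) * (nb (26 / δ) (x l - x j) * ct_src o j w ψ x ^ 2) ≤
      64 / δ ^ 3 * (P.W * P.V * D3 ψ o P.R0 (26 / δ)) := by
    rw [D3, mul_sum, mul_sum]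
    refine sum_le_sum fun j hj => ?_
    rw [integral_finsetSum _ fun l _ => i1 j l, mul_sum, mul_sum]
    refine sum_le_sum fun l hl => ?_
    have hj' : j ≠ o := ne_of_mem_erase hj
    have hl' : l ≠ o := ne_of_mem_erase (mem_of_mem_erase hl)
    rw [← e4]
    exact int_ct_src (G := fun x => nb (26 / δ) (x l - x j)) hj' hs hw hψ (bm_pair_src _ l j)
      (fun x => nb_nonneg _ _) (fun x y => by simp only [update_of_ne hj', update_of_ne hl'])
  have t2 : ∑ j ∈ univ.erase o, ∫ x : Cf N L,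
      nb (2 / δ) (x o - x j) * (1 * ct_src o j w ψ x ^ 2) ≤
      64 / δ ^ 3 * (P.W * P.V * D2 ψ o P.R0) := by
    rw [D2, mul_sum, mul_sum]
    refine sum_le_sum fun j hj => ?_
    have hj' : j ≠ o := ne_of_mem_erase hj
    rw [← e4]
    have := int_ct_src (G := fun _ => 1) hj' hs hw hψ (BM.const 1)
      (fun x => zero_le_one) (fun x y => rfl)
    simpa only [mul_one] using this
  have t3 : ∑ j ∈ univ.erase o, ∫ x : Cf N L,
      nb (2 / δ) (x o - x j) * ‖amp o j w ψ x - α * amp o j (Ub b) ψ x‖ ^ 2 ≤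
      64 / δ ^ 3 * S2 o (fun j x => amp o j w ψ x - α * amp o j (Ub b) ψ x) := by
    rw [S2, mul_sum, mul_sum]
    refine sum_le_sum fun j hj => ?_
    have hj' : j ≠ o := ne_of_mem_erase hj
    rw [← e4]
    exact int_nb_src (G := fun x => ‖amp o j w ψ x - α * amp o j (Ub b) ψ x‖ ^ 2) hj' hs
      (BM.of_cont ((hD j).norm.pow 2)) (fun x => sq_nonneg _)
      (fun x y => by simp only [amp_update hj'])
  have hS : 0 ≤ S2 o (fun j x => amp o j w ψ x - α * amp o j (Ub b) ψ x) :=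
    mul_nonneg (inv_nonneg.2 (pow_nonneg (Lpos (L := L)).le 3))
      (sum_nonneg fun j _ => integral_nonneg fun x => sq_nonneg _)
  set S := S2 o (fun j x => amp o j w ψ x - α * amp o j (Ub b) ψ x) with hSdef
  have d2' : D2 ψ o P.R0 ≤ |C| * rho N L * P.R0 ^ 3 := d2.trans (by gcongr)
  have d3' : D3 ψ o P.R0 (26 / δ) ≤ |C| * rho N L ^ 2 * P.R0 ^ 3 * (26 / δ) ^ 3 :=
    d3.trans (by gcongr)
  have u1 : 4 * M₀ ^ 2 * (64 / δ ^ 3 * (P.W * P.V * D3 ψ o P.R0 (26 / δ))) ≤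
      K2 * (M₀ ^ 2 * rho N L ^ 2 / δ ^ 6) := by
    calc _ ≤ 4 * M₀ ^ 2 * (64 / δ ^ 3 * (P.W * P.V *
          (|C| * rho N L ^ 2 * P.R0 ^ 3 * (26 / δ) ^ 3))) := by gcongr
      _ = _ := by rw [hK2]; field_simp
  have u2 : 36 * M₁ ^ 2 * P.R0 ^ 2 * (64 / δ ^ 3 * (P.W * P.V * D2 ψ o P.R0)) ≤
      K1 * (M₁ ^ 2 * rho N L / δ ^ 3) := by
    calc _ ≤ 36 * M₁ ^ 2 * P.R0 ^ 2 * (64 / δ ^ 3 * (P.W * P.V *
          (|C| * rho N L * P.R0 ^ 3))) := by gcongr
      _ = _ := by rw [hK1]; ring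
  have u3 : 4 * M₀ ^ 2 * (64 / δ ^ 3 * S) = 256 * (M₀ ^ 2 / δ ^ 3 * S) := by ring
  have v1 := mul_le_mul_of_nonneg_left t1 (show 0 ≤ 4 * M₀ ^ 2 by positivity)
  have v2 := mul_le_mul_of_nonneg_left t2 (show 0 ≤ 36 * M₁ ^ 2 * P.R0 ^ 2 by positivity)
  have v3 := mul_le_mul_of_nonneg_left t3 (show 0 ≤ 4 * M₀ ^ 2 by positivity)
  have x1 : 0 ≤ M₁ ^ 2 * rho N L / δ ^ 3 := by positivity
  have x2 : 0 ≤ M₀ ^ 2 * rho N L ^ 2 / δ ^ 6 := by positivity
  have x3 : 0 ≤ M₀ ^ 2 / δ ^ 3 * S := by positivity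
  generalize M₁ ^ 2 * rho N L / δ ^ 3 = X1 at *
  generalize M₀ ^ 2 * rho N L ^ 2 / δ ^ 6 = X2 at *
  generalize M₀ ^ 2 / δ ^ 3 * S = X3 at *
  have y1 := mul_nonneg hK10 x2
  have y2 := mul_nonneg hK10 x3
  have y3 := mul_nonneg hK20 x1
  have y4 := mul_nonneg hK20 x3
  have e : (K1 + K2 + 256) * (X1 + X2 + X3) = K1 * X1 + K2 * X2 + 256 * X3 +
      (K1 * X2 + K1 * X3 + K2 * X1 + K2 * X3 + 256 * X1 + 256 * X2) := by ring
  rw [e]
  linarith

end Pool.Agent.BoseTail
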