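import Pool.Agent.Lib.MP_dec75e_mp.Hol
import Pool.Agent.Lib.MP_dec75e_mp.Poin

/-! The source term. -/

open MeasureTheory Complex Finset Filter Function
open scoped ComplexConjugate Real Topology

noncomputable section

namespace Pool.Agent.BoseTail

section
variable {N : ℕ} {L : ℝ} [Fact (0 < L)]

/-- The contribution of particle `j` to the source. -/
def srcj (o j : Fin N) (κ : T3 L → ℂ) (w : T3 L → ℝ) (ψ : Cf N L → ℂ) (x : Cf N L) : ℂ :=
  ∫ z, (w z : ℂ) * (κ (x o - x j - z) * ψ (update x o (x j + z)))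

theorem src_eq {κ : T3 L → ℂ} (hκ : Continuous κ) {w : T3 L → ℝ} (hw : Continuous w)
    {ψ : Cf N L → ℂ} (hψ : Continuous ψ) (o : Fin N) (x : Cf N L) :
    cvl o κ (mul (Wi w o) ψ) x = ∑ j ∈ univ.erase o, srcj o j κ w ψ x := by
  have hu : Continuous fun y : T3 L => ψ (update x o y) :=
    hψ.comp (continuous_const.update o continuous_id)
  have h1 : ∀ y : T3 L, κ (x o - y) * mul (Wi w o) ψ (update x o y) =
      ∑ j ∈ univ.erase o, (w (y - x j) : ℂ) * (κ (x o - y) * ψ (update x o y)) := fun y => by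
    have : Wi w o (update x o y) = ∑ j ∈ univ.erase o, w (y - x j) :=
      Finset.sum_congr rfl fun j hj => by
        rw [update_self, update_of_ne (Finset.ne_of_mem_erase hj)]
    rw [mul, this, ← Finset.sum_mul]
    push_cast
    ring
  rw [cvl_eq]
  simp only [h1]
  rw [integral_finsetSum _ fun j _ => cont_integrable (by fun_prop)]
  refine Finset.sum_congr rfl fun j _ => ?_
  rw [srcj, ← integral_add_left_eq_self _ (x j)]
  simp only [add_sub_cancel_left, sub_sub]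

theorem continuous_srcj {κ : T3 L → ℂ} (hκ : Continuous κ) {w : T3 L → ℝ} (hw : Continuous w)
    {ψ : Cf N L → ℂ} (hψ : Continuous ψ) (o j : Fin N) : Continuous (srcj o j κ w ψ) := by
  refine continuous_param (κ := fun z => (w z : ℂ)) (BM.of_cont (by fun_prop))
    (Φ := fun (x : Cf N L) z => κ (x o - x j - z) * ψ (update x o (x j + z))) ?_
  exact (hκ.comp (by fun_prop)).mul (hψ.comp (continuous_sl o j))

theorem norm_srcj_le {P : Par} {w : T3 L → ℝ} (hw : Wp P w) {κ : T3 L → ℂ} (hκ : Continuous κ)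
    {δ M : ℝ} (hR : P.R0 ≤ 1 / δ) (hout : ∀ z, 1 / δ < ‖z‖ → κ z = 0) (hM : ∀ z, ‖κ z‖ ≤ M)
    {ψ : Cf N L → ℂ} (hψ : Continuous ψ) (o j : Fin N) (x : Cf N L) :
    ‖srcj o j κ w ψ x‖ ≤
      M * nb (2 / δ) (x o - x j) * ∫ z, w z * ‖ψ (update x o (x j + z))‖ := by
  have hM0 : 0 ≤ M := (norm_nonneg _).trans (hM 0)
  have hu : Continuous fun z : T3 L => ψ (update x o (x j + z)) :=
    hψ.comp (continuous_const.update o (by fun_prop))
  have hw' := hw.cont
  rw [srcj, ← integral_const_mul]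
  refine norm_integral_le_of_norm_le (cont_integrable (by fun_prop)) (Eventually.of_forall fun z => ?_)
  have h0 : 0 ≤ w z * ‖ψ (update x o (x j + z))‖ := mul_nonneg (hw.nonneg z) (norm_nonneg _)
  rw [norm_mul, norm_mul, Complex.norm_real, Real.norm_of_nonneg (hw.nonneg z), mul_left_comm]
  by_cases h1 : P.R0 ≤ ‖z‖
  · simp [hw.supp z h1]
  refine mul_le_mul_of_nonneg_right ?_ h0
  by_cases h2 : 1 / δ < ‖x o - x j - z‖
  · rw [hout _ h2, norm_zero]
    exact mul_nonneg hM0 (nb_nonneg _ _)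
  · have h3 : ‖x o - x j‖ ≤ 2 / δ := by
      have := norm_add_le (x o - x j - z) z
      rw [sub_add_cancel] at this
      have e : 2 / δ = 1 / δ + 1 / δ := by ring
      push Not at h1 h2
      linarith
    rw [nb, if_pos h3, mul_one]
    exact hM _

omit [Fact (0 < L)] in
/-- Pointwise Cauchy-Schwarz bound for the sum of the contact terms. -/
theorem sq_sum_src0 (o : Fin N) (s : ℝ) (c : Fin N → ℝ) (x : Cf N L) :
    (∑ j ∈ univ.erase o, nb s (x o - x j) * c j) ^ 2 ≤ ∑ j ∈ univ.erase o, nb s (x o - x j) *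
      ((1 + ∑ l ∈ (univ.erase o).erase j, nb (s + s) (x l - x j)) * c j ^ 2) := by
  have h1 : (∑ j ∈ univ.erase o, nb s (x o - x j) * c j) ^ 2 ≤
      (∑ l ∈ univ.erase o, nb s (x o - x l)) * ∑ j ∈ univ.erase o, nb s (x o - x j) * c j ^ 2 := by
    refine Finset.sum_sq_le_sum_mul_sum_of_sq_le_mul _ (fun j _ => nb_nonneg _ _)
      (fun j _ => mul_nonneg (nb_nonneg _ _) (sq_nonneg _)) fun j _ => le_of_eq (by ring)
  refine h1.trans ?_
  rw [Finset.mul_sum]
  refine Finset.sum_le_sum fun j hj => ?_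
  rw [← mul_assoc, ← mul_assoc, mul_comm _ (nb s (x o - x j))]
  refine mul_le_mul_of_nonneg_right ?_ (sq_nonneg _)
  rw [← Finset.add_sum_erase _ _ hj, mul_add, mul_add, nb_mul_self, mul_one, Finset.mul_sum,
    Finset.mul_sum]
  refine add_le_add le_rfl (Finset.sum_le_sum fun l _ => ?_)
  have := nb_mul_le s s (x o - x j) (x l - x o)
  rw [nb_sub_comm s (x l), add_comm (x o - x j), sub_add_sub_cancel] at this
  exact this

theorem bm_nb_src0 (s : ℝ) (i j : Fin N) : BM fun x : Cf N L => nb s (x i - x j) :=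
  (BM_nb s).comp (by fun_prop)

theorem term_src0 {P : Par} {w : T3 L → ℝ} (hw : Wp P w) {ψ : Cf N L → ℂ} (hψ : Continuous ψ)
    {o j : Fin N} (hj : j ≠ o) {s t : ℝ} (hs : 0 ≤ s) :
    BM (fun x : Cf N L => nb s (x o - x j) * ((1 + ∑ l ∈ (univ.erase o).erase j,
      nb t (x l - x j)) * (∫ z, w z * ‖ψ (update x o (x j + z))‖) ^ 2)) ∧
    ∫ x : Cf N L, nb s (x o - x j) * ((1 + ∑ l ∈ (univ.erase o).erase j, nb t (x l - x j)) *
      (∫ z, w z * ‖ψ (update x o (x j + z))‖) ^ 2) ≤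
      (2 * s) ^ 3 * (P.W * P.V * ((∫ x, nb P.R0 (x o - x j) * ‖ψ x‖ ^ 2) +
        ∑ l ∈ (univ.erase o).erase j, ∫ x, nb P.R0 (x o - x j) * nb t (x l - x j) * ‖ψ x‖ ^ 2)) := by
  set G : Cf N L → ℝ := fun x => 1 + ∑ l ∈ (univ.erase o).erase j, nb t (x l - x j) with hG
  have hGb : BM G := (BM.const 1).add (BM.sum fun l _ => bm_nb_src0 t l j)
  have hG0 : ∀ x, 0 ≤ G x := fun x =>
    add_nonneg zero_le_one (Finset.sum_nonneg fun l _ => nb_nonneg _ _)
  have hGo : ∀ x y, G (update x o y) = G x := fun x y => by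
    simp only [hG]
    refine congrArg _ (Finset.sum_congr rfl fun l hl => ?_)
    rw [update_of_ne hj, update_of_ne (Finset.ne_of_mem_erase (Finset.mem_of_mem_erase hl))]
  have hw' := hw.cont
  have hc : BM fun x : Cf N L => ∫ z, w z * ‖ψ (update x o (x j + z))‖ :=
    BM.integral_right (Φ := fun (x : Cf N L) z => w z * ‖ψ (update x o (x j + z))‖)
      (BM.of_cont ((hw'.comp continuous_snd).mul (hψ.comp (continuous_sl o j)).norm))
  have hn : BM fun x => ‖ψ x‖ ^ 2 := BM.of_cont (by fun_prop)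
  refine ⟨(bm_nb_src0 s o j).mul (hGb.mul (hc.pow 2)), ?_⟩
  have h1 := av_pair (BM_nb (L := L) s) (hGb.mul (hc.pow 2)) hj.symm fun x y => by
    rw [hGo]
    simp only [update_idem, update_of_ne hj]
  have h2 := contact_sq_le hj hw hψ hGb hG0 hGo
  have h3 : ∫ x, nb P.R0 (x o - x j) * G x * ‖ψ x‖ ^ 2 =
      (∫ x, nb P.R0 (x o - x j) * ‖ψ x‖ ^ 2) + ∑ l ∈ (univ.erase o).erase j,
        ∫ x, nb P.R0 (x o - x j) * nb t (x l - x j) * ‖ψ x‖ ^ 2 := by
    have hb : ∀ l ∈ (univ.erase o).erase j,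
        BM fun x : Cf N L => nb P.R0 (x o - x j) * nb t (x l - x j) * ‖ψ x‖ ^ 2 := fun l _ =>
      ((bm_nb_src0 _ o j).mul (bm_nb_src0 t l j)).mul hn
    rw [← integral_finsetSum _ fun l hl => (hb l hl).integrable,
      ← integral_add ((bm_nb_src0 _ o j).mul hn).integrable (BM.sum hb).integrable]
    refine integral_congr_ae (Eventually.of_forall fun x => ?_)
    simp only [hG, mul_add, add_mul, mul_one, Finset.mul_sum, Finset.sum_mul]
  have h4 : 0 ≤ (L ^ 3)⁻¹ * ∫ x, G x * (∫ z, w z * ‖ψ (update x o (x j + z))‖) ^ 2 :=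
    mul_nonneg (by have := Lpos (L := L); positivity)
      (integral_nonneg fun x => mul_nonneg (hG0 x) (sq_nonneg _))
  rw [← h3]
  refine h1.le.trans ?_
  rw [RCLike.ofReal_real_eq_id, id, mul_comm (L ^ 3)⁻¹, mul_assoc]
  exact mul_le_mul (integral_nb_le hs) h2 h4 (by positivity)

end

/-- Crude bound for the source. -/
theorem src_crude (P : Par) (C B : ℝ) : ∃ K : ℝ, 1 ≤ K ∧ ∀ (N : ℕ) (L : ℝ) [Fact (0 < L)]
    (w : T3 L → ℝ) (ψ : Cf N L → ℂ) (δ : ℝ) (θ η η' b : T3 L → ℝ), MS P C B w ψ δ θ η η' b →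
      ∀ (o : Fin N) (κ : T3 L → ℂ) (M : ℝ), Continuous κ → (∀ z, 1 / δ < ‖z‖ → κ z = 0) →
        (∀ z, ‖κ z‖ ≤ M) →
        nsq (cvl o κ (mul (Wi w o) ψ)) ≤ K * M ^ 2 * rho N L / δ ^ 3 := by
  have hR0 := P.hR0
  have hV := P.hV
  have hW : 0 ≤ P.W := by unfold Par.W; positivity
  have hK : 0 ≤ 64 * (P.W * P.V * (65 * |C| * P.R0 ^ 3)) := by positivity
  refine ⟨1 + 64 * (P.W * P.V * (65 * |C| * P.R0 ^ 3)), by linarith, ?_⟩
  intro N L _ w ψ δ θ η η' b h o κ M hκ hout hM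
  obtain ⟨hρ, -, hR, -⟩ := h.basic
  have hδ := h.δpos
  have hw := h.st.pot.wp
  have hψ := h.st.gs.c1.1
  have hM0 : 0 ≤ M := (norm_nonneg _).trans (hM 0)
  have hs : (0 : ℝ) ≤ 2 / δ := by positivity
  have hT := fun j (hj : j ∈ univ.erase o) =>
    term_src0 hw hψ (Finset.ne_of_mem_erase hj) (t := 2 / δ + 2 / δ) hs
  have h1 : nsq (cvl o κ (mul (Wi w o) ψ)) ≤ M ^ 2 * ∑ j ∈ univ.erase o, ∫ x : Cf N L,
      nb (2 / δ) (x o - x j) * ((1 + ∑ l ∈ (univ.erase o).erase j,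
        nb (2 / δ + 2 / δ) (x l - x j)) * (∫ z, w z * ‖ψ (update x o (x j + z))‖) ^ 2) := by
    rw [← integral_finsetSum _ fun j hj => (hT j hj).1.integrable, ← integral_const_mul]
    refine integral_mono_of_nonneg (Eventually.of_forall fun x => sq_nonneg _)
      ((BM.sum fun j hj => (hT j hj).1).integrable.const_mul _) (Eventually.of_forall fun x => ?_)
    refine le_trans ?_ (mul_le_mul_of_nonneg_left (sq_sum_src0 o (2 / δ) _ x) (sq_nonneg M))
    beta_reduce
    rw [← mul_pow, src_eq hκ hw.cont hψ, Finset.mul_sum]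
    refine pow_le_pow_left₀ (norm_nonneg _) ((norm_sum_le _ _).trans
      (Finset.sum_le_sum fun j _ => ?_)) 2
    rw [← mul_assoc]
    exact norm_srcj_le hw hκ hR hout hM hψ o j x
  have h2 := Finset.sum_le_sum fun j hj => (hT j hj).2
  rw [← Finset.mul_sum, ← Finset.mul_sum, Finset.sum_add_distrib] at h2
  have hsq : ∀ t : ℝ, 0 ≤ t → t ≤ 60 / δ → t ^ 2 * rho N L ≤ 1 := fun t h0 ht =>
    (mul_le_mul_of_nonneg_right (pow_le_pow_left₀ h0 ht 2) hρ.le).trans h.h60
  have hi : 0 < 1 / δ := by positivity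
  have e2 : 2 / δ = 2 * (1 / δ) := by ring
  have e60 : 60 / δ = 60 * (1 / δ) := by ring
  have h3 := h.ap.db.two o P.R0 (by linarith) (hsq _ (by linarith) (by linarith))
  have h4 := h.ap.db.three o P.R0 (2 / δ + 2 / δ) (by linarith) (by linarith)
    (hsq _ (by linarith) (by linarith))
  have h5 : C * rho N L * P.R0 ^ 3 ≤ |C| * rho N L * P.R0 ^ 3 := by
    have := le_abs_self C
    gcongr
  have h6 : C * rho N L ^ 2 * P.R0 ^ 3 * (2 / δ + 2 / δ) ^ 3 ≤ 64 * (|C| * rho N L * P.R0 ^ 3) := by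
    calc _ ≤ |C| * (rho N L * δ ^ 3) * P.R0 ^ 3 * (2 / δ + 2 / δ) ^ 3 := by
          have := le_abs_self C
          have h7 : rho N L ^ 2 ≤ rho N L * δ ^ 3 := by
            rw [sq]; exact mul_le_mul_of_nonneg_left h.hρ hρ.le
          refine mul_le_mul_of_nonneg_right (mul_le_mul_of_nonneg_right ?_ (by positivity))
            (by positivity)
          exact mul_le_mul this h7 (by positivity) (abs_nonneg C)
      _ = _ := by field_simp; ring
  have h7 : D2 ψ o P.R0 + D3 ψ o P.R0 (2 / δ + 2 / δ) ≤ 65 * |C| * P.R0 ^ 3 * rho N L := by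
    linarith
  calc _ ≤ M ^ 2 * ((2 * (2 / δ)) ^ 3 * (P.W * P.V * (65 * |C| * P.R0 ^ 3 * rho N L))) := by
        refine h1.trans (mul_le_mul_of_nonneg_left (h2.trans ?_) (sq_nonneg M))
        exact mul_le_mul_of_nonneg_left (mul_le_mul_of_nonneg_left h7 (by positivity))
          (by positivity)
    _ = 64 * (P.W * P.V * (65 * |C| * P.R0 ^ 3)) * M ^ 2 * rho N L / δ ^ 3 := by
        field_simp
        ring
    _ ≤ _ := by gcongr; linarith

end Pool.Agent.BoseTail
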