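import Pool.Agent.Lib.MP_dec75e_mp.Crowd
import Pool.Agent.Lib.MP_dec75e_mp.Ims

/-! Local superstability. -/

open MeasureTheory Complex Finset Filter Function
open scoped ComplexConjugate Real Topology

noncomputable section

namespace Pool.Agent.BoseTail

section
variable {N : ℕ} {L : ℝ} [Fact (0 < L)]

/-- The partition of unity indexed by the set of particles that are declared inside. -/
def part (ϑ : T3 L → ℝ) (y : T3 L) (S : Finset (Fin N)) (x : Cf N L) : ℝ :=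
  (∏ i ∈ S, Real.sin (ϑ (x i - y))) * ∏ i ∈ Sᶜ, Real.cos (ϑ (x i - y))

omit [Fact (0 < L)] in
theorem sum_prod_stab (a b : Fin N → ℝ) :
    ∑ S : Finset (Fin N), (∏ i ∈ S, a i) * ∏ i ∈ Sᶜ, b i = ∏ i, (a i + b i) := by
  rw [Finset.prod_add, Finset.powerset_univ]
  refine Finset.sum_congr rfl fun S _ => ?_
  rw [Finset.compl_eq_univ_sdiff]

omit [Fact (0 < L)] in
theorem prod_ite_stab (a b : Fin N → ℝ) (S : Finset (Fin N)) :
    (∏ i ∈ S, a i) * ∏ i ∈ Sᶜ, b i = ∏ i, (if i ∈ S then a i else b i) := by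
  rw [← Finset.prod_mul_prod_compl S]
  congr 1
  · exact Finset.prod_congr rfl fun i hi => by rw [if_pos hi]
  · exact Finset.prod_congr rfl fun i hi => by rw [if_neg (Finset.mem_compl.1 hi)]

omit [Fact (0 < L)] in
theorem sum_prod_ite_stab (a b : Fin N → ℝ) :
    ∑ S : Finset (Fin N), ∏ i, (if i ∈ S then a i else b i) = ∏ i, (a i + b i) := by
  rw [← sum_prod_stab]
  exact Finset.sum_congr rfl fun S _ => (prod_ite_stab a b S).symm

omit [Fact (0 < L)] in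
theorem c1t_sin_stab {ϑ : T3 L → ℝ} (h : C1T ϑ) : C1T (fun z => Real.sin (ϑ z)) := fun c =>
  D1.comp (g := Real.sin) (g' := Real.cos) (dir_d1 c) (h c) (fun _ => Real.hasDerivAt_sin _)
    (Real.continuous_cos.comp h.cont)

omit [Fact (0 < L)] in
theorem c1t_cos_stab {ϑ : T3 L → ℝ} (h : C1T ϑ) : C1T (fun z => Real.cos (ϑ z)) := fun c =>
  D1.comp (g := Real.cos) (g' := fun t => -Real.sin t) (dir_d1 c) (h c)
    (fun _ => Real.hasDerivAt_cos _) (Real.continuous_sin.comp h.cont).neg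

omit [Fact (0 < L)] in
theorem part_c1 {ϑ : T3 L → ℝ} (h : C1T ϑ) (y : T3 L) (S : Finset (Fin N)) :
    IsC1 (part ϑ y S) :=
  IsC1.mul' (IsC1.prod fun i _ => (c1t_sin_stab h).one i y)
    (IsC1.prod fun i _ => (c1t_cos_stab h).one i y)

omit [Fact (0 < L)] in
theorem part_sq_stab (ϑ : T3 L → ℝ) (y : T3 L) (S : Finset (Fin N)) (x : Cf N L) :
    part ϑ y S x ^ 2 =
      (∏ i ∈ S, Real.sin (ϑ (x i - y)) ^ 2) * ∏ i ∈ Sᶜ, Real.cos (ϑ (x i - y)) ^ 2 := by
  rw [part, mul_pow, Finset.prod_pow, Finset.prod_pow]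

omit [Fact (0 < L)] in
theorem part_sum (ϑ : T3 L → ℝ) (y : T3 L) (x : Cf N L) :
    ∑ S : Finset (Fin N), part ϑ y S x ^ 2 = 1 := by
  simp only [part_sq_stab]
  rw [sum_prod_stab]
  simp

omit [Fact (0 < L)] in
theorem part_sum_mem (ϑ : T3 L → ℝ) (y : T3 L) (i : Fin N) (x : Cf N L) :
    ∑ S : Finset (Fin N), (if i ∈ S then part ϑ y S x ^ 2 else 0) =
      Real.sin (ϑ (x i - y)) ^ 2 := by
  have h1 : ∀ S : Finset (Fin N), (if i ∈ S then part ϑ y S x ^ 2 else 0) =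
      (∏ j ∈ S, Real.sin (ϑ (x j - y)) ^ 2) *
        ∏ j ∈ Sᶜ, (if j = i then 0 else Real.cos (ϑ (x j - y)) ^ 2) := by
    intro S
    split_ifs with hi
    · rw [part_sq_stab]
      congr 1
      refine Finset.prod_congr rfl fun j hj => ?_
      rw [if_neg]
      rintro rfl
      exact Finset.mem_compl.1 hj hi
    · rw [Finset.prod_eq_zero (s := Sᶜ)
        (f := fun j => if j = i then 0 else Real.cos (ϑ (x j - y)) ^ 2)
        (Finset.mem_compl.2 hi) (if_pos rfl), mul_zero]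
  simp only [h1]
  rw [sum_prod_stab, ← Finset.mul_prod_erase _ _ (Finset.mem_univ i), if_pos rfl, add_zero,
    Finset.prod_eq_one, mul_one]
  intro j hj
  rw [if_neg (Finset.ne_of_mem_erase hj)]
  simp

omit [Fact (0 < L)] in
theorem dd_part_stab {ϑ : T3 L → ℝ} (h : C1T ϑ) (y : T3 L) (S : Finset (Fin N)) (i : Fin N)
    (c : Fin 3) (x : Cf N L) :
    dd (dir i c) (part ϑ y S) x =
      (if i ∈ S then Real.cos (ϑ (x i - y)) else -Real.sin (ϑ (x i - y))) *
        dd (d1 c) ϑ (x i - y) *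
        ∏ j ∈ univ.erase i,
          (if j ∈ S then Real.sin (ϑ (x j - y)) else Real.cos (ϑ (x j - y))) := by
  apply dd_eq
  have e : (fun s : ℝ => part ϑ y S (x + dir i c s)) = fun s : ℝ =>
      (if i ∈ S then Real.sin (ϑ (x i - y + d1 c s)) else Real.cos (ϑ (x i - y + d1 c s))) *
        ∏ j ∈ univ.erase i,
          (if j ∈ S then Real.sin (ϑ (x j - y)) else Real.cos (ϑ (x j - y))) := by
    funext s
    rw [part, prod_ite_stab, ← Finset.mul_prod_erase _ _ (Finset.mem_univ i), add_dir_self,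
      add_sub_right_comm]
    congr 1
    refine Finset.prod_congr rfl fun j hj => ?_
    rw [add_dir_ne x (Finset.ne_of_mem_erase hj)]
  rw [e]
  apply HasDerivAt.mul_const
  have h0 := (h c).hd (x i - y)
  have hz : x i - y + d1 c 0 = x i - y := by rw [(dir_d1 c).zero, add_zero]
  split_ifs with hi
  · have := h0.sin
    rwa [hz] at this
  · have := h0.cos
    rwa [hz] at this

omit [Fact (0 < L)] in
theorem part_grad {ϑ : T3 L → ℝ} (h : C1T ϑ) (y : T3 L) (i : Fin N) (x : Cf N L) :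
    ∑ S : Finset (Fin N), gP i (part ϑ y S) x = gT ϑ (x i - y) := by
  simp only [gP, gT]
  rw [Finset.sum_comm]
  refine Finset.sum_congr rfl fun c _ => ?_
  have h1 : ∀ S : Finset (Fin N), ‖dd (dir i c) (part ϑ y S) x‖ ^ 2 =
      ‖dd (d1 c) ϑ (x i - y)‖ ^ 2 * ∏ j, (if j ∈ S then
        (if j = i then Real.cos (ϑ (x j - y)) ^ 2 else Real.sin (ϑ (x j - y)) ^ 2) else
        (if j = i then Real.sin (ϑ (x j - y)) ^ 2 else Real.cos (ϑ (x j - y)) ^ 2)) := by
    intro S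
    rw [dd_part_stab h, Real.norm_eq_abs, Real.norm_eq_abs, sq_abs, sq_abs,
      ← Finset.mul_prod_erase _ _ (Finset.mem_univ i), mul_pow, mul_pow, ← Finset.prod_pow,
      if_pos rfl, if_pos rfl]
    have h2 : ∏ j ∈ univ.erase i,
        (if j ∈ S then Real.sin (ϑ (x j - y)) else Real.cos (ϑ (x j - y))) ^ 2 =
        ∏ j ∈ univ.erase i, (if j ∈ S then
        (if j = i then Real.cos (ϑ (x j - y)) ^ 2 else Real.sin (ϑ (x j - y)) ^ 2) else
        (if j = i then Real.sin (ϑ (x j - y)) ^ 2 else Real.cos (ϑ (x j - y)) ^ 2)) := by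
      refine Finset.prod_congr rfl fun j hj => ?_
      rw [if_neg (Finset.ne_of_mem_erase hj), if_neg (Finset.ne_of_mem_erase hj)]
      split_ifs <;> rfl
    rw [h2]
    split_ifs <;> ring
  simp only [h1]
  rw [← Finset.mul_sum, sum_prod_ite_stab, Finset.prod_eq_one, mul_one]
  intro j _
  split_ifs <;> simp

omit [Fact (0 < L)] in
theorem norm_mul_sq_stab (F : Cf N L → ℝ) (φ : Cf N L → ℂ) (x : Cf N L) :
    ‖mul F φ x‖ ^ 2 = F x ^ 2 * ‖φ x‖ ^ 2 := by
  rw [mul, norm_mul, Complex.norm_real, Real.norm_eq_abs, mul_pow, sq_abs]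

theorem piece_stab {P : Par} {w : T3 L → ℝ} {ψ : Cf N L → ℂ} (hw : Wp P w) (h : GS w ψ)
    {G : Fin N → Cf N L → ℝ} (hG : ∀ i, BM (G i))
    (hD : ∀ (i : Fin N) (φ : Cf N L → ℂ), IsC1 φ →
      ∫ x, G i x * ‖φ x‖ ^ 2 ≤ (∫ x, gP i φ x) + ∫ x, Wi w i x * ‖φ x‖ ^ 2)
    (S : Finset (Fin N)) {χ : Cf N L → ℂ} (hχ : IsC1 χ) :
    ∑ i ∈ S, ∫ x, (G i x / 2 - rho N L * P.W) * ‖χ x‖ ^ 2 ≤
      ES w univ χ - ES w univ ψ * nsq χ := by
  have h1 := ES_compl_add_le hw.cont hw.nonneg hw.even S hχ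
  have h2 := QS_nonneg hw h Sᶜ hχ
  rw [QS, lam, compl_compl] at h2
  have hn : BM (fun x => ‖χ x‖ ^ 2) := BM.of_cont (hχ.1.norm.pow 2)
  have h3 : ∀ i, ∫ x, (G i x / 2 - rho N L * P.W) * ‖χ x‖ ^ 2 =
      (1 / 2) * (∫ x, G i x * ‖χ x‖ ^ 2) - rho N L * P.W * nsq χ := by
    intro i
    rw [nsq, ← integral_const_mul, ← integral_const_mul, ← integral_sub]
    · refine integral_congr_ae (Eventually.of_forall fun x => ?_)
      simp only; ring
    · exact ((hG i).mul hn).integrable.const_mul _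
    · exact hn.integrable.const_mul _
  simp only [h3]
  rw [Finset.sum_sub_distrib, ← Finset.mul_sum, Finset.sum_const, nsmul_eq_mul]
  have h4 : ∑ i ∈ S, ∫ x, G i x * ‖χ x‖ ^ 2 ≤
      ∑ i ∈ S, ((∫ x, gP i χ x) + ∫ x, Wi w i x * ‖χ x‖ ^ 2) :=
    Finset.sum_le_sum fun i _ => hD i χ hχ
  nlinarith

/-- Splitting into inside and outside particles. -/
theorem inout {P : Par} {w : T3 L → ℝ} {ψ : Cf N L → ℂ} (hw : Wp P w) (h : GS w ψ)
    {ϑ : T3 L → ℝ} (hϑ : C1T ϑ) (y : T3 L) {G : Fin N → Cf N L → ℝ} (hG : ∀ i, BM (G i))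
    (hD : ∀ (i : Fin N) (φ : Cf N L → ℂ), IsC1 φ →
      ∫ x, G i x * ‖φ x‖ ^ 2 ≤ (∫ x, gP i φ x) + ∫ x, Wi w i x * ‖φ x‖ ^ 2)
    {φ : Cf N L → ℂ} (hφ : IsC1 φ) :
    ∫ x, (∑ i, (Real.sin (ϑ (x i - y)) ^ 2 * (G i x / 2 - rho N L * P.W) -
        gT ϑ (x i - y) / 2)) * ‖φ x‖ ^ 2 ≤
      ES w univ φ - ES w univ ψ * nsq φ := by
  have hF : ∀ S : Finset (Fin N), IsC1 (part ϑ y S : Cf N L → ℝ) := fun S => part_c1 hϑ y S
  have h1 := ims_family (S := univ) hw.cont (univ : Finset (Finset (Fin N)))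
    (F := fun S => part ϑ y S) (fun S _ => hF S) (fun x => part_sum ϑ y x) hφ
  have h2 := nsq_family (univ : Finset (Finset (Fin N)))
    (F := fun S => part ϑ y S) (fun S _ => (hF S).1) (fun x => part_sum ϑ y x) hφ.1
  simp only [part_grad hϑ] at h1
  have h3 : ∑ S : Finset (Fin N), ∑ i ∈ S,
      ∫ x, (G i x / 2 - rho N L * P.W) * ‖mul (part ϑ y S) φ x‖ ^ 2 ≤
      ∑ S : Finset (Fin N), (ES w univ (mul (part ϑ y S) φ) -
        ES w univ ψ * nsq (mul (part ϑ y S) φ)) :=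
    Finset.sum_le_sum fun S _ => piece_stab hw h hG hD S ((hF S).mul hφ)
  rw [Finset.sum_sub_distrib, ← Finset.mul_sum, h1, h2] at h3
  have hn : BM (fun x => ‖φ x‖ ^ 2) := BM.of_cont (hφ.1.norm.pow 2)
  have hA : ∀ i, BM (fun x => G i x / 2 - rho N L * P.W) := fun i => by
    simp only [div_eq_mul_inv]
    exact ((hG i).mul (BM.const _)).sub (BM.const _)
  have hs : ∀ i, BM (fun x : Cf N L => Real.sin (ϑ (x i - y)) ^ 2) := fun i =>
    BM.of_cont (((c1t_sin_stab hϑ).one i y).1.pow 2)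
  have hg : ∀ i, BM (fun x : Cf N L => gT ϑ (x i - y)) := fun i =>
    BM.of_cont (hϑ.cont_gT.comp ((continuous_apply i).sub continuous_const))
  have h4 : ∑ S : Finset (Fin N), ∑ i ∈ S,
      ∫ x, (G i x / 2 - rho N L * P.W) * ‖mul (part ϑ y S) φ x‖ ^ 2 =
      ∑ i, ∫ x, Real.sin (ϑ (x i - y)) ^ 2 * (G i x / 2 - rho N L * P.W) * ‖φ x‖ ^ 2 := by
    have e1 : ∀ S : Finset (Fin N), ∑ i ∈ S,
        ∫ x, (G i x / 2 - rho N L * P.W) * ‖mul (part ϑ y S) φ x‖ ^ 2 =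
        ∑ i, ∫ x, (if i ∈ S then part ϑ y S x ^ 2 else 0) *
          ((G i x / 2 - rho N L * P.W) * ‖φ x‖ ^ 2) := by
      intro S
      rw [← Finset.sum_subset (Finset.subset_univ S)]
      · refine Finset.sum_congr rfl fun i hi => ?_
        refine integral_congr_ae (Eventually.of_forall fun x => ?_)
        simp only [if_pos hi, norm_mul_sq_stab]; ring
      · intro i _ hi
        simp only [if_neg hi, zero_mul, integral_zero]
    simp only [e1]
    rw [Finset.sum_comm]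
    refine Finset.sum_congr rfl fun i _ => ?_
    rw [← integral_finsetSum]
    · refine integral_congr_ae (Eventually.of_forall fun x => ?_)
      simp only
      rw [← Finset.sum_mul, part_sum_mem]; ring
    · intro S _
      refine BM.integrable (BM.mul ?_ ((hA i).mul hn))
      by_cases hi : i ∈ S
      · simp only [if_pos hi]
        exact BM.of_cont ((hF S).1.pow 2)
      · simp only [if_neg hi]
        exact BM.const _
  rw [h4] at h3
  have h5 : ∫ x, (∑ i, (Real.sin (ϑ (x i - y)) ^ 2 * (G i x / 2 - rho N L * P.W) -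
        gT ϑ (x i - y) / 2)) * ‖φ x‖ ^ 2 =
      ∑ i, ((∫ x, Real.sin (ϑ (x i - y)) ^ 2 * (G i x / 2 - rho N L * P.W) * ‖φ x‖ ^ 2) -
        (1 / 2) * ∫ x, gT ϑ (x i - y) * ‖φ x‖ ^ 2) := by
    simp only [Finset.sum_mul]
    rw [integral_finsetSum]
    · refine Finset.sum_congr rfl fun i _ => ?_
      rw [← integral_const_mul, ← integral_sub]
      · refine integral_congr_ae (Eventually.of_forall fun x => ?_)
        simp only; ring
      · exact (((hs i).mul (hA i)).mul hn).integrable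
      · exact ((hg i).mul hn).integrable.const_mul _
    · intro i _
      refine BM.integrable (BM.mul (BM.sub ((hs i).mul (hA i)) ?_) hn)
      simp only [div_eq_mul_inv]
      exact (hg i).mul (BM.const _)
  rw [h5, Finset.sum_sub_distrib, ← Finset.mul_sum]
  linarith

theorem c1t_sqrt_om_stab {r : ℝ} (hr : 0 < r) : C1T (fun z : T3 L => √(om r z)) := fun c =>
  D1.comp (g := fun t => √t) (g' := fun t => 1 / (2 * √t)) (dir_d1 c) (om_c1 hr c)
    (fun z => Real.hasDerivAt_sqrt (om_pos r z).ne')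
    (continuous_const.div (continuous_const.mul (om_c1 hr).cont.sqrt)
      fun z => (mul_pos two_pos (Real.sqrt_pos.2 (om_pos r z))).ne')

theorem gT_sqrt_om_stab {r : ℝ} (hr : 0 < r) (z : T3 L) :
    gT (fun z : T3 L => √(om r z)) z ≤ 3 / 4 * (om r z / r ^ 2) := by
  have ho := om_pos r z
  have h1 : ∀ c, ‖dd (d1 c) (fun z : T3 L => √(om r z)) z‖ ^ 2 ≤ 1 / 4 * (om r z / r ^ 2) := by
    intro c
    rw [dd_comp (g := fun t => √t) (g' := fun t => 1 / (2 * √t)) (dir_d1 c) (om_c1 hr c)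
      (fun z => Real.hasDerivAt_sqrt (om_pos r z).ne'), Real.norm_eq_abs, sq_abs, mul_pow]
    have h2 : dd (d1 c) (om r) z ^ 2 ≤ (om r z / r) ^ 2 := by
      rw [← sq_abs]
      exact pow_le_pow_left₀ (abs_nonneg _) (om_grad hr c z) 2
    have h3 : (1 / (2 * √(om r z))) ^ 2 = 1 / (4 * om r z) := by
      rw [div_pow, mul_pow, Real.sq_sqrt ho.le]; norm_num
    rw [h3]
    calc 1 / (4 * om r z) * dd (d1 c) (om r) z ^ 2 ≤ 1 / (4 * om r z) * (om r z / r) ^ 2 := by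
          gcongr
      _ = 1 / 4 * (om r z / r ^ 2) := by field_simp
  calc gT (fun z : T3 L => √(om r z)) z ≤ ∑ _c : Fin 3, 1 / 4 * (om r z / r ^ 2) :=
        Finset.sum_le_sum fun c _ => h1 c
    _ = 3 / 4 * (om r z / r ^ 2) := by simp; ring

theorem sin_sqrt_stab {t : ℝ} (h0 : 0 < t) (h1 : t ≤ 1) :
    t / 2 ≤ Real.sin √t ^ 2 ∧ Real.sin √t ^ 2 ≤ t := by
  have hs : 0 < √t := Real.sqrt_pos.2 h0
  have hs1 : √t ≤ 1 := Real.sqrt_le_one.2 h1
  have hq : √t ^ 2 = t := Real.sq_sqrt h0.le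
  constructor
  · have h2 := Real.sin_gt_sub_cube hs
    have h5 : √t ^ 3 ≤ √t := by nlinarith
    have h3 : 3 / 4 * √t ≤ Real.sin √t := by linarith
    have h4 : (3 / 4 * √t) ^ 2 ≤ Real.sin √t ^ 2 := pow_le_pow_left₀ (by positivity) h3 2
    nlinarith
  · calc Real.sin √t ^ 2 ≤ √t ^ 2 := Real.sin_sq_le_sq
      _ = t := hq

omit [Fact (0 < L)] in
theorem crowd_nonneg_stab (ℓ : ℝ) (i : Fin N) (x : Cf N L) : 0 ≤ crowd ℓ i x := by
  unfold crowd
  split_ifs <;> norm_num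

end

/-- Local superstability at the healing length `r`, `r² ρ = 1`. -/
theorem superstable (P : Par) : ∃ C ρ₀ : ℝ, 1 ≤ C ∧ 0 < ρ₀ ∧ ∀ (N : ℕ) (L : ℝ) [Fact (0 < L)]
    (w : T3 L → ℝ) (ψ : Cf N L → ℂ), Setup P w ψ → rho N L ≤ ρ₀ → ∀ r, 0 < r →
      r ^ 2 * rho N L = 1 → ∀ (y : T3 L) (φ : Cf N L → ℂ), IsC1 φ →
        ∫ x, (4 * rho N L * nom r y x - C * rho N L ^ 2 * r ^ 3) * ‖φ x‖ ^ 2 ≤
          ES w univ φ - ES w univ ψ * nsq φ := by
  obtain ⟨D, ℓ₀, hD1, hℓ₀, hdy⟩ := dyson_crowd P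
  have hW : 0 < P.W := by
    have := P.hV
    have := P.hR0
    unfold Par.W
    positivity
  set K : ℝ := 4 * D * (P.W + 5) with hK
  have hK1 : 1 ≤ K := by nlinarith
  have hK0 : 0 < K := by linarith
  refine ⟨1344 * (P.W + 5) * K, min (1 / (K * ℓ₀ ^ 3)) (1 / 8 ^ 6), by nlinarith,
    lt_min (by positivity) (by positivity), ?_⟩
  intro N L _ w ψ hS hρ r hr hrρ y φ hφ
  have hρ0 : 0 < rho N L := hS.basic.1
  set ρ := rho N L with hρdef
  have hρ1 : ρ ≤ 1 / (K * ℓ₀ ^ 3) := hρ.trans (min_le_left _ _)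
  have hρ2 : ρ ≤ 1 / 8 ^ 6 := hρ.trans (min_le_right _ _)
  obtain ⟨ℓ, hℓ, hℓ3⟩ : ∃ ℓ : ℝ, 0 < ℓ ∧ ℓ ^ 3 = (K * ρ)⁻¹ :=
    ⟨(K * ρ)⁻¹ ^ (((3 : ℕ) : ℝ)⁻¹), Real.rpow_pos_of_pos (by positivity) _,
      Real.rpow_inv_natCast_pow (by positivity) (by norm_num)⟩
  have hℓK : ℓ ^ 3 * (K * ρ) = 1 := by rw [hℓ3]; field_simp
  have hl0 : ℓ₀ ≤ ℓ := by
    refine le_of_pow_le_pow_left₀ (n := 3) (by norm_num) hℓ.le ?_
    rw [le_div_iff₀ (by positivity)] at hρ1
    refine le_of_mul_le_mul_right ?_ (show 0 < K * ρ by positivity)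
    rw [hℓK]; linarith
  have hl8 : 8 * ℓ ≤ r := by
    refine le_of_pow_le_pow_left₀ (n := 6) (by norm_num) hr.le ?_
    refine le_of_mul_le_mul_right ?_ (show 0 < K ^ 2 * ρ ^ 3 by positivity)
    have e1 : (8 * ℓ) ^ 6 * (K ^ 2 * ρ ^ 3) = 8 ^ 6 * ρ * (ℓ ^ 3 * (K * ρ)) ^ 2 := by ring
    have e2 : r ^ 6 * (K ^ 2 * ρ ^ 3) = K ^ 2 * (r ^ 2 * ρ) ^ 3 := by ring
    rw [e1, e2, hℓK, hrρ]
    rw [le_div_iff₀ (by positivity)] at hρ2
    nlinarith
  have hrL : r ≤ L := by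
    have := hS.r_le (s := r) (t := 1) hr.le one_pos (by rw [one_mul, hrρ])
    linarith
  have hG : ∀ i : Fin N, BM (fun x : Cf N L => (D * ℓ ^ 3)⁻¹ * crowd ℓ i x) := fun i =>
    (BM.const _).mul (BM_crowd ℓ i)
  have hio := inout hS.pot.wp hS.gs (c1t_sqrt_om_stab hr) y
    (G := fun i x => (D * ℓ ^ 3)⁻¹ * crowd ℓ i x) hG (fun i χ hχ => by
      have h1 := hdy N L w hS.pot ℓ hl0 (hl8.trans hrL) i χ hχ
      simp only [mul_assoc]
      rw [integral_const_mul, inv_mul_le_iff₀ (by positivity)]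
      exact h1) hφ
  refine le_trans (integral_mono ?_ ?_ fun x => ?_) hio
  · refine cont_integrable (Continuous.mul (Continuous.sub (continuous_const.mul ?_)
      continuous_const) (hφ.1.norm.pow 2))
    exact continuous_finsetSum _ fun i _ =>
      (om_c1 hr).cont.comp ((continuous_apply i).sub continuous_const)
  · refine BM.integrable (BM.mul (BM.sum fun i _ => BM.sub (BM.mul ?_ (BM.sub ?_ (BM.const _))) ?_)
      (BM.of_cont (hφ.1.norm.pow 2)))
    · exact BM.of_cont (((c1t_sin_stab (c1t_sqrt_om_stab hr)).one i y).1.pow 2)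
    · simp only [div_eq_mul_inv]
      exact (hG i).mul (BM.const _)
    · simp only [div_eq_mul_inv]
      exact (BM.of_cont ((c1t_sqrt_om_stab hr).cont_gT.comp
        ((continuous_apply i).sub continuous_const))).mul (BM.const _)
  · refine mul_le_mul_of_nonneg_right ?_ (sq_nonneg _)
    have hinv : (D * ℓ ^ 3)⁻¹ = 4 * (P.W + 5) * ρ := by
      rw [hℓ3, hK]; field_simp
    have hr2 : ∀ t : ℝ, t / r ^ 2 = ρ * t := fun t => by
      rw [div_eq_iff (by positivity)]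
      linear_combination (-t) * hrρ
    have hi : ∀ i : Fin N, 4 * ρ * om r (x i - y) -
        ρ * (P.W + 5) * ((1 - crowd ℓ i x) * om r (x i - y)) ≤
        Real.sin (√(om r (x i - y))) ^ 2 * ((D * ℓ ^ 3)⁻¹ * crowd ℓ i x / 2 - ρ * P.W) -
          gT (fun z : T3 L => √(om r z)) (x i - y) / 2 := by
      intro i
      obtain ⟨s1, s2⟩ := sin_sqrt_stab (om_pos r (x i - y)) (om_le_one r (x i - y))
      have g1 := gT_sqrt_om_stab hr (x i - y)
      rw [hr2] at g1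
      have c0 := crowd_nonneg_stab ℓ i x
      have ho := om_pos r (x i - y)
      rw [hinv]
      set o := om r (x i - y)
      set s := Real.sin √o ^ 2
      set c := crowd ℓ i x
      have a1 : o / 2 * (2 * (P.W + 5) * ρ * c) ≤ s * (2 * (P.W + 5) * ρ * c) := by gcongr
      have a2 : s * (ρ * P.W) ≤ o * (ρ * P.W) := by gcongr
      have a3 : 0 ≤ ρ * o := by positivity
      nlinarith
    refine le_trans ?_ (Finset.sum_le_sum fun i _ => hi i)
    rw [Finset.sum_sub_distrib, ← Finset.mul_sum, ← Finset.mul_sum]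
    have hu := uncrowded_le hℓ (by linarith : ℓ ≤ r) (by linarith : ℓ ≤ L) y x
    have e3 : 21 * 64 * r ^ 3 / ℓ ^ 3 = 1344 * r ^ 3 * (K * ρ) := by
      rw [hℓ3]; field_simp; norm_num
    rw [e3] at hu
    have a4 : ρ * (P.W + 5) * ∑ i, (1 - crowd ℓ i x) * om r (x i - y) ≤
        ρ * (P.W + 5) * (1344 * r ^ 3 * (K * ρ)) := by gcongr
    unfold nom
    nlinarith

end Pool.Agent.BoseTail
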