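import Pool.Agent.Lib.MP_dec75e_mp.Hol

/-! The form applied to the approximate solution. -/

open MeasureTheory Complex Finset Filter Function
open scoped ComplexConjugate Real Topology

noncomputable section

namespace Pool.Agent.BoseTail

section
variable {N : ℕ} {L : ℝ} [Fact (0 < L)] {P : Par} {w : T3 L → ℝ} {ψ : Cf N L → ℂ}

theorem ip_zero_right_yq (a : ℂ) : ip a 0 = 0 := by simp [ip]

theorem ip_neg_right_yq (a b : ℂ) : ip a (-b) = -ip a b := by simp [ip]

theorem ip_sum_right_yq (a : ℂ) (f : Fin 3 → ℂ) : ip a (∑ c, f c) = ∑ c, ip a (f c) := by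
  simp only [Fin.sum_univ_three, ip_add_right]

omit [Fact (0 < L)] in
theorem cont_win_yq (o j : Fin N) {κ : T3 L → ℂ} (hκ : Continuous κ) {A : Cf N L → ℂ}
    (hA : Continuous A) : Continuous fun x : Cf N L => κ (x o - x j) * A x :=
  (hκ.comp ((continuous_apply o).sub (continuous_apply j))).mul hA

omit [Fact (0 < L)] in
/-- Product rule for a pair function times a function of the configuration. -/
theorem dd_win_yq {o j : Fin N} (hj : j ≠ o) {c : Fin 3} {κ : T3 L → ℂ} (hκ : D1 (d1 c) κ)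
    {A : Cf N L → ℂ} (hA : IsC1 A) (i : Fin N) (x : Cf N L) :
    dd (dir i c) (fun x => κ (x o - x j) * A x) x =
      (if i = o then dd (d1 c) κ (x o - x j) else if i = j then -dd (d1 c) κ (x o - x j) else 0) *
        A x + κ (x o - x j) * dd (dir i c) A x := by
  rw [dd_mul (dir_dir i c) (hκ.pair hj.symm i) (hA.2 i c), dd_pair hκ hj.symm]

theorem rip_lap_yq {o j : Fin N} {κ : T3 L → ℂ} (hκ : C2T κ) {ζ A : Cf N L → ℂ} (hζ : IsC1 ζ)
    (hA : IsC1 A) : rip ζ (fun x => lapT κ (x o - x j) * A x) =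
      ∑ c, rip ζ (fun x => dd (d1 c) (dd (d1 c) κ) (x o - x j) * A x) := by
  rw [← rip_sum_right (f := fun c x => dd (d1 c) (dd (d1 c) κ) (x o - x j) * A x)
    (fun c _ => ((hκ c).2.cdd.comp ((continuous_apply o).sub (continuous_apply j))).mul hA.1) hζ.1]
  congr 1
  funext x
  rw [lapT, Finset.sum_mul]

theorem rT_o_yq {o j : Fin N} (hj : j ≠ o) {κ : T3 L → ℂ} (hκ : C2T κ)
    {ζ A : Cf N L → ℂ} (hζ : IsC1 ζ) (hA : IsC1 A) (c : Fin 3) :
    ∫ x, ip (dd (dir o c) ζ x) (dd (dir o c) (fun x => κ (x o - x j) * A x) x) =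
      -rip ζ (fun x => dd (d1 c) (dd (d1 c) κ) (x o - x j) * A x) -
        rip ζ (fun x => dd (d1 c) κ (x o - x j) * dd (dir o c) A x) +
        rip (dd (dir o c) ζ) (fun x => κ (x o - x j) * dd (dir o c) A x) := by
  have h1 : D1 (dir o c) fun x : Cf N L => dd (d1 c) κ (x o - x j) * A x :=
    ((hκ c).2.pair hj.symm o).mul (dir_dir o c) (hA.2 o c)
  have h2 := ibp_ip (dir_dir o c) (hζ.2 o c) h1
  have h3 : ∫ x, ip (ζ x) (dd (dir o c) (fun x : Cf N L => dd (d1 c) κ (x o - x j) * A x) x) =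
      rip ζ (fun x => dd (d1 c) (dd (d1 c) κ) (x o - x j) * A x) +
        rip ζ (fun x => dd (d1 c) κ (x o - x j) * dd (dir o c) A x) := by
    rw [← rip_add_right (cont_win_yq o j (hκ c).2.cdd hA.1)
      (cont_win_yq o j (hκ c).1.cdd (hA.2 o c).cdd) hζ.1]
    refine integral_congr_ae (Eventually.of_forall fun x => ?_)
    simp only []
    rw [dd_win_yq hj (hκ c).2 hA, if_pos rfl]
  have h4 : ∫ x, ip (dd (dir o c) ζ x) (dd (dir o c) (fun x => κ (x o - x j) * A x) x) =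
      rip (dd (dir o c) ζ) (fun x => dd (d1 c) κ (x o - x j) * A x) +
        rip (dd (dir o c) ζ) (fun x => κ (x o - x j) * dd (dir o c) A x) := by
    rw [← rip_add_right (cont_win_yq o j (hκ c).1.cdd hA.1)
      (cont_win_yq o j (hκ c).1.cont (hA.2 o c).cdd) (hζ.2 o c).cdd]
    refine integral_congr_ae (Eventually.of_forall fun x => ?_)
    simp only []
    rw [dd_win_yq hj (hκ c).1 hA, if_pos rfl]
  rw [h3] at h2
  rw [h4]
  have h5 : rip (dd (dir o c) ζ) (fun x => dd (d1 c) κ (x o - x j) * A x) =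
    ∫ x, ip (dd (dir o c) ζ x) (dd (d1 c) κ (x o - x j) * A x) := rfl
  rw [h5, h2]
  ring

theorem rT_j_yq {o j : Fin N} (hj : j ≠ o) {κ : T3 L → ℂ} (hκ : C2T κ)
    {ζ A : Cf N L → ℂ} (hζ : IsC1 ζ) (hA : IsC1 A) (c : Fin 3) :
    ∫ x, ip (dd (dir j c) ζ x) (dd (dir j c) (fun x => κ (x o - x j) * A x) x) =
      -rip ζ (fun x => dd (d1 c) (dd (d1 c) κ) (x o - x j) * A x) +
        2 * rip ζ (fun x => dd (d1 c) κ (x o - x j) * dd (dir j c) A x) +
        ∫ x, ip (dd (dir j c) (fun x => conj (κ (x o - x j)) * ζ x) x) (dd (dir j c) A x) := by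
  have h1 : D1 (dir j c) fun x : Cf N L => dd (d1 c) κ (x o - x j) * A x :=
    ((hκ c).2.pair hj.symm j).mul (dir_dir j c) (hA.2 j c)
  have h2 := ibp_ip (dir_dir j c) (hζ.2 j c) h1
  have h3 : ∫ x, ip (ζ x) (dd (dir j c) (fun x : Cf N L => dd (d1 c) κ (x o - x j) * A x) x) =
      rip ζ (fun x => dd (d1 c) κ (x o - x j) * dd (dir j c) A x) -
        rip ζ (fun x => dd (d1 c) (dd (d1 c) κ) (x o - x j) * A x) := by
    rw [← rip_sub_right (cont_win_yq o j (hκ c).1.cdd (hA.2 j c).cdd)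
      (cont_win_yq o j (hκ c).2.cdd hA.1) hζ.1]
    refine integral_congr_ae (Eventually.of_forall fun x => ?_)
    simp only []
    rw [dd_win_yq hj (hκ c).2 hA, if_neg hj, if_pos rfl]
    congr 1
    ring
  have h4 : ∫ x, ip (dd (dir j c) ζ x) (dd (dir j c) (fun x => κ (x o - x j) * A x) x) =
      rip (dd (dir j c) ζ) (fun x => κ (x o - x j) * dd (dir j c) A x) -
        rip (dd (dir j c) ζ) (fun x => dd (d1 c) κ (x o - x j) * A x) := by
    rw [← rip_sub_right (cont_win_yq o j (hκ c).1.cont (hA.2 j c).cdd)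
      (cont_win_yq o j (hκ c).1.cdd hA.1) (hζ.2 j c).cdd]
    refine integral_congr_ae (Eventually.of_forall fun x => ?_)
    simp only []
    rw [dd_win_yq hj (hκ c).1 hA, if_neg hj, if_pos rfl]
    congr 1
    ring
  have h6 : ∫ x, ip (dd (dir j c) (fun x => conj (κ (x o - x j)) * ζ x) x) (dd (dir j c) A x) =
      rip (dd (dir j c) ζ) (fun x => κ (x o - x j) * dd (dir j c) A x) -
        rip ζ (fun x => dd (d1 c) κ (x o - x j) * dd (dir j c) A x) := by
    rw [rip, rip, ← integral_sub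
      (cont_integrable (continuous_ip (hζ.2 j c).cdd (cont_win_yq o j (hκ c).1.cont (hA.2 j c).cdd)))
      (cont_integrable (continuous_ip hζ.1 (cont_win_yq o j (hκ c).1.cdd (hA.2 j c).cdd)))]
    refine integral_congr_ae (Eventually.of_forall fun x => ?_)
    simp only []
    rw [dd_win_yq (κ := fun z => conj (κ z)) hj (hκ c).1.conj hζ, if_neg hj, if_pos rfl,
      dd_conj (hκ c).1]
    simp only [ip_mul_right, ← ip_sub_left]
    congr 1
    ring
  rw [h3] at h2
  rw [h4, h6]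
  have h5 : rip (dd (dir j c) ζ) (fun x => dd (d1 c) κ (x o - x j) * A x) =
    ∫ x, ip (dd (dir j c) ζ x) (dd (d1 c) κ (x o - x j) * A x) := rfl
  rw [h5, h2]
  ring

theorem rT_other_yq {o j i : Fin N} (hj : j ≠ o) (hio : i ≠ o) (hij : i ≠ j) {κ : T3 L → ℂ}
    (hκ : C2T κ) {ζ A : Cf N L → ℂ} (hζ : IsC1 ζ) (hA : IsC1 A) :
    rT i ζ (fun x => κ (x o - x j) * A x) = rT i (fun x => conj (κ (x o - x j)) * ζ x) A := by
  unfold rT
  congr 1
  refine Finset.sum_congr rfl fun c _ => integral_congr_ae (Eventually.of_forall fun x => ?_)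
  simp only []
  rw [dd_win_yq hj (hκ c).1 hA, dd_win_yq (κ := fun z => conj (κ z)) hj (hκ c).1.conj hζ,
    if_neg hio, if_neg hij, if_neg hio, if_neg hij, zero_mul, zero_mul, zero_add, zero_add,
    ip_mul_right]

/-- Moving the window through the form. -/
theorem form_window {o j : Fin N} (hj : j ≠ o) {κ : T3 L → ℂ} (hκ : C2T κ)
    {ζ A : Cf N L → ℂ} (hζ : IsC1 ζ) (hA : IsC1 A) :
    rT o ζ (fun x => κ (x o - x j) * A x) +
        rQ P w ψ (univ.erase o) ζ (fun x => κ (x o - x j) * A x) =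
      -rip ζ (fun x => lapT κ (x o - x j) * A x) +
        rQ P w ψ (univ.erase o) (fun x => conj (κ (x o - x j)) * ζ x) A +
        (∑ c, rip ζ (fun x => dd (d1 c) κ (x o - x j) * dd (dir j c) A x)) -
        (1 / 2) * (∑ c, rip ζ (fun x => dd (d1 c) κ (x o - x j) * dd (dir o c) A x)) +
        (1 / 2) * ∑ c, rip (dd (dir o c) ζ) (fun x => κ (x o - x j) * dd (dir o c) A x) := by
  have hjm : j ∈ univ.erase o := Finset.mem_erase.2 ⟨hj, Finset.mem_univ _⟩
  have h1 : rip ζ (fun x => κ (x o - x j) * A x) =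
      rip (fun x => conj (κ (x o - x j)) * ζ x) A := by
    simp only [rip, ip_mul_right]
  have h2 : ∫ x, US w (univ.erase o) x * ip (ζ x) (κ (x o - x j) * A x) =
      ∫ x, US w (univ.erase o) x * ip (conj (κ (x o - x j)) * ζ x) (A x) := by
    simp only [ip_mul_right]
  have h3 : ∑ i ∈ (univ.erase o).erase j, rT i ζ (fun x => κ (x o - x j) * A x) =
      ∑ i ∈ (univ.erase o).erase j, rT i (fun x => conj (κ (x o - x j)) * ζ x) A :=
    Finset.sum_congr rfl fun i hi => rT_other_yq hj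
      (Finset.mem_erase.1 (Finset.mem_erase.1 hi).2).1 (Finset.mem_erase.1 hi).1 hκ hζ hA
  simp only [rQ, rB]
  rw [← Finset.add_sum_erase _ _ hjm, ← Finset.add_sum_erase _ _ hjm, h1, h2, h3,
    rip_lap_yq hκ hζ hA]
  simp only [rT.eq_1 o, rT.eq_1 j, rT_o_yq hj hκ hζ hA, rT_j_yq hj hκ hζ hA, Fin.sum_univ_three]
  ring

theorem QS_smul (S : Finset (Fin N)) (t : ℝ) {φ : Cf N L → ℂ} (hφ : IsC1 φ) :
    QS P w ψ S (fun x => (t : ℂ) * φ x) = t ^ 2 * QS P w ψ S φ := by
  have h1 : ES w S (fun x => (t : ℂ) * φ x) = t ^ 2 * ES w S φ := by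
    rw [← rB_self (hφ.const_mul (t : ℂ)), rB_smul_right t hφ, rB_comm, rB_smul_right t hφ,
      rB_self hφ]
    ring
  have h2 : nsq (fun x => (t : ℂ) * φ x) = t ^ 2 * nsq φ := by
    rw [← rip_self, rip_smul_right, rip_comm, rip_smul_right, rip_self]
    ring
  rw [QS, QS, h1, h2]
  ring

/-- Inserting the larger hole does not change the form. -/
theorem rQ_insert_hole {B δ : ℝ} {θ η η' b : T3 L → ℝ} (h : Cuts B δ θ η η' b) (hδ : 0 < δ)
    {o j : Fin N} {g : Cf N L → ℂ} (hg : IsC1 g) :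
    rQ P w ψ (univ.erase o) g (psit o j θ η b ψ) =
      rQ P w ψ (univ.erase o) (mul (hol o j η') g) (psit o j θ η b ψ) := by
  have _ := hg
  have key : ∀ x : Cf N L,
      ip (g x) (psit o j θ η b ψ x) = ip (mul (hol o j η') g x) (psit o j θ η b ψ x) ∧
      ∀ i c, ip (dd (dir i c) g x) (dd (dir i c) (psit o j θ η b ψ) x) =
        ip (dd (dir i c) (mul (hol o j η') g) x) (dd (dir i c) (psit o j θ η b ψ) x) := by
    intro x
    by_cases hx : ∃ l ∈ (univ.erase o).erase j, ‖x l - x o‖ < 8 / δ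
    · obtain ⟨l, hl, hx⟩ := hx
      obtain ⟨h1, h2⟩ := psit_supp h ψ hl hx
      refine ⟨by rw [h1, ip_zero_right_yq, ip_zero_right_yq], fun i c => ?_⟩
      rw [h2, ip_zero_right_yq, ip_zero_right_yq]
    · have h1 : ∀ᶠ y in 𝓝 x, hol o j η' y = 1 := by
        refine hol_eventually_one h.hη' fun l hl => ?_
        have h2 : 8 / δ ≤ ‖x l - x o‖ := not_lt.1 fun h3 => hx ⟨l, hl, h3⟩
        have h3 : 3 * (2 / δ) < 8 / δ := by
          rw [← mul_div_assoc]
          exact div_lt_div_of_pos_right (by norm_num) hδ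
        linarith
      have h2 : mul (hol o j η') g =ᶠ[𝓝 x] g := h1.mono fun y hy => by simp [mul, hy]
      refine ⟨by rw [h2.self_of_nhds], fun i c => ?_⟩
      rw [dd_congr_nhds (dir_dir i c) h2]
  simp only [rQ, rB, rT, rip, fun x => (key x).1, fun x => (key x).2]

/-- The pieces cut out by a real window. -/
theorem piece_yq (hw : Wp P w) (hgs : GS w ψ) {B δ k : ℝ} {η' : T3 L → ℝ} (hδ : 0 < δ)
    (hη : Hole B (2 / δ) η') (hk : δ ≤ k) (o : Fin N) {u : T3 L → ℝ} (hu : C1T u)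
    (hout : ∀ z, 1 / δ < ‖z‖ → u z = 0) (hle : ∀ z, |u z| ≤ 1 / 2)
    (hd : ∀ c z, |dd (d1 c) u z| ≤ k / 2) {ζ : Cf N L → ℂ} (hζ : IsC1 ζ) :
    ∑ j ∈ univ.erase o, QS P w ψ (univ.erase o)
        (mul (fun x => hol o j η' x * u (x o - x j)) ζ) ≤
      QS P w ψ (univ.erase o) ζ + (1 + B ^ 2) * k ^ 2 * nsq ζ := by
  have h12 : 1 / δ < 2 / δ := div_lt_div_of_pos_right (by norm_num) hδ
  have hF : ∀ j ∈ univ.erase o, IsC1 fun x : Cf N L => hol o j η' x * u (x o - x j) :=
    fun j hj => (hol_c1 hη o j).mul' (hu.pair (Finset.mem_erase.1 hj).1.symm)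
  have hdd : ∀ j ∈ univ.erase o, ∀ i ∈ univ.erase o, ∀ c (x : Cf N L),
      dd (dir i c) (fun x : Cf N L => hol o j η' x * u (x o - x j)) x =
        dd (dir i c) (hol o j η') x * u (x o - x j) +
          hol o j η' x * (if i = j then -dd (d1 c) u (x o - x j) else 0) := by
    intro j hj i hi c x
    have hjo := (Finset.mem_erase.1 hj).1
    rw [dd_mul (dir_dir i c) ((hol_c1 hη o j).2 i c) ((hu c).pair hjo.symm i),
      dd_pair (hu c) hjo.symm, if_neg (Finset.mem_erase.1 hi).1]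
  have hsupp : ∀ (x : Cf N L), ∀ j ∈ univ.erase o,
      ¬(‖x o - x j‖ ≤ 1 / δ ∧ ∀ l ∈ (univ.erase o).erase j, 1 / δ < ‖x l - x o‖) →
      hol o j η' x * u (x o - x j) = 0 ∧ ∀ i ∈ univ.erase o, ∀ c,
        dd (dir i c) (fun x : Cf N L => hol o j η' x * u (x o - x j)) x = 0 := by
    intro x j hj hx
    by_cases h1 : ‖x o - x j‖ ≤ 1 / δ
    · have h2 : ∃ l ∈ (univ.erase o).erase j, ‖x l - x o‖ ≤ 1 / δ := by
        by_contra h3
        exact hx ⟨h1, fun l hl => not_le.1 fun h4 => h3 ⟨l, hl, h4⟩⟩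
      obtain ⟨l, hl, h3⟩ := h2
      have h4 := hol_eventually_zero hη hl (h3.trans_lt h12)
      refine ⟨by rw [h4.self_of_nhds, zero_mul], fun i hi c => ?_⟩
      rw [hdd j hj i hi, h4.self_of_nhds, dd_of_eventually_const (dir_dir i c) h4]
      ring
    · have h2 := not_le.1 h1
      refine ⟨by rw [hout _ h2, mul_zero], fun i hi c => ?_⟩
      rw [hdd j hj i hi, hout _ h2, dd_d1_eq_zero_of_out hout c h2]
      simp
  have hsq : ∀ z, u z ^ 2 ≤ 1 / 4 := fun z => by
    have := abs_le.1 (hle z)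
    nlinarith [this.1, this.2]
  have h1 : ∀ x : Cf N L, ∑ j ∈ univ.erase o, (hol o j η' x * u (x o - x j)) ^ 2 ≤ 1 / 2 := by
    intro x
    refine sum_disj_le (x := x) (s := 1 / δ) (by norm_num) (fun j _ => ?_) fun j hj hne => ?_
    · have a1 := hol_nonneg hη o j x
      have a2 := hol_le_one hη o j x
      have a3 : hol o j η' x ^ 2 ≤ 1 := by nlinarith
      have a4 := hsq (x o - x j)
      rw [mul_pow]
      nlinarith [sq_nonneg (u (x o - x j)), sq_nonneg (hol o j η' x)]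
    · by_contra hx
      exact hne (by rw [(hsupp x j hj hx).1]; ring)
  have h2 : ∀ x : Cf N L, ∑ i ∈ univ.erase o, ∑ j ∈ univ.erase o,
      gP i (fun x : Cf N L => hol o j η' x * u (x o - x j)) x ≤ (1 + B ^ 2) * k ^ 2 := by
    intro x
    rw [Finset.sum_comm]
    refine sum_disj_le (x := x) (s := 1 / δ) (by positivity) (fun j hj => ?_) fun j hj hne => ?_
    · have hjo := (Finset.mem_erase.1 hj).1
      rw [← Finset.add_sum_erase _ _ hj]
      have a1 : gP j (fun x : Cf N L => hol o j η' x * u (x o - x j)) x ≤ k ^ 2 := by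
        have b1 : ∀ c, ‖dd (dir j c) (fun x : Cf N L => hol o j η' x * u (x o - x j)) x‖ ^ 2 ≤
            k ^ 2 / 4 := by
          intro c
          rw [hdd j hj j hj, dd_hol_self hη hjo, if_pos rfl, zero_mul, zero_add, Real.norm_eq_abs,
            sq_abs, mul_pow, neg_sq]
          have c1 := hol_nonneg hη o j x
          have c2 := hol_le_one hη o j x
          have c3 : hol o j η' x ^ 2 ≤ 1 := by nlinarith
          have c4 := abs_le.1 (hd c (x o - x j))
          have c5 : dd (d1 c) u (x o - x j) ^ 2 ≤ k ^ 2 / 4 := by nlinarith [c4.1, c4.2]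
          nlinarith [sq_nonneg (dd (d1 c) u (x o - x j)), sq_nonneg (hol o j η' x)]
        have b2 := b1 0
        have b3 := b1 1
        have b4 := b1 2
        rw [gP, Fin.sum_univ_three]
        nlinarith [sq_nonneg k]
      have a2 : ∑ i ∈ (univ.erase o).erase j,
          gP i (fun x : Cf N L => hol o j η' x * u (x o - x j)) x ≤
          ∑ i ∈ (univ.erase o).erase j, gP i (hol o j η') x := by
        refine Finset.sum_le_sum fun i hi => Finset.sum_le_sum fun c _ => ?_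
        rw [hdd j hj i (Finset.mem_erase.1 hi).2, if_neg (Finset.mem_erase.1 hi).1, mul_zero,
          add_zero, Real.norm_eq_abs, Real.norm_eq_abs, sq_abs, sq_abs, mul_pow]
        have := hsq (x o - x j)
        nlinarith [sq_nonneg (dd (dir i c) (hol o j η') x)]
      have a3 := sum_gP_hol hη o j x
      have a4 : 3 * (B / (2 / δ)) ^ 2 = 3 / 4 * (B ^ 2 * δ ^ 2) := by
        field_simp
        ring
      have a5 : B ^ 2 * δ ^ 2 ≤ B ^ 2 * k ^ 2 :=
        mul_le_mul_of_nonneg_left (pow_le_pow_left₀ hδ.le hk 2) (sq_nonneg B)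
      have a6 : 0 ≤ B ^ 2 * δ ^ 2 := by positivity
      nlinarith
    · by_contra hx
      refine hne (Finset.sum_eq_zero fun i hi => Finset.sum_eq_zero fun c _ => ?_)
      rw [(hsupp x j hj hx).2 i hi c]
      simp
  refine (QS_pieces hw hgs (univ.erase o) (univ.erase o) hF h1 hζ).trans ?_
  have hc : ∀ i, Continuous fun x : Cf N L => (∑ j ∈ univ.erase o,
      gP i (fun x : Cf N L => hol o j η' x * u (x o - x j)) x) * ‖ζ x‖ ^ 2 := fun i =>
    (continuous_finsetSum _ fun j hj => (hF j hj).cont_gP i).mul (hζ.1.norm.pow 2)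
  rw [← integral_finsetSum _ fun i _ => cont_integrable (hc i), nsq, ← integral_const_mul]
  refine add_le_add le_rfl (integral_mono (cont_integrable (continuous_finsetSum _ fun i _ => hc i))
    (cont_integrable (continuous_const.mul (hζ.1.norm.pow 2))) fun x => ?_)
  simp only []
  rw [← Finset.sum_mul]
  exact mul_le_mul_of_nonneg_right (h2 x) (sq_nonneg _)

end

theorem window_pieces (B : ℝ) : ∃ K : ℝ, 1 ≤ K ∧ ∀ (P : Par) (N : ℕ) (L : ℝ) [Fact (0 < L)]
    (w : T3 L → ℝ) (ψ : Cf N L → ℂ), Wp P w → GS w ψ → ∀ (δ : ℝ) (η' : T3 L → ℝ), 0 < δ →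
      Hole B (2 / δ) η' → ∀ (o : Fin N) (H k : ℝ) (κ : T3 L → ℂ), 1 ≤ H → δ ≤ k → Win H δ κ →
        (∀ c z, ‖dd (d1 c) κ z‖ ≤ H * δ ^ 3 * k) → ∀ ζ : Cf N L → ℂ, IsC1 ζ →
        ∑ j ∈ univ.erase o, QS P w ψ (univ.erase o)
            (mul (hol o j η') fun x => conj (κ (x o - x j)) * ζ x) ≤
          K * H ^ 2 * δ ^ 6 * (QS P w ψ (univ.erase o) ζ + k ^ 2 * nsq ζ) := by
  refine ⟨16 * (1 + B ^ 2), by nlinarith [sq_nonneg B], ?_⟩
  intro P N L _ w ψ hw hgs δ η' hδ hη o H k κ hH hk hκ hd ζ hζ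
  obtain ⟨t, ht⟩ : ∃ t : ℝ, t = 2 * (H * δ ^ 3) := ⟨_, rfl⟩
  have ht0 : 0 < t := by rw [ht]; positivity
  have main : ∀ A : ℂ →L[ℝ] ℝ, (∀ a, |A a| ≤ ‖a‖) →
      C1T (fun z => t⁻¹ * A (κ z)) ∧
      ∑ j ∈ univ.erase o, QS P w ψ (univ.erase o)
        (mul (fun x => hol o j η' x * (t⁻¹ * A (κ (x o - x j)))) ζ) ≤
      QS P w ψ (univ.erase o) ζ + (1 + B ^ 2) * k ^ 2 * nsq ζ := by
    intro A hA
    have hc : C1T fun z => t⁻¹ * A (κ z) := fun c => ((hκ.c2 c).1.clm A).const_mul t⁻¹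
    refine ⟨hc, piece_yq hw hgs hδ hη hk o hc (fun z hz => ?_) (fun z => ?_) (fun c z => ?_) hζ⟩
    · rw [hκ.out z hz, map_zero, mul_zero]
    · rw [abs_mul, abs_of_pos (inv_pos.2 ht0), inv_mul_le_iff₀ ht0]
      have := (hA (κ z)).trans (hκ.le z)
      linarith
    · rw [dd_const_mul t⁻¹ ((hκ.c2 c).1.clm A), dd_clm A (hκ.c2 c).1, abs_mul,
        abs_of_pos (inv_pos.2 ht0), inv_mul_le_iff₀ ht0]
      have := (hA _).trans (hd c z)
      rw [ht]
      linarith
  obtain ⟨c1, h1⟩ := main Complex.reCLM fun a => Complex.abs_re_le_norm a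
  obtain ⟨c2, h2⟩ := main (-Complex.imCLM) fun a => by simpa using Complex.abs_im_le_norm a
  have hj : ∀ j ∈ univ.erase o, QS P w ψ (univ.erase o)
      (mul (hol o j η') fun x => conj (κ (x o - x j)) * ζ x) ≤
      2 * t ^ 2 * (QS P w ψ (univ.erase o)
        (mul (fun x => hol o j η' x * (t⁻¹ * Complex.reCLM (κ (x o - x j)))) ζ) +
        QS P w ψ (univ.erase o)
        (mul (fun x => hol o j η' x * (t⁻¹ * (-Complex.imCLM) (κ (x o - x j)))) ζ)) := by
    intro j hj
    have hjo := (Finset.mem_erase.1 hj).1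
    have f1 : IsC1 (mul (fun x => hol o j η' x * (t⁻¹ * Complex.reCLM (κ (x o - x j)))) ζ) :=
      ((hol_c1 hη o j).mul' (c1.pair hjo.symm)).mul hζ
    have f2 : IsC1 (mul (fun x => hol o j η' x * (t⁻¹ * (-Complex.imCLM) (κ (x o - x j)))) ζ) :=
      ((hol_c1 hη o j).mul' (c2.pair hjo.symm)).mul hζ
    have e : (mul (hol o j η') fun x => conj (κ (x o - x j)) * ζ x) = fun x => (t : ℂ) *
        (mul (fun x => hol o j η' x * (t⁻¹ * Complex.reCLM (κ (x o - x j)))) ζ x +
          I * mul (fun x => hol o j η' x * (t⁻¹ * (-Complex.imCLM) (κ (x o - x j)))) ζ x) := by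
      funext x
      have e1 : conj (κ (x o - x j)) = ((κ (x o - x j)).re : ℂ) - I * (κ (x o - x j)).im := by
        apply Complex.ext <;> simp
      have e2 : (t : ℂ) ≠ 0 := by exact_mod_cast ht0.ne'
      simp only [mul, neg_apply, Complex.reCLM_apply, Complex.imCLM_apply]
      rw [e1]
      push_cast
      field_simp
      ring
    rw [e, QS_smul _ t (f1.add (f2.const_mul I))]
    have h3 := QS_add_le hw hgs (univ.erase o) f1 (f2.const_mul I)
    rw [QS_I_mul f2] at h3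
    have h4 := mul_le_mul_of_nonneg_left h3 (sq_nonneg t)
    linarith
  refine (Finset.sum_le_sum hj).trans ?_
  rw [← Finset.mul_sum, Finset.sum_add_distrib]
  have q0 := QS_nonneg hw hgs (univ.erase o) hζ
  have n0 := nsq_nonneg ζ
  have h5 := mul_le_mul_of_nonneg_left (add_le_add h1 h2) (by positivity : 0 ≤ 2 * t ^ 2)
  refine h5.trans ?_
  have h6 : 0 ≤ H ^ 2 * δ ^ 6 * (B ^ 2 * QS P w ψ (univ.erase o) ζ) := by positivity
  rw [ht]
  nlinarith

end Pool.Agent.BoseTail
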